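import Pool.Agent.OC.Stmts

/-!
# Hoelder's inequality for power series
-/

open scoped ENNReal

namespace Pool.Agent.OC

namespace HOLD

theorem pw_comm (x : ℝ≥0∞) (s : ℝ) (n : ℕ) : (x ^ n) ^ s = (x ^ s) ^ n := by
  rw [← ENNReal.rpow_natCast, ← ENNReal.rpow_natCast, ← ENNReal.rpow_mul, ← ENNReal.rpow_mul,
    mul_comm]

theorem pointwise (c x y : ℝ≥0∞) (n : ℕ) {t : ℝ} (h0 : 0 < t) (h1 : t < 1) :
    c * (x ^ (1 - t) * y ^ t) ^ n = (c * x ^ n) ^ (1 - t) * (c * y ^ n) ^ t := by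
  have h2 : 0 ≤ 1 - t := by linarith
  rw [ENNReal.mul_rpow_of_nonneg _ _ h2, ENNReal.mul_rpow_of_nonneg _ _ h0.le, pw_comm, pw_comm]
  have h3 : c ^ (1 - t) * c ^ t = c := by
    rw [← ENNReal.rpow_add_of_nonneg _ _ h2 h0.le, sub_add_cancel, ENNReal.rpow_one]
  calc c * (x ^ (1 - t) * y ^ t) ^ n
      = (c ^ (1 - t) * c ^ t) * ((x ^ (1 - t)) ^ n * (y ^ t) ^ n) := by rw [h3, mul_pow]
    _ = c ^ (1 - t) * (x ^ (1 - t)) ^ n * (c ^ t * (y ^ t) ^ n) := by ring

end HOLD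

theorem hold_thm : HOLD_Stmt := by
  intro α c n x y t h0 h1 _ _
  let _ : MeasurableSpace α := ⊤
  have h2 := ENNReal.lintegral_mul_norm_pow_le (μ := MeasureTheory.Measure.count)
    (f := fun a => c a * x ^ n a) (g := fun a => c a * y ^ n a)
    (p := 1 - t) (q := t) (measurable_from_top.aemeasurable) (measurable_from_top.aemeasurable)
    (by linarith) h0.le (by ring)
  rw [MeasureTheory.lintegral_count, MeasureTheory.lintegral_count,
    MeasureTheory.lintegral_count] at h2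
  refine le_trans (le_of_eq ?_) h2
  exact tsum_congr fun a => HOLD.pointwise (c a) x y (n a) h0 h1

end Pool.Agent.OC
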