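import Pool.Agent.OC.Defs
import Pool.Agent.Lib_helper74.MG.Final

/-!
# Convex occupation energies (MP_f6626d_co): elementary lemmas on occupations and weights

Useful old lemmas: `cnt_vt`, `cnt_vt_append`, `cnt_vt_head`, `cnt_below`, `cnt_above`, `cnt_start`,
`cnt_end`, `Bri_cut`, `Fp_cut`, `Fp_cancel`, `Fp_split`, `Bri_append`, `Bri_lev`, `first_visit`,
`last_visit`, `tail_gt`, `tail_lt`, `SAWs_left`, `SAWs_right`, `SAWs_rv`, `rv_length`,
`rfa_length`, `SAWs_rfa`, `lev_ep_append`, `lev_ep_rv` (namespace `Pool.Agent.MG`),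
`cnt_eq_zero`, `cnt_append`, `cnt_map_add` (namespace `Pool.Agent.SapR`).
-/

set_option autoImplicit false

namespace Pool.Agent.OC

open Finset Pool.Agent.Lib27 Pool.Agent.SapR
open Pool.Agent.MG (Bri Brp Irr Nc Fp Fpp Bad SB CC SW dip cc chi rfa)
open scoped NNReal ENNReal

/-! ### occupations -/

theorem occ_nil (k : ℤ) : occ [] k = if k = 0 then 1 else 0 := by
  unfold occ
  rw [vt_nil, cnt_cons, cnt_nil, add_zero]
  have : lev (0 : ℤ × ℤ) = 0 := rfl
  rw [this]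
  split_ifs <;> first | rfl | omega

theorem occ_append (u v : Wd) (k : ℤ) :
    occ (u ++ v) k = cnt (vs 0 u) k + occ v (k - lev (ep 0 u)) :=
  MG.cnt_vt_append u v k

theorem occ_eq_vs (w : Wd) (k : ℤ) :
    occ w k = cnt (vs 0 w) k + if lev (ep 0 w) = k then 1 else 0 := MG.cnt_vt w k

/-- the junction is counted twice -/
theorem occ_append' (u v : Wd) (k : ℤ) :
    occ (u ++ v) k + (if lev (ep 0 u) = k then 1 else 0) = occ u k + occ v (k - lev (ep 0 u)) := by
  rw [occ_append, occ_eq_vs u]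
  omega

theorem occ_append_of_ne (u v : Wd) {k : ℤ} (h : lev (ep 0 u) ≠ k) :
    occ (u ++ v) k = occ u k + occ v (k - lev (ep 0 u)) := by
  have := occ_append' u v k
  rw [if_neg h] at this
  omega

theorem occ_append_eq (u v : Wd) :
    occ (u ++ v) (lev (ep 0 u)) + 1 = occ u (lev (ep 0 u)) + occ v 0 := by
  have := occ_append' u v (lev (ep 0 u))
  rw [if_pos rfl, sub_self] at this
  exact this

theorem occ_pos {w : Wd} {k : ℤ} : 0 < occ w k ↔ ∃ p ∈ vt 0 w, lev p = k := by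
  rw [Nat.pos_iff_ne_zero, ne_eq]
  unfold occ
  rw [cnt_eq_zero]
  push Not
  rfl

theorem occ_eq_zero {w : Wd} {k : ℤ} : occ w k = 0 ↔ ∀ p ∈ vt 0 w, lev p ≠ k := by
  unfold occ
  rw [cnt_eq_zero]

theorem occ_zero_pos (w : Wd) : 0 < occ w 0 := occ_pos.2 ⟨0, by rw [vt_head]; exact List.mem_cons_self, rfl⟩

theorem occ_end_pos (w : Wd) : 0 < occ w (lev (ep 0 w)) := occ_pos.2 ⟨_, ep_mem_vt _ _, rfl⟩

theorem occ_rv (w : Wd) (k : ℤ) : occ (rv w) k = occ w (k + lev (ep 0 w)) := MG.cnt_rv w k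

theorem cnt_map_of_lev {f : ℤ × ℤ → ℤ × ℤ} (hf : ∀ v, lev (f v) = -lev v) (l : List (ℤ × ℤ))
    (k : ℤ) : cnt (l.map f) k = cnt l (-k) := by
  unfold cnt
  rw [List.countP_map]
  congr 1
  funext v
  simp only [Function.comp, hf]
  congr 1
  exact propext ⟨fun h => by omega, fun h => by omega⟩

theorem occ_rfa (w : Wd) (k : ℤ) : occ (rfa w) k = occ w (-k) := by
  unfold occ
  rw [MG.vt_rfa0]
  exact cnt_map_of_lev (fun v => by unfold lev; ring) _ _

theorem ep_rfa (w : Wd) : lev (ep 0 (rfa w)) = -lev (ep 0 w) := by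
  have h1 : ep 0 (rfa w) ∈ vt 0 (rfa w) := ep_mem_vt _ _
  have h2 := congrArg List.getLast? (MG.vt_rfa0 w)
  unfold vt at h2
  rw [List.getLast?_append, List.getLast?_singleton, List.map_append, List.getLast?_append] at h2
  simp only [List.map_cons, List.map_nil, List.getLast?_singleton, Option.some_or,
    Option.some.injEq] at h2
  rw [h2]
  unfold lev
  ring

/-- all levels are between `-length` and `length` -/
theorem abs_lev_le {w : Wd} {p : ℤ × ℤ} (hp : p ∈ vt 0 w) : |lev p| ≤ w.length := by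
  have h1 := MG.lev_le_length w 0 p hp
  have h2 : (-p.2, -p.1) ∈ vt 0 (rfa w) := by
    rw [MG.vt_rfa0]
    exact List.mem_map.2 ⟨p, hp, rfl⟩
  have h3 := MG.lev_le_length _ _ _ h2
  rw [MG.rfa_length] at h3
  have h4 : lev (0 : ℤ × ℤ) = 0 := rfl
  rw [h4] at h1 h3
  unfold lev at h1 h3 ⊢
  rw [abs_le]
  constructor <;> linarith

theorem occ_far {w : Wd} {k : ℤ} (hk : (w.length : ℤ) < |k|) : occ w k = 0 := by
  rw [occ_eq_zero]
  rintro p hp rfl
  exact absurd (abs_lev_le hp) (by omega)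

/-- the number of vertices -/
theorem sum_cnt (l : List (ℤ × ℤ)) (s : Finset ℤ) (hs : ∀ p ∈ l, lev p ∈ s) :
    ∑ k ∈ s, cnt l k = l.length := by
  induction l with
  | nil => simp [cnt_nil]
  | cons a l ih =>
    simp_rw [cnt_cons, sum_add_distrib]
    rw [ih (fun p hp => hs p (List.mem_cons_of_mem _ hp)), List.length_cons, add_comm]
    congr 1
    rw [sum_ite_eq, if_pos (hs a List.mem_cons_self)]

theorem sum_occ (w : Wd) (s : Finset ℤ) (hs : ∀ p ∈ vt 0 w, lev p ∈ s) :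
    ∑ k ∈ s, occ w k = w.length + 1 := by
  have := sum_cnt (vt 0 w) s hs
  rw [vt_length] at this
  exact this

/-! ### bridges -/

theorem occ_Bri_zero {H : ℕ} {u : Wd} (hu : u ∈ Bri H) : occ u 0 = 1 := MG.cnt_start hu

theorem occ_Bri_top {H : ℕ} {u : Wd} (hu : u ∈ Bri H) : occ u H = 1 :=
  MG.cnt_end (MG.Bri_sub_Fp H hu)

theorem occ_Bri_out {H : ℕ} {u : Wd} (hu : u ∈ Bri H) {k : ℤ} (hk : k < 0 ∨ (H : ℤ) < k) :
    occ u k = 0 := by
  rw [occ_eq_zero]
  rintro p hp rfl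
  have := MG.Bri_lev hu hp
  omega

theorem occ_Bri_append {H H' : ℕ} {u v : Wd} (hu : u ∈ Bri H) (hv : v ∈ Bri H') (k : ℤ) :
    occ (u ++ v) k = if k ≤ H then occ u k else occ v (k - H) := by
  have h2 := hu.2.1
  split_ifs with hk
  · rcases hk.lt_or_eq with hk | hk
    · rw [occ_append_of_ne u v (by rw [h2]; omega), h2, occ_Bri_out hv (Or.inl (by omega)),
        add_zero]
    · subst hk
      have := occ_append_eq u v
      rw [h2, occ_Bri_zero hv] at this
      omega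
  · rw [occ_append_of_ne u v (by rw [h2]; omega), h2, occ_Bri_out hu (Or.inr (by omega)),
      zero_add]

/-! ### weights of pairs of bridges -/

variable {b : ℕ → ℝ≥0}

theorem Wp_append (h : IsW b) (z : ℝ≥0∞) {H H' : ℕ} {p q : Wd × Wd} (hp : p ∈ Brp H)
    (hq : q ∈ Brp H') : Wp b z (p.1 ++ q.1, p.2 ++ q.2) = Wp b z p * Wp b z q := by
  obtain ⟨p1, p2⟩ := p
  obtain ⟨q1, q2⟩ := q
  obtain ⟨hp1, hp2⟩ := hp
  obtain ⟨hq1, hq2⟩ := hq
  simp only at hp1 hp2 hq1 hq2
  unfold Wp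
  simp only
  have e1 : BW b (fun k => occ (p1 ++ q1) k + occ (p2 ++ q2) k) =
      BW b (fun k => occ p1 k + occ p2 k) * BW b (fun k => occ q1 k + occ q2 k) := by
    rw [← BW_sub b H (fun k => occ q1 k + occ q2 k)]
    refine BW_mul_of_sep h fun k => ?_
    rw [occ_Bri_append hp1 hq1, occ_Bri_append hp2 hq2]
    rcases lt_trichotomy k H with hk | hk | hk
    · left
      rw [if_pos hk.le, if_pos hk.le, occ_Bri_out hq1 (Or.inl (by omega)),
        occ_Bri_out hq2 (Or.inl (by omega))]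
      exact ⟨rfl, by omega⟩
    · left
      rw [if_pos hk.le, if_pos hk.le, hk, sub_self, occ_Bri_zero hq1, occ_Bri_zero hq2]
      exact ⟨rfl, by omega⟩
    · right
      rw [if_neg (by omega), if_neg (by omega), occ_Bri_out hp1 (Or.inr hk),
        occ_Bri_out hp2 (Or.inr hk)]
      exact ⟨rfl, by omega⟩
  rw [e1, List.length_append, List.length_append]
  rw [show p1.length + q1.length + (p2.length + q2.length) =
    (p1.length + p2.length) + (q1.length + q2.length) by ring, pow_add]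
  ring

theorem Wp_nil (h : IsW b) (z : ℝ≥0∞) : Wp b z ([], []) = 1 := by
  unfold Wp
  simp only [List.length_nil, add_zero, pow_zero, one_mul]
  refine BW_one h fun k => ?_
  rw [occ_nil]
  split_ifs <;> omega

theorem Y_zero (h : IsW b) (z : ℝ≥0∞) : Y b z 0 = 1 := by
  have : (Brp 0 : Set (Wd × Wd)) = {(([], []) : Wd × Wd)} := by
    unfold MG.Brp
    rw [MG.Bri_zero, Set.singleton_prod_singleton]
  unfold Y
  rw [this, gs_singleton, Wp_nil h]

theorem Wp_mono {z z' : ℝ≥0∞} (h : z ≤ z') (p : Wd × Wd) : Wp b z p ≤ Wp b z' p :=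
  mul_le_mul_left (pow_le_pow_left₀ bot_le h _) _

theorem Y_mono {z z' : ℝ≥0∞} (h : z ≤ z') (m : ℕ) : Y b z m ≤ Y b z' m :=
  gs_le _ _ subset_rfl fun p _ => Wp_mono h p

/-- the reversed and reflected bridge -/
theorem rfa_rv_Bri {H : ℕ} {u : Wd} (hu : u ∈ Bri H) : rfa (rv u) ∈ Bri H := by
  rcases Nat.eq_zero_or_pos H with rfl | hH
  · rw [MG.Bri_zero] at hu
    have : u = [] := hu
    subst this
    rw [MG.Bri_zero]
    rfl
  have hne : rfa (rv u) ≠ [] := by
    intro h1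
    have h2 := congrArg List.length h1
    rw [MG.rfa_length, MG.rv_length, List.length_nil] at h2
    exact MG.ne_nil_of_Tp hH hu.2.1 (List.length_eq_zero_iff.1 h2)
  have hend : lev (ep 0 (rfa (rv u))) = H := by rw [ep_rfa, MG.lev_ep_rv, hu.2.1]; ring
  have hocc : ∀ k : ℤ, occ (rfa (rv u)) k = occ u (-k + H) := by
    intro k
    rw [occ_rfa, occ_rv, hu.2.1]
  have hlev : ∀ v ∈ vt 0 (rfa (rv u)), 0 ≤ lev v ∧ lev v ≤ H := by
    intro v hv
    have h1 : 0 < occ (rfa (rv u)) (lev v) := occ_pos.2 ⟨v, hv, rfl⟩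
    rw [hocc] at h1
    by_contra hcon
    rw [occ_Bri_out hu (by omega)] at h1
    exact absurd h1 (lt_irrefl _)
  have hS : SAWs (rfa (rv u)) := MG.SAWs_rfa (MG.SAWs_rv hu.1)
  refine ⟨hS, hend, ?_⟩
  intro v hv
  have hv' := (MG.mem_int hne hS).1 hv
  have h1 := hlev v hv'.1
  have h0 : lev v ≠ 0 := by
    intro h0
    have h2 : occ (rfa (rv u)) 0 = 1 := by rw [hocc, neg_zero, zero_add, occ_Bri_top hu]
    have h3 : cnt (vt 0 (rfa (rv u))) 0 = (if (0 : ℤ) = 0 then 1 else 0) +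
      cnt (vt 0 (rfa (rv u))).tail 0 := MG.cnt_vt_head _ _
    unfold occ at h2
    rw [h2, if_pos rfl] at h3
    have h4 := (cnt_eq_zero _ _).1 (show cnt (vt 0 (rfa (rv u))).tail 0 = 0 by omega) v
      ((MG.mem_vt_tail_iff hne).2 (Or.inl hv))
    exact h4 h0
  have hH' : lev v ≠ H := by
    intro h0
    have h2 : occ (rfa (rv u)) H = 1 := by rw [hocc, neg_add_cancel, occ_Bri_zero hu]
    rw [occ_eq_vs, hend, if_pos rfl] at h2
    exact (cnt_eq_zero _ _).1 (show cnt (vs 0 (rfa (rv u))) H = 0 by omega) v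
      (List.mem_of_mem_tail hv) h0
  exact ⟨lt_of_le_of_ne h1.1 (Ne.symm h0), lt_of_le_of_ne h1.2 hH'⟩

/-! ### linear domination -/

/-- (D) for one word, with an arbitrary background on the finite set `s` of levels -/
theorem dom_word (h : IsW b) {z C y : ℝ≥0∞} (hd : ∀ v, z ^ v * b v ≤ C * y ^ v) (w : Wd)
    (s : Finset ℤ) (hs : ∀ p ∈ vt 0 w, lev p ∈ s) :
    z ^ (w.length + 1) * BW b (occ w) ≤ C ^ s.card * y ^ (w.length + 1) := by
  have h1 := BW_dom h hd (o := occ w) s (fun k hk => occ_eq_zero.2 fun p hp he => hk (he ▸ hs p hp))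
  rw [sum_occ w s hs] at h1
  exact h1

/-- (D) for pairs of words -/
theorem dom_pair (h : IsW b) {z C y : ℝ≥0∞} (hd : ∀ v, z ^ v * b v ≤ C * y ^ v) (p : Wd × Wd)
    (s : Finset ℤ) (hs : ∀ v ∈ vt 0 p.1, lev v ∈ s) (hs' : ∀ v ∈ vt 0 p.2, lev v ∈ s) :
    z ^ 2 * Wp b z p ≤ C ^ s.card * y ^ (p.1.length + p.2.length + 2) := by
  have h1 := BW_dom h hd (o := fun k => occ p.1 k + occ p.2 k) s (fun k hk => by
    have e1 : occ p.1 k = 0 := occ_eq_zero.2 fun v hv he => hk (he ▸ hs v hv)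
    have e2 : occ p.2 k = 0 := occ_eq_zero.2 fun v hv he => hk (he ▸ hs' v hv)
    rw [e1, e2])
  rw [sum_add_distrib, sum_occ _ s hs, sum_occ _ s hs'] at h1
  rw [show p.1.length + 1 + (p.2.length + 1) = p.1.length + p.2.length + 2 by ring] at h1
  unfold Wp
  rw [← mul_assoc, ← pow_add, add_comm 2]
  exact h1

end Pool.Agent.OC
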