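import Pool.Agent.OC.Stmts
import Pool.Agent.OC.Lib

set_option autoImplicit false

namespace Pool.Agent.OC

open Finset
open scoped NNReal ENNReal

namespace ABSX

variable {α : Type}

/-- marked elements -/
def XX (X : ℕ → Set α) (H : α → Finset ℕ) (m w a n h : ℕ) : Set (α × Finset ℕ) :=
  {p | p.1 ∈ X (m + w * n) ∧ p.2 ⊆ H p.1 ∧ p.2.card = n ∧ ∀ s ∈ p.2, h + a ≤ s}

/-- their weight -/
noncomputable def Ph (H : α → Finset ℕ) (W : α → ℝ≥0∞) (q lam c : ℝ≥0∞) (h : ℕ)
    (p : α × Finset ℕ) : ℝ≥0∞ :=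
  W p.1 * q ^ (H p.1).card * (1 + lam) ^ ((Ioo 0 h).filter (fun k => k ∉ H p.1)).card *
    c ^ p.2.card

theorem Ph_in {H : α → Finset ℕ} {W : α → ℝ≥0∞} {q lam c : ℝ≥0∞} {h : ℕ} {p : α × Finset ℕ}
    (hp : h ∈ H p.1) : Ph H W q lam c (h + 1) p = Ph H W q lam c h p := by
  unfold Ph
  have : (Ioo 0 (h + 1)).filter (fun k => k ∉ H p.1) = (Ioo 0 h).filter (fun k => k ∉ H p.1) := by
    ext k
    simp only [mem_filter, mem_Ioo]
    constructor
    · rintro ⟨⟨h1, h2⟩, h3⟩
      refine ⟨⟨h1, ?_⟩, h3⟩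
      rcases Nat.lt_or_ge k h with h4 | h4
      · exact h4
      · have : k = h := by omega
        subst this
        exact absurd hp h3
    · rintro ⟨⟨h1, h2⟩, h3⟩
      exact ⟨⟨h1, by omega⟩, h3⟩
  rw [this]

theorem Ph_out {H : α → Finset ℕ} {W : α → ℝ≥0∞} {q lam c : ℝ≥0∞} {h : ℕ} {p : α × Finset ℕ}
    (hh : 0 < h) (hp : h ∉ H p.1) :
    Ph H W q lam c (h + 1) p = Ph H W q lam c h p + lam * Ph H W q lam c h p := by
  unfold Ph
  have : (Ioo 0 (h + 1)).filter (fun k => k ∉ H p.1) =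
      insert h ((Ioo 0 h).filter (fun k => k ∉ H p.1)) := by
    ext k
    simp only [mem_filter, mem_Ioo, mem_insert]
    constructor
    · rintro ⟨⟨h1, h2⟩, h3⟩
      rcases Nat.lt_or_ge k h with h4 | h4
      · exact Or.inr ⟨⟨h1, h4⟩, h3⟩
      · exact Or.inl (by omega)
    · rintro (rfl | ⟨⟨h1, h2⟩, h3⟩)
      · exact ⟨⟨hh, by omega⟩, hp⟩
      · exact ⟨⟨h1, by omega⟩, h3⟩
  rw [this, card_insert_of_notMem (by simp), pow_succ]
  ring

theorem main (X : ℕ → Set α) (H : α → Finset ℕ) (W : α → ℝ≥0∞)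
    (f : ℕ → α → α) (w a : ℕ) (q lam Θ : ℝ≥0) (hq : 0 < q) (hq1 : q ≤ 1)
    (hqc : q * (1 + lam * Θ * (q⁻¹) ^ w) ≤ 1)
    (h1 : ∀ M, ∀ x ∈ X M, ∀ k ∈ H x, 0 < k ∧ k < M)
    (h2 : ∀ M h, ∀ x ∈ X M, 0 < h → h < M → h ∉ H x →
      f h x ∈ X (M + w) ∧ W x ≤ Θ * W (f h x) ∧ (H (f h x)).card ≤ (H x).card + w ∧
      h + a ∈ H (f h x) ∧ (∀ k, k < h → (k ∈ H (f h x) ↔ k ∈ H x)) ∧
      (∀ k ∈ H x, h < k → k + w ∈ H (f h x)))
    (h3 : ∀ M h, 0 < h → h < M → Set.InjOn (f h) {x | x ∈ X M ∧ h ∉ H x}) (m : ℕ) (hm : 1 ≤ m) :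
    (1 + (lam : ℝ≥0∞)) ^ (m - 1) *
      gs (fun x => W x * ((q : ℝ≥0∞) / (1 + lam)) ^ (H x).card) (X m) ≤
    ∑ n ∈ range m, gs W (X (m + w * n)) := by
  classical
  set c : ℝ≥0∞ := lam * Θ * ((q : ℝ≥0∞)⁻¹) ^ w with hc
  have hq0 : (q : ℝ≥0∞) ≠ 0 := by exact_mod_cast hq.ne'
  have hqt : (q : ℝ≥0∞) ≠ ∞ := ENNReal.coe_ne_top
  have hq1' : (q : ℝ≥0∞) ≤ 1 := by exact_mod_cast hq1
  have hqinv : ((q : ℝ≥0∞)⁻¹) = ((q⁻¹ : ℝ≥0) : ℝ≥0∞) := (ENNReal.coe_inv hq.ne').symm
  have hcc : (q : ℝ≥0∞) * (1 + c) ≤ 1 := by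
    rw [hc, hqinv]
    exact_mod_cast hqc
  set P := Ph H W q lam c with hP
  set Z : ℕ → ℝ≥0∞ := fun h => ∑ n ∈ range (m - h + 1), gs (P h) (XX X H m w a n h) with hZ
  -- the step
  have hstep : ∀ h, 1 ≤ h → h < m → Z (h + 1) ≤ Z h := by
    intro h hh0 hhm
    simp only [hZ]
    rw [show m - (h + 1) + 1 = m - h by omega]
    set S0 : ℕ → Set (α × Finset ℕ) := fun n => {p | p ∈ XX X H m w a n h ∧ h + a ∉ p.2} with hS0
    set S1 : ℕ → Set (α × Finset ℕ) := fun n => {p | p ∈ XX X H m w a n h ∧ h + a ∈ p.2} with hS1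
    have hone : ∀ n, gs (P (h + 1)) (XX X H m w a n (h + 1)) ≤
        gs (P h) (S0 n) + gs (P h) (S1 (n + 1)) := by
      intro n
      have hsub : XX X H m w a n (h + 1) ⊆ S0 n := by
        rintro p ⟨p1, p2, p3, p4⟩
        refine ⟨⟨p1, p2, p3, fun s hs => ?_⟩, fun hs => ?_⟩
        · have := p4 s hs; omega
        · have := p4 _ hs; omega
      set T : Set (α × Finset ℕ) := {p | p ∈ XX X H m w a n (h + 1) ∧ h ∉ H p.1} with hT
      have e1 : gs (P (h + 1)) (XX X H m w a n (h + 1)) ≤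
          gs (P h) (XX X H m w a n (h + 1)) + gs (fun p => (lam : ℝ≥0∞) * P h p) T := by
        have e2 : gs (P (h + 1)) (XX X H m w a n (h + 1)) ≤
            gs (fun p => P h p + T.indicator (fun p => (lam : ℝ≥0∞) * P h p) p)
              (XX X H m w a n (h + 1)) := by
          refine gs_le _ _ subset_rfl fun p hp => ?_
          by_cases hh : h ∈ H p.1
          · rw [hP, Ph_in hh]
            exact le_self_add
          · rw [Set.indicator_of_mem (show p ∈ T from ⟨hp, hh⟩), hP, Ph_out (by omega) hh]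
        refine e2.trans ?_
        rw [gs_add]
        refine add_le_add le_rfl ?_
        rw [gs_indicator, gs_indicator _ T]
        refine ENNReal.tsum_le_tsum fun p => ?_
        by_cases hp : p ∈ XX X H m w a n (h + 1)
        · rw [Set.indicator_of_mem hp]
        · rw [Set.indicator_of_notMem hp]
          exact bot_le
      refine e1.trans (add_le_add (gs_mono _ hsub) ?_)
      refine gs_le_of_inj _ (P h)
        (fun p => (f h p.1, insert (h + a) (p.2.map (addRightEmbedding w)))) ?_ ?_ ?_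
      · rintro ⟨x, S⟩ ⟨⟨p1, p2, p3, p4⟩, p5⟩
        simp only at p1 p2 p3 p4 p5
        obtain ⟨f1, f2, f3, f4, f5, f6⟩ := h2 _ h x p1 (by omega) (by omega) p5
        have hnot : h + a ∉ S.map (addRightEmbedding w) := by
          intro hs
          rw [mem_map] at hs
          obtain ⟨s, hs, he⟩ := hs
          have := p4 s hs
          simp only [addRightEmbedding_apply] at he
          omega
        refine ⟨⟨?_, ?_, ?_, ?_⟩, mem_insert_self _ _⟩
        · simp only
          rw [show m + w * (n + 1) = m + w * n + w by ring]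
          exact f1
        · simp only
          intro k hk
          rw [mem_insert, mem_map] at hk
          rcases hk with rfl | ⟨s, hs, rfl⟩
          · exact f4
          · exact f6 s (p2 hs) (by have := p4 s hs; omega)
        · simp only
          rw [card_insert_of_notMem hnot, card_map, p3]
        · intro s hs
          simp only at hs
          rw [mem_insert, mem_map] at hs
          rcases hs with rfl | ⟨s, hs, rfl⟩
          · exact le_rfl
          · have := p4 s hs
            simp only [addRightEmbedding_apply]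
            omega
      · rintro ⟨x, S⟩ ⟨⟨p1, p2, p3, p4⟩, p5⟩ ⟨x', S'⟩ ⟨⟨p1', p2', p3', p4'⟩, p5'⟩ heq
        simp only at p1 p2 p3 p4 p5 p1' p2' p3' p4' p5'
        rw [Prod.mk.injEq] at heq
        obtain ⟨e1, e2⟩ := heq
        have hx : x = x' := h3 (m + w * n) h (by omega) (by omega) ⟨p1, p5⟩ ⟨p1', p5'⟩ e1
        have hn : ∀ S : Finset ℕ, (∀ s ∈ S, h + 1 + a ≤ s) →
            h + a ∉ S.map (addRightEmbedding w) := by
          intro S hS hs
          rw [mem_map] at hs
          obtain ⟨s, hs, he⟩ := hs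
          have := hS s hs
          simp only [addRightEmbedding_apply] at he
          omega
        have e3 : S.map (addRightEmbedding w) = S'.map (addRightEmbedding w) := by
          have := congrArg (fun T => erase T (h + a)) e2
          simp only at this
          rwa [erase_insert (hn S p4), erase_insert (hn S' p4')] at this
        rw [hx, Finset.map_injective _ e3]
      · rintro ⟨x, S⟩ ⟨⟨p1, p2, p3, p4⟩, p5⟩
        simp only at p1 p2 p3 p4 p5
        obtain ⟨f1, f2, f3, f4, f5, f6⟩ := h2 _ h x p1 (by omega) (by omega) p5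
        have hnot : h + a ∉ S.map (addRightEmbedding w) := by
          intro hs
          rw [mem_map] at hs
          obtain ⟨s, hs, he⟩ := hs
          have := p4 s hs
          simp only [addRightEmbedding_apply] at he
          omega
        simp only [hP, Ph]
        rw [card_insert_of_notMem hnot, card_map, p3]
        have e4 : (Ioo 0 h).filter (fun k => k ∉ H (f h x)) =
            (Ioo 0 h).filter (fun k => k ∉ H x) := by
          ext k
          simp only [mem_filter, mem_Ioo]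
          constructor
          · rintro ⟨k1, k2⟩
            exact ⟨k1, fun hk => k2 ((f5 k k1.2).2 hk)⟩
          · rintro ⟨k1, k2⟩
            exact ⟨k1, fun hk => k2 ((f5 k k1.2).1 hk)⟩
        rw [e4]
        have e5 : (q : ℝ≥0∞) ^ (H x).card ≤ ((q : ℝ≥0∞)⁻¹) ^ w * (q : ℝ≥0∞) ^ (H (f h x)).card := by
          have e6 : (q : ℝ≥0∞) ^ ((H x).card + w) ≤ (q : ℝ≥0∞) ^ (H (f h x)).card :=
            pow_le_pow_right_of_le_one' hq1' f3
          calc (q : ℝ≥0∞) ^ (H x).card = ((q : ℝ≥0∞)⁻¹) ^ w * (q : ℝ≥0∞) ^ ((H x).card + w) := by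
                rw [pow_add, mul_comm, mul_assoc, ← mul_pow, ENNReal.mul_inv_cancel hq0 hqt, one_pow,
                  mul_one]
            _ ≤ _ := mul_le_mul_right e6 _
        calc (lam : ℝ≥0∞) * (W x * (q : ℝ≥0∞) ^ (H x).card *
              (1 + (lam : ℝ≥0∞)) ^ ((Ioo 0 h).filter (fun k => k ∉ H x)).card * c ^ n)
            ≤ (lam : ℝ≥0∞) * ((Θ * W (f h x)) * (((q : ℝ≥0∞)⁻¹) ^ w *
              (q : ℝ≥0∞) ^ (H (f h x)).card) *
              (1 + (lam : ℝ≥0∞)) ^ ((Ioo 0 h).filter (fun k => k ∉ H x)).card * c ^ n) := by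
              gcongr
          _ = _ := by
              rw [pow_succ, hc]
              ring
    have hsplit : ∀ n, gs (P h) (S0 n) + gs (P h) (S1 n) ≤ gs (P h) (XX X H m w a n h) := by
      intro n
      rw [gs_indicator, gs_indicator, gs_indicator, ← ENNReal.tsum_add]
      refine ENNReal.tsum_le_tsum fun p => ?_
      by_cases hp : p ∈ XX X H m w a n h
      · rw [Set.indicator_of_mem hp]
        by_cases ht : h + a ∈ p.2
        · rw [Set.indicator_of_notMem (fun hh : p ∈ S0 n => hh.2 ht),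
            Set.indicator_of_mem (show p ∈ S1 n from ⟨hp, ht⟩), zero_add]
        · rw [Set.indicator_of_mem (show p ∈ S0 n from ⟨hp, ht⟩),
            Set.indicator_of_notMem (fun hh : p ∈ S1 n => ht hh.2), add_zero]
      · rw [Set.indicator_of_notMem (fun hh : p ∈ S0 n => hp hh.1),
          Set.indicator_of_notMem (fun hh : p ∈ S1 n => hp hh.1), zero_add]
        exact bot_le
    calc ∑ n ∈ range (m - h), gs (P (h + 1)) (XX X H m w a n (h + 1))
        ≤ ∑ n ∈ range (m - h), (gs (P h) (S0 n) + gs (P h) (S1 (n + 1))) :=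
          sum_le_sum fun n _ => hone n
      _ = ∑ n ∈ range (m - h), gs (P h) (S0 n) + ∑ n ∈ range (m - h), gs (P h) (S1 (n + 1)) :=
          sum_add_distrib
      _ ≤ ∑ n ∈ range (m - h + 1), gs (P h) (S0 n) +
          ∑ n ∈ range (m - h + 1), gs (P h) (S1 n) := by
          refine add_le_add ?_ ?_
          · rw [sum_range_succ]
            exact le_self_add
          · rw [sum_range_succ' (fun n => gs (P h) (S1 n))]
            exact le_self_add
      _ = ∑ n ∈ range (m - h + 1), (gs (P h) (S0 n) + gs (P h) (S1 n)) := sum_add_distrib.symm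
      _ ≤ _ := sum_le_sum fun n _ => hsplit n
  have hdown : ∀ j, j + 1 ≤ m → Z m ≤ Z (m - j) := by
    intro j
    induction j with
    | zero => intro _; exact le_rfl
    | succ j ih =>
      intro hj
      refine (ih (by omega)).trans ?_
      have := hstep (m - (j + 1)) (by omega) (by omega)
      rwa [show m - (j + 1) + 1 = m - j by omega] at this
  have hZ1 : Z m ≤ Z 1 := by
    have := hdown (m - 1) (by omega)
    rwa [show m - (m - 1) = 1 by omega] at this
  -- the left side
  have hleft : (1 + (lam : ℝ≥0∞)) ^ (m - 1) *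
      gs (fun x => W x * ((q : ℝ≥0∞) / (1 + lam)) ^ (H x).card) (X m) ≤ Z m := by
    have e1 : Z m = gs (P m) (XX X H m w a 0 m) := by
      simp only [hZ, Nat.sub_self, zero_add, sum_range_one]
    rw [e1, ← gs_mul_left]
    refine gs_le_of_inj _ (P m) (fun x => (x, ∅)) ?_ ?_ ?_
    · intro x hx
      refine ⟨by simpa using hx, empty_subset _, card_empty, ?_⟩
      intro s hs
      exact absurd hs (notMem_empty _)
    · intro x _ y _ he
      exact congrArg Prod.fst he
    · intro x hx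
      simp only [hP, Ph, card_empty, pow_zero, mul_one]
      have hsub : H x ⊆ Ioo 0 m := fun k hk => mem_Ioo.2 (h1 m x hx k hk)
      have e2 : (H x).card + ((Ioo 0 m).filter (fun k => k ∉ H x)).card = m - 1 := by
        have e3 : (Ioo 0 m).filter (fun k => k ∉ H x) = Ioo 0 m \ H x := by
          ext k; simp [mem_sdiff]
        rw [e3, card_sdiff_of_subset hsub, Nat.card_Ioo]
        have := card_le_card hsub
        rw [Nat.card_Ioo] at this
        omega
      have hl0 : (1 + (lam : ℝ≥0∞)) ≠ 0 := by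
        intro h
        have : (1 : ℝ≥0∞) ≤ 0 := h ▸ le_self_add
        exact absurd this (by norm_num)
      have hlt : (1 + (lam : ℝ≥0∞)) ≠ ∞ := by
        rw [ne_eq, ENNReal.add_eq_top]
        push Not
        exact ⟨ENNReal.one_ne_top, ENNReal.coe_ne_top⟩
      rw [← e2, pow_add, ENNReal.div_eq_inv_mul, mul_pow]
      refine le_of_eq ?_
      have e4 : (1 + (lam : ℝ≥0∞)) ^ (H x).card * ((1 + (lam : ℝ≥0∞))⁻¹) ^ (H x).card = 1 := by
        rw [← mul_pow, ENNReal.mul_inv_cancel hl0 hlt, one_pow]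
      calc (1 + (lam : ℝ≥0∞)) ^ (H x).card *
            (1 + (lam : ℝ≥0∞)) ^ ((Ioo 0 m).filter (fun k => k ∉ H x)).card *
            (W x * (((1 + (lam : ℝ≥0∞))⁻¹) ^ (H x).card * (q : ℝ≥0∞) ^ (H x).card))
          = ((1 + (lam : ℝ≥0∞)) ^ (H x).card * ((1 + (lam : ℝ≥0∞))⁻¹) ^ (H x).card) *
            (W x * (q : ℝ≥0∞) ^ (H x).card *
              (1 + (lam : ℝ≥0∞)) ^ ((Ioo 0 m).filter (fun k => k ∉ H x)).card) := by ring
        _ = _ := by rw [e4, one_mul]
  refine hleft.trans (hZ1.trans ?_)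
  simp only [hZ]
  rw [show m - 1 + 1 = m by omega]
  refine sum_le_sum fun n _ => ?_
  have e1 : gs (P 1) (XX X H m w a n 1) ≤
      gs (fun x => (W x * (q : ℝ≥0∞) ^ (H x).card) *
        gs (fun S : Finset ℕ => c ^ S.card) ((H x).powerset : Set (Finset ℕ))) (X (m + w * n)) := by
    refine gs_dep (fun x S => (x, S)) (fun x => ((H x).powerset : Set (Finset ℕ))) ?_
    rintro ⟨x, S⟩ ⟨p1, p2, p3, p4⟩
    refine ⟨x, S, p1, ?_, rfl, ?_⟩
    · rw [mem_coe, mem_powerset]
      exact p2
    · simp only [hP, Ph]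
      have : (Ioo 0 1).filter (fun k => k ∉ H x) = ∅ := by
        rw [filter_eq_empty_iff]
        intro k hk
        rw [mem_Ioo] at hk
        omega
      rw [this, card_empty, pow_zero, mul_one]
  refine e1.trans (gs_le _ _ subset_rfl fun x _ => ?_)
  rw [gs_finset]
  have e2 : ∑ S ∈ (H x).powerset, c ^ S.card = (1 + c) ^ (H x).card := by
    have := Finset.sum_pow_mul_eq_add_pow c 1 (H x)
    simp only [one_pow, mul_one] at this
    rw [this, add_comm]
  rw [e2, mul_assoc, ← mul_pow]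
  calc W x * ((q : ℝ≥0∞) * (1 + c)) ^ (H x).card ≤ W x * 1 :=
        mul_le_mul_right (pow_le_one' hcc _) _
    _ = W x := mul_one _

end ABSX

theorem abs_thm' : ABS_Stmt := by
  intro α X H W f w a q lam Θ _ _ hq hq1 hqc h1 h2 h3 m hm
  exact ABSX.main X H W f w a q lam Θ hq hq1 hqc h1 h2 h3 m hm

end Pool.Agent.OC
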