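import Pool.Agent.OC.Stmts
import Pool.Agent.OC.Lib

/-!
# Convex occupation energies (MP_f6626d_co): MONO0, strict monotonicity at the critical point
-/

set_option autoImplicit false

namespace Pool.Agent.OC

open Finset Pool.Agent.Lib27 Pool.Agent.SapR
open Pool.Agent.MG (Bri Brp Irr Nc Fp Fpp Bad SB CC SW dip cc chi rfa)
open scoped NNReal ENNReal

namespace MONO0

/-- a bridge visits every level -/
theorem occ_Bri_pos {H : ℕ} {u : Wd} (hu : u ∈ Bri H) {k : ℤ} (h0 : 0 ≤ k) (h1 : k ≤ H) :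
    0 < occ u k := by
  obtain ⟨u1, v1, rfl, h2, -⟩ := MG.first_visit (w := u) (h := k) h0
    ⟨ep 0 u, ep_mem_vt _ _, by rw [hu.2.1]; exact h1⟩
  have h3 := occ_append u1 v1 k
  rw [h2, sub_self] at h3
  have := occ_zero_pos v1
  omega

theorem lev_ep_toNat {m : ℕ} {p : Wd × Wd} (hp : p ∈ Brp m) : (lev (ep 0 p.1)).toNat = m := by
  have h1 : p.1 ∈ Bri m := hp.1
  rw [h1.2.1]
  exact Int.toNat_natCast m

theorem hi_eq {v1 m : ℕ} {p : Wd × Wd} (hp : p ∈ Brp m) : hi v1 m p = (Hs v1 p).card := by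
  unfold hi Hs
  rw [lev_ep_toNat hp]

theorem hi_two {m : ℕ} {p : Wd × Wd} (hp : p ∈ Brp m) : hi 2 m p = m - 1 := by
  unfold hi
  rw [Finset.filter_true_of_mem, Nat.card_Ioo]
  · rfl
  · intro k hk
    rw [Finset.mem_Ioo] at hk
    have h1 := occ_Bri_pos (k := (k : ℤ)) hp.1 (by omega) (by exact_mod_cast hk.2.le)
    have h2 := occ_Bri_pos (k := (k : ℤ)) hp.2 (by omega) (by exact_mod_cast hk.2.le)
    omega

theorem exists_lam (q : ℝ≥0) (hq : q < 1) (Θ : ℝ≥0) (w : ℕ) :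
    ∃ A lam : ℝ≥0, 0 < A ∧ A ≤ 1 ∧ 0 < lam ∧ (1 + lam) * q ≤ A ∧
      A * (1 + lam * Θ * (A⁻¹) ^ w) ≤ 1 := by
  obtain ⟨d, hd⟩ := exists_add_of_le hq.le
  have hd0 : 0 < d := by
    rcases eq_or_lt_of_le (zero_le (a := d)) with h | h
    · rw [← h, add_zero] at hd
      exact absurd hd.symm hq.ne
    · exact h
  have hq1 : q ≤ 1 := hq.le
  set A : ℝ≥0 := q + d / 2 with hA
  have hA1 : A + d / 2 = 1 := by
    rw [hA, add_assoc, add_halves, ← hd]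
  set T : ℝ≥0 := Θ * (A⁻¹) ^ w with hT
  set lam : ℝ≥0 := (d / 2) / (T + 1) with hlam
  have hT1 : 0 < T + 1 := by positivity
  have h1 : lam * (T + 1) = d / 2 := div_mul_cancel₀ _ hT1.ne'
  have h2 : lam * T + lam = d / 2 := by rw [← h1]; ring
  have h3 : lam ≤ d / 2 := by rw [← h2]; exact le_add_self
  have h4 : lam * T ≤ d / 2 := by rw [← h2]; exact le_self_add
  have hA1' : A ≤ 1 := by rw [← hA1]; exact le_self_add
  refine ⟨A, lam, by positivity, hA1', by positivity, ?_, ?_⟩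
  · calc (1 + lam) * q = q + lam * q := by ring
      _ ≤ q + lam * 1 := by gcongr
      _ ≤ q + d / 2 := by rw [mul_one]; gcongr
  · calc A * (1 + lam * Θ * (A⁻¹) ^ w) = A + A * (lam * T) := by rw [hT]; ring
      _ ≤ A + 1 * (d / 2) := by gcongr
      _ = 1 := by rw [one_mul, hA1]

theorem exists_delta (lam : ℝ≥0) (h : 0 < lam) : ∃ δ : ℝ≥0, 0 < δ ∧ (1 + δ) ^ 2 ≤ 1 + lam := by
  refine ⟨min (lam / 3) 1, by positivity, ?_⟩
  set δ : ℝ≥0 := min (lam / 3) 1 with hδ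
  have h1 : δ ≤ lam / 3 := min_le_left _ _
  have h2 : δ ≤ 1 := min_le_right _ _
  calc (1 + δ) ^ 2 = 1 + 2 * δ + δ * δ := by ring
    _ ≤ 1 + 2 * δ + 1 * δ := by gcongr
    _ = 1 + 3 * δ := by ring
    _ ≤ 1 + 3 * (lam / 3) := by gcongr
    _ = 1 + lam := by rw [mul_div_cancel₀ _ (by norm_num)]

theorem bound (lam δ y : ℝ≥0) (hδ : 0 < δ) (hd : (1 + δ) ^ 2 ≤ 1 + lam) (m : ℕ) (hm : 1 ≤ m)
    (h : (1 + lam) ^ (m - 1) * y ≤ m) : y ≤ δ⁻¹ * (1 + lam) * ((1 + δ)⁻¹) ^ m := by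
  have h1 : (m : ℝ≥0) * δ ≤ (1 + δ) ^ m := by
    have h2 : (1 : ℝ) + m * (δ : ℝ) ≤ (1 + (δ : ℝ)) ^ m :=
      one_add_mul_le_pow (by have := δ.2; linarith) m
    have h3 : ((m : ℝ≥0) : ℝ) * (δ : ℝ) ≤ (1 + (δ : ℝ)) ^ m := by
      rw [NNReal.coe_natCast]
      linarith
    exact_mod_cast h3
  have h2 : (m : ℝ≥0) ≤ δ⁻¹ * (1 + δ) ^ m := by
    calc (m : ℝ≥0) = δ⁻¹ * (m * δ) := by field_simp
      _ ≤ δ⁻¹ * (1 + δ) ^ m := by gcongr
  have h3 : (1 + lam) ^ m * y ≤ (1 + δ) ^ m * (δ⁻¹ * (1 + lam)) := by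
    obtain ⟨n, rfl⟩ : ∃ n, m = n + 1 := ⟨m - 1, by omega⟩
    rw [Nat.add_sub_cancel] at h
    calc (1 + lam) ^ (n + 1) * y = (1 + lam) * ((1 + lam) ^ n * y) := by ring
      _ ≤ (1 + lam) * ((n + 1 : ℕ) : ℝ≥0) := by gcongr
      _ ≤ (1 + lam) * (δ⁻¹ * (1 + δ) ^ (n + 1)) := by gcongr
      _ = _ := by ring
  have h4 : (1 + δ) ^ m * ((1 + δ) ^ m * y) ≤ (1 + δ) ^ m * (δ⁻¹ * (1 + lam)) := by
    refine le_trans ?_ h3
    calc (1 + δ) ^ m * ((1 + δ) ^ m * y) = ((1 + δ) ^ 2) ^ m * y := by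
          rw [← pow_mul, mul_comm 2 m, pow_mul, pow_two, mul_assoc]
      _ ≤ (1 + lam) ^ m * y := by gcongr
  have h5 : (1 + δ) ^ m * y ≤ δ⁻¹ * (1 + lam) := le_of_mul_le_mul_left h4 (by positivity)
  calc y = (1 + δ) ^ m * y * ((1 + δ)⁻¹) ^ m := by
        rw [inv_pow]
        field_simp
    _ ≤ _ := by gcongr

theorem Yq_le_Y {b : ℕ → ℝ≥0} {q : ℝ≥0} (hq : q ≤ 1) (v1 : ℕ) (z : ℝ≥0∞) (m : ℕ) :
    Yq b q v1 z m ≤ Y b z m := by
  refine gs_le _ _ subset_rfl fun p _ => ?_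
  calc Wp b z p * (q : ℝ≥0∞) ^ hi v1 m p ≤ Wp b z p * 1 := by
        gcongr
        exact pow_le_one' (by exact_mod_cast hq) _
    _ = _ := mul_one _

end MONO0

open MONO0 in
/-- MONO0: strict monotonicity at the critical point -/
theorem mono0_thm (h1 : INSM_Stmt) (h2 : ABS_Stmt) : MONO0_Stmt := by
  intro P
  obtain ⟨w, a, Θ, ha, haw, hI⟩ := h1 P
  obtain ⟨A, lam, hA0, hA1, hlam, hqA, hcond⟩ := exists_lam P.q P.q_lt Θ w
  obtain ⟨δ, hδ, hδ2⟩ := exists_delta lam hlam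
  set C : ℝ≥0 := max P.q⁻¹ (δ⁻¹ * (1 + lam)) with hC
  set r : ℝ≥0 := max P.q (1 + δ)⁻¹ with hr
  have hC1 : 1 ≤ C := (one_le_inv₀ P.q_pos).2 P.q_lt.le |>.trans (le_max_left _ _)
  refine ⟨C, r, max_lt P.q_lt (inv_lt_one_of_one_lt₀ (lt_add_of_pos_right 1 hδ)), ?_⟩
  intro v1 b hb m
  have hY1 : Yq b P.q v1 (zst b) m ≤ 1 := (Yq_le_Y P.q_lt.le v1 _ m).trans (hb.Y_le m)
  rcases Nat.eq_zero_or_pos m with rfl | hm
  · rw [pow_zero, mul_one]
    exact hY1.trans (by exact_mod_cast hC1)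
  rcases eq_or_ne v1 2 with rfl | hv1
  · -- all levels are high
    have e1 : Yq b P.q 2 (zst b) m = Y b (zst b) m * (P.q : ℝ≥0∞) ^ (m - 1) := by
      unfold Yq Y
      rw [← gs_mul_right]
      exact gs_congr fun p hp => by rw [hi_two hp]
    rw [e1]
    calc Y b (zst b) m * (P.q : ℝ≥0∞) ^ (m - 1) ≤ 1 * (P.q : ℝ≥0∞) ^ (m - 1) := by
          gcongr
          exact hb.Y_le m
      _ = ((P.q⁻¹ * P.q ^ m : ℝ≥0) : ℝ≥0∞) := by
          rw [one_mul, ← ENNReal.coe_pow]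
          congr 1
          obtain ⟨n, rfl⟩ : ∃ n, m = n + 1 := ⟨m - 1, by omega⟩
          rw [Nat.add_sub_cancel, pow_succ, mul_comm (P.q ^ n), ← mul_assoc,
            inv_mul_cancel₀ P.q_pos.ne', one_mul]
      _ ≤ ((C * r ^ m : ℝ≥0) : ℝ≥0∞) := by
          refine ENNReal.coe_le_coe.2 ?_
          gcongr
          · exact le_max_left _ _
          · exact le_max_left _ _
      _ = _ := by push_cast; rfl
  · -- insertion
    obtain ⟨f, hf1, hf2⟩ := hI v1 b hb (by have := hb.v1_ge; omega)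
    have key := h2 (Wd × Wd) (fun M => Brp M) (Hs v1) (Wp b (zst b)) f w a A lam Θ ha haw hA0 hA1
      hcond (by
        intro M x hx k hk
        unfold Hs at hk
        rw [Finset.mem_filter, Finset.mem_Ioo, lev_ep_toNat hx] at hk
        exact hk.1) hf1 hf2 m hm
    have h3 : ∑ n ∈ range m, gs (Wp b (zst b)) (Brp (m + w * n)) ≤ m := by
      calc ∑ n ∈ range m, gs (Wp b (zst b)) (Brp (m + w * n)) ≤ ∑ n ∈ range m, (1 : ℝ≥0∞) :=
            Finset.sum_le_sum fun n _ => hb.Y_le _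
        _ = m := by rw [Finset.sum_const, Finset.card_range, nsmul_eq_mul, mul_one]
    have h4 : Yq b P.q v1 (zst b) m ≤
        gs (fun x => Wp b (zst b) x * ((A : ℝ≥0∞) / (1 + lam)) ^ (Hs v1 x).card) (Brp m) := by
      refine gs_le _ _ subset_rfl fun p hp => ?_
      rw [hi_eq hp]
      gcongr
      have h5 : P.q ≤ A / (1 + lam) := by
        rw [le_div_iff₀ (by positivity), mul_comm]
        exact hqA
      calc (P.q : ℝ≥0∞) ≤ ((A / (1 + lam) : ℝ≥0) : ℝ≥0∞) := ENNReal.coe_le_coe.2 h5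
        _ = _ := by rw [ENNReal.coe_div (by positivity)]; push_cast; rfl
    have h6 : (1 + (lam : ℝ≥0∞)) ^ (m - 1) * Yq b P.q v1 (zst b) m ≤ m :=
      (mul_le_mul_right h4 _).trans (key.trans h3)
    obtain ⟨y, hy⟩ : ∃ y : ℝ≥0, (y : ℝ≥0∞) = Yq b P.q v1 (zst b) m :=
      ⟨_, ENNReal.coe_toNNReal (hY1.trans_lt ENNReal.one_lt_top).ne⟩
    rw [← hy] at h6 ⊢
    have h7 : (1 + lam) ^ (m - 1) * y ≤ m := by exact_mod_cast h6
    have h8 := bound lam δ y hδ hδ2 m hm h7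
    have h9 : y ≤ C * r ^ m := by
      refine h8.trans ?_
      gcongr
      · exact le_max_right _ _
      · exact le_max_right _ _
    calc (y : ℝ≥0∞) ≤ ((C * r ^ m : ℝ≥0) : ℝ≥0∞) := ENNReal.coe_le_coe.2 h9
      _ = _ := by push_cast; rfl

end Pool.Agent.OC
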