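import Pool.Agent.Lib_helper74.MG.Beyond

/-!
# Convex occupation energies (MP_f6626d_co): sums over classes and products over the levels

`gs f S` is the sum of `f` over the class `S`, with values in `[0, ∞]`; `LP f` is the product of the
numbers `f k ≤ 1` over all levels `k`.
-/

set_option autoImplicit false

namespace Pool.Agent.OC

open Finset
open scoped NNReal ENNReal

/-! ### sums over classes -/

/-- the sum of `f` over the class `S` -/
noncomputable def gs {α : Type*} (f : α → ℝ≥0∞) (S : Set α) : ℝ≥0∞ := ∑' a : S, f a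

section gs
variable {α β γ : Type*}

theorem gs_le_of_inj {S : Set α} {T : Set β} (f : α → ℝ≥0∞) (g : β → ℝ≥0∞) (φ : α → β)
    (hmem : ∀ a ∈ S, φ a ∈ T) (hinj : Set.InjOn φ S) (hle : ∀ a ∈ S, f a ≤ g (φ a)) :
    gs f S ≤ gs g T :=
  MG.tsum_le_of_inj f g φ hmem hinj hle

theorem gs_le {S T : Set α} (f g : α → ℝ≥0∞) (h : S ⊆ T) (hle : ∀ a ∈ S, f a ≤ g a) :
    gs f S ≤ gs g T :=
  gs_le_of_inj f g id (fun _ ha => h ha) (Set.injOn_id S) hle

theorem gs_mono {S T : Set α} (f : α → ℝ≥0∞) (h : S ⊆ T) : gs f S ≤ gs f T :=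
  gs_le f f h fun _ _ => le_rfl

theorem gs_congr {S : Set α} {f g : α → ℝ≥0∞} (h : ∀ a ∈ S, f a = g a) : gs f S = gs g S :=
  le_antisymm (gs_le f g subset_rfl fun a ha => (h a ha).le)
    (gs_le g f subset_rfl fun a ha => (h a ha).ge)

theorem gs_indicator (f : α → ℝ≥0∞) (S : Set α) : gs f S = ∑' a, S.indicator f a :=
  tsum_subtype S f

theorem gs_univ (f : α → ℝ≥0∞) : gs f Set.univ = ∑' a, f a := by
  rw [gs_indicator, Set.indicator_univ]

theorem gs_empty (f : α → ℝ≥0∞) : gs f ∅ = 0 := by rw [gs_indicator]; simp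

theorem gs_singleton (f : α → ℝ≥0∞) (a : α) : gs f {a} = f a := by
  unfold gs
  rw [tsum_singleton a f]

theorem le_gs (f : α → ℝ≥0∞) {S : Set α} {a : α} (ha : a ∈ S) : f a ≤ gs f S := by
  rw [← gs_singleton f a]
  exact gs_mono f (Set.singleton_subset_iff.2 ha)

theorem gs_union (f : α → ℝ≥0∞) (S T : Set α) : gs f (S ∪ T) ≤ gs f S + gs f T :=
  ENNReal.tsum_union_le f S T

theorem gs_iUnion {ι : Type*} (f : α → ℝ≥0∞) (S : ι → Set α) : gs f (⋃ i, S i) ≤ ∑' i, gs f (S i) :=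
  ENNReal.tsum_iUnion_le_tsum f S

theorem gs_mul_left (c : ℝ≥0∞) (f : α → ℝ≥0∞) (S : Set α) : gs (fun a => c * f a) S = c * gs f S :=
  ENNReal.tsum_mul_left

theorem gs_mul_right (c : ℝ≥0∞) (f : α → ℝ≥0∞) (S : Set α) : gs (fun a => f a * c) S = gs f S * c :=
  ENNReal.tsum_mul_right

theorem gs_add (f g : α → ℝ≥0∞) (S : Set α) : gs (fun a => f a + g a) S = gs f S + gs g S :=
  ENNReal.tsum_add

theorem gs_const_le {f : α → ℝ≥0∞} {S : Set α} {c : ℝ≥0∞}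
    (h : ∀ F : Finset α, (F : Set α) ⊆ S → ∑ a ∈ F, f a ≤ c) : gs f S ≤ c := by
  unfold gs
  rw [ENNReal.tsum_eq_iSup_sum]
  refine iSup_le fun F => ?_
  classical
  have h1 := h (F.map (Function.Embedding.subtype _)) (by
    intro a ha
    simp only [Finset.coe_map, Set.mem_image] at ha
    obtain ⟨x, _, rfl⟩ := ha
    exact x.2)
  rw [Finset.sum_map] at h1
  exact h1

theorem sum_le_gs (f : α → ℝ≥0∞) {S : Set α} (F : Finset α) (h : (F : Set α) ⊆ S) :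
    ∑ a ∈ F, f a ≤ gs f S := by
  classical
  rw [gs_indicator]
  refine le_trans (le_of_eq ?_) (ENNReal.sum_le_tsum F)
  exact Finset.sum_congr rfl fun a ha => (Set.indicator_of_mem (h ha) f).symm

theorem gs_finset (f : α → ℝ≥0∞) (F : Finset α) : gs f (F : Set α) = ∑ a ∈ F, f a :=
  F.tsum_subtype' f

/-- sum over the fibres of a map to a countable set -/
theorem gs_fiber (f : α → ℝ≥0∞) (S : Set α) (g : α → β) :
    gs f S ≤ ∑' i, gs f {a | a ∈ S ∧ g a = i} := by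
  refine le_trans (gs_mono f ?_) (gs_iUnion f fun i => {a | a ∈ S ∧ g a = i})
  intro a ha
  exact Set.mem_iUnion.2 ⟨g a, ha, rfl⟩

theorem gs_prod (f : α → ℝ≥0∞) (g : β → ℝ≥0∞) (A : Set α) (B : Set β) :
    gs (fun p : α × β => f p.1 * g p.2) (A ×ˢ B) = gs f A * gs g B := by
  rw [gs_indicator, gs_indicator f, gs_indicator g]
  have h1 : ∀ p : α × β, (A ×ˢ B : Set (α × β)).indicator (fun p => f p.1 * g p.2) p =
      (fun (a : α) (b : β) => A.indicator f a * B.indicator g b) p.1 p.2 := by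
    rintro ⟨a, b⟩
    by_cases ha : a ∈ A
    · by_cases hb : b ∈ B
      · rw [Set.indicator_of_mem (show (a, b) ∈ A ×ˢ B from ⟨ha, hb⟩)]
        simp only [Set.indicator_of_mem ha, Set.indicator_of_mem hb]
      · rw [Set.indicator_of_notMem (fun h : (a, b) ∈ A ×ˢ B => hb h.2)]
        simp only [Set.indicator_of_notMem hb, mul_zero]
    · rw [Set.indicator_of_notMem (fun h : (a, b) ∈ A ×ˢ B => ha h.1)]
      simp only [Set.indicator_of_notMem ha, zero_mul]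
  calc ∑' p : α × β, (A ×ˢ B : Set (α × β)).indicator (fun p => f p.1 * g p.2) p
      = ∑' p : α × β, (fun (a : α) (b : β) => A.indicator f a * B.indicator g b) p.1 p.2 := by
        congr 1; funext p; exact h1 p
    _ = ∑' a, ∑' b, A.indicator f a * B.indicator g b :=
        ENNReal.tsum_prod (f := fun (a : α) (b : β) => A.indicator f a * B.indicator g b)
    _ = _ := by
        rw [← ENNReal.tsum_mul_right]
        congr 1
        funext a
        rw [ENNReal.tsum_mul_left]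

/-- every element of `T` is built from an element of `A` and one of `B` -/
theorem gs_split2 {δ : Type*} (F : α → β → δ) {f : δ → ℝ≥0∞} {fa : α → ℝ≥0∞} {fb : β → ℝ≥0∞}
    {T : Set δ} {A : Set α} {B : Set β}
    (h : ∀ p ∈ T, ∃ a b, a ∈ A ∧ b ∈ B ∧ p = F a b ∧ f p ≤ fa a * fb b) :
    gs f T ≤ gs fa A * gs fb B := by
  classical
  rcases T.eq_empty_or_nonempty with rfl | ⟨p₀, hp₀⟩
  · rw [gs_empty]; exact bot_le
  obtain ⟨a₀, b₀, -⟩ := h p₀ hp₀
  have : Nonempty α := ⟨a₀⟩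
  have : Nonempty β := ⟨b₀⟩
  choose! a b ha hb he hle using h
  rw [← gs_prod]
  refine gs_le_of_inj f (fun p : α × β => fa p.1 * fb p.2) (fun p => (a p, b p))
    (fun p hp => ⟨ha p hp, hb p hp⟩) ?_ (fun p hp => hle p hp)
  intro p hp p' hp' heq
  have e1 : a p = a p' := congrArg Prod.fst heq
  have e2 : b p = b p' := congrArg Prod.snd heq
  rw [he p hp, he p' hp', e1, e2]

theorem gs_split3 {ε : Type*} (F : α → β → γ → ε) {f : ε → ℝ≥0∞} {fa : α → ℝ≥0∞}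
    {fb : β → ℝ≥0∞} {fc : γ → ℝ≥0∞} {T : Set ε} {A : Set α} {B : Set β} {C : Set γ}
    (h : ∀ p ∈ T, ∃ a b c, a ∈ A ∧ b ∈ B ∧ c ∈ C ∧ p = F a b c ∧ f p ≤ fa a * fb b * fc c) :
    gs f T ≤ gs fa A * gs fb B * gs fc C := by
  rw [← gs_prod, mul_comm, mul_comm]
  refine gs_split2 (fun (p : α × β) (c : γ) => F p.1 p.2 c) ?_
  intro p hp
  obtain ⟨a, b, c, ha, hb, hc, he, hle⟩ := h p hp
  exact ⟨(a, b), c, ⟨ha, hb⟩, hc, he, hle⟩

theorem gs_split4 {δ ε : Type*} (F : α → β → γ → δ → ε) {f : ε → ℝ≥0∞} {fa : α → ℝ≥0∞}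
    {fb : β → ℝ≥0∞} {fc : γ → ℝ≥0∞} {fd : δ → ℝ≥0∞} {T : Set ε} {A : Set α} {B : Set β}
    {C : Set γ} {D : Set δ}
    (h : ∀ p ∈ T, ∃ a b c d, a ∈ A ∧ b ∈ B ∧ c ∈ C ∧ d ∈ D ∧ p = F a b c d ∧
      f p ≤ fa a * fb b * fc c * fd d) :
    gs f T ≤ gs fa A * gs fb B * gs fc C * gs fd D := by
  rw [← gs_prod, ← gs_prod]
  refine gs_split2 (fun (p : (α × β) × γ) (d : δ) => F p.1.1 p.1.2 p.2 d) ?_
  intro p hp
  obtain ⟨a, b, c, d, ha, hb, hc, hd, he, hle⟩ := h p hp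
  exact ⟨((a, b), c), d, ⟨⟨ha, hb⟩, hc⟩, hd, he, hle⟩

/-- the second factor ranges over a class which depends on the first one -/
theorem gs_dep {δ : Type*} (F : α → β → δ) {f : δ → ℝ≥0∞} {fa : α → ℝ≥0∞} {fb : β → ℝ≥0∞}
    {T : Set δ} {A : Set α} (B : α → Set β)
    (h : ∀ p ∈ T, ∃ a b, a ∈ A ∧ b ∈ B a ∧ p = F a b ∧ f p ≤ fa a * fb b) :
    gs f T ≤ gs (fun a => fa a * gs fb (B a)) A := by
  classical
  rcases T.eq_empty_or_nonempty with rfl | ⟨p₀, hp₀⟩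
  · rw [gs_empty]; exact bot_le
  obtain ⟨a₀, b₀, -⟩ := h p₀ hp₀
  have : Nonempty α := ⟨a₀⟩
  have : Nonempty β := ⟨b₀⟩
  choose! a b ha hb he hle using h
  have h1 : gs (fun a => fa a * gs fb (B a)) A =
      ∑' t : α × β, A.indicator fa t.1 * (B t.1).indicator fb t.2 := by
    refine Eq.trans ?_ (ENNReal.tsum_prod (f := fun (a : α) (b : β) =>
      A.indicator fa a * (B a).indicator fb b)).symm
    rw [gs_indicator]
    congr 1
    funext a
    rw [ENNReal.tsum_mul_left, ← gs_indicator]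
    by_cases ha : a ∈ A
    · rw [Set.indicator_of_mem ha, Set.indicator_of_mem ha]
    · rw [Set.indicator_of_notMem ha, Set.indicator_of_notMem ha, zero_mul]
  rw [h1, ← gs_univ]
  refine gs_le_of_inj f _ (fun p => (a p, b p)) (fun _ _ => Set.mem_univ _) ?_ ?_
  · intro p hp p' hp' heq
    have e1 : a p = a p' := congrArg Prod.fst heq
    have e2 : b p = b p' := congrArg Prod.snd heq
    rw [he p hp, he p' hp', e1, e2]
  · intro p hp
    simp only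
    rw [Set.indicator_of_mem (ha p hp), Set.indicator_of_mem (hb p hp)]
    exact hle p hp

/-- lower bound: the elements built from `A` and `B` are different elements of `T` -/
theorem gs_concat2 {δ : Type*} (F : α → β → δ) {f : δ → ℝ≥0∞} {fa : α → ℝ≥0∞} {fb : β → ℝ≥0∞}
    {T : Set δ} {A : Set α} {B : Set β} (hmem : ∀ a ∈ A, ∀ b ∈ B, F a b ∈ T)
    (hinj : ∀ a ∈ A, ∀ b ∈ B, ∀ a' ∈ A, ∀ b' ∈ B, F a b = F a' b' → a = a' ∧ b = b')
    (hle : ∀ a ∈ A, ∀ b ∈ B, fa a * fb b ≤ f (F a b)) : gs fa A * gs fb B ≤ gs f T := by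
  rw [← gs_prod]
  refine gs_le_of_inj _ f (fun p : α × β => F p.1 p.2) (fun p hp => hmem _ hp.1 _ hp.2) ?_
    (fun p hp => hle _ hp.1 _ hp.2)
  rintro ⟨a, b⟩ hp ⟨a', b'⟩ hp' heq
  obtain ⟨e1, e2⟩ := hinj a hp.1 b hp.2 a' hp'.1 b' hp'.2 heq
  rw [e1, e2]

theorem gs_concat3 {ε : Type*} (F : α → β → γ → ε) {f : ε → ℝ≥0∞} {fa : α → ℝ≥0∞}
    {fb : β → ℝ≥0∞} {fc : γ → ℝ≥0∞} {T : Set ε} {A : Set α} {B : Set β} {C : Set γ}
    (hmem : ∀ a ∈ A, ∀ b ∈ B, ∀ c ∈ C, F a b c ∈ T)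
    (hinj : ∀ a ∈ A, ∀ b ∈ B, ∀ c ∈ C, ∀ a' ∈ A, ∀ b' ∈ B, ∀ c' ∈ C, F a b c = F a' b' c' →
      a = a' ∧ b = b' ∧ c = c')
    (hle : ∀ a ∈ A, ∀ b ∈ B, ∀ c ∈ C, fa a * fb b * fc c ≤ f (F a b c)) :
    gs fa A * gs fb B * gs fc C ≤ gs f T := by
  rw [← gs_prod]
  refine gs_concat2 (fun (p : α × β) (c : γ) => F p.1 p.2 c)
    (fun p hp c hc => hmem _ hp.1 _ hp.2 _ hc) ?_ (fun p hp c hc => hle _ hp.1 _ hp.2 _ hc)
  rintro ⟨a, b⟩ hp c hc ⟨a', b'⟩ hp' c' hc' heq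
  obtain ⟨e1, e2, e3⟩ := hinj a hp.1 b hp.2 c hc a' hp'.1 b' hp'.2 c' hc' heq
  exact ⟨Prod.ext e1 e2, e3⟩

/-- disjoint parts of `T` -/
theorem sum_gs_le {ι : Type*} (f : α → ℝ≥0∞) (s : Finset ι) (S : ι → Set α) (T : Set α)
    (hsub : ∀ i ∈ s, S i ⊆ T) (hdisj : ∀ i ∈ s, ∀ j ∈ s, ∀ p, p ∈ S i → p ∈ S j → i = j) :
    ∑ i ∈ s, gs f (S i) ≤ gs f T := by
  classical
  simp_rw [gs_indicator]
  rw [← Summable.tsum_finsetSum (fun i _ => ENNReal.summable)]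
  refine ENNReal.tsum_le_tsum fun p => ?_
  by_cases h : ∃ i ∈ s, p ∈ S i
  · obtain ⟨i, hi, hp⟩ := h
    rw [Finset.sum_eq_single i]
    · rw [Set.indicator_of_mem hp, Set.indicator_of_mem (hsub i hi hp)]
    · intro j hj hji
      rw [Set.indicator_of_notMem]
      intro hp'
      exact hji (hdisj j hj i hi p hp' hp)
    · intro h'
      exact absurd hi h'
  · push Not at h
    rw [Finset.sum_eq_zero fun i hi => Set.indicator_of_notMem (h i hi) _]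
    exact bot_le

/-- covering of `T` -/
theorem gs_le_sum {ι : Type*} (f : α → ℝ≥0∞) (s : Finset ι) (S : ι → Set α) (T : Set α)
    (hsub : ∀ p ∈ T, ∃ i ∈ s, p ∈ S i) : gs f T ≤ ∑ i ∈ s, gs f (S i) := by
  classical
  simp_rw [gs_indicator]
  rw [← Summable.tsum_finsetSum (fun i _ => ENNReal.summable)]
  refine ENNReal.tsum_le_tsum fun p => ?_
  by_cases hp : p ∈ T
  · obtain ⟨i, hi, hpi⟩ := hsub p hp
    rw [Set.indicator_of_mem hp]
    refine le_trans ?_ (Finset.single_le_sum (f := fun i => (S i).indicator f p)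
      (fun _ _ => bot_le) hi)
    rw [Set.indicator_of_mem hpi]
  · rw [Set.indicator_of_notMem hp]
    exact bot_le

end gs

/-! ### products over the levels -/

/-- the product of the numbers `f k` over all levels `k` (for `f ≤ 1`) -/
noncomputable def LP (f : ℤ → ℝ≥0∞) : ℝ≥0∞ := ⨅ s : Finset ℤ, ∏ k ∈ s, f k

theorem LP_le_prod (f : ℤ → ℝ≥0∞) (s : Finset ℤ) : LP f ≤ ∏ k ∈ s, f k := iInf_le _ s

theorem LP_le_one (f : ℤ → ℝ≥0∞) : LP f ≤ 1 := by
  have := LP_le_prod f ∅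
  simpa using this

theorem LP_ne_top (f : ℤ → ℝ≥0∞) : LP f ≠ ∞ := ((LP_le_one f).trans_lt ENNReal.one_lt_top).ne

theorem LP_mono {f g : ℤ → ℝ≥0∞} (h : ∀ k, f k ≤ g k) : LP f ≤ LP g :=
  iInf_mono fun _ => Finset.prod_le_prod' fun k _ => h k

theorem LP_eq_prod {f : ℤ → ℝ≥0∞} (h1 : ∀ k, f k ≤ 1) (s : Finset ℤ) (hs : ∀ k ∉ s, f k = 1) :
    LP f = ∏ k ∈ s, f k := by
  classical
  refine le_antisymm (LP_le_prod f s) (le_iInf fun t => ?_)
  calc ∏ k ∈ s, f k = ∏ k ∈ s ∪ t, f k :=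
        Finset.prod_subset Finset.subset_union_left fun k _ hk => hs k hk
    _ ≤ ∏ k ∈ t, f k :=
        Finset.prod_le_prod_of_subset_of_le_one' Finset.subset_union_right fun k _ _ => h1 k

theorem LP_one {f : ℤ → ℝ≥0∞} (h : ∀ k, f k = 1) : LP f = 1 := by
  rw [LP_eq_prod (fun k => (h k).le) ∅ (fun k _ => h k), Finset.prod_empty]

theorem LP_le_mul {f g h : ℤ → ℝ≥0∞} (hg : ∀ k, g k ≤ 1) (hh : ∀ k, h k ≤ 1)
    (hle : ∀ k, f k ≤ g k * h k) : LP f ≤ LP g * LP h := by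
  classical
  have key : ∀ s t : Finset ℤ, LP f ≤ (∏ k ∈ s, g k) * ∏ k ∈ t, h k := by
    intro s t
    calc LP f ≤ ∏ k ∈ s ∪ t, f k := LP_le_prod f _
      _ ≤ ∏ k ∈ s ∪ t, g k * h k := Finset.prod_le_prod' fun k _ => hle k
      _ = (∏ k ∈ s ∪ t, g k) * ∏ k ∈ s ∪ t, h k := Finset.prod_mul_distrib
      _ ≤ _ := mul_le_mul'
        (Finset.prod_le_prod_of_subset_of_le_one' Finset.subset_union_left fun k _ _ => hg k)
        (Finset.prod_le_prod_of_subset_of_le_one' Finset.subset_union_right fun k _ _ => hh k)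
  have e1 : LP g * LP h = ⨅ t : Finset ℤ, LP g * ∏ k ∈ t, h k :=
    ENNReal.mul_iInf fun h' => absurd h' (LP_ne_top g)
  rw [e1]
  refine le_iInf fun t => ?_
  have e2 : LP g * ∏ k ∈ t, h k = ⨅ s : Finset ℤ, (∏ k ∈ s, g k) * ∏ k ∈ t, h k := by
    refine ENNReal.iInf_mul fun h' => absurd h' ?_
    exact ((Finset.prod_le_one' fun k _ => hh k).trans_lt ENNReal.one_lt_top).ne
  rw [e2]
  exact le_iInf fun s => key s t

theorem mul_LP_le {f g h : ℤ → ℝ≥0∞} (hle : ∀ k, g k * h k ≤ f k) : LP g * LP h ≤ LP f := by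
  refine le_iInf fun s => ?_
  calc LP g * LP h ≤ (∏ k ∈ s, g k) * ∏ k ∈ s, h k := mul_le_mul' (LP_le_prod g s) (LP_le_prod h s)
    _ = ∏ k ∈ s, g k * h k := Finset.prod_mul_distrib.symm
    _ ≤ _ := Finset.prod_le_prod' fun k _ => hle k

theorem LP_mul {f g h : ℤ → ℝ≥0∞} (hg : ∀ k, g k ≤ 1) (hh : ∀ k, h k ≤ 1)
    (he : ∀ k, f k = g k * h k) : LP f = LP g * LP h :=
  le_antisymm (LP_le_mul hg hh fun k => (he k).le) (mul_LP_le fun k => (he k).ge)

theorem LP_equiv (e : ℤ ≃ ℤ) (f : ℤ → ℝ≥0∞) : LP (fun k => f (e k)) = LP f := by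
  have key : ∀ (e : ℤ ≃ ℤ) (f : ℤ → ℝ≥0∞), LP (fun k => f (e k)) ≤ LP f := by
    intro e f
    refine le_iInf fun s => ?_
    refine (LP_le_prod _ (s.map e.symm.toEmbedding)).trans (le_of_eq ?_)
    rw [Finset.prod_map]
    exact Finset.prod_congr rfl fun k _ => by simp
  refine le_antisymm (key e f) ?_
  have := key e.symm (fun k => f (e k))
  simpa using this

theorem LP_shift (c : ℤ) (f : ℤ → ℝ≥0∞) : LP (fun k => f (k + c)) = LP f :=
  LP_equiv (Equiv.addRight c) f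

theorem LP_sub (c : ℤ) (f : ℤ → ℝ≥0∞) : LP (fun k => f (k - c)) = LP f := by
  have := LP_shift (-c) f
  simpa only [sub_eq_add_neg] using this

theorem LP_neg (f : ℤ → ℝ≥0∞) : LP (fun k => f (-k)) = LP f := LP_equiv (Equiv.neg ℤ) f

end Pool.Agent.OC
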