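import Pool.Agent.OC.Stmts

/-!
# Convex occupation energies (MP_f6626d_co): half loops are exponentially small (module ARC)
-/

set_option autoImplicit false

namespace Pool.Agent.OC.ARC

open Finset Pool.Agent.Lib27 Pool.Agent.SapR
open scoped NNReal ENNReal

/-- the weight of a half loop is monotone in `z` -/
theorem Wh_mono (b : ℕ → ℝ≥0) {z z' : ℝ≥0∞} (h : z ≤ z') (l : Wd) : Wh b z l ≤ Wh b z' l :=
  mul_le_mul_left (pow_le_pow_left₀ bot_le h _) _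

/-- division by a positive constant -/
theorem le_div_of_mul_le {K C r : ℝ≥0} {x : ℝ≥0∞} {d : ℕ} (hK : 0 < K)
    (h : (K : ℝ≥0∞) * x ≤ C * (r : ℝ≥0∞) ^ d) : x ≤ ((C / K : ℝ≥0) : ℝ≥0∞) * (r : ℝ≥0∞) ^ d := by
  have hK0 : (K : ℝ≥0∞) ≠ 0 := by exact_mod_cast hK.ne'
  have hKt : (K : ℝ≥0∞) ≠ ∞ := ENNReal.coe_ne_top
  have e : x = (K : ℝ≥0∞)⁻¹ * (K * x) := by
    rw [← mul_assoc, ENNReal.inv_mul_cancel hK0 hKt, one_mul]
  rw [e, ENNReal.coe_div hK.ne', ENNReal.div_eq_inv_mul, mul_assoc]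
  exact mul_le_mul_right h _

end Pool.Agent.OC.ARC

namespace Pool.Agent.OC

open Finset Pool.Agent.Lib27 Pool.Agent.SapR
open scoped NNReal ENNReal

theorem arc_thm (h1 : ARC1_Stmt) (h2 : MONO_Stmt) : ARC_Stmt := by
  intro P
  obtain ⟨eta, C, r, he0, heP, hr, hM⟩ := h2 P
  have hK : 0 < P.zl ^ 4 * P.q ^ 2 := mul_pos (pow_pos P.zl_pos 4) (pow_pos P.q_pos 2)
  refine ⟨eta, C / (P.zl ^ 4 * P.q ^ 2), r, he0, heP, hr, ?_⟩
  intro v1 b hb z hz d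
  have hmono : gs (Wh b z) (Hl d) ≤ gs (Wh b ((1 + eta) * zst b)) (Hl d) :=
    gs_le _ _ subset_rfl fun l _ => ARC.Wh_mono b hz l
  refine hmono.trans (ARC.le_div_of_mul_le hK ?_)
  have a1 := h1 b P.q v1 ((1 + eta) * zst b) hb.w P.q_pos P.q_lt.le hb.v1_ge hb.high d
  have a2 := hM v1 b hb ((1 + eta) * zst b) le_rfl (d + 2)
  have hz' : (P.zl : ℝ≥0∞) ≤ (1 + eta) * zst b := by
    refine hb.z_ge.trans ?_
    calc zst b = 1 * zst b := (one_mul _).symm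
      _ ≤ (1 + eta) * zst b := mul_le_mul_left (le_add_right le_rfl) _
  have hr1 : (r : ℝ≥0∞) ≤ 1 := by exact_mod_cast hr.le
  calc ((P.zl ^ 4 * P.q ^ 2 : ℝ≥0) : ℝ≥0∞) * gs (Wh b ((1 + eta) * zst b)) (Hl d)
      = (P.zl : ℝ≥0∞) ^ 4 * (P.q : ℝ≥0∞) ^ 2 * gs (Wh b ((1 + eta) * zst b)) (Hl d) := by
        push_cast
        ring
    _ ≤ ((1 + eta) * zst b) ^ 4 * (P.q : ℝ≥0∞) ^ 2 * gs (Wh b ((1 + eta) * zst b)) (Hl d) := by
        gcongr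
    _ ≤ Yq b P.q v1 ((1 + eta) * zst b) (d + 2) := a1
    _ ≤ C * (r : ℝ≥0∞) ^ (d + 2) := a2
    _ ≤ C * (r : ℝ≥0∞) ^ d := by
        gcongr 1
        exact pow_le_pow_of_le_one bot_le hr1 (by omega)

end Pool.Agent.OC
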