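import Pool.Agent.OC.Stmts
import Pool.Agent.OC.Lib

/-!
# Convex occupation energies (MP_f6626d_co): half loops are pairs of bridges (module ARC1)
-/

set_option autoImplicit false

namespace Pool.Agent.OC.ARC1

open Finset Pool.Agent.Lib27 Pool.Agent.SapR
open Pool.Agent.MG (Bri Brp dip)
open scoped NNReal ENNReal

theorem lev_d0 : lev (dv 0) = 1 := by decide

theorem occ_snoc0 (u : Wd) (k : ℤ) :
    occ (u ++ [0]) k = occ u k + if k = lev (ep 0 u) + 1 then 1 else 0 := by
  rw [occ_append, occ_eq_vs u, occ_eq_vs [0]]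
  have e1 : cnt (vs 0 ([0] : Wd)) (k - lev (ep 0 u)) =
      if lev (0 : ℤ × ℤ) = k - lev (ep 0 u) then 1 else 0 := by
    rw [vs_cons, vs_nil, cnt_cons, cnt_nil, add_zero]
  have e2 : ep 0 ([0] : Wd) = dv 0 := by rw [ep_cons, ep_nil, zero_add]
  rw [e1, e2, lev_d0, lev_zero]
  have h1 : ((0 : ℤ) = k - lev (ep 0 u)) ↔ lev (ep 0 u) = k :=
    ⟨fun h => by omega, fun h => by omega⟩
  have h2 : ((1 : ℤ) = k - lev (ep 0 u)) ↔ k = lev (ep 0 u) + 1 :=
    ⟨fun h => by omega, fun h => by omega⟩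
  simp only [h1, h2]
  omega

theorem occ_cons0 (v : Wd) (k : ℤ) :
    occ (0 :: v) k = (if k = 0 then 1 else 0) + occ v (k - 1) := by
  have e : (0 :: v : Wd) = [0] ++ v := rfl
  rw [e, occ_append]
  have e2 : ep 0 ([0] : Wd) = dv 0 := by rw [ep_cons, ep_nil, zero_add]
  rw [e2, lev_d0, vs_cons, vs_nil, cnt_cons, cnt_nil, add_zero, lev_zero]
  have h1 : ((0 : ℤ) = k) ↔ k = 0 := eq_comm
  simp only [h1]

/-- a word in the strip `[0,d]` from level `0` to level `d` gives a bridge of height `d + 2` -/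
theorem bri_of {d : ℕ} {w : Wd} (hs : SAWs w) (he : lev (ep 0 w) = d)
    (hl : ∀ v ∈ vt 0 w, 0 ≤ lev v ∧ lev v ≤ d) : 0 :: (w ++ [0]) ∈ Bri (d + 2) := by
  have hvt : vt 0 (w ++ [0]) = vt 0 w ++ [ep 0 w + dv 0] := by
    rw [vt_append', vt_cons, List.tail_cons, vt_nil]
  have h1 : SAWs (w ++ [0]) := by
    unfold SAWs
    rw [hvt, List.nodup_append']
    refine ⟨hs, by simp, ?_⟩
    intro p hp hp'
    rw [List.mem_singleton] at hp'
    have h2 := (hl p hp).2
    rw [hp', lev_add, he, lev_d0] at h2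
    omega
  have hl2 : ∀ v ∈ vt 0 (w ++ [0]), 0 ≤ lev v := by
    intro v hv
    rw [hvt, List.mem_append, List.mem_singleton] at hv
    rcases hv with hv | rfl
    · exact (hl v hv).1
    · rw [lev_add, he, lev_d0]
      omega
  refine ⟨?_, ?_, ?_⟩
  · unfold SAWs
    rw [vt_cons, List.nodup_cons]
    refine ⟨?_, (nodup_vt _ _).2 h1⟩
    intro h0
    rw [vt_eq, List.mem_map] at h0
    obtain ⟨v, hv, hv'⟩ := h0
    have h3 := congrArg lev hv'
    rw [lev_add, lev_add, lev_d0, lev_zero] at h3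
    have := hl2 v hv
    omega
  · have e : (0 :: (w ++ [0]) : Wd) = [0] ++ w ++ [0] := rfl
    have e2 : ep 0 ([0] : Wd) = dv 0 := by rw [ep_cons, ep_nil, zero_add]
    rw [e, MG.lev_ep_append, MG.lev_ep_append, e2, lev_d0, he]
    push_cast
    ring
  · intro p hp
    rw [vs_cons, List.tail_cons, vs_eq, List.mem_map] at hp
    obtain ⟨v, hv, rfl⟩ := hp
    have hv' : v ∈ vt 0 w := by
      have e : vs 0 (w ++ [0]) = vt 0 w := by
        rw [vs_append, vs_cons, vs_nil]
        rfl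
      rwa [e] at hv
    have := hl v hv'
    rw [lev_add, lev_add, lev_d0, lev_zero]
    push_cast
    omega

/-- the weight inequality -/
theorem weight {b : ℕ → ℝ≥0} (hb : IsW b) {q : ℝ≥0} (hq1 : q ≤ 1) {v1 : ℕ} {z : ℝ≥0∞}
    (hv : ∀ v, v1 ≤ v → b (v + 2) ≤ q * b v) {d : ℕ} {l D1 D2 : Wd}
    (hle : ∀ p ∈ vt 0 l, lev p ≤ 0) (hge : ∀ p ∈ vt 0 l, -(d : ℤ) ≤ lev p) (hd : dip l = d)
    (he : l = D1 ++ D2) (h0 : lev (ep 0 l) = 0)
    (h1 : lev (ep 0 D1) = -(d : ℤ)) :
    z ^ 4 * (q : ℝ≥0∞) ^ 2 * Wh b z l ≤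
      Wp b z (0 :: (rv D1 ++ [0]), 0 :: (D2 ++ [0])) *
        (q : ℝ≥0∞) ^ hi v1 (d + 2) (0 :: (rv D1 ++ [0]), 0 :: (D2 ++ [0])) := by
  have h2 : lev (ep 0 D2) = d := by
    rw [he, MG.lev_ep_append, h1] at h0
    omega
  have h3 : lev (ep 0 (rv D1)) = d := by rw [MG.lev_ep_rv, h1]; ring
  -- occupations
  have hocc : ∀ j : ℤ, occ (0 :: (rv D1 ++ [0])) j + occ (0 :: (D2 ++ [0])) j =
      (if j = 0 then 2 else 0) + (if j = d + 2 then 2 else 0) + occ l (j - (d + 1)) +
        (if j = 1 then 1 else 0) := by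
    intro j
    rw [occ_cons0, occ_cons0, occ_snoc0, occ_snoc0, occ_rv, h1, h2, h3]
    have h4 := occ_append' D1 D2 (j - (d + 1))
    rw [← he, h1] at h4
    rw [show j - 1 + -(d : ℤ) = j - (d + 1) by ring]
    rw [show j - (d + 1) - -(d : ℤ) = j - 1 by ring] at h4
    have e1 : (-(d : ℤ) = j - (d + 1)) ↔ j = 1 := ⟨fun h => by omega, fun h => by omega⟩
    have e2 : (j - 1 = (d : ℤ) + 1) ↔ j = d + 2 := ⟨fun h => by omega, fun h => by omega⟩
    simp only [e1] at h4
    simp only [e2]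
    split_ifs at h4 ⊢ <;> omega
  have hout1 : ∀ k : ℤ, 0 < k → occ l k = 0 := by
    intro k hk
    rw [occ_eq_zero]
    rintro p hp rfl
    exact absurd (hle p hp) (by omega)
  have hout2 : ∀ k : ℤ, k < -(d : ℤ) → occ l k = 0 := by
    intro k hk
    rw [occ_eq_zero]
    rintro p hp rfl
    exact absurd (hge p hp) (by omega)
  -- d = 0 : the level 0
  have hzero : d = 0 → occ l 0 ≤ 1 := by
    rintro rfl
    have hnil : l = [] := by
      cases l with
      | nil => rfl
      | cons s t =>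
        exfalso
        have hm : (0 : ℤ × ℤ) + dv s ∈ vt 0 (s :: t) := by
          rw [vt_cons]
          exact List.mem_cons_of_mem _ (mem_vt_self _ _)
        have a1 := hle _ hm
        have a2 := hge _ hm
        rw [lev_add, lev_zero] at a1 a2
        rcases lev_dv s with h | h <;> rw [h] at a1 a2 <;> omega
    rw [hnil, occ_nil]
    split_ifs <;> omega
  set A : Wd := 0 :: (rv D1 ++ [0]) with hA
  set B : Wd := 0 :: (D2 ++ [0]) with hB
  -- the set of levels where a factor is gained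
  let t : Finset ℤ := ((Ioo 1 (d + 1)).filter (fun j : ℕ => v1 ≤ occ A j + occ B j)).map
    ⟨fun j : ℕ => (j : ℤ), fun a b h => Int.ofNat_inj.1 h⟩
  have ht : ∀ j : ℤ, j ∈ t ↔ 1 < j ∧ j < d + 1 ∧ v1 ≤ occ A j + occ B j := by
    intro j
    simp only [t, Finset.mem_map, Finset.mem_filter, Finset.mem_Ioo, Function.Embedding.coeFn_mk]
    constructor
    · rintro ⟨a, ⟨⟨h5, h6⟩, h7⟩, rfl⟩
      exact ⟨by omega, by omega, h7⟩
    · rintro ⟨h5, h6, h7⟩
      refine ⟨j.toNat, ⟨⟨by omega, by omega⟩, ?_⟩, by omega⟩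
      rw [Int.toNat_of_nonneg (by omega)]
      exact h7
  have hcard : hi v1 (d + 2) (A, B) ≤ t.card + 2 := by
    unfold hi
    have hsub : (Ioo 0 (d + 2)).filter (fun k : ℕ => v1 ≤ occ A k + occ B k) ⊆
        (Ioo 1 (d + 1)).filter (fun k : ℕ => v1 ≤ occ A k + occ B k) ∪ {1, d + 1} := by
      intro k hk
      rw [Finset.mem_filter, Finset.mem_Ioo] at hk
      rw [Finset.mem_union, Finset.mem_filter, Finset.mem_Ioo, Finset.mem_insert,
        Finset.mem_singleton]
      by_cases h5 : k = 1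
      · exact Or.inr (Or.inl h5)
      · by_cases h6 : k = d + 1
        · exact Or.inr (Or.inr h6)
        · exact Or.inl ⟨⟨by omega, by omega⟩, hk.2⟩
    refine (Finset.card_le_card hsub).trans ((Finset.card_union_le _ _).trans ?_)
    have h5 : ({1, d + 1} : Finset ℕ).card ≤ 2 := Finset.card_le_two
    simp only [t, Finset.card_map]
    omega
  -- the gain
  have hgain : BW b (fun j => occ l (j - (d + 1)) + bgh d (j - (d + 1))) ≤
      (q : ℝ≥0∞) ^ t.card * BW b (fun j => occ A j + occ B j) := by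
    refine BW_gain hb hq1 t ?_ ?_
    · intro j hj
      obtain ⟨h5, h6, h7⟩ := (ht j).1 hj
      have h8 := hocc j
      rw [if_neg (by omega), if_neg (by omega), if_neg (by omega), zero_add, zero_add,
        add_zero] at h8
      have h9 : bgh d (j - (d + 1)) = 2 := by
        unfold bgh
        rw [if_neg (by omega), if_neg (by omega), if_pos (by omega)]
      rw [h9, ← h8]
      exact hv _ h7
    · intro j hj
      have h8 := hocc j
      rcases lt_trichotomy j 1 with hj1 | hj1 | hj1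
      · -- below the lowest level
        have h5 : occ l (j - (d + 1)) = 0 := hout2 _ (by omega)
        have h6 : bgh d (j - (d + 1)) = 2 := by
          unfold bgh
          rw [if_neg (by omega), if_neg (by omega), if_pos (by omega)]
        rw [h5] at h8
        have h7 : occ A j + occ B j ≤ 2 := by
          rw [h8]
          split_ifs <;> omega
        rw [hb.eq_one h7]
        exact hb.le_one _
      · -- the lowest level
        subst hj1
        rw [if_neg (by omega), if_neg (by omega), if_pos rfl, zero_add, zero_add] at h8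
        rw [h8]
        rcases Nat.eq_zero_or_pos d with hd0 | hd0
        · have h9 := hzero hd0
          have h10 : (1 : ℤ) - (d + 1) = 0 := by omega
          rw [h10]
          rw [hb.eq_one (v := occ l 0 + 1) (by omega)]
          exact hb.le_one _
        · have h9 : bgh d (1 - (d + 1)) = 1 := by
            unfold bgh
            rw [if_neg (by omega), if_pos (by omega)]
          rw [h9]
      · rcases lt_trichotomy j (d + 1) with hj2 | hj2 | hj2
        · -- strictly between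
          rw [if_neg (by omega), if_neg (by omega), if_neg (by omega), zero_add, zero_add,
            add_zero] at h8
          rw [h8]
          exact hb.antitone (by omega)
        · rw [if_neg (by omega), if_neg (by omega), if_neg (by omega), zero_add, zero_add,
            add_zero] at h8
          rw [h8]
          exact hb.antitone (by omega)
        · have h5 : occ l (j - (d + 1)) = 0 := hout1 _ (by omega)
          rw [h5] at h8
          have h7 : occ A j + occ B j ≤ 2 := by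
            rw [h8]
            split_ifs <;> omega
          rw [hb.eq_one h7]
          exact hb.le_one _
  rw [BW_sub b (d + 1) (fun k => occ l k + bgh d k)] at hgain
  have hlen : A.length + B.length = l.length + 4 := by
    rw [hA, hB, he]
    simp only [List.length_cons, List.length_append, List.length_nil, MG.rv_length]
    ring
  have hq1' : (q : ℝ≥0∞) ≤ 1 := by exact_mod_cast hq1
  unfold Wh Wp
  rw [hd, hlen]
  calc z ^ 4 * (q : ℝ≥0∞) ^ 2 * (z ^ l.length * BW b (fun k => occ l k + bgh d k))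
      = z ^ (l.length + 4) * ((q : ℝ≥0∞) ^ 2 * BW b (fun k => occ l k + bgh d k)) := by
        rw [pow_add]; ring
    _ ≤ z ^ (l.length + 4) * ((q : ℝ≥0∞) ^ 2 *
        ((q : ℝ≥0∞) ^ t.card * BW b (fun j => occ A j + occ B j))) := by gcongr
    _ = z ^ (l.length + 4) * (BW b (fun j => occ A j + occ B j) *
        (q : ℝ≥0∞) ^ (t.card + 2)) := by rw [pow_add]; ring
    _ ≤ z ^ (l.length + 4) * (BW b (fun j => occ A j + occ B j) *
        (q : ℝ≥0∞) ^ hi v1 (d + 2) (A, B)) := by
        gcongr 2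
        exact pow_le_pow_of_le_one bot_le hq1' hcard
    _ = _ := by ring

/-- the splitting -/
theorem split {d : ℕ} {l : Wd} (hl : l ∈ Hl d) : ∃ D1 D2 : Wd, l = D1 ++ D2 ∧
    lev (ep 0 D1) = -(d : ℤ) ∧ 0 :: (rv D1 ++ [0]) ∈ Bri (d + 2) ∧ 0 :: (D2 ++ [0]) ∈ Bri (d + 2) := by
  obtain ⟨hs, he, hle, hd⟩ := hl
  have hge : ∀ p ∈ vt 0 l, -(d : ℤ) ≤ lev p := fun p hp => by
    have := MG.dip_le hp
    rwa [hd] at this
  obtain ⟨p, hp, hpd⟩ := MG.dip_mem l
  rw [hd] at hpd
  obtain ⟨D1, D2, rfl, h1, h2⟩ := split_first (fun v => lev v = -(d : ℤ)) l 0 ⟨p, hp, hpd⟩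
  have h1 : lev (ep 0 D1) = -(d : ℤ) := h1
  refine ⟨D1, D2, rfl, h1, bri_of (MG.SAWs_rv (MG.SAWs_left hs)) ?_ ?_,
    bri_of (MG.SAWs_right hs) ?_ ?_⟩
  · rw [MG.lev_ep_rv, h1]; ring
  · intro v hv
    have h3 : 0 < occ (rv D1) (lev v) := occ_pos.2 ⟨v, hv, rfl⟩
    rw [occ_rv, h1, occ_pos] at h3
    obtain ⟨u, hu, hu'⟩ := h3
    have h4 := hle u (MG.mem_vt_append_left D2 hu)
    have h5 := hge u (MG.mem_vt_append_left D2 hu)
    omega
  · rw [MG.lev_ep_append, h1] at he
    omega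
  · intro v hv
    have h4 := hle _ (MG.mem_vt_append_right D1 hv)
    have h5 := hge _ (MG.mem_vt_append_right D1 hv)
    rw [lev_add, h1] at h4 h5
    omega

end Pool.Agent.OC.ARC1

namespace Pool.Agent.OC

open Finset Pool.Agent.Lib27 Pool.Agent.SapR
open Pool.Agent.MG (Bri Brp dip)
open scoped NNReal ENNReal

theorem arc1_thm : ARC1_Stmt := by
  intro b q v1 z hb _ hq1 _ hv d
  have key : ∀ l ∈ Hl d, ∃ D1 D2 : Wd, l = D1 ++ D2 ∧
      0 :: (rv D1 ++ [0]) ∈ Bri (d + 2) ∧ 0 :: (D2 ++ [0]) ∈ Bri (d + 2) ∧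
      z ^ 4 * (q : ℝ≥0∞) ^ 2 * Wh b z l ≤
        Wp b z (0 :: (rv D1 ++ [0]), 0 :: (D2 ++ [0])) *
          (q : ℝ≥0∞) ^ hi v1 (d + 2) (0 :: (rv D1 ++ [0]), 0 :: (D2 ++ [0])) := by
    intro l hl
    obtain ⟨D1, D2, he, h1, h2, h3⟩ := ARC1.split hl
    refine ⟨D1, D2, he, h2, h3, ?_⟩
    refine ARC1.weight hb hq1 hv hl.2.2.1 (fun p hp => ?_) hl.2.2.2 he hl.2.1 h1
    have := MG.dip_le hp
    rwa [hl.2.2.2] at this
  choose! D1 D2 he h1 h2 hle using key
  rw [← gs_mul_left]
  unfold Yq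
  refine gs_le_of_inj _ _ (fun l => (0 :: (rv (D1 l) ++ [0]), 0 :: (D2 l ++ [0])))
    (fun l hl => ⟨h1 l hl, h2 l hl⟩) ?_ hle
  intro l hl l' hl' heq
  rw [Prod.mk.injEq, List.cons.injEq, List.cons.injEq] at heq
  have e1 : rv (D1 l) = rv (D1 l') := List.append_cancel_right heq.1.2
  have e2 : D2 l = D2 l' := List.append_cancel_right heq.2.2
  rw [he l hl, he l' hl', MG.rv_injective e1, e2]

end Pool.Agent.OC
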