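import Pool.Agent.OC.Gs

/-!
# Convex occupation energies (MP_f6626d_co): weights of occupation functions
-/

set_option autoImplicit false

namespace Pool.Agent.OC

open Finset
open scoped NNReal ENNReal

/-- occupation weights: `b = exp (-phi)`, `phi` convex and nondecreasing on `[2, oo)` -/
structure IsW (b : ℕ → ℝ≥0) : Prop where
  b0 : b 0 = 1
  b1 : b 1 = 1
  b2 : b 2 = 1
  anti : ∀ v, 2 ≤ v → b (v + 1) ≤ b v
  lc : ∀ v, 2 ≤ v → b v * b (v + 2) ≤ b (v + 1) ^ 2

namespace IsW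

variable {b : ℕ → ℝ≥0}

theorem antitone (h : IsW b) : Antitone b := by
  refine antitone_nat_of_succ_le fun v => ?_
  rcases v with _ | _ | v
  · rw [h.b0, h.b1]
  · rw [h.b1, h.b2]
  · exact h.anti (v + 2) (by omega)

theorem le_one (h : IsW b) (v : ℕ) : b v ≤ 1 := by
  have := h.antitone (Nat.zero_le v)
  rwa [h.b0] at this

theorem eq_one (h : IsW b) {v : ℕ} (hv : v ≤ 2) : b v = 1 := by
  have h1 : v = 0 ∨ v = 1 ∨ v = 2 := by omega
  rcases h1 with rfl | rfl | rfl
  · exact h.b0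
  · exact h.b1
  · exact h.b2

/-- the ratios are nonincreasing -/
theorem ratio (h : IsW b) {u v : ℕ} (hu : 2 ≤ u) (huv : u ≤ v) : b u * b (v + 1) ≤ b (u + 1) * b v := by
  induction v, huv using Nat.le_induction with
  | base => rw [mul_comm]
  | succ v hv ih =>
    rcases eq_or_ne (b (v + 1)) 0 with h0 | h0
    · have : b (v + 1 + 1) = 0 := by
        have := h.anti (v + 1) (by omega)
        rw [h0] at this
        exact le_antisymm this zero_le
      rw [this, mul_zero]
      exact zero_le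
    · have h1 : b v ≠ 0 := by
        intro h2
        apply h0
        have := h.anti v (by omega)
        rw [h2] at this
        exact le_antisymm this zero_le
      have h3 : 0 < b v * b (v + 1) := by positivity
      have h4 := h.lc v (by omega)
      refine le_of_mul_le_mul_right ?_ h3
      calc b u * b (v + 1 + 1) * (b v * b (v + 1))
          = (b u * b (v + 1)) * (b v * b (v + 2)) := by ring
        _ ≤ (b (u + 1) * b v) * (b (v + 1) ^ 2) := mul_le_mul' ih h4
        _ = _ := by ring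

/-- (B2) -/
theorem sub2 (h : IsW b) {u : ℕ} (hu : 2 ≤ u) (v : ℕ) : b (u + v) ≤ b u * b (2 + v) := by
  induction v with
  | zero => simp [h.b2]
  | succ v ih =>
    have h1 := h.ratio (u := 2 + v) (v := u + v) (by omega) (by omega)
    rcases eq_or_ne (b (2 + v)) 0 with h0 | h0
    · have : b (u + (v + 1)) = 0 := by
        have := h.antitone (show 2 + v ≤ u + (v + 1) by omega)
        rw [h0] at this
        exact le_antisymm this zero_le
      rw [this]
      exact zero_le
    · have h3 : 0 < b (2 + v) := by positivity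
      refine le_of_mul_le_mul_left ?_ h3
      calc b (2 + v) * b (u + (v + 1)) ≤ b (2 + v + 1) * b (u + v) := h1
        _ ≤ b (2 + v + 1) * (b u * b (2 + v)) := mul_le_mul_right ih _
        _ = b (2 + v) * (b u * b (2 + (v + 1))) := by ring_nf

/-- (B3) -/
theorem sub3 (h : IsW b) (u v : ℕ) : b (2 + u + v) ≤ b (2 + u) * b (2 + v) :=
  h.sub2 (by omega) v

theorem pow_sub (h : IsW b) (s k : ℕ) : b (2 + k * s) ≤ b (2 + s) ^ k := by
  induction k with
  | zero => simp [h.b2]
  | succ k ih =>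
    rw [show 2 + (k + 1) * s = 2 + k * s + s by ring, pow_succ]
    exact (h.sub3 _ _).trans (mul_le_mul_left ih _)

/-- log-concavity at distance: `b (2 + s) ^ t ≤ b (2 + t) ^ s` for `t ≤ s` -/
theorem pow_le (h : IsW b) {t s : ℕ} (hts : t ≤ s) : b (2 + s) ^ t ≤ b (2 + t) ^ s := by
  induction s, hts using Nat.le_induction with
  | base => exact le_rfl
  | succ s hs ih =>
    rcases Nat.eq_zero_or_pos t with rfl | ht
    · simp [h.b2]
    · have hs0 : 0 < s := by omega
      -- `b (2 + s + 1) ^ s ≤ b (2 + s) ^ (s + 1)`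
      have key : ∀ s : ℕ, b (2 + (s + 1)) ^ s ≤ b (2 + s) ^ (s + 1) := by
        intro s
        induction s with
        | zero => simp [h.b2]
        | succ s ih2 =>
          rcases eq_or_ne (b (2 + (s + 1))) 0 with h0 | h0
          · have : b (2 + (s + 1 + 1)) = 0 := by
              have := h.antitone (show 2 + (s + 1) ≤ 2 + (s + 1 + 1) by omega)
              rw [h0] at this
              exact le_antisymm this zero_le
            rw [this]
            simp
          · have h1 : b (2 + s) ≠ 0 := by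
              intro h2
              apply h0
              have := h.antitone (show 2 + s ≤ 2 + (s + 1) by omega)
              rw [h2] at this
              exact le_antisymm this zero_le
            have h2 := h.lc (2 + s) (by omega)
            have h3 : 0 < b (2 + s) ^ (s + 1) := by positivity
            refine le_of_mul_le_mul_left ?_ h3
            calc b (2 + s) ^ (s + 1) * b (2 + (s + 1 + 1)) ^ (s + 1)
                = (b (2 + s) * b (2 + s + 2)) ^ (s + 1) := by
                  rw [mul_pow]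
                  congr 1
              _ ≤ (b (2 + s + 1) ^ 2) ^ (s + 1) := by gcongr
              _ = b (2 + (s + 1)) ^ s * b (2 + (s + 1)) ^ (s + 2) := by
                  rw [← pow_mul, ← pow_add]
                  congr 1
                  ring
              _ ≤ b (2 + s) ^ (s + 1) * b (2 + (s + 1)) ^ (s + 1 + 1) := mul_le_mul_left ih2 _
      have h5 : (b (2 + (s + 1)) ^ t) ^ s ≤ (b (2 + t) ^ (s + 1)) ^ s := by
        calc (b (2 + (s + 1)) ^ t) ^ s = (b (2 + (s + 1)) ^ s) ^ t := by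
              rw [← pow_mul, ← pow_mul, mul_comm]
          _ ≤ (b (2 + s) ^ (s + 1)) ^ t := pow_le_pow_left₀ zero_le (key s) t
          _ = (b (2 + s) ^ t) ^ (s + 1) := by rw [← pow_mul, ← pow_mul, mul_comm]
          _ ≤ (b (2 + t) ^ s) ^ (s + 1) := by gcongr
          _ = (b (2 + t) ^ (s + 1)) ^ s := by rw [← pow_mul, ← pow_mul, mul_comm]
      exact le_of_pow_le_pow_left₀ (by omega) zero_le h5

end IsW

/-- the product of `b (o k)` over all levels `k` -/
noncomputable def BW (b : ℕ → ℝ≥0) (o : ℤ → ℕ) : ℝ≥0∞ := LP (fun k => (b (o k) : ℝ≥0∞))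

section BW
variable {b : ℕ → ℝ≥0}

theorem coe_le_one (h : IsW b) (v : ℕ) : (b v : ℝ≥0∞) ≤ 1 := by exact_mod_cast h.le_one v

theorem BW_le_one (b : ℕ → ℝ≥0) (o : ℤ → ℕ) : BW b o ≤ 1 := LP_le_one _

theorem BW_ne_top (b : ℕ → ℝ≥0) (o : ℤ → ℕ) : BW b o ≠ ∞ := LP_ne_top _

theorem BW_eq (h : IsW b) {o : ℤ → ℕ} (s : Finset ℤ) (hs : ∀ k ∉ s, o k ≤ 2) :
    BW b o = ∏ k ∈ s, (b (o k) : ℝ≥0∞) :=
  LP_eq_prod (fun k => coe_le_one h _) s fun k hk => by rw [h.eq_one (hs k hk)]; rfl

theorem BW_one (h : IsW b) {o : ℤ → ℕ} (ho : ∀ k, o k ≤ 2) : BW b o = 1 := by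
  rw [BW_eq h ∅ (fun k _ => ho k), Finset.prod_empty]

/-- larger occupations have smaller weight -/
theorem BW_anti (h : IsW b) {o o' : ℤ → ℕ} (hle : ∀ k, o k ≤ o' k) : BW b o' ≤ BW b o :=
  LP_mono fun k => by exact_mod_cast h.antitone (hle k)

theorem BW_congr {o o' : ℤ → ℕ} (he : ∀ k, o k = o' k) : BW b o = BW b o' := by
  rw [show o = o' from funext he]

theorem BW_le_mul (h : IsW b) {o o₁ o₂ : ℤ → ℕ} (hle : ∀ k, b (o k) ≤ b (o₁ k) * b (o₂ k)) :
    BW b o ≤ BW b o₁ * BW b o₂ :=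
  LP_le_mul (fun k => coe_le_one h _) (fun k => coe_le_one h _)
    fun k => by exact_mod_cast hle k

theorem BW_mul (h : IsW b) {o o₁ o₂ : ℤ → ℕ} (he : ∀ k, b (o k) = b (o₁ k) * b (o₂ k)) :
    BW b o = BW b o₁ * BW b o₂ :=
  LP_mul (fun k => coe_le_one h _) (fun k => coe_le_one h _)
    fun k => by exact_mod_cast he k

/-- at every level one of the two occupations is trivial -/
theorem BW_mul_of_sep (h : IsW b) {o o₁ o₂ : ℤ → ℕ}
    (he : ∀ k, (o k = o₁ k ∧ o₂ k ≤ 2) ∨ (o k = o₂ k ∧ o₁ k ≤ 2)) :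
    BW b o = BW b o₁ * BW b o₂ := by
  refine BW_mul h fun k => ?_
  rcases he k with ⟨h1, h2⟩ | ⟨h1, h2⟩
  · rw [h1, h.eq_one h2, mul_one]
  · rw [h1, h.eq_one h2, one_mul]

theorem BW_equiv (b : ℕ → ℝ≥0) (e : ℤ ≃ ℤ) (o : ℤ → ℕ) : BW b (fun k => o (e k)) = BW b o :=
  LP_equiv e (fun k => (b (o k) : ℝ≥0∞))

theorem BW_shift (b : ℕ → ℝ≥0) (c : ℤ) (o : ℤ → ℕ) : BW b (fun k => o (k + c)) = BW b o :=
  LP_shift c (fun k => (b (o k) : ℝ≥0∞))

theorem BW_sub (b : ℕ → ℝ≥0) (c : ℤ) (o : ℤ → ℕ) : BW b (fun k => o (k - c)) = BW b o :=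
  LP_sub c (fun k => (b (o k) : ℝ≥0∞))

theorem BW_neg (b : ℕ → ℝ≥0) (o : ℤ → ℕ) : BW b (fun k => o (-k)) = BW b o :=
  LP_neg (fun k => (b (o k) : ℝ≥0∞))

/-- (D): linear domination, level by level -/
theorem BW_dom (h : IsW b) {z C y : ℝ≥0∞} (hd : ∀ v, z ^ v * b v ≤ C * y ^ v) {o : ℤ → ℕ}
    (s : Finset ℤ) (hs : ∀ k ∉ s, o k = 0) :
    z ^ (∑ k ∈ s, o k) * BW b o ≤ C ^ s.card * y ^ (∑ k ∈ s, o k) := by
  rw [BW_eq h s (fun k hk => by rw [hs k hk]; omega), ← Finset.prod_pow_eq_pow_sum,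
    ← Finset.prod_pow_eq_pow_sum, ← Finset.prod_mul_distrib, ← Finset.prod_const,
    ← Finset.prod_mul_distrib]
  exact Finset.prod_le_prod' fun k _ => hd (o k)

/-- gain of a factor `q` on the levels of `t` -/
theorem BW_gain (h : IsW b) {o o' : ℤ → ℕ} {q : ℝ≥0} (hq : q ≤ 1) (t : Finset ℤ)
    (h1 : ∀ k ∈ t, b (o k) ≤ q * b (o' k)) (h2 : ∀ k ∉ t, b (o k) ≤ b (o' k)) :
    BW b o ≤ (q : ℝ≥0∞) ^ t.card * BW b o' := by
  classical
  have e : (q : ℝ≥0∞) ^ t.card = LP (fun k => if k ∈ t then (q : ℝ≥0∞) else 1) := by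
    rw [LP_eq_prod (fun k => ?_) t (fun k hk => if_neg hk), ← Finset.prod_const]
    · exact Finset.prod_congr rfl fun k hk => (if_pos hk).symm
    · split_ifs
      · exact_mod_cast hq
      · exact le_rfl
  rw [e]
  refine LP_le_mul (fun k => ?_) (fun k => coe_le_one h _) fun k => ?_
  · split_ifs
    · exact_mod_cast hq
    · exact le_rfl
  · split_ifs with hk
    · exact_mod_cast h1 k hk
    · rw [one_mul]
      exact_mod_cast h2 k hk

/-- lower bound: the occupation `o'` costs at most a factor `c` on the levels of `t` -/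
theorem BW_lower {o o' : ℤ → ℕ} {c : ℝ≥0} (hc : c ≤ 1) (t : Finset ℤ)
    (h1 : ∀ k ∈ t, c * b (o k) ≤ b (o' k)) (h2 : ∀ k ∉ t, b (o k) ≤ b (o' k)) :
    (c : ℝ≥0∞) ^ t.card * BW b o ≤ BW b o' := by
  classical
  have e : (c : ℝ≥0∞) ^ t.card = LP (fun k => if k ∈ t then (c : ℝ≥0∞) else 1) := by
    rw [LP_eq_prod (fun k => ?_) t (fun k hk => if_neg hk), ← Finset.prod_const]
    · exact Finset.prod_congr rfl fun k hk => (if_pos hk).symm
    · split_ifs
      · exact_mod_cast hc
      · exact le_rfl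
  rw [e]
  refine mul_LP_le fun k => ?_
  split_ifs with hk
  · exact_mod_cast h1 k hk
  · rw [one_mul]
    exact_mod_cast h2 k hk

end BW

end Pool.Agent.OC
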