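import Pool.Agent.OC.Stmts
import Pool.Agent.OC.Lib

/-!
# Convex occupation energies (MP_f6626d_co): BEY, sums beyond the critical point
-/

set_option autoImplicit false

namespace Pool.Agent.OC

open Finset Pool.Agent.Lib27 Pool.Agent.SapR
open Pool.Agent.MG (Bri Brp Irr Nc Fp Fpp Bad SB CC SW dip cc chi rfa)
open scoped NNReal ENNReal

namespace BEY

/-- a number `A > 1` with `A * r < 1` -/
theorem exists_A {r : ℝ≥0} (hr : r < 1) : ∃ A : ℝ≥0, 1 < A ∧ A * r < 1 := by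
  have h1 : (0 : ℝ≥0) < 1 + r := by positivity
  refine ⟨2 / (1 + r), ?_, ?_⟩
  · rw [one_lt_div h1, ← one_add_one_eq_two]
    exact add_lt_add_right hr 1
  · rw [div_mul_eq_mul_div, div_lt_one h1, two_mul]
    exact add_lt_add_left hr r

/-- a common rate -/
theorem exists_t {r x : ℝ≥0} (hr : r < 1) (hx : x < 1) :
    ∃ t : ℝ≥0, t < 1 ∧ ∀ k H : ℕ, x ^ k * r ^ (H - k) ≤ t ^ k * t ^ H := by
  refine ⟨max r (NNReal.sqrt x), ?_, ?_⟩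
  · refine max_lt hr ?_
    rw [← NNReal.sqrt_one]
    exact NNReal.sqrt_lt_sqrt.2 hx
  · intro k H
    set t := max r (NNReal.sqrt x) with ht
    have ht1 : t ≤ 1 := by
      refine max_le hr.le ?_
      rw [← NNReal.sqrt_one]
      exact NNReal.sqrt_le_sqrt.2 hx.le
    have h1 : x ≤ t ^ 2 := by
      calc x = NNReal.sqrt x ^ 2 := (NNReal.sq_sqrt x).symm
        _ ≤ t ^ 2 := pow_le_pow_left₀ bot_le (le_max_right _ _) 2
    calc x ^ k * r ^ (H - k) ≤ (t ^ 2) ^ k * t ^ (H - k) :=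
          mul_le_mul' (pow_le_pow_left₀ bot_le h1 k)
            (pow_le_pow_left₀ bot_le (le_max_left _ _) _)
      _ = t ^ k * t ^ (k + (H - k)) := by
          rw [← pow_mul, ← pow_add, ← pow_add]
          congr 1
          omega
      _ ≤ t ^ k * t ^ H :=
          mul_le_mul' le_rfl (pow_le_pow_of_le_one bot_le ht1 (by omega))

theorem geo_ne_top {t : ℝ≥0} (ht : t < 1) : (1 - (t : ℝ≥0∞))⁻¹ ≠ ∞ := by
  rw [ne_eq, ENNReal.inv_eq_top]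
  have : (t : ℝ≥0∞) < 1 := by exact_mod_cast ht
  exact (tsub_pos_of_lt this).ne'

theorem mono_z {e e' : ℝ≥0} (h : e ≤ e') (z : ℝ≥0∞) :
    (1 + (e : ℝ≥0∞)) * z ≤ (1 + (e' : ℝ≥0∞)) * z :=
  mul_le_mul' (add_le_add le_rfl (by exact_mod_cast h)) le_rfl

end BEY

open BEY in
/-- BEY : sums beyond the critical point -/
theorem bey_thm (h1 : MEAN_Stmt) (h2 : GAP_Stmt) (h3 : ARC_Stmt) (h4 : NCB_Stmt) (h5 : FREE_Stmt)
    (h6 : CAPC_Stmt) (h7 : POLYC_Stmt) : BEY_Stmt := by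
  intro P
  obtain ⟨M, hM⟩ := h1 P
  obtain ⟨eg, Cg, rg, heg, -, hrg, hg⟩ := h2 P
  obtain ⟨ea, Ca, ra, hea, -, hra, ha⟩ := h3 P
  obtain ⟨r, hr, hn⟩ := h4 P
  obtain ⟨A, hA1, hAr⟩ := exists_A hra
  obtain ⟨en, Cn, hen, -, hn⟩ := hn A hA1
  obtain ⟨t, ht1, ht⟩ := exists_t hr hAr
  set eta := min eg (min ea en) with heta
  have hle1 : eta ≤ eg := min_le_left _ _
  have hle2 : eta ≤ ea := (min_le_right _ _).trans (min_le_left _ _)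
  have hle3 : eta ≤ en := (min_le_right _ _).trans (min_le_right _ _)
  -- the constants
  set G : ℝ≥0∞ := (1 - (t : ℝ≥0∞))⁻¹ with hG
  have hGt : G ≠ ∞ := geo_ne_top ht1
  set Gg : ℝ≥0∞ := (1 - (rg : ℝ≥0∞))⁻¹ with hGg
  have hGgt : Gg ≠ ∞ := geo_ne_top hrg
  set K1 : ℝ≥0∞ := Cg * Gg with hK1
  set K2 : ℝ≥0∞ := Ca * Cn * (G * G) with hK2
  set K3 : ℝ≥0∞ := 2 * (Ca * Ca * Cn * (G * (G * G))) with hK3
  have hK1t : K1 ≠ ∞ := ENNReal.mul_ne_top ENNReal.coe_ne_top hGgt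
  have hK2t : K2 ≠ ∞ := ENNReal.mul_ne_top (ENNReal.mul_ne_top ENNReal.coe_ne_top
    ENNReal.coe_ne_top) (ENNReal.mul_ne_top hGt hGt)
  have hK3t : K3 ≠ ∞ := ENNReal.mul_ne_top (by simp) (ENNReal.mul_ne_top (ENNReal.mul_ne_top
    (ENNReal.mul_ne_top ENNReal.coe_ne_top ENNReal.coe_ne_top) ENNReal.coe_ne_top)
    (ENNReal.mul_ne_top hGt (ENNReal.mul_ne_top hGt hGt)))
  have hKt : K1 + K2 + K3 ≠ ∞ := ENNReal.add_ne_top.2 ⟨ENNReal.add_ne_top.2 ⟨hK1t, hK2t⟩, hK3t⟩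
  refine ⟨eta, (K1 + K2 + K3).toNNReal, lt_min heg (lt_min hea hen), ?_⟩
  rw [ENNReal.coe_toNNReal hKt]
  intro v1 b hb
  have hz1 := mono_z hle1 (zst b)
  have hz2 := mono_z hle2 (zst b)
  have hz3 := mono_z hle3 (zst b)
  set z : ℝ≥0∞ := (1 + (eta : ℝ≥0∞)) * zst b with hz
  -- half loops and pairs of bridges
  have hha : ∀ d, gs (Wh b z) (Hl d) ≤ Ca * (ra : ℝ≥0∞) ^ d := ha v1 b hb z hz2
  have hhn : ∀ e d H : ℕ, gs (Wp b z) (Nc e (H - d) H) ≤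
      Cn * (A : ℝ≥0∞) ^ (e + d) * (r : ℝ≥0∞) ^ (H - (e + d)) := hn v1 b hb z hz3
  have hht : ∀ k H : ℕ, (ra : ℝ≥0∞) ^ k * ((A : ℝ≥0∞) ^ k * (r : ℝ≥0∞) ^ (H - k)) ≤
      (t : ℝ≥0∞) ^ k * (t : ℝ≥0∞) ^ H := by
    intro k H
    have h8 := ht k H
    rw [mul_pow] at h8
    have h9 : ((A ^ k * ra ^ k * r ^ (H - k) : ℝ≥0) : ℝ≥0∞) ≤ ((t ^ k * t ^ H : ℝ≥0) : ℝ≥0∞) := by
      exact_mod_cast h8
    push_cast at h9
    calc (ra : ℝ≥0∞) ^ k * ((A : ℝ≥0∞) ^ k * (r : ℝ≥0∞) ^ (H - k)) =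
          (A : ℝ≥0∞) ^ k * (ra : ℝ≥0∞) ^ k * (r : ℝ≥0∞) ^ (H - k) := by ring
      _ ≤ _ := h9
  have hgeo : ∑' n : ℕ, (t : ℝ≥0∞) ^ n = G := ENNReal.tsum_geometric _
  refine ⟨?_, ?_, ?_, ?_⟩
  · rw [h5 b (zst b) hb.w]
    exact (hM v1 b hb).1
  · rw [h5 b z hb.w]
    have h8 : ∑' j : ℕ, ww b z (j + 1) ≤ K1 := by
      calc ∑' j : ℕ, ww b z (j + 1) ≤ ∑' j : ℕ, (Cg : ℝ≥0∞) * (rg : ℝ≥0∞) ^ j := by
            refine ENNReal.tsum_le_tsum fun j => (hg v1 b hb z hz1 (j + 1)).trans ?_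
            refine mul_le_mul' le_rfl ?_
            exact pow_le_pow_of_le_one bot_le (by exact_mod_cast hrg.le) (Nat.le_succ j)
        _ = K1 := by rw [ENNReal.tsum_mul_left, ENNReal.tsum_geometric]
    exact h8.trans (le_add_right (le_add_right le_rfl))
  · refine (h6 b z hb.w).trans ?_
    have h8 : ∀ H d : ℕ, gs (Wh b z) (Hl d) * gs (Wp b z) (Nc 0 (H - d) H) ≤
        Ca * Cn * (t : ℝ≥0∞) ^ H * (t : ℝ≥0∞) ^ d := by
      intro H d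
      have h9 := hhn 0 d H
      rw [zero_add] at h9
      calc gs (Wh b z) (Hl d) * gs (Wp b z) (Nc 0 (H - d) H) ≤
            (Ca * (ra : ℝ≥0∞) ^ d) * (Cn * (A : ℝ≥0∞) ^ d * (r : ℝ≥0∞) ^ (H - d)) :=
            mul_le_mul' (hha d) h9
        _ = Ca * Cn * ((ra : ℝ≥0∞) ^ d * ((A : ℝ≥0∞) ^ d * (r : ℝ≥0∞) ^ (H - d))) := by ring
        _ ≤ Ca * Cn * ((t : ℝ≥0∞) ^ d * (t : ℝ≥0∞) ^ H) := mul_le_mul' le_rfl (hht d H)
        _ = _ := by ring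
    calc ∑' H : ℕ, ∑' d : ℕ, gs (Wh b z) (Hl d) * gs (Wp b z) (Nc 0 (H - d) H) ≤
          ∑' H : ℕ, ∑' d : ℕ, Ca * Cn * (t : ℝ≥0∞) ^ H * (t : ℝ≥0∞) ^ d :=
          ENNReal.tsum_le_tsum fun H => ENNReal.tsum_le_tsum fun d => h8 H d
      _ = K2 := by
          simp_rw [ENNReal.tsum_mul_left, hgeo, ENNReal.tsum_mul_right, ENNReal.tsum_mul_left,
            hgeo]
          rw [hK2]
          ring
      _ ≤ K1 + K2 + K3 := le_add_right (le_add_left le_rfl)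
  · intro n hn1
    refine (h7 b z hb.w n hn1).trans ?_
    have h8 : ∀ H e d : ℕ, gs (Wh b z) (Hl e) * gs (Wh b z) (Hl d) *
        gs (Wp b z) (Nc e (H - d) H) ≤
        Ca * Ca * Cn * (t : ℝ≥0∞) ^ H * (t : ℝ≥0∞) ^ e * (t : ℝ≥0∞) ^ d := by
      intro H e d
      calc gs (Wh b z) (Hl e) * gs (Wh b z) (Hl d) * gs (Wp b z) (Nc e (H - d) H) ≤
            (Ca * (ra : ℝ≥0∞) ^ e) * (Ca * (ra : ℝ≥0∞) ^ d) *
              (Cn * (A : ℝ≥0∞) ^ (e + d) * (r : ℝ≥0∞) ^ (H - (e + d))) :=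
            mul_le_mul' (mul_le_mul' (hha e) (hha d)) (hhn e d H)
        _ = Ca * Ca * Cn * ((ra : ℝ≥0∞) ^ (e + d) *
              ((A : ℝ≥0∞) ^ (e + d) * (r : ℝ≥0∞) ^ (H - (e + d)))) := by
            rw [pow_add (ra : ℝ≥0∞)]
            ring
        _ ≤ Ca * Ca * Cn * ((t : ℝ≥0∞) ^ (e + d) * (t : ℝ≥0∞) ^ H) :=
            mul_le_mul' le_rfl (hht (e + d) H)
        _ = _ := by
            rw [pow_add]
            ring
    calc ((2 * n : ℕ) : ℝ≥0∞) * ∑' H : ℕ, ∑' e : ℕ, ∑' d : ℕ,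
          gs (Wh b z) (Hl e) * gs (Wh b z) (Hl d) * gs (Wp b z) (Nc e (H - d) H) ≤
          ((2 * n : ℕ) : ℝ≥0∞) * ∑' H : ℕ, ∑' e : ℕ, ∑' d : ℕ,
            Ca * Ca * Cn * (t : ℝ≥0∞) ^ H * (t : ℝ≥0∞) ^ e * (t : ℝ≥0∞) ^ d :=
          mul_le_mul' le_rfl (ENNReal.tsum_le_tsum fun H => ENNReal.tsum_le_tsum fun e =>
            ENNReal.tsum_le_tsum fun d => h8 H e d)
      _ = K3 * n := by
          simp_rw [ENNReal.tsum_mul_left, hgeo, ENNReal.tsum_mul_right, ENNReal.tsum_mul_left,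
            hgeo, ENNReal.tsum_mul_right, ENNReal.tsum_mul_left, hgeo]
          rw [hK3]
          push_cast
          ring
      _ ≤ (K1 + K2 + K3) * n := mul_le_mul' le_add_self le_rfl

end Pool.Agent.OC
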