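import Pool.Agent.OC.Stmts
import Pool.Agent.OC.Lib

/-!
# Convex occupation energies (MP_f6626d_co): BLK, the block recursion (helper74)
-/

set_option autoImplicit false

namespace Pool.Agent.OC.BLK

open Finset Pool.Agent.Lib27 Pool.Agent.SapR
open Pool.Agent.MG (Bri Brp Irr Nc Fp Fpp Bad SB CC SW dip cc chi rfa)
open scoped NNReal ENNReal

variable {b : ℕ → ℝ≥0}

/-- a first passage word visits all levels in between -/
theorem occ_Fp_pos {H : ℕ} {v : Wd} (hv : v ∈ Fp H) {k : ℤ} (h0 : 0 ≤ k) (hk : k ≤ H) :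
    0 < occ v k := by
  obtain ⟨u, s, rfl, h1, -⟩ := MG.first_visit (w := v) (h := k) h0
    ⟨ep 0 v, ep_mem_vt _ _, by rw [hv.2.1]; exact hk⟩
  exact occ_pos.2 ⟨ep 0 u, MG.mem_vt_append_left s (ep_mem_vt _ _), h1⟩

theorem occ_Fp_top {H : ℕ} {v : Wd} (hv : v ∈ Fp H) : occ v H = 1 := MG.cnt_end hv

theorem occ_Fp_above {H : ℕ} {v : Wd} (hv : v ∈ Fp H) {k : ℤ} (hk : (H : ℤ) < k) :
    occ v k = 0 := by
  rw [occ_eq_zero]
  rintro p hp rfl
  rcases MG.mem_vt_iff.1 hp with hp | rfl
  · have := hv.2.2 p hp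
    omega
  · rw [hv.2.1] at hk
    omega

/-- occupation of a concatenation behind a first passage word, above the junction -/
theorem occ_append_ge {H : ℕ} {v : Wd} (hv : v ∈ Fp H) (s : Wd) {k : ℤ} (hk : (H : ℤ) ≤ k) :
    occ (v ++ s) k = occ s (k - H) := MG.cnt_above s hv hk

theorem occ_append_lt {H : ℕ} {v : Wd} (hv : v ∈ Fp H) (s : Wd) {k : ℤ} (hk : k < (H : ℤ)) :
    occ (v ++ s) k = occ v k + occ s (k - H) := by
  rw [occ_append_of_ne v s (by rw [hv.2.1]; omega), hv.2.1]

/-- the weight of a pair of first passage words followed by arbitrary words -/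
theorem Wt_append_le (h : IsW b) (z : ℝ≥0∞) {H : ℕ} {v v' : Wd} (s s' : Wd) (hv : v ∈ Fp H)
    (hv' : v' ∈ Fp H) : Wt b z (v ++ s, v' ++ s') ≤ Wt b z (v, v') * Wt b z (s, s') := by
  unfold Wt
  simp only
  have e1 : BW b (fun k => occ (v ++ s) k + occ (v' ++ s') k + if k < 0 then 2 else 0) ≤
      BW b (fun k => occ v k + occ v' k + if k < 0 then 2 else 0) *
        BW b (fun k => occ s k + occ s' k + if k < 0 then 2 else 0) := by
    rw [← BW_sub b H (fun k => occ s k + occ s' k + if k < 0 then 2 else 0)]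
    refine BW_le_mul h fun k => ?_
    rcases lt_or_ge k (H : ℤ) with hk | hk
    · rw [occ_append_lt hv s hk, occ_append_lt hv' s' hk, if_pos (show k - (H : ℤ) < 0 by omega)]
      have h2 : 2 ≤ occ v k + occ v' k + if k < 0 then 2 else 0 := by
        split_ifs with h0
        · omega
        · have := occ_Fp_pos hv (not_lt.1 h0) hk.le
          have := occ_Fp_pos hv' (not_lt.1 h0) hk.le
          omega
      have h3 := h.sub2 h2 (occ s (k - H) + occ s' (k - H))
      rw [show occ v k + occ s (k - H) + (occ v' k + occ s' (k - H)) + (if k < 0 then 2 else 0) =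
        (occ v k + occ v' k + if k < 0 then 2 else 0) + (occ s (k - H) + occ s' (k - H)) by ring,
        show occ s (k - H) + occ s' (k - H) + 2 = 2 + (occ s (k - H) + occ s' (k - H)) by ring]
      exact h3
    · rw [occ_append_ge hv s hk, occ_append_ge hv' s' hk, if_neg (show ¬ k < 0 by omega),
        if_neg (show ¬ k - (H : ℤ) < 0 by omega), add_zero, add_zero]
      have h2 : occ v k + occ v' k ≤ 2 := by
        rcases hk.lt_or_eq with hk | hk
        · rw [occ_Fp_above hv hk, occ_Fp_above hv' hk]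
          omega
        · rw [← hk, occ_Fp_top hv, occ_Fp_top hv']
      rw [h.eq_one h2, one_mul]
  rw [List.length_append, List.length_append]
  rw [show v.length + s.length + (v'.length + s'.length) =
    (v.length + v'.length) + (s.length + s'.length) by ring, pow_add]
  calc _ ≤ z ^ (v.length + v'.length) * z ^ (s.length + s'.length) *
        (BW b (fun k => occ v k + occ v' k + if k < 0 then 2 else 0) *
        BW b (fun k => occ s k + occ s' k + if k < 0 then 2 else 0)) := mul_le_mul_right e1 _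
    _ = _ := by ring

theorem Wt_nil (h : IsW b) (z : ℝ≥0∞) : Wt b z ([], []) = 1 := by
  unfold Wt
  simp only [List.length_nil, add_zero, pow_zero, one_mul]
  refine BW_one h fun k => ?_
  rw [occ_nil]
  split_ifs <;> omega

theorem Wt_mono {z z' : ℝ≥0∞} (h : z ≤ z') (p : Wd × Wd) : Wt b z p ≤ Wt b z' p :=
  mul_le_mul_left (pow_le_pow_left₀ bot_le h _) _

/-- the recursion: the class `Bad` is cut at the highest block -/
theorem Bad_cut {K k r : ℕ} (hK : 0 < K) {p : Wd × Wd} (hp : p ∈ Bad K (k + 1) r) :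
    ∃ q v : Wd × Wd, (q ∈ Fpp (3 * K) ∧ (1 ≤ r ∨ SB K q)) ∧
      v ∈ Bad K k (max (r - 1) (max (cc K q.1) (cc K q.2))) ∧
      p = (v.1 ++ q.1, v.2 ++ q.2) := by
  obtain ⟨a, b⟩ := p
  obtain ⟨ha, hb, hno⟩ := hp
  simp only at ha hb hno
  rw [Nat.succ_mul] at ha hb
  obtain ⟨v, s, hv, hs, rfl⟩ := MG.Fp_cut ha
  obtain ⟨v', s', hv', hs', rfl⟩ := MG.Fp_cut hb
  refine ⟨(s, s'), (v, v'), ⟨⟨hs, hs'⟩, ?_⟩, ?_, rfl⟩
  · rcases Nat.eq_zero_or_pos r with rfl | hr
    · right
      intro l hl1 hl2 hcc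
      refine hno k (by omega) (l + ((k * (3 * K) : ℕ) : ℤ)) (by push_cast; omega)
        (by push_cast; push_cast at hl2; omega) ?_
      rw [MG.CC_above s s' hv hv' (by omega), add_sub_cancel_right]
      exact hcc
    · exact Or.inl hr
  · refine MG.bad_of_cut hK hv hv' ?_
    intro j hj l hl1 hl2
    exact hno j (by omega) l hl1 hl2

end Pool.Agent.OC.BLK

namespace Pool.Agent.OC

open Finset Pool.Agent.Lib27 Pool.Agent.SapR
open Pool.Agent.MG (Bri Brp Irr Nc Fp Fpp Bad SB CC SW dip cc chi rfa)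
open scoped NNReal ENNReal

theorem blk_thm : BLK_Stmt := by
  classical
  intro b z R K hW hR hRt hK k
  have hR0 : R ≠ 0 := (zero_lt_one.trans_le hR).ne'
  induction k with
  | zero =>
    intro r
    have h1 : gs (Wt b z) (Bad K 0 r) ≤ gs (Wt b z) {(([], []) : Wd × Wd)} := by
      refine gs_mono _ ?_
      rintro ⟨x, y⟩ ⟨hx, hy, -⟩
      simp only at hx hy
      rw [zero_mul] at hx hy
      rw [MG.Fp_zero hx, MG.Fp_zero hy]
      rfl
    rw [gs_singleton, BLK.Wt_nil hW] at h1
    rw [pow_zero, mul_one]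
    exact h1.trans (one_le_pow₀ hR)
  | succ k ih =>
    intro r
    have h1 : gs (Wt b z) (Bad K (k + 1) r) ≤
        gs (fun q => Wt b z q * gs (Wt b z) (Bad K k (max (r - 1) (max (cc K q.1) (cc K q.2)))))
          {q | q ∈ Fpp (3 * K) ∧ (1 ≤ r ∨ SB K q)} := by
      refine gs_dep (fun (q v : Wd × Wd) => (v.1 ++ q.1, v.2 ++ q.2))
        (fun q => Bad K k (max (r - 1) (max (cc K q.1) (cc K q.2)))) ?_
      intro p hp
      obtain ⟨q, v, hq, hv, he⟩ := BLK.Bad_cut hK hp
      refine ⟨q, v, hq, hv, he, ?_⟩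
      rw [he, mul_comm]
      exact BLK.Wt_append_le hW z q.1 q.2 hv.1 hv.2.1
    refine h1.trans ?_
    unfold theta
    rw [pow_succ, ← mul_assoc, ← gs_mul_left]
    refine gs_le _ _ (fun q hq => hq.1) fun q hq => ?_
    obtain ⟨c, hc⟩ : ∃ c, c = cc K q.1 + cc K q.2 := ⟨_, rfl⟩
    have hmax : max (cc K q.1) (cc K q.2) ≤ c := by rw [hc]; omega
    have h3 : R ^ (max (r - 1) (max (cc K q.1) (cc K q.2))) ≤
        R ^ r * (R ^ c * (if SB K q then 1 else R⁻¹)) := by
      by_cases hsb : SB K q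
      · rw [if_pos hsb, mul_one, ← pow_add]
        exact pow_le_pow_right₀ hR (max_le (by omega) (by omega))
      · rw [if_neg hsb]
        have hr : 1 ≤ r := by
          rcases hq.2 with h | h
          · exact h
          · exact absurd h hsb
        obtain ⟨r', rfl⟩ : ∃ r', r = r' + 1 := ⟨r - 1, by omega⟩
        have h4 : R ^ (r' + 1) * (R ^ c * R⁻¹) = R ^ (r' + c) := by
          rw [pow_succ, pow_add R r' c]
          calc R ^ r' * R * (R ^ c * R⁻¹) = R ^ r' * R ^ c * (R * R⁻¹) := by ring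
            _ = _ := by rw [ENNReal.mul_inv_cancel hR0 hRt, mul_one]
        rw [h4]
        exact pow_le_pow_right₀ hR (max_le (by omega) (by omega))
    calc Wt b z q * gs (Wt b z) (Bad K k (max (r - 1) (max (cc K q.1) (cc K q.2))))
        ≤ Wt b z q * (R ^ (max (r - 1) (max (cc K q.1) (cc K q.2))) * theta b z R K ^ k) :=
          mul_le_mul_right (ih _) _
      _ ≤ Wt b z q * (R ^ r * (R ^ c * (if SB K q then 1 else R⁻¹)) * theta b z R K ^ k) :=
          mul_le_mul_right (mul_le_mul_left h3 _) _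
      _ = _ := by rw [hc]; unfold theta; ring

end Pool.Agent.OC
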