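import Pool.Agent.OC.Stmts
import Pool.Agent.OC.Lib

/-!
# Convex occupation energies (MP_f6626d_co), module CAPC: caps are pairs of bridges and a half loop
-/

set_option autoImplicit false

namespace Pool.Agent.OC

open Finset Pool.Agent.Lib27 Pool.Agent.SapR
open Pool.Agent.MG (Bri Brp Irr Nc Fp Fpp Bad SB CC SW dip cc chi rfa)
open scoped NNReal ENNReal

namespace CAPC

theorem rv_append (u v : Wd) : rv (u ++ v) = rv v ++ rv u := by
  simp [rv]

/-- a word with end point on the level `0`, interior vertices above -/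
structure Arc (T : Wd) : Prop where
  ne : T ≠ []
  saw : SAWs T
  endz : lev (ep 0 T) = 0
  pos : ∀ p ∈ (vs 0 T).tail, 0 < lev p

theorem arc_of_cap {T : Wd} (h : T ∈ FL.Cap) : Arc T ∧ ∀ k : ℤ, 1 ≤ k → ¬ Cut (vt 0 T) k := by
  obtain ⟨x, hx, ⟨h1, h2, h3, h4⟩, h5⟩ := h
  exact ⟨⟨h1, h3, by rw [h2]; unfold lev; simp, h4⟩, h5⟩

theorem Arc.nonneg {T : Wd} (h : Arc T) {p : ℤ × ℤ} (hp : p ∈ vt 0 T) : 0 ≤ lev p := by
  rcases MG.mem_vt_iff.1 hp with hp | rfl
  · rcases (MG.mem_vs_iff h.ne).1 hp with rfl | hp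
    · exact le_rfl
    · exact (h.pos p hp).le
  · rw [h.endz]

theorem Arc.exists_pos {T : Wd} (h : Arc T) : ∃ p ∈ vt 0 T, 0 < lev p := by
  have hne := h.ne
  have hep := h.endz
  have hpos := h.pos
  cases T with
  | nil => exact absurd rfl hne
  | cons d w =>
    cases w with
    | nil =>
      exfalso
      rw [ep_cons, ep_nil, zero_add] at hep
      rcases lev_dv d with h | h <;> rw [h] at hep <;> simp at hep
    | cons e w =>
      have hm : 0 + dv d ∈ (vs 0 (d :: e :: w)).tail := by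
        rw [vs_cons, List.tail_cons, vs_cons]; exact List.mem_cons_self ..
      exact ⟨_, MG.mem_vt_iff.2 (Or.inl (List.mem_of_mem_tail hm)), hpos _ hm⟩

/-- the highest level -/
theorem Arc.exists_top {T : Wd} (h : Arc T) : ∃ H : ℕ, 1 ≤ H ∧ (∃ p ∈ vt 0 T, lev p = H) ∧
    ∀ p ∈ vt 0 T, lev p ≤ H := by
  obtain ⟨p0, hp0, hp0'⟩ := h.exists_pos
  obtain ⟨p, hp, hmax⟩ := Finset.exists_max_image (vt 0 T).toFinset lev
    ⟨p0, List.mem_toFinset.2 hp0⟩
  have h1 := hmax p0 (List.mem_toFinset.2 hp0)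
  refine ⟨(lev p).toNat, by omega, ⟨p, List.mem_toFinset.1 hp, by omega⟩, fun q hq => ?_⟩
  have h2 := hmax q (List.mem_toFinset.2 hq)
  omega

/-- a bridge visits all levels -/
theorem occ_Bri_pos {H : ℕ} {A : Wd} (hA : A ∈ Bri H) {j : ℤ} (h0 : 0 ≤ j) (hj : j ≤ H) :
    0 < occ A j := by
  obtain ⟨u, v, rfl, h1, -⟩ := MG.first_visit (w := A) (h := j) h0
    ⟨ep 0 A, ep_mem_vt _ _, by rw [hA.2.1]; exact hj⟩
  exact occ_pos.2 ⟨ep 0 u, MG.mem_vt_append_left v (ep_mem_vt _ _), h1⟩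

/-- the decomposition of an arch at its highest level -/
theorem Arc.split {T : Wd} (h : Arc T) : ∃ (H : ℕ) (l A B : Wd), T = A ++ (l ++ rv B) ∧
    A ∈ Bri H ∧ B ∈ Bri H ∧ l ∈ Hl (dip l) := by
  obtain ⟨H, hH, ⟨p0, hp0, hp0'⟩, hmax⟩ := h.exists_top
  have hpos := h.pos
  obtain ⟨A, R, rfl, hA1, hA2⟩ := MG.first_visit (w := T) (h := H) (by positivity)
    ⟨p0, hp0, hp0'.ge⟩
  have hAne : A ≠ [] := MG.ne_nil_of_Tp hH hA1
  rw [MG.vs_tail_append R hAne] at hpos
  have hA : A ∈ Bri H := ⟨MG.SAWs_left h.saw, hA1, fun p hp =>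
    ⟨hpos p (List.mem_append_left _ hp), hA2 p (List.mem_of_mem_tail hp)⟩⟩
  have hR : lev (ep 0 R) = -H := by
    have := h.endz
    rw [MG.lev_ep_append, hA1] at this
    omega
  obtain ⟨B, v, hBv, hB1, hB2⟩ := MG.first_visit (w := rv R) (h := H) (by positivity)
    ⟨ep 0 (rv R), ep_mem_vt _ _, by rw [MG.lev_ep_rv, hR]; omega⟩
  have hBne : B ≠ [] := MG.ne_nil_of_Tp hH hB1
  have hRe : R = rv v ++ rv B := by
    rw [← rv_append, ← hBv, rv_rv]
  have hSR : SAWs (rv R) := MG.SAWs_rv (MG.SAWs_right h.saw)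
  have hB : B ∈ Bri H := by
    refine ⟨MG.SAWs_left (v := v) (hBv ▸ hSR), hB1, fun p hp =>
      ⟨?_, hB2 p (List.mem_of_mem_tail hp)⟩⟩
    have h1 : p ∈ (vt 0 (rv R)).tail := by
      rw [hBv, vt_append, List.tail_append_of_ne_nil]
      · exact List.mem_append_left _ hp
      · rw [vs_eq_cons B 0 hBne]
        simp
    have h2 : p + ep 0 R ∈ (vt (ep 0 R) (rv R)).tail := by
      rw [vt_tail_map]
      exact List.mem_map.2 ⟨p, h1, rfl⟩
    rw [MG.vt_rv0] at h2
    have h3 : p + ep 0 R ∈ vs 0 R := by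
      unfold vt at h2
      rw [List.reverse_append, List.reverse_singleton, List.singleton_append,
        List.tail_cons, List.mem_reverse] at h2
      exact h2
    have h4 := hpos (p + ep 0 R + ep 0 A)
      (List.mem_append_right _ (List.mem_map.2 ⟨_, h3, rfl⟩))
    rw [lev_add, lev_add, hR, hA1] at h4
    omega
  refine ⟨H, rv v, A, B, by rw [← hRe], hA, hB, ?_⟩
  have hsl : SAWs (rv v) := by
    have := MG.SAWs_right h.saw
    rw [hRe] at this
    exact MG.SAWs_left this
  refine ⟨hsl, ?_, ?_, rfl⟩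
  · rw [hRe, MG.lev_ep_append, MG.lev_ep_rv B, hB1] at hR
    omega
  · intro p hp
    have h1 : p + ep 0 A ∈ vt 0 (A ++ R) := by
      apply MG.mem_vt_append_right
      rw [hRe]
      exact MG.mem_vt_append_left _ hp
    have h2 := hmax _ h1
    rw [lev_add, hA1] at h2
    omega

/-- occupations of the parts -/
theorem occ_split {H : ℕ} {l A B : Wd} (hA : A ∈ Bri H) (hB : B ∈ Bri H)
    (hl : lev (ep 0 l) = 0) (k : ℤ) : occ (A ++ (l ++ rv B)) k =
      if k = H then occ l 0 else occ A k + occ B k + occ l (k - H) := by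
  have hA2 := hA.2.1
  have hB2 := hB.2.1
  split_ifs with hk
  · subst hk
    have h1 := occ_append_eq A (l ++ rv B)
    have h2 := occ_append_eq l (rv B)
    rw [hA2, occ_Bri_top hA] at h1
    rw [hl, occ_rv, hB2, zero_add, occ_Bri_top hB] at h2
    omega
  · rw [occ_append_of_ne A _ (by rw [hA2]; exact fun h => hk h.symm), hA2,
      occ_append_of_ne l _ (by rw [hl]; omega), hl, occ_rv, hB2, sub_zero, sub_add_cancel]
    ring

theorem weight {b : ℕ → ℝ≥0} (hb : IsW b) (z : ℝ≥0∞) {H : ℕ} {l A B : Wd}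
    (hA : A ∈ Bri H) (hB : B ∈ Bri H) (hl : l ∈ Hl (dip l))
    (h0 : ∀ p ∈ vt 0 (A ++ (l ++ rv B)), 0 ≤ lev p) :
    z ^ (A ++ (l ++ rv B)).length * BW b (occ (A ++ (l ++ rv B))) ≤
      Wh b z l * Wp b z (A, B) := by
  have h1 : BW b (occ (A ++ (l ++ rv B))) ≤
      BW b (fun k => occ l (k - H) + bgh (dip l) (k - H)) *
        BW b (fun k => occ A k + occ B k) := by
    refine BW_le_mul hb fun k => ?_
    rw [occ_split hA hB hl.2.1 k]
    split_ifs with hk
    · subst hk
      rw [sub_self, occ_Bri_top hA, occ_Bri_top hB]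
      have : bgh (dip l) 0 = 0 := by unfold bgh; rw [if_pos rfl]
      rw [this, hb.b2, mul_one, add_zero]
    · by_cases hkH : k < H
      · by_cases hk0 : 0 ≤ k
        · have ha := occ_Bri_pos hA hk0 hkH.le
          have hb' := occ_Bri_pos hB hk0 hkH.le
          have h2 : bgh (dip l) (k - H) ≤ 2 := by
            unfold bgh
            split_ifs <;> omega
          have h3 := hb.sub2 (u := occ A k + occ B k) (by omega) (occ l (k - H))
          refine h3.trans ?_
          rw [mul_comm]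
          refine mul_le_mul' (hb.antitone ?_) le_rfl
          omega
        · have e : occ (A ++ (l ++ rv B)) k = 0 := by
            rw [occ_eq_zero]
            intro p hp he
            have := h0 p hp
            omega
          rw [occ_split hA hB hl.2.1 k, if_neg hk] at e
          have e1 : occ A k + occ B k = 0 := by omega
          have e2 : occ l (k - H) = 0 := by omega
          have h2 : bgh (dip l) (k - H) ≤ 2 := by
            unfold bgh
            split_ifs <;> omega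
          rw [e, e1, e2, zero_add, hb.eq_one h2, hb.b0, mul_one]
      · have hkH' : (H : ℤ) < k := by omega
        rw [occ_Bri_out hA (Or.inr hkH'), occ_Bri_out hB (Or.inr hkH')]
        have e : bgh (dip l) (k - H) = 0 := by
          unfold bgh
          rw [if_neg (by omega), if_neg (by omega), if_neg (by omega)]
        rw [e, hb.b0, mul_one, add_zero, add_zero, zero_add]
  rw [BW_sub b H (fun k => occ l k + bgh (dip l) k)] at h1
  unfold Wh Wp
  simp only
  calc z ^ (A ++ (l ++ rv B)).length * BW b (occ (A ++ (l ++ rv B)))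
      ≤ z ^ (A ++ (l ++ rv B)).length * (BW b (fun k => occ l k + bgh (dip l) k) *
        BW b (fun k => occ A k + occ B k)) := mul_le_mul_right h1 _
    _ = _ := by
        rw [List.length_append, List.length_append, MG.rv_length,
          show A.length + (l.length + B.length) = l.length + (A.length + B.length) by ring,
          pow_add]
        ring

theorem nocut {H : ℕ} {l A B : Wd} (hA : A ∈ Bri H) (hB : B ∈ Bri H) (hl : l ∈ Hl (dip l))
    (hc : ∀ k : ℤ, 1 ≤ k → ¬ Cut (vt 0 (A ++ (l ++ rv B))) k) :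
    (A, B) ∈ Nc 0 (H - dip l) H := by
  refine ⟨⟨hA, hB⟩, fun k hk hk' hcc => hc k (by
    have : 0 < k := by simpa using hk
    omega) ?_⟩
  have hk0 : 0 < k := by simpa using hk
  have hkd : k < H - dip l := by omega
  obtain ⟨c1, c2⟩ := hcc
  have e1 : occ A k = 1 := c1
  have e2 : occ B k = 1 := c2
  have e3 : occ l (k - H) = 0 := by
    rw [occ_eq_zero]
    intro p hp he
    have := MG.dip_le hp
    omega
  have hlow : ∀ j : ℤ, 0 ≤ j → j < H → 0 < occ (A ++ (l ++ rv B)) j := by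
    intro j hj hj'
    rw [occ_split hA hB hl.2.1 j, if_neg (by omega)]
    have := occ_Bri_pos hA hj hj'.le
    omega
  refine ⟨?_, hlow (k - 1) (by omega) (by omega), ?_⟩
  · show occ (A ++ (l ++ rv B)) k = 2
    rw [occ_split hA hB hl.2.1 k, if_neg (by omega), e1, e2, e3]
  · by_cases hk1 : k + 1 = H
    · show 0 < occ (A ++ (l ++ rv B)) (k + 1)
      rw [occ_split hA hB hl.2.1 (k + 1), if_pos hk1]
      exact occ_zero_pos l
    · exact hlow (k + 1) (by omega) (by omega)

end CAPC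

open CAPC in
theorem capc_thm : CAPC_Stmt := by
  intro b z hb
  have key : ∀ T ∈ FL.Cap, ∃ i : ℕ × ℕ, ∃ (l : Wd) (q : Wd × Wd), l ∈ Hl i.2 ∧
      q ∈ Nc 0 (i.1 - i.2) i.1 ∧ T = q.1 ++ (l ++ rv q.2) ∧
      z ^ T.length * BW b (occ T) ≤ Wh b z l * Wp b z q := by
    intro T hT
    obtain ⟨hT1, hT2⟩ := arc_of_cap hT
    obtain ⟨H, l, A, B, rfl, hA, hB, hl⟩ := hT1.split
    exact ⟨(H, dip l), l, (A, B), hl, nocut hA hB hl hT2, rfl,
      weight hb z hA hB hl fun p hp => hT1.nonneg hp⟩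
  choose! g hg using key
  refine (gs_fiber _ FL.Cap g).trans ?_
  refine le_trans (ENNReal.tsum_le_tsum (g := fun i : ℕ × ℕ =>
    gs (Wh b z) (Hl i.2) * gs (Wp b z) (Nc 0 (i.1 - i.2) i.1)) fun i => ?_)
    (le_of_eq (ENNReal.tsum_prod (f := fun H d : ℕ =>
      gs (Wh b z) (Hl d) * gs (Wp b z) (Nc 0 (H - d) H))))
  refine gs_split2 (fun (l : Wd) (q : Wd × Wd) => q.1 ++ (l ++ rv q.2)) ?_
  rintro T ⟨hT, rfl⟩
  obtain ⟨l, q, h1, h2, h3, h4⟩ := hg T hT
  exact ⟨l, q, h1, h2, h3, h4⟩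

end Pool.Agent.OC
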