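import Pool.Agent.OC.Stmts2
import Pool.Agent.Lib_helper27.Transl

/-!
# CDF: distribution functions of the occupation weights on the sample space
-/

set_option autoImplicit false

namespace Pool.Agent.OC.CDF

open Finset Filter Topology Pool.Agent.Lib27 Pool.Agent.SapR Pool.Agent.Gap Pool.Agent.AreaLaw

lemma sum_Om (n : ℕ) (F' : OmM n → ℝ) (F : ((_ : ℤ) × (_ : ℕ) × (Wd × Wd)) → ℝ) (H : Wd → ℝ)
    (h : ∀ q : {q // q ∈ M41.Om (2 * n - 1) n}, F' (Sum.inl q) = F q.1)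
    (h' : ∀ w : {w // w ∈ FL.NoCut n}, F' (Sum.inr w) = H w.1) :
    ∑ x : OmM n, F' x = ∑ q ∈ M41.Om (2 * n - 1) n, F q + ∑ w ∈ FL.NoCut n, H w := by
  rw [Fintype.sum_sum_type]
  simp only [h, h']
  congr 1
  · exact Finset.sum_coe_sort (M41.Om (2 * n - 1) n) F
  · exact Finset.sum_coe_sort (FL.NoCut n) H

/-- the weighted sums over `SAP n` in terms of the sample space -/
lemma transfer (hTR : TRG_Stmt) (b : ℕ → ℝ) (μ : MW) (hb : OccWeight b) (hμ : Rep b μ)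
    (n : ℕ) (hn : 1 ≤ n) (Φ : ℤ → ℝ) :
    ∑ s ∈ SAP n, occW b n s * Φ |dbl 0 (List.ofFn s)| =
      b 1 ^ 2 * (4 * n) * ∑ y : OmM n, wtO n μ y * Φ (TZ n y) := by
  have hb1 : b 1 ≠ 0 := hb.one.ne'
  have h1 := hTR μ n hn (fun a c => b 1 ^ 2 * c * Φ |a|)
  simp only [abs_abs] at h1
  have h0 : ∑ s ∈ SAP n, occW b n s * Φ |dbl 0 (List.ofFn s)| =
      ∑ s ∈ SAP n, b 1 ^ 2 * μ.cw (List.ofFn s) * Φ |dbl 0 (List.ofFn s)| := by
    refine sum_congr rfl fun s hs => ?_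
    rw [hμ.cw n s hn hs]
    field_simp
  rw [h0, h1]
  have hn0 : (0 : ℝ) < n := by exact_mod_cast hn
  have h2 := sum_Om n (fun y => wtO n μ y * Φ (TZ n y))
    (fun q => wtM μ q * Φ |dbl 0 q.2.2.2 + dbl 0 q.2.2.1|)
    (fun w => 1 / (4 * (n : ℝ)) * μ.cw w * Φ |dbl 0 w|)
    (fun q => rfl) (fun w => rfl)
  rw [h2, mul_add, mul_sum, mul_sum, mul_sum]
  congr 1
  · refine sum_congr rfl fun q _ => ?_
    ring
  · refine sum_congr rfl fun w _ => ?_
    field_simp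

lemma occCdf_eq (hTR : TRG_Stmt) (b : ℕ → ℝ) (μ : MW) (hb : OccWeight b) (hμ : Rep b μ)
    (n : ℕ) (hn : 1 ≤ n) (x : ℝ) : occCdf b n x = cdfM n μ x := by
  classical
  have hn0 : (0 : ℝ) < n := by exact_mod_cast hn
  have hb1 : 0 < b 1 := hb.one
  obtain ⟨K, hK⟩ : ∃ K, K = b 1 ^ 2 * (4 * (n : ℝ)) := ⟨_, rfl⟩
  have hK0 : 0 < K := by rw [hK]; positivity
  have hZ : occZ b n = K * ∑ y : OmM n, wtO n μ y := by
    have := transfer hTR b μ hb hμ n hn (fun _ => 1)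
    simp only [mul_one] at this
    unfold occZ
    rw [this, hK]
  have harea : ∀ s : Fin (2 * n) → Fin 4, area n s = ((|dbl 0 (List.ofFn s)| : ℤ) : ℝ) / 2 := by
    intro s
    rw [area_eq]
    rfl
  have hS : ∑ t ∈ SAP n, occW b n t * area n t =
      K * (∑ y : OmM n, wtO n μ y * (TZ n y : ℝ)) / 2 := by
    have := transfer hTR b μ hb hμ n hn (fun a => (a : ℝ))
    simp only [harea]
    rw [← hK] at this
    rw [← this, Finset.sum_div]
    refine sum_congr rfl fun s _ => ?_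
    ring
  unfold occCdf cdfM
  rw [hZ, hS]
  have h1 : ∑ s ∈ (SAP n).filter (fun s => area n s * (K * ∑ y : OmM n, wtO n μ y) ≤
      x * (K * (∑ y : OmM n, wtO n μ y * (TZ n y : ℝ)) / 2)),
      occW b n s = K * ∑ y ∈ univ.filter fun y : OmM n => (TZ n y : ℝ) *
        ∑ y' : OmM n, wtO n μ y' ≤
      x * ∑ y' : OmM n, wtO n μ y' * (TZ n y' : ℝ), wtO n μ y := by
    have := transfer hTR b μ hb hμ n hn (fun a => if (a : ℝ) *
        ∑ y' : OmM n, wtO n μ y' ≤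
      x * ∑ y' : OmM n, wtO n μ y' * (TZ n y' : ℝ) then 1 else 0)
    rw [← hK] at this
    simp only [mul_ite, mul_one, mul_zero] at this
    rw [Finset.sum_filter, Finset.sum_filter, ← this]
    refine sum_congr rfl fun s _ => ?_
    refine if_congr ?_ rfl rfl
    rw [harea]
    constructor
    · intro h
      have h2 : K * ((((|dbl 0 (List.ofFn s)| : ℤ) : ℝ)) * ∑ y' : OmM n, wtO n μ y') ≤
          K * (x * ∑ y' : OmM n, wtO n μ y' * (TZ n y' : ℝ)) := by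
        linarith
      exact le_of_mul_le_mul_left h2 hK0
    · intro h
      have h2 := mul_le_mul_of_nonneg_left h hK0.le
      linarith
  rw [h1]
  exact mul_div_mul_left _ _ hK0.ne'

end Pool.Agent.OC.CDF

namespace Pool.Agent.OC

/-- CDF -/
theorem cdf_thm (h1 : TRG_Stmt) : CDF_Stmt := fun b μ hb hμ n hn x =>
  CDF.occCdf_eq h1 b μ hb hμ n hn x

end Pool.Agent.OC
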