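import Pool.Agent.OC.Stmts

/-!
# Convex occupation energies (MP_f6626d_co): the weights below a nontrivial weight form a uniform
class (module CLS)
-/

set_option autoImplicit false

namespace Pool.Agent.OC

/-- CLS: the constants of ZST, DOM and HIGH are packed in one `Par`. -/
theorem cls_thm (h1 : ZST_Stmt) (h2 : DOM_Stmt) (h3 : HIGH_Stmt) : CLS_Stmt := by
  intro c hc
  obtain ⟨zl, hzl, hz⟩ := h1
  obtain ⟨C, y, y1, eta, hC, hy, hyy, hy1, hchi, heta, heta1, hdom⟩ := h2 c hc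
  obtain ⟨q, kap, V, hq, hq1, hkap, hkap1, hV, hhigh⟩ := h3 c hc
  refine ⟨⟨C, y, y1, eta, zl, q, kap, V, hC, hy, hyy, hy1, hchi, heta, heta1, hzl, hq, hq1, hkap,
    hkap1, hV⟩, fun b hb hbc => ?_⟩
  obtain ⟨v1, hv2, hvV, hh, hl⟩ := hhigh b hb hbc
  obtain ⟨hz1, hz2, hz3, hz4⟩ := hz b hb
  exact ⟨v1, ⟨hb, hz1, hz2, hz3, hz4, hdom b hb hbc, hv2, hvV, hh, hl⟩⟩

end Pool.Agent.OC
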