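import Pool.Agent.OC.Stmts

/-!
# The combs
-/

set_option autoImplicit false

namespace Pool.Agent.OC.COMB

open Finset Pool.Agent.Lib27 Pool.Agent.SapR

theorem add_dv (x y : ℤ) : (x, y) + dv 0 = (x + 1, y) ∧ (x, y) + dv 1 = (x, y + 1) ∧
    (x, y) + dv 3 = (x, y - 1) := by
  refine ⟨?_, ?_, ?_⟩ <;> simp [dv, sub_eq_add_neg]

theorem ep_right (n : ℕ) (x y : ℤ) : ep (x, y) (List.replicate n 0) = (x + n, y) := by
  induction n generalizing x y with
  | zero => simp
  | succ n ih =>
    rw [List.replicate_succ, ep_cons, (add_dv x y).1, ih]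
    push_cast
    congr 1
    ring

theorem ep_up (n : ℕ) (x y : ℤ) : ep (x, y) (List.replicate n 1) = (x, y + n) := by
  induction n generalizing x y with
  | zero => simp
  | succ n ih =>
    rw [List.replicate_succ, ep_cons, (add_dv x y).2.1, ih]
    push_cast
    congr 1
    ring

theorem ep_down (n : ℕ) (x y : ℤ) : ep (x, y) (List.replicate n 3) = (x, y - n) := by
  induction n generalizing x y with
  | zero => simp
  | succ n ih =>
    rw [List.replicate_succ, ep_cons, (add_dv x y).2.2, ih]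
    push_cast
    congr 1
    ring

theorem mem_right (n : ℕ) (x y a b : ℤ) : (a, b) ∈ vs (x, y) (List.replicate n 0) ↔
    b = y ∧ x ≤ a ∧ a < x + n := by
  induction n generalizing x y with
  | zero =>
    rw [List.replicate_zero, vs_nil]
    simp only [List.not_mem_nil, false_iff]
    push_cast
    omega
  | succ n ih =>
    rw [List.replicate_succ, vs_cons, (add_dv x y).1, List.mem_cons, ih, Prod.mk.injEq]
    push_cast
    omega

theorem mem_up (n : ℕ) (x y a b : ℤ) : (a, b) ∈ vs (x, y) (List.replicate n 1) ↔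
    a = x ∧ y ≤ b ∧ b < y + n := by
  induction n generalizing x y with
  | zero =>
    rw [List.replicate_zero, vs_nil]
    simp only [List.not_mem_nil, false_iff]
    push_cast
    omega
  | succ n ih =>
    rw [List.replicate_succ, vs_cons, (add_dv x y).2.1, List.mem_cons, ih, Prod.mk.injEq]
    push_cast
    omega

theorem mem_down (n : ℕ) (x y a b : ℤ) : (a, b) ∈ vs (x, y) (List.replicate n 3) ↔
    a = x ∧ b ≤ y ∧ y < b + n := by
  induction n generalizing x y with
  | zero =>
    rw [List.replicate_zero, vs_nil]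
    simp only [List.not_mem_nil, false_iff]
    push_cast
    omega
  | succ n ih =>
    rw [List.replicate_succ, vs_cons, (add_dv x y).2.2, List.mem_cons, ih, Prod.mk.injEq]
    push_cast
    omega

theorem ep_tooth (L : ℕ) (x : ℤ) : ep (x, 0) (tooth L) = (x + 2, 0) := by
  unfold tooth
  rw [ep_append, ep_append, ep_append, ep_up, ep_cons, ep_nil, (add_dv _ _).1, ep_down, ep_cons,
    ep_nil, (add_dv _ _).1]
  congr 1
  · ring
  · ring

theorem mem_tooth (L : ℕ) (x a b : ℤ) : (a, b) ∈ vs (x, 0) (tooth L) ↔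
    x ≤ a ∧ a < x + 2 ∧ 0 ≤ b ∧ b ≤ L := by
  unfold tooth
  simp only [vs_append, ep_append, ep_up, ep_down, ep_cons, ep_nil, (add_dv _ _).1, vs_cons,
    vs_nil, List.mem_append, List.mem_singleton, mem_up, mem_down, Prod.mk.injEq]
  omega

theorem ep_teeth (L j : ℕ) (x : ℤ) :
    ep (x, 0) (List.replicate j (tooth L)).flatten = (x + 2 * j, 0) := by
  induction j generalizing x with
  | zero => simp
  | succ j ih =>
    rw [List.replicate_succ, List.flatten_cons, ep_append, ep_tooth, ih]
    push_cast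
    congr 1
    ring

theorem mem_teeth (L j : ℕ) (x a b : ℤ) :
    (a, b) ∈ vs (x, 0) (List.replicate j (tooth L)).flatten ↔
      x ≤ a ∧ a < x + 2 * j ∧ 0 ≤ b ∧ b ≤ L := by
  induction j generalizing x with
  | zero =>
    rw [List.replicate_zero, List.flatten_nil, vs_nil]
    simp only [List.not_mem_nil, false_iff]
    push_cast
    omega
  | succ j ih =>
    rw [List.replicate_succ, List.flatten_cons, vs_append, List.mem_append, ep_tooth, ih,
      mem_tooth]
    push_cast
    omega

theorem length_tooth (L : ℕ) : (tooth L).length = 2 * L + 2 := by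
  unfold tooth
  simp only [List.length_append, List.length_replicate, List.length_singleton]
  ring

theorem length_teeth (L j : ℕ) :
    (List.replicate j (tooth L)).flatten.length = j * (2 * L + 2) := by
  induction j with
  | zero => simp
  | succ j ih =>
    rw [List.replicate_succ, List.flatten_cons, List.length_append, ih, length_tooth]
    ring

theorem length_comb {w L j : ℕ} (h : 2 * j + 1 ≤ w) : (comb w L j).length = w + 2 * j * L := by
  unfold comb
  rw [List.length_append, List.length_append, length_teeth, List.length_replicate,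
    List.length_singleton]
  have e : j * (2 * L + 2) = 2 * j * L + 2 * j := by ring
  omega

theorem ep_comb {w L j : ℕ} (h : 2 * j + 1 ≤ w) : ep 0 (comb w L j) = ((w : ℤ), 0) := by
  unfold comb
  rw [ep_append, ep_append, ep_cons, ep_nil, show (0 : ℤ × ℤ) = ((0 : ℤ), (0 : ℤ)) from rfl,
    (add_dv _ _).1, ep_teeth, ep_right]
  congr 1
  omega

theorem mem_comb {w L j : ℕ} (h : 2 * j + 1 ≤ w) (a b : ℤ) : (a, b) ∈ vt 0 (comb w L j) ↔
    (b = 0 ∧ 0 ≤ a ∧ a ≤ w) ∨ (1 ≤ a ∧ a ≤ 2 * j ∧ 1 ≤ b ∧ b ≤ L) := by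
  have h0 : (0 : ℤ × ℤ) = ((0 : ℤ), (0 : ℤ)) := rfl
  unfold vt
  rw [ep_comb h]
  unfold comb
  rw [vs_append, vs_append, ep_append, ep_cons, ep_nil, vs_cons, vs_nil, h0, (add_dv _ _).1,
    ep_teeth]
  simp only [List.mem_append, List.mem_singleton, mem_teeth, mem_right, Prod.mk.injEq]
  have h1 : ((w - 2 * j - 1 : ℕ) : ℤ) = (w : ℤ) - 2 * j - 1 := by omega
  rw [h1]
  omega

/-- the set of the vertices -/
noncomputable def ve (w L j : ℕ) : Finset (ℤ × ℤ) :=
  (Icc (0 : ℤ) w ×ˢ {0}) ∪ (Icc (1 : ℤ) (2 * j) ×ˢ Icc (1 : ℤ) L)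

theorem toFinset_comb {w L j : ℕ} (h : 2 * j + 1 ≤ w) : (vt 0 (comb w L j)).toFinset = ve w L j := by
  ext ⟨a, b⟩
  rw [List.mem_toFinset, mem_comb h]
  unfold ve
  simp only [mem_union, mem_product, mem_Icc, mem_singleton]
  omega

theorem card_ve (w L j : ℕ) : (ve w L j).card = w + 2 * j * L + 1 := by
  unfold ve
  rw [card_union_of_disjoint, card_product, card_product, card_singleton, Int.card_Icc,
    Int.card_Icc, Int.card_Icc]
  · have h1 : ((w : ℤ) + 1 - 0).toNat = w + 1 := by omega
    have h2 : ((2 * (j : ℤ)) + 1 - 1).toNat = 2 * j := by omega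
    have h3 : ((L : ℤ) + 1 - 1).toNat = L := by omega
    rw [h1, h2, h3]
    ring
  · rw [Finset.disjoint_left]
    rintro ⟨a, b⟩ h1 h2
    simp only [mem_product, mem_Icc, mem_singleton] at h1 h2
    omega

theorem nodup_comb {w L j : ℕ} (h : 2 * j + 1 ≤ w) : (vt 0 (comb w L j)).Nodup := by
  have h1 : (vt 0 (comb w L j)).toFinset.card = (vt 0 (comb w L j)).length := by
    rw [toFinset_comb h, card_ve, vt_length, length_comb h]
  exact Multiset.toFinset_card_eq_card_iff_nodup.1 h1

theorem cnt_nodup {l : List (ℤ × ℤ)} (h : l.Nodup) (k : ℤ) :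
    cnt l k = (l.toFinset.filter fun p => lev p = k).card := by
  unfold cnt
  rw [List.countP_eq_length_filter, ← List.toFinset_card_of_nodup (h.filter _)]
  congr 1
  ext p
  simp

/-- the possible vertices of the level `k` -/
noncomputable def row (j : ℕ) (k : ℤ) : Finset (ℤ × ℤ) :=
  insert (k, 0) ((Icc (1 : ℤ) (2 * j)).image fun x => (x, k - x))

theorem occ_le {w L j : ℕ} (h : 2 * j + 1 ≤ w) (k : ℤ) : occ (comb w L j) k ≤ 2 * j + 1 := by
  unfold occ
  rw [cnt_nodup (nodup_comb h), toFinset_comb h]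
  have h1 : (ve w L j).filter (fun p => lev p = k) ⊆ row j k := by
    rintro ⟨a, b⟩ hp
    unfold ve at hp
    unfold lev at hp
    simp only [mem_filter, mem_union, mem_product, mem_Icc, mem_singleton] at hp
    unfold row
    simp only [mem_insert, mem_image, mem_Icc, Prod.mk.injEq]
    rcases hp with ⟨h2 | h2, h3⟩
    · left
      omega
    · right
      exact ⟨a, by omega, rfl, by omega⟩
  refine (card_le_card h1).trans ?_
  unfold row
  refine (card_insert_le _ _).trans ?_
  have h2 := card_image_le (s := Icc (1 : ℤ) (2 * j)) (f := fun x => (x, k - x))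
  rw [Int.card_Icc] at h2
  omega

theorem occ_ge {w L j : ℕ} (h : 2 * j + 1 ≤ w) (hj : 2 * j ≤ L) (hL : L + 1 ≤ w) :
    2 * j + 1 ≤ occ (comb w L j) ((L : ℤ) + 1) := by
  unfold occ
  rw [cnt_nodup (nodup_comb h), toFinset_comb h]
  have h1 : row j ((L : ℤ) + 1) ⊆ (ve w L j).filter (fun p => lev p = (L : ℤ) + 1) := by
    rintro ⟨a, b⟩ hp
    unfold row at hp
    simp only [mem_insert, mem_image, mem_Icc, Prod.mk.injEq] at hp
    unfold ve
    unfold lev
    simp only [mem_filter, mem_union, mem_product, mem_Icc, mem_singleton]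
    rcases hp with h2 | ⟨x, h2, h3, h4⟩
    · exact ⟨by omega, by omega⟩
    · exact ⟨by omega, by omega⟩
  refine le_trans ?_ (card_le_card h1)
  unfold row
  rw [card_insert_of_notMem, card_image_of_injective, Int.card_Icc]
  · omega
  · intro x y hxy
    exact (Prod.mk.inj hxy).1
  · intro hp
    simp only [mem_image, mem_Icc, Prod.mk.injEq] at hp
    obtain ⟨x, h2, h3, h4⟩ := hp
    omega

end Pool.Agent.OC.COMB

namespace Pool.Agent.OC

open Finset Pool.Agent.Lib27 Pool.Agent.SapR

theorem comb_thm : COMB_Stmt := by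
  intro w L j hj hw
  have h : 2 * j + 1 ≤ w := by omega
  refine ⟨⟨by omega, COMB.ep_comb h, COMB.nodup_comb h, ?_, ?_, ?_, ?_⟩, COMB.length_comb h,
    COMB.occ_le h, le_antisymm (COMB.occ_le h _) (COMB.occ_ge h hj (by omega)), ?_⟩
  · rintro ⟨a, b⟩ hv
    rw [COMB.mem_comb h] at hv
    show 0 ≤ b
    omega
  · rintro ⟨a, b⟩ hv
    rw [COMB.mem_comb h] at hv
    show 0 ≤ a + b ∧ a + b ≤ w
    omega
  · rintro ⟨a, b⟩ hv hl
    rw [COMB.mem_comb h] at hv
    have hl' : a + b = 0 := hl
    show (a, b) = ((0 : ℤ), (0 : ℤ))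
    rw [Prod.mk.injEq]
    omega
  · rintro ⟨a, b⟩ hv hl
    rw [COMB.mem_comb h] at hv
    have hl' : a + b = w := hl
    rw [Prod.mk.injEq]
    omega
  · rintro ⟨a, b⟩ hv
    rw [COMB.mem_comb (by omega)] at hv
    show b = 0
    push_cast at hv
    omega

end Pool.Agent.OC
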