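import Pool.Agent.OC.Stmts2

/-!
# CONV : convergence of the area laws (MP_f6626d_co, convex occupation energies)
-/

set_option autoImplicit false

namespace Pool.Agent.OC

open Finset Filter Topology MeasureTheory Pool.Agent.Lib27 Pool.Agent.SapR Pool.Agent.Gap
  Pool.Agent.AreaLaw
open scoped NNReal ENNReal

theorem conv_thm (h1 : REP_Stmt) (h2 : DATM_Stmt) (h3 : CDF_Stmt) (h4 : SEQM_Stmt) :
    CONV_Stmt := by
  intro ν _ hGF c D hc hD b hb x hx
  obtain ⟨C, θ, hC, hθ, hθ1, N0, hN0, hdat⟩ := h2 c D hc hD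
  have hrep : ∀ n, ∃ μ : MW, Rep (b n) μ := fun n => (h1 (b n) (hb n).1).2
  choose μ hμ using hrep
  obtain ⟨M, hM⟩ := h4 C θ N0 μ hC hθ hθ1 hN0 fun n hn =>
    hdat n (b n) (μ n) hn (hb n) (h1 (b n) (hb n).1).1 (hμ n)
  refine (hGF.2 C θ hC hθ hθ1 M x hx).congr' ?_
  filter_upwards [eventually_ge_atTop N0] with n hn
  rw [hM n hn x, h3 (b n) (μ n) (hb n).1 (hμ n) n (by omega) x]

end Pool.Agent.OC
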