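import Pool.Agent.OC.Stmts2

/-!
# Convex occupation energies (MP_f6626d_co): the data of one kernel (DATM)
-/

set_option autoImplicit false

namespace Pool.Agent.OC

open Finset Pool.Agent.Lib27 Pool.Agent.SapR Pool.Agent.Gap Pool.Agent.AreaLaw
open scoped NNReal ENNReal

namespace DATM

theorem bN_mono {b c : ℕ → ℝ} (h : ∀ v, 3 ≤ v → b v ≤ c v) (v : ℕ) : bN b v ≤ bN c v := by
  unfold bN
  by_cases hv : v ≤ 2
  · rw [if_pos hv, if_pos hv]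
  · rw [if_neg hv, if_neg hv]
    exact Real.toNNReal_le_toNNReal (h v (by omega))

theorem nt_of_ntr (h3 : REPB_Stmt) {c : ℕ → ℝ} (hc : NTR c) : NT (bN c) := by
  obtain ⟨h, v, hv, hv1⟩ := hc
  refine ⟨(h3 c h).1, v, ?_⟩
  have hv2 : ¬ v ≤ 2 := by
    intro hle
    have : v = 2 := by omega
    rw [this, h.two] at hv1
    exact lt_irrefl _ hv1
  unfold bN
  rw [if_neg hv2]
  exact Real.toNNReal_lt_one.2 hv1

theorem wb_nonneg (b : ℕ → ℝ≥0) (p : Wd × Wd) : 0 ≤ wb b p := ENNReal.toReal_nonneg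
theorem wa_nonneg (b : ℕ → ℝ≥0) (w : Wd) : 0 ≤ wa b w := ENNReal.toReal_nonneg
theorem wc_nonneg (b : ℕ → ℝ≥0) (w : Wd) : 0 ≤ wc b w := ENNReal.toReal_nonneg

theorem tails {C0 C θ M : ℝ} {n : ℕ} {b : ℕ → ℝ} {μ : MW} {rho : ℝ} (hn : 1 ≤ n)
    (hR : Rep b μ) (hM1 : 1 ≤ M) (hM : max 1 (b 1)⁻¹ ≤ M) (hC0 : 0 < C0) (hθ : 0 < θ)
    (hC : C0 * M ^ 2 ≤ C) (hrho : 0 < rho) (h : TailsB C0 θ n (bN b) rho) :
    TailsM C θ n μ rho := by
  obtain ⟨t1, t2, t3⟩ := h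
  have hM0 : 0 < M := by linarith
  have hCM : C0 * M ≤ C := by
    refine le_trans ?_ hC
    have : M ≤ M ^ 2 := by nlinarith
    exact mul_le_mul_of_nonneg_left this hC0.le
  have hC1 : C0 ≤ C := by
    refine le_trans ?_ hCM
    nlinarith
  refine ⟨fun m => ?_, fun m => ?_, ?_⟩
  · have e : ∑ p ∈ (Pc (2 * n - 1)).filter (fun p => FL.hl p = m), rho ^ m * μ.pw p =
        ∑ p ∈ (Pc (2 * n - 1)).filter (fun p => FL.hl p = m), rho ^ m * wb (bN b) p := by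
      refine Finset.sum_congr rfl fun p hp => ?_
      rw [hR.pw _ p (Finset.mem_filter.1 hp).1]
    rw [e]
    refine (t1 m).trans (mul_le_mul_of_nonneg_right hC1 (by positivity))
  · have e : ∑ x ∈ Icc (1 : ℤ) m, ∑ T ∈ CapSet (2 * n - 1) x (2 * m), rho ^ m * μ.aw T ≤
        ∑ x ∈ Icc (1 : ℤ) m, ∑ T ∈ CapSet (2 * n - 1) x (2 * m), M * (rho ^ m * wa (bN b) T) := by
      refine Finset.sum_le_sum fun x hx => Finset.sum_le_sum fun T hT => ?_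
      have h1 := hR.aw _ x _ T (Finset.mem_Icc.1 hx).1 hT
      have h2 : μ.aw T ≤ M * wa (bN b) T :=
        h1.trans (mul_le_mul_of_nonneg_right hM (wa_nonneg _ _))
      have h3 := mul_le_mul_of_nonneg_left h2 (pow_pos hrho m).le
      calc rho ^ m * μ.aw T ≤ rho ^ m * (M * wa (bN b) T) := h3
        _ = M * (rho ^ m * wa (bN b) T) := by ring
    refine e.trans ?_
    have e2 : ∑ x ∈ Icc (1 : ℤ) m, ∑ T ∈ CapSet (2 * n - 1) x (2 * m),
        M * (rho ^ m * wa (bN b) T) =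
        M * ∑ x ∈ Icc (1 : ℤ) m, ∑ T ∈ CapSet (2 * n - 1) x (2 * m), rho ^ m * wa (bN b) T := by
      rw [Finset.mul_sum]
      refine Finset.sum_congr rfl fun x _ => ?_
      rw [Finset.mul_sum]
    rw [e2]
    calc M * ∑ x ∈ Icc (1 : ℤ) m, ∑ T ∈ CapSet (2 * n - 1) x (2 * m), rho ^ m * wa (bN b) T
        ≤ M * (C0 * θ ^ m) := mul_le_mul_of_nonneg_left (t2 m) hM0.le
      _ = (C0 * M) * θ ^ m := by ring
      _ ≤ C * θ ^ m := mul_le_mul_of_nonneg_right hCM (by positivity)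
  · have e : ∑ w ∈ FL.NoCut n, rho ^ n * μ.cw w ≤
        ∑ w ∈ FL.NoCut n, M ^ 2 * (rho ^ n * wc (bN b) w) := by
      refine Finset.sum_le_sum fun w hw => ?_
      have h1 := hR.nc n w hn hw
      have hb0 : 0 ≤ max 1 (b 1)⁻¹ := zero_le_one.trans (le_max_left _ _)
      have h2 : μ.cw w ≤ M ^ 2 * wc (bN b) w :=
        h1.trans (mul_le_mul_of_nonneg_right (pow_le_pow_left₀ hb0 hM 2) (wc_nonneg _ _))
      have h3 := mul_le_mul_of_nonneg_left h2 (pow_pos hrho n).le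
      calc rho ^ n * μ.cw w ≤ rho ^ n * (M ^ 2 * wc (bN b) w) := h3
        _ = M ^ 2 * (rho ^ n * wc (bN b) w) := by ring
    refine e.trans ?_
    rw [← Finset.mul_sum]
    calc M ^ 2 * ∑ w ∈ FL.NoCut n, rho ^ n * wc (bN b) w
        ≤ M ^ 2 * (C0 * n * θ ^ n) := mul_le_mul_of_nonneg_left t3 (by positivity)
      _ = (C0 * M ^ 2) * (n * θ ^ n) := by ring
      _ ≤ C * (n * θ ^ n) := mul_le_mul_of_nonneg_right hC (by positivity)
      _ = C * n * θ ^ n := by ring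

end DATM

open DATM in
/-- DATM. -/
theorem datm_thm (h1 : TAIL_Stmt) (h2 : KWG_Stmt) (h3 : REPB_Stmt) : DATM_Stmt := by
  intro c D hc hD
  obtain ⟨C0, θ, hC0, hθ, hθ1, n0, h⟩ := h1 (bN c) (nt_of_ntr h3 hc)
  have hM1 : (1 : ℝ) ≤ max 1 D := le_max_left _ _
  refine ⟨max (C0 * (max 1 D) ^ 2) 1, θ, lt_max_of_lt_right one_pos, hθ, hθ1, max n0 2,
    le_max_right _ _, ?_⟩
  intro n b μ hn hb hbW hR
  have hn0 : n0 ≤ n := (le_max_left _ _).trans hn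
  have hn1 : 1 ≤ n := by
    have : 2 ≤ n := (le_max_right _ _).trans hn
    omega
  obtain ⟨G, B, hloc, hcrit, htot, hcap, hone, hsupp, hsol, hcount⟩ := h2 μ n hn1
  have hcrit' : ∑ p ∈ Pc (2 * n - 1), G.rho ^ FL.hl p * wb (bN b) p = 1 := by
    rw [← hcrit]
    refine Finset.sum_congr rfl fun p hp => ?_
    rw [hR.pw _ p hp]
  obtain ⟨hT0, hrho, -⟩ := h n (bN b) G.rho hn0 hbW (bN_mono hb.2.1) G.rho_pos hcrit'
  have hMb : max 1 (b 1)⁻¹ ≤ max 1 D := max_le_max le_rfl hb.2.2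
  have hT : TailsM (max (C0 * (max 1 D) ^ 2) 1) θ n μ G.rho :=
    tails hn1 hR hM1 hMb hC0 hθ (le_max_left _ _) G.rho_pos hT0
  have hCC : C0 ≤ max (C0 * (max 1 D) ^ 2) 1 := by
    refine le_trans ?_ (le_max_left _ _)
    have : (1 : ℝ) ≤ (max 1 D) ^ 2 := one_le_pow₀ hM1
    nlinarith
  have hCi : (max (C0 * (max 1 D) ^ 2) 1)⁻¹ ≤ C0⁻¹ := inv_anti₀ hC0 hCC
  have hC1 : (max (C0 * (max 1 D) ^ 2) 1)⁻¹ ≤ 1 := inv_le_one_of_one_le₀ (le_max_right _ _)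
  refine ⟨⟨G, B, ⟨hloc, hCi.trans hrho, ?_⟩, ⟨hcap, hC1.trans hone, hsupp, ?_⟩, hsol, hcount,
    hcrit, hT⟩⟩
  · intro m
    have h5 := hT.1 m
    rw [← Finset.mul_sum] at h5 ⊢
    rw [htot m]
    exact h5
  · intro m
    have h5 := hT.2.1 m
    refine le_trans (le_of_eq ?_) h5
    refine Finset.sum_congr rfl fun g hg => ?_
    rw [Finset.mem_Icc] at hg
    unfold capM
    rw [if_pos hg.1, Finset.mul_sum]

end Pool.Agent.OC
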