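import Pool.Agent.OC.BW
import Pool.Agent.Lib_helper89.FL.Defs

/-!
# Convex occupation energies (MP_f6626d_co): definitions

Words are lists over `Fin 4`; `ep`, `vs`, `vt`, `rv` are those of `Lib_helper27`, `lev`, `cnt`, `Cut`
those of `Lib_helper24/SapR/Defs`; the classes `SW`, `Bri`, `Brp`, `Irr`, `Nc`, `Fp`, `Fpp`, `Bad`, the
depth `dip`, the number `cc` and `chi` are those of `Lib_helper74/MG`.
-/

set_option autoImplicit false

namespace Pool.Agent.OC

open Finset Pool.Agent.Lib27 Pool.Agent.SapR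
open Pool.Agent.MG (Bri Brp Irr Nc Fp Fpp Bad SB CC SW dip cc chi rfa)
open scoped NNReal ENNReal

/-- words -/
abbrev Wd : Type := List (Fin 4)

/-- number of vertices of the word `w` on the level `k` -/
def occ (w : Wd) (k : ℤ) : ℕ := cnt (vt 0 w) k

/-! ### pairs of bridges -/

/-- weight of a free pair of words (no background) -/
noncomputable def Wp (b : ℕ → ℝ≥0) (z : ℝ≥0∞) (p : Wd × Wd) : ℝ≥0∞ :=
  z ^ (p.1.length + p.2.length) * BW b (fun k => occ p.1 k + occ p.2 k)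

/-- generating function of the free pairs of bridges of height `m` -/
noncomputable def Y (b : ℕ → ℝ≥0) (z : ℝ≥0∞) (m : ℕ) : ℝ≥0∞ := gs (Wp b z) (Brp m)

/-- generating function of the pairs of bridges of height `l` without common cut -/
noncomputable def ww (b : ℕ → ℝ≥0) (z : ℝ≥0∞) (l : ℕ) : ℝ≥0∞ := gs (Wp b z) (Irr l)

/-- the critical point -/
noncomputable def zst (b : ℕ → ℝ≥0) : ℝ≥0∞ := sSup {z | ∀ m, Y b z m ≤ 1}

/-- number of high levels of a pair of bridges of height `m` -/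
def hi (v1 m : ℕ) (p : Wd × Wd) : ℕ :=
  ((Ioo 0 m).filter (fun k : ℕ => v1 ≤ occ p.1 k + occ p.2 k)).card

/-- generating function of the pairs of bridges, every high level is punished by `q` -/
noncomputable def Yq (b : ℕ → ℝ≥0) (q : ℝ≥0) (v1 : ℕ) (z : ℝ≥0∞) (m : ℕ) : ℝ≥0∞ :=
  gs (fun p => Wp b z p * (q : ℝ≥0∞) ^ hi v1 m p) (Brp m)

/-! ### uniform classes of weights -/

/-- parameters of a uniform class of weights -/
structure Par where
  C : ℝ≥0
  y : ℝ≥0
  y1 : ℝ≥0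
  eta : ℝ≥0
  zl : ℝ≥0
  q : ℝ≥0
  kap : ℝ≥0
  V : ℕ
  one_le_C : 1 ≤ C
  y_pos : 0 < y
  y_lt : y < y1
  y1_lt : y1 < 1
  chi_fin : chi (y1 : ℝ≥0∞) ≠ ∞
  eta_pos : 0 < eta
  eta_le : eta ≤ 1
  zl_pos : 0 < zl
  q_pos : 0 < q
  q_lt : q < 1
  kap_pos : 0 < kap
  kap_le : kap ≤ 1
  two_le_V : 2 ≤ V

/-- the weight `b` is in the class with the parameters `P`, and `v1` is its threshold of high
levels -/
structure Cl (P : Par) (v1 : ℕ) (b : ℕ → ℝ≥0) : Prop where
  w : IsW b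
  z_ge : (P.zl : ℝ≥0∞) ≤ zst b
  z_le : zst b ≤ 2⁻¹
  Y_le : ∀ m, Y b (zst b) m ≤ 1
  Y_gt : ∀ z, zst b < z → ∃ m, 1 < Y b z m
  dom : ∀ v, ((1 + (P.eta : ℝ≥0∞)) * zst b) ^ v * (b v : ℝ≥0∞) ≤ P.C * (P.y : ℝ≥0∞) ^ v
  v1_ge : 2 ≤ v1
  v1_le : v1 ≤ P.V
  high : ∀ v, v1 ≤ v → b (v + 2) ≤ P.q * b v
  low : v1 = 2 ∨ P.kap ≤ b (v1 + 1)

/-! ### insertion of levels -/

/-- one tooth of the comb -/
def tooth (L : ℕ) : Wd := List.replicate L 1 ++ [0] ++ List.replicate L 3 ++ [0]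

/-- comb with `j` teeth of height `L` and total width `w` -/
def comb (w L j : ℕ) : Wd :=
  [0] ++ (List.replicate j (tooth L)).flatten ++ List.replicate (w - 2 * j - 1) 0

/-- the step `s` from the vertex `p` is above the level `h` -/
def abv (h : ℤ) (p : ℤ × ℤ) (s : Fin 4) : Bool := decide (h < lev p ∨ h < lev (p + dv s))

/-- insertion of the words `seg y` at the passages of the level `h`; `y` is the second coordinate of
the passage, the first argument tells whether the previous step is above the level -/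
def ins (h : ℤ) (seg : ℤ → Wd) : Bool → ℤ × ℤ → Wd → Wd
  | _, _, [] => []
  | ty, p, s :: t =>
    (if ty = abv h p s then [] else if ty then rv (seg p.2) else seg p.2) ++
      s :: ins h seg (abv h p s) (p + dv s) t

/-- the passages of the level `h` -/
def pas (h : ℤ) : Bool → ℤ × ℤ → Wd → List (ℤ × ℤ)
  | _, _, [] => []
  | ty, p, s :: t =>
    (if ty = abv h p s then [] else [p]) ++ pas h (abv h p s) (p + dv s) t

/-- deletion of the steps inside the strip between the levels `h` and `h + w` -/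
def del (h w : ℤ) : ℤ → Wd → Wd
  | _, [] => []
  | l, s :: t =>
    if h ≤ l ∧ l ≤ h + w ∧ h ≤ l + lev (dv s) ∧ l + lev (dv s) ≤ h + w then
      del h w (l + lev (dv s)) t
    else s :: del h w (l + lev (dv s)) t

/-- words which may be inserted: from `0` to `(w, 0)`, strictly inside the strip between, in the
upper half plane -/
structure Seg (w : ℕ) (s : Wd) : Prop where
  w_pos : 0 < w
  ep : ep 0 s = ((w : ℤ), 0)
  nodup : (vt 0 s).Nodup
  row : ∀ v ∈ vt 0 s, 0 ≤ v.2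
  lev : ∀ v ∈ vt 0 s, 0 ≤ lev v ∧ lev v ≤ w
  bot : ∀ v ∈ vt 0 s, SapR.lev v = 0 → v = 0
  top : ∀ v ∈ vt 0 s, SapR.lev v = w → v = ((w : ℤ), 0)

/-! ### half loops, loops, first passage words -/

/-- background of a half loop of depth `d` -/
def bgh (d : ℕ) (k : ℤ) : ℕ := if k = 0 then 0 else if k = -(d : ℤ) then 1 else if k < 0 then 2 else 0

/-- weight of a half loop: two strands are present below the level `0` (one at the lowest level) -/
noncomputable def Wh (b : ℕ → ℝ≥0) (z : ℝ≥0∞) (l : Wd) : ℝ≥0∞ :=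
  z ^ l.length * BW b (fun k => occ l k + bgh (dip l) k)

/-- half loops of depth `d`: from level `0` to level `0`, all levels `≤ 0` -/
def Hl (d : ℕ) : Set Wd :=
  {l | SAWs l ∧ lev (ep 0 l) = 0 ∧ (∀ p ∈ vt 0 l, lev p ≤ 0) ∧ dip l = d}

/-- loops: self-avoiding words from level `0` to level `0` -/
def Lp : Set Wd := {l | SAWs l ∧ lev (ep 0 l) = 0}

/-- extension of a word in both directions -/
def ext (l : Wd) : ℕ := (vt 0 l).toFinset.sup (fun p => (lev p).natAbs)

/-- weight of a loop -/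
noncomputable def Wl (b : ℕ → ℝ≥0) (z : ℝ≥0∞) (l : Wd) : ℝ≥0∞ :=
  z ^ l.length * BW b (fun k => occ l k + if k = 0 then 1 else 2)

/-- number of steps inside the strip `[-g', g]` of a word which starts on the level `l` -/
def nin (g g' : ℤ) : ℤ → Wd → ℕ
  | _, [] => 0
  | l, s :: t =>
    (if -g' ≤ l ∧ l ≤ g ∧ -g' ≤ l + lev (dv s) ∧ l + lev (dv s) ≤ g then 1 else 0) +
      nin g g' (l + lev (dv s)) t

/-- number of visits of the two levels `g`, `-g'` -/
def cut2 (g g' : ℕ) (p : Wd) : ℕ := occ p g + occ p (-(g' : ℤ))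

/-- self-avoiding words from level `0` to one of the levels `g`, `-g'`, with exactly `i` visits of
these two levels -/
def SG (g g' i : ℕ) : Set Wd :=
  {p | SAWs p ∧ (lev (ep 0 p) = g ∨ lev (ep 0 p) = -(g' : ℤ)) ∧ cut2 g g' p = i}

/-- steps inside the strip `[-g', g]` have weight `y`, outside it two strands are present -/
noncomputable def Wg (b : ℕ → ℝ≥0) (z y : ℝ≥0∞) (g g' : ℕ) (p : Wd) : ℝ≥0∞ :=
  z ^ (p.length - nin g g' 0 p) * y ^ nin g g' 0 p *
    BW b (fun k => if -(g' : ℤ) ≤ k ∧ k ≤ g then 0 else occ p k + 2)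

/-! ### blocks -/

/-- weight of a pair of first passage words: two more strands are present below the level `0` -/
noncomputable def Wt (b : ℕ → ℝ≥0) (z : ℝ≥0∞) (p : Wd × Wd) : ℝ≥0∞ :=
  z ^ (p.1.length + p.2.length) *
    BW b (fun k => occ p.1 k + occ p.2 k + if k < 0 then 2 else 0)

open Classical in
/-- total weight of a block -/
noncomputable def theta (b : ℕ → ℝ≥0) (z R : ℝ≥0∞) (K : ℕ) : ℝ≥0∞ :=
  gs (fun p => Wt b z p * (R ^ (cc K p.1 + cc K p.2) * (if SB K p then 1 else R⁻¹)))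
    (Fpp (3 * K))

/-! ### pieces, caps, polygons -/

/-- occupation of a piece -/
def pocc (p : Wd × Wd) (k : ℤ) : ℕ := cnt (vt 0 p.1) k + cnt (vt 0 p.2) (k - ht p)

/-- occupation of a closed word -/
def cocc (w : Wd) (k : ℤ) : ℕ := cnt (vs 0 w) k

/-- weight of a piece -/
noncomputable def wb (b : ℕ → ℝ≥0) (p : Wd × Wd) : ℝ := (BW b (pocc p)).toReal

/-- weight of an arch -/
noncomputable def wa (b : ℕ → ℝ≥0) (T : Wd) : ℝ := (BW b (occ T)).toReal

/-- weight of a closed word -/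
noncomputable def wc (b : ℕ → ℝ≥0) (w : Wd) : ℝ := (BW b (cocc w)).toReal

/-- free pieces -/
def Fr : Set (Wd × Wd) := {p | FreePiece p.1 p.2}

/-- the exponential tail bounds at `rho`, half perimeter `n` -/
def TailsB (C θ : ℝ) (n : ℕ) (b : ℕ → ℝ≥0) (rho : ℝ) : Prop :=
  (∀ m : ℕ, ∑ p ∈ (Pc (2 * n - 1)).filter (fun p => FL.hl p = m), rho ^ m * wb b p ≤ C * θ ^ m) ∧
  (∀ m : ℕ, ∑ x ∈ Icc (1 : ℤ) m, ∑ T ∈ CapSet (2 * n - 1) x (2 * m), rho ^ m * wa b T ≤
    C * θ ^ m) ∧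
  ∑ w ∈ FL.NoCut n, rho ^ n * wc b w ≤ C * n * θ ^ n

end Pool.Agent.OC
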