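import Pool.Agent.OC.Stmts2
import Pool.Agent.Lib_helper41.SapR.Diag

/-!
DIAG: the abstract diagonal argument (MP_f6626d_co, convex occupation energies).
-/

set_option autoImplicit false

namespace Pool.Agent.OC

open Filter Topology MeasureTheory ProbabilityTheory

namespace DIAG

/-- uniformity on a set from the convergence along all sequences of elements of the set -/
lemma unif_of_seq {β : Type} (F : β → ℕ → ℝ) (l : ℝ) (S : Set β)
    (h : ∀ f : ℕ → β, (∀ n, f n ∈ S) → Tendsto (fun n : ℕ => F (f n) n) atTop (𝓝 l))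
    (ε : ℝ) (hε : 0 < ε) : ∀ᶠ n : ℕ in atTop, ∀ f ∈ S, |F f n - l| ≤ ε := by
  classical
  rcases S.eq_empty_or_nonempty with hS | ⟨a, ha⟩
  · subst hS
    exact Eventually.of_forall fun n f hf => absurd hf (Set.notMem_empty f)
  set f : ℕ → β := fun n => if hn : ∃ g : β, g ∈ S ∧ ε < |F g n - l| then hn.choose else a with hf
  have hfa : ∀ n, f n ∈ S := by
    intro n
    simp only [hf]
    split_ifs with hn
    · exact hn.choose_spec.1
    · exact ha
  have h1 := h f hfa
  obtain ⟨N, hN⟩ := Metric.tendsto_atTop.1 h1 ε hε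
  filter_upwards [eventually_ge_atTop N] with n hn g hg
  by_contra hcon
  push Not at hcon
  have hex : ∃ g : β, g ∈ S ∧ ε < |F g n - l| := ⟨g, hg, hcon⟩
  have h2 := hN n hn
  rw [Real.dist_eq] at h2
  have h3 : f n = hex.choose := by
    simp only [hf]
    rw [dif_pos hex]
  rw [h3] at h2
  have := hex.choose_spec.2
  linarith

end DIAG

/-- DIAG -/
theorem diag_thm : DIAG_Stmt := by
  classical
  intro β μ hμ F S hmono h
  have hdense : Dense ({x : ℝ | μ {x} ≠ 0}ᶜ) :=
    (SapR.M41.countable_atoms μ).dense_compl ℝ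
  obtain ⟨t, hts, htc, htd⟩ := hdense.exists_countable_dense_subset
  obtain ⟨u, hu⟩ := htc.exists_eq_range htd.nonempty
  have hu0 : ∀ i, μ {u i} = 0 := by
    intro i
    have : u i ∈ {x : ℝ | μ {x} ≠ 0}ᶜ := hts (by rw [hu]; exact Set.mem_range_self i)
    simpa using this
  set G : ℝ → ℝ := fun x => (μ (Set.Iic x)).toReal with hG
  set P : ℕ → ℕ → Prop := fun n k => ∀ i ∈ Finset.range (k + 1), ∀ f ∈ S k,
    |F f n (u i) - G (u i)| ≤ 1 / ((k : ℝ) + 1) with hP
  have hPk : ∀ k, ∀ᶠ n in atTop, P n k := by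
    intro k
    rw [hP]
    simp only
    rw [Filter.eventually_all_finset]
    intro i _
    exact DIAG.unif_of_seq (fun f n => F f n (u i)) (G (u i)) (S k)
      (fun f hf => h k f hf (u i) (hu0 i)) _ (by positivity)
  have hR : Tendsto (fun n => Nat.findGreatest (P n) n) atTop atTop := by
    rw [tendsto_atTop]
    intro k
    filter_upwards [hPk k, eventually_ge_atTop k] with n h1 h2
    exact Nat.le_findGreatest h2 h1
  have hinv : Tendsto (fun n => 1 / (((Nat.findGreatest (P n) n : ℕ) : ℝ) + 1)) atTop (𝓝 0) :=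
    tendsto_one_div_add_atTop_nhds_zero_nat.comp hR
  refine ⟨fun n => Nat.findGreatest (P n) n, hR, ?_⟩
  intro f hf x hx
  have hpt : ∀ i, Tendsto (fun n : ℕ => F (f n) n (u i)) atTop (𝓝 (G (u i))) := by
    intro i
    rw [tendsto_iff_dist_tendsto_zero]
    refine squeeze_zero' (Eventually.of_forall fun n => dist_nonneg) ?_ hinv
    filter_upwards [hR.eventually_ge_atTop (i + 1)] with n h2
    have hne : Nat.findGreatest (P n) n ≠ 0 := by omega
    have hPn : P n (Nat.findGreatest (P n) n) := Nat.findGreatest_of_ne_zero rfl hne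
    rw [Real.dist_eq]
    exact hPn i (Finset.mem_range.2 (by omega)) (f n) (hf n)
  rw [Metric.tendsto_atTop]
  intro ε hε
  have hc := SapR.M41.cdf_continuousAt μ x hx
  obtain ⟨δ, hδ, hball⟩ := Metric.continuousAt_iff.1 hc (ε / 2) (by linarith)
  obtain ⟨a, hat, ha⟩ := htd.exists_between (show x - δ < x by linarith)
  obtain ⟨b, hbt, hb⟩ := htd.exists_between (show x < x + δ by linarith)
  rw [hu] at hat hbt
  obtain ⟨i, rfl⟩ := hat
  obtain ⟨j, rfl⟩ := hbt
  have h1 := Metric.tendsto_atTop.1 (hpt i) (ε / 2) (by linarith)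
  have h2 := Metric.tendsto_atTop.1 (hpt j) (ε / 2) (by linarith)
  obtain ⟨N1, hN1⟩ := h1
  obtain ⟨N2, hN2⟩ := h2
  refine ⟨max N1 N2, fun n hn => ?_⟩
  have e1 := hN1 n (le_trans (le_max_left _ _) hn)
  have e2 := hN2 n (le_trans (le_max_right _ _) hn)
  have e3 := @hball (u i) (by
    rw [Real.dist_eq, abs_lt]
    constructor <;> [linarith [ha.1]; linarith [ha.2]])
  have e4 := @hball (u j) (by
    rw [Real.dist_eq, abs_lt]
    constructor <;> [linarith [hb.1]; linarith [hb.2]])
  rw [Real.dist_eq, abs_lt] at e1 e2 e3 e4 ⊢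
  have m1 := hmono (f n) n ha.2.le
  have m2 := hmono (f n) n hb.1.le
  constructor
  · linarith [e1.1, e3.1]
  · linarith [e2.2, e4.2]

end Pool.Agent.OC
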