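import Pool.Agent.OC.Stmts
import Pool.Agent.OC.Lib

/-!
# Convex occupation energies (MP_f6626d_co): linear domination (module DOM)
-/

set_option autoImplicit false

namespace Pool.Agent.OC.DOM

open Finset Pool.Agent.Lib27 Pool.Agent.SapR
open Pool.Agent.MG (Bri Brp chi gw xc)
open scoped NNReal ENNReal

/-! ### roots -/

/-- `s`-th roots -/
theorem exists_root (a : ℝ≥0) {s : ℕ} (hs : s ≠ 0) : ∃ r : ℝ≥0, r ^ s = a :=
  ⟨a ^ ((s : ℝ)⁻¹), NNReal.rpow_inv_natCast_pow a hs⟩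

theorem root_of_lt_one {a : ℝ≥0} (ha : a < 1) {s : ℕ} (hs : s ≠ 0) :
    ∃ r : ℝ≥0, 0 < r ∧ r < 1 ∧ a ≤ r ^ s := by
  obtain ⟨r, hr⟩ := exists_root (max a (1 / 2)) hs
  have h1 : max a (1 / 2) < 1 := max_lt ha (by
    rw [div_lt_one (by norm_num)]
    norm_num)
  refine ⟨r, ?_, ?_, ?_⟩
  · rw [pos_iff_ne_zero]
    rintro rfl
    rw [zero_pow hs] at hr
    have h2 : (0 : ℝ≥0) < max a (1 / 2) := lt_max_of_lt_right (by positivity)
    rw [← hr] at h2
    exact lt_irrefl _ h2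
  · by_contra hcon
    push Not at hcon
    have h2 : (1 : ℝ≥0) ≤ r ^ s := one_le_pow₀ hcon
    rw [hr] at h2
    exact absurd h1 (not_lt.2 h2)
  · rw [hr]
    exact le_max_left _ _

/-! ### decay of the weights -/

/-- the root of `b (2 + s)` is at most `r` for `s ≥ s1` -/
theorem b_le_pow {b : ℕ → ℝ≥0} (hb : IsW b) {s1 s : ℕ} {r : ℝ≥0} (hs1 : s1 ≠ 0) (hs : s1 ≤ s)
    (h : b (2 + s1) ≤ r ^ s1) : b (2 + s) ≤ r ^ s := by
  refine le_of_pow_le_pow_left₀ hs1 zero_le ?_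
  calc b (2 + s) ^ s1 ≤ b (2 + s1) ^ s := hb.pow_le hs
    _ ≤ (r ^ s1) ^ s := pow_le_pow_left₀ zero_le h _
    _ = (r ^ s) ^ s1 := by rw [← pow_mul, ← pow_mul, mul_comm]

theorem pow_le_b {b : ℕ → ℝ≥0} (hb : IsW b) {s t : ℕ} {rho : ℝ≥0} (hs : s ≠ 0) (hts : t ≤ s)
    (h : rho ^ s = b (2 + s)) : rho ^ t ≤ b (2 + t) := by
  refine le_of_pow_le_pow_left₀ hs zero_le ?_
  calc (rho ^ t) ^ s = (rho ^ s) ^ t := by rw [← pow_mul, ← pow_mul, mul_comm]
    _ = b (2 + s) ^ t := by rw [h]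
    _ ≤ b (2 + t) ^ s := hb.pow_le hts

/-! ### bridges -/

/-- a bridge visits all its levels -/
theorem occ_Bri_pos {m : ℕ} {w : Wd} (hw : w ∈ Bri m) {k : ℤ} (hk : k ∈ Icc (0 : ℤ) m) :
    1 ≤ occ w k := by
  rw [mem_Icc] at hk
  have h1 : ∃ v ∈ vt 0 w, k ≤ lev v := ⟨ep 0 w, ep_mem_vt _ _, by rw [hw.2.1]; exact hk.2⟩
  obtain ⟨u, v, rfl, h2, -⟩ := MG.first_visit hk.1 h1
  exact occ_pos.2 ⟨ep 0 u, MG.mem_vt_append_left v (ep_mem_vt 0 u), h2⟩

theorem occ_le_length (w : Wd) (k : ℤ) : occ w k ≤ w.length + 1 := by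
  rw [← vt_length (0 : ℤ × ℤ) w]
  exact List.countP_le_length

theorem sum_occ_Bri {m : ℕ} {w : Wd} (hw : w ∈ Bri m) :
    ∑ k ∈ Icc (0 : ℤ) m, occ w k = w.length + 1 :=
  sum_occ w _ fun p hp => by
    have := MG.Bri_lev hw hp
    rw [mem_Icc]
    omega

/-- the weight of a pair of bridges with small occupations -/
theorem BW_pair_ge {b : ℕ → ℝ≥0} (hb : IsW b) {s m : ℕ} {rho : ℝ≥0} (hs : s ≠ 0)
    (h : rho ^ s = b (2 + s)) {w w' : Wd} (hw : w ∈ Bri m) (hw' : w' ∈ Bri m)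
    (ho : ∀ k, occ w k + occ w' k ≤ 2 + s) :
    (rho : ℝ≥0∞) ^ (w.length + w'.length) ≤
      (rho : ℝ≥0∞) ^ (2 * m) * BW b (fun k => occ w k + occ w' k) := by
  have hle : ∀ k ∈ Icc (0 : ℤ) m, 2 ≤ occ w k + occ w' k := fun k hk => by
    have h1 := occ_Bri_pos hw hk
    have h2 := occ_Bri_pos hw' hk
    omega
  have hcard : (Icc (0 : ℤ) m).card = m + 1 := by
    rw [Int.card_Icc]
    omega
  have hsum : ∑ k ∈ Icc (0 : ℤ) m, (occ w k + occ w' k - 2) + 2 * (m + 1) =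
      w.length + w'.length + 2 := by
    have h1 : ∑ k ∈ Icc (0 : ℤ) m, (occ w k + occ w' k) = w.length + 1 + (w'.length + 1) := by
      rw [sum_add_distrib, sum_occ_Bri hw, sum_occ_Bri hw']
    have h2 : ∑ k ∈ Icc (0 : ℤ) m, (occ w k + occ w' k) =
        ∑ k ∈ Icc (0 : ℤ) m, ((occ w k + occ w' k - 2) + 2) :=
      sum_congr rfl fun k hk => by
        have := hle k hk
        omega
    rw [h1, sum_add_distrib, sum_const, hcard, smul_eq_mul] at h2
    omega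
  have hBW : (rho : ℝ≥0∞) ^ (∑ k ∈ Icc (0 : ℤ) m, (occ w k + occ w' k - 2)) ≤
      BW b (fun k => occ w k + occ w' k) := by
    rw [BW_eq hb (Icc (0 : ℤ) m) (fun k hk => by
      rw [mem_Icc] at hk
      rw [occ_Bri_out hw (by omega), occ_Bri_out hw' (by omega)]
      omega), ← Finset.prod_pow_eq_pow_sum]
    refine Finset.prod_le_prod' fun k hk => ?_
    have h1 := hle k hk
    have h2 := ho k
    have h3 : 2 + (occ w k + occ w' k - 2) = occ w k + occ w' k := by omega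
    have h4 := pow_le_b hb hs (t := occ w k + occ w' k - 2) (by omega) h
    rw [h3] at h4
    exact_mod_cast h4
  calc (rho : ℝ≥0∞) ^ (w.length + w'.length) =
      (rho : ℝ≥0∞) ^ (2 * m + ∑ k ∈ Icc (0 : ℤ) m, (occ w k + occ w' k - 2)) := by
        congr 1
        omega
    _ = (rho : ℝ≥0∞) ^ (2 * m) * (rho : ℝ≥0∞) ^ (∑ k ∈ Icc (0 : ℤ) m, (occ w k + occ w' k - 2)) :=
        pow_add _ _ _
    _ ≤ _ := mul_le_mul_right hBW _

/-- the key estimate -/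
theorem sum_F_le {b : ℕ → ℝ≥0} (hb : IsW b) {s m : ℕ} {rho z : ℝ≥0} (hs : s ≠ 0)
    (h : rho ^ s = b (2 + s)) (F : Finset Wd) (hF : ∀ w ∈ F, w ∈ Bri m)
    (ho : ∀ w ∈ F, ∀ w' ∈ F, ∀ k, occ w k + occ w' k ≤ 2 + s) (hY : Y b z m ≤ 1) :
    ∑ w ∈ F, (z * rho) ^ w.length ≤ rho ^ m := by
  have h1 : ((∑ w ∈ F, (z * rho) ^ w.length : ℝ≥0) : ℝ≥0∞) ^ 2 ≤ ((rho ^ m : ℝ≥0) : ℝ≥0∞) ^ 2 := by
    calc ((∑ w ∈ F, (z * rho) ^ w.length : ℝ≥0) : ℝ≥0∞) ^ 2
        = ∑ p ∈ F ×ˢ F, (z : ℝ≥0∞) ^ (p.1.length + p.2.length) *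
            (rho : ℝ≥0∞) ^ (p.1.length + p.2.length) := by
          rw [sq, Finset.sum_product]
          push_cast
          rw [Finset.sum_mul_sum]
          refine sum_congr rfl fun w _ => sum_congr rfl fun w' _ => ?_
          rw [← pow_add, mul_pow]
      _ ≤ ∑ p ∈ F ×ˢ F, (rho : ℝ≥0∞) ^ (2 * m) * Wp b z p := by
          refine sum_le_sum fun p hp => ?_
          rw [mem_product] at hp
          unfold Wp
          calc (z : ℝ≥0∞) ^ (p.1.length + p.2.length) * (rho : ℝ≥0∞) ^ (p.1.length + p.2.length)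
              ≤ (z : ℝ≥0∞) ^ (p.1.length + p.2.length) *
                ((rho : ℝ≥0∞) ^ (2 * m) * BW b (fun k => occ p.1 k + occ p.2 k)) :=
                mul_le_mul_right (BW_pair_ge hb hs h (hF _ hp.1) (hF _ hp.2)
                  (ho _ hp.1 _ hp.2)) _
            _ = _ := by ring
      _ = (rho : ℝ≥0∞) ^ (2 * m) * ∑ p ∈ F ×ˢ F, Wp b z p := by rw [Finset.mul_sum]
      _ ≤ (rho : ℝ≥0∞) ^ (2 * m) * 1 := by
          refine mul_le_mul_right (le_trans ?_ hY) _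
          refine sum_le_gs _ _ ?_
          intro p hp
          rw [Finset.mem_coe, mem_product] at hp
          exact ⟨hF _ hp.1, hF _ hp.2⟩
      _ = ((rho ^ m : ℝ≥0) : ℝ≥0∞) ^ 2 := by
          rw [mul_one, mul_comm 2 m, pow_mul]
          push_cast
          rfl
  have h2 : (∑ w ∈ F, (z * rho) ^ w.length) ^ 2 ≤ (rho ^ m) ^ 2 := by exact_mod_cast h1
  exact le_of_pow_le_pow_left₀ two_ne_zero zero_le h2

/-! ### the test words -/

theorem mem_Bri_one : [0] ∈ Bri 1 := by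
  refine ⟨?_, ?_, ?_⟩
  · show (vt 0 [0]).Nodup
    decide
  · decide
  · intro p hp
    simp [vs] at hp

/-- a finite set of bridges which is too heavy -/
theorem exists_F {r : ℝ≥0} (hr0 : 0 < r) (hr1 : r < 1) : ∃ x2 : ℝ, 0 < x2 ∧ x2 < xc ∧ x2 < 1 ∧
    ∃ (m : ℕ) (F : Finset Wd), (∀ w ∈ F, w ∈ Bri m) ∧
      r ^ m < ∑ w ∈ F, (Real.toNNReal x2) ^ w.length := by
  obtain ⟨r', h1, h2⟩ := exists_between hr1
  have h0 : (0 : ℝ) < r' := by exact_mod_cast hr0.trans h1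
  obtain ⟨x2, hx⟩ := MG.exists_crit h0 (by exact_mod_cast h2)
  have hchi := MG.chi_finite hx.x_pos hx.x_lt
  refine ⟨x2, hx.x_pos, hx.x_lt, ?_, ?_⟩
  · have h3 := hx.upper 1
    have h4 : ENNReal.ofReal x2 ≤ gw (ENNReal.ofReal x2) (Bri 1) := by
      have h5 : gw (ENNReal.ofReal x2) {([0] : Wd)} ≤ gw (ENNReal.ofReal x2) (Bri 1) :=
        MG.gw_mono (Set.singleton_subset_iff.2 mem_Bri_one)
      rw [MG.gw_singleton] at h5
      simpa using h5
    have h5 := h4.trans h3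
    rw [pow_one] at h5
    have h6 := (ENNReal.ofReal_le_ofReal_iff h0.le).1 h5
    exact lt_of_le_of_lt h6 (by exact_mod_cast h2)
  · -- some `m` with `r ^ m < gw x2 (Bri m)`
    have h3 : ∃ m : ℕ, (r : ℝ≥0∞) ^ m < gw (ENNReal.ofReal x2) (Bri m) := by
      by_contra hcon
      push Not at hcon
      obtain ⟨K, hK⟩ := ENNReal.lt_iff_exists_nnreal_btwn.1 hchi
      have h4 : ∀ m : ℕ, r' ^ m ≤ K * r ^ m := by
        intro m
        have h5 := hx.lower m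
        have h6 : ENNReal.ofReal ((r' : ℝ) ^ m) = ((r' ^ m : ℝ≥0) : ℝ≥0∞) := by
          rw [← NNReal.coe_pow, ENNReal.ofReal_coe_nnreal]
        rw [h6] at h5
        have h7 : ((r' ^ m : ℝ≥0) : ℝ≥0∞) ≤ ((K * r ^ m : ℝ≥0) : ℝ≥0∞) := by
          refine h5.trans ?_
          push_cast
          exact mul_le_mul' hK.1.le (hcon m)
        exact_mod_cast h7
      have h5 : 1 < r' / r := by
        rw [one_lt_div hr0]
        exact h1
      obtain ⟨m, hm⟩ := pow_unbounded_of_one_lt K h5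
      rw [div_pow, lt_div_iff₀ (pow_pos hr0 m)] at hm
      exact absurd (h4 m) (not_le.2 hm)
    obtain ⟨m, hm⟩ := h3
    unfold gw at hm
    rw [ENNReal.tsum_eq_iSup_sum, lt_iSup_iff] at hm
    obtain ⟨F, hF⟩ := hm
    refine ⟨m, F.map (Function.Embedding.subtype _), ?_, ?_⟩
    · intro w hw
      simp only [Finset.mem_map] at hw
      obtain ⟨x, _, rfl⟩ := hw
      exact x.2
    · rw [Finset.sum_map]
      have h4 : ((r ^ m : ℝ≥0) : ℝ≥0∞) <
          ((∑ w ∈ F, (Real.toNNReal x2) ^ (w : Wd).length : ℝ≥0) : ℝ≥0∞) := by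
        push_cast
        exact hF
      exact_mod_cast h4

end Pool.Agent.OC.DOM

namespace Pool.Agent.OC

open Finset Pool.Agent.Lib27 Pool.Agent.SapR
open Pool.Agent.MG (Bri Brp chi gw xc)
open scoped NNReal ENNReal

theorem dom_thm (h1 : ZST_Stmt) : DOM_Stmt := by
  obtain ⟨zl, -, hzst⟩ := h1
  rintro c ⟨hc, v0, hv0⟩
  have hv02 : 2 < v0 := by
    by_contra hcon
    rw [hc.eq_one (by omega)] at hv0
    exact lt_irrefl _ hv0
  obtain ⟨s1, rfl⟩ : ∃ s1, v0 = 2 + s1 := ⟨v0 - 2, by omega⟩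
  have hs1 : s1 ≠ 0 := by omega
  obtain ⟨r, hr0, hr1, hr⟩ := DOM.root_of_lt_one hv0 hs1
  obtain ⟨x2, hx0, hxc, hx1, m, F, hFB, hF⟩ := DOM.exists_F hr0 hr1
  set X : ℝ≥0 := Real.toNNReal x2 with hX
  have hXr : (X : ℝ) = x2 := Real.coe_toNNReal _ hx0.le
  -- the bound of the occupations
  set s0 : ℕ := s1 + 2 * ∑ w ∈ F, w.length with hs0
  have hs01 : s1 ≤ s0 := Nat.le_add_right _ _
  have hs00 : s0 ≠ 0 := by omega
  have ho : ∀ w ∈ F, ∀ w' ∈ F, ∀ k, occ w k + occ w' k ≤ 2 + s0 := by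
    intro w hw w' hw' k
    have e1 := DOM.occ_le_length w k
    have e2 := DOM.occ_le_length w' k
    have e3 : w.length ≤ ∑ w ∈ F, w.length :=
      Finset.single_le_sum (f := fun w : Wd => w.length) (fun _ _ => Nat.zero_le _) hw
    have e4 : w'.length ≤ ∑ w ∈ F, w.length :=
      Finset.single_le_sum (f := fun w : Wd => w.length) (fun _ _ => Nat.zero_le _) hw'
    omega
  -- the choice of `y < y1`
  have hlt : x2 < min xc 1 := lt_min hxc hx1
  obtain ⟨yr, hy1, hy2⟩ := exists_between hlt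
  obtain ⟨y1r, hy3, hy4⟩ := exists_between hy2
  have hyr0 : 0 < yr := hx0.trans hy1
  have hy1r0 : 0 < y1r := hyr0.trans hy3
  set y : ℝ≥0 := Real.toNNReal yr with hy
  set y1 : ℝ≥0 := Real.toNNReal y1r with hy1'
  have hyc : (y : ℝ) = yr := Real.coe_toNNReal _ hyr0.le
  have hy1c : (y1 : ℝ) = y1r := Real.coe_toNNReal _ hy1r0.le
  have hXy : X < y := by
    rw [← NNReal.coe_lt_coe, hXr, hyc]
    exact hy1
  have hyy1 : y < y1 := by
    rw [← NNReal.coe_lt_coe, hyc, hy1c]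
    exact hy3
  have hy11 : y1 < 1 := by
    rw [← NNReal.coe_lt_coe, hy1c, NNReal.coe_one]
    exact hy4.trans_le (min_le_right _ _)
  have hX0 : 0 < X := by
    rw [← NNReal.coe_lt_coe, hXr]
    exact hx0
  have hy0 : 0 < y := hX0.trans hXy
  have hyle : y ≤ 1 := (hyy1.trans hy11).le
  have hchi : chi (y1 : ℝ≥0∞) ≠ ∞ := (MG.chi_finite hy1r0 (hy4.trans_le (min_le_left _ _))).ne
  -- the choice of `eta`
  obtain ⟨eta, he0, he1, he⟩ : ∃ eta : ℝ≥0, 0 < eta ∧ eta ≤ 1 ∧ (1 + eta) * X ≤ y := by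
    refine ⟨min 1 ((y - X) / X), lt_min one_pos (div_pos (tsub_pos_of_lt hXy) hX0),
      min_le_left _ _, ?_⟩
    calc (1 + min 1 ((y - X) / X)) * X ≤ (1 + (y - X) / X) * X := by
          gcongr
          exact min_le_right _ _
      _ = X + (y - X) := by
          rw [add_mul, one_mul, div_mul_cancel₀ _ hX0.ne']
      _ = y := add_tsub_cancel_of_le hXy.le
  refine ⟨(y ^ (2 + s0))⁻¹, y, y1, eta, ?_, hy0, hyy1, hy11, hchi, he0, he1, ?_⟩
  · exact (one_le_inv₀ (pow_pos hy0 _)).2 (pow_le_one₀ zero_le hyle)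
  intro b hb hbc v
  obtain ⟨-, hz2, hY, -⟩ := hzst b hb
  obtain ⟨z, hz⟩ : ∃ z : ℝ≥0, (z : ℝ≥0∞) = zst b :=
    ⟨(zst b).toNNReal, ENNReal.coe_toNNReal (hz2.trans_lt (by simp)).ne⟩
  rw [← hz] at hz2 hY ⊢
  have hzle : (1 + eta) * z ≤ 1 := by
    have e1 : z ≤ 2⁻¹ := by
      rw [← ENNReal.coe_le_coe]
      refine hz2.trans (le_of_eq ?_)
      rw [ENNReal.coe_inv two_ne_zero]
      rfl
    calc (1 + eta) * z ≤ (1 + 1) * 2⁻¹ := by gcongr
      _ = 1 := by norm_num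
  obtain ⟨rho, hrho⟩ := DOM.exists_root (b (2 + s0)) hs00
  have hrr : rho ≤ r := by
    have e1 := DOM.b_le_pow hb hs1 hs01 ((hbc _).trans hr)
    rw [← hrho] at e1
    exact le_of_pow_le_pow_left₀ hs00 zero_le e1
  -- `z * rho < X`
  have hzX : z * rho ≤ X := by
    by_contra hcon
    push Not at hcon
    have e1 := DOM.sum_F_le hb (z := z) hs00 hrho F hFB ho (hY m)
    have e2 : ∑ w ∈ F, X ^ w.length ≤ ∑ w ∈ F, (z * rho) ^ w.length :=
      sum_le_sum fun w _ => pow_le_pow_left₀ zero_le hcon.le _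
    have e3 : rho ^ m ≤ r ^ m := pow_le_pow_left₀ zero_le hrr _
    exact absurd (hF.trans_le (e2.trans (e1.trans e3))) (lt_irrefl _)
  have hgoal : ((1 + eta) * z) ^ v * b v ≤ (y ^ (2 + s0))⁻¹ * y ^ v := by
    rcases le_or_gt v (2 + s0) with hv | hv
    · have e1 : ((1 + eta) * z) ^ v * b v ≤ 1 := mul_le_one' (pow_le_one₀ zero_le hzle) (hb.le_one v)
      refine e1.trans ?_
      rw [← div_eq_inv_mul, one_le_div (pow_pos hy0 _)]
      exact pow_le_pow_of_le_one zero_le hyle hv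
    · obtain ⟨t, rfl⟩ : ∃ t, v = 2 + t := ⟨v - 2, by omega⟩
      have hts : s0 ≤ t := by omega
      have e1 : b (2 + t) ≤ rho ^ t := DOM.b_le_pow hb hs00 hts hrho.ge
      calc ((1 + eta) * z) ^ (2 + t) * b (2 + t)
          = ((1 + eta) * z) ^ 2 * (((1 + eta) * z) ^ t * b (2 + t)) := by
            rw [pow_add, mul_assoc]
        _ ≤ 1 * (((1 + eta) * z) ^ t * rho ^ t) := by
            gcongr
            exact pow_le_one₀ zero_le hzle
        _ = ((1 + eta) * (z * rho)) ^ t := by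
            rw [one_mul, ← mul_pow, mul_assoc]
        _ ≤ y ^ t := by
            refine pow_le_pow_left₀ zero_le (le_trans ?_ he) _
            gcongr
        _ = (y ^ 2)⁻¹ * y ^ (2 + t) := by
            rw [pow_add, ← mul_assoc, inv_mul_cancel₀ (pow_pos hy0 2).ne', one_mul]
        _ ≤ (y ^ (2 + s0))⁻¹ * y ^ (2 + t) := by
            gcongr ?_ * _
            rw [inv_le_inv₀ (pow_pos hy0 _) (pow_pos hy0 _)]
            exact pow_le_pow_of_le_one zero_le hyle (by omega)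
  have h5 : ((((1 + eta) * z) ^ v * b v : ℝ≥0) : ℝ≥0∞) ≤
      (((y ^ (2 + s0))⁻¹ * y ^ v : ℝ≥0) : ℝ≥0∞) := by exact_mod_cast hgoal
  rw [ENNReal.coe_mul, ENNReal.coe_mul, ENNReal.coe_pow, ENNReal.coe_pow, ENNReal.coe_mul,
    ENNReal.coe_add, ENNReal.coe_one] at h5
  exact h5

end Pool.Agent.OC
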