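import Pool.Agent.OC.Stmts2

/-!
# Convex occupation energies (MP_f6626d_co): module FIN, assembly of the final theorem
-/

set_option autoImplicit false

namespace Pool.Agent.OC

open Finset Filter Topology MeasureTheory Pool.Agent.Lib27 Pool.Agent.SapR Pool.Agent.Gap
  Pool.Agent.AreaLaw
open scoped NNReal ENNReal

namespace FIN

theorem occW_nonneg {b : ℕ → ℝ} (hb : OccWeight b) (n : ℕ) (s : Fin (2 * n) → Fin 4) :
    0 ≤ occW b n s :=
  Finset.prod_nonneg fun _ _ => hb.nonneg _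

theorem area_nonneg (n : ℕ) (s : Fin (2 * n) → Fin 4) : 0 ≤ area n s := by
  unfold area
  positivity

theorem occCdf_mono {b : ℕ → ℝ} (hb : OccWeight b) (n : ℕ) : Monotone (occCdf b n) := by
  classical
  intro x y hxy
  unfold occCdf
  have hZ : 0 ≤ occZ b n := Finset.sum_nonneg fun s _ => occW_nonneg hb n s
  apply div_le_div_of_nonneg_right _ hZ
  apply Finset.sum_le_sum_of_subset_of_nonneg
  · intro s hs
    rw [mem_filter] at hs ⊢
    refine ⟨hs.1, hs.2.trans ?_⟩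
    exact mul_le_mul_of_nonneg_right hxy (Finset.sum_nonneg fun t _ =>
      mul_nonneg (occW_nonneg hb n t) (area_nonneg n t))
  · intro s _ _
    exact occW_nonneg hb n s

/-- the convergence clause for classes of weights -/
def Cls (ν : Measure ℝ) : Prop := ∀ c : ℕ → ℕ → ℝ, (∀ j, NTR (c j)) →
  ∃ J : ℕ → ℕ, Tendsto J atTop atTop ∧
    ∀ b : ℕ → ℕ → ℝ, (∀ n, Below (c (J n)) (J n + 1) (b n)) → ∀ x : ℝ, ν {x} = 0 →
      Tendsto (fun n : ℕ => occCdf (b n) n x) atTop (𝓝 (ν (Set.Iic x)).toReal)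

theorem cls (hCONV : CONV_Stmt) (hDIAG : DIAG_Stmt) {ν : Measure ℝ}
    (hν : IsProbabilityMeasure ν) (hG : GF ν) : Cls ν := by
  intro c hc
  obtain ⟨J, hJ, h⟩ := hDIAG {b : ℕ → ℝ // OccWeight b} ν hν (fun b n x => occCdf b.1 n x)
    (fun j => {b | Below (c j) (j + 1) b.1}) (fun b n => occCdf_mono b.2 n)
    (fun j f hf x hx => hCONV ν hν hG (c j) (j + 1) (hc j) (by positivity) (fun n => (f n).1)
      hf x hx)
  refine ⟨J, hJ, fun b hb x hx => ?_⟩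
  exact h (fun n => ⟨b n, (hb n).1⟩) hb x hx

theorem bInd_one {k : ℕ} (hk : 1 ≤ k) : bInd k 1 = 1 := by
  unfold bInd
  rw [if_pos (by omega)]

theorem bInd_mono {k l : ℕ} (h : k ≤ l) (v : ℕ) : bInd k v ≤ bInd l v := by
  unfold bInd
  split_ifs with h1 h2
  · exact le_rfl
  · exact absurd (h1.trans (by omega)) h2
  · exact zero_le_one
  · exact le_rfl

theorem narrow_mono {k l : ℕ} (h : k ≤ l) (n : ℕ) : Narrow k n ⊆ Narrow l n := by
  classical
  intro s hs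
  unfold Narrow at hs ⊢
  rw [mem_filter] at hs ⊢
  exact ⟨hs.1, fun t => (hs.2 t).trans (by omega)⟩

theorem tend_inv {J : ℕ → ℕ} (hJ : Tendsto J atTop atTop) :
    Tendsto (fun n => 1 / ((J n : ℝ) + 1)) atTop (𝓝 0) :=
  tendsto_one_div_add_atTop_nhds_zero_nat.comp hJ

theorem narrow (hN : NAR_Stmt) (hNC : NARC_Stmt) {ν : Measure ℝ} (hC : Cls ν) :
    ∃ K : ℕ → ℕ, Tendsto K atTop atTop ∧
      (∀ k : ℕ → ℕ, (∀ n, 1 ≤ k n ∧ k n ≤ K n) → ∀ x : ℝ, ν {x} = 0 →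
        Tendsto (fun n : ℕ => areaCdf n (Narrow (k n) n) x) atTop (𝓝 (ν (Set.Iic x)).toReal)) ∧
      ∀ ε : ℝ, 0 < ε → ∀ᶠ n : ℕ in atTop,
        Real.exp (-(ε * n)) * ((SAP n).card : ℝ) ≤ ((Narrow (K n) n).card : ℝ) := by
  obtain ⟨J, hJ, h⟩ := hC (fun j => bInd (j + 1)) fun j => (hN (j + 1) (by omega)).1
  have hK : Tendsto (fun n => J n + 1) atTop atTop := (tendsto_add_atTop_nat 1).comp hJ
  refine ⟨fun n => J n + 1, hK, ?_, ?_⟩
  · intro k hk x hx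
    refine (h (fun n => bInd (k n)) (fun n => ⟨(hN (k n) (hk n).1).1.1, fun v _ =>
      bInd_mono (hk n).2 v, ?_⟩) x hx).congr' ?_
    · rw [bInd_one (hk n).1, inv_one]
      have : (0 : ℝ) ≤ (J n : ℝ) := Nat.cast_nonneg _
      linarith
    · filter_upwards [eventually_ge_atTop 1] with n hn
      exact ((hN (k n) (hk n).1).2 n x hn).symm
  · intro ε hε
    obtain ⟨k, hk⟩ := hNC ε hε
    filter_upwards [hk, hK.eventually_ge_atTop k] with n h1 h2
    refine h1.trans ?_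
    exact_mod_cast card_le_card (narrow_mono h2 n)

theorem pow_ineq {p : ℝ} (hp : 1 < p) {v : ℕ} (hv : 2 ≤ v) :
    0 ≤ (v : ℝ) ^ p - 2 ^ (p - 1) * v := by
  have h2 : (2 : ℝ) ≤ v := by exact_mod_cast hv
  have h0 : (0 : ℝ) < v := by linarith
  have h1 : (v : ℝ) ^ p = (v : ℝ) ^ (p - 1) * v := by
    rw [Real.rpow_sub_one h0.ne']
    field_simp
  have h3 : (2 : ℝ) ^ (p - 1) ≤ (v : ℝ) ^ (p - 1) :=
    Real.rpow_le_rpow (by norm_num) h2 (by linarith)
  rw [h1]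
  nlinarith

theorem bPow_anti {p : ℝ} (hp : 1 < p) {e beta : ℝ} (h : e ≤ beta) {v : ℕ} (hv : 2 ≤ v) :
    bPow beta p v ≤ bPow e p v := by
  unfold bPow
  apply Real.exp_le_exp.2
  have := mul_le_mul_of_nonneg_right h (pow_ineq hp hv)
  linarith

theorem bPow_one {p : ℝ} (hp : 1 < p) {beta : ℝ} (hb : 0 ≤ beta) : (bPow beta p 1)⁻¹ ≤ 1 := by
  have h1 : 1 ≤ bPow beta p 1 := by
    unfold bPow
    apply Real.one_le_exp
    rw [Nat.cast_one, Real.one_rpow, mul_one]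
    have h2 : (1 : ℝ) ≤ 2 ^ (p - 1) := Real.one_le_rpow (by norm_num) (by linarith)
    nlinarith
  exact inv_le_one_of_one_le₀ h1

theorem pow (hP : POW_Stmt) {ν : Measure ℝ} (hC : Cls ν) : ∀ p : ℝ, 1 < p → ∃ e : ℕ → ℝ,
    (∀ n, 0 < e n) ∧ Tendsto e atTop (𝓝 0) ∧
    ∀ beta : ℕ → ℝ, (∀ᶠ n : ℕ in atTop, e n ≤ beta n) → ∀ x : ℝ, ν {x} = 0 →
      Tendsto (fun n : ℕ => powCdf (beta n) p n x) atTop (𝓝 (ν (Set.Iic x)).toReal) := by
  intro p hp
  obtain ⟨J, hJ, h⟩ := hC (fun j => bPow (1 / ((j : ℝ) + 1)) p)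
    fun j => (hP _ p (by positivity) hp).1
  have he : ∀ n, 0 < 1 / ((J n : ℝ) + 1) := fun n => by positivity
  refine ⟨fun n => 1 / ((J n : ℝ) + 1), he, tend_inv hJ, ?_⟩
  intro beta hbeta x hx
  have hpos : ∀ n, 0 < max (1 / ((J n : ℝ) + 1)) (beta n) := fun n =>
    lt_of_lt_of_le (he n) (le_max_left _ _)
  refine (h (fun n => bPow (max (1 / ((J n : ℝ) + 1)) (beta n)) p) (fun n =>
    ⟨(hP _ p (hpos n) hp).1.1, fun v hv => bPow_anti hp (le_max_left _ _) (by omega), ?_⟩)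
      x hx).congr' ?_
  · have h1 := bPow_one hp (hpos n).le
    have : (0 : ℝ) ≤ (J n : ℝ) := Nat.cast_nonneg _
    linarith
  · filter_upwards [eventually_ge_atTop 1, hbeta] with n hn hb
    rw [max_eq_right hb]
    exact ((hP _ p (lt_of_lt_of_le (he n) hb) hp).2 n x hn).symm

theorem bFor_anti {e f : ℝ} (h : e ≤ f) {v : ℕ} (hv : 2 ≤ v) : bFor f v ≤ bFor e v := by
  unfold bFor
  rw [if_neg (by omega), if_neg (by omega)]
  apply Real.exp_le_exp.2
  have h2 : (2 : ℝ) ≤ v := by exact_mod_cast hv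
  have := mul_le_mul_of_nonneg_right h (by linarith : (0 : ℝ) ≤ (v : ℝ) - 2)
  linarith

theorem bFor_one {f : ℝ} (hf : 0 ≤ f) : (bFor f 1)⁻¹ ≤ 1 := by
  have h1 : 1 ≤ bFor f 1 := by
    unfold bFor
    rw [if_neg one_ne_zero]
    apply Real.one_le_exp
    rw [Nat.cast_one]
    linarith
  exact inv_le_one_of_one_le₀ h1

theorem force (hF : FOR_Stmt) {ν : Measure ℝ} (hC : Cls ν) : ∃ e : ℕ → ℝ, (∀ n, 0 < e n) ∧
    Tendsto e atTop (𝓝 0) ∧ ∀ f : ℕ → ℝ, (∀ᶠ n : ℕ in atTop, e n ≤ f n) → ∀ x : ℝ, ν {x} = 0 →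
      Tendsto (fun n : ℕ => forceCdf (f n) n x) atTop (𝓝 (ν (Set.Iic x)).toReal) := by
  obtain ⟨J, hJ, h⟩ := hC (fun j => bFor (1 / ((j : ℝ) + 1)))
    fun j => (hF _ (by positivity)).1
  have he : ∀ n, 0 < 1 / ((J n : ℝ) + 1) := fun n => by positivity
  refine ⟨fun n => 1 / ((J n : ℝ) + 1), he, tend_inv hJ, ?_⟩
  intro f hf x hx
  have hpos : ∀ n, 0 < max (1 / ((J n : ℝ) + 1)) (f n) := fun n =>
    lt_of_lt_of_le (he n) (le_max_left _ _)
  refine (h (fun n => bFor (max (1 / ((J n : ℝ) + 1)) (f n))) (fun n =>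
    ⟨(hF _ (hpos n)).1.1, fun v hv => bFor_anti (le_max_left _ _) (by omega), ?_⟩)
      x hx).congr' ?_
  · have h1 := bFor_one (hpos n).le
    have : (0 : ℝ) ≤ (J n : ℝ) := Nat.cast_nonneg _
    linarith
  · filter_upwards [eventually_ge_atTop 1, hf] with n hn hb
    rw [max_eq_right hb]
    exact ((hF _ (lt_of_lt_of_le (he n) hb)).2 n x hn).symm

open Classical in
/-- finitely many weights do not matter -/
theorem cls_ev {ν : Measure ℝ} (hC : Cls ν) : ∀ c : ℕ → ℕ → ℝ, (∀ j, NTR (c j)) →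
    ∃ J : ℕ → ℕ, Tendsto J atTop atTop ∧
      ∀ b : ℕ → ℕ → ℝ, (∀ᶠ n : ℕ in atTop, Below (c (J n)) (J n + 1) (b n)) → ∀ x : ℝ,
        ν {x} = 0 →
        Tendsto (fun n : ℕ => occCdf (b n) n x) atTop (𝓝 (ν (Set.Iic x)).toReal) := by
  intro c hc
  obtain ⟨J, hJ, h⟩ := hC c hc
  refine ⟨J, hJ, fun b hb x hx => ?_⟩
  have hfix : ∀ j : ℕ, Below (c j) ((j : ℝ) + 1) (fun v => if v = 1 then 1 else c j v) := by
    intro j
    have hw := (hc j).1
    refine ⟨⟨?_, ?_, ?_, ?_, ?_, ?_⟩, ?_, ?_⟩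
    · rw [if_neg (by norm_num)]; exact hw.zero
    · rw [if_pos rfl]; exact one_pos
    · rw [if_neg (by norm_num)]; exact hw.two
    · intro v
      split_ifs
      · exact zero_le_one
      · exact hw.nonneg v
    · intro v hv
      rw [if_neg (by omega), if_neg (by omega)]
      exact hw.anti v hv
    · intro v hv
      rw [if_neg (by omega), if_neg (by omega), if_neg (by omega)]
      exact hw.lc v hv
    · intro v hv
      show (if v = 1 then 1 else c j v) ≤ c j v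
      rw [if_neg (by omega)]
    · show (if 1 = 1 then (1 : ℝ) else c j 1)⁻¹ ≤ (j : ℝ) + 1
      rw [if_pos rfl, inv_one]
      have : (0 : ℝ) ≤ (j : ℝ) := Nat.cast_nonneg _
      linarith
  refine (h (fun n => if Below (c (J n)) (J n + 1) (b n) then b n else
    fun v => if v = 1 then 1 else c (J n) v) (fun n => ?_) x hx).congr' ?_
  · split_ifs with h1
    · exact h1
    · exact hfix (J n)
  · filter_upwards [hb] with n hn
    rw [if_pos hn]

theorem narrow_ev (hN : NAR_Stmt) (hNC : NARC_Stmt) {ν : Measure ℝ} (hC : Cls ν) :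
    ∃ K : ℕ → ℕ, Tendsto K atTop atTop ∧
      (∀ k : ℕ → ℕ, (∀ᶠ n : ℕ in atTop, 1 ≤ k n ∧ k n ≤ K n) → ∀ x : ℝ, ν {x} = 0 →
        Tendsto (fun n : ℕ => areaCdf n (Narrow (k n) n) x) atTop (𝓝 (ν (Set.Iic x)).toReal)) ∧
      ∀ ε : ℝ, 0 < ε → ∀ᶠ n : ℕ in atTop,
        Real.exp (-(ε * n)) * ((SAP n).card : ℝ) ≤ ((Narrow (K n) n).card : ℝ) := by
  obtain ⟨J, hJ, h⟩ := cls_ev hC (fun j => bInd (j + 1)) fun j => (hN (j + 1) (by omega)).1
  have hK : Tendsto (fun n => J n + 1) atTop atTop := (tendsto_add_atTop_nat 1).comp hJ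
  refine ⟨fun n => J n + 1, hK, ?_, ?_⟩
  · intro k hk x hx
    refine (h (fun n => bInd (k n)) ?_ x hx).congr' ?_
    · filter_upwards [hk] with n hn
      refine ⟨(hN (k n) hn.1).1.1, fun v _ => bInd_mono hn.2 v, ?_⟩
      rw [bInd_one hn.1, inv_one]
      have : (0 : ℝ) ≤ (J n : ℝ) := Nat.cast_nonneg _
      linarith
    · filter_upwards [eventually_ge_atTop 1, hk] with n hn hk'
      exact ((hN (k n) hk'.1).2 n x hn).symm
  · intro ε hε
    obtain ⟨k, hk⟩ := hNC ε hε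
    filter_upwards [hk, hK.eventually_ge_atTop k] with n h1 h2
    refine h1.trans ?_
    exact_mod_cast card_le_card (narrow_mono h2 n)

end FIN

theorem fin_thm : FIN_Stmt := by
  intro hG hCONV hDIAG hNAR hNARC hPOW hFOR hSTC
  obtain ⟨ν, hν, hG1, hG2⟩ := hG
  have hGF : GF ν := ⟨hG1, hG2⟩
  have hC := FIN.cls hCONV hDIAG hν hGF
  exact ⟨ν, hν, hSTC ν hGF, FIN.cls_ev hC, FIN.narrow_ev hNAR hNARC hC, FIN.pow hPOW hC,
    FIN.force hFOR hC⟩

end Pool.Agent.OC
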