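import Pool.Agent.Lib_helper41.SapR.FinalDefs

/-!
Definitions for the result on convex occupation energies (problem MP_f6626d_co).
`SAP`, `pos`, `area` are in `Lib_helper27/Defs.lean`, `Staircase`, `areaCdf` in
`Lib_helper41/SapR/FinalDefs.lean`.
-/

set_option autoImplicit false

namespace Pool.Agent.AreaLaw

/-- The number of vertices of the polygon `s` on the diagonal `x + y = h`. -/
def diag (n : ℕ) (s : Fin (2 * n) → Fin 4) (h : ℤ) : ℕ :=
  ((Finset.range (2 * n)).filter (fun k => (pos n s k).1 + (pos n s k).2 = h)).card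

/-- Convex occupation weights `b = exp (-phi)`: `phi` has values in `[0, oo]` on `2, 3, ...`, is
convex and nondecreasing there, `phi 2 = 0`; the weight `b 1 > 0` is arbitrary, and `b 0 = 1`. -/
structure OccWeight (b : ℕ → ℝ) : Prop where
  zero : b 0 = 1
  one : 0 < b 1
  two : b 2 = 1
  nonneg : ∀ v, 0 ≤ b v
  anti : ∀ v, 2 ≤ v → b (v + 1) ≤ b v
  lc : ∀ v, 2 ≤ v → b v * b (v + 2) ≤ b (v + 1) ^ 2

/-- The weight of the polygon `s` (which starts at the origin): the product of `b (V_h)` over all
diagonals `x + y = h`, where `V_h` is the number of vertices on the diagonal. -/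
noncomputable def occW (b : ℕ → ℝ) (n : ℕ) (s : Fin (2 * n) → Fin 4) : ℝ :=
  ∏ h ∈ Finset.Icc (-((2 * n : ℕ) : ℤ)) ((2 * n : ℕ) : ℤ), b (diag n s h)

/-- The total weight of the self-avoiding polygons of perimeter `2n`. -/
noncomputable def occZ (b : ℕ → ℝ) (n : ℕ) : ℝ := ∑ s ∈ SAP n, occW b n s

open Classical in
/-- Distribution function of `area / E[area]` for the self-avoiding polygons of perimeter `2n`
with probabilities proportional to `occW b n`: the probability that `area ≤ x * E[area]`. -/
noncomputable def occCdf (b : ℕ → ℝ) (n : ℕ) (x : ℝ) : ℝ :=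
  (∑ s ∈ (SAP n).filter (fun s => area n s * occZ b n ≤
      x * ∑ t ∈ SAP n, occW b n t * area n t), occW b n s) / occZ b n

open Classical in
/-- The self-avoiding polygons of perimeter `2n` with at most `2k` vertices on every diagonal
`x + y = h`. -/
noncomputable def Narrow (k n : ℕ) : Finset (Fin (2 * n) → Fin 4) :=
  (SAP n).filter (fun s => ∀ h : ℤ, diag n s h ≤ 2 * k)

/-- The energy `∑ V_h ^ p` over all diagonals. -/
noncomputable def powE (p : ℝ) (n : ℕ) (s : Fin (2 * n) → Fin 4) : ℝ :=
  ∑ h ∈ Finset.Icc (-((2 * n : ℕ) : ℤ)) ((2 * n : ℕ) : ℤ), ((diag n s h : ℕ) : ℝ) ^ p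

/-- Total weight for the weights `exp (-beta * ∑ V_h ^ p)`. -/
noncomputable def powZ (beta p : ℝ) (n : ℕ) : ℝ := ∑ s ∈ SAP n, Real.exp (-(beta * powE p n s))

open Classical in
/-- Distribution function of `area / E[area]` for the self-avoiding polygons of perimeter `2n`
with probabilities proportional to `exp (-beta * ∑ V_h ^ p)`. -/
noncomputable def powCdf (beta p : ℝ) (n : ℕ) (x : ℝ) : ℝ :=
  (∑ s ∈ (SAP n).filter (fun s => area n s * powZ beta p n ≤
      x * ∑ t ∈ SAP n, Real.exp (-(beta * powE p n t)) * area n t),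
    Real.exp (-(beta * powE p n s))) / powZ beta p n

end Pool.Agent.AreaLaw
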