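import Pool.Agent.OC.Stmts2

/-!
# Convex occupation energies (MP_f6626d_co), module FOR: forces are an example
-/

set_option autoImplicit false

namespace Pool.Agent.OC.FOR

open Finset Pool.Agent.AreaLaw

/-- the level of the vertex number `k` -/
def g (n : ℕ) (s : Fin (2 * n) → Fin 4) (k : ℕ) : ℤ := (pos n s k).1 + (pos n s k).2

lemma pos_succ (n : ℕ) (s : Fin (2 * n) → Fin 4) (k : ℕ) (hk : k < 2 * n) :
    pos n s (k + 1) = pos n s k + step (s ⟨k, hk⟩) := by
  classical
  unfold pos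
  have h1 : Finset.univ.filter (fun i : Fin (2 * n) => i.val < k + 1) =
      insert ⟨k, hk⟩ (Finset.univ.filter (fun i : Fin (2 * n) => i.val < k)) := by
    ext i
    simp only [mem_filter, mem_univ, true_and, mem_insert, Fin.ext_iff]
    omega
  rw [h1, Finset.sum_insert (by simp), add_comm]

lemma step_lev (a : Fin 4) : |(step a).1 + (step a).2| ≤ 1 := by
  fin_cases a <;> simp [step]

lemma g_zero (n : ℕ) (s : Fin (2 * n) → Fin 4) : g n s 0 = 0 := by
  unfold g pos
  simp

lemma g_step (n : ℕ) (s : Fin (2 * n) → Fin 4) (k : ℕ) (hk : k < 2 * n) :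
    |g n s (k + 1) - g n s k| ≤ 1 := by
  unfold g
  rw [pos_succ n s k hk]
  have h1 := step_lev (s ⟨k, hk⟩)
  have h2 : (pos n s k + step (s ⟨k, hk⟩)).1 + (pos n s k + step (s ⟨k, hk⟩)).2 -
      ((pos n s k).1 + (pos n s k).2) = (step (s ⟨k, hk⟩)).1 + (step (s ⟨k, hk⟩)).2 := by
    rw [Prod.fst_add, Prod.snd_add]
    ring
  rw [h2]
  exact h1

lemma abs_g_le (n : ℕ) (s : Fin (2 * n) → Fin 4) : ∀ k : ℕ, k ≤ 2 * n → |g n s k| ≤ k := by
  intro k
  induction k with
  | zero => intro _; rw [g_zero]; simp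
  | succ k ih =>
    intro h
    have h1 := ih (by omega)
    have h2 := g_step n s k (by omega)
    rw [abs_le] at h1 h2 ⊢
    push_cast
    constructor <;> omega

/-- discrete intermediate values -/
lemma ivt (f : ℕ → ℤ) (m : ℕ) (hf : ∀ k, k < m → |f (k + 1) - f k| ≤ 1) (i : ℕ) : ∀ d : ℕ,
    i + d ≤ m → ∀ h : ℤ, ((f i ≤ h ∧ h ≤ f (i + d)) ∨ (f (i + d) ≤ h ∧ h ≤ f i)) →
    ∃ c, i ≤ c ∧ c ≤ i + d ∧ f c = h := by
  intro d
  induction d with
  | zero =>
    intro _ h hh
    refine ⟨i, le_rfl, le_rfl, ?_⟩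
    rw [add_zero] at hh
    omega
  | succ d ih =>
    intro hd h hh
    have h2 := hf (i + d) (by omega)
    rw [abs_le] at h2
    rw [← add_assoc] at hh
    by_cases hc : (f i ≤ h ∧ h ≤ f (i + d)) ∨ (f (i + d) ≤ h ∧ h ≤ f i)
    · obtain ⟨c, h3, h4, h5⟩ := ih (by omega) h hc
      exact ⟨c, h3, by omega, h5⟩
    · exact ⟨i + d + 1, by omega, by omega, by omega⟩

/-- the visited levels -/
def I (n : ℕ) (s : Fin (2 * n) → Fin 4) : Finset ℤ := (range (2 * n)).image (g n s)

lemma card_I (n : ℕ) (s : Fin (2 * n) → Fin 4) (hn : 1 ≤ n) : (I n s).card = span n s + 1 := by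
  have hne : (I n s).Nonempty := ⟨g n s 0, mem_image_of_mem _ (by rw [mem_range]; omega)⟩
  obtain ⟨a, ha, ha'⟩ := mem_image.1 ((I n s).max'_mem hne)
  obtain ⟨b, hb, hb'⟩ := mem_image.1 ((I n s).min'_mem hne)
  rw [mem_range] at ha hb
  have hmax : ∀ k, k < 2 * n → g n s k ≤ g n s a := by
    intro k hk
    rw [ha']
    exact le_max' _ _ (mem_image_of_mem _ (mem_range.2 hk))
  have hmin : ∀ k, k < 2 * n → g n s b ≤ g n s k := by
    intro k hk
    rw [hb']
    exact min'_le _ _ (mem_image_of_mem _ (mem_range.2 hk))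
  have hI : I n s = Icc (g n s b) (g n s a) := by
    ext h
    rw [mem_Icc]
    constructor
    · intro hh
      obtain ⟨k, hk, rfl⟩ := mem_image.1 hh
      rw [mem_range] at hk
      exact ⟨hmin k hk, hmax k hk⟩
    · rintro ⟨h1, h2⟩
      have hf : ∀ k, k < 2 * n - 1 → |g n s (k + 1) - g n s k| ≤ 1 :=
        fun k hk => g_step n s k (by omega)
      rcases le_total a b with hab | hab
      · obtain ⟨d, rfl⟩ := Nat.exists_eq_add_of_le hab
        obtain ⟨c, -, h4, h5⟩ := ivt (g n s) (2 * n - 1) hf a d (by omega) h (Or.inr ⟨h1, h2⟩)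
        exact mem_image.2 ⟨c, mem_range.2 (by omega), h5⟩
      · obtain ⟨d, rfl⟩ := Nat.exists_eq_add_of_le hab
        obtain ⟨c, -, h4, h5⟩ := ivt (g n s) (2 * n - 1) hf b d (by omega) h (Or.inl ⟨h1, h2⟩)
        exact mem_image.2 ⟨c, mem_range.2 (by omega), h5⟩
  have hba := hmin a ha
  have hs : span n s = (g n s a - g n s b).toNat := by
    apply le_antisymm
    · unfold span
      refine Finset.sup_le fun k hk => ?_
      rw [mem_product, mem_range, mem_range] at hk
      have h1 := hmax k.1 hk.1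
      have h2 := hmin k.2 hk.2
      unfold g at h1 h2 ⊢
      omega
    · have hmem : (a, b) ∈ range (2 * n) ×ˢ range (2 * n) :=
        mem_product.2 ⟨mem_range.2 ha, mem_range.2 hb⟩
      have h1 := Finset.le_sup (f := fun k : ℕ × ℕ => (g n s k.1 - g n s k.2).toNat) hmem
      unfold span
      unfold g at h1 ⊢
      exact h1
  rw [hI, Int.card_Icc, hs]
  omega

lemma occW_eq (f : ℝ) (n : ℕ) (s : Fin (2 * n) → Fin 4) (hn : 1 ≤ n) :
    occW (bFor f) n s = Real.exp (f - f * n) * Real.exp (f * span n s) := by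
  have hd : ∀ h : ℤ, diag n s h = ((range (2 * n)).filter (fun k => g n s k = h)).card :=
    fun h => rfl
  have hsub : I n s ⊆ Icc (-((2 * n : ℕ) : ℤ)) ((2 * n : ℕ) : ℤ) := by
    intro h hh
    obtain ⟨k, hk, rfl⟩ := mem_image.1 hh
    rw [mem_range] at hk
    have := abs_g_le n s k hk.le
    rw [abs_le] at this
    rw [mem_Icc]
    constructor <;> omega
  have hzero : ∀ h, h ∉ I n s → diag n s h = 0 := by
    intro h hh
    rw [hd, card_eq_zero, filter_eq_empty_iff]
    intro k hk he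
    exact hh (mem_image.2 ⟨k, hk, he⟩)
  have hpos : ∀ h ∈ I n s, diag n s h ≠ 0 := by
    intro h hh
    obtain ⟨k, hk, he⟩ := mem_image.1 hh
    rw [hd]
    exact (card_pos.2 ⟨k, mem_filter.2 ⟨hk, he⟩⟩).ne'
  have hsum : ∑ h ∈ I n s, ((diag n s h : ℕ) : ℝ) = 2 * n := by
    have h1 := card_eq_sum_card_image (g n s) (range (2 * n))
    rw [card_range] at h1
    have h2 : ∑ h ∈ I n s, diag n s h = 2 * n := h1.symm
    exact_mod_cast h2
  unfold occW
  rw [← prod_subset hsub (fun h _ hh => by rw [hzero h hh]; simp [bFor])]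
  rw [prod_congr rfl (fun h hh => show bFor f (diag n s h) =
    Real.exp (-(f * ((diag n s h : ℝ) - 2) / 2)) by rw [bFor, if_neg (hpos h hh)])]
  rw [← Real.exp_sum, ← Real.exp_add]
  congr 1
  have h3 : ∑ h ∈ I n s, (-(f * ((diag n s h : ℝ) - 2) / 2)) =
      -(f / 2) * ∑ h ∈ I n s, ((diag n s h : ℕ) : ℝ) + f * (I n s).card := by
    rw [mul_sum, card_eq_sum_ones, Nat.cast_sum, mul_sum, ← sum_add_distrib]
    refine sum_congr rfl fun h _ => ?_
    push_cast
    ring
  rw [h3, hsum, card_I n s hn]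
  push_cast
  ring

lemma cdf (f : ℝ) (n : ℕ) (x : ℝ) (hn : 1 ≤ n) : forceCdf f n x = occCdf (bFor f) n x := by
  classical
  set K : ℝ := Real.exp (f - f * n) with hK
  have hK0 : 0 < K := Real.exp_pos _
  have hw : ∀ s : Fin (2 * n) → Fin 4, occW (bFor f) n s = K * Real.exp (f * span n s) :=
    fun s => occW_eq f n s hn
  have hZ : occZ (bFor f) n = K * forceZ f n := by
    unfold occZ forceZ
    rw [mul_sum]
    exact sum_congr rfl fun s _ => hw s
  have hA : ∑ t ∈ SAP n, occW (bFor f) n t * area n t =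
      K * ∑ t ∈ SAP n, Real.exp (f * span n t) * area n t := by
    rw [mul_sum]
    refine sum_congr rfl fun s _ => ?_
    rw [hw s]
    ring
  unfold forceCdf occCdf
  rw [hZ, hA]
  have h1 : ∑ s ∈ (SAP n).filter (fun s => area n s * (K * forceZ f n) ≤
      x * (K * ∑ t ∈ SAP n, Real.exp (f * span n t) * area n t)), occW (bFor f) n s =
      K * ∑ s ∈ (SAP n).filter (fun s => area n s * forceZ f n ≤
        x * ∑ t ∈ SAP n, Real.exp (f * span n t) * area n t), Real.exp (f * span n s) := by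
    have hfil : (SAP n).filter (fun s => area n s * (K * forceZ f n) ≤
        x * (K * ∑ t ∈ SAP n, Real.exp (f * span n t) * area n t)) =
        (SAP n).filter (fun s => area n s * forceZ f n ≤
        x * ∑ t ∈ SAP n, Real.exp (f * span n t) * area n t) := by
      apply filter_congr
      intro s _
      rw [show area n s * (K * forceZ f n) = K * (area n s * forceZ f n) by ring,
        show x * (K * ∑ t ∈ SAP n, Real.exp (f * span n t) * area n t) =
          K * (x * ∑ t ∈ SAP n, Real.exp (f * span n t) * area n t) by ring]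
      exact mul_le_mul_iff_right₀ hK0
    rw [hfil]
    exact (sum_congr rfl fun s _ => hw s).trans (mul_sum _ _ _).symm
  rw [h1]
  exact (mul_div_mul_left _ _ hK0.ne').symm

lemma ntr (f : ℝ) (hf : 0 < f) : NTR (bFor f) := by
  have hv : ∀ v : ℕ, 2 ≤ v → bFor f v = Real.exp (-(f * ((v : ℝ) - 2) / 2)) := by
    intro v hv
    rw [bFor, if_neg (by omega)]
  refine ⟨⟨?_, ?_, ?_, ?_, ?_, ?_⟩, 3, by norm_num, ?_⟩
  · simp [bFor]
  · rw [bFor, if_neg one_ne_zero]
    exact Real.exp_pos _
  · rw [hv 2 le_rfl]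
    norm_num
  · intro v
    unfold bFor
    split_ifs
    · norm_num
    · exact (Real.exp_pos _).le
  · intro v h
    rw [hv v h, hv (v + 1) (by omega), Real.exp_le_exp]
    push_cast
    nlinarith
  · intro v h
    rw [hv v h, hv (v + 1) (by omega), hv (v + 2) (by omega), ← Real.exp_add, sq, ← Real.exp_add,
      Real.exp_le_exp]
    push_cast
    nlinarith
  · rw [hv 3 (by norm_num), Real.exp_lt_one_iff]
    push_cast
    linarith

end Pool.Agent.OC.FOR

namespace Pool.Agent.OC

theorem for_thm : FOR_Stmt := fun f hf => ⟨FOR.ntr f hf, fun n x hn => FOR.cdf f n x hn⟩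

end Pool.Agent.OC
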