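import Pool.Agent.OC.Fps

/-!
# Convex occupation energies (MP_f6626d_co): FPL, pairs without common cut in the middle third
(helper74)
-/

set_option autoImplicit false

namespace Pool.Agent.OC.FPL

open Finset Pool.Agent.Lib27 Pool.Agent.SapR
open Pool.Agent.MG (Bri Brp Irr Nc Fp Fpp Bad SB CC SW dip cc chi rfa)
open scoped NNReal ENNReal

variable {b : ℕ → ℝ≥0}

theorem le_ext {l : Wd} {p : ℤ × ℤ} (hp : p ∈ vt 0 l) : (lev p).natAbs ≤ ext l :=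
  Finset.le_sup (f := fun p => (lev p).natAbs) (List.mem_toFinset.2 hp)

theorem occ_ext {l : Wd} {k : ℤ} (hk : ext l < k.natAbs) : occ l k = 0 := by
  rw [occ_eq_zero]
  rintro p hp rfl
  exact absurd (le_ext hp) (not_le.2 hk)

theorem dip_le_ext (l : Wd) : dip l ≤ ext l := by
  obtain ⟨p, hp, he⟩ := MG.dip_mem l
  have := le_ext hp
  omega

end Pool.Agent.OC.FPL

namespace Pool.Agent.OC

open Finset Pool.Agent.Lib27 Pool.Agent.SapR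
open Pool.Agent.MG (Bri Brp Irr Nc Fp Fpp Bad SB CC SW dip cc chi rfa)
open scoped NNReal ENNReal

theorem fpl_thm : FPL_Stmt := by
  intro b z hW K hK
  let D : Set Wd → Set Wd → Set (Wd × Wd) → Set (Wd × Wd) := fun A A' Q => {p | ∃ (l l' : Wd)
    (q : Wd × Wd), l ∈ A ∧ l' ∈ A' ∧ q ∈ Q ∧ l ∈ Lp ∧ l' ∈ Lp ∧ q ∈ Brp (3 * K) ∧
      l ++ q.1 ∈ Fp (3 * K) ∧ l' ++ q.2 ∈ Fp (3 * K) ∧ p = (l ++ q.1, l' ++ q.2)}
  have hD : ∀ A A' Q, gs (Wt b z) (D A A' Q) ≤ gs (Wl b z) A * gs (Wl b z) A' * gs (Wp b z) Q := by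
    intro A A' Q
    refine gs_split3 (fun (l l' : Wd) (q : Wd × Wd) => (l ++ q.1, l' ++ q.2)) ?_
    rintro p ⟨l, l', q, hl, hl', hq, hlL, hlL', hqB, h1, h2, rfl⟩
    exact ⟨l, l', q, hl, hl', hq, rfl, FPS.Wt_split_le hW z hlL.2 hlL'.2 hqB.1 hqB.2 h1 h2⟩
  have hsub : {p | p ∈ Fpp (3 * K) ∧ SB K p} ⊆
      (D {l | l ∈ Lp ∧ K ≤ ext l} Lp (Brp (3 * K)) ∪ D Lp {l | l ∈ Lp ∧ K ≤ ext l} (Brp (3 * K))) ∪
        D Lp Lp (Nc K (2 * K) (3 * K)) := by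
    rintro ⟨s, s'⟩ ⟨⟨hs, hs'⟩, hsb⟩
    simp only at hs hs'
    obtain ⟨l, B, hlS, hB, rfl, hl⟩ := MG.Fp_split hs
    obtain ⟨l', B', hlS', hB', rfl, hl'⟩ := MG.Fp_split hs'
    have hL : l ∈ Lp := ⟨hlS, hl⟩
    have hL' : l' ∈ Lp := ⟨hlS', hl'⟩
    rcases le_or_gt K (ext l) with h1 | h1
    · exact Or.inl (Or.inl ⟨l, l', (B, B'), ⟨hL, h1⟩, hL', ⟨hB, hB'⟩, hL, hL', ⟨hB, hB'⟩, hs, hs',
        rfl⟩)
    rcases le_or_gt K (ext l') with h2 | h2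
    · exact Or.inl (Or.inr ⟨l, l', (B, B'), hL, ⟨hL', h2⟩, ⟨hB, hB'⟩, hL, hL', ⟨hB, hB'⟩, hs, hs',
        rfl⟩)
    refine Or.inr ⟨l, l', (B, B'), hL, hL', ⟨⟨hB, hB'⟩, ?_⟩, hL, hL', ⟨hB, hB'⟩, hs, hs', rfl⟩
    intro k hk1 hk2 hcc
    refine hsb k hk1 hk2 ?_
    have e1 : occ (l ++ B) k = occ B k := by
      rw [FPS.occ_ne hl (by omega), FPL.occ_ext (by omega), zero_add]
    have e2 : occ (l' ++ B') k = occ B' k := by
      rw [FPS.occ_ne hl' (by omega), FPL.occ_ext (by omega), zero_add]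
    unfold occ at e1 e2
    unfold CC
    simp only
    rw [e1, e2]
    exact hcc
  refine (gs_mono _ hsub).trans ((gs_union _ _ _).trans ?_)
  refine add_le_add ((gs_union _ _ _).trans ?_) ?_
  · refine (add_le_add (hD _ _ _) (hD _ _ _)).trans (le_of_eq ?_)
    unfold Y
    ring
  · refine (hD _ _ _).trans (le_of_eq ?_)
    ring

end Pool.Agent.OC
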