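import Pool.Agent.OC.Blk

/-!
# Convex occupation energies (MP_f6626d_co): FPS, first passage words are loops followed by bridges
(helper74)
-/

set_option autoImplicit false

namespace Pool.Agent.OC.FPS

open Finset Pool.Agent.Lib27 Pool.Agent.SapR
open Pool.Agent.MG (Bri Brp Irr Nc Fp Fpp Bad SB CC SW dip cc chi rfa)
open scoped NNReal ENNReal

variable {b : ℕ → ℝ≥0}

theorem occ_zero {l B : Wd} {H : ℕ} (hB : B ∈ Bri H) (hl : lev (ep 0 l) = 0) :
    occ (l ++ B) 0 = occ l 0 := by
  have h1 := occ_append_eq l B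
  rw [hl, occ_Bri_zero hB] at h1
  omega

theorem occ_ne {l B : Wd} (hl : lev (ep 0 l) = 0) {k : ℤ} (hk : k ≠ 0) :
    occ (l ++ B) k = occ l k + occ B k := by
  rw [occ_append_of_ne l B (by rw [hl]; exact hk.symm), hl, sub_zero]

/-- the weight of a pair of loops followed by bridges -/
theorem Wt_split_le (h : IsW b) (z : ℝ≥0∞) {H : ℕ} {l l' B B' : Wd} (hl : lev (ep 0 l) = 0)
    (hl' : lev (ep 0 l') = 0) (hB : B ∈ Bri H) (hB' : B' ∈ Bri H) (hs : l ++ B ∈ Fp H)
    (hs' : l' ++ B' ∈ Fp H) :
    Wt b z (l ++ B, l' ++ B') ≤ Wl b z l * Wl b z l' * Wp b z (B, B') := by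
  unfold Wt Wl Wp
  simp only
  have e1 : BW b (fun k => occ (l ++ B) k + occ (l' ++ B') k + if k < 0 then 2 else 0) ≤
      BW b (fun k => (occ l k + if k = 0 then 1 else 2)) *
        BW b (fun k => (occ l' k + if k = 0 then 1 else 2)) *
        BW b (fun k => occ B k + occ B' k) := by
    have h1 : BW b (fun k => occ (l ++ B) k + occ (l' ++ B') k + if k < 0 then 2 else 0) ≤
        BW b (fun k => 2 + ((occ l k - if k = 0 then 1 else 0) +
          (occ l' k - if k = 0 then 1 else 0))) * BW b (fun k => occ B k + occ B' k) := by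
      refine BW_le_mul h fun k => ?_
      rcases lt_trichotomy k 0 with hk | rfl | hk
      · rw [occ_ne hl hk.ne, occ_ne hl' hk.ne, occ_Bri_out hB (Or.inl hk),
          occ_Bri_out hB' (Or.inl hk), if_pos hk, if_neg hk.ne]
        rw [h.eq_one (show 0 + 0 ≤ 2 by omega), mul_one]
        refine h.antitone ?_
        omega
      · rw [occ_zero hB hl, occ_zero hB' hl', occ_Bri_zero hB, occ_Bri_zero hB',
          if_neg (lt_irrefl _), if_pos rfl, h.eq_one (show 1 + 1 ≤ 2 by omega), mul_one]
        have := occ_zero_pos l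
        have := occ_zero_pos l'
        refine h.antitone ?_
        omega
      · rw [occ_ne hl hk.ne', occ_ne hl' hk.ne', if_neg (not_lt.2 hk.le), if_neg hk.ne']
        rcases le_or_gt k (H : ℤ) with hkH | hkH
        · have h2 := BLK.occ_Fp_pos (MG.Bri_sub_Fp _ hB) hk.le hkH
          have h3 := BLK.occ_Fp_pos (MG.Bri_sub_Fp _ hB') hk.le hkH
          have h4 := h.sub2 (show 2 ≤ occ B k + occ B' k by omega) (occ l k + occ l' k)
          rw [show occ l k + occ B k + (occ l' k + occ B' k) + 0 =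
            (occ B k + occ B' k) + (occ l k + occ l' k) by ring, mul_comm, Nat.sub_zero,
            Nat.sub_zero]
          exact h4
        · have h2 := BLK.occ_Fp_above hs hkH
          have h3 := BLK.occ_Fp_above hs' hkH
          rw [occ_ne hl hk.ne'] at h2
          rw [occ_ne hl' hk.ne'] at h3
          rw [show occ l k = 0 by omega, show occ B k = 0 by omega, show occ l' k = 0 by omega,
            show occ B' k = 0 by omega]
          rw [h.eq_one (show 0 + 0 + (0 + 0) + 0 ≤ 2 by omega),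
            h.eq_one (show 2 + (0 - 0 + (0 - 0)) ≤ 2 by omega), mul_one]
    refine h1.trans (mul_le_mul_left ?_ _)
    refine BW_le_mul h fun k => ?_
    have h2 := h.sub3 (occ l k - if k = 0 then 1 else 0) (occ l' k - if k = 0 then 1 else 0)
    have h3 : ∀ w : Wd, 2 + (occ w k - if k = 0 then 1 else 0) =
        occ w k + if k = 0 then 1 else 2 := by
      intro w
      split_ifs with hk
      · have := occ_zero_pos w
        rw [hk]
        omega
      · omega
    rw [← h3 l, ← h3 l', ← add_assoc]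
    exact h2
  rw [List.length_append, List.length_append]
  rw [show l.length + B.length + (l'.length + B'.length) =
    l.length + l'.length + (B.length + B'.length) by ring, pow_add, pow_add]
  calc _ ≤ z ^ l.length * z ^ l'.length * z ^ (B.length + B'.length) *
        (BW b (fun k => (occ l k + if k = 0 then 1 else 2)) *
        BW b (fun k => (occ l' k + if k = 0 then 1 else 2)) *
        BW b (fun k => occ B k + occ B' k)) := mul_le_mul_right e1 _
    _ = _ := by ring

theorem dip_append {l B : Wd} {H : ℕ} (hB : B ∈ Bri H) (hl : lev (ep 0 l) = 0) :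
    dip (l ++ B) = dip l := by
  obtain ⟨p, hp, he⟩ := MG.dip_mem l
  obtain ⟨q, hq, hf⟩ := MG.dip_mem (l ++ B)
  have h1 := MG.dip_le (MG.mem_vt_append_left B hp)
  have h2 : -(dip l : ℤ) ≤ lev q := by
    have h3 : 0 < occ (l ++ B) (lev q) := occ_pos.2 ⟨q, hq, rfl⟩
    rcases eq_or_ne (lev q) 0 with h0 | h0
    · rw [h0]; omega
    · rw [occ_ne hl h0] at h3
      rcases Nat.eq_zero_or_pos (occ l (lev q)) with h4 | h4
      · have h5 : 0 < occ B (lev q) := by omega
        obtain ⟨u, hu, hu2⟩ := occ_pos.1 h5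
        have := (MG.Bri_lev hB hu).1
        omega
      · obtain ⟨u, hu, hu2⟩ := occ_pos.1 h4
        have := MG.dip_le hu
        omega
  omega

end Pool.Agent.OC.FPS

namespace Pool.Agent.OC

open Finset Pool.Agent.Lib27 Pool.Agent.SapR
open Pool.Agent.MG (Bri Brp Irr Nc Fp Fpp Bad SB CC SW dip cc chi rfa)
open scoped NNReal ENNReal

theorem fps_thm : FPS_Stmt := by
  intro b z hW H f g
  unfold Y
  refine gs_split3 (fun (l l' : Wd) (q : Wd × Wd) => (l ++ q.1, l' ++ q.2)) ?_
  rintro ⟨s, s'⟩ ⟨hs, hs'⟩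
  simp only at hs hs'
  obtain ⟨l, B, hlS, hB, rfl, hl⟩ := MG.Fp_split hs
  obtain ⟨l', B', hlS', hB', rfl, hl'⟩ := MG.Fp_split hs'
  refine ⟨l, l', (B, B'), ⟨hlS, hl⟩, ⟨hlS', hl'⟩, ⟨hB, hB'⟩, rfl, ?_⟩
  simp only
  rw [FPS.dip_append hB hl, FPS.dip_append hB' hl']
  calc _ ≤ Wl b z l * Wl b z l' * Wp b z (B, B') * (f (dip l) * g (dip l')) :=
        mul_le_mul_left (FPS.Wt_split_le hW z hl hl' hB hB' hs hs') _
    _ = _ := by ring

end Pool.Agent.OC
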