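import Pool.Agent.OC.Stmts
import Pool.Agent.OC.Lib
import Pool.Agent.Lib_helper74.MG.Renew

/-!
# Convex occupation energies (MP_f6626d_co): free pieces are pairs of bridges without cut
-/

set_option autoImplicit false

namespace Pool.Agent.OC

open Finset Pool.Agent.Lib27 Pool.Agent.SapR
open Pool.Agent.MG (Bri Brp Irr Nc Fp Fpp Bad SB CC SW dip cc chi rfa)
open scoped NNReal ENNReal

namespace FREE

variable {b : ℕ → ℝ≥0} {z : ℝ≥0∞}

/-- the weight of a free piece -/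
noncomputable def Wf (b : ℕ → ℝ≥0) (z : ℝ≥0∞) (p : Wd × Wd) : ℝ≥0∞ :=
  z ^ (p.1.length + p.2.length) * BW b (pocc p)

theorem Wf_eq {p : Wd × Wd} (hp : FreePiece p.1 p.2) : Wf b z p = Wp b z (p.1, rv p.2) := by
  have h2 : lev (ep 0 p.2) = -ht p := hp.1.2.1
  unfold Wf Wp
  simp only
  rw [MG.rv_length]
  congr 1
  refine BW_congr fun k => ?_
  show cnt (vt 0 p.1) k + cnt (vt 0 p.2) (k - ht p) = occ p.1 k + occ (rv p.2) k
  rw [occ_rv, h2, ← sub_eq_add_neg]
  rfl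

/-- all pairs of bridges without common cut, with the height -/
def TS : Set (ℕ × (Wd × Wd)) := {t | t.2 ∈ Irr (t.1 + 1)}

theorem sum_TS : ∑' j : ℕ, ww b z (j + 1) = gs (fun t : ℕ × (Wd × Wd) => Wp b z t.2) TS := by
  rw [gs_indicator]
  refine Eq.trans ?_ (ENNReal.tsum_prod (f := fun (j : ℕ) (q : Wd × Wd) =>
      TS.indicator (fun t => Wp b z t.2) (j, q))).symm
  congr 1
  funext j
  show gs (Wp b z) (Irr (j + 1)) = _
  rw [gs_indicator]
  refine tsum_congr fun q => ?_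
  by_cases hq : q ∈ Irr (j + 1)
  · rw [Set.indicator_of_mem hq, Set.indicator_of_mem (show (j, q) ∈ TS from hq)]
  · rw [Set.indicator_of_notMem hq, Set.indicator_of_notMem (show (j, q) ∉ TS from hq)]

theorem ht_eq {p : Wd × Wd} (hp : FreePiece p.1 p.2) :
    lev (ep 0 p.1) = (((ht p).toNat - 1 : ℕ) : ℤ) + 1 := by
  have h1 := hp.1.1
  have h2 : ht p = lev (ep 0 p.1) := rfl
  omega

end FREE

open FREE in
theorem free_thm : FREE_Stmt := by
  intro b z _
  rw [sum_TS]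
  apply le_antisymm
  · refine gs_le_of_inj _ (fun t : ℕ × (Wd × Wd) => Wp b z t.2)
      (fun p : Wd × Wd => ((ht p).toNat - 1, (p.1, rv p.2))) ?_ ?_ ?_
    · intro p hp
      exact MG.free_iff.2 ⟨hp, ht_eq hp⟩
    · intro p _ q _ hpq
      have h1 : p.1 = q.1 := congrArg (fun t => t.2.1) hpq
      have h2 : rv p.2 = rv q.2 := congrArg (fun t => t.2.2) hpq
      exact Prod.ext h1 (MG.rv_injective h2)
    · intro p hp
      exact (Wf_eq (b := b) (z := z) hp).le
  · refine gs_le_of_inj (fun t : ℕ × (Wd × Wd) => Wp b z t.2) _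
      (fun t : ℕ × (Wd × Wd) => ((t.2.1, rv t.2.2) : Wd × Wd)) ?_ ?_ ?_
    · intro t ht'
      have h1 : (t.2.1, rv (rv t.2.2)) ∈ Irr (t.1 + 1) := by rw [rv_rv]; exact ht'
      exact (MG.free_iff (p := (t.2.1, rv t.2.2))).1 h1 |>.1
    · intro t ht1 t' ht2 h
      have h' : (t.2.1, rv t.2.2) = (t'.2.1, rv t'.2.2) := h
      have h1 : t.2.1 = t'.2.1 := (Prod.mk.inj h').1
      have h2 : t.2.2 = t'.2.2 := MG.rv_injective (Prod.mk.inj h').2
      have h3 : lev (ep 0 t.2.1) = ((t.1 + 1 : ℕ) : ℤ) := ht1.1.1.2.1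
      have h4 : lev (ep 0 t'.2.1) = ((t'.1 + 1 : ℕ) : ℤ) := ht2.1.1.2.1
      rw [h1] at h3
      have h5 : t.1 = t'.1 := by omega
      exact Prod.ext h5 (Prod.ext h1 h2)
    · intro t ht'
      have h1 : (t.2.1, rv (rv t.2.2)) ∈ Irr (t.1 + 1) := by rw [rv_rv]; exact ht'
      have h2 : FreePiece t.2.1 (rv t.2.2) := (MG.free_iff (p := (t.2.1, rv t.2.2))).1 h1 |>.1
      have h3 := Wf_eq (b := b) (z := z) (p := (t.2.1, rv t.2.2)) h2
      simp only at h3
      rw [rv_rv] at h3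
      exact h3.symm.le

end Pool.Agent.OC
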