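import Pool.Agent.OC.Stmts

/-!
# Convex occupation energies (MP_f6626d_co): module OC_HIGH, the threshold of the high levels
-/

set_option autoImplicit false

namespace Pool.Agent.OC

open Finset
open scoped NNReal ENNReal

namespace HIGH

/-- a root: `q < 1` with `s ≤ q ^ V` -/
theorem exists_root (s : ℝ≥0) (hs : s < 1) (V : ℕ) (hV : V ≠ 0) :
    ∃ q : ℝ≥0, 0 < q ∧ q < 1 ∧ s ≤ q ^ V := by
  have hm0 : 0 < max s (1 / 2) := lt_max_of_lt_right (by norm_num)
  have hm1 : max s (1 / 2) < 1 := max_lt hs (by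
    rw [div_lt_one (by norm_num)]
    norm_num)
  refine ⟨(max s (1 / 2)) ^ ((V : ℝ)⁻¹), NNReal.rpow_pos hm0, NNReal.rpow_lt_one hm1 ?_, ?_⟩
  · have : 0 < (V : ℝ) := by exact_mod_cast Nat.pos_of_ne_zero hV
    positivity
  · rw [NNReal.rpow_inv_natCast_pow _ hV]
    exact le_max_left _ _

/-- some level is high -/
theorem exists_high {b : ℕ → ℝ≥0} (hb : IsW b) {q s : ℝ≥0} {v0 : ℕ} (hq0 : 0 < q) (hq1 : q < 1)
    (hv0 : 3 ≤ v0) (hs : s ≤ q ^ v0) (hbs : b v0 ≤ s) :
    ∃ v, 2 ≤ v ∧ v ≤ v0 ∧ b (v + 2) ≤ q * b v := by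
  by_contra hcon
  push Not at hcon
  have key : ∀ j : ℕ, 1 ≤ j → 2 * j ≤ v0 → q ^ j < b (2 + 2 * j) := by
    intro j hj
    induction j, hj using Nat.le_induction with
    | base =>
      intro h
      have h1 := hcon 2 le_rfl (by omega)
      rw [hb.b2, mul_one] at h1
      simpa using h1
    | succ j hj ih =>
      intro h
      have h1 := hcon (2 + 2 * j) (by omega) (by omega)
      have h2 := ih (by omega)
      calc q ^ (j + 1) = q * q ^ j := by rw [pow_succ, mul_comm]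
        _ < q * b (2 + 2 * j) := mul_lt_mul_of_pos_left h2 hq0
        _ < b (2 + 2 * j + 2) := h1
        _ = b (2 + 2 * (j + 1)) := by rw [show 2 + 2 * j + 2 = 2 + 2 * (j + 1) by ring]
  have h1 := key ((v0 - 1) / 2) (by omega) (by omega)
  have h2 : b (2 + 2 * ((v0 - 1) / 2)) ≤ b v0 := hb.antitone (by omega)
  have h3 : q ^ v0 ≤ q ^ ((v0 - 1) / 2) := pow_le_pow_of_le_one zero_le hq1.le (by omega)
  exact absurd (h1.trans_le (h2.trans (hbs.trans (hs.trans h3)))) (lt_irrefl _)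

/-- the high levels are closed upwards -/
theorem high_up {b : ℕ → ℝ≥0} (hb : IsW b) {q : ℝ≥0} {v1 : ℕ} (hv1 : 2 ≤ v1)
    (h1 : b (v1 + 2) ≤ q * b v1) : ∀ v, v1 ≤ v → b (v + 2) ≤ q * b v := by
  intro v hv
  induction v, hv using Nat.le_induction with
  | base => exact h1
  | succ v hv ih =>
    rcases eq_or_ne (b v) 0 with h0 | h0
    · have h2 : b (v + 1 + 2) ≤ b v := hb.antitone (by omega)
      rw [h0] at h2
      exact h2.trans zero_le
    · have h3 : 0 < b v := pos_iff_ne_zero.2 h0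
      refine le_of_mul_le_mul_left ?_ h3
      calc b v * b (v + 1 + 2) = b v * b (v + 2 + 1) := by rw [show v + 1 + 2 = v + 2 + 1 by ring]
        _ ≤ b (v + 1) * b (v + 2) := hb.ratio (by omega) (by omega)
        _ ≤ b (v + 1) * (q * b v) := mul_le_mul_right ih _
        _ = b v * (q * b (v + 1)) := by ring

/-- lower bound below the threshold -/
theorem low_bound {b : ℕ → ℝ≥0} (hb : IsW b) {q : ℝ≥0} (hq1 : q < 1) {v1 : ℕ} (hv1 : 2 < v1)
    (hlt : ∀ v, 2 ≤ v → v < v1 → q * b v < b (v + 2)) : ∀ j, j ≤ v1 + 1 → q ^ j ≤ b j := by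
  intro j
  induction j using Nat.strong_induction_on with
  | _ j ih =>
    intro hj
    rcases Nat.lt_or_ge j 3 with h3 | h3
    · rw [hb.eq_one (by omega)]
      exact pow_le_one₀ zero_le hq1.le
    · rcases Nat.lt_or_ge j 4 with h4 | h4
      · have hj3 : j = 3 := by omega
        subst hj3
        have h5 := hlt 2 le_rfl hv1
        rw [hb.b2, mul_one] at h5
        calc q ^ 3 ≤ q ^ 1 := pow_le_pow_of_le_one zero_le hq1.le (by norm_num)
          _ = q := pow_one q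
          _ ≤ b (2 + 2) := h5.le
          _ ≤ b 3 := hb.antitone (by norm_num)
      · have h5 := hlt (j - 2) (by omega) (by omega)
        have h6 := ih (j - 2) (by omega) (by omega)
        rw [show j - 2 + 2 = j by omega] at h5
        calc q ^ j ≤ q ^ (j - 2 + 1) := pow_le_pow_of_le_one zero_le hq1.le (by omega)
          _ = q * q ^ (j - 2) := by rw [pow_succ, mul_comm]
          _ ≤ q * b (j - 2) := mul_le_mul_right h6 _
          _ ≤ b j := h5.le

end HIGH

/-- OC_HIGH -/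
theorem high_thm : HIGH_Stmt := by
  intro c hc
  obtain ⟨hcW, v0, hv0⟩ := hc
  have hv3 : 3 ≤ v0 := by
    by_contra h
    rw [hcW.eq_one (by omega)] at hv0
    exact lt_irrefl _ hv0
  obtain ⟨q, hq0, hq1, hqV⟩ := HIGH.exists_root (c v0) hv0 v0 (by omega)
  refine ⟨q, q ^ (v0 + 1), v0, hq0, hq1, pow_pos hq0 _, pow_le_one₀ zero_le hq1.le, by omega, ?_⟩
  intro b hb hbc
  classical
  have hex := HIGH.exists_high hb hq0 hq1 hv3 hqV (hbc v0)
  have hex' : ∃ v, 2 ≤ v ∧ b (v + 2) ≤ q * b v := by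
    obtain ⟨v, h1, -, h2⟩ := hex
    exact ⟨v, h1, h2⟩
  set v1 := Nat.find hex' with hv1def
  obtain ⟨h2, hhi⟩ := Nat.find_spec hex'
  rw [← hv1def] at h2 hhi
  have hle : v1 ≤ v0 := by
    obtain ⟨v, h1, h3, h4⟩ := hex
    exact (Nat.find_min' hex' ⟨h1, h4⟩).trans h3
  refine ⟨v1, h2, hle, HIGH.high_up hb h2 hhi, ?_⟩
  rcases Nat.lt_or_ge 2 v1 with h | h
  · right
    have hlt : ∀ v, 2 ≤ v → v < v1 → q * b v < b (v + 2) := by
      intro v hv hvv
      by_contra hcon
      exact Nat.find_min hex' hvv ⟨hv, not_lt.1 hcon⟩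
    calc q ^ (v0 + 1) ≤ q ^ (v1 + 1) := pow_le_pow_of_le_one zero_le hq1.le (by omega)
      _ ≤ b (v1 + 1) := HIGH.low_bound hb hq1 h hlt (v1 + 1) le_rfl
  · left
    omega

end Pool.Agent.OC
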