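import Pool.Agent.OC.Stmts
import Pool.Agent.OC.Lib

/-!
# Convex occupation energies (MP_f6626d_co): INSA, the insertion can be undone
-/

set_option autoImplicit false

namespace Pool.Agent.OC

open Finset Pool.Agent.Lib27 Pool.Agent.SapR

namespace INSA

theorem lev_add (p q : ℤ × ℤ) : lev (p + q) = lev p + lev q := by
  unfold lev
  simp only [Prod.fst_add, Prod.snd_add]
  ring

theorem lev_zero : lev (0 : ℤ × ℤ) = 0 := rfl

theorem lev_dv (s : Fin 4) : lev (dv s) = 1 ∨ lev (dv s) = -1 := by
  fin_cases s <;> simp [lev, dv]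

theorem lev_ep_cons (s : Fin 4) (t : Wd) : lev (ep 0 (s :: t)) = lev (dv s) + lev (ep 0 t) := by
  rw [ep_cons, zero_add, ep_eq, lev_add]
  ring

theorem del_cons (h w l : ℤ) (s : Fin 4) (t : Wd) : del h w l (s :: t) =
    if h ≤ l ∧ l ≤ h + w ∧ h ≤ l + lev (dv s) ∧ l + lev (dv s) ≤ h + w then
      del h w (l + lev (dv s)) t
    else s :: del h w (l + lev (dv s)) t := rfl

theorem del_append (h w : ℤ) (u v : Wd) : ∀ l : ℤ,
    del h w l (u ++ v) = del h w l u ++ del h w (l + lev (ep 0 u)) v := by
  induction u with
  | nil =>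
    intro l
    rw [List.nil_append, ep_nil, lev_zero, add_zero]
    rfl
  | cons s t ih =>
    intro l
    rw [List.cons_append, lev_ep_cons, ← add_assoc, del_cons, del_cons, ih]
    split_ifs
    · rfl
    · rfl

theorem del_flat (h w : ℤ) (u : Wd) : ∀ l : ℤ,
    (∀ q ∈ vt 0 u, h ≤ l + lev q ∧ l + lev q ≤ h + w) → del h w l u = [] := by
  induction u with
  | nil => intro l _; rfl
  | cons s t ih =>
    intro l hl
    have h0 := hl 0 (by rw [vt_cons]; exact List.mem_cons_self)
    have h1 : ∀ q ∈ vt 0 t, h ≤ l + lev (dv s) + lev q ∧ l + lev (dv s) + lev q ≤ h + w := by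
      intro q hq
      have h2 := hl (q + dv s) (by
        rw [vt_cons, zero_add, vt_eq]
        exact List.mem_cons_of_mem _ (List.mem_map.2 ⟨q, hq, rfl⟩))
      rw [lev_add] at h2
      constructor <;> omega
    have h3 := h1 0 (mem_vt_self 0 t)
    rw [lev_zero] at h0 h3
    unfold del
    rw [if_pos ⟨by omega, by omega, by omega, by omega⟩]
    exact ih _ h1

theorem rv_lev {w : ℕ} {u : Wd} (hu : Seg w u) : ∀ q ∈ vt 0 (rv u), -(w : ℤ) ≤ lev q ∧ lev q ≤ 0 := by
  intro q hq
  have h1 : q + ep 0 u ∈ vt 0 u := by
    have h2 : q + ep 0 u ∈ (vt 0 (rv u)).map (· + ep 0 u) := List.mem_map.2 ⟨q, hq, rfl⟩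
    rw [MG.vt_rv_map] at h2
    exact List.mem_reverse.1 h2
  have h3 := hu.lev _ h1
  rw [lev_add, hu.ep] at h3
  have h4 : lev ((w : ℤ), (0 : ℤ)) = w := by unfold lev; simp
  rw [h4] at h3
  constructor <;> omega

theorem del_cons_keep {h w l : ℤ} {s : Fin 4} {t : Wd}
    (hk : ¬ (h ≤ l ∧ l ≤ h + w ∧ h ≤ l + lev (dv s) ∧ l + lev (dv s) ≤ h + w)) :
    del h w l (s :: t) = s :: del h w (l + lev (dv s)) t := by
  conv_lhs => unfold del
  rw [if_neg hk]

theorem abv_true {h : ℤ} {p : ℤ × ℤ} {s : Fin 4} :
    abv h p s = true ↔ (h < lev p ∨ h < lev p + lev (dv s)) := by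
  unfold abv
  rw [decide_eq_true_iff, lev_add]

theorem abv_false {h : ℤ} {p : ℤ × ℤ} {s : Fin 4} :
    abv h p s = false ↔ (lev p ≤ h ∧ lev p + lev (dv s) ≤ h) := by
  unfold abv
  rw [decide_eq_false_iff_not, lev_add]
  push Not
  rfl

theorem main (h : ℤ) (w : ℕ) (seg : ℤ → Wd) (hseg : ∀ y, Seg w (seg y)) (A : Wd) :
    ∀ (ty : Bool) (p : ℤ × ℤ), (ty = false → lev p ≤ h) → (ty = true → h ≤ lev p) →
      del h w (lev p + if ty then (w : ℤ) else 0) (ins h seg ty p A) = A := by
  have hlw : lev ((w : ℤ), (0 : ℤ)) = w := by unfold lev; simp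
  induction A with
  | nil => intro ty p _ _; rfl
  | cons s t ih =>
    intro ty p h0 h1
    have hs := lev_dv s
    have hw : 0 < w := (hseg 0).w_pos
    unfold ins
    rw [del_append]
    cases hab : abv h p s with
    | false =>
      have ha := abv_false.1 hab
      have ih' := ih false (p + dv s) (fun _ => by rw [lev_add]; omega) (fun hc => by cases hc)
      rw [lev_add] at ih'
      simp only [Bool.false_eq_true, if_false, add_zero] at ih'
      cases ty with
      | false =>
        simp only [if_true, Bool.false_eq_true, if_false, add_zero, ep_nil, lev_zero]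
        rw [del_cons_keep (by omega), ih']
        rfl
      | true =>
        have h2 := h1 rfl
        simp only [Bool.true_eq_false, if_false, if_true]
        rw [del_flat h w (rv (seg p.2)) (lev p + w) (by
          intro q hq
          have := rv_lev (hseg p.2) q hq
          constructor <;> omega), List.nil_append, MG.lev_ep_rv, (hseg p.2).ep, hlw]
        rw [show lev p + (w : ℤ) + -(w : ℤ) = lev p by ring]
        rw [del_cons_keep (by omega), ih']
    | true =>
      have ha := abv_true.1 hab
      have ih' := ih true (p + dv s) (fun hc => by cases hc) (fun _ => by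
        rw [lev_add]
        cases ty with
        | false => have := h0 rfl; omega
        | true => have := h1 rfl; omega)
      rw [lev_add] at ih'
      simp only [if_true] at ih'
      cases ty with
      | false =>
        have h2 := h0 rfl
        simp only [Bool.false_eq_true, if_false, add_zero]
        rw [del_flat h w (seg p.2) (lev p) (by
          intro q hq
          have := (hseg p.2).lev q hq
          constructor <;> omega), List.nil_append, (hseg p.2).ep, hlw]
        rw [del_cons_keep (by omega)]
        rw [show lev p + (w : ℤ) + lev (dv s) = lev p + lev (dv s) + w by ring, ih']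
      | true =>
        have h2 := h1 rfl
        simp only [if_true, ep_nil, lev_zero, add_zero]
        rw [del_cons_keep (by omega)]
        rw [show lev p + (w : ℤ) + lev (dv s) = lev p + lev (dv s) + w by ring, ih']
        rfl

end INSA

theorem insa_thm : INSA_Stmt := by
  intro h w seg hh hseg A
  have := INSA.main h w seg hseg A false 0 (fun _ => by rw [INSA.lev_zero]; exact hh.le)
    (fun hc => by cases hc)
  rw [INSA.lev_zero] at this
  simpa using this

end Pool.Agent.OC
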