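import Pool.Agent.OC.Stmts
import Pool.Agent.OC.Lib

/-!
# Convex occupation energies (MP_f6626d_co): INSB, the new word is a bridge
-/

set_option autoImplicit false

namespace Pool.Agent.OC.INSB

open Finset Pool.Agent.Lib27 Pool.Agent.SapR
open Pool.Agent.MG (Bri Brp Irr Nc Fp Fpp Bad SB CC SW dip cc chi rfa)

/-- the position in the new word -/
def sh (w : ℕ) (ty : Bool) (p : ℤ × ℤ) : ℤ × ℤ := if ty then p + ((w : ℤ), 0) else p

/-- the vertices together with the types of the steps before and after -/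
def tp (h : ℤ) : Bool → ℤ × ℤ → Wd → List ((ℤ × ℤ) × Bool × Bool)
  | ty, p, [] => [(p, ty, ty)]
  | ty, p, s :: t => (p, ty, abv h p s) :: tp h (abv h p s) (p + dv s) t

/-- the vertices of the new word which belong to a vertex of the old one -/
def Bf (w : ℕ) (seg : ℤ → Wd) (x : (ℤ × ℤ) × Bool × Bool) : List (ℤ × ℤ) :=
  if x.2.1 = x.2.2 then [sh w x.2.1 x.1] else
    if x.2.1 then (vt x.1 (seg x.1.2)).reverse else vt x.1 (seg x.1.2)

theorem tp_fst (h : ℤ) : ∀ (t : Wd) (ty : Bool) (p : ℤ × ℤ),
    (tp h ty p t).map Prod.fst = vt p t := by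
  intro t
  induction t with
  | nil => intro ty p; rfl
  | cons s t ih =>
    intro ty p
    rw [tp, List.map_cons, ih, vt_cons]

theorem ep_seg {w : ℕ} {s : Wd} (hs : ep 0 s = ((w : ℤ), 0)) (p : ℤ × ℤ) :
    ep p s = p + ((w : ℤ), 0) := by
  rw [ep_eq, hs, add_comm]

theorem vt_ins {h : ℤ} {w : ℕ} {seg : ℤ → Wd} (hs : ∀ y, ep 0 (seg y) = ((w : ℤ), 0)) :
    ∀ (t : Wd) (ty : Bool) (p : ℤ × ℤ),
      vt (sh w ty p) (ins h seg ty p t) = ((tp h ty p t).map (Bf w seg)).flatten := by
  intro t
  induction t with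
  | nil =>
    intro ty p
    simp [ins, tp, Bf]
  | cons s t ih =>
    intro ty p
    rw [tp, List.map_cons, List.flatten_cons, ← ih]
    by_cases hty : ty = abv h p s
    · have e1 : ins h seg ty p (s :: t) = s :: ins h seg (abv h p s) (p + dv s) t := by
        rw [ins, if_pos hty, List.nil_append]
      have e2 : Bf w seg (p, ty, abv h p s) = [sh w ty p] := by
        unfold Bf
        rw [if_pos hty]
      have e3 : sh w ty p + dv s = sh w (abv h p s) (p + dv s) := by
        rw [← hty]
        unfold sh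
        split_ifs
        · abel
        · rfl
      rw [e1, e2, vt_cons, e3]
      rfl
    · cases ty with
      | false =>
        have hb : abv h p s = true := by
          cases hh : abv h p s with
          | false => exact absurd hh.symm hty
          | true => rfl
        have e1 : ins h seg false p (s :: t) = seg p.2 ++ s :: ins h seg true (p + dv s) t := by
          rw [ins, if_neg hty, hb]
          rfl
        have e2 : Bf w seg (p, false, abv h p s) = vt p (seg p.2) := by
          unfold Bf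
          rw [if_neg hty]
          rfl
        have e3 : p + ((w : ℤ), 0) + dv s = sh w true (p + dv s) := by
          unfold sh
          rw [if_pos rfl]
          abel
        rw [e1, e2, hb]
        show vt p _ = _
        rw [vt_append, vt_cons, ep_seg (hs _), e3]
        unfold vt
        rw [ep_seg (hs _)]
        simp
      | true =>
        have hb : abv h p s = false := by
          cases hh : abv h p s with
          | true => exact absurd hh.symm hty
          | false => rfl
        have e1 : ins h seg true p (s :: t) = rv (seg p.2) ++ s :: ins h seg false (p + dv s) t := by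
          rw [ins, if_neg hty, hb]
          rfl
        have e2 : Bf w seg (p, true, abv h p s) = (vt p (seg p.2)).reverse := by
          unfold Bf
          rw [if_neg hty]
          rfl
        have e4 : sh w true p = ep p (seg p.2) := by
          rw [ep_seg (hs _)]
          rfl
        have e5 : (vt p (seg p.2)).reverse = vs (ep p (seg p.2)) (rv (seg p.2)) ++ [p] :=
          (vs_rv p (seg p.2)).symm
        rw [e1, e2, hb, e4, vt_append, ep_rv, vt_cons, e5, List.append_assoc]
        rfl

/-- the type and the level -/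
def Inv (h : ℤ) (ty : Bool) (p : ℤ × ℤ) : Prop :=
  (ty = false → lev p ≤ h) ∧ (ty = true → h ≤ lev p)

theorem Inv_step {h : ℤ} {p : ℤ × ℤ} {s : Fin 4} : Inv h (abv h p s) (p + dv s) := by
  have h1 := lev_dv s
  have h2 : lev (p + dv s) = lev p + lev (dv s) := lev_add _ _
  constructor
  · intro hf
    have := of_decide_eq_false hf
    push Not at this
    exact this.2
  · intro ht
    have := of_decide_eq_true ht
    omega

theorem abv_true {h : ℤ} {p : ℤ × ℤ} {s : Fin 4} (hi : Inv h false p) (ha : abv h p s = true) :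
    lev p = h := by
  have h1 := lev_dv s
  have h2 : lev (p + dv s) = lev p + lev (dv s) := lev_add _ _
  have h3 := hi.1 rfl
  have := of_decide_eq_true ha
  omega

theorem abv_false {h : ℤ} {p : ℤ × ℤ} {s : Fin 4} (hi : Inv h true p) (ha : abv h p s = false) :
    lev p = h := by
  have h3 := hi.2 rfl
  have := of_decide_eq_false ha
  push Not at this
  omega

/-- the possible blocks -/
theorem tp_cases {h : ℤ} : ∀ (t : Wd) (ty : Bool) (p : ℤ × ℤ), Inv h ty p →
    ∀ x ∈ tp h ty p t, (x.2.1 = false ∧ x.2.2 = false ∧ lev x.1 ≤ h) ∨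
      (x.2.1 = true ∧ x.2.2 = true ∧ h ≤ lev x.1) ∨
      (x.2.1 ≠ x.2.2 ∧ lev x.1 = h ∧ x.1 ∈ pas h ty p t) := by
  intro t
  induction t with
  | nil =>
    intro ty p hi x hx
    rw [tp, List.mem_singleton] at hx
    subst hx
    cases ty with
    | false => exact Or.inl ⟨rfl, rfl, hi.1 rfl⟩
    | true => exact Or.inr (Or.inl ⟨rfl, rfl, hi.2 rfl⟩)
  | cons s t ih =>
    intro ty p hi x hx
    rw [tp, List.mem_cons] at hx
    rcases hx with rfl | hx
    · by_cases hty : ty = abv h p s
      · rw [← hty]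
        cases ty with
        | false => exact Or.inl ⟨rfl, rfl, hi.1 rfl⟩
        | true => exact Or.inr (Or.inl ⟨rfl, rfl, hi.2 rfl⟩)
      · refine Or.inr (Or.inr ⟨hty, ?_, ?_⟩)
        · cases ty with
          | false =>
            refine abv_true hi (s := s) ?_
            cases hh : abv h p s with
            | false => exact absurd hh.symm hty
            | true => rfl
          | true =>
            refine abv_false hi (s := s) ?_
            cases hh : abv h p s with
            | true => exact absurd hh.symm hty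
            | false => rfl
        · rw [pas, if_neg hty]
          exact List.mem_append_left _ (List.mem_singleton.2 rfl)
    · rcases ih _ _ Inv_step x hx with h1 | h1 | ⟨h1, h2, h3⟩
      · exact Or.inl h1
      · exact Or.inr (Or.inl h1)
      · refine Or.inr (Or.inr ⟨h1, h2, ?_⟩)
        rw [pas]
        exact List.mem_append_right _ h3

theorem ep_ins {h : ℤ} {w : ℕ} {seg : ℤ → Wd} (hs : ∀ y, ep 0 (seg y) = ((w : ℤ), 0)) :
    ∀ (t : Wd) (ty : Bool) (p : ℤ × ℤ), Inv h ty p → h < lev (ep p t) →
      ep (sh w ty p) (ins h seg ty p t) = ep p t + ((w : ℤ), 0) := by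
  intro t
  induction t with
  | nil =>
    intro ty p hi hl
    cases ty with
    | false =>
      have := hi.1 rfl
      rw [ep_nil] at hl
      omega
    | true => rfl
  | cons s t ih =>
    intro ty p hi hl
    rw [ep_cons] at hl ⊢
    rw [← ih _ _ Inv_step hl]
    by_cases hty : ty = abv h p s
    · have e1 : ins h seg ty p (s :: t) = s :: ins h seg (abv h p s) (p + dv s) t := by
        rw [ins, if_pos hty, List.nil_append]
      have e3 : sh w ty p + dv s = sh w (abv h p s) (p + dv s) := by
        rw [← hty]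
        unfold sh
        split_ifs
        · abel
        · rfl
      rw [e1, ep_cons, e3]
    · cases ty with
      | false =>
        have hb : abv h p s = true := by
          cases hh : abv h p s with
          | false => exact absurd hh.symm hty
          | true => rfl
        have e1 : ins h seg false p (s :: t) = seg p.2 ++ s :: ins h seg true (p + dv s) t := by
          rw [ins, if_neg hty, hb]
          rfl
        have e3 : p + ((w : ℤ), 0) + dv s = sh w true (p + dv s) := by
          unfold sh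
          rw [if_pos rfl]
          abel
        rw [e1, hb]
        show ep p _ = _
        rw [ep_append, ep_cons, ep_seg (hs _), e3]
      | true =>
        have hb : abv h p s = false := by
          cases hh : abv h p s with
          | true => exact absurd hh.symm hty
          | false => rfl
        have e1 : ins h seg true p (s :: t) = rv (seg p.2) ++ s :: ins h seg false (p + dv s) t := by
          rw [ins, if_neg hty, hb]
          rfl
        have e4 : sh w true p = ep p (seg p.2) := by
          rw [ep_seg (hs _)]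
          rfl
        rw [e1, hb, e4, ep_append, ep_rv, ep_cons]
        rfl

/-- vertices of a block -/
theorem mem_Bf {h : ℤ} {w : ℕ} {seg : ℤ → Wd} {t : Wd} {ty : Bool} {p : ℤ × ℤ}
    (hi : Inv h ty p) {x : (ℤ × ℤ) × Bool × Bool} (hx : x ∈ tp h ty p t) {v : ℤ × ℤ}
    (hv : v ∈ Bf w seg x) :
    (v = x.1 ∧ lev x.1 ≤ h) ∨ (v = x.1 + ((w : ℤ), 0) ∧ h ≤ lev x.1) ∨
      (lev x.1 = h ∧ x.1 ∈ pas h ty p t ∧ ∃ u ∈ vt 0 (seg x.1.2), v = u + x.1) := by
  unfold Bf at hv
  rcases tp_cases t ty p hi x hx with ⟨h1, h2, h3⟩ | ⟨h1, h2, h3⟩ | ⟨h1, h2, h3⟩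
  · rw [if_pos (h1.trans h2.symm), h1, List.mem_singleton] at hv
    exact Or.inl ⟨hv, h3⟩
  · rw [if_pos (h1.trans h2.symm), h1, List.mem_singleton] at hv
    exact Or.inr (Or.inl ⟨hv, h3⟩)
  · rw [if_neg h1] at hv
    refine Or.inr (Or.inr ⟨h2, h3, ?_⟩)
    have hv' : v ∈ vt x.1 (seg x.1.2) := by
      split_ifs at hv
      · exact List.mem_reverse.1 hv
      · exact hv
    rw [vt_eq, List.mem_map] at hv'
    obtain ⟨u, hu, rfl⟩ := hv'
    exact ⟨u, hu, rfl⟩

theorem nodup_Bf {w : ℕ} {seg : ℤ → Wd} (hs : ∀ y, (vt 0 (seg y)).Nodup)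
    (x : (ℤ × ℤ) × Bool × Bool) : (Bf w seg x).Nodup := by
  unfold Bf
  split_ifs
  · exact List.nodup_singleton _
  · rw [List.nodup_reverse, nodup_vt]
    exact hs _
  · rw [nodup_vt]
    exact hs _

theorem lev_w (w : ℤ) : lev (w, 0) = w := by unfold lev; simp

/-- blocks of different vertices are disjoint -/
theorem disj_Bf {h : ℤ} {w : ℕ} {seg : ℤ → Wd} {t : Wd} {ty : Bool} {p : ℤ × ℤ}
    (hs : ∀ y, Seg w (seg y)) (yy : ℤ) (hflat : ∀ y, y ≠ yy → ∀ v ∈ vt 0 (seg y), v.2 = 0)
    (hyy : ∀ q ∈ pas h ty p t, q.2 ≤ yy)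
    (hi : Inv h ty p) {x x' : (ℤ × ℤ) × Bool × Bool} (hx : x ∈ tp h ty p t)
    (hx' : x' ∈ tp h ty p t) (hne : x.1 ≠ x'.1) : List.Disjoint (Bf w seg x) (Bf w seg x') := by
  intro v hv hv'
  have hw := (hs 0).w_pos
  rcases mem_Bf hi hx hv with ⟨h1, h2⟩ | ⟨h1, h2⟩ | ⟨h1, h2, u, h3, h4⟩ <;>
  rcases mem_Bf hi hx' hv' with ⟨h1', h2'⟩ | ⟨h1', h2'⟩ | ⟨h1', h2', u', h3', h4'⟩
  · exact hne (h1.symm.trans h1')
  · have e1 := congrArg lev h1
    have e2 := congrArg lev h1'
    rw [lev_add, lev_w] at e2
    omega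
  · have e1 := congrArg lev h1
    have e2 := congrArg lev h4'
    rw [lev_add] at e2
    have e3 := ((hs _).lev u' h3').1
    have e4 := (hs _).bot u' h3' (by omega)
    rw [e4, zero_add] at h4'
    exact hne (h1.symm.trans h4')
  · have e1 := congrArg lev h1
    have e2 := congrArg lev h1'
    rw [lev_add, lev_w] at e1
    omega
  · exact hne (add_right_cancel (h1.symm.trans h1'))
  · have e1 := congrArg lev h1
    have e2 := congrArg lev h4'
    rw [lev_add] at e1 e2
    rw [lev_w] at e1
    have e3 := ((hs _).lev u' h3').2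
    have e4 := (hs _).top u' h3' (by omega)
    rw [e4, add_comm] at h4'
    exact hne (add_right_cancel (h1.symm.trans h4'))
  · have e1 := congrArg lev h1'
    have e2 := congrArg lev h4
    rw [lev_add] at e2
    have e3 := ((hs _).lev u h3).1
    have e4 := (hs _).bot u h3 (by omega)
    rw [e4, zero_add] at h4
    exact hne (h4.symm.trans h1')
  · have e1 := congrArg lev h1'
    have e2 := congrArg lev h4
    rw [lev_add] at e1 e2
    rw [lev_w] at e1
    have e3 := ((hs _).lev u h3).2
    have e4 := (hs _).top u h3 (by omega)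
    rw [e4, add_comm] at h4
    exact hne (add_right_cancel (h4.symm.trans h1'))
  · have hne2 : x.1.2 ≠ x'.1.2 := by
      intro he
      apply hne
      have e1 : x.1.1 + x.1.2 = h := h1
      have e2 : x'.1.1 + x'.1.2 = h := h1'
      exact Prod.ext (by omega) he
    have e5 : u.2 + x.1.2 = u'.2 + x'.1.2 := by
      have := congrArg Prod.snd (h4.symm.trans h4')
      exact this
    by_cases hy : x.1.2 = yy
    · have e6 := hflat x'.1.2 (fun he => hne2 (hy.trans he.symm)) u' h3'
      have e7 := (hs _).row u h3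
      have e8 := hyy _ h2'
      omega
    · have e6 := hflat x.1.2 hy u h3
      by_cases hy' : x'.1.2 = yy
      · have e7 := (hs _).row u' h3'
        have e8 := hyy _ h2
        omega
      · have e7 := hflat x'.1.2 hy' u' h3'
        omega

theorem nodup_flat {h : ℤ} {w : ℕ} {seg : ℤ → Wd} {t : Wd} {ty : Bool} {p : ℤ × ℤ}
    (hs : ∀ y, Seg w (seg y)) (yy : ℤ) (hflat : ∀ y, y ≠ yy → ∀ v ∈ vt 0 (seg y), v.2 = 0)
    (hyy : ∀ q ∈ pas h ty p t, q.2 ≤ yy)
    (hi : Inv h ty p) (hn : (vt p t).Nodup) :
    ((tp h ty p t).map (Bf w seg)).flatten.Nodup := by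
  rw [List.nodup_flatten]
  constructor
  · intro l hl
    obtain ⟨x, _, rfl⟩ := List.mem_map.1 hl
    exact nodup_Bf (fun y => (hs y).nodup) x
  · rw [List.pairwise_map]
    rw [← tp_fst h t ty p, List.Nodup, List.pairwise_map] at hn
    exact hn.imp_of_mem fun {x x'} hx hx' hne => disj_Bf hs yy hflat hyy hi hx hx' hne

end Pool.Agent.OC.INSB

namespace Pool.Agent.OC

open Finset Pool.Agent.Lib27 Pool.Agent.SapR Pool.Agent.OC.INSB
open Pool.Agent.MG (Bri Brp Irr Nc Fp Fpp Bad SB CC SW dip cc chi rfa)

/-- INSB : the new word is a bridge. -/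
theorem insb_thm : INSB_Stmt := by
  intro m h w seg yy A h0 hm hA hs hflat hyy
  have hi : Inv (h : ℤ) false 0 := by
    constructor
    · intro _
      show (0 : ℤ) + 0 ≤ h
      omega
    · intro hc
      exact absurd hc (by decide)
  have hep : ∀ y, ep 0 (seg y) = ((w : ℤ), 0) := fun y => (hs y).ep
  obtain ⟨hA1, hA2, hA3⟩ := hA
  have hAB : A ∈ Bri m := ⟨hA1, hA2, hA3⟩
  have hvt : vt 0 (ins h seg false 0 A) = ((tp h false 0 A).map (Bf w seg)).flatten :=
    vt_ins hep A false 0
  have hS : SAWs (ins h seg false 0 A) := by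
    unfold SAWs
    rw [hvt]
    exact nodup_flat hs yy hflat hyy hi hA1
  have hend : ep 0 (ins h seg false 0 A) = ep 0 A + ((w : ℤ), 0) :=
    ep_ins hep A false 0 hi (by rw [hA2]; exact_mod_cast hm)
  have hlend : lev (ep 0 (ins h seg false 0 A)) = ((m + w : ℕ) : ℤ) := by
    rw [hend, lev_add, hA2, lev_w]
    push_cast
    rfl
  refine ⟨hS, hlend, ?_⟩
  have hne : ins h seg false 0 A ≠ [] := by
    intro hc
    rw [hc, ep_nil] at hlend
    have : lev (0 : ℤ × ℤ) = 0 := rfl
    rw [this] at hlend
    have := (hs 0).w_pos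
    omega
  have hAne : A ≠ [] := by
    rintro rfl
    rw [ep_nil] at hA2
    have : lev (0 : ℤ × ℤ) = 0 := rfl
    omega
  intro v hv
  obtain ⟨hv1, hv2, hv3⟩ := (MG.mem_int hne hS).1 hv
  rw [hvt, List.mem_flatten] at hv1
  obtain ⟨l, hl, hvl⟩ := hv1
  obtain ⟨x, hx, rfl⟩ := List.mem_map.1 hl
  have hxA : x.1 ∈ vt 0 A := by
    rw [← tp_fst (h : ℤ) A false 0]
    exact List.mem_map.2 ⟨x, hx, rfl⟩
  have hlx := MG.Bri_lev hAB hxA
  have hint : ∀ q ∈ vt 0 A, q ≠ 0 → q ≠ ep 0 A → 0 < lev q ∧ lev q < m := fun q hq hq0 hqe =>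
    hA3 q ((MG.mem_int hAne hA1).2 ⟨hq, hq0, hqe⟩)
  have hpos : ∀ q ∈ vt 0 A, q ≠ 0 → 0 < lev q := by
    intro q hq hq0
    by_cases hqe : q = ep 0 A
    · rw [hqe, hA2]
      exact_mod_cast (Nat.zero_lt_of_lt hm)
    · exact (hint q hq hq0 hqe).1
  have hltm : ∀ q ∈ vt 0 A, q ≠ ep 0 A → lev q < m := by
    intro q hq hqe
    by_cases hq0 : q = 0
    · rw [hq0]
      show (0 : ℤ) + 0 < m
      omega
    · exact (hint q hq hq0 hqe).2
  rcases mem_Bf hi hx hvl with ⟨h1, h2⟩ | ⟨h1, h2⟩ | ⟨h1, h2, u, h3, h4⟩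
  · rw [h1] at hv2 ⊢
    refine ⟨hpos _ hxA hv2, ?_⟩
    push_cast
    omega
  · have hxe : x.1 ≠ ep 0 A := by
      intro he
      apply hv3
      rw [h1, he, hend]
    have := hltm _ hxA hxe
    rw [h1, lev_add, lev_w]
    push_cast
    omega
  · have e1 := (hs _).lev u h3
    rw [h4, lev_add]
    push_cast
    omega

end Pool.Agent.OC
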