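import Pool.Agent.OC.Stmts
import Pool.Agent.OC.Lib

/-!
# Convex occupation energies (MP_f6626d_co): module INSC, lengths and occupations of the new word
-/

set_option autoImplicit false

namespace Pool.Agent.OC

open Finset Pool.Agent.Lib27 Pool.Agent.SapR
open Pool.Agent.MG (Bri Brp Irr Nc Fp Fpp Bad SB CC SW dip cc chi rfa)
open scoped NNReal ENNReal

namespace INSC

/-- the translated point -/
def sh (w : ℕ) (ty : Bool) (p : ℤ × ℤ) : ℤ × ℤ := if ty then p + ((w : ℤ), 0) else p

theorem lev_w (w : ℕ) : lev ((w : ℤ), (0 : ℤ)) = w := by unfold lev; simp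

theorem lev_dv (s : Fin 4) : lev (dv s) = 1 ∨ lev (dv s) = -1 := by
  fin_cases s <;> simp [dv, lev]

theorem lev_step (p : ℤ × ℤ) (s : Fin 4) :
    lev (p + dv s) = lev p + 1 ∨ lev (p + dv s) = lev p - 1 := by
  rw [lev_add]
  rcases lev_dv s with h | h <;> rw [h] <;> [left; right] <;> ring

/-- the type of the previous step fits to the level -/
def Inv (h : ℤ) (ty : Bool) (p : ℤ × ℤ) : Prop :=
  (ty = false → lev p ≤ h) ∧ (ty = true → h ≤ lev p)

theorem abv_true {h : ℤ} {p : ℤ × ℤ} {s : Fin 4} :
    abv h p s = true ↔ h < lev p ∨ h < lev (p + dv s) := by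
  unfold abv
  exact decide_eq_true_iff

theorem abv_false {h : ℤ} {p : ℤ × ℤ} {s : Fin 4} :
    abv h p s = false ↔ lev p ≤ h ∧ lev (p + dv s) ≤ h := by
  rw [← Bool.not_eq_true, abv_true]
  push Not
  rfl

theorem inv_step (h : ℤ) (p : ℤ × ℤ) (s : Fin 4) : Inv h (abv h p s) (p + dv s) := by
  constructor
  · intro h1
    exact (abv_false.1 h1).2
  · intro h1
    have h2 := abv_true.1 h1
    have h3 := lev_step p s
    omega

theorem lev_eq_of_ne {h : ℤ} {ty : Bool} {p : ℤ × ℤ} {s : Fin 4} (hI : Inv h ty p)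
    (hne : ty ≠ abv h p s) : lev p = h := by
  obtain ⟨h1, h2⟩ := hI
  have h3 := lev_step p s
  cases ty with
  | false =>
    have h4 : abv h p s = true := by
      cases hh : abv h p s with
      | false => exact absurd hh.symm hne
      | true => rfl
    have h5 := abv_true.1 h4
    have h6 := h1 rfl
    omega
  | true =>
    have h4 : abv h p s = false := by
      cases hh : abv h p s with
      | true => exact absurd hh.symm hne
      | false => rfl
    have h5 := abv_false.1 h4
    have h6 := h2 rfl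
    omega

theorem sh_step (w : ℕ) (ty : Bool) (p q : ℤ × ℤ) : sh w ty (p + q) = sh w ty p + q := by
  unfold sh
  split_ifs
  · abel
  · rfl

theorem lev_sh (w : ℕ) (ty : Bool) (p : ℤ × ℤ) :
    lev (sh w ty p) = lev p + if ty then (w : ℤ) else 0 := by
  unfold sh
  split_ifs
  · rw [lev_add, lev_w]
  · rw [add_zero]

theorem vt_rv (p : ℤ × ℤ) (s : Wd) : vt (ep p s) (rv s) = (vt p s).reverse := by
  have h1 := vs_rv p s
  unfold vt
  rw [ep_rv]
  exact h1

variable {h : ℤ} {w : ℕ} {seg : ℤ → Wd}

theorem ins_cons_eq {ty : Bool} {p : ℤ × ℤ} {s : Fin 4} (t : Wd) (he : ty = abv h p s) :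
    ins h seg ty p (s :: t) = s :: ins h seg (abv h p s) (p + dv s) t := by
  show (if ty = abv h p s then [] else if ty then rv (seg p.2) else seg p.2) ++
      s :: ins h seg (abv h p s) (p + dv s) t = _
  rw [if_pos he]
  rfl

theorem ins_cons_ne {ty : Bool} {p : ℤ × ℤ} {s : Fin 4} (t : Wd) (he : ty ≠ abv h p s) :
    ins h seg ty p (s :: t) = (if ty then rv (seg p.2) else seg p.2) ++
      s :: ins h seg (abv h p s) (p + dv s) t := by
  show (if ty = abv h p s then [] else if ty then rv (seg p.2) else seg p.2) ++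
      s :: ins h seg (abv h p s) (p + dv s) t = _
  rw [if_neg he]

theorem pas_cons_eq {ty : Bool} {p : ℤ × ℤ} {s : Fin 4} (t : Wd) (he : ty = abv h p s) :
    pas h ty p (s :: t) = pas h (abv h p s) (p + dv s) t := by
  show (if ty = abv h p s then [] else [p]) ++ pas h (abv h p s) (p + dv s) t = _
  rw [if_pos he]
  rfl

theorem pas_cons_ne {ty : Bool} {p : ℤ × ℤ} {s : Fin 4} (t : Wd) (he : ty ≠ abv h p s) :
    pas h ty p (s :: t) = p :: pas h (abv h p s) (p + dv s) t := by
  show (if ty = abv h p s then [] else [p]) ++ pas h (abv h p s) (p + dv s) t = _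
  rw [if_neg he]
  rfl

theorem cnt_ins_eq {ty : Bool} {p : ℤ × ℤ} {s : Fin 4} (t : Wd) (he : ty = abv h p s) (k : ℤ) :
    cnt (vt (sh w ty p) (ins h seg ty p (s :: t))) k =
      (if lev (sh w ty p) = k then 1 else 0) +
      cnt (vt (sh w (abv h p s) (p + dv s)) (ins h seg (abv h p s) (p + dv s) t)) k := by
  rw [ins_cons_eq t he, vt_cons, cnt_cons, ← he, sh_step]

theorem bool_ne {a b : Bool} (h1 : a ≠ b) : b = !a := by
  cases a <;> cases b <;> simp_all

theorem cnt_vt' (p : ℤ × ℤ) (s : Wd) (k : ℤ) :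
    cnt (vt p s) k = cnt (vs p s) k + if lev (ep p s) = k then 1 else 0 := by
  unfold vt
  rw [cnt_append, cnt_cons, cnt_nil, add_zero]

theorem cnt_ins_ne {ty : Bool} {p : ℤ × ℤ} {s : Fin 4} (t : Wd) (hs : ∀ y, Seg w (seg y))
    (hI : Inv h ty p) (he : ty ≠ abv h p s) (k : ℤ) :
    cnt (vt (sh w ty p) (ins h seg ty p (s :: t))) k = occ (seg p.2) (k - h) +
      cnt (vt (sh w (abv h p s) (p + dv s)) (ins h seg (abv h p s) (p + dv s) t)) k := by
  have hlev : lev p = h := lev_eq_of_ne hI he
  have e0 : ep p (seg p.2) = p + ((w : ℤ), 0) := by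
    rw [ep_eq, (hs p.2).ep, add_comm]
  have e1 : cnt (vt p (seg p.2)) k = occ (seg p.2) (k - h) := by
    rw [vt_eq, cnt_map_add, hlev]
    rfl
  rw [ins_cons_ne t he, ← e1]
  have hb : abv h p s = !ty := bool_ne he
  cases ty with
  | false =>
    rw [hb]
    simp only [Bool.not_false]
    have e2 : sh w false p = p := rfl
    have e3 : sh w true (p + dv s) = p + ((w : ℤ), 0) + dv s := by rw [sh_step]; rfl
    rw [e2, e3]
    simp only [Bool.false_eq_true, if_false]
    rw [vt_append, vt_cons, e0, cnt_append, cnt_cons, cnt_vt' p (seg p.2), e0]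
    omega
  | true =>
    rw [hb]
    simp only [Bool.not_true]
    have e2 : sh w true p = ep p (seg p.2) := e0.symm
    have e3 : sh w false (p + dv s) = p + dv s := rfl
    rw [e2, e3]
    simp only [if_true]
    have e4 : cnt (vt p (seg p.2)) k = cnt (vt (ep p (seg p.2)) (rv (seg p.2))) k := by
      rw [vt_rv]
      exact (cnt_perm (List.reverse_perm _) k).symm
    rw [e4, vt_append, vt_cons, ep_rv, cnt_append, cnt_cons,
      cnt_vt' (ep p (seg p.2)) (rv (seg p.2)), ep_rv]
    omega

theorem length_ins (t : Wd) : ∀ (ty : Bool) (p : ℤ × ℤ), (ins h seg ty p t).length =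
    t.length + ((pas h ty p t).map (fun p => (seg p.2).length)).sum := by
  induction t with
  | nil => intro ty p; rfl
  | cons s t ih =>
    intro ty p
    by_cases he : ty = abv h p s
    · rw [ins_cons_eq t he, pas_cons_eq t he, List.length_cons, ih, List.length_cons]
      omega
    · rw [ins_cons_ne t he, pas_cons_ne t he, List.length_append, List.length_cons, ih,
        List.length_cons, List.map_cons, List.sum_cons]
      have : (if ty then rv (seg p.2) else seg p.2).length = (seg p.2).length := by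
        split_ifs
        · exact MG.rv_length _
        · rfl
      rw [this]
      omega

/-- a segment has at most one vertex on its lowest and on its highest level -/
theorem cnt_le_one {l : List (ℤ × ℤ)} {k : ℤ} {v : ℤ × ℤ} (hn : l.Nodup)
    (hv : ∀ u ∈ l, lev u = k → u = v) : cnt l k ≤ 1 := by
  induction l with
  | nil => rw [cnt_nil]; omega
  | cons a l ih =>
    rw [List.nodup_cons] at hn
    rw [cnt_cons]
    split_ifs with ha
    · have e1 : a = v := hv a List.mem_cons_self ha
      have : cnt l k = 0 := by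
        rw [cnt_eq_zero]
        intro u hu huk
        have := hv u (List.mem_cons_of_mem _ hu) huk
        exact hn.1 (by rw [e1, ← this]; exact hu)
      omega
    · have := ih hn.2 (fun u hu => hv u (List.mem_cons_of_mem _ hu))
      omega

theorem seg_bot {s : Wd} (hs : Seg w s) : occ s 0 ≤ 1 :=
  cnt_le_one hs.nodup hs.bot

theorem seg_top {s : Wd} (hs : Seg w s) : occ s w ≤ 1 :=
  cnt_le_one hs.nodup hs.top

theorem seg_out {s : Wd} (hs : Seg w s) {k : ℤ} (hk : k < 0 ∨ (w : ℤ) < k) : occ s k = 0 := by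
  rw [occ_eq_zero]
  rintro v hv rfl
  have := hs.lev v hv
  omega

/-- the main induction -/
theorem main (hs : ∀ y, Seg w (seg y)) (t : Wd) : ∀ (ty : Bool) (p : ℤ × ℤ), Inv h ty p →
    (∀ k : ℤ, k < h → cnt (vt (sh w ty p) (ins h seg ty p t)) k = cnt (vt p t) k) ∧
    (∀ k : ℤ, h < k → cnt (vt (sh w ty p) (ins h seg ty p t)) (k + w) = cnt (vt p t) k) ∧
    cnt (vt (sh w ty p) (ins h seg ty p t)) h ≤ cnt (vt p t) h ∧
    cnt (vt (sh w ty p) (ins h seg ty p t)) (h + w) ≤ cnt (vt p t) h ∧
    (∀ k : ℤ, h < k → k < h + w → cnt (vt (sh w ty p) (ins h seg ty p t)) k =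
      ((pas h ty p t).map (fun p => occ (seg p.2) (k - h))).sum) := by
  have hw : 0 < w := (hs 0).w_pos
  have hwz : (0 : ℤ) < w := by exact_mod_cast hw
  -- the contribution of one vertex which is not a passage
  have one : ∀ (ty : Bool) (p : ℤ × ℤ), Inv h ty p →
      (∀ k : ℤ, k < h → (if lev (sh w ty p) = k then 1 else 0 : ℕ) = if lev p = k then 1 else 0) ∧
      (∀ k : ℤ, h < k →
        (if lev (sh w ty p) = k + w then 1 else 0 : ℕ) = if lev p = k then 1 else 0) ∧
      (if lev (sh w ty p) = h then 1 else 0 : ℕ) ≤ (if lev p = h then 1 else 0) ∧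
      (if lev (sh w ty p) = h + w then 1 else 0 : ℕ) ≤ (if lev p = h then 1 else 0) ∧
      (∀ k : ℤ, h < k → k < h + w → (if lev (sh w ty p) = k then 1 else 0 : ℕ) = 0) := by
    intro ty p hI
    obtain ⟨h1, h2⟩ := hI
    rw [lev_sh]
    cases ty with
    | false =>
      have h3 := h1 rfl
      simp only [Bool.false_eq_true, if_false, add_zero]
      refine ⟨fun k _ => trivial, fun k hk => ?_, le_rfl, ?_, fun k hk _ => ?_⟩
      · rw [if_neg (by omega), if_neg (by omega)]
      · rw [if_neg (by omega)]; exact Nat.zero_le _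
      · rw [if_neg (by omega)]
    | true =>
      have h3 := h2 rfl
      simp only [if_true]
      refine ⟨fun k hk => ?_, fun k hk => ?_, ?_, ?_, fun k _ hk => ?_⟩
      · rw [if_neg (by omega), if_neg (by omega)]
      · by_cases hp : lev p = k
        · rw [if_pos (by omega), if_pos hp]
        · rw [if_neg (by omega), if_neg hp]
      · rw [if_neg (by omega)]; exact Nat.zero_le _
      · by_cases hp : lev p = h
        · rw [if_pos (by omega), if_pos hp]
        · rw [if_neg (by omega), if_neg hp]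
      · rw [if_neg (by omega)]
  induction t with
  | nil =>
    intro ty p hI
    obtain ⟨a1, a2, a3, a4, a5⟩ := one ty p hI
    have e1 : ∀ k, cnt (vt (sh w ty p) (ins h seg ty p [])) k =
        if lev (sh w ty p) = k then 1 else 0 := by
      intro k
      show cnt (vt (sh w ty p) []) k = _
      rw [vt_nil, cnt_cons, cnt_nil, add_zero]
    have e2 : ∀ k, cnt (vt p []) k = if lev p = k then 1 else 0 := by
      intro k
      rw [vt_nil, cnt_cons, cnt_nil, add_zero]
    refine ⟨fun k hk => ?_, fun k hk => ?_, ?_, ?_, fun k hk hk' => ?_⟩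
    · rw [e1, e2, a1 k hk]
    · rw [e1, e2, a2 k hk]
    · rw [e1, e2]; exact a3
    · rw [e1, e2]; exact a4
    · rw [e1, a5 k hk hk']
      rfl
  | cons s t ih =>
    intro ty p hI
    obtain ⟨b1, b2, b3, b4, b5⟩ := ih (abv h p s) (p + dv s) (inv_step h p s)
    have e2 : ∀ k, cnt (vt p (s :: t)) k = (if lev p = k then 1 else 0) +
        cnt (vt (p + dv s) t) k := by
      intro k
      rw [vt_cons, cnt_cons]
    by_cases he : ty = abv h p s
    · obtain ⟨a1, a2, a3, a4, a5⟩ := one ty p hI
      simp_rw [cnt_ins_eq t he, e2, pas_cons_eq t he]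
      refine ⟨fun k hk => ?_, fun k hk => ?_, ?_, ?_, fun k hk hk' => ?_⟩
      · rw [a1 k hk, b1 k hk]
      · rw [a2 k hk, b2 k hk]
      · exact Nat.add_le_add a3 b3
      · exact Nat.add_le_add a4 b4
      · rw [a5 k hk hk', b5 k hk hk', zero_add]
    · have hlev : lev p = h := lev_eq_of_ne hI he
      refine ⟨fun k hk => ?_, fun k hk => ?_, ?_, ?_, fun k hk hk' => ?_⟩
      · rw [cnt_ins_ne t hs hI he, e2, hlev, b1 k hk, seg_out (hs p.2) (Or.inl (by omega)),
          if_neg (by omega)]
      · rw [cnt_ins_ne t hs hI he, e2, hlev, b2 k hk, seg_out (hs p.2) (Or.inr (by omega)),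
          if_neg (by omega)]
      · rw [cnt_ins_ne t hs hI he, e2, hlev, if_pos rfl, sub_self]
        exact Nat.add_le_add (seg_bot (hs p.2)) b3
      · rw [cnt_ins_ne t hs hI he, e2, hlev, if_pos rfl, add_sub_cancel_left]
        exact Nat.add_le_add (seg_top (hs p.2)) b4
      · rw [cnt_ins_ne t hs hI he, pas_cons_ne t he, b5 k hk hk', List.map_cons, List.sum_cons]

theorem pas_sublist (t : Wd) : ∀ (ty : Bool) (p : ℤ × ℤ), (pas h ty p t).Sublist (vs p t) := by
  induction t with
  | nil => intro ty p; exact List.Sublist.refl _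
  | cons s t ih =>
    intro ty p
    rw [vs_cons]
    by_cases he : ty = abv h p s
    · rw [pas_cons_eq t he]
      exact (ih _ _).cons _
    · rw [pas_cons_ne t he]
      exact (ih _ _).cons_cons _

theorem pas_lev (t : Wd) : ∀ (ty : Bool) (p : ℤ × ℤ), Inv h ty p → ∀ q ∈ pas h ty p t,
    lev q = h := by
  induction t with
  | nil => intro ty p _ q hq; exact absurd hq (List.not_mem_nil)
  | cons s t ih =>
    intro ty p hI q hq
    by_cases he : ty = abv h p s
    · rw [pas_cons_eq t he] at hq
      exact ih _ _ (inv_step h p s) q hq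
    · rw [pas_cons_ne t he, List.mem_cons] at hq
      rcases hq with rfl | hq
      · exact lev_eq_of_ne hI he
      · exact ih _ _ (inv_step h p s) q hq

theorem pas_nil (t : Wd) : ∀ (p : ℤ × ℤ), Inv h false p → pas h false p t = [] →
    lev (ep p t) ≤ h := by
  induction t with
  | nil => intro p hI _; exact hI.1 rfl
  | cons s t ih =>
    intro p hI hp
    by_cases he : false = abv h p s
    · rw [pas_cons_eq t he] at hp
      have h1 := inv_step h p s
      rw [← he] at h1 hp
      exact ih _ h1 hp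
    · rw [pas_cons_ne t he] at hp
      exact absurd hp (List.cons_ne_nil _ _)

theorem length_le_cnt {l m : List (ℤ × ℤ)} (hl : l.Sublist m) (hk : ∀ q ∈ l, lev q = h) :
    l.length ≤ cnt m h := by
  have h1 : cnt l h ≤ cnt m h := hl.countP_le
  have h2 : cnt l h = l.length := by
    unfold cnt
    rw [List.countP_eq_length]
    intro q hq
    exact decide_eq_true (hk q hq)
  omega

end INSC

open INSC in
/-- **INSC** : lengths and occupations of the new word. -/
theorem insc_thm : INSC_Stmt := by
  intro m h w seg A h0 hm hA hs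
  have hI : Inv (h : ℤ) false 0 := by
    refine ⟨fun _ => ?_, fun h1 => absurd h1 (by simp)⟩
    have : lev (0 : ℤ × ℤ) = 0 := rfl
    omega
  obtain ⟨a1, a2, a3, a4, a5⟩ := main (h := (h : ℤ)) hs A false 0 hI
  have e0 : sh w false 0 = 0 := rfl
  rw [e0] at a1 a2 a3 a4 a5
  have hsub := pas_sublist (h := (h : ℤ)) A false 0
  have hlev := pas_lev (h := (h : ℤ)) A false 0 hI
  refine ⟨length_ins A false 0, a1, a2, a3, a4, a5, ?_, ?_, ?_⟩
  · rw [Nat.one_le_iff_ne_zero]
    intro h1
    have h2 := pas_nil (h := (h : ℤ)) A 0 hI (List.length_eq_zero_iff.1 h1)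
    rw [hA.2.1] at h2
    omega
  · have h1 := length_le_cnt hsub hlev
    have h2 := occ_eq_vs A h
    omega
  · have h1 : (pas (h : ℤ) false 0 A).Nodup := by
      have h2 : (vt 0 A).Nodup := hA.1
      have h3 : (vs 0 A).Nodup := (List.sublist_append_left (vs 0 A) [ep 0 A]).nodup h2
      exact hsub.nodup h3
    refine List.Nodup.map_on ?_ h1
    intro x hx y hy hxy
    have h2 := hlev x hx
    have h3 := hlev y hy
    unfold lev at h2 h3
    exact Prod.ext (by omega) hxy

end Pool.Agent.OC
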