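import Pool.Agent.OC.Stmts
import Pool.Agent.OC.Lib

/-!
# Convex occupation energies (MP_f6626d_co): INSM

The hypotheses of the abstract insertion principle for pairs of bridges at the critical point.
-/

set_option autoImplicit false

namespace Pool.Agent.OC

open Finset Pool.Agent.Lib27 Pool.Agent.SapR
open Pool.Agent.MG (Bri Brp Irr Nc Fp Fpp Bad SB CC SW dip cc chi rfa)
open scoped NNReal ENNReal

namespace InsM

/-- cutting an occupation function at the level `h` and moving the upper part by `w` -/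
theorem BW_cut {b : ℕ → ℝ≥0} (hb : IsW b) (o : ℤ → ℕ) (h w : ℤ) (hw : 0 ≤ w) :
    BW b o = BW b (fun k => if k ≤ h then o k else if k ≤ h + w then 0 else o (k - w)) := by
  have e1 : BW b o = BW b (fun k => if k ≤ h then o k else 0) *
      BW b (fun k => if k ≤ h then 0 else o k) := by
    refine BW_mul_of_sep hb fun k => ?_
    by_cases hk : k ≤ h
    · left
      rw [if_pos hk, if_pos hk]
      exact ⟨rfl, by omega⟩
    · right
      rw [if_neg hk, if_neg hk]
      exact ⟨rfl, by omega⟩
  have e2 : BW b (fun k => if k ≤ h then o k else if k ≤ h + w then 0 else o (k - w)) =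
      BW b (fun k => if k ≤ h then o k else 0) *
      BW b (fun k => if k - w ≤ h then 0 else o (k - w)) := by
    refine BW_mul_of_sep hb fun k => ?_
    by_cases hk : k ≤ h
    · left
      rw [if_pos hk, if_pos hk, if_pos (by omega)]
      exact ⟨rfl, by omega⟩
    · right
      rw [if_neg hk, if_neg hk]
      by_cases hk2 : k ≤ h + w
      · rw [if_pos hk2, if_pos (by omega)]
        exact ⟨rfl, by omega⟩
      · rw [if_neg hk2, if_neg (by omega)]
        exact ⟨rfl, by omega⟩
  rw [e1, e2, BW_sub b w (fun k => if k ≤ h then 0 else o k)]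

/-- the weights of the occupations before and after the insertion -/
theorem BW_ins {b : ℕ → ℝ≥0} (hb : IsW b) {o o' : ℤ → ℕ} {h : ℤ} {w v1 : ℕ} {kap : ℝ≥0}
    (hk1 : kap ≤ 1) (hk : kap ≤ b (v1 + 1)) (hlow : o h < v1)
    (h1 : ∀ k : ℤ, k < h → o' k = o k) (h2 : ∀ k : ℤ, h < k → o' (k + w) = o k)
    (h3 : o' h ≤ o h) (h4 : o' (h + w) ≤ o h)
    (h5 : ∀ k : ℤ, h < k → k < h + w → o' k ≤ v1 + 1) :
    (kap : ℝ≥0∞) ^ w * BW b o ≤ BW b o' := by
  rw [BW_cut hb o h w (by omega)]
  have hc : (Ioc h (h + w)).card = w := by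
    rw [Int.card_Ioc]
    omega
  have key := BW_lower (b := b)
    (o := fun k => if k ≤ h then o k else if k ≤ h + w then 0 else o (k - w)) (o' := o')
    (c := kap) hk1 (Ioc h (h + w)) ?_ ?_
  · rw [hc] at key
    exact key
  · intro k hkt
    rw [Finset.mem_Ioc] at hkt
    rw [if_neg (by omega), if_pos hkt.2, hb.b0, mul_one]
    refine hk.trans (hb.antitone ?_)
    rcases lt_or_eq_of_le hkt.2 with h6 | h6
    · exact h5 k hkt.1 h6
    · rw [h6]
      omega
  · intro k hkt
    rw [Finset.mem_Ioc, not_and_or] at hkt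
    by_cases h6 : k ≤ h
    · rw [if_pos h6]
      refine hb.antitone ?_
      rcases lt_or_eq_of_le h6 with h7 | h7
      · exact (h1 k h7).le
      · rw [h7]
        exact h3
    · have h7 : ¬ k ≤ h + w := by
        rcases hkt with h8 | h8
        · exact absurd (not_lt.1 h8) h6
        · exact h8
      rw [if_neg h6, if_neg h7]
      refine hb.antitone ?_
      have h8 := h2 (k - w) (by omega)
      rw [sub_add_cancel] at h8
      exact h8.le

theorem mem_Hs {v1 M : ℕ} {x : Wd × Wd} (hx : x ∈ Brp M) (k : ℕ) :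
    k ∈ Hs v1 x ↔ (0 < k ∧ k < M) ∧ v1 ≤ occ x.1 k + occ x.2 k := by
  have h1 : lev (ep 0 x.1) = M := hx.1.2.1
  unfold Hs
  rw [Finset.mem_filter, Finset.mem_Ioo, h1, Int.toNat_natCast]

end InsM

open InsM in
/-- **INSM.** -/
theorem insm_thm (h1 : INSP_Stmt) : INSM_Stmt := by
  intro P
  obtain ⟨w, a, lam, ha, haw, H⟩ := h1 P.V P.two_le_V
  have hc0 : P.zl ^ lam * P.kap ^ w ≠ 0 :=
    mul_ne_zero (pow_ne_zero _ P.zl_pos.ne') (pow_ne_zero _ P.kap_pos.ne')
  refine ⟨w, a, (P.zl ^ lam * P.kap ^ w)⁻¹, ha, haw, ?_⟩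
  intro v1 b hCl hv3
  obtain ⟨f, hf, hinj⟩ := H v1 hCl.v1_ge hCl.v1_le
  have hkap : P.kap ≤ b (v1 + 1) := by
    rcases hCl.low with h | h
    · omega
    · exact h
  have hz1 : zst b ≤ 1 := hCl.z_le.trans (by
    rw [ENNReal.inv_le_one]
    exact one_le_two)
  refine ⟨f, ?_, ?_⟩
  · intro M h x hx hh0 hhM hHs
    have hlow : occ x.1 h + occ x.2 h < v1 := by
      by_contra hcon
      exact hHs ((mem_Hs hx h).2 ⟨⟨hh0, hhM⟩, not_lt.1 hcon⟩)
    obtain ⟨hmem, -, hlen, hb1, hb2, hb3, hb4, hb5, hb6⟩ := hf M h x hx hh0 hhM hlow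
    refine ⟨hmem, ?_, ?_, ?_, ?_, ?_⟩
    · have hBW : (P.kap : ℝ≥0∞) ^ w * BW b (fun k => occ x.1 k + occ x.2 k) ≤
          BW b (fun k => occ (f h x).1 k + occ (f h x).2 k) :=
        BW_ins hCl.w (h := (h : ℤ)) (v1 := v1) P.kap_le hkap hlow hb1 hb2 hb3 hb4 hb5
      have hmain : ((P.zl ^ lam * P.kap ^ w : ℝ≥0) : ℝ≥0∞) * Wp b (zst b) x ≤
          Wp b (zst b) (f h x) := by
        unfold Wp
        rw [ENNReal.coe_mul, ENNReal.coe_pow, ENNReal.coe_pow]
        calc (P.zl : ℝ≥0∞) ^ lam * (P.kap : ℝ≥0∞) ^ w *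
              (zst b ^ (x.1.length + x.2.length) * BW b (fun k => occ x.1 k + occ x.2 k))
            = ((P.zl : ℝ≥0∞) ^ lam * zst b ^ (x.1.length + x.2.length)) *
              ((P.kap : ℝ≥0∞) ^ w * BW b (fun k => occ x.1 k + occ x.2 k)) := by ring
          _ ≤ (zst b ^ lam * zst b ^ (x.1.length + x.2.length)) *
              BW b (fun k => occ (f h x).1 k + occ (f h x).2 k) :=
              mul_le_mul' (mul_le_mul' (pow_le_pow_left₀ bot_le hCl.z_ge _) le_rfl) hBW
          _ ≤ zst b ^ ((f h x).1.length + (f h x).2.length) *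
              BW b (fun k => occ (f h x).1 k + occ (f h x).2 k) := by
              refine mul_le_mul' ?_ le_rfl
              rw [← pow_add]
              exact pow_le_pow_right_of_le_one' hz1 (by omega)
      have hc1 : ((P.zl ^ lam * P.kap ^ w : ℝ≥0)⁻¹ : ℝ≥0) * (P.zl ^ lam * P.kap ^ w : ℝ≥0) =
          (1 : ℝ≥0) := inv_mul_cancel₀ hc0
      calc Wp b (zst b) x = ((((P.zl ^ lam * P.kap ^ w : ℝ≥0)⁻¹ : ℝ≥0) *
            (P.zl ^ lam * P.kap ^ w : ℝ≥0) : ℝ≥0) : ℝ≥0∞) * Wp b (zst b) x := by
            rw [hc1, ENNReal.coe_one, one_mul]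
        _ = (((P.zl ^ lam * P.kap ^ w : ℝ≥0)⁻¹ : ℝ≥0) : ℝ≥0∞) *
            (((P.zl ^ lam * P.kap ^ w : ℝ≥0) : ℝ≥0∞) * Wp b (zst b) x) := by
            rw [ENNReal.coe_mul, mul_assoc]
        _ ≤ _ := mul_le_mul' le_rfl hmain
    · have hsub : Hs v1 (f h x) ⊆ ((Hs v1 x).filter (fun k => k < h)) ∪ (Ioo h (h + w)) ∪
          ((Hs v1 x).filter (fun k => h < k)).image (fun k => k + w) := by
        intro k hk
        rw [mem_Hs hmem] at hk
        obtain ⟨⟨hk0, hkM⟩, hkv⟩ := hk
        rw [Finset.mem_union, Finset.mem_union, Finset.mem_filter, Finset.mem_Ioo,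
          Finset.mem_image]
        rcases lt_trichotomy k h with hkh | hkh | hkh
        · left; left
          refine ⟨(mem_Hs hx k).2 ⟨⟨hk0, by omega⟩, ?_⟩, hkh⟩
          rw [← hb1 k (by omega)]
          exact hkv
        · exfalso
          rw [hkh] at hkv
          omega
        · rcases lt_trichotomy k (h + w) with hkw | hkw | hkw
          · left; right
            exact ⟨hkh, hkw⟩
          · exfalso
            rw [hkw, Nat.cast_add] at hkv
            omega
          · right
            refine ⟨k - w, ?_, by omega⟩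
            rw [Finset.mem_filter]
            refine ⟨(mem_Hs hx (k - w)).2 ⟨⟨by omega, by omega⟩, ?_⟩, by omega⟩
            have h6 := hb2 ((k - w : ℕ) : ℤ) (by omega)
            rw [show (((k - w : ℕ) : ℤ) + w) = (k : ℤ) by omega] at h6
            rw [← h6]
            exact hkv
      calc (Hs v1 (f h x)).card ≤ _ := Finset.card_le_card hsub
        _ ≤ (((Hs v1 x).filter (fun k => k < h)) ∪ (Ioo h (h + w))).card +
            (((Hs v1 x).filter (fun k => h < k)).image (fun k => k + w)).card :=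
            Finset.card_union_le _ _
        _ ≤ (((Hs v1 x).filter (fun k => k < h)).card + (Ioo h (h + w)).card) +
            ((Hs v1 x).filter (fun k => h < k)).card :=
            add_le_add (Finset.card_union_le _ _) Finset.card_image_le
        _ ≤ (((Hs v1 x).filter (fun k => k < h)).card +
            ((Hs v1 x).filter (fun k => h < k)).card) + w := by
            rw [Nat.card_Ioo]
            omega
        _ ≤ (Hs v1 x).card + w := by
            refine Nat.add_le_add_right ?_ _
            rw [← Finset.card_union_of_disjoint]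
            · refine Finset.card_le_card ?_
              intro k hk
              rw [Finset.mem_union, Finset.mem_filter, Finset.mem_filter] at hk
              rcases hk with hk | hk
              · exact hk.1
              · exact hk.1
            · rw [Finset.disjoint_left]
              intro k hk hk'
              rw [Finset.mem_filter] at hk hk'
              omega
    · rw [mem_Hs hmem]
      refine ⟨⟨by omega, by omega⟩, ?_⟩
      rw [Nat.cast_add]
      exact hb6
    · intro k hk
      rw [mem_Hs hmem, mem_Hs hx, hb1 k (by omega)]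
      constructor
      · rintro ⟨⟨h6, -⟩, h7⟩
        exact ⟨⟨h6, by omega⟩, h7⟩
      · rintro ⟨⟨h6, -⟩, h7⟩
        exact ⟨⟨h6, by omega⟩, h7⟩
    · intro k hk hkh
      rw [mem_Hs hx] at hk
      rw [mem_Hs hmem]
      refine ⟨⟨by omega, by omega⟩, ?_⟩
      rw [Nat.cast_add, hb2 k (by omega)]
      exact hk.2
  · intro M h hh0 hhM
    refine (hinj M h hh0 hhM).mono ?_
    rintro x ⟨hx, hHs⟩
    refine ⟨hx, ?_⟩
    by_contra hcon
    exact hHs ((mem_Hs hx h).2 ⟨⟨hh0, hhM⟩, not_lt.1 hcon⟩)

end Pool.Agent.OC
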