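import Pool.Agent.OC.Stmts
import Pool.Agent.OC.Lib

/-!
# Convex occupation energies (MP_f6626d_co): module INSP (insertion for pairs of bridges)
-/

set_option autoImplicit false

namespace Pool.Agent.OC

open Finset Pool.Agent.Lib27 Pool.Agent.SapR
open Pool.Agent.MG (Bri Brp Irr Nc Fp Fpp Bad SB CC SW dip cc chi rfa)
open scoped NNReal ENNReal

namespace INSP

/-- sum over a list without repetitions with one special element -/
theorem sum_special (l : List ℤ) (yy : ℤ) (F : ℤ → ℕ) (β : ℕ) (hn : l.Nodup) (hy : yy ∈ l)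
    (hF : ∀ y, y ≠ yy → F y = β) : (l.map F).sum = F yy + (l.length - 1) * β := by
  have h1 : l.Perm (yy :: l.erase yy) := List.perm_cons_erase hy
  have h2 : (l.map F).sum = ((yy :: l.erase yy).map F).sum := (h1.map F).sum_eq
  have h3 : ∀ y ∈ l.erase yy, F y = β := fun y hy' =>
    hF y (fun he => by
      subst he
      exact hn.not_mem_erase hy')
  have h4 : (l.erase yy).map F = (l.erase yy).map (fun _ => β) := List.map_congr_left h3
  rw [h2, List.map_cons, List.sum_cons, h4, List.map_const', List.sum_replicate,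
    List.length_erase_of_mem hy, smul_eq_mul]

theorem sum_le_special (l : List ℤ) (yy : ℤ) (F : ℤ → ℕ) (a β : ℕ) (hn : l.Nodup) (hy : yy ∈ l)
    (ha : F yy ≤ a) (hF : ∀ y, y ≠ yy → F y ≤ β) : (l.map F).sum ≤ a + (l.length - 1) * β := by
  have h1 := sum_special l yy (fun y => if y = yy then a else β) β hn hy
    (fun y hy' => if_neg hy')
  simp only [if_true] at h1
  rw [← h1]
  refine List.sum_le_sum fun y _ => ?_
  by_cases hy' : y = yy
  · rw [if_pos hy', hy']
    exact ha
  · rw [if_neg hy']
    exact hF y hy'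

theorem exists_max : ∀ l : List ℤ, l ≠ [] → ∃ yy ∈ l, ∀ y ∈ l, y ≤ yy := by
  intro l
  induction l with
  | nil => intro h; exact absurd rfl h
  | cons a l ih =>
    intro _
    by_cases hl : l = []
    · subst hl
      exact ⟨a, List.mem_cons_self, fun y hy => by
        rw [List.mem_singleton] at hy
        exact hy.le⟩
    · obtain ⟨yy, h1, h2⟩ := ih hl
      rcases le_total a yy with h | h
      · refine ⟨yy, List.mem_cons_of_mem _ h1, fun y hy => ?_⟩
        rcases List.mem_cons.1 hy with rfl | hy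
        · exact h
        · exact h2 y hy
      · refine ⟨a, List.mem_cons_self, fun y hy => ?_⟩
        rcases List.mem_cons.1 hy with rfl | hy
        · exact le_rfl
        · exact (h2 y hy).trans h

open Classical in
/-- the largest element of a list -/
noncomputable def top (l : List ℤ) : ℤ :=
  if h : ∃ yy ∈ l, ∀ y ∈ l, y ≤ yy then h.choose else 0

theorem top_mem {l : List ℤ} (hl : l ≠ []) : top l ∈ l := by
  have h := exists_max l hl
  unfold top
  rw [dif_pos h]
  exact h.choose_spec.1

theorem le_top {l : List ℤ} (hl : l ≠ []) {y : ℤ} (hy : y ∈ l) : y ≤ top l := by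
  have h := exists_max l hl
  unfold top
  rw [dif_pos h]
  exact h.choose_spec.2 y hy

/-- second coordinates of the passages -/
def py (h : ℕ) (A : Wd) : List ℤ := (pas h false 0 A).map Prod.snd

/-- number of teeth -/
def jj (v1 h : ℕ) (p : Wd × Wd) : ℕ :=
  (v1 - ((pas h false 0 p.1).length + (pas h false 0 p.2).length) + 1) / 2

/-- segments of the first word -/
noncomputable def sg (w L v1 h : ℕ) (p : Wd × Wd) (y : ℤ) : Wd :=
  if y = top (py h p.1) then comb w L (jj v1 h p) else comb w L 0

/-- the insertion -/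
noncomputable def ff (w L v1 h : ℕ) (p : Wd × Wd) : Wd × Wd :=
  (ins h (sg w L v1 h p) false 0 p.1, ins h (fun _ => comb w L 0) false 0 p.2)

theorem map_py (h : ℕ) (A : Wd) (F : ℤ → ℕ) :
    (pas h false 0 A).map (fun p => F p.2) = (py h A).map F := by
  unfold py
  rw [List.map_map]
  rfl

theorem length_py (h : ℕ) (A : Wd) : (py h A).length = (pas h false 0 A).length := by
  unfold py
  rw [List.length_map]

end INSP

open INSP in
theorem insp_thm (h1 : COMB_Stmt) (h2 : INSA_Stmt) (h3 : INSB_Stmt) (h4 : INSC_Stmt) :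
    INSP_Stmt := by
  intro V hV
  obtain ⟨L, hL⟩ : ∃ L, L = 2 * V := ⟨_, rfl⟩
  obtain ⟨w, hw⟩ : ∃ w, w = 2 * L + 2 := ⟨_, rfl⟩
  refine ⟨w, L + 1, V * w + 2 * V * L, by omega, by omega, fun v1 hv1 hv1V => ?_⟩
  have hj : ∀ h p, 2 * jj v1 h p ≤ L := by
    intro h p
    unfold jj
    omega
  have hC := fun j (hj : 2 * j ≤ L) => h1 w L j hj hw.ge
  have hC0 := hC 0 (by omega)
  have hsg : ∀ h p y, Seg w (sg w L v1 h p y) := by
    intro h p y
    unfold sg
    split_ifs
    · exact (hC _ (hj h p)).1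
    · exact hC0.1
  have hflat : ∀ y : ℤ, Seg w ((fun _ : ℤ => comb w L 0) y) := fun _ => hC0.1
  refine ⟨ff w L v1, ?_, ?_⟩
  · rintro m h ⟨A, B⟩ ⟨hA, hB⟩ hh hhm hlow
    simp only at hA hB hlow
    obtain ⟨p, hp⟩ : ∃ p : Wd × Wd, p = (A, B) := ⟨_, rfl⟩
    have hf : ff w L v1 h (A, B) = (ins h (sg w L v1 h p) false 0 A,
      ins h (fun _ => comb w L 0) false 0 B) := by
      rw [hp]
      rfl
    rw [hf]
    simp only
    have hh' : (0 : ℤ) < h := by exact_mod_cast hh
    obtain ⟨cA1, cA2, cA3, cA4, cA5, cA6, cA7, cA8, cA9⟩ :=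
      h4 m h w (sg w L v1 h p) A hh hhm hA (hsg h p)
    obtain ⟨cB1, cB2, cB3, cB4, cB5, cB6, cB7, cB8, cB9⟩ :=
      h4 m h w (fun _ => comb w L 0) B hh hhm hB hflat
    have hnA : py h A ≠ [] := by
      intro h0
      have := length_py h A
      rw [h0, List.length_nil] at this
      omega
    have hnB : py h B ≠ [] := by
      intro h0
      have := length_py h B
      rw [h0, List.length_nil] at this
      omega
    have htA := top_mem hnA
    have htB := top_mem hnB
    have hlA := length_py h A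
    have hlB := length_py h B
    have hcj := hC _ (hj h p)
    obtain ⟨j, hjj⟩ : ∃ j, j = jj v1 h p := ⟨_, rfl⟩
    rw [← hjj] at hcj
    have hj1 : 2 * j ≤ L := hjj ▸ hj h p
    have hjd : j = (v1 - ((pas h false 0 A).length + (pas h false 0 B).length) + 1) / 2 := by
      rw [hjj, hp]
      rfl
    obtain ⟨tA, etA⟩ : ∃ t, t = (pas h false 0 A).length := ⟨_, rfl⟩
    obtain ⟨tB, etB⟩ : ∃ t, t = (pas h false 0 B).length := ⟨_, rfl⟩
    rw [← etA] at hlA hjd cA7 cA8
    rw [← etB] at hlB hjd cB7 cB8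
    have hs1 : sg w L v1 h p (top (py h A)) = comb w L j := by
      unfold sg
      rw [hp, if_pos rfl, ← hp, hjj]
    have hs0 : ∀ y, y ≠ top (py h A) → sg w L v1 h p y = comb w L 0 := by
      intro y hy
      unfold sg
      rw [hp, if_neg hy]
    obtain ⟨j1, j2, j3, j4, -⟩ := hcj
    obtain ⟨i1, i2, i3, i4, i5⟩ := hC0
    simp only [mul_zero, zero_mul, add_zero, zero_add] at i2 i3 i4
    -- lengths
    have lA : ((pas h false 0 A).map (fun q => (sg w L v1 h p q.2).length)).sum =
        w + 2 * j * L + (tA - 1) * w := by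
      rw [map_py h A (fun y => (sg w L v1 h p y).length),
        sum_special (py h A) (top (py h A)) _ w cA9 htA (fun y hy => by rw [hs0 y hy, i2]), hs1,
        j2, hlA]
    have lB : ((pas h false 0 B).map (fun q => ((fun _ : ℤ => comb w L 0) q.2).length)).sum =
        w + (tB - 1) * w := by
      rw [map_py h B (fun y => ((fun _ : ℤ => comb w L 0) y).length),
        sum_special (py h B) (top (py h B)) _ w cB9 htB (fun y hy => i2), hlB]
      simp only [i2]
    have oA : ∀ k : ℤ, ((pas h false 0 A).map (fun q => occ (sg w L v1 h p q.2) (k - h))).sum ≤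
        2 * j + 1 + (tA - 1) * 1 := by
      intro k
      rw [map_py h A (fun y => occ (sg w L v1 h p y) (k - h)), ← hlA]
      refine sum_le_special (py h A) (top (py h A)) _ _ 1 cA9 htA ?_ ?_
      · rw [hs1]
        exact j3 _
      · intro y hy
        rw [hs0 y hy]
        exact i3 _
    have oB : ∀ k : ℤ, ((pas h false 0 B).map
        (fun q => occ ((fun _ : ℤ => comb w L 0) q.2) (k - h))).sum ≤ 1 + (tB - 1) * 1 := by
      intro k
      rw [map_py h B (fun y => occ ((fun _ : ℤ => comb w L 0) y) (k - h)), ← hlB]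
      exact sum_le_special (py h B) (top (py h B)) _ _ 1 cB9 htB (i3 _) (fun y _ => i3 _)
    have eA : ((pas h false 0 A).map
        (fun q => occ (sg w L v1 h p q.2) ((h : ℤ) + (L + 1 : ℕ) - h))).sum =
        2 * j + 1 + (tA - 1) * 1 := by
      have hL1 : (h : ℤ) + (L + 1 : ℕ) - h = (L : ℤ) + 1 := by push_cast; ring
      rw [map_py h A (fun y => occ (sg w L v1 h p y) ((h : ℤ) + (L + 1 : ℕ) - h)), ← hlA, hL1]
      rw [sum_special (py h A) (top (py h A)) _ 1 cA9 htA (fun y hy => by rw [hs0 y hy, i4]), hs1,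
        j4]
    have eB : ((pas h false 0 B).map
        (fun q => occ ((fun _ : ℤ => comb w L 0) q.2) ((h : ℤ) + (L + 1 : ℕ) - h))).sum =
        1 + (tB - 1) * 1 := by
      have hL1 : (h : ℤ) + (L + 1 : ℕ) - h = (L : ℤ) + 1 := by push_cast; ring
      rw [map_py h B (fun y => occ ((fun _ : ℤ => comb w L 0) y) ((h : ℤ) + (L + 1 : ℕ) - h)),
        ← hlB, hL1]
      rw [sum_special (py h B) (top (py h B)) _ 1 cB9 htB (fun y hy => i4), i4]
    refine ⟨⟨?_, ?_⟩, ?_, ?_, ?_, ?_, ?_, ?_, ?_, ?_⟩
    · refine h3 m h w (sg w L v1 h p) (top (py h A)) A hh hhm hA (hsg h p) ?_ ?_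
      · intro y hy v hv
        rw [hs0 y hy] at hv
        exact i5 v hv
      · intro q hq
        exact le_top hnA (List.mem_map_of_mem hq)
    · refine h3 m h w (fun _ => comb w L 0) (top (py h B)) B hh hhm hB hflat ?_ ?_
      · intro y _ v hv
        exact i5 v hv
      · intro q hq
        exact le_top hnB (List.mem_map_of_mem hq)
    · rw [cA1, cB1]
      omega
    · rw [cA1, cB1, lA, lB]
      obtain ⟨tA', rfl⟩ : ∃ t, tA = t + 1 := ⟨tA - 1, by omega⟩
      obtain ⟨tB', rfl⟩ : ∃ t, tB = t + 1 := ⟨tB - 1, by omega⟩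
      simp only [Nat.add_sub_cancel]
      have k1 : tA' + tB' + 2 ≤ V := by omega
      have k2 : 2 * j ≤ 2 * V := by omega
      have k3 : (tA' + tB' + 2) * w ≤ V * w := Nat.mul_le_mul_right w k1
      have k4 : 2 * j * L ≤ 2 * V * L := Nat.mul_le_mul_right L k2
      calc A.length + (w + 2 * j * L + tA' * w) + (B.length + (w + tB' * w))
          = A.length + B.length + ((tA' + tB' + 2) * w + 2 * j * L) := by ring
        _ ≤ _ := Nat.add_le_add_left (Nat.add_le_add k3 k4) _
    · intro k hk
      rw [cA2 k hk, cB2 k hk]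
    · intro k hk
      rw [cA3 k hk, cB3 k hk]
    · exact Nat.add_le_add cA4 cB4
    · exact Nat.add_le_add cA5 cB5
    · intro k hk1 hk2
      rw [cA6 k hk1 hk2, cB6 k hk1 hk2]
      refine le_trans (Nat.add_le_add (oA k) (oB k)) ?_
      omega
    · rw [cA6 _ (by push_cast; omega) (by push_cast; omega),
        cB6 _ (by push_cast; omega) (by push_cast; omega), eA, eB]
      omega
  · intro m h hh hhm
    rintro ⟨A, B⟩ - ⟨A', B'⟩ - he
    have hh' : (0 : ℤ) < h := by exact_mod_cast hh
    have e1 : ins h (sg w L v1 h (A, B)) false 0 A = ins h (sg w L v1 h (A', B')) false 0 A' :=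
      congrArg Prod.fst he
    have e2 : ins h (fun _ => comb w L 0) false 0 B = ins h (fun _ => comb w L 0) false 0 B' :=
      congrArg Prod.snd he
    have e3 := congrArg (del h w 0) e1
    have e4 := congrArg (del h w 0) e2
    rw [h2 h w _ hh' (hsg h _), h2 h w _ hh' (hsg h _)] at e3
    rw [h2 h w _ hh' hflat, h2 h w _ hh' hflat] at e4
    rw [e3, e4]

end Pool.Agent.OC
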