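import Pool.Agent.OC.Blk

/-!
# Convex occupation energies (MP_f6626d_co): IRR, pairs of bridges without common cut (helper74)
-/

set_option autoImplicit false

namespace Pool.Agent.OC.IRR

open Finset Pool.Agent.Lib27 Pool.Agent.SapR
open Pool.Agent.MG (Bri Brp Irr Nc Fp Fpp Bad SB CC SW dip cc chi rfa)
open scoped NNReal ENNReal

variable {b : ℕ → ℝ≥0}

/-- pairs of bridges have no vertices below the level `0` -/
theorem Wp_eq_Wt (h : IsW b) (z : ℝ≥0∞) {H : ℕ} {p : Wd × Wd} (hp : p ∈ Brp H) :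
    Wp b z p = Wt b z p := by
  unfold Wp Wt
  congr 1
  refine le_antisymm ?_ (BW_anti h fun k => Nat.le_add_right _ _)
  refine LP_mono fun k => ?_
  simp only
  split_ifs with hk
  · rw [occ_Bri_out hp.1 (Or.inl hk), occ_Bri_out hp.2 (Or.inl hk)]
    rw [h.eq_one (by omega), h.eq_one (by omega)]
  · exact le_rfl

theorem Irr_cut {K k m : ℕ} (hK : 0 < K) {p : Wd × Wd} (hp : p ∈ Irr (k * (3 * K) + m)) :
    ∃ q v : Wd × Wd, q ∈ Fpp m ∧ v ∈ Bad K k (max 0 (max (cc K q.1) (cc K q.2))) ∧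
      p = (v.1 ++ q.1, v.2 ++ q.2) := by
  obtain ⟨a, b⟩ := p
  obtain ⟨⟨ha, hb⟩, hno⟩ := hp
  simp only at ha hb hno
  obtain ⟨v, s, hv, hs, rfl⟩ := MG.Fp_cut (MG.Bri_sub_Fp _ ha)
  obtain ⟨v', s', hv', hs', rfl⟩ := MG.Fp_cut (MG.Bri_sub_Fp _ hb)
  refine ⟨(s, s'), (v, v'), ⟨hs, hs'⟩, ?_, rfl⟩
  refine MG.bad_of_cut hK hv hv' ?_
  intro j hj l hl1 hl2
  have h3 : (j + 1) * (3 * K) ≤ k * (3 * K) := Nat.mul_le_mul_right _ (by omega)
  have h4 : (j + 1) * (3 * K) = j * (3 * K) + 3 * K := by ring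
  refine hno l (by omega) ?_
  have h5 : ((j * (3 * K) + 2 * K : ℕ) : ℤ) < ((k * (3 * K) + m : ℕ) : ℤ) := by
    have : j * (3 * K) + 2 * K < k * (3 * K) + m := by omega
    exact_mod_cast this
  omega

end Pool.Agent.OC.IRR

namespace Pool.Agent.OC

open Finset Pool.Agent.Lib27 Pool.Agent.SapR
open Pool.Agent.MG (Bri Brp Irr Nc Fp Fpp Bad SB CC SW dip cc chi rfa)
open scoped NNReal ENNReal

theorem irr_thm (h1 : BLK_Stmt) : IRR_Stmt := by
  intro b z R K hW hR hRt hK k m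
  have h2 : ww b z (k * (3 * K) + m) ≤
      gs (fun q => Wt b z q * gs (Wt b z) (Bad K k (max 0 (max (cc K q.1) (cc K q.2)))))
        (Fpp m) := by
    unfold ww
    refine gs_dep (fun (q v : Wd × Wd) => (v.1 ++ q.1, v.2 ++ q.2))
      (fun q => Bad K k (max 0 (max (cc K q.1) (cc K q.2)))) ?_
    intro p hp
    obtain ⟨q, v, hq, hv, he⟩ := IRR.Irr_cut hK hp
    refine ⟨q, v, hq, hv, he, ?_⟩
    rw [IRR.Wp_eq_Wt hW z hp.1, he, mul_comm]
    exact BLK.Wt_append_le hW z q.1 q.2 hv.1 hv.2.1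
  refine h2.trans ?_
  rw [← gs_mul_right]
  refine gs_le _ _ subset_rfl fun q _ => ?_
  rw [mul_assoc]
  refine mul_le_mul_right ((h1 b z R K hW hR hRt hK k _).trans ?_) _
  refine mul_le_mul_left (pow_le_pow_right₀ hR ?_) _
  omega

end Pool.Agent.OC
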