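import Pool.Agent.OC.Stmts2
import Pool.Agent.Lib_helper89.FL.HG
import Pool.Agent.Lib_helper24.SapR.K2
import Pool.Agent.Lib_helper41.SapR.Planar
import Pool.Agent.Lib_helper66.SapR.K5

/-!
# Convex occupation energies (MP_f6626d_co): the weighted gap kernel

Module KWG: the kernel and the area generating function of the canonical polygon words with
general multiplicative weights (adapted from `Lib_helper89/FL/KW.lean`).
-/

set_option autoImplicit false

namespace Pool.Agent.OC.KWG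

open Finset Pool.Agent.Lib27 Pool.Agent.SapR Pool.Agent.FL Pool.Agent.Gap Filter Topology

lemma k2' : K2_Stmt := k2 k3

lemma len_hl {r : ℕ} {p : Wd × Wd} (hp : p ∈ Pc r) :
    p.1.length + p.2.length = 2 * hl p ∧ 1 ≤ hl p ∧ 2 * hl p ≤ r + 2 := by
  obtain ⟨h1, h2, h3, _⟩ := H66.k5size r p hp
  obtain ⟨k, hk⟩ := h1
  have : hl p = k := by unfold hl; omega
  omega

lemma ht_eq {r : ℕ} {p : Wd × Wd} (hp : p ∈ Pc r) : ht p = (htn p : ℤ) := by
  have := (H66.k5size r p hp).2.2.2.1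
  unfold htn
  omega

/-- index set of the kernel -/
def SS (r : ℕ) : Finset (ℕ × ℕ) := (Icc 1 (r + 2) ×ˢ Icc 1 (r + 2)).filter (fun i => i.2 ≤ i.1)

lemma mem_SS (r : ℕ) (i : ℕ × ℕ) : i ∈ SS r ↔
    (1 ≤ i.1 ∧ i.1 ≤ r + 2) ∧ (1 ≤ i.2 ∧ i.2 ≤ r + 2) ∧ i.2 ≤ i.1 := by
  unfold SS
  rw [mem_filter, mem_product, mem_Icc, mem_Icc]
  tauto

lemma piece_mem {r : ℕ} {p : Wd × Wd} (hp : p ∈ Pc r) :
    (hl p, htn p) ∈ SS r ∧ jump p ∈ Icc (-((r + 2 : ℕ) : ℤ)) (r + 2 : ℕ) := by
  obtain ⟨l1, l2, l3⟩ := len_hl hp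
  obtain ⟨h1, h2⟩ := hg.2.2 r p hp
  have h3 := (H66.k5size r p hp).2.2.2.2.2.1
  rw [abs_le] at h3
  constructor
  · rw [mem_SS]
    simp only
    omega
  · rw [mem_Icc]
    push_cast
    omega

/-- weight of the free pieces of type `i` and jump `d` -/
noncomputable def PT (μ : MW) (r : ℕ) (i : ℕ × ℕ) (d : ℤ) : ℝ := ∑ p ∈ M41.PcT r i d, μ.pw p

/-- weight of the allowed pieces of type `i` from gap `g` to gap `g'` -/
noncomputable def AT (μ : MW) (r : ℕ) (i : ℕ × ℕ) (g g' : ℤ) : ℝ :=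
  ∑ p ∈ M41.alT r i g g', μ.pw p

lemma PT_nonneg (μ : MW) (r : ℕ) (i : ℕ × ℕ) (d : ℤ) : 0 ≤ PT μ r i d :=
  sum_nonneg fun p _ => μ.pw_nonneg p

lemma AT_nonneg (μ : MW) (r : ℕ) (i : ℕ × ℕ) (g g' : ℤ) : 0 ≤ AT μ r i g g' :=
  sum_nonneg fun p _ => μ.pw_nonneg p

/-- grouping of the pieces by half length, height and jump -/
lemma group (μ : MW) (r : ℕ) (f : ℕ → ℝ) :
    ∑ p ∈ Pc r, f (hl p) * μ.pw p = ∑ i ∈ SS r, f i.1 *
      ∑ d ∈ Icc (-((r + 2 : ℕ) : ℤ)) (r + 2 : ℕ), PT μ r i d := by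
  classical
  have hmap : ∀ p ∈ Pc r, (((hl p, htn p), jump p) : (ℕ × ℕ) × ℤ) ∈
      SS r ×ˢ Icc (-((r + 2 : ℕ) : ℤ)) (r + 2 : ℕ) := by
    intro p hp
    rw [mem_product]
    exact piece_mem hp
  rw [← sum_fiberwise_of_maps_to hmap, sum_product]
  apply sum_congr rfl
  intro i _
  rw [mul_sum]
  apply sum_congr rfl
  intro d _
  have hfib : (Pc r).filter (fun p => (((hl p, htn p), jump p) : (ℕ × ℕ) × ℤ) = (i, d)) =
      M41.PcT r i d := by
    ext p
    rw [mem_filter, M41.mem_PcT]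
    constructor
    · rintro ⟨h1, h2⟩
      rw [Prod.mk.injEq, Prod.ext_iff] at h2
      simp only at h2
      obtain ⟨⟨a, b⟩, c⟩ := h2
      have := len_hl h1
      have := ht_eq h1
      refine ⟨h1, by omega, by omega, c⟩
    · rintro ⟨h1, h2, h3, h4⟩
      refine ⟨h1, ?_⟩
      have := len_hl h1
      have := ht_eq h1
      rw [Prod.mk.injEq, Prod.ext_iff]
      simp only
      refine ⟨⟨by omega, by omega⟩, h4⟩
  have e : ∀ p ∈ (Pc r).filter (fun p => (((hl p, htn p), jump p) : (ℕ × ℕ) × ℤ) = (i, d)),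
      f (hl p) * μ.pw p = f i.1 * μ.pw p := by
    intro p hp
    rw [mem_filter, Prod.mk.injEq, Prod.ext_iff] at hp
    simp only at hp
    rw [hp.2.1.1]
  rw [sum_congr rfl e, ← mul_sum, hfib]
  rfl

/-- pieces of half length `m` live in `Pc (2 m - 2)` -/
lemma mem_small {r m : ℕ} {p : Wd × Wd} (hp : p ∈ Pc r) (hm : p.1.length + p.2.length = 2 * m) :
    p ∈ Pc (2 * m - 2) ∧ 1 ≤ m := by
  have := len_hl hp
  refine ⟨?_, by omega⟩
  rw [M41.mem_Pc]
  exact ⟨((M41.mem_Pc _ _).1 hp).1, by omega⟩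

lemma jump_le {r m : ℕ} {p : Wd × Wd} (hp : p ∈ Pc r) (hm : p.1.length + p.2.length = 2 * m) :
    |jump p| ≤ 2 * (m : ℤ) := by
  obtain ⟨h1, h2⟩ := mem_small hp hm
  have h3 := (H66.k5size _ p h1).2.2.2.2.2.1
  have : ((2 * m - 2 : ℕ) : ℤ) + 2 = 2 * (m : ℤ) := by omega
  rw [this] at h3
  exact h3

lemma far {r m : ℕ} {p : Wd × Wd} {g : ℤ} (hp : p ∈ Pc r)
    (hm : p.1.length + p.2.length = 2 * m) (hg : 2 * (m : ℤ) < g) : p ∈ allowed r g := by
  obtain ⟨h1, h2⟩ := mem_small hp hm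
  have h3 : allowed (2 * m - 2) g = Pc (2 * m - 2) := H66.k5far _ g (by omega)
  rw [← h3, M41.mem_allowed] at h1
  rw [M41.mem_allowed]
  exact ⟨hp, h1.2⟩

lemma pw_one (μ : MW) {r : ℕ} {d : ℤ} {p : Wd × Wd} (hp : p ∈ M41.PcT r (1, 1) d) :
    μ.pw p = 1 := by
  rw [M41.mem_PcT] at hp
  apply μ.one r p hp.1
  have := len_hl hp.1
  have h2 := hp.2.1
  simp only at h2
  omega

lemma PT_one (μ : MW) (r : ℕ) (d : ℤ) : PT μ r (1, 1) d = ((M41.PcT r (1, 1) d).card : ℝ) := by
  unfold PT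
  rw [sum_congr rfl (fun p hp => pw_one μ hp), sum_const, nsmul_eq_mul, mul_one]

lemma PT_even (μ : MW) (r : ℕ) (i : ℕ × ℕ) (d : ℤ) : PT μ r i (-d) = PT μ r i d := by
  unfold PT
  have key : ∀ d : ℤ, ∀ p ∈ M41.PcT r i d, SapR.flip p ∈ M41.PcT r i (-d) := by
    intro d p hp
    rw [M41.mem_PcT] at hp ⊢
    obtain ⟨h1, h2, h3, h4⟩ := hp
    obtain ⟨f1, f2, f3, f4, f5, f6, f7⟩ := H66.k5flip r p h1
    exact ⟨f1, by rw [f6]; exact h2, by rw [f4]; exact h3, by rw [f3, h4]⟩
  have key2 : ∀ d : ℤ, ∀ p ∈ M41.PcT r i d, SapR.flip (SapR.flip p) = p := by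
    intro d p hp
    rw [M41.mem_PcT] at hp
    exact (H66.k5flip r p hp.1).2.1
  refine sum_nbij' (fun p => SapR.flip p) (fun p => SapR.flip p) ?_ ?_ ?_ ?_ ?_
  · intro p hp
    have := key (-d) p hp
    rwa [neg_neg] at this
  · intro p hp
    exact key d p hp
  · intro p hp; exact key2 _ p hp
  · intro p hp; exact key2 _ p hp
  · intro p hp
    rw [M41.mem_PcT] at hp
    exact (μ.flip r p hp.1).symm

lemma AT_symm (μ : MW) (r : ℕ) (i : ℕ × ℕ) (g g' : ℤ) : AT μ r i g g' = AT μ r i g' g := by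
  unfold AT
  have key : ∀ a b : ℤ, ∀ p ∈ M41.alT r i a b, SapR.flip p ∈ M41.alT r i b a := by
    intro a b p hp
    rw [M41.mem_alT] at hp ⊢
    obtain ⟨h1, h2, h3, h4⟩ := hp
    have h0 := ((M41.mem_allowed _ _ _).1 h1).1
    obtain ⟨f1, f2, f3, f4, f5, f6, f7⟩ := H66.k5flip r p h0
    have := (f7 a).1 h1
    rw [h4, show a + (b - a) = b by ring] at this
    exact ⟨this, by rw [f6]; exact h2, by rw [f4]; exact h3, by rw [f3, h4]; ring⟩
  have key2 : ∀ a b : ℤ, ∀ p ∈ M41.alT r i a b, SapR.flip (SapR.flip p) = p := by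
    intro a b p hp
    rw [M41.mem_alT] at hp
    exact (H66.k5flip r p ((M41.mem_allowed _ _ _).1 hp.1).1).2.1
  refine sum_nbij' (fun p => SapR.flip p) (fun p => SapR.flip p) ?_ ?_ ?_ ?_ ?_
  · intro p hp; exact key g g' p hp
  · intro p hp; exact key g' g p hp
  · intro p hp; exact key2 g g' p hp
  · intro p hp; exact key2 g' g p hp
  · intro p hp
    rw [M41.mem_alT] at hp
    exact (μ.flip r p ((M41.mem_allowed _ _ _).1 hp.1).1).symm

lemma AT_le (μ : MW) (r : ℕ) (i : ℕ × ℕ) (g g' : ℤ) : AT μ r i g g' ≤ PT μ r i (g' - g) :=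
  sum_le_sum_of_subset_of_nonneg (M41.alT_sub r i g g') fun p _ _ => μ.pw_nonneg p

/-- data of the critical weight -/
lemma rho_ex (μ : MW) (r : ℕ) : ∃ rho : ℝ, 0 < rho ∧
    ∑ i ∈ SS r, rho ^ i.1 * ∑ d ∈ Icc (-((r + 2 : ℕ) : ℤ)) (r + 2 : ℕ), PT μ r i d = 1 := by
  apply M41.exists_rho (SS r) (fun i => ∑ d ∈ Icc (-((r + 2 : ℕ) : ℤ)) (r + 2 : ℕ), PT μ r i d)
  · intro i hi
    exact ((mem_SS r i).1 hi).1.1
  · intro i
    exact sum_nonneg fun d _ => PT_nonneg μ r i d
  · rw [mem_SS]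
    simp
  · have h1 := single_le_sum (f := fun d => PT μ r (1, 1) d)
      (s := Icc (-((r + 2 : ℕ) : ℤ)) (r + 2 : ℕ))
      (fun d _ => PT_nonneg μ r (1, 1) d) (a := 1) (by
        rw [mem_Icc]; push_cast; constructor <;> omega)
    simp only [PT_one] at h1
    rw [M41.PcT_one H66.k5basic r] at h1
    simp only [PT_one]
    simpa using h1

/-- the weighted gap kernel -/
noncomputable def kern (μ : MW) (r : ℕ) : GapKernel where
  S := SS r
  R := r + 2
  K := fun i g g' => AT μ r i g g'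
  T := fun i d => PT μ r i d
  rho := (rho_ex μ r).choose
  i0_mem := by rw [mem_SS]; simp
  pos_mem := fun i hi => ⟨((mem_SS r i).1 hi).1.1, ((mem_SS r i).1 hi).2.1.1⟩
  T_nonneg := fun i d => PT_nonneg μ r i d
  T_even := fun i d => PT_even μ r i d
  T_range := fun i d hd => by
    have : M41.PcT r i d = ∅ := by
      by_contra hne
      obtain ⟨p, hp⟩ := nonempty_iff_ne_empty.2 hne
      rw [M41.mem_PcT] at hp
      have := (H66.k5size r p hp.1).2.2.2.2.2.1
      rw [hp.2.2.2] at this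
      push_cast at hd
      omega
    unfold PT
    rw [this, sum_empty]
  K_nonneg := fun i g g' => AT_nonneg μ r i g g'
  K_symm := fun i g g' => AT_symm μ r i g g'
  K_le := fun i g g' => AT_le μ r i g g'
  K_out := fun i g g' hg => by
    have : M41.alT r i g g' = ∅ := by
      by_contra hne
      obtain ⟨p, hp⟩ := nonempty_iff_ne_empty.2 hne
      rw [M41.mem_alT] at hp
      have := ((M41.mem_allowed _ _ _).1 hp.1).2.1
      omega
    unfold AT
    rw [this, sum_empty]
  K_eq := fun i g g' hg hg' hR => by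
    have h : M41.alT r i g g' = M41.PcT r i (g' - g) := by
      classical
      unfold M41.alT M41.PcT
      rw [H66.k5far r g (by push_cast at hR; omega)]
    unfold AT PT
    rw [h]
  T_one := by
    refine ⟨?_, ?_, ?_⟩
    · rw [PT_one, M41.PcT_zero H66.k5basic r]
      rw [card_insert_of_notMem (by simp), card_singleton]
      norm_num
    · rw [PT_one, M41.PcT_one H66.k5basic r]; simp
    · intro d hd
      rw [PT_one, M41.PcT_far r d hd]; simp
  K_one := fun g g' hg hg' => by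
    unfold AT PT
    rw [M41.alT_one H66.k5basic r g g' hg hg']
  rho_pos := (rho_ex μ r).choose_spec.1
  crit := (rho_ex μ r).choose_spec.2

lemma kern_loc (μ : MW) (r : ℕ) : Loc (kern μ r) where
  h_le := fun i hi => ((mem_SS r i).1 hi).2.2
  T_loc := fun i d hd => by
    have : M41.PcT r i d = ∅ := by
      by_contra hne
      obtain ⟨p, hp⟩ := nonempty_iff_ne_empty.2 hne
      rw [M41.mem_PcT] at hp
      have := jump_le hp.1 hp.2.1
      rw [hp.2.2.2] at this
      omega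
    show PT μ r i d = 0
    unfold PT
    rw [this, sum_empty]
  K_loc := fun i g g' hg hg' hR => by
    show AT μ r i g g' = PT μ r i (g' - g)
    have h : M41.alT r i g g' = M41.PcT r i (g' - g) := by
      apply subset_antisymm (M41.alT_sub r i g g')
      intro p hp
      rw [M41.mem_PcT] at hp
      rw [M41.mem_alT]
      exact ⟨far hp.1 hp.2.1 hR, hp.2⟩
    unfold AT PT
    rw [h]

lemma kern_crit (μ : MW) (r : ℕ) :
    ∑ p ∈ Pc r, (kern μ r).rho ^ hl p * μ.pw p = 1 := by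
  rw [group μ r (fun a => (kern μ r).rho ^ a)]
  exact (kern μ r).crit

lemma kern_level (μ : MW) (r : ℕ) (m : ℕ) :
    ∑ i ∈ (kern μ r).S.filter (fun i => i.1 = m), (kern μ r).tot i =
      ∑ p ∈ (Pc r).filter (fun p => hl p = m), μ.pw p := by
  have h1 := group μ r (fun a => if a = m then 1 else 0)
  simp only [ite_mul, one_mul, zero_mul] at h1
  rw [← sum_filter] at h1
  rw [h1]
  have hS : (kern μ r).S = SS r := rfl
  rw [hS, sum_filter]
  rfl

/-- weighted number of caps -/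
noncomputable def cW (μ : MW) (r : ℕ) (m : ℕ) (g : ℤ) : ℝ :=
  if 1 ≤ g then ∑ T ∈ CapSet r g (2 * m), μ.aw T else 0

lemma cW_eq (μ : MW) (n : ℕ) : capM μ n = cW μ (2 * n - 1) := rfl

/-- weighted generating polynomial of the arches -/
noncomputable def wB (μ : MW) (r : ℕ) (n : ℕ) (g : ℤ) : Polynomial ℝ :=
  if 1 ≤ g then ∑ w ∈ ArchSet r g (2 * n),
    Polynomial.C (μ.aw w) * (Polynomial.X : Polynomial ℝ) ^ (M41.Ar r w) else 0

lemma cap_supp (μ : MW) (n : ℕ) (m : ℕ) (g : ℤ) (hg : (m : ℤ) < g) : capM μ n m g = 0 := by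
  unfold capM
  split_ifs with h
  · rw [M41.CapSet_empty H66.k5cap (2 * n - 1) g (2 * m) h (by omega)]
    simp
  · rfl

lemma cap_supp_m (μ : MW) (n : ℕ) (m : ℕ) (g : ℤ) (hn : 1 ≤ n) (hm : n < m) :
    capM μ n m g = 0 := by
  unfold capM
  split_ifs with h
  · rw [M41.CapSet_empty H66.k5cap (2 * n - 1) g (2 * m) h (by omega)]
    simp
  · rfl

lemma cap_one (μ : MW) (n : ℕ) (hn : 1 ≤ n) : 1 ≤ capM μ n 1 1 := by
  unfold capM
  rw [if_pos le_rfl]
  have h1 := H66.k5cap.2.1 (2 * n - 1) (by omega)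
  have h3 := single_le_sum (f := fun T : Wd => μ.aw T) (s := CapSet (2 * n - 1) 1 (2 * 1))
    (fun i _ => μ.aw_nonneg i) (a := [1, 2]) h1
  simp only [μ.cap] at h3
  exact h3

lemma isCap (μ : MW) (n : ℕ) (hn : 1 ≤ n) : IsCap (2 * n) (capM μ n) where
  nonneg := fun m g => by
    unfold capM
    split_ifs
    · exact sum_nonneg fun T _ => μ.aw_nonneg T
    · exact le_rfl
  supp_m := fun m g hm => cap_supp_m μ n m g hn (by omega)
  supp_g := fun m g hg => by
    rcases hg with hg | hg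
    · unfold capM
      rw [if_neg (by omega)]
    · rcases Nat.lt_or_ge n m with h | h
      · exact cap_supp_m μ n m g hn h
      · exact cap_supp μ n m g (by push_cast at hg; omega)
  nontriv := ⟨1, 1, lt_of_lt_of_le one_pos (cap_one μ n hn)⟩

open Classical in
/-- Polynomial form of K2 with weights. -/
lemma k2_poly (μ : MW) (r : ℕ) (x : ℤ) (N : ℕ) (hx : 1 ≤ x) :
    ∑ w ∈ ArchSet r x (2 * N), Polynomial.C (μ.aw w) *
        (Polynomial.X : Polynomial ℝ) ^ (M41.Ar r w) =
      Polynomial.C (∑ T ∈ CapSet r x (2 * N), μ.aw T) +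
      ∑ p ∈ allowed r x, (Polynomial.X : Polynomial ℝ) ^ (ht p * (2 * x + jump p)).toNat *
        ∑ w ∈ ArchSet r (x + jump p) (2 * N - (p.1.length + p.2.length)),
          Polynomial.C (μ.aw (p.1 ++ w ++ p.2)) *
            (Polynomial.X : Polynomial ℝ) ^ (M41.Ar r w) := by
  have h1 : ∑ w ∈ ArchSet r x (2 * N), Polynomial.C (μ.aw w) *
        (Polynomial.X : Polynomial ℝ) ^ (M41.Ar r w) =
      ∑ w ∈ CapSet r x (2 * N), Polynomial.C (μ.aw w) *
        (Polynomial.X : Polynomial ℝ) ^ (M41.Ar r w) +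
      ∑ p ∈ allowed r x, ∑ w ∈ ArchSet r (x + jump p) (2 * N - (p.1.length + p.2.length)),
        Polynomial.C (μ.aw (p.1 ++ w ++ p.2)) *
          (Polynomial.X : Polynomial ℝ) ^ (M41.Ar r (p.1 ++ w ++ p.2)) := by
    ext k
    have := k2' r x (2 * N) hx (fun w => (Polynomial.C (μ.aw w) *
        (Polynomial.X : Polynomial ℝ) ^ (M41.Ar r w)).coeff k)
    rw [Polynomial.coeff_add, Polynomial.finsetSum_coeff, Polynomial.finsetSum_coeff,
      Polynomial.finsetSum_coeff, this]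
    congr 1
    apply sum_congr rfl
    intro p _
    rw [Polynomial.finsetSum_coeff]
  rw [h1]
  congr 1
  · rw [map_sum]
    apply sum_congr rfl
    intro w hw
    rw [M41.Ar_cap k2' r x (2 * N) hx w hw, pow_zero, mul_one]
  · apply sum_congr rfl
    intro p hp
    rw [mul_sum]
    apply sum_congr rfl
    intro w hw
    rw [M41.Ar_step k2' r x (2 * N) hx p hp w hw, pow_add]
    ring

lemma sol (μ : MW) (r : ℕ) : IsSol (kern μ r) (cW μ r) (wB μ r) where
  zero := fun n g hg => by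
    unfold wB
    rw [if_neg (by omega)]
  step := fun n g hg => by
    classical
    have hS : (kern μ r).S = SS r := rfl
    have hR : (kern μ r).R = r + 2 := rfl
    have hK : (kern μ r).K = fun i g g' => AT μ r i g g' := rfl
    rw [hS, hR, hK]
    simp only
    unfold wB cW
    rw [if_pos hg, if_pos hg, k2_poly μ r g n hg]
    congr 1
    -- group the pieces by type and target gap
    have hmap : ∀ p ∈ allowed r g, (((hl p, htn p), g + jump p) : (ℕ × ℕ) × ℤ) ∈
        SS r ×ˢ Icc (g - (r + 2 : ℕ)) (g + (r + 2 : ℕ)) := by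
      intro p hp
      have hp1 := ((M41.mem_allowed _ _ _).1 hp).1
      obtain ⟨a1, a2⟩ := piece_mem hp1
      rw [mem_Icc] at a2
      rw [mem_product, mem_Icc]
      refine ⟨a1, ?_, ?_⟩
      · simp only
        omega
      · simp only
        omega
    rw [← sum_fiberwise_of_maps_to hmap, sum_product]
    apply sum_congr rfl
    intro i hi
    rw [mem_SS] at hi
    have hfib : ∀ g' : ℤ, (allowed r g).filter (fun p =>
        (((hl p, htn p), g + jump p) : (ℕ × ℕ) × ℤ) = (i, g')) =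
        M41.alT r i g g' := by
      intro g'
      ext p
      rw [mem_filter, M41.mem_alT]
      constructor
      · rintro ⟨h1, h3⟩
        have hp1 := ((M41.mem_allowed _ _ _).1 h1).1
        have := len_hl hp1
        have := ht_eq hp1
        rw [Prod.mk.injEq, Prod.ext_iff] at h3
        obtain ⟨⟨b1, b2⟩, b3⟩ := h3
        simp only at b1 b2 b3
        exact ⟨h1, by omega, by omega, by omega⟩
      · rintro ⟨h1, h3, h4, h5⟩
        refine ⟨h1, ?_⟩
        have hp1 := ((M41.mem_allowed _ _ _).1 h1).1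
        have := len_hl hp1
        have := ht_eq hp1
        rw [Prod.mk.injEq, Prod.ext_iff]
        simp only
        exact ⟨⟨by omega, by omega⟩, by omega⟩
    by_cases hin : i.1 ≤ n
    · rw [if_pos hin]
      apply sum_congr rfl
      intro g' _
      rw [hfib g']
      by_cases hg' : 1 ≤ g'
      · rw [if_pos hg']
        have hconst : ∀ p ∈ M41.alT r i g g',
            (Polynomial.X : Polynomial ℝ) ^ (ht p * (2 * g + jump p)).toNat *
              ∑ w ∈ ArchSet r (g + jump p) (2 * n - (p.1.length + p.2.length)),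
                Polynomial.C (μ.aw (p.1 ++ w ++ p.2)) *
                  (Polynomial.X : Polynomial ℝ) ^ (M41.Ar r w) =
            Polynomial.C (μ.pw p) * ((Polynomial.X : Polynomial ℝ) ^ ((i.2 : ℤ) * (g + g')).toNat *
              (∑ w ∈ ArchSet r g' (2 * (n - i.1)),
                Polynomial.C (μ.aw w) * (Polynomial.X : Polynomial ℝ) ^ (M41.Ar r w))) := by
          intro p hp
          obtain ⟨h1, h3, h4, h5⟩ := (M41.mem_alT _ _ _ _ _).1 hp
          rw [h4, h5, show 2 * g + (g' - g) = g + g' by ring]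
          have hset : ArchSet r (g + (g' - g)) (2 * n - (p.1.length + p.2.length)) =
              ArchSet r g' (2 * (n - i.1)) := by
            rw [h3, show g + (g' - g) = g' by ring, show 2 * n - 2 * i.1 = 2 * (n - i.1) by omega]
          rw [hset, mul_sum, mul_sum, mul_sum]
          apply sum_congr rfl
          intro w hw
          have hh := μ.step r g (2 * (n - i.1)) p w hg h1 (by
            rw [h5, show g + (g' - g) = g' by ring]; exact hw)
          rw [hh, Polynomial.C_mul]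
          ring
        rw [sum_congr rfl hconst, ← sum_mul, ← map_sum]
        unfold AT
        ring
      · rw [if_neg hg', mul_zero]
        apply sum_eq_zero
        intro p hp
        exfalso
        obtain ⟨h1, h3, h4, h5⟩ := (M41.mem_alT _ _ _ _ _).1 hp
        have := ((M41.mem_allowed _ _ _).1 h1).2.2.1
        omega
    · rw [if_neg hin]
      apply sum_eq_zero
      intro g' _
      rw [hfib g']
      apply sum_eq_zero
      intro p hp
      obtain ⟨h1, h3, h4, h5⟩ := (M41.mem_alT _ _ _ _ _).1 hp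
      rw [h3, show 2 * n - 2 * i.1 = 0 by omega, M41.ArchSet_zero, sum_empty, mul_zero]

lemma count (μ : MW) (n : ℕ) (hn : 1 ≤ n) :
    ∑ q ∈ M41.Om (2 * n - 1) n, Polynomial.C (wtM μ q) *
      (Polynomial.X : Polynomial ℝ) ^ (M41.Ar (2 * n - 1) q.2.2.2) =
        closeP (2 * n) (capM μ n) (wB μ (2 * n - 1)) n := by
  unfold M41.Om closeP
  rw [sum_sigma]
  simp_rw [sum_sigma, sum_product]
  rw [sum_comm]
  set r : ℕ := 2 * n - 1 with hr
  set f : ℕ → Polynomial ℝ := fun M => ∑ x ∈ Icc (1 : ℤ) r,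
    ∑ T ∈ CapSet r x M, ∑ w ∈ ArchSet r x (2 * n - M),
      Polynomial.C (μ.aw w * μ.aw T) *
        (Polynomial.X : Polynomial ℝ) ^ (M41.Ar r w) with hf
  have hodd : ∀ m, f (2 * m + 1) = 0 := by
    intro m
    apply sum_eq_zero
    intro x hx
    rw [M41.CapSet_empty H66.k5cap r x (2 * m + 1) (mem_Icc.1 hx).1 (by omega)]
    simp
  have hbig : ∀ M, r + 2 ≤ M → f M = 0 := by
    intro M hM
    apply sum_eq_zero
    intro x hx
    rw [M41.CapSet_empty H66.k5cap r x M (mem_Icc.1 hx).1 (by omega)]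
    simp
  have e1 : ∑ M ∈ range (r + 2), f M = ∑ M ∈ range (2 * (n + 1)), f M := by
    apply sum_subset
    · intro a ha; rw [mem_range] at *; omega
    · intro a _ ha
      rw [mem_range] at ha
      exact hbig a (by omega)
  have e0 : ∑ M ∈ range (r + 2), ∑ x ∈ Icc (1 : ℤ) r, ∑ T ∈ CapSet r x M,
      ∑ w ∈ ArchSet r x (2 * n - M), Polynomial.C (wtM μ ⟨x, M, T, w⟩) *
        (Polynomial.X : Polynomial ℝ) ^ (M41.Ar r w) = ∑ M ∈ range (r + 2), f M := rfl
  rw [e0, e1, M41.sum_range_even f hodd n]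
  apply sum_congr rfl
  intro m hm
  rw [mem_range] at hm
  rw [hf]
  simp only
  have e2 : ∑ g ∈ Icc (1 : ℤ) ((2 * n : ℕ) : ℤ), Polynomial.C (capM μ n m g) * wB μ r (n - m) g =
      ∑ g ∈ Icc (1 : ℤ) r, Polynomial.C (capM μ n m g) * wB μ r (n - m) g := by
    symm
    apply sum_subset
    · intro a ha; rw [mem_Icc] at *; push_cast; omega
    · intro a ha ha'
      rw [mem_Icc] at ha ha'
      push_cast at ha
      rw [cap_supp μ n m a (by omega)]
      simp
  rw [e2]
  apply sum_congr rfl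
  intro g hg
  have hg1 := (mem_Icc.1 hg).1
  rw [cW_eq]
  unfold cW wB
  rw [if_pos hg1, if_pos hg1, map_sum, sum_mul]
  apply sum_congr rfl
  intro T _
  rw [show 2 * n - 2 * m = 2 * (n - m) by omega, mul_sum]
  apply sum_congr rfl
  intro w _
  rw [← mul_assoc, ← Polynomial.C_mul, mul_comm (μ.aw w)]

end Pool.Agent.OC.KWG

namespace Pool.Agent.OC

open Finset Pool.Agent.Lib27 Pool.Agent.SapR Pool.Agent.Gap

/-- Module KWG: the weighted kernel and the area generating function. -/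
theorem kwg_thm : KWG_Stmt := by
  intro μ n hn
  exact ⟨KWG.kern μ (2 * n - 1), KWG.wB μ (2 * n - 1), KWG.kern_loc μ _,
    KWG.kern_crit μ _, KWG.kern_level μ _, KWG.isCap μ n hn, KWG.cap_one μ n hn,
    KWG.cap_supp μ n, KWG.sol μ (2 * n - 1), KWG.count μ n hn⟩

end Pool.Agent.OC
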