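import Pool.Agent.OC.Stmts
import Pool.Agent.OC.Lib

/-!
# Convex occupation energies (MP_f6626d_co): loops are exponentially small (module LOOP)
-/

set_option autoImplicit false

namespace Pool.Agent.OC

open Finset Pool.Agent.Lib27 Pool.Agent.SapR
open Pool.Agent.MG (Bri Brp Irr Nc Fp Fpp Bad SB CC SW dip cc chi rfa)
open scoped NNReal ENNReal

namespace LOOP

/-! ### reflection -/

theorem rfa_Lp {l : Wd} (hl : l ∈ Lp) : rfa l ∈ Lp :=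
  ⟨MG.SAWs_rfa hl.1, by rw [ep_rfa, hl.2, neg_zero]⟩

theorem Wl_rfa (b : ℕ → ℝ≥0) (z : ℝ≥0∞) (l : Wd) : Wl b z (rfa l) = Wl b z l := by
  unfold Wl
  rw [MG.rfa_length, ← BW_neg b (fun k => occ l k + if k = 0 then 1 else 2)]
  congr 1
  refine BW_congr fun k => ?_
  rw [occ_rfa]
  by_cases hk : k = 0
  · rw [if_pos hk, if_pos (by omega)]
  · rw [if_neg hk, if_neg (by omega)]

theorem rfa_inj {l l' : Wd} (h : rfa l = rfa l') : l = l' := by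
  rw [← MG.rfa_rfa l, h, MG.rfa_rfa]

theorem Wl_mono (b : ℕ → ℝ≥0) {z z' : ℝ≥0∞} (h : z ≤ z') (l : Wd) : Wl b z l ≤ Wl b z' l :=
  mul_le_mul_left (pow_le_pow_left₀ bot_le h _) _

/-! ### extension and height -/

theorem hgt_eq {l : Wd} {d : ℕ} (h1 : 0 < occ l d) (h2 : ∀ k : ℤ, (d : ℤ) < k → occ l k = 0) :
    FL.hgt l = d := by
  apply le_antisymm
  · unfold FL.hgt
    refine Finset.sup_le fun p hp => ?_
    by_contra hcon
    have h3 : (d : ℤ) < lev p := by omega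
    exact occ_eq_zero.1 (h2 _ h3) p (List.mem_toFinset.1 hp) rfl
  · obtain ⟨p, hp, he⟩ := occ_pos.1 h1
    have h3 : (lev p).toNat ≤ FL.hgt l :=
      Finset.le_sup (f := fun p => (lev p).toNat) (List.mem_toFinset.2 hp)
    omega

theorem hgt_or {l : Wd} {d : ℕ} (hd : ext l = d) : FL.hgt l = d ∨ FL.hgt (rfa l) = d := by
  have hne : (vt 0 l).toFinset.Nonempty := ⟨_, List.mem_toFinset.2 (ep_mem_vt 0 l)⟩
  obtain ⟨p, hp, he⟩ := Finset.exists_mem_eq_sup _ hne (fun p => (lev p).natAbs)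
  have hpd : (lev p).natAbs = d := by rw [← hd]; exact he.symm
  have hp' := List.mem_toFinset.1 hp
  have hocc : ∀ k : ℤ, d < k.natAbs → occ l k = 0 := by
    intro k hk
    refine occ_eq_zero.2 fun q hq hqk => ?_
    have h3 : (lev q).natAbs ≤ ext l :=
      Finset.le_sup (f := fun p => (lev p).natAbs) (List.mem_toFinset.2 hq)
    rw [hqk] at h3
    omega
  rcases le_total 0 (lev p) with h0 | h0
  · left
    exact hgt_eq (occ_pos.2 ⟨p, hp', by omega⟩) fun k hk => hocc k (by omega)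
  · right
    refine hgt_eq ?_ fun k hk => ?_
    · rw [occ_rfa]
      exact occ_pos.2 ⟨p, hp', by omega⟩
    · rw [occ_rfa]
      exact hocc (-k) (by omega)

theorem length_ge {l : Wd} {D κ : ℕ} (h : ∀ g : ℕ, 1 ≤ g → g ≤ D → κ ≤ occ l g) :
    D * κ ≤ l.length := by
  have h1 := sum_occ l (Icc (-((l.length : ℤ) + D)) (l.length + D)) (fun p hp => by
    have := abs_lev_le hp
    rw [abs_le] at this
    rw [Finset.mem_Icc]
    constructor <;> omega)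
  have h2 : ∑ g ∈ range (D + 1), occ l (g : ℤ) ≤
      ∑ k ∈ Icc (-((l.length : ℤ) + D)) (l.length + D), occ l k := by
    rw [← Finset.sum_image (f := fun k => occ l k) (g := fun g : ℕ => (g : ℤ))
      (s := range (D + 1)) (fun a _ b _ hab => Int.ofNat_inj.1 hab)]
    refine Finset.sum_le_sum_of_subset ?_
    intro k hk
    obtain ⟨g, hg, rfl⟩ := Finset.mem_image.1 hk
    rw [Finset.mem_range] at hg
    rw [Finset.mem_Icc]
    constructor <;> omega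
  rw [Finset.sum_range_succ', h1] at h2
  have h3 : D * κ ≤ ∑ g ∈ range D, occ l ((g + 1 : ℕ) : ℤ) := by
    calc D * κ = ∑ _g ∈ range D, κ := by rw [sum_const, card_range, smul_eq_mul]
      _ ≤ _ := sum_le_sum fun g hg => h (g + 1) (by omega) (by
          rw [Finset.mem_range] at hg
          omega)
  have h4 : 0 < occ l ((0 : ℕ) : ℤ) := occ_zero_pos l
  omega

/-- either the loop is long, or two levels are rarely visited -/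
theorem cover {D κ : ℕ} (l : Wd) : D * (κ + 1) ≤ l.length ∨
    ∃ g g' : ℕ, 1 ≤ g ∧ g ≤ D ∧ 1 ≤ g' ∧ g' ≤ D ∧ cut2 g g' l ≤ 2 * κ := by
  by_cases h1 : ∀ g : ℕ, 1 ≤ g → g ≤ D → κ + 1 ≤ occ l g
  · left
    exact length_ge h1
  by_cases h2 : ∀ g : ℕ, 1 ≤ g → g ≤ D → κ + 1 ≤ occ (rfa l) g
  · left
    have := length_ge h2
    rwa [MG.rfa_length] at this
  · right
    push Not at h1 h2
    obtain ⟨g, a1, a2, a3⟩ := h1
    obtain ⟨g', b1, b2, b3⟩ := h2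
    rw [occ_rfa] at b3
    refine ⟨g, g', a1, a2, b1, b2, ?_⟩
    unfold cut2
    omega

theorem cut2_rfa (g g' : ℕ) (l : Wd) : cut2 g' g (rfa l) = cut2 g g' l := by
  unfold cut2
  rw [occ_rfa, occ_rfa, neg_neg, add_comm]

/-- loops of height `d` with two rarely visited levels -/
def Cf (d D K : ℕ) : Set Wd := {l | l ∈ Lp ∧ FL.hgt l = d ∧
  ∃ g g' : ℕ, 1 ≤ g ∧ g ≤ D ∧ 1 ≤ g' ∧ g' ≤ D ∧ cut2 g g' l ≤ K}

theorem ext_split (b : ℕ → ℝ≥0) (z : ℝ≥0∞) {d D κ N : ℕ} (hN : N ≤ D * (κ + 1)) :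
    gs (Wl b z) {l | l ∈ Lp ∧ ext l = d} ≤
      gs (Wl b z) {l | l ∈ Lp ∧ ext l ≤ d ∧ N ≤ l.length} + 2 * gs (Wl b z) (Cf d D (2 * κ)) := by
  have h1 : gs (Wl b z) {l | rfa l ∈ Cf d D (2 * κ)} ≤ gs (Wl b z) (Cf d D (2 * κ)) :=
    gs_le_of_inj _ _ rfa (fun l hl => hl) (fun l _ l' _ h => rfa_inj h)
      (fun l _ => (Wl_rfa b z l).ge)
  have h2 : gs (Wl b z) {l | l ∈ Lp ∧ ext l = d} ≤
      gs (Wl b z) ({l | l ∈ Lp ∧ ext l ≤ d ∧ N ≤ l.length} ∪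
        (Cf d D (2 * κ) ∪ {l | rfa l ∈ Cf d D (2 * κ)})) := by
    refine gs_mono _ ?_
    rintro l ⟨hl, he⟩
    rcases cover (D := D) (κ := κ) l with hc | ⟨g, g', a1, a2, b1, b2, hc⟩
    · exact Or.inl ⟨hl, he.le, hN.trans hc⟩
    · rcases hgt_or he with hh | hh
      · exact Or.inr (Or.inl ⟨hl, hh, g, g', a1, a2, b1, b2, hc⟩)
      · refine Or.inr (Or.inr ⟨rfa_Lp hl, hh, g', g, b1, b2, a1, a2, ?_⟩)
        rw [cut2_rfa]
        exact hc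
  calc gs (Wl b z) {l | l ∈ Lp ∧ ext l = d}
      ≤ gs (Wl b z) {l | l ∈ Lp ∧ ext l ≤ d ∧ N ≤ l.length} +
        (gs (Wl b z) (Cf d D (2 * κ)) + gs (Wl b z) {l | rfa l ∈ Cf d D (2 * κ)}) :=
        h2.trans ((gs_union _ _ _).trans (add_le_add_right (gs_union _ _ _) _))
    _ ≤ gs (Wl b z) {l | l ∈ Lp ∧ ext l ≤ d ∧ N ≤ l.length} +
        (gs (Wl b z) (Cf d D (2 * κ)) + gs (Wl b z) (Cf d D (2 * κ))) := by gcongr
    _ = _ := by rw [← two_mul (gs (Wl b z) (Cf d D (2 * κ)))]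

theorem Cf_le (b : ℕ → ℝ≥0) (z : ℝ≥0∞) {d D K : ℕ} {A : ℝ≥0∞}
    (hA : ∀ g g' : ℕ, 1 ≤ g → g ≤ D → 1 ≤ g' → g' ≤ D →
      gs (Wl b z) {l | l ∈ Lp ∧ FL.hgt l = d ∧ cut2 g g' l ≤ K} ≤ A) :
    gs (Wl b z) (Cf d D K) ≤ (D : ℝ≥0∞) ^ 2 * A := by
  refine (gs_le_sum _ (Icc 1 D ×ˢ Icc 1 D)
    (fun i => {l | l ∈ Lp ∧ FL.hgt l = d ∧ cut2 i.1 i.2 l ≤ K}) _ ?_).trans ?_
  · rintro l ⟨h1, h2, g, g', a1, a2, b1, b2, h3⟩
    exact ⟨(g, g'), Finset.mem_product.2 ⟨Finset.mem_Icc.2 ⟨a1, a2⟩, Finset.mem_Icc.2 ⟨b1, b2⟩⟩,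
      h1, h2, h3⟩
  · refine (Finset.sum_le_card_nsmul _ _ A fun i hi => ?_).trans ?_
    · obtain ⟨hi1, hi2⟩ := Finset.mem_product.1 hi
      rw [Finset.mem_Icc] at hi1 hi2
      exact hA i.1 i.2 hi1.1 hi1.2 hi2.1 hi2.2
    · rw [Finset.card_product, Nat.card_Icc, Nat.add_sub_cancel, nsmul_eq_mul, Nat.cast_mul, sq]

/-! ### one pair of levels -/

theorem pair_le (h2 : LPF_Stmt) (h3 : LPE_Stmt) {b : ℕ → ℝ≥0} (hb : IsW b) {z y C : ℝ≥0∞}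
    (hz : z ≤ 1) (hy : y ≤ 1) (hC : 1 ≤ C) (hd : ∀ v, z ^ v * (b v : ℝ≥0∞) ≤ C * y ^ v)
    {Ca ra B : ℝ≥0∞} (hA : ∀ e, gs (Wh b z) (Hl e) ≤ Ca * ra ^ e) (hra : ra ≤ 1)
    (hB : chi y + 2 * ∑' e, gs (Wh b z) (Hl e) ≤ B) {g g' d D K : ℕ} (hg : 1 ≤ g) (hgD : g ≤ D)
    (hg' : 1 ≤ g') (hgD' : g' ≤ D) (hD : D < d) :
    z ^ (K + 1) * gs (Wl b z) {l | l ∈ Lp ∧ FL.hgt l = d ∧ cut2 g g' l ≤ K} ≤
      C ^ (2 * D + 1) * ((K : ℝ≥0∞) ^ 2 * B ^ (2 * K) * (Ca * ra ^ (d - D))) := by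
  have e1 : z ^ (K + 1) * gs (Wl b z) {l | l ∈ Lp ∧ FL.hgt l = d ∧ cut2 g g' l ≤ K} ≤
      C ^ (g + g' + 1) *
        gs (Wg b z y g g') {l | l ∈ Lp ∧ FL.hgt l = d ∧ cut2 g g' l ≤ K} := by
    rw [← gs_mul_left, ← gs_mul_left]
    exact gs_le _ _ subset_rfl fun l hl => h3 b z y C hb hz hy hd g g' K l hg hg' hl.1 hl.2.2
  have e2 := h2 b z y hb g g' d K hg hg' (by omega)
  have e3 : gs (Wh b z) (Hl (d - g)) ≤ Ca * ra ^ (d - D) :=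
    (hA _).trans (mul_le_mul_right (pow_le_pow_of_le_one bot_le hra (by omega)) _)
  refine e1.trans (mul_le_mul' (pow_le_pow_right₀ hC (by omega)) (e2.trans ?_))
  exact mul_le_mul' (mul_le_mul_right (pow_le_pow_left₀ bot_le hB _) _) e3

/-! ### numbers -/

theorem exists_pow_le {x c : ℝ≥0} (hx : x < 1) (A : ℝ≥0) (hc : 0 < c) :
    ∃ n : ℕ, 1 ≤ n ∧ A * x ^ n ≤ c := by
  have hA : 0 < c / (A + 1) := div_pos hc (by positivity)
  obtain ⟨n, hn⟩ := NNReal.exists_pow_lt_of_lt_one hA hx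
  refine ⟨n + 1, by omega, ?_⟩
  calc A * x ^ (n + 1) ≤ (A + 1) * (c / (A + 1)) := by
        refine mul_le_mul' (by simp) ?_
        exact (pow_le_pow_of_le_one zero_le hx.le (Nat.le_succ n)).trans hn.le
    _ = c := by field_simp

theorem long_num {C θ : ℝ≥0} {K1 : ℕ} (h : C ^ 2 * θ ^ K1 ≤ 1 / 2) (d : ℕ) :
    C ^ (2 * d + 1) * θ ^ (K1 * d) ≤ C * (1 / 2) ^ d := by
  calc C ^ (2 * d + 1) * θ ^ (K1 * d) = C * (C ^ 2 * θ ^ K1) ^ d := by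
        rw [mul_pow, ← pow_mul, ← pow_mul, pow_succ]
        ring
    _ ≤ C * (1 / 2) ^ d := mul_le_mul_right (pow_le_pow_left₀ zero_le h _) _

theorem short_num {C ra : ℝ≥0} {n0 d D : ℕ} (h : C ^ 2 * ra ^ n0 ≤ 1) (hra : ra ≤ 1)
    (hn0 : 1 ≤ n0) (hD : D * (4 * n0) ≤ d) :
    C ^ (2 * D + 1) * ra ^ (d - D) ≤ C * ra ^ (d / 2) := by
  have h1 : D * 1 ≤ D * n0 := Nat.mul_le_mul_left D hn0
  have h2 : D * (4 * n0) = 4 * (D * n0) := by ring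
  calc C ^ (2 * D + 1) * ra ^ (d - D) ≤ C ^ (2 * D + 1) * ra ^ (n0 * D + d / 2) := by
        refine mul_le_mul_right (pow_le_pow_of_le_one zero_le hra ?_) _
        rw [mul_comm n0 D]
        omega
    _ = C * ((C ^ 2 * ra ^ n0) ^ D * ra ^ (d / 2)) := by
        rw [mul_pow, ← pow_mul, ← pow_mul, pow_succ, pow_add]
        ring
    _ ≤ C * (1 * ra ^ (d / 2)) := by
        gcongr
        exact pow_le_one' h D
    _ = C * ra ^ (d / 2) := by rw [one_mul]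

theorem sum_num {M1 M2 ra r0 : ℝ≥0} {d D : ℕ} (hr0 : 1 / 4 ≤ r0) (hra : ra ≤ r0) (hD : D ≤ d) :
    M1 * (1 / 2) ^ d + 2 * ((D : ℝ≥0) ^ 2 * (M2 * ra ^ (d / 2))) ≤
      (M1 + 2 * M2) * ((d : ℝ≥0) + 1) ^ 2 * r0 ^ (d / 2) := by
  have h1 : (1 / 2 : ℝ≥0) ^ d ≤ r0 ^ (d / 2) := by
    calc (1 / 2 : ℝ≥0) ^ d ≤ (1 / 2 : ℝ≥0) ^ (2 * (d / 2)) :=
          pow_le_pow_of_le_one zero_le (by
            rw [div_le_one (by norm_num)]
            norm_num) (by omega)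
      _ = (1 / 4 : ℝ≥0) ^ (d / 2) := by
          rw [pow_mul]
          congr 1
          norm_num
      _ ≤ r0 ^ (d / 2) := pow_le_pow_left₀ zero_le hr0 _
  have h2 : ra ^ (d / 2) ≤ r0 ^ (d / 2) := pow_le_pow_left₀ zero_le hra _
  have h3 : (D : ℝ≥0) ^ 2 ≤ ((d : ℝ≥0) + 1) ^ 2 := by
    refine pow_le_pow_left₀ zero_le ?_ 2
    have : (D : ℝ≥0) ≤ d := by exact_mod_cast hD
    exact this.trans (by simp)
  have h4 : (1 : ℝ≥0) ≤ ((d : ℝ≥0) + 1) ^ 2 := one_le_pow₀ (by simp)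
  calc M1 * (1 / 2) ^ d + 2 * ((D : ℝ≥0) ^ 2 * (M2 * ra ^ (d / 2)))
      ≤ M1 * (((d : ℝ≥0) + 1) ^ 2 * r0 ^ (d / 2)) +
        2 * (((d : ℝ≥0) + 1) ^ 2 * (M2 * r0 ^ (d / 2))) := by
        gcongr
        calc (1 / 2 : ℝ≥0) ^ d ≤ r0 ^ (d / 2) := h1
          _ = 1 * r0 ^ (d / 2) := (one_mul _).symm
          _ ≤ _ := mul_le_mul_left h4 _
    _ = _ := by ring

theorem small_num {M C r0 : ℝ≥0} {n d : ℕ} (hC : 1 ≤ C) (hr0 : 0 < r0) (hr1 : r0 ≤ 1)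
    (hd : d < 2 * n) :
    M * C ^ (2 * d + 1) ≤ (M * C ^ (4 * n + 1) * (r0⁻¹) ^ n) * ((d : ℝ≥0) + 1) ^ 2 *
      r0 ^ (d / 2) := by
  have h4 : (1 : ℝ≥0) ≤ ((d : ℝ≥0) + 1) ^ 2 := one_le_pow₀ (by simp)
  have h5 : 1 ≤ (r0⁻¹) ^ n * r0 ^ (d / 2) := by
    calc (1 : ℝ≥0) = (r0⁻¹) ^ n * r0 ^ n := by
          rw [← mul_pow, inv_mul_cancel₀ hr0.ne', one_pow]
      _ ≤ (r0⁻¹) ^ n * r0 ^ (d / 2) :=
          mul_le_mul_right (pow_le_pow_of_le_one zero_le hr1 (by omega)) _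
  calc M * C ^ (2 * d + 1) ≤ M * C ^ (4 * n + 1) :=
        mul_le_mul_right (pow_le_pow_right₀ hC (by omega)) _
    _ = M * C ^ (4 * n + 1) * 1 * 1 := by ring
    _ ≤ M * C ^ (4 * n + 1) * ((d : ℝ≥0) + 1) ^ 2 * ((r0⁻¹) ^ n * r0 ^ (d / 2)) := by
        gcongr
    _ = _ := by ring

/-- the tail of the series -/
theorem tail_num (M : ℝ≥0) {r0 : ℝ≥0} (h0 : 0 < r0) (hr0 : r0 < 1) :
    ∃ (C r : ℝ≥0) (u : ℕ → ℝ≥0), r < 1 ∧ (∑' k, (u k : ℝ≥0∞) ≤ C) ∧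
      ∀ k d : ℕ, d ≤ k → M * ((k : ℝ≥0) + 1) ^ 2 * r0 ^ (k / 2) ≤ u k * r ^ d := by
  set s : ℝ≥0 := NNReal.sqrt r0 with hs
  set t : ℝ≥0 := NNReal.sqrt s with ht
  have hs0 : 0 < s := NNReal.sqrt_pos.2 h0
  have hs1 : s < 1 := by
    rw [hs, ← NNReal.sqrt_one]
    exact NNReal.sqrt_lt_sqrt.2 hr0
  have ht0 : 0 < t := NNReal.sqrt_pos.2 hs0
  have ht1 : t < 1 := by
    rw [ht, ← NNReal.sqrt_one]
    exact NNReal.sqrt_lt_sqrt.2 hs1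
  have hs2 : s ^ 2 = r0 := NNReal.sq_sqrt r0
  have ht2 : t ^ 2 = s := NNReal.sq_sqrt s
  have hsum : Summable (fun k : ℕ => ((k : ℝ≥0) + 1) ^ 2 * t ^ k) := by
    have h1 : Summable (fun k : ℕ => ((k : ℝ) ^ 2 * (t : ℝ) ^ k)) :=
      summable_pow_mul_geometric_of_norm_lt_one 2 (by
        rw [Real.norm_of_nonneg (NNReal.coe_nonneg t)]
        exact_mod_cast ht1)
    have h2 : Summable (fun k : ℕ => ((k : ℝ≥0) ^ 2 * t ^ k)) := by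
      rw [← NNReal.summable_coe]
      simpa using h1
    have h3 : Summable (fun k : ℕ => (((k + 1 : ℕ) : ℝ≥0) ^ 2 * t ^ (k + 1))) :=
      (NNReal.summable_nat_add_iff 1).2 h2
    have h4 := h3.mul_left (t⁻¹)
    refine h4.congr fun k => ?_
    push_cast
    field_simp
    ring
  refine ⟨∑' k : ℕ, M * s⁻¹ * (((k : ℝ≥0) + 1) ^ 2 * t ^ k), t,
    fun k => M * s⁻¹ * (((k : ℝ≥0) + 1) ^ 2 * t ^ k), ht1, ?_, ?_⟩
  · rw [ENNReal.coe_tsum (hsum.mul_left _)]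
  · intro k d hdk
    have h5 : r0 ^ (k / 2) ≤ s⁻¹ * (t ^ k * t ^ d) := by
      have h6 : s * r0 ^ (k / 2) ≤ t ^ k * t ^ d := by
        calc s * r0 ^ (k / 2) = s ^ (2 * (k / 2) + 1) := by
              rw [← hs2, ← pow_mul, pow_succ]
              ring
          _ ≤ s ^ k := pow_le_pow_of_le_one zero_le hs1.le (by omega)
          _ = t ^ k * t ^ k := by
              rw [← ht2, ← pow_mul, ← pow_add]
              congr 1
              ring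
          _ ≤ t ^ k * t ^ d := mul_le_mul_right (pow_le_pow_of_le_one zero_le ht1.le hdk) _
      calc r0 ^ (k / 2) = s⁻¹ * (s * r0 ^ (k / 2)) := by
            rw [← mul_assoc, inv_mul_cancel₀ hs0.ne', one_mul]
        _ ≤ _ := mul_le_mul_right h6 _
    calc M * ((k : ℝ≥0) + 1) ^ 2 * r0 ^ (k / 2)
        ≤ M * ((k : ℝ≥0) + 1) ^ 2 * (s⁻¹ * (t ^ k * t ^ d)) := mul_le_mul_right h5 _
      _ = _ := by ring

theorem le_of_mul {K : ℝ≥0} {x y : ℝ≥0∞} (hK : 0 < K) (h : (K : ℝ≥0∞) * x ≤ y) :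
    x ≤ ((K⁻¹ : ℝ≥0) : ℝ≥0∞) * y := by
  have hK0 : (K : ℝ≥0∞) ≠ 0 := by exact_mod_cast hK.ne'
  have hKt : (K : ℝ≥0∞) ≠ ∞ := ENNReal.coe_ne_top
  have e : x = (K : ℝ≥0∞)⁻¹ * (K * x) := by
    rw [← mul_assoc, ENNReal.inv_mul_cancel hK0 hKt, one_mul]
  rw [e, ENNReal.coe_inv hK.ne']
  exact mul_le_mul_right h _

/-- from bounds for every extension to bounds for the tails -/
theorem tail (b : ℕ → ℝ≥0) (z : ℝ≥0∞) {C r : ℝ≥0} {u : ℕ → ℝ≥0} (hu : ∑' k, (u k : ℝ≥0∞) ≤ C)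
    (h : ∀ k d : ℕ, d ≤ k → gs (Wl b z) {l | l ∈ Lp ∧ ext l = k} ≤
      ((u k * r ^ d : ℝ≥0) : ℝ≥0∞)) (d : ℕ) :
    gs (Wl b z) {l | l ∈ Lp ∧ d ≤ ext l} ≤ C * (r : ℝ≥0∞) ^ d := by
  refine (gs_fiber _ _ ext).trans ?_
  calc ∑' k, gs (Wl b z) {a | a ∈ {l | l ∈ Lp ∧ d ≤ ext l} ∧ ext a = k}
      ≤ ∑' k, (u k : ℝ≥0∞) * (r : ℝ≥0∞) ^ d := by
        refine ENNReal.tsum_le_tsum fun k => ?_
        by_cases hk : d ≤ k
        · refine (gs_mono _ ?_).trans ((h k d hk).trans_eq (by push_cast; rfl))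
          rintro l ⟨⟨h1, _⟩, h3⟩
          exact ⟨h1, h3⟩
        · have he : {a | a ∈ {l | l ∈ Lp ∧ d ≤ ext l} ∧ ext a = k} = (∅ : Set Wd) := by
            refine Set.eq_empty_iff_forall_notMem.2 ?_
            rintro l ⟨⟨_, h2⟩, h3⟩
            omega
          rw [he, gs_empty]
          exact bot_le
    _ = (∑' k, (u k : ℝ≥0∞)) * (r : ℝ≥0∞) ^ d := ENNReal.tsum_mul_right
    _ ≤ _ := mul_le_mul_left hu _

end LOOP

theorem loop_thm (h1 : ARC_Stmt) (h2 : LPF_Stmt) (h3 : LPE_Stmt) (h4 : LPD_Stmt) : LOOP_Stmt := by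
  intro P
  obtain ⟨eta, Ca, ra, heta, hetaP, hra, hA⟩ := h1 P
  have hy1 : 0 < P.y1 := P.y_pos.trans P.y_lt
  -- the constants
  set θ : ℝ≥0 := P.y / P.y1 with hθ
  have hθ1 : θ < 1 := (div_lt_one hy1).2 P.y_lt
  obtain ⟨X, hX⟩ : ∃ X : ℝ≥0, (X : ℝ≥0∞) = chi (P.y1 : ℝ≥0∞) :=
    ⟨_, ENNReal.coe_toNNReal P.chi_fin⟩
  have hgeo : ∑' e : ℕ, (Ca : ℝ≥0∞) * (ra : ℝ≥0∞) ^ e ≠ ∞ := by
    rw [ENNReal.tsum_mul_left, ENNReal.tsum_geometric]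
    refine ENNReal.mul_ne_top ENNReal.coe_ne_top (ENNReal.inv_ne_top.2 ?_)
    exact (tsub_pos_of_lt (by exact_mod_cast hra)).ne'
  have hBt : chi (P.y1 : ℝ≥0∞) + 2 * ∑' e : ℕ, (Ca : ℝ≥0∞) * (ra : ℝ≥0∞) ^ e ≠ ∞ :=
    ENNReal.add_ne_top.2 ⟨P.chi_fin, ENNReal.mul_ne_top (by norm_num) hgeo⟩
  obtain ⟨B, hB⟩ : ∃ B : ℝ≥0, (B : ℝ≥0∞) =
      chi (P.y1 : ℝ≥0∞) + 2 * ∑' e : ℕ, (Ca : ℝ≥0∞) * (ra : ℝ≥0∞) ^ e :=
    ⟨_, ENNReal.coe_toNNReal hBt⟩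
  obtain ⟨K1, -, hK1⟩ := LOOP.exists_pow_le hθ1 (P.C ^ 2) (c := 1 / 2) (by positivity)
  obtain ⟨n0, hn0, hn0'⟩ := LOOP.exists_pow_le hra (P.C ^ 2) (c := 1) one_pos
  set n : ℕ := 4 * n0 with hn
  set κ : ℕ := 2 * K1 * n with hκ
  set r0 : ℝ≥0 := max ra (1 / 4) with hr0
  have hr00 : 0 < r0 := lt_of_lt_of_le (by positivity) (le_max_right _ _)
  have hr01 : r0 < 1 := max_lt hra (by
    rw [div_lt_one (by norm_num)]
    norm_num)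
  set M1 : ℝ≥0 := P.zl⁻¹ * X * P.C with hM1
  set M2 : ℝ≥0 := (P.zl ^ (2 * κ + 1))⁻¹ * ((((2 * κ : ℕ) : ℝ≥0)) ^ 2 * B ^ (2 * (2 * κ)) *
    (Ca * P.C)) with hM2
  set M3 : ℝ≥0 := P.zl⁻¹ * X * P.C ^ (4 * n + 1) * (r0⁻¹) ^ n with hM3
  obtain ⟨C, r, u, hr, hu, hur⟩ := LOOP.tail_num (max (M1 + 2 * M2) M3) hr00 hr01
  refine ⟨eta, C, r, heta, hetaP, hr, ?_⟩
  intro v1 b hb z' hz' d'
  have hmono : gs (Wl b z') {l | l ∈ Lp ∧ d' ≤ ext l} ≤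
      gs (Wl b ((1 + eta) * zst b)) {l | l ∈ Lp ∧ d' ≤ ext l} :=
    gs_le _ _ subset_rfl fun l _ => LOOP.Wl_mono b hz' l
  refine hmono.trans ?_
  set z : ℝ≥0∞ := (1 + eta) * zst b with hz
  have hzP : z ≤ (1 + P.eta) * zst b := by
    rw [hz]
    gcongr
  have hzl : (P.zl : ℝ≥0∞) ≤ z := by
    refine hb.z_ge.trans ?_
    calc zst b = 1 * zst b := (one_mul _).symm
      _ ≤ (1 + eta) * zst b := mul_le_mul_left (le_add_right le_rfl) _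
  have hz1 : z ≤ 1 := by
    refine hzP.trans ?_
    calc (1 + (P.eta : ℝ≥0∞)) * zst b ≤ (1 + 1) * 2⁻¹ := by
          refine mul_le_mul' ?_ hb.z_le
          gcongr
          exact_mod_cast P.eta_le
      _ = 1 := by
          rw [one_add_one_eq_two]
          exact ENNReal.mul_inv_cancel (by norm_num) (by norm_num)
  have hdom : ∀ v, z ^ v * (b v : ℝ≥0∞) ≤ P.C * (P.y : ℝ≥0∞) ^ v := fun v =>
    (mul_le_mul_left (pow_le_pow_left₀ bot_le hzP v) _).trans (hb.dom v)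
  have hAz : ∀ e, gs (Wh b z) (Hl e) ≤ Ca * (ra : ℝ≥0∞) ^ e := hA v1 b hb z le_rfl
  have hBz : chi (P.y : ℝ≥0∞) + 2 * ∑' e, gs (Wh b z) (Hl e) ≤ B := by
    rw [hB]
    refine add_le_add (MG.gw_mono_x (by exact_mod_cast P.y_lt.le) _) ?_
    exact mul_le_mul_right (ENNReal.tsum_le_tsum hAz) _
  have hy : (P.y : ℝ≥0∞) ≤ 1 := by exact_mod_cast (P.y_lt.trans P.y1_lt).le
  have hC1 : (1 : ℝ≥0∞) ≤ P.C := by exact_mod_cast P.one_le_C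
  have hra1 : (ra : ℝ≥0∞) ≤ 1 := by exact_mod_cast hra.le
  -- long loops
  have hlong : ∀ d N : ℕ, gs (Wl b z) {l | l ∈ Lp ∧ ext l ≤ d ∧ N ≤ l.length} ≤
      ((P.zl⁻¹ * X * (P.C ^ (2 * d + 1) * θ ^ N) : ℝ≥0) : ℝ≥0∞) := by
    intro d N
    have a1 := h4 P v1 b hb z hzP d N
    have a2 : (P.zl : ℝ≥0∞) * gs (Wl b z) {l | l ∈ Lp ∧ ext l ≤ d ∧ N ≤ l.length} ≤
        (P.C : ℝ≥0∞) ^ (2 * d + 1) * ((P.y : ℝ≥0∞) / P.y1) ^ N * chi P.y1 :=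
      (mul_le_mul_left hzl _).trans a1
    refine (LOOP.le_of_mul P.zl_pos a2).trans_eq ?_
    rw [← hX, ← ENNReal.coe_div hy1.ne', ← hθ]
    push_cast
    ring
  -- every extension
  have hE : ∀ d : ℕ, gs (Wl b z) {l | l ∈ Lp ∧ ext l = d} ≤
      ((max (M1 + 2 * M2) M3 * ((d : ℝ≥0) + 1) ^ 2 * r0 ^ (d / 2) : ℝ≥0) : ℝ≥0∞) := by
    intro d
    by_cases hd : d < 2 * n
    · have b1 := hlong d 0
      have b2 : gs (Wl b z) {l | l ∈ Lp ∧ ext l = d} ≤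
          gs (Wl b z) {l | l ∈ Lp ∧ ext l ≤ d ∧ 0 ≤ l.length} :=
        gs_mono _ fun l hl => ⟨hl.1, hl.2.le, Nat.zero_le _⟩
      refine b2.trans (b1.trans ?_)
      rw [ENNReal.coe_le_coe, pow_zero, mul_one]
      refine (LOOP.small_num P.one_le_C hr00 hr01.le hd).trans ?_
      rw [← hM3]
      gcongr
      exact le_max_right _ _
    · have hn4 : 0 < n := by omega
      set D : ℕ := d / n with hDdef
      have hDn : D * n ≤ d := Nat.div_mul_le_self d n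
      have hDn' : d < (D + 1) * n := by
        rw [add_mul, one_mul]
        have := Nat.lt_div_mul_add (a := d) hn4
        exact this
      have hDd : D < d := by
        have : D * 4 ≤ D * n := Nat.mul_le_mul_left D (by omega)
        omega
      have hN : K1 * d ≤ D * (κ + 1) := by
        have c1 : d ≤ 2 * (D * n) := by
          rw [add_mul, one_mul] at hDn'
          omega
        calc K1 * d ≤ K1 * (2 * (D * n)) := Nat.mul_le_mul_left _ c1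
          _ = D * κ := by rw [hκ]; ring
          _ ≤ D * (κ + 1) := Nat.mul_le_mul_left _ (by omega)
      have b1 := LOOP.ext_split b z (d := d) hN
      have b2 := hlong d (K1 * d)
      have b3 : ∀ g g' : ℕ, 1 ≤ g → g ≤ D → 1 ≤ g' → g' ≤ D →
          gs (Wl b z) {l | l ∈ Lp ∧ FL.hgt l = d ∧ cut2 g g' l ≤ 2 * κ} ≤
            ((M2 * ra ^ (d / 2) : ℝ≥0) : ℝ≥0∞) := by
        intro g g' c1 c2 c3 c4
        have a1 := LOOP.pair_le h2 h3 hb.w hz1 hy hC1 hdom hAz hra1 hBz (K := 2 * κ) c1 c2 c3 c4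
          hDd
        have a2 : ((P.zl ^ (2 * κ + 1) : ℝ≥0) : ℝ≥0∞) *
            gs (Wl b z) {l | l ∈ Lp ∧ FL.hgt l = d ∧ cut2 g g' l ≤ 2 * κ} ≤
            (P.C : ℝ≥0∞) ^ (2 * D + 1) * (((2 * κ : ℕ) : ℝ≥0∞) ^ 2 * (B : ℝ≥0∞) ^ (2 * (2 * κ)) *
              (Ca * (ra : ℝ≥0∞) ^ (d - D))) := by
          refine (mul_le_mul_left ?_ _).trans a1
          rw [ENNReal.coe_pow]
          exact pow_le_pow_left₀ bot_le hzl _
        refine (LOOP.le_of_mul (pow_pos P.zl_pos _) a2).trans ?_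
        have a3 := LOOP.short_num hn0' hra.le hn0 (D := D) (d := d) hDn
        calc (((P.zl ^ (2 * κ + 1))⁻¹ : ℝ≥0) : ℝ≥0∞) *
            ((P.C : ℝ≥0∞) ^ (2 * D + 1) * (((2 * κ : ℕ) : ℝ≥0∞) ^ 2 *
              (B : ℝ≥0∞) ^ (2 * (2 * κ)) * (Ca * (ra : ℝ≥0∞) ^ (d - D))))
            = (((P.zl ^ (2 * κ + 1))⁻¹ * ((((2 * κ : ℕ) : ℝ≥0)) ^ 2 * B ^ (2 * (2 * κ)) * Ca) *
                (P.C ^ (2 * D + 1) * ra ^ (d - D)) : ℝ≥0) : ℝ≥0∞) := by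
              push_cast
              ring
          _ ≤ (((P.zl ^ (2 * κ + 1))⁻¹ * ((((2 * κ : ℕ) : ℝ≥0)) ^ 2 * B ^ (2 * (2 * κ)) * Ca) *
                (P.C * ra ^ (d / 2)) : ℝ≥0) : ℝ≥0∞) := by
              rw [ENNReal.coe_le_coe]
              exact mul_le_mul_right a3 _
          _ = _ := by
              congr 1
              rw [hM2]
              ring
      have b4 := LOOP.Cf_le b z b3
      have b5 : gs (Wl b z) {l | l ∈ Lp ∧ ext l = d} ≤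
          ((M1 * (1 / 2) ^ d + 2 * ((D : ℝ≥0) ^ 2 * (M2 * ra ^ (d / 2))) : ℝ≥0) : ℝ≥0∞) := by
        refine b1.trans ?_
        rw [ENNReal.coe_add]
        refine add_le_add (b2.trans ?_) ?_
        · rw [ENNReal.coe_le_coe]
          calc P.zl⁻¹ * X * (P.C ^ (2 * d + 1) * θ ^ (K1 * d))
              ≤ P.zl⁻¹ * X * (P.C * (1 / 2) ^ d) := mul_le_mul_right (LOOP.long_num hK1 d) _
            _ = M1 * (1 / 2) ^ d := by rw [hM1]; ring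
        · rw [ENNReal.coe_mul, ENNReal.coe_mul]
          refine mul_le_mul' (by norm_num) (b4.trans_eq ?_)
          push_cast
          rfl
      refine b5.trans ?_
      rw [ENNReal.coe_le_coe]
      refine (LOOP.sum_num (le_max_right _ _) (le_max_left _ _) hDd.le).trans ?_
      gcongr
      exact le_max_left _ _
  refine LOOP.tail b z hu (fun k d hk => (hE k).trans ?_) d'
  rw [ENNReal.coe_le_coe]
  exact hur k d hk

end Pool.Agent.OC
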