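import Pool.Agent.OC.Stmts
import Pool.Agent.OC.Lib

/-!
# Convex occupation energies (MP_f6626d_co): lower bound at the critical point
-/

set_option autoImplicit false

namespace Pool.Agent.OC

open Finset Pool.Agent.Lib27 Pool.Agent.SapR
open Pool.Agent.MG (Bri Brp Irr Nc Fp Fpp Bad SB CC SW dip cc chi rfa)
open scoped NNReal ENNReal

namespace LOW

theorem pow_le (h2 : NSM_Stmt) {b : ℕ → ℝ≥0} (hb : IsW b) (z : ℝ≥0∞) (m k : ℕ) :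
    Y b z m ^ k ≤ Y b z (k * m) := by
  induction k with
  | zero => rw [pow_zero, zero_mul, Y_zero hb]
  | succ k ih =>
    rw [pow_succ, add_mul, one_mul]
    exact (mul_le_mul' ih le_rfl).trans (h2 b z hb (k * m) m).1

theorem le_pow (h2 : NSM_Stmt) {b : ℕ → ℝ≥0} (hb : IsW b) (z L : ℝ≥0∞)
    (hL : gs (Wl b z) Lp ≤ L) (m k : ℕ) :
    L ^ 2 * Y b z ((k + 1) * m) ≤ (L ^ 2 * Y b z m) ^ (k + 1) := by
  induction k with
  | zero => rw [zero_add, one_mul, pow_one]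
  | succ k ih =>
    have h3 := (h2 b z hb ((k + 1) * m) m).2
    rw [show (k + 1 + 1) * m = (k + 1) * m + m by ring]
    calc L ^ 2 * Y b z ((k + 1) * m + m)
        ≤ L ^ 2 * (Y b z ((k + 1) * m) * gs (Wl b z) Lp ^ 2 * Y b z m) :=
          mul_le_mul' le_rfl h3
      _ ≤ L ^ 2 * (Y b z ((k + 1) * m) * L ^ 2 * Y b z m) := by gcongr
      _ = (L ^ 2 * Y b z ((k + 1) * m)) * (L ^ 2 * Y b z m) := by ring
      _ ≤ (L ^ 2 * Y b z m) ^ (k + 1) * (L ^ 2 * Y b z m) := mul_le_mul' ih le_rfl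
      _ = _ := (pow_succ _ _).symm

theorem Y_eq (b : ℕ → ℝ≥0) (z : ℝ≥0∞) (m : ℕ) :
    Y b z m = ∑' p : (Brp m : Set (Wd × Wd)),
      BW b (fun k => occ (p : Wd × Wd).1 k + occ (p : Wd × Wd).2 k) *
        z ^ ((p : Wd × Wd).1.length + (p : Wd × Wd).2.length) := by
  unfold Y gs
  refine tsum_congr fun p => ?_
  unfold Wp
  rw [mul_comm]

end LOW

theorem low_thm (h1 : LOOP_Stmt) (h2 : NSM_Stmt) (h3 : YFIN_Stmt) : LOW_Stmt := by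
  intro P
  obtain ⟨eta, C, r, heta, hetaP, hr, hloop⟩ := h1 P
  set L : ℝ≥0 := max 1 C with hLdef
  have hL1 : 1 ≤ L := le_max_left _ _
  have hLpos : 0 < L := lt_of_lt_of_le one_pos hL1
  refine ⟨(L ^ 2)⁻¹, inv_pos.2 (pow_pos hLpos 2), ?_⟩
  intro v1 b hcl m
  by_contra hcon
  rw [not_le] at hcon
  have hL1' : (1 : ℝ≥0∞) ≤ L := by exact_mod_cast hL1
  have hL2 : (1 : ℝ≥0∞) ≤ (L : ℝ≥0∞) ^ 2 := one_le_pow₀ hL1'
  have hL2top : (L : ℝ≥0∞) ^ 2 ≠ ∞ := ENNReal.pow_ne_top ENNReal.coe_ne_top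
  have hL20 : (L : ℝ≥0∞) ^ 2 ≠ 0 := (lt_of_lt_of_le one_pos hL2).ne'
  have hc0 : (((L ^ 2)⁻¹ : ℝ≥0) : ℝ≥0∞) = ((L : ℝ≥0∞) ^ 2)⁻¹ := by
    rw [ENNReal.coe_inv (pow_pos hLpos 2).ne', ENNReal.coe_pow]
  rw [hc0] at hcon
  have hz0 : zst b ≠ 0 := by
    have h4 : (0 : ℝ≥0∞) < P.zl := by exact_mod_cast P.zl_pos
    exact (h4.trans_le hcl.z_ge).ne'
  have hztop : zst b ≠ ∞ := ne_top_of_le_ne_top (by norm_num) hcl.z_le
  have hlt : zst b < (1 + (eta : ℝ≥0∞)) * zst b := by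
    rw [add_mul, one_mul]
    refine ENNReal.lt_add_right hztop ?_
    exact mul_ne_zero (by exact_mod_cast heta.ne') hz0
  have hle : (1 + (eta : ℝ≥0∞)) * zst b ≤ (1 + (P.eta : ℝ≥0∞)) * zst b := by
    gcongr
  have hfin : Y b ((1 + (eta : ℝ≥0∞)) * zst b) m ≠ ∞ := by
    refine ne_top_of_le_ne_top ?_ (h3 P v1 b hcl _ hle m)
    refine ENNReal.mul_ne_top (ENNReal.mul_ne_top (ENNReal.pow_ne_top ENNReal.coe_ne_top)
      (ENNReal.pow_ne_top P.chi_fin)) (ENNReal.pow_ne_top (ENNReal.inv_ne_top.2 ?_))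
    exact (bot_le.trans_lt hlt).ne'
  obtain ⟨z, hz1, hz2, hz3⟩ := MG.tsum_pow_right _ _ hlt (by rw [← LOW.Y_eq]; exact hfin)
    (by rw [← LOW.Y_eq]; exact hcon)
  rw [← LOW.Y_eq] at hz3
  have hloop0 : gs (Wl b z) Lp ≤ L := by
    have h4 := hloop v1 b hcl z hz2 0
    rw [pow_zero, mul_one] at h4
    refine (gs_mono _ ?_).trans (h4.trans ?_)
    · intro l hl
      exact ⟨hl, Nat.zero_le _⟩
    · exact_mod_cast le_max_right 1 C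
  have hm : m ≠ 0 := by
    rintro rfl
    rw [Y_zero hcl.w] at hcon
    exact absurd hcon (not_lt.2 (ENNReal.inv_le_one.2 hL2))
  obtain ⟨m1, hm1⟩ := hcl.Y_gt z hz1
  have hm10 : m1 ≠ 0 := by
    rintro rfl
    rw [Y_zero hcl.w] at hm1
    exact lt_irrefl _ hm1
  have h5 : 1 < Y b z (m * m1) :=
    (one_lt_pow₀ hm1 hm).trans_le (LOW.pow_le h2 hcl.w z m1 m)
  have h6 : (L : ℝ≥0∞) ^ 2 * Y b z m ≤ 1 := by
    calc (L : ℝ≥0∞) ^ 2 * Y b z m ≤ (L : ℝ≥0∞) ^ 2 * ((L : ℝ≥0∞) ^ 2)⁻¹ :=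
          mul_le_mul' le_rfl hz3.le
      _ = 1 := ENNReal.mul_inv_cancel hL20 hL2top
  obtain ⟨k, rfl⟩ := Nat.exists_eq_succ_of_ne_zero hm10
  have h7 := LOW.le_pow h2 hcl.w z L hloop0 m k
  have h8 : Y b z ((k + 1) * m) ≤ 1 := by
    calc Y b z ((k + 1) * m) = 1 * Y b z ((k + 1) * m) := (one_mul _).symm
      _ ≤ (L : ℝ≥0∞) ^ 2 * Y b z ((k + 1) * m) := mul_le_mul' hL2 le_rfl
      _ ≤ _ := h7
      _ ≤ 1 := pow_le_one' h6 _
  rw [mul_comm] at h8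
  exact absurd h8 (not_le.2 h5)

end Pool.Agent.OC
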