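import Pool.Agent.OC.Stmts
import Pool.Agent.OC.Lib

/-!
# Convex occupation energies (MP_f6626d_co): one more visit of the levels `g`, `-g'` (module LPA)

A word with `i + 1` visits of the two levels is cut at the last visit before the end point. The
second word has no inner visit, it is inside the strip, above it or below it.
-/

set_option autoImplicit false

namespace Pool.Agent.OC

open Finset Pool.Agent.Lib27 Pool.Agent.SapR
open Pool.Agent.MG (Bri Brp Irr Nc Fp Fpp Bad SB CC SW dip cc chi rfa)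
open scoped NNReal ENNReal

namespace LPA

/-! ### words -/

/-- splitting at the last starting point with the property `P` -/
theorem split_vs (P : ℤ × ℤ → Prop) (s : Wd) (p : ℤ × ℤ) (h : ∃ v ∈ vs p s, P v) :
    ∃ u d t, s = u ++ d :: t ∧ P (ep p u) ∧ ∀ v ∈ vs (ep p u + dv d) t, ¬ P v := by
  induction s generalizing p with
  | nil =>
    obtain ⟨v, hv, -⟩ := h
    simp at hv
  | cons d s ih =>
    by_cases h' : ∃ v ∈ vs (p + dv d) s, P v
    · obtain ⟨u, e, t, he, h1, h2⟩ := ih (p + dv d) h'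
      exact ⟨d :: u, e, t, by rw [he]; rfl, h1, h2⟩
    · push Not at h'
      obtain ⟨v, hv, hP⟩ := h
      rw [vs_cons, List.mem_cons] at hv
      rcases hv with rfl | hv
      · exact ⟨[], d, s, rfl, hP, h'⟩
      · exact absurd hP (h' v hv)

/-- a word which starts strictly inside the strip and has no inner visit of the boundary -/
theorem inside {g g' : ℤ} (t : Wd) (p : ℤ × ℤ) (h1 : -g' < lev p) (h2 : lev p < g)
    (h : ∀ v ∈ vs p t, ¬ (lev v = g ∨ lev v = -g')) :
    ∀ v ∈ vt p t, -g' ≤ lev v ∧ lev v ≤ g := by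
  induction t generalizing p with
  | nil =>
    intro v hv
    rw [vt_nil, List.mem_singleton] at hv
    subst hv
    exact ⟨h1.le, h2.le⟩
  | cons e t ih =>
    intro v hv
    rw [vt_cons, List.mem_cons] at hv
    rcases hv with rfl | hv
    · exact ⟨h1.le, h2.le⟩
    · have h3 : -g' ≤ lev (p + dv e) ∧ lev (p + dv e) ≤ g := by
        rw [lev_add]
        rcases lev_dv e with h4 | h4 <;> rw [h4] <;> omega
      cases t with
      | nil =>
        rw [vt_nil, List.mem_singleton] at hv
        subst hv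
        exact h3
      | cons e' t' =>
        have h4 := h (p + dv e) (by
          rw [vs_cons, vs_cons]
          exact List.mem_cons_of_mem _ List.mem_cons_self)
        refine ih (p + dv e) (by omega) (by omega) (fun w hw => h w ?_) v hv
        rw [vs_cons]
        exact List.mem_cons_of_mem _ hw

/-- a word which starts above the level `g` and has no inner visit of this level -/
theorem above {g : ℤ} (t : Wd) (p : ℤ × ℤ) (h1 : g < lev p)
    (h : ∀ v ∈ vs p t, ¬ lev v = g) : ∀ v ∈ vt p t, g ≤ lev v := by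
  induction t generalizing p with
  | nil =>
    intro v hv
    rw [vt_nil, List.mem_singleton] at hv
    subst hv
    exact h1.le
  | cons e t ih =>
    intro v hv
    rw [vt_cons, List.mem_cons] at hv
    rcases hv with rfl | hv
    · exact h1.le
    · have h3 : g ≤ lev (p + dv e) := by
        rw [lev_add]
        rcases lev_dv e with h4 | h4 <;> rw [h4] <;> omega
      cases t with
      | nil =>
        rw [vt_nil, List.mem_singleton] at hv
        subst hv
        exact h3
      | cons e' t' =>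
        have h4 := h (p + dv e) (by
          rw [vs_cons, vs_cons]
          exact List.mem_cons_of_mem _ List.mem_cons_self)
        refine ih (p + dv e) (by omega) (fun w hw => h w ?_) v hv
        rw [vs_cons]
        exact List.mem_cons_of_mem _ hw

theorem below {g : ℤ} (t : Wd) (p : ℤ × ℤ) (h1 : lev p < g)
    (h : ∀ v ∈ vs p t, ¬ lev v = g) : ∀ v ∈ vt p t, lev v ≤ g := by
  induction t generalizing p with
  | nil =>
    intro v hv
    rw [vt_nil, List.mem_singleton] at hv
    subst hv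
    exact h1.le
  | cons e t ih =>
    intro v hv
    rw [vt_cons, List.mem_cons] at hv
    rcases hv with rfl | hv
    · exact h1.le
    · have h3 : lev (p + dv e) ≤ g := by
        rw [lev_add]
        rcases lev_dv e with h4 | h4 <;> rw [h4] <;> omega
      cases t with
      | nil =>
        rw [vt_nil, List.mem_singleton] at hv
        subst hv
        exact h3
      | cons e' t' =>
        have h4 := h (p + dv e) (by
          rw [vs_cons, vs_cons]
          exact List.mem_cons_of_mem _ List.mem_cons_self)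
        refine ih (p + dv e) (by omega) (fun w hw => h w ?_) v hv
        rw [vs_cons]
        exact List.mem_cons_of_mem _ hw

/-! ### the number of steps inside the strip -/

theorem lev_ep_cons (d : Fin 4) (t : Wd) : lev (ep 0 (d :: t)) = lev (dv d) + lev (ep 0 t) := by
  rw [ep_cons, ep_eq (0 + dv d), lev_add, zero_add, add_comm]

theorem nin_append (g g' l : ℤ) (u v : Wd) :
    nin g g' l (u ++ v) = nin g g' l u + nin g g' (l + lev (ep 0 u)) v := by
  induction u generalizing l with
  | nil => simp [nin]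
  | cons s t ih =>
    rw [List.cons_append]
    simp only [nin]
    rw [ih, lev_ep_cons, ← add_assoc l]
    omega

theorem nin_le (g g' l : ℤ) (u : Wd) : nin g g' l u ≤ u.length := by
  induction u generalizing l with
  | nil => simp [nin]
  | cons s t ih =>
    simp only [nin]
    have := ih (l + lev (dv s))
    rw [List.length_cons]
    split_ifs <;> omega

theorem nin_all (g g' : ℤ) (t : Wd) (p : ℤ × ℤ) (h : ∀ v ∈ vt p t, -g' ≤ lev v ∧ lev v ≤ g) :
    nin g g' (lev p) t = t.length := by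
  induction t generalizing p with
  | nil => simp [nin]
  | cons e t ih =>
    simp only [nin]
    have h1 := h p (mem_vt_self _ _)
    have h2 := h (p + dv e) (by
      rw [vt_cons]
      exact List.mem_cons_of_mem _ (mem_vt_self _ _))
    have h3 := ih (p + dv e) (fun v hv => h v (by
      rw [vt_cons]
      exact List.mem_cons_of_mem _ hv))
    rw [lev_add] at h2 h3
    rw [h3, if_pos ⟨h1.1, h1.2, h2.1, h2.2⟩, List.length_cons, add_comm]

theorem nin_above (g g' : ℤ) (t : Wd) (p : ℤ × ℤ) (h : ∀ v ∈ vt p t, g ≤ lev v) :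
    nin g g' (lev p) t = 0 := by
  induction t generalizing p with
  | nil => simp [nin]
  | cons e t ih =>
    simp only [nin]
    have h1 := h p (mem_vt_self _ _)
    have h2 := h (p + dv e) (by
      rw [vt_cons]
      exact List.mem_cons_of_mem _ (mem_vt_self _ _))
    have h3 := ih (p + dv e) (fun v hv => h v (by
      rw [vt_cons]
      exact List.mem_cons_of_mem _ hv))
    rw [lev_add] at h2 h3
    rw [h3, add_zero]
    rcases lev_dv e with h4 | h4 <;> rw [h4] at h2 ⊢ <;> exact if_neg (by omega)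

theorem nin_below (g g' : ℤ) (t : Wd) (p : ℤ × ℤ) (h : ∀ v ∈ vt p t, lev v ≤ -g') :
    nin g g' (lev p) t = 0 := by
  induction t generalizing p with
  | nil => simp [nin]
  | cons e t ih =>
    simp only [nin]
    have h1 := h p (mem_vt_self _ _)
    have h2 := h (p + dv e) (by
      rw [vt_cons]
      exact List.mem_cons_of_mem _ (mem_vt_self _ _))
    have h3 := ih (p + dv e) (fun v hv => h v (by
      rw [vt_cons]
      exact List.mem_cons_of_mem _ hv))
    rw [lev_add] at h2 h3
    rw [h3, add_zero]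
    rcases lev_dv e with h4 | h4 <;> rw [h4] at h2 ⊢ <;> exact if_neg (by omega)

/-! ### occupations of the second word -/

theorem occ_shift (p : ℤ × ℤ) (t : Wd) (k : ℤ) : occ t (k - lev p) = cnt (vt p t) k := by
  unfold occ
  rw [vt_eq p, cnt_map_add]

theorem occ_end2 (d : Fin 4) (t : Wd) (p : ℤ × ℤ) (k : ℤ)
    (h : ∀ v ∈ vs (p + dv d) t, lev v ≠ k) :
    occ (d :: t) (k - lev p) = (if lev p = k then 1 else 0) +
      (if lev (ep p (d :: t)) = k then 1 else 0) := by
  rw [occ_shift, vt_cons, cnt_cons]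
  unfold vt
  rw [cnt_append, (cnt_eq_zero _ _).2 h, cnt_cons, cnt_nil, ep_cons]
  omega

/-- half loops -/
def H : Set Wd := {l | SAWs l ∧ lev (ep 0 l) = 0 ∧ (∀ p ∈ vt 0 l, lev p ≤ 0) ∧ occ l 0 ≤ 2}

theorem gs_H_le (b : ℕ → ℝ≥0) (z : ℝ≥0∞) : gs (Wh b z) H ≤ ∑' d, gs (Wh b z) (Hl d) := by
  refine (gs_fiber (Wh b z) H dip).trans (ENNReal.tsum_le_tsum fun d => gs_mono _ ?_)
  rintro l ⟨h1, h2⟩
  exact ⟨h1.1, h1.2.1, h1.2.2.1, h2⟩

/-! ### the three cases -/

theorem split_cases {g g' i : ℕ} (hg : 1 ≤ g) (hg' : 1 ≤ g') (hi : 1 ≤ i) {p : Wd}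
    (hp : p ∈ SG g g' (i + 1)) :
    ∃ u v, p = u ++ v ∧ u ∈ SG g g' i ∧ SAWs v ∧
      ((∀ w ∈ vt (ep 0 u) v, -(g' : ℤ) ≤ lev w ∧ lev w ≤ g) ∨
        (lev (ep 0 u) = g ∧ (∀ w ∈ vt (ep 0 u) v, (g : ℤ) ≤ lev w) ∧ lev (ep 0 v) = 0 ∧
          occ v 0 ≤ 2) ∨
        (lev (ep 0 u) = -(g' : ℤ) ∧ (∀ w ∈ vt (ep 0 u) v, lev w ≤ -(g' : ℤ)) ∧
          lev (ep 0 v) = 0 ∧ occ v 0 ≤ 2)) := by
  obtain ⟨hS, hend, hcut⟩ := hp
  have e1 := occ_eq_vs p (g : ℤ)
  have e2 := occ_eq_vs p (-(g' : ℤ))
  have hex : ∃ v ∈ vs 0 p, (lev v = g ∨ lev v = -(g' : ℤ)) := by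
    by_contra hcon
    push Not at hcon
    have h1 : cnt (vs 0 p) g = 0 := (cnt_eq_zero _ _).2 fun v hv => (hcon v hv).1
    have h2 : cnt (vs 0 p) (-(g' : ℤ)) = 0 := (cnt_eq_zero _ _).2 fun v hv => (hcon v hv).2
    unfold cut2 at hcut
    rw [e1, e2, h1, h2] at hcut
    split_ifs at hcut <;> omega
  obtain ⟨u, d, t, rfl, hu, ht⟩ := split_vs (fun v => lev v = g ∨ lev v = -(g' : ℤ)) p 0 hex
  have htg : ∀ v ∈ vs (ep 0 u + dv d) t, lev v ≠ g := fun v hv h => ht v hv (Or.inl h)
  have htg' : ∀ v ∈ vs (ep 0 u + dv d) t, lev v ≠ -(g' : ℤ) := fun v hv h => ht v hv (Or.inr h)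
  have o1 := occ_end2 d t (ep 0 u) g htg
  have o2 := occ_end2 d t (ep 0 u) (-(g' : ℤ)) htg'
  have hend2 : ep 0 (u ++ d :: t) = ep (ep 0 u) (d :: t) := ep_append _ _ _
  rw [hend2] at hend
  have hu1 := occ_eq_vs u (g : ℤ)
  have hu2 := occ_eq_vs u (-(g' : ℤ))
  have a1 := occ_append u (d :: t) g
  have a2 := occ_append u (d :: t) (-(g' : ℤ))
  have hcu : cut2 g g' u = i := by
    unfold cut2 at hcut ⊢
    rw [a1, a2, o1, o2] at hcut
    rw [hu1, hu2]
    rcases hu with hu | hu <;> rcases hend with hend | hend <;> rw [hu, hend] at hcut <;>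
      rw [hu] <;> split_ifs at hcut ⊢ <;> omega
  refine ⟨u, d :: t, rfl, ⟨MG.SAWs_left hS, hu, hcu⟩, MG.SAWs_right hS, ?_⟩
  have hmem : ∀ w ∈ vt (ep 0 u) (d :: t), w = ep 0 u ∨ w ∈ vt (ep 0 u + dv d) t := by
    intro w hw
    rw [vt_cons, List.mem_cons] at hw
    exact hw
  have hee : lev (ep (ep 0 u) (d :: t)) = lev (ep 0 (d :: t)) + lev (ep 0 u) := by
    rw [ep_eq (ep 0 u), lev_add]
  have hstep : lev (ep 0 u + dv d) = lev (ep 0 u) + lev (dv d) := lev_add _ _
  have hin : ep (ep 0 u) (d :: t) ∈ vt (ep 0 u + dv d) t := by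
    rw [ep_cons]
    exact ep_mem_vt _ _
  rcases hu with hu | hu
  · rcases lev_dv d with hd | hd
    · -- up from the top level
      right; left
      have hab := above t (ep 0 u + dv d) (g := g) (by omega) htg
      have hl : lev (ep (ep 0 u) (d :: t)) = g := by
        have := hab _ hin
        omega
      refine ⟨hu, ?_, by omega, ?_⟩
      · intro w hw
        rcases hmem w hw with rfl | hw
        · omega
        · exact hab w hw
      · rw [hu, sub_self] at o1
        rw [o1, hl]
        simp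
    · left
      have hinn := inside t (ep 0 u + dv d) (g := g) (g' := g') (by omega) (by omega) ht
      intro w hw
      rcases hmem w hw with rfl | hw
      · omega
      · exact hinn w hw
  · rcases lev_dv d with hd | hd
    · left
      have hinn := inside t (ep 0 u + dv d) (g := g) (g' := g') (by omega) (by omega) ht
      intro w hw
      rcases hmem w hw with rfl | hw
      · omega
      · exact hinn w hw
    · right; right
      have hab := below t (ep 0 u + dv d) (g := -(g' : ℤ)) (by omega) htg'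
      have hl : lev (ep (ep 0 u) (d :: t)) = -(g' : ℤ) := by
        have := hab _ hin
        omega
      refine ⟨hu, ?_, by omega, ?_⟩
      · intro w hw
        rcases hmem w hw with rfl | hw
        · omega
        · exact hab w hw
      · rw [hu, sub_self] at o2
        rw [o2, hl]
        simp

/-! ### weights -/

variable {b : ℕ → ℝ≥0}

theorem wA (z y : ℝ≥0∞) {g g' : ℕ} {u v : Wd} (hu : lev (ep 0 u) = g ∨ lev (ep 0 u) = -(g' : ℤ))
    (hv : ∀ w ∈ vt (ep 0 u) v, -(g' : ℤ) ≤ lev w ∧ lev w ≤ g) :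
    Wg b z y g g' (u ++ v) = Wg b z y g g' u * y ^ v.length := by
  have h1 : nin g g' 0 (u ++ v) = nin g g' 0 u + v.length := by
    rw [nin_append, zero_add, nin_all _ _ _ _ hv]
  have h2 := nin_le g g' 0 u
  unfold Wg
  rw [h1, List.length_append,
    show u.length + v.length - (nin g g' 0 u + v.length) = u.length - nin g g' 0 u by omega,
    pow_add]
  have h3 : BW b (fun k => if -(g' : ℤ) ≤ k ∧ k ≤ g then 0 else occ (u ++ v) k + 2) =
      BW b (fun k => if -(g' : ℤ) ≤ k ∧ k ≤ g then 0 else occ u k + 2) := by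
    refine BW_congr fun k => ?_
    split_ifs with hk
    · rfl
    · rw [occ_append_of_ne u v (by intro h; apply hk; omega), occ_shift,
        (cnt_eq_zero _ _).2, add_zero]
      rintro w hw rfl
      exact hk (hv w hw)
  rw [h3]
  ring

theorem wB (h : IsW b) (z y : ℝ≥0∞) {g g' : ℕ} {u v : Wd} (hu : lev (ep 0 u) = g)
    (hv : ∀ w ∈ vt (ep 0 u) v, (g : ℤ) ≤ lev w) (h2 : occ v 0 ≤ 2) :
    Wg b z y g g' (u ++ v) ≤ Wg b z y g g' u * Wh b z (rfa v) := by
  have h1 : nin g g' 0 (u ++ v) = nin g g' 0 u := by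
    rw [nin_append, zero_add, nin_above _ _ _ _ hv, add_zero]
  have h3 := nin_le g g' 0 u
  unfold Wg Wh
  rw [h1, List.length_append, MG.rfa_length,
    show u.length + v.length - nin g g' 0 u = (u.length - nin g g' 0 u) + v.length by omega,
    pow_add]
  set dd := dip (rfa v) with hdd
  have hz : ∀ k : ℤ, k < g → occ v (k - g) = 0 := by
    intro k hk
    rw [← hu, occ_shift, cnt_eq_zero]
    intro w hw he
    have := hv w hw
    omega
  have h4 : BW b (fun k => if -(g' : ℤ) ≤ k ∧ k ≤ g then 0 else occ (u ++ v) k + 2) ≤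
      BW b (fun k => if -(g' : ℤ) ≤ k ∧ k ≤ g then 0 else occ u k + 2) *
        BW b (fun k => occ (rfa v) k + bgh dd k) := by
    have e1 : BW b (fun k => occ (rfa v) k + bgh dd k) =
        BW b (fun k => occ (rfa v) (-(k - g)) + bgh dd (-(k - g))) := by
      rw [← BW_neg b (fun k => occ (rfa v) k + bgh dd k)]
      exact (BW_sub b (g : ℤ) (fun k => occ (rfa v) (-k) + bgh dd (-k))).symm
    rw [e1]
    refine BW_le_mul h fun k => ?_
    rw [occ_rfa, neg_neg]
    have hbg : bgh dd (-(k - g)) ≤ 2 := by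
      unfold bgh
      split_ifs <;> omega
    rcases lt_trichotomy k g with hk | hk | hk
    · have hb0 : bgh dd (-(k - g)) = 0 := by
        unfold bgh
        rw [if_neg (by omega), if_neg (by omega), if_neg (by omega)]
      rw [hz k hk, hb0, h.b0, mul_one]
      split_ifs with hk'
      · exact le_rfl
      · rw [occ_append_of_ne u v (by omega), hu, hz k hk, add_zero]
    · subst hk
      rw [if_pos (by omega), if_pos (by omega), h.b0, sub_self, neg_zero, one_mul]
      have hb0 : bgh dd 0 = 0 := by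
        unfold bgh
        rw [if_pos rfl]
      rw [hb0, add_zero, h.eq_one h2]
    · rw [if_neg (by omega), if_neg (by omega), occ_append_of_ne u v (by omega), hu]
      calc b (occ u k + occ v (k - g) + 2) = b (2 + occ u k + occ v (k - g)) := by
            congr 1; ring
        _ ≤ b (2 + occ u k) * b (2 + occ v (k - g)) := h.sub3 _ _
        _ ≤ b (occ u k + 2) * b (occ v (k - g) + bgh dd (-(k - g))) := by
            rw [add_comm 2 (occ u k)]
            exact mul_le_mul' le_rfl (h.antitone (by omega))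
  calc z ^ (u.length - nin g g' 0 u) * z ^ v.length * y ^ nin g g' 0 u *
        BW b (fun k => if -(g' : ℤ) ≤ k ∧ k ≤ g then 0 else occ (u ++ v) k + 2)
      ≤ z ^ (u.length - nin g g' 0 u) * z ^ v.length * y ^ nin g g' 0 u *
        (BW b (fun k => if -(g' : ℤ) ≤ k ∧ k ≤ g then 0 else occ u k + 2) *
          BW b (fun k => occ (rfa v) k + bgh dd k)) := mul_le_mul_right h4 _
    _ = _ := by ring

theorem wC (h : IsW b) (z y : ℝ≥0∞) {g g' : ℕ} {u v : Wd} (hu : lev (ep 0 u) = -(g' : ℤ))
    (hv : ∀ w ∈ vt (ep 0 u) v, lev w ≤ -(g' : ℤ)) (h2 : occ v 0 ≤ 2) :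
    Wg b z y g g' (u ++ v) ≤ Wg b z y g g' u * Wh b z v := by
  have h1 : nin g g' 0 (u ++ v) = nin g g' 0 u := by
    rw [nin_append, zero_add, nin_below _ _ _ _ hv, add_zero]
  have h3 := nin_le g g' 0 u
  unfold Wg Wh
  rw [h1, List.length_append,
    show u.length + v.length - nin g g' 0 u = (u.length - nin g g' 0 u) + v.length by omega,
    pow_add]
  set dd := dip v with hdd
  have hz : ∀ k : ℤ, -(g' : ℤ) < k → occ v (k - -(g' : ℤ)) = 0 := by
    intro k hk
    rw [← hu, occ_shift, cnt_eq_zero]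
    intro w hw he
    have := hv w hw
    omega
  have h4 : BW b (fun k => if -(g' : ℤ) ≤ k ∧ k ≤ g then 0 else occ (u ++ v) k + 2) ≤
      BW b (fun k => if -(g' : ℤ) ≤ k ∧ k ≤ g then 0 else occ u k + 2) *
        BW b (fun k => occ v k + bgh dd k) := by
    have e1 : BW b (fun k => occ v k + bgh dd k) =
        BW b (fun k => occ v (k - -(g' : ℤ)) + bgh dd (k - -(g' : ℤ))) :=
      (BW_sub b (-(g' : ℤ)) (fun k => occ v k + bgh dd k)).symm
    rw [e1]
    refine BW_le_mul h fun k => ?_
    have hbg : bgh dd (k - -(g' : ℤ)) ≤ 2 := by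
      unfold bgh
      split_ifs <;> omega
    rcases lt_trichotomy k (-(g' : ℤ)) with hk | hk | hk
    · rw [if_neg (by omega), if_neg (by omega), occ_append_of_ne u v (by omega), hu]
      calc b (occ u k + occ v (k - -(g' : ℤ)) + 2) = b (2 + occ u k + occ v (k - -(g' : ℤ))) := by
            congr 1; ring
        _ ≤ b (2 + occ u k) * b (2 + occ v (k - -(g' : ℤ))) := h.sub3 _ _
        _ ≤ b (occ u k + 2) * b (occ v (k - -(g' : ℤ)) + bgh dd (k - -(g' : ℤ))) := by
            rw [add_comm 2 (occ u k)]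
            exact mul_le_mul' le_rfl (h.antitone (by omega))
    · subst hk
      rw [if_pos (by omega), if_pos (by omega), h.b0, sub_self, one_mul]
      have hb0 : bgh dd 0 = 0 := by
        unfold bgh
        rw [if_pos rfl]
      rw [hb0, add_zero, h.eq_one h2]
    · have hb0 : bgh dd (k - -(g' : ℤ)) = 0 := by
        unfold bgh
        rw [if_neg (by omega), if_neg (by omega), if_neg (by omega)]
      rw [hz k hk, hb0, h.b0, mul_one]
      split_ifs with hk'
      · exact le_rfl
      · rw [occ_append_of_ne u v (by omega), hu, hz k hk, add_zero]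
  calc z ^ (u.length - nin g g' 0 u) * z ^ v.length * y ^ nin g g' 0 u *
        BW b (fun k => if -(g' : ℤ) ≤ k ∧ k ≤ g then 0 else occ (u ++ v) k + 2)
      ≤ z ^ (u.length - nin g g' 0 u) * z ^ v.length * y ^ nin g g' 0 u *
        (BW b (fun k => if -(g' : ℤ) ≤ k ∧ k ≤ g then 0 else occ u k + 2) *
          BW b (fun k => occ v k + bgh dd k)) := mul_le_mul_right h4 _
    _ = _ := by ring

end LPA

open LPA in
/-- LPA : one more visit of the levels `g`, `-g'`. -/
theorem lpa_thm : LPA_Stmt := by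
  intro b z y hb g g' i hg hg' hi
  set G := gs (Wg b z y g g') (SG g g' i) with hG
  set T : Set Wd := SG g g' (i + 1) with hT
  set TA : Set Wd := {p | ∃ u v, p = u ++ v ∧ u ∈ SG g g' i ∧ SAWs v ∧
    ∀ w ∈ vt (ep 0 u) v, -(g' : ℤ) ≤ lev w ∧ lev w ≤ g} with hTA
  set TB : Set Wd := {p | ∃ u v, p = u ++ v ∧ u ∈ SG g g' i ∧ SAWs v ∧
    (lev (ep 0 u) = g ∧ (∀ w ∈ vt (ep 0 u) v, (g : ℤ) ≤ lev w) ∧ lev (ep 0 v) = 0 ∧
          occ v 0 ≤ 2)} with hTB
  set TC : Set Wd := {p | ∃ u v, p = u ++ v ∧ u ∈ SG g g' i ∧ SAWs v ∧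
    (lev (ep 0 u) = -(g' : ℤ) ∧ (∀ w ∈ vt (ep 0 u) v, lev w ≤ -(g' : ℤ)) ∧
          lev (ep 0 v) = 0 ∧ occ v 0 ≤ 2)} with hTC
  have hcov : T ⊆ TA ∪ (TB ∪ TC) := by
    intro p hp
    obtain ⟨u, v, he, hu, hv, h1 | h1 | h1⟩ := split_cases hg hg' hi hp
    · exact Or.inl ⟨u, v, he, hu, hv, h1⟩
    · exact Or.inr (Or.inl ⟨u, v, he, hu, hv, h1⟩)
    · exact Or.inr (Or.inr ⟨u, v, he, hu, hv, h1⟩)
  have hA : gs (Wg b z y g g') TA ≤ G * chi y := by
    refine gs_split2 (fb := fun w : Wd => y ^ w.length) (B := SW) (fun u v : Wd => u ++ v) ?_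
    rintro p ⟨u, v, he, hu, hv, h1⟩
    refine ⟨u, v, hu, hv, he, ?_⟩
    rw [he, wA z y hu.2.1 h1]
  have hB : gs (Wg b z y g g') TB ≤ G * gs (Wh b z) H := by
    refine gs_split2 (fb := Wh b z) (B := H) (fun u v : Wd => u ++ rfa v) ?_
    rintro p ⟨u, v, he, hu, hv, h1, h2, h3, h4⟩
    refine ⟨u, rfa v, hu, ⟨MG.SAWs_rfa hv, by rw [ep_rfa, h3, neg_zero], ?_, ?_⟩, ?_, ?_⟩
    · intro w hw
      rw [MG.vt_rfa0, List.mem_map] at hw
      obtain ⟨q, hq, rfl⟩ := hw
      have h5 : q + ep 0 u ∈ vt (ep 0 u) v := by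
        rw [vt_eq (ep 0 u)]
        exact List.mem_map.2 ⟨q, hq, rfl⟩
      have h6 := h2 _ h5
      rw [lev_add, h1] at h6
      unfold lev at h6 ⊢
      simp only
      omega
    · rw [occ_rfa, neg_zero]
      exact h4
    · show p = u ++ rfa (rfa v)
      rw [MG.rfa_rfa, he]
    · rw [he]
      exact wB hb z y h1 h2 h4
  have hC : gs (Wg b z y g g') TC ≤ G * gs (Wh b z) H := by
    refine gs_split2 (fb := Wh b z) (B := H) (fun u v : Wd => u ++ v) ?_
    rintro p ⟨u, v, he, hu, hv, h1, h2, h3, h4⟩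
    refine ⟨u, v, hu, ⟨hv, h3, ?_, h4⟩, he, ?_⟩
    · intro q hq
      have h5 : q + ep 0 u ∈ vt (ep 0 u) v := by
        rw [vt_eq (ep 0 u)]
        exact List.mem_map.2 ⟨q, hq, rfl⟩
      have h6 := h2 _ h5
      rw [lev_add, h1] at h6
      omega
    · rw [he]
      exact wC hb z y h1 h2 h4
  have hH := gs_H_le b z
  calc gs (Wg b z y g g') T ≤ gs (Wg b z y g g') (TA ∪ (TB ∪ TC)) := gs_mono _ hcov
    _ ≤ gs (Wg b z y g g') TA + gs (Wg b z y g g') (TB ∪ TC) := gs_union _ _ _
    _ ≤ gs (Wg b z y g g') TA + (gs (Wg b z y g g') TB + gs (Wg b z y g g') TC) :=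
        add_le_add_right (gs_union _ _ _) _
    _ ≤ G * chi y + (G * gs (Wh b z) H + G * gs (Wh b z) H) := add_le_add hA (add_le_add hB hC)
    _ ≤ G * chi y + (G * (∑' d, gs (Wh b z) (Hl d)) + G * (∑' d, gs (Wh b z) (Hl d))) := by
        gcongr
    _ = _ := by ring

end Pool.Agent.OC
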