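import Pool.Agent.OC.LpA

/-!
# Convex occupation energies (MP_f6626d_co): first visit of the levels `g`, `-g'` (module LPB)
-/

set_option autoImplicit false

namespace Pool.Agent.OC

open Finset Pool.Agent.Lib27 Pool.Agent.SapR
open Pool.Agent.MG (Bri Brp Irr Nc Fp Fpp Bad SB CC SW dip cc chi rfa)
open scoped NNReal ENNReal

namespace LPB

/-- a word whose end is its first visit of the two levels stays in the strip -/
theorem strip {g g' : ℕ} (hg : 1 ≤ g) (hg' : 1 ≤ g') {p : Wd} (hp : p ∈ SG g g' 1) :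
    ∀ v ∈ vt 0 p, -(g' : ℤ) ≤ lev v ∧ lev v ≤ g := by
  obtain ⟨-, hend, hcut⟩ := hp
  have e1 := occ_eq_vs p (g : ℤ)
  have e2 := occ_eq_vs p (-(g' : ℤ))
  unfold cut2 at hcut
  have h1 : cnt (vs 0 p) g = 0 ∧ cnt (vs 0 p) (-(g' : ℤ)) = 0 := by
    rcases hend with h | h <;> rw [h] at e1 e2 <;> split_ifs at e1 e2 <;>
      constructor <;> omega
  have h0 : lev (0 : ℤ × ℤ) = 0 := rfl
  refine LPA.inside (g := g) (g' := g') p 0 (by rw [h0]; omega) (by rw [h0]; omega) ?_
  rintro v hv (h | h)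
  · exact (cnt_eq_zero _ _).1 h1.1 v hv h
  · exact (cnt_eq_zero _ _).1 h1.2 v hv h

end LPB

/-- LPB : first visit of the levels `g`, `-g'`. -/
theorem lpb_thm : LPB_Stmt := by
  intro b z y hb g g' hg hg'
  refine gs_le (Wg b z y g g') (fun w : Wd => y ^ w.length) (S := SG g g' 1) (T := SW)
    (fun p hp => hp.1) ?_
  intro p hp
  have hs := LPB.strip hg hg' hp
  have h1 : nin g g' 0 p = p.length := LPA.nin_all g g' p 0 hs
  unfold Wg
  rw [h1, Nat.sub_self, pow_zero, one_mul]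
  refine mul_le_of_le_one_right bot_le (BW_le_one _ _)

end Pool.Agent.OC
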