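import Pool.Agent.OC.Stmts
import Pool.Agent.OC.Lib

/-!
# Convex occupation energies (MP_f6626d_co): loops are cut around the top level (module LPC)
-/

set_option autoImplicit false

namespace Pool.Agent.OC.LPC

open Finset Pool.Agent.Lib27 Pool.Agent.SapR
open Pool.Agent.MG (dip rfa)
open scoped NNReal ENNReal

/-! ### the highest level -/

theorem le_hgt {w : Wd} {p : ℤ × ℤ} (hp : p ∈ vt 0 w) : lev p ≤ FL.hgt w := by
  have h1 : (lev p).toNat ≤ FL.hgt w :=
    Finset.le_sup (f := fun p => (lev p).toNat) (List.mem_toFinset.2 hp)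
  omega

theorem hgt_mem (w : Wd) : ∃ p ∈ vt 0 w, lev p = FL.hgt w := by
  have hne : (vt 0 w).toFinset.Nonempty := ⟨0, List.mem_toFinset.2 (mem_vt_self 0 w)⟩
  obtain ⟨p, hp, hd⟩ := Finset.exists_mem_eq_sup _ hne (fun p => (lev p).toNat)
  have hd' : FL.hgt w = (lev p).toNat := hd
  rcases Nat.eq_zero_or_pos (FL.hgt w) with h0 | h0
  · exact ⟨0, mem_vt_self 0 w, by rw [h0]; simp⟩
  · exact ⟨p, List.mem_toFinset.1 hp, by omega⟩

/-! ### steps inside the strip -/

theorem lev_ep_cons (s : Fin 4) (u : Wd) : lev (ep 0 (s :: u)) = lev (dv s) + lev (ep 0 u) := by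
  rw [ep_cons, ep_eq, lev_add, zero_add, add_comm]

theorem nin_append (g g' l : ℤ) (u v : Wd) :
    nin g g' l (u ++ v) = nin g g' l u + nin g g' (l + lev (ep 0 u)) v := by
  induction u generalizing l with
  | nil => simp [nin]
  | cons s u ih =>
    rw [List.cons_append, nin, nin, ih, lev_ep_cons, ← add_assoc, ← add_assoc]

theorem nin_le (g g' l : ℤ) (u : Wd) : nin g g' l u ≤ u.length := by
  induction u generalizing l with
  | nil => simp [nin]
  | cons s u ih =>
    rw [nin, List.length_cons]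
    have := ih (l + lev (dv s))
    split_ifs <;> omega

theorem nin_rv (g g' l : ℤ) (u : Wd) : nin g g' (l + lev (ep 0 u)) (rv u) = nin g g' l u := by
  induction u generalizing l with
  | nil => simp [rv, nin]
  | cons s u ih =>
    rw [rv_cons, nin_append, lev_ep_cons, ← add_assoc, ih, MG.lev_ep_rv]
    rw [show l + lev (dv s) + lev (ep 0 u) + -lev (ep 0 u) = l + lev (dv s) by ring]
    rw [nin, nin, nin, dv_add_two, lev_neg, show l + lev (dv s) + -lev (dv s) = l by ring]
    split_ifs <;> omega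

/-- no step is inside the strip -/
theorem nin_out (g g' : ℤ) (s : Wd) (p : ℤ × ℤ) (h : ∀ v ∈ vt p s, g ≤ lev v) :
    nin g g' (lev p) s = 0 := by
  induction s generalizing p with
  | nil => rfl
  | cons a s ih =>
    have h1 := h p (mem_vt_self _ _)
    have h2 := h (p + dv a) (by rw [vt_cons]; exact List.mem_cons_of_mem _ (mem_vt_self _ _))
    rw [nin, ← lev_add, ih (p + dv a) (fun v hv => h v (by
      rw [vt_cons]; exact List.mem_cons_of_mem _ hv))]
    rw [lev_add] at h2 ⊢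
    rw [if_neg]
    rcases lev_dv a with h3 | h3 <;> rw [h3] at h2 ⊢ <;> omega

/-! ### the cut -/

theorem gt_vs (h : ℤ) (s : Wd) (p : ℤ × ℤ) (hp : h < lev p) (hs : ∀ v ∈ vs p s, lev v ≠ h) :
    ∀ v ∈ vs p s, h < lev v := by
  induction s generalizing p with
  | nil => simp
  | cons d s ih =>
    intro v hv
    rw [vs_cons, List.mem_cons] at hv
    rcases hv with rfl | hv
    · exact hp
    · cases s with
      | nil => simp at hv
      | cons e s =>
        refine ih (p + dv d) ?_ ?_ v hv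
        · have h1 : lev (p + dv d) ≠ h := by
            apply hs
            rw [vs_cons, List.mem_cons]
            exact Or.inr (by rw [vs_cons]; exact List.mem_cons_self ..)
          rw [lev_add] at h1 ⊢
          rcases lev_dv d with h2 | h2 <;> rw [h2] at h1 ⊢ <;> omega
        · intro v hv
          apply hs
          rw [vs_cons, List.mem_cons]
          exact Or.inr hv

theorem split {l : Wd} {g d : ℕ} (hl : l ∈ Lp) (hd : FL.hgt l = d) (hgd : g < d) :
    ∃ p s r, l = p ++ s ++ r ∧ lev (ep 0 p) = g ∧ lev (ep 0 s) = 0 ∧ lev (ep 0 r) = -(g : ℤ) ∧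
      (∀ v ∈ vt 0 s, 0 ≤ lev v) ∧ (∃ v ∈ vt 0 s, lev v = (d : ℤ) - g) ∧ occ s 0 = 2 := by
  obtain ⟨q, hq, hqd⟩ := hgt_mem l
  rw [hd] at hqd
  obtain ⟨u, w, rfl, hu, -⟩ := MG.first_visit (w := l) (h := (d : ℤ)) (by positivity)
    ⟨q, hq, hqd.ge⟩
  have hl0 := hl.2
  rw [MG.lev_ep_append, hu] at hl0
  have hex : ∃ v ∈ vt 0 u, lev v = (g : ℤ) :=
    exists_level u 0 g (by simp) (by rw [hu]; exact_mod_cast hgd.le)
  obtain ⟨p, s1, rfl, hp, hs1, hs1e⟩ := MG.last_visit hex (by rw [hu]; exact_mod_cast hgd)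
  rw [MG.lev_ep_append, hp] at hu
  have hex2 : ∃ v ∈ vt 0 w, lev v = (g : ℤ) - d :=
    exists_level' w 0 (g - d) (by rw [lev_zero]; omega) (by omega)
  obtain ⟨s2, r, rfl, hs2, hs2'⟩ := split_first (fun v => lev v = (g : ℤ) - d) w 0 hex2
  have hs2 : lev (ep 0 s2) = (g : ℤ) - d := hs2
  have hs2v : ∀ v ∈ vs 0 s2, (g : ℤ) - d < lev v :=
    gt_vs _ s2 0 (by rw [lev_zero]; omega) hs2'
  rw [MG.lev_ep_append, hs2] at hl0
  have hs1n : s1 ≠ [] := by
    rintro rfl
    rw [ep_nil, lev_zero] at hs1e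
    exact absurd hs1e (lt_irrefl _)
  have hlow : ∀ v ∈ vt 0 (s1 ++ s2), 0 ≤ lev v := by
    intro v hv
    rw [vt_append, List.mem_append] at hv
    rcases hv with hv | hv
    · rcases (MG.mem_vs_iff hs1n).1 hv with rfl | hv
      · simp
      · exact (hs1 v hv).le
    · rw [vt_eq, List.mem_map] at hv
      obtain ⟨v', hv', rfl⟩ := hv
      rw [lev_add]
      rcases MG.mem_vt_iff.1 hv' with h1 | rfl
      · have := hs2v v' h1
        omega
      · omega
  refine ⟨p, s1 ++ s2, r, by simp [List.append_assoc], hp, ?_, by omega, hlow,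
    ⟨ep 0 s1, MG.mem_vt_append_left _ (ep_mem_vt _ _), by omega⟩, ?_⟩
  · rw [MG.lev_ep_append]
    omega
  · rw [occ_append, occ_eq_vs s2, vs_eq_cons s1 0 hs1n, cnt_cons, lev_zero, if_pos rfl,
      (cnt_eq_zero (vs 0 s1).tail 0).2 (fun v hv => (hs1 v hv).ne'),
      (cnt_eq_zero (vs 0 s2) _).2 (fun v hv => by have := hs2v v hv; omega), if_pos (by omega)]

theorem occ_cut {p s r : Wd} {g : ℕ} (hp : lev (ep 0 p) = g) (hs : lev (ep 0 s) = 0)
    (hr : lev (ep 0 r) = -(g : ℤ)) (k : ℤ) :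
    occ (p ++ s ++ r) k + (if (g : ℤ) = k then 2 else 0) =
      occ p k + occ s (k - g) + occ (rv r) k := by
  have h1 := occ_append' (p ++ s) r k
  have h2 := occ_append' p s k
  have h3 := occ_rv r k
  rw [MG.lev_ep_append, hp, hs, add_zero] at h1
  rw [hp] at h2
  rw [hr, ← sub_eq_add_neg] at h3
  rw [h3]
  split_ifs at h1 h2 ⊢ <;> omega

/-- the weight of the half loop in the coordinates of the loop -/
theorem Wh_rfa (b : ℕ → ℝ≥0) (z : ℝ≥0∞) (s : Wd) (g : ℤ) :
    Wh b z (rfa s) = z ^ s.length * BW b (fun k => occ s (k - g) + bgh (dip (rfa s)) (g - k)) := by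
  unfold Wh
  rw [MG.rfa_length]
  congr 1
  rw [← BW_neg, ← BW_sub b g (fun k => occ (rfa s) (-k) + bgh (dip (rfa s)) (-k))]
  refine BW_congr fun k => ?_
  rw [occ_rfa, neg_neg, neg_sub]

theorem key {b : ℕ → ℝ≥0} (hb : IsW b) (z y : ℝ≥0∞) {g g' d : ℕ} (hg' : 1 ≤ g')
    (hgd : g < d) {l : Wd} (hl : l ∈ Lp) (hd : FL.hgt l = d) :
    ∃ p p' s, p ∈ SG g g' (cut2 g g' p) ∧ p' ∈ SG g g' (cut2 g g' p') ∧ s ∈ Hl (d - g) ∧
      l = p ++ rfa s ++ rv p' ∧ 1 ≤ cut2 g g' p ∧ 1 ≤ cut2 g g' p' ∧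
      cut2 g g' p + cut2 g g' p' = cut2 g g' l ∧
      Wg b z y g g' l ≤ Wg b z y g g' p * Wg b z y g g' p' * Wh b z s := by
  obtain ⟨p, s, r, he, hp, hs, hr, hlow, htop, hs0⟩ := split hl hd hgd
  have hS := hl.1
  rw [he] at hS
  have hSp : SAWs p := MG.SAWs_left (MG.SAWs_left hS)
  have hSs : SAWs s := MG.SAWs_right (MG.SAWs_left hS)
  have hSr : SAWs r := MG.SAWs_right hS
  have hp'e : lev (ep 0 (rv r)) = g := by rw [MG.lev_ep_rv, hr, neg_neg]
  have hhigh : ∀ v ∈ vt 0 s, lev v ≤ (d : ℤ) - g := by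
    intro v hv
    have h1 : v + ep 0 p ∈ vt 0 l := by
      rw [he]
      exact MG.mem_vt_append_left _ (MG.mem_vt_append_right _ hv)
    have h2 := le_hgt h1
    rw [lev_add, hp, hd] at h2
    omega
  have hdip : dip (rfa s) = d - g := by
    obtain ⟨v, hv, hvd⟩ := MG.dip_mem (rfa s)
    rw [MG.vt_rfa0, List.mem_map] at hv
    obtain ⟨v', hv', rfl⟩ := hv
    have h1 := hhigh v' hv'
    obtain ⟨x, hx, hxd⟩ := htop
    have h2 := MG.dip_le (w := rfa s) (p := (-x.2, -x.1)) (by
      rw [MG.vt_rfa0]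
      exact List.mem_map.2 ⟨x, hx, rfl⟩)
    unfold lev at hvd h1 h2 hxd
    simp only at hvd h2
    omega
  have hHl : rfa s ∈ Hl (d - g) := by
    refine ⟨MG.SAWs_rfa hSs, by rw [ep_rfa, hs, neg_zero], ?_, hdip⟩
    intro v hv
    rw [MG.vt_rfa0, List.mem_map] at hv
    obtain ⟨v', hv', rfl⟩ := hv
    have h1 := hlow v' hv'
    unfold lev at h1 ⊢
    simp only
    omega
  have hocc := occ_cut hp hs hr
  have hout : ∀ k : ℤ, k < 0 → occ s k = 0 := by
    intro k hk
    rw [occ_eq_zero]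
    intro v hv hvk
    have := hlow v hv
    omega
  have hcut : cut2 g g' p + cut2 g g' (rv r) = cut2 g g' l := by
    unfold cut2
    have h1 := hocc g
    have h2 := hocc (-(g' : ℤ))
    rw [if_pos rfl, sub_self, hs0] at h1
    rw [if_neg (by omega), hout _ (by omega)] at h2
    rw [he]
    omega
  have hpos : 1 ≤ cut2 g g' p := by
    unfold cut2
    have := occ_end_pos p
    rw [hp] at this
    omega
  have hpos' : 1 ≤ cut2 g g' (rv r) := by
    unfold cut2
    have := occ_end_pos (rv r)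
    rw [hp'e] at this
    omega
  refine ⟨p, rv r, rfa s, ⟨hSp, Or.inl hp, rfl⟩, ⟨MG.SAWs_rv hSr, Or.inl hp'e, rfl⟩, hHl,
    by rw [MG.rfa_rfa, rv_rv, he], hpos, hpos', hcut, ?_⟩
  -- number of steps inside the strip
  have hn : nin g g' 0 l = nin g g' 0 p + nin g g' 0 (rv r) := by
    rw [he, nin_append, nin_append, MG.lev_ep_append, hp, hs, zero_add, add_zero]
    have h1 : nin g g' (g : ℤ) s = 0 := by
      have h2 := nin_out (g : ℤ) g' s ((g : ℤ), 0) (by
        intro v hv
        rw [vt_eq, List.mem_map] at hv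
        obtain ⟨v', hv', rfl⟩ := hv
        have h3 := hlow v' hv'
        rw [lev_add]
        unfold lev at h3 ⊢
        simp only
        omega)
      have h4 : lev ((g : ℤ), 0) = g := by unfold lev; simp
      rwa [h4] at h2
    have h2 := nin_rv (g : ℤ) g' g r
    rw [hr, add_neg_cancel] at h2
    rw [h1, h2, add_zero, zero_add]
  have hlen : l.length = p.length + s.length + (rv r).length := by
    rw [he, List.length_append, List.length_append, MG.rv_length]
  have hn1 := nin_le (g : ℤ) g' 0 p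
  have hn2 := nin_le (g : ℤ) g' 0 (rv r)
  have hsub : l.length - nin g g' 0 l =
      (p.length - nin g g' 0 p) + ((rv r).length - nin g g' 0 (rv r)) + s.length := by omega
  have hBW : BW b (fun k => if -(g' : ℤ) ≤ k ∧ k ≤ g then 0 else occ l k + 2) ≤
      BW b (fun k => if -(g' : ℤ) ≤ k ∧ k ≤ g then 0 else occ p k + 2) *
      BW b (fun k => if -(g' : ℤ) ≤ k ∧ k ≤ g then 0 else occ (rv r) k + 2) *
      BW b (fun k => occ s (k - g) + bgh (dip (rfa s)) (g - k)) := by
    have h12 : BW b (fun k => if -(g' : ℤ) ≤ k ∧ k ≤ g then 0 else occ l k + 2) ≤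
        BW b (fun k => if -(g' : ℤ) ≤ k ∧ k ≤ g then 0 else occ p k + (occ (rv r) k + 2)) *
        BW b (fun k => occ s (k - g) + bgh (dip (rfa s)) (g - k)) := by
      refine BW_le_mul hb fun k => ?_
      have hk := hocc k
      rw [← he] at hk
      split_ifs with h1
      · rw [hb.b0, one_mul, hb.eq_one]
        unfold bgh
        rw [if_neg (show ¬ (g - k : ℤ) < 0 by omega)]
        rcases eq_or_ne k g with rfl | hne
        · rw [sub_self, if_pos rfl, hs0]
        · rw [if_neg (by omega), if_neg (by omega), hout _ (by omega)]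
          omega
      · have e1 : occ l k = occ p k + occ s (k - g) + occ (rv r) k := by
          rw [if_neg (by omega)] at hk
          omega
        rw [e1]
        have h2 : bgh (dip (rfa s)) (g - k) ≤ 2 := by
          unfold bgh
          split_ifs <;> omega
        calc b (occ p k + occ s (k - g) + occ (rv r) k + 2)
            = b (2 + (occ p k + occ (rv r) k) + occ s (k - g)) := by
              congr 1
              ring
          _ ≤ b (2 + (occ p k + occ (rv r) k)) * b (2 + occ s (k - g)) := hb.sub3 _ _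
          _ ≤ b (occ p k + (occ (rv r) k + 2)) *
              b (occ s (k - g) + bgh (dip (rfa s)) (g - k)) := by
              refine mul_le_mul' (le_of_eq ?_) (hb.antitone (by omega))
              congr 1
              ring
    refine h12.trans (mul_le_mul_left ?_ _)
    refine BW_le_mul hb fun k => ?_
    split_ifs with h1
    · rw [hb.b0, one_mul]
    · have := hb.sub3 (occ p k) (occ (rv r) k)
      rw [show occ p k + (occ (rv r) k + 2) = 2 + occ p k + occ (rv r) k by ring,
        add_comm (occ p k), add_comm (occ (rv r) k)]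
      exact this
  rw [Wh_rfa b z s g]
  unfold Wg
  rw [hsub, hn, pow_add, pow_add, pow_add]
  calc z ^ (p.length - nin g g' 0 p) * z ^ ((rv r).length - nin g g' 0 (rv r)) * z ^ s.length *
        (y ^ nin g g' 0 p * y ^ nin g g' 0 (rv r)) *
        BW b (fun k => if -(g' : ℤ) ≤ k ∧ k ≤ g then 0 else occ l k + 2)
      ≤ z ^ (p.length - nin g g' 0 p) * z ^ ((rv r).length - nin g g' 0 (rv r)) * z ^ s.length *
        (y ^ nin g g' 0 p * y ^ nin g g' 0 (rv r)) *
        (BW b (fun k => if -(g' : ℤ) ≤ k ∧ k ≤ g then 0 else occ p k + 2) *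
        BW b (fun k => if -(g' : ℤ) ≤ k ∧ k ≤ g then 0 else occ (rv r) k + 2) *
        BW b (fun k => occ s (k - g) + bgh (dip (rfa s)) (g - k))) := mul_le_mul_right hBW _
    _ = _ := by ring

end Pool.Agent.OC.LPC

namespace Pool.Agent.OC

open Finset Pool.Agent.Lib27 Pool.Agent.SapR
open Pool.Agent.MG (dip rfa)
open scoped NNReal ENNReal

theorem lpc_thm : LPC_Stmt := by
  intro b z y hb g g' d kap _ hg' hgd
  rw [← Finset.sum_product']
  refine (gs_le_sum _ (Icc 1 kap ×ˢ Icc 1 kap) (fun ij : ℕ × ℕ => {l | ∃ p p' s,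
    p ∈ SG g g' ij.1 ∧ p' ∈ SG g g' ij.2 ∧ s ∈ Hl (d - g) ∧ l = p ++ rfa s ++ rv p' ∧
    Wg b z y g g' l ≤ Wg b z y g g' p * Wg b z y g g' p' * Wh b z s}) _ ?_).trans ?_
  · rintro l ⟨hl, hd, hk⟩
    obtain ⟨p, p', s, h1, h2, h3, h4, h5, h6, h7, h8⟩ := LPC.key hb z y hg' hgd hl hd
    refine ⟨(cut2 g g' p, cut2 g g' p'), ?_, p, p', s, h1, h2, h3, h4, h8⟩
    rw [Finset.mem_product, Finset.mem_Icc, Finset.mem_Icc]
    simp only
    omega
  · refine Finset.sum_le_sum fun ij _ => ?_
    refine gs_split3 (fun p p' s : Wd => p ++ rfa s ++ rv p') ?_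
    rintro l ⟨p, p', s, h1, h2, h3, h4, h5⟩
    exact ⟨p, p', s, h1, h2, h3, h4, h5⟩

end Pool.Agent.OC
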