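import Pool.Agent.OC.Stmts
import Pool.Agent.OC.Lib

/-!
# Convex occupation energies (MP_f6626d_co): long loops of bounded extension
-/

set_option autoImplicit false

namespace Pool.Agent.OC

open Finset Pool.Agent.Lib27 Pool.Agent.SapR
open Pool.Agent.MG (Bri Brp Irr Nc Fp Fpp Bad SB CC SW dip cc chi rfa)
open scoped NNReal ENNReal

namespace LPD

/-- all levels of a word of extension at most `d` are between `-d` and `d` -/
theorem mem_Icc {l : Wd} {d : ℕ} (h : ext l ≤ d) : ∀ p ∈ vt 0 l, lev p ∈ Icc (-(d : ℤ)) d := by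
  intro p hp
  have h1 : (lev p).natAbs ≤ ext l :=
    Finset.le_sup (f := fun p => (lev p).natAbs) (List.mem_toFinset.2 hp)
  rw [Finset.mem_Icc]
  omega

theorem card_Icc (d : ℕ) : (Icc (-(d : ℤ)) d).card = 2 * d + 1 := by
  rw [Int.card_Icc]
  omega

theorem term {b : ℕ → ℝ≥0} (hb : IsW b) {z C : ℝ≥0∞} {y y1 : ℝ≥0} (hy : 0 < y) (hyy : y < y1)
    (hy1 : y1 < 1) (hd : ∀ v, z ^ v * b v ≤ C * (y : ℝ≥0∞) ^ v) {d N : ℕ} {l : Wd}
    (h1 : ext l ≤ d) (h2 : N ≤ l.length) :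
    z * Wl b z l ≤ C ^ (2 * d + 1) * ((y : ℝ≥0∞) / y1) ^ N * (y1 : ℝ≥0∞) ^ l.length := by
  have hy1p : 0 < y1 := hy.trans hyy
  have e1 : z * Wl b z l ≤ z ^ (l.length + 1) * BW b (occ l) := by
    unfold Wl
    rw [← mul_assoc, pow_succ']
    exact mul_le_mul_right (BW_anti hb fun k => Nat.le_add_right _ _) _
  have e2 := dom_word hb hd l (Icc (-(d : ℤ)) d) (mem_Icc h1)
  rw [card_Icc] at e2
  refine e1.trans (e2.trans ?_)
  rw [mul_assoc]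
  refine mul_le_mul_right ?_ _
  have hyle : (y : ℝ≥0∞) ≤ 1 := by exact_mod_cast (hyy.trans hy1).le
  have e3 : (y : ℝ≥0∞) ^ (l.length + 1) ≤ (y : ℝ≥0∞) ^ l.length :=
    pow_le_pow_of_le_one bot_le hyle (Nat.le_succ _)
  have hne : (y1 : ℝ≥0∞) ≠ 0 := by exact_mod_cast hy1p.ne'
  have e4 : (y : ℝ≥0∞) = (y : ℝ≥0∞) / y1 * y1 := (ENNReal.div_mul_cancel hne ENNReal.coe_ne_top).symm
  have e5 : (y : ℝ≥0∞) ^ l.length = ((y : ℝ≥0∞) / y1) ^ l.length * (y1 : ℝ≥0∞) ^ l.length := by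
    rw [← mul_pow, ← e4]
  have e6 : (y : ℝ≥0∞) / y1 ≤ 1 := by
    rw [ENNReal.div_le_iff hne ENNReal.coe_ne_top, one_mul]
    exact_mod_cast hyy.le
  refine e3.trans ?_
  rw [e5]
  exact mul_le_mul_left (pow_le_pow_of_le_one bot_le e6 h2) _

end LPD

theorem lpd_thm : LPD_Stmt := by
  intro P v1 b hcl z hz d N
  have hd : ∀ v, z ^ v * (b v : ℝ≥0∞) ≤ P.C * (P.y : ℝ≥0∞) ^ v := fun v =>
    (mul_le_mul_left (pow_le_pow_left₀ bot_le hz v) _).trans (hcl.dom v)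
  rw [← gs_mul_left]
  have h1 : gs (fun l => z * Wl b z l) {l | l ∈ Lp ∧ ext l ≤ d ∧ N ≤ l.length} ≤
      gs (fun l : Wd => (P.C : ℝ≥0∞) ^ (2 * d + 1) * ((P.y : ℝ≥0∞) / P.y1) ^ N *
        (P.y1 : ℝ≥0∞) ^ l.length) SW :=
    gs_le _ _ (fun l hl => hl.1.1) fun l hl =>
      LPD.term hcl.w P.y_pos P.y_lt P.y1_lt hd hl.2.1 hl.2.2
  refine h1.trans ?_
  rw [gs_mul_left]
  exact le_rfl

end Pool.Agent.OC
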