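import Pool.Agent.OC.Stmts
import Pool.Agent.OC.Lib

/-!
# Convex occupation energies (MP_f6626d_co): linear domination inside the strip (LPE)
-/

set_option autoImplicit false

namespace Pool.Agent.OC

open Finset Pool.Agent.Lib27 Pool.Agent.SapR
open Pool.Agent.MG (Bri Brp Irr Nc Fp Fpp Bad SB CC SW dip cc chi rfa)
open scoped NNReal ENNReal

namespace LPE

/-- the levels of the strip -/
noncomputable def S (g g' : ℕ) : Finset ℤ := Icc (-(g' : ℤ)) g

theorem mem_S {g g' : ℕ} {k : ℤ} : k ∈ S g g' ↔ -(g' : ℤ) ≤ k ∧ k ≤ g := by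
  unfold S
  exact Finset.mem_Icc

theorem card_S (g g' : ℕ) : (S g g').card = g + g' + 1 := by
  unfold S
  rw [Int.card_Icc]
  omega

/-- number of vertices of a list in the strip -/
noncomputable def NS (g g' : ℕ) (L : List (ℤ × ℤ)) : ℕ := ∑ k ∈ S g g', cnt L k

theorem NS_nil (g g' : ℕ) : NS g g' [] = 0 := by
  unfold NS
  simp [cnt_nil]

theorem NS_cons (g g' : ℕ) (p : ℤ × ℤ) (L : List (ℤ × ℤ)) :
    NS g g' (p :: L) = (if lev p ∈ S g g' then 1 else 0) + NS g g' L := by
  unfold NS
  simp_rw [cnt_cons, sum_add_distrib]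
  rw [sum_ite_eq]

theorem lev_dv (s : Fin 4) : lev (dv s) = 1 ∨ lev (dv s) = -1 := by
  fin_cases s <;> simp [lev, dv]

theorem lev_add (p q : ℤ × ℤ) : lev (p + q) = lev p + lev q := by
  unfold lev
  rw [Prod.fst_add, Prod.snd_add]
  ring

theorem lower (g g' : ℕ) (w : Wd) : ∀ p : ℤ × ℤ,
    nin g g' (lev p) w + (if lev p ∈ S g g' then 1 else 0) ≤ NS g g' (vt p w) := by
  induction w with
  | nil =>
    intro p
    rw [vt_nil, NS_cons, NS_nil]
    simp [nin]
  | cons s t ih =>
    intro p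
    rw [vt_cons, NS_cons]
    have h := ih (p + dv s)
    rw [lev_add] at h
    unfold nin
    have h2 : (if -(g' : ℤ) ≤ lev p ∧ lev p ≤ g ∧ -(g' : ℤ) ≤ lev p + lev (dv s) ∧
        lev p + lev (dv s) ≤ g then 1 else 0) ≤
        (if lev p + lev (dv s) ∈ S g g' then 1 else 0) := by
      split_ifs with h3 h4
      · exact le_rfl
      · exact absurd (mem_S.mpr ⟨h3.2.2.1, h3.2.2.2⟩) h4
      · exact Nat.zero_le _
      · exact le_rfl
    omega

theorem upper (g g' : ℕ) (w : Wd) : ∀ p : ℤ × ℤ,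
    NS g g' (vt p w) + ((if lev p = (g : ℤ) then 1 else 0) + (if lev p = -(g' : ℤ) then 1 else 0)) ≤
      nin g g' (lev p) w + (if lev p ∈ S g g' then 1 else 0) +
        (cnt (vt p w) g + cnt (vt p w) (-(g' : ℤ))) := by
  induction w with
  | nil =>
    intro p
    rw [vt_nil, NS_cons, NS_nil, cnt_cons, cnt_cons, cnt_nil, cnt_nil]
    simp [nin]
  | cons s t ih =>
    intro p
    rw [vt_cons, NS_cons, cnt_cons, cnt_cons]
    have h := ih (p + dv s)
    rw [lev_add] at h
    unfold nin
    have h2 : (if lev p + lev (dv s) ∈ S g g' then 1 else 0) ≤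
        (if -(g' : ℤ) ≤ lev p ∧ lev p ≤ g ∧ -(g' : ℤ) ≤ lev p + lev (dv s) ∧
        lev p + lev (dv s) ≤ g then 1 else 0) +
        ((if lev p + lev (dv s) = (g : ℤ) then 1 else 0) +
          (if lev p + lev (dv s) = -(g' : ℤ) then 1 else 0)) := by
      have h7 := lev_dv s
      by_cases h3 : lev p + lev (dv s) ∈ S g g'
      · rw [if_pos h3]
        rw [mem_S] at h3
        by_cases h4 : -(g' : ℤ) ≤ lev p ∧ lev p ≤ g ∧ -(g' : ℤ) ≤ lev p + lev (dv s) ∧
            lev p + lev (dv s) ≤ g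
        · rw [if_pos h4]
          omega
        · by_cases h5 : lev p + lev (dv s) = (g : ℤ)
          · rw [if_pos h5]
            omega
          · by_cases h6 : lev p + lev (dv s) = -(g' : ℤ)
            · rw [if_pos h6]
              omega
            · exfalso
              omega
      · rw [if_neg h3]
        exact Nat.zero_le _
    omega

theorem lev_zero' : lev (0 : ℤ × ℤ) = 0 := rfl

theorem nin_le_length (g g' : ℤ) (w : Wd) : ∀ l : ℤ, nin g g' l w ≤ w.length := by
  induction w with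
  | nil => intro l; exact le_rfl
  | cons s t ih =>
    intro l
    unfold nin
    have := ih (l + lev (dv s))
    rw [List.length_cons]
    split_ifs <;> omega

end LPE

open LPE in
theorem lpe_thm : LPE_Stmt := by
  intro b z y C h hz hy hd g g' r l hg hg' hl hcut
  classical
  -- the occupation inside the strip
  let oi : ℤ → ℕ := fun k => if -(g' : ℤ) ≤ k ∧ k ≤ g then occ l k else 0
  let oo : ℤ → ℕ := fun k => if -(g' : ℤ) ≤ k ∧ k ≤ g then 0 else occ l k + 2
  have hN : ∑ k ∈ S g g', oi k = NS g g' (vt 0 l) := by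
    unfold NS
    refine Finset.sum_congr rfl fun k hk => ?_
    show (if -(g' : ℤ) ≤ k ∧ k ≤ g then occ l k else 0) = _
    rw [if_pos (mem_S.mp hk)]
    rfl
  have hlow := lower g g' l 0
  have hupp := upper g g' l 0
  have h0 : (0 : ℤ) ∈ S g g' := mem_S.mpr ⟨by omega, by omega⟩
  rw [lev_zero', if_pos h0] at hlow hupp
  rw [if_neg (by omega), if_neg (by omega)] at hupp
  have hcut' : cnt (vt 0 l) g + cnt (vt 0 l) (-(g' : ℤ)) ≤ r := hcut
  set N := NS g g' (vt 0 l) with hNdef
  set n := nin g g' 0 l with hndef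
  have hn : n ≤ l.length := nin_le_length _ _ _ _
  have hBW : BW b (fun k => occ l k + if k = 0 then 1 else 2) ≤ BW b oi * BW b oo := by
    refine BW_le_mul h fun k => ?_
    show b _ ≤ b (if -(g' : ℤ) ≤ k ∧ k ≤ g then occ l k else 0) *
      b (if -(g' : ℤ) ≤ k ∧ k ≤ g then 0 else occ l k + 2)
    by_cases hk : -(g' : ℤ) ≤ k ∧ k ≤ g
    · rw [if_pos hk, if_pos hk, h.b0, mul_one]
      exact h.antitone (by omega)
    · have hk0 : k ≠ 0 := by
        rintro rfl
        exact hk ⟨by omega, by omega⟩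
      rw [if_neg hk, if_neg hk, h.b0, one_mul, if_neg hk0]
  have hdom := BW_dom h hd (o := oi) (S g g') (fun k hk => by
    show (if -(g' : ℤ) ≤ k ∧ k ≤ g then occ l k else 0) = 0
    rw [if_neg (fun h1 => hk (mem_S.mpr h1))])
  rw [hN, card_S] at hdom
  show z ^ (r + 1) * (z ^ l.length * BW b (fun k => occ l k + if k = 0 then 1 else 2)) ≤
    C ^ (g + g' + 1) * (z ^ (l.length - n) * y ^ n * BW b oo)
  calc z ^ (r + 1) * (z ^ l.length * BW b (fun k => occ l k + if k = 0 then 1 else 2))
      ≤ z ^ (r + 1) * (z ^ l.length * (BW b oi * BW b oo)) := by gcongr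
    _ = z ^ (r + 1 + n) * z ^ (l.length - n) * (BW b oi * BW b oo) := by
        rw [← pow_add, ← mul_assoc, ← pow_add]
        congr 2
        omega
    _ ≤ z ^ N * z ^ (l.length - n) * (BW b oi * BW b oo) := by
        refine mul_le_mul_left (mul_le_mul_left ?_ _) _
        exact pow_le_pow_of_le_one zero_le hz (by omega)
    _ = (z ^ N * BW b oi) * (z ^ (l.length - n) * BW b oo) := by ring
    _ ≤ (C ^ (g + g' + 1) * y ^ N) * (z ^ (l.length - n) * BW b oo) := by gcongr
    _ ≤ (C ^ (g + g' + 1) * y ^ n) * (z ^ (l.length - n) * BW b oo) := by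
        refine mul_le_mul_left (mul_le_mul_right ?_ _) _
        exact pow_le_pow_of_le_one zero_le hy (by omega)
    _ = _ := by ring

end Pool.Agent.OC
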