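import Pool.Agent.OC.Stmts

/-!
# Convex occupation energies (MP_f6626d_co), module OC_LPF: loops with few visits of the levels
`g`, `-g'` (from LPA, LPB, LPC).
-/

set_option autoImplicit false

namespace Pool.Agent.OC

open Finset Pool.Agent.Lib27 Pool.Agent.SapR
open Pool.Agent.MG (Bri Brp Irr Nc Fp Fpp Bad SB CC SW dip cc chi rfa)
open scoped NNReal ENNReal

namespace LPF

theorem gs_SG (h1 : LPA_Stmt) (h2 : LPB_Stmt) (b : ℕ → ℝ≥0) (z y : ℝ≥0∞) (hb : IsW b)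
    (g g' : ℕ) (hg : 1 ≤ g) (hg' : 1 ≤ g') : ∀ i : ℕ,
    gs (Wg b z y g g') (SG g g' (i + 1)) ≤
      (chi y + 2 * ∑' e, gs (Wh b z) (Hl e)) ^ (i + 1) := by
  intro i
  induction i with
  | zero =>
      rw [zero_add, pow_one]
      exact (h2 b z y hb g g' hg hg').trans le_self_add
  | succ i ih =>
      rw [pow_succ]
      exact (h1 b z y hb g g' (i + 1) hg hg' (by omega)).trans (mul_le_mul_left ih _)

theorem gs_SG_le (h1 : LPA_Stmt) (h2 : LPB_Stmt) (b : ℕ → ℝ≥0) (z y : ℝ≥0∞) (hb : IsW b)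
    (g g' : ℕ) (hg : 1 ≤ g) (hg' : 1 ≤ g') (kap i : ℕ) (hi : i ∈ Icc 1 kap) :
    gs (Wg b z y g g') (SG g g' i) ≤
      (chi y + 2 * ∑' e, gs (Wh b z) (Hl e)) ^ kap := by
  obtain ⟨hi1, hi2⟩ := Finset.mem_Icc.1 hi
  obtain ⟨j, rfl⟩ : ∃ j, i = j + 1 := ⟨i - 1, by omega⟩
  refine (gs_SG h1 h2 b z y hb g g' hg hg' j).trans ?_
  have hone : (1 : ℝ≥0∞) ≤ chi y + 2 * ∑' e, gs (Wh b z) (Hl e) :=
    (Pool.Agent.MG.one_le_chi y).trans le_self_add
  exact pow_le_pow_right₀ hone hi2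

end LPF

open LPF in
/-- LPF -/
theorem lpf_thm (h1 : LPA_Stmt) (h2 : LPB_Stmt) (h3 : LPC_Stmt) : LPF_Stmt := by
  intro b z y hb g g' d kap hg hg' hd
  refine (h3 b z y hb g g' d kap hg hg' hd).trans ?_
  set B : ℝ≥0∞ := chi y + 2 * ∑' e, gs (Wh b z) (Hl e) with hB
  have hterm : ∀ i ∈ Icc 1 kap, ∀ j ∈ Icc 1 kap,
      gs (Wg b z y g g') (SG g g' i) * gs (Wg b z y g g') (SG g g' j) * gs (Wh b z) (Hl (d - g)) ≤
        B ^ (2 * kap) * gs (Wh b z) (Hl (d - g)) := by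
    intro i hi j hj
    have e1 := gs_SG_le h1 h2 b z y hb g g' hg hg' kap i hi
    have e2 := gs_SG_le h1 h2 b z y hb g g' hg hg' kap j hj
    rw [two_mul, pow_add]
    exact mul_le_mul_left (mul_le_mul' e1 e2) _
  calc ∑ i ∈ Icc 1 kap, ∑ j ∈ Icc 1 kap,
        gs (Wg b z y g g') (SG g g' i) * gs (Wg b z y g g') (SG g g' j) *
          gs (Wh b z) (Hl (d - g))
      ≤ ∑ i ∈ Icc 1 kap, ∑ j ∈ Icc 1 kap, B ^ (2 * kap) * gs (Wh b z) (Hl (d - g)) :=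
        Finset.sum_le_sum fun i hi => Finset.sum_le_sum fun j hj => hterm i hi j hj
    _ = kap ^ 2 * B ^ (2 * kap) * gs (Wh b z) (Hl (d - g)) := by
        simp only [Finset.sum_const, Nat.card_Icc, Nat.add_sub_cancel, nsmul_eq_mul]
        ring

end Pool.Agent.OC
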