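import Pool.Agent.OC.Stmts
import Pool.Agent.OC.Lib

/-!
# Convex occupation energies (MP_f6626d_co): the renewal equation at the critical point
-/

set_option autoImplicit false

namespace Pool.Agent.OC.MEANP

open Finset Pool.Agent.Lib27 Pool.Agent.SapR
open Pool.Agent.MG (Bri Brp Irr Nc Fp Fpp Bad SB CC SW dip cc chi rfa)
open scoped NNReal ENNReal

theorem Y_succ (h1 : RENL_Stmt) (h2 : RENU_Stmt) {b : ℕ → ℝ≥0} (hb : IsW b) (z : ℝ≥0∞) (H : ℕ) :
    Y b z (H + 1) = ∑ j ∈ range (H + 1), ww b z (j + 1) * Y b z (H - j) := by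
  classical
  apply le_antisymm
  · have h1 := h2 b z hb 0 1 (H + 1) (by omega) (by omega)
    have h2 : Nc 0 1 (H + 1) = Brp (H + 1) := by
      ext p
      constructor
      · exact fun h => h.1
      · intro h
        refine ⟨h, fun k h3 h4 => ?_⟩
        push_cast at h3 h4
        omega
    rw [h2] at h1
    refine h1.trans ?_
    have h3 : (range (0 + 1) ×ˢ range (H + 1 + 1)).filter
        (fun i : ℕ × ℕ => 1 ≤ i.1 + i.2 ∧ i.1 + i.2 ≤ H + 1) =
        (range (H + 1)).map ⟨fun j => (0, j + 1), fun a b h => by simpa using h⟩ := by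
      ext ⟨a, b⟩
      simp only [mem_filter, mem_product, mem_range, mem_map, Function.Embedding.coeFn_mk,
        Prod.mk.injEq]
      constructor
      · rintro ⟨⟨h1, h2⟩, h3, h4⟩
        exact ⟨b - 1, by omega, by omega, by omega⟩
      · rintro ⟨j, hj, rfl, rfl⟩
        omega
    rw [h3, Finset.sum_map]
    refine Finset.sum_le_sum fun j hj => ?_
    simp only [Function.Embedding.coeFn_mk]
    rw [Y_zero hb, one_mul]
    have : H + 1 - (0 + (j + 1)) = H - j := by omega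
    rw [this]
  · have h1 := h1 b z hb 0 (H + 1)
      ((range (H + 1)).map ⟨fun j => (0, j + 1), fun a b h => by simpa using h⟩) (by
        rintro ⟨a, b⟩ hi
        simp only [mem_map, mem_range, Function.Embedding.coeFn_mk, Prod.mk.injEq] at hi
        obtain ⟨j, hj, rfl, rfl⟩ := hi
        simp only
        omega)
    refine le_trans ?_ h1
    rw [Finset.sum_map]
    refine Finset.sum_le_sum fun j hj => ?_
    simp only [Function.Embedding.coeFn_mk]
    rw [Y_zero hb, one_mul]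
    have : H + 1 - (0 + (j + 1)) = H - j := by omega
    rw [this]

theorem mean_le (h1 : RENL_Stmt) {b : ℕ → ℝ≥0} (hb : IsW b) {z c : ℝ≥0∞}
    (hlow : ∀ m, c ≤ Y b z m) (hup : ∀ m, Y b z m ≤ 1) (K : ℕ) :
    c ^ 2 * ∑ l ∈ Finset.range (K + 1), (l : ℝ≥0∞) * ww b z l ≤ 1 := by
  classical
  set s : Finset (ℕ × ℕ) := (Finset.range (K + 1) ×ˢ Finset.range (K + 1)).filter
    (fun i => K < i.1 + i.2) with hs
  have h2 := h1 b z hb K (2 * K) s (by
    intro i hi
    rw [hs, Finset.mem_filter, Finset.mem_product, Finset.mem_range, Finset.mem_range] at hi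
    omega)
  have h3 : c ^ 2 * ∑ i ∈ s, ww b z i.2 ≤ 1 := by
    calc c ^ 2 * ∑ i ∈ s, ww b z i.2 = ∑ i ∈ s, c * ww b z i.2 * c := by
          rw [Finset.mul_sum]
          exact Finset.sum_congr rfl fun i _ => by ring
      _ ≤ ∑ i ∈ s, Y b z i.1 * ww b z i.2 * Y b z (2 * K - (i.1 + i.2)) := by
          refine Finset.sum_le_sum fun i _ => ?_
          gcongr
          · exact hlow _
          · exact hlow _
      _ ≤ Y b z (2 * K) := h2
      _ ≤ 1 := hup _
  refine le_trans (le_of_eq ?_) h3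
  congr 1
  rw [hs, Finset.sum_filter, Finset.sum_product_right]
  refine Finset.sum_congr rfl fun l hl => ?_
  rw [← Finset.sum_filter]
  show (l : ℝ≥0∞) * ww b z l =
    ∑ _i ∈ (Finset.range (K + 1)).filter (fun i => K < i + l), ww b z l
  rw [Finset.sum_const, MG.card_mean K l (by rw [Finset.mem_range] at hl; omega), nsmul_eq_mul]

end Pool.Agent.OC.MEANP

namespace Pool.Agent.OC

open Finset Pool.Agent.Lib27 Pool.Agent.SapR
open scoped NNReal ENNReal

theorem mean_thm (h1 : RENL_Stmt) (h2 : RENU_Stmt) (h3 : LOW_Stmt) : MEAN_Stmt := by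
  intro P
  obtain ⟨c0, hc0, hlow⟩ := h3 P
  refine ⟨(c0 ^ 2)⁻¹, fun v1 b hcl => ⟨?_, ?_⟩⟩
  · refine MG.renewal_one (fun m => Y b (zst b) m) (fun j => ww b (zst b) (j + 1))
      (Y_zero hcl.w _) (fun H => MEANP.Y_succ h1 h2 hcl.w _ H) (c := (c0 : ℝ≥0∞)) ?_
      (hlow v1 b hcl) hcl.Y_le
    exact_mod_cast hc0.ne'
  · have hc : (c0 : ℝ≥0∞) ^ 2 ≠ 0 := pow_ne_zero _ (by exact_mod_cast hc0.ne')
    have hct : (c0 : ℝ≥0∞) ^ 2 ≠ ∞ := ENNReal.pow_ne_top ENNReal.coe_ne_top
    have hM : (((c0 ^ 2)⁻¹ : ℝ≥0) : ℝ≥0∞) = ((c0 : ℝ≥0∞) ^ 2)⁻¹ := by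
      rw [ENNReal.coe_inv (pow_ne_zero _ hc0.ne'), ENNReal.coe_pow]
    rw [hM]
    refine ENNReal.tsum_le_of_sum_range_le fun n => ?_
    have h4 := MEANP.mean_le h1 hcl.w (hlow v1 b hcl) hcl.Y_le n
    have h5 : ∑ l ∈ Finset.range (n + 1), (l : ℝ≥0∞) * ww b (zst b) l ≤ ((c0 : ℝ≥0∞) ^ 2)⁻¹ := by
      rw [ENNReal.le_inv_iff_mul_le, mul_comm]
      exact h4
    exact (Finset.sum_le_sum_of_subset (Finset.range_mono (Nat.le_succ n))).trans h5

end Pool.Agent.OC
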