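import Pool.Agent.OC.Stmts
import Pool.Agent.OC.Lib

/-!
# Convex occupation energies (MP_f6626d_co), module MONO

Strict monotonicity beyond the critical point, by Hölder's inequality.
-/

set_option autoImplicit false

namespace Pool.Agent.OC

open Finset Pool.Agent.Lib27 Pool.Agent.SapR
open Pool.Agent.MG (Bri Brp Irr Nc Fp Fpp Bad SB CC SW dip cc chi rfa)
open scoped NNReal ENNReal

namespace MONO

theorem Yq_mono (b : ℕ → ℝ≥0) (q : ℝ≥0) (v1 : ℕ) {z z' : ℝ≥0∞} (h : z ≤ z') (m : ℕ) :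
    Yq b q v1 z m ≤ Yq b q v1 z' m :=
  gs_le _ _ subset_rfl fun p _ => mul_le_mul' (Wp_mono h p) le_rfl

theorem Yq_le_Y (b : ℕ → ℝ≥0) {q : ℝ≥0} (hq : q ≤ 1) (v1 : ℕ) (z : ℝ≥0∞) (m : ℕ) :
    Yq b q v1 z m ≤ Y b z m := by
  refine gs_le _ _ subset_rfl fun p _ => ?_
  have h1 : (q : ℝ≥0∞) ^ hi v1 m p ≤ 1 := pow_le_one' (by exact_mod_cast hq) _
  calc Wp b z p * (q : ℝ≥0∞) ^ hi v1 m p ≤ Wp b z p * 1 := mul_le_mul' le_rfl h1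
    _ = Wp b z p := mul_one _

theorem Yq_hold (h : HOLD_Stmt) (b : ℕ → ℝ≥0) (q : ℝ≥0) (v1 : ℕ) {x y : ℝ≥0∞} {t : ℝ}
    (ht0 : 0 < t) (ht1 : t < 1) (hx : x ≠ ∞) (hy : y ≠ ∞) (m : ℕ) :
    Yq b q v1 (x ^ (1 - t) * y ^ t) m ≤ Yq b q v1 x m ^ (1 - t) * Yq b q v1 y m ^ t := by
  have e : ∀ z : ℝ≥0∞, Yq b q v1 z m = ∑' a : (Brp m : Set (Wd × Wd)),
      (BW b (fun k => occ a.1.1 k + occ a.1.2 k) * (q : ℝ≥0∞) ^ hi v1 m a.1) *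
        z ^ (a.1.1.length + a.1.2.length) := by
    intro z
    unfold Yq gs Wp
    congr 1
    funext a
    ring
  rw [e, e, e]
  exact h _ _ _ x y t ht0 ht1 hx hy

theorem exists_t {r C : ℝ≥0} (hr0 : 0 < r) (hr : r < 1) (hC : 1 ≤ C) :
    ∃ t : ℝ, 0 < t ∧ t < 1 ∧ r ^ (1 - t) * C ^ t < 1 := by
  have hr0' : (r : ℝ) ≠ 0 := by exact_mod_cast hr0.ne'
  have hC0' : (C : ℝ) ≠ 0 := by exact_mod_cast (zero_lt_one.trans_le hC).ne'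
  have hc : Continuous fun t : ℝ => (r : ℝ) ^ (1 - t) * (C : ℝ) ^ t :=
    ((Real.continuous_const_rpow hr0').comp (by fun_prop)).mul (Real.continuous_const_rpow hC0')
  have h0 : (fun t : ℝ => (r : ℝ) ^ (1 - t) * (C : ℝ) ^ t) 0 < 1 := by
    simp only [sub_zero, Real.rpow_one, Real.rpow_zero, mul_one]
    exact_mod_cast hr
  have h1 : ∀ᶠ t in nhds (0 : ℝ), (r : ℝ) ^ (1 - t) * (C : ℝ) ^ t < 1 :=
    hc.continuousAt.eventually_lt continuousAt_const h0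
  obtain ⟨ε, hε, h2⟩ := Metric.eventually_nhds_iff.1 h1
  refine ⟨min (ε / 2) (1 / 2), by positivity, (min_le_right _ _).trans_lt (by norm_num), ?_⟩
  have h3 := h2 (y := min (ε / 2) (1 / 2)) (by
    rw [Real.dist_eq, sub_zero, abs_of_pos (by positivity)]
    exact (min_le_left _ _).trans_lt (by linarith))
  rw [← NNReal.coe_lt_coe]
  push_cast
  exact h3

end MONO

open MONO

theorem mono_thm (h1 : MONO0_Stmt) (h2 : HOLD_Stmt) (h3 : YFIN_Stmt) : MONO_Stmt := by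
  intro P
  obtain ⟨C0, r0, hr0, hM⟩ := h1 P
  -- the constants
  obtain ⟨r, hrpos, hr1, hr0r⟩ : ∃ r : ℝ≥0, 0 < r ∧ r < 1 ∧ r0 ≤ r :=
    ⟨max r0 2⁻¹, lt_max_of_lt_right (by positivity),
      max_lt hr0 (inv_lt_one_of_one_lt₀ one_lt_two), le_max_left _ _⟩
  have hK : (P.C : ℝ≥0∞) * chi (P.y1 : ℝ≥0∞) ^ 2 * ((P.zl : ℝ≥0∞)⁻¹) ^ 2 ≠ ∞ := by
    refine ENNReal.mul_ne_top (ENNReal.mul_ne_top ENNReal.coe_ne_top
      (ENNReal.pow_ne_top P.chi_fin)) (ENNReal.pow_ne_top ?_)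
    rw [ENNReal.inv_ne_top]
    exact_mod_cast P.zl_pos.ne'
  obtain ⟨C1, hC1⟩ : ∃ C1 : ℝ≥0, (C1 : ℝ≥0∞) =
      (P.C : ℝ≥0∞) * chi (P.y1 : ℝ≥0∞) ^ 2 * ((P.zl : ℝ≥0∞)⁻¹) ^ 2 :=
    ⟨_, ENNReal.coe_toNNReal hK⟩
  obtain ⟨t, ht0, ht1, ht⟩ := exists_t hrpos hr1 P.one_le_C
  have hE1 : 1 < 1 + P.eta := lt_add_of_pos_right 1 P.eta_pos
  have hA1 : (1 : ℝ≥0) < (1 + P.eta) ^ t := NNReal.one_lt_rpow hE1 ht0
  have hA2 : (1 + P.eta) ^ t ≤ 1 + P.eta := by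
    calc (1 + P.eta) ^ t ≤ (1 + P.eta) ^ (1 : ℝ) := NNReal.rpow_le_rpow_of_exponent_le hE1.le ht1.le
      _ = 1 + P.eta := NNReal.rpow_one _
  refine ⟨(1 + P.eta) ^ t - 1, C0 ^ (1 - t) * C1 ^ t, r ^ (1 - t) * P.C ^ t,
    tsub_pos_of_lt hA1, tsub_le_iff_left.2 hA2, ht, ?_⟩
  intro v1 b hb z hz m
  have hzt : zst b ≠ ∞ := (hb.z_le.trans_lt (by norm_num)).ne
  have hzr : (1 + (((1 + P.eta) ^ t - 1 : ℝ≥0) : ℝ≥0∞)) * zst b =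
      zst b ^ (1 - t) * ((1 + (P.eta : ℝ≥0∞)) * zst b) ^ t := by
    have e1 : (1 + (((1 + P.eta) ^ t - 1 : ℝ≥0) : ℝ≥0∞)) = (1 + (P.eta : ℝ≥0∞)) ^ t := by
      have e2 : (1 : ℝ≥0) + ((1 + P.eta) ^ t - 1) = (1 + P.eta) ^ t := add_tsub_cancel_of_le hA1.le
      calc (1 + (((1 + P.eta) ^ t - 1 : ℝ≥0) : ℝ≥0∞))
          = (((1 : ℝ≥0) + ((1 + P.eta) ^ t - 1) : ℝ≥0) : ℝ≥0∞) := by push_cast; rfl
        _ = (((1 + P.eta) ^ t : ℝ≥0) : ℝ≥0∞) := by rw [e2]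
        _ = ((1 + P.eta : ℝ≥0) : ℝ≥0∞) ^ t := ENNReal.coe_rpow_of_nonneg _ ht0.le
        _ = _ := by push_cast; rfl
    have hz0 : zst b ≠ 0 := by
      have := hb.z_ge
      intro h
      rw [h] at this
      have h' : P.zl = 0 := by
        have := le_antisymm this bot_le
        exact_mod_cast this
      exact P.zl_pos.ne' h'
    rw [e1, ENNReal.mul_rpow_of_nonneg _ _ ht0.le, mul_left_comm,
      ← ENNReal.rpow_add _ _ hz0 hzt, sub_add_cancel, ENNReal.rpow_one]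
  have hy : (1 + (P.eta : ℝ≥0∞)) * zst b ≠ ∞ := ENNReal.mul_ne_top (by finiteness) hzt
  have k0 : Yq b P.q v1 (zst b) m ≤ ((C0 * r ^ m : ℝ≥0) : ℝ≥0∞) := by
    refine (hM v1 b hb m).trans ?_
    push_cast
    exact mul_le_mul' le_rfl (pow_le_pow_left' (by exact_mod_cast hr0r) m)
  have k1 : Yq b P.q v1 ((1 + (P.eta : ℝ≥0∞)) * zst b) m ≤ ((C1 * P.C ^ m : ℝ≥0) : ℝ≥0∞) := by
    refine (Yq_le_Y b P.q_lt.le v1 _ m).trans ((h3 P v1 b hb _ le_rfl m).trans ?_)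
    push_cast
    rw [hC1]
    have h5 : ((1 + (P.eta : ℝ≥0∞)) * zst b)⁻¹ ≤ (P.zl : ℝ≥0∞)⁻¹ := by
      rw [ENNReal.inv_le_inv]
      refine hb.z_ge.trans ?_
      calc zst b = 1 * zst b := (one_mul _).symm
        _ ≤ _ := mul_le_mul' le_self_add le_rfl
    calc (P.C : ℝ≥0∞) ^ (m + 1) * chi (P.y1 : ℝ≥0∞) ^ 2 * (((1 + (P.eta : ℝ≥0∞)) * zst b)⁻¹) ^ 2
        ≤ (P.C : ℝ≥0∞) ^ (m + 1) * chi (P.y1 : ℝ≥0∞) ^ 2 * ((P.zl : ℝ≥0∞)⁻¹) ^ 2 :=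
          mul_le_mul' le_rfl (pow_le_pow_left' h5 2)
      _ = _ := by ring
  calc Yq b P.q v1 z m ≤ Yq b P.q v1 ((1 + (((1 + P.eta) ^ t - 1 : ℝ≥0) : ℝ≥0∞)) * zst b) m :=
        Yq_mono b P.q v1 hz m
    _ ≤ Yq b P.q v1 (zst b) m ^ (1 - t) *
          Yq b P.q v1 ((1 + (P.eta : ℝ≥0∞)) * zst b) m ^ t := by
        rw [hzr]
        exact Yq_hold h2 b P.q v1 ht0 ht1 hzt hy m
    _ ≤ ((C0 * r ^ m : ℝ≥0) : ℝ≥0∞) ^ (1 - t) * ((C1 * P.C ^ m : ℝ≥0) : ℝ≥0∞) ^ t :=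
        mul_le_mul' (ENNReal.rpow_le_rpow k0 (by linarith)) (ENNReal.rpow_le_rpow k1 ht0.le)
    _ = ((C0 ^ (1 - t) * C1 ^ t : ℝ≥0) : ℝ≥0∞) * ((r ^ (1 - t) * P.C ^ t : ℝ≥0) : ℝ≥0∞) ^ m := by
        rw [← ENNReal.coe_rpow_of_nonneg _ (by linarith : 0 ≤ 1 - t),
          ← ENNReal.coe_rpow_of_nonneg _ ht0.le, ← ENNReal.coe_mul, ← ENNReal.coe_pow,
          ← ENNReal.coe_mul, ENNReal.coe_inj, NNReal.mul_rpow, NNReal.mul_rpow, mul_pow,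
          ← NNReal.rpow_natCast, ← NNReal.rpow_natCast, ← NNReal.rpow_natCast,
          ← NNReal.rpow_natCast, ← NNReal.rpow_mul, ← NNReal.rpow_mul, ← NNReal.rpow_mul,
          ← NNReal.rpow_mul, mul_comm (m : ℝ) (1 - t), mul_comm (m : ℝ) t]
        ring

end Pool.Agent.OC
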