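import Pool.Agent.OC.Stmts2
import Pool.Agent.OC.Lib

/-!
# Convex occupation energies (MP_f6626d_co): narrow polygons (module OC_NAR)
-/

set_option autoImplicit false

namespace Pool.Agent.OC

open Finset Filter Topology MeasureTheory Pool.Agent.AreaLaw

namespace NAR

theorem bInd_ntr {k : ℕ} (hk : 1 ≤ k) : NTR (bInd k) := by
  refine ⟨⟨?_, ?_, ?_, ?_, ?_, ?_⟩, 2 * k + 1, by omega, ?_⟩
  · unfold bInd
    rw [if_pos (by omega)]
  · unfold bInd
    rw [if_pos (by omega)]
    exact one_pos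
  · unfold bInd
    rw [if_pos (by omega)]
  · intro v
    unfold bInd
    split_ifs <;> norm_num
  · intro v _
    unfold bInd
    split_ifs <;> first | omega | norm_num
  · intro v _
    unfold bInd
    split_ifs <;> first | omega | norm_num
  · unfold bInd
    rw [if_neg (by omega)]
    exact one_pos

theorem step_lev (a : Fin 4) : |(AreaLaw.step a).1 + (AreaLaw.step a).2| ≤ 1 := by
  fin_cases a <;> simp [AreaLaw.step]

theorem pos_lev (n : ℕ) (s : Fin (2 * n) → Fin 4) (j : ℕ) :
    |(AreaLaw.pos n s j).1 + (AreaLaw.pos n s j).2| ≤ ((2 * n : ℕ) : ℤ) := by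
  unfold AreaLaw.pos
  rw [Prod.fst_sum, Prod.snd_sum, ← Finset.sum_add_distrib]
  refine (Finset.abs_sum_le_sum_abs _ _).trans ?_
  refine (Finset.sum_le_sum fun i _ => step_lev (s i)).trans ?_
  rw [sum_const, nsmul_eq_mul, mul_one]
  have := card_filter_le (univ : Finset (Fin (2 * n))) (fun i => i.val < j)
  rw [card_univ, Fintype.card_fin] at this
  exact_mod_cast this

theorem diag_out {n : ℕ} {s : Fin (2 * n) → Fin 4} {h : ℤ}
    (hh : h ∉ Icc (-((2 * n : ℕ) : ℤ)) ((2 * n : ℕ) : ℤ)) : AreaLaw.diag n s h = 0 := by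
  unfold AreaLaw.diag
  rw [card_eq_zero, filter_eq_empty_iff]
  intro j _ he
  apply hh
  rw [mem_Icc, ← he]
  exact abs_le.1 (pos_lev n s j)

open Classical in
theorem occW_bInd (k n : ℕ) (s : Fin (2 * n) → Fin 4) :
    occW (bInd k) n s = if (∀ h : ℤ, AreaLaw.diag n s h ≤ 2 * k) then 1 else 0 := by
  unfold occW
  split_ifs with hs
  · refine prod_eq_one fun h _ => ?_
    unfold bInd
    rw [if_pos (hs h)]
  · push Not at hs
    obtain ⟨h, hh⟩ := hs
    have hmem : h ∈ Icc (-((2 * n : ℕ) : ℤ)) ((2 * n : ℕ) : ℤ) := by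
      by_contra hc
      rw [diag_out hc] at hh
      omega
    refine prod_eq_zero hmem ?_
    unfold bInd
    rw [if_neg (by omega)]

theorem occZ_bInd (k n : ℕ) : occZ (bInd k) n = ((Narrow k n).card : ℝ) := by
  classical
  unfold occZ Narrow
  rw [Finset.sum_congr rfl (fun s _ => occW_bInd k n s), Finset.sum_boole]

theorem occA_bInd (k n : ℕ) : ∑ t ∈ SAP n, occW (bInd k) n t * area n t =
    ∑ t ∈ Narrow k n, area n t := by
  classical
  unfold Narrow
  rw [Finset.sum_filter]
  refine Finset.sum_congr rfl fun s _ => ?_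
  rw [occW_bInd, ite_mul, one_mul, zero_mul]

end NAR

open NAR in
theorem nar_thm : NAR_Stmt := by
  classical
  intro k hk
  refine ⟨bInd_ntr hk, fun n x _ => ?_⟩
  unfold occCdf areaCdf
  rw [occZ_bInd, occA_bInd]
  congr 1
  rw [Finset.sum_congr rfl (fun s _ => occW_bInd k n s), Finset.sum_boole]
  congr 1
  congr 1
  ext s
  unfold Narrow
  simp only [mem_filter]
  tauto

end Pool.Agent.OC
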