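import Pool.Agent.OC.Stmts2
import Pool.Agent.Lib_helper41.SapR.Transfer

/-!
# Convex occupation energies (MP_f6626d_co): narrow polygons form a large class
-/

set_option autoImplicit false

namespace Pool.Agent.OC.NARC

open Finset Filter Topology Pool.Agent.Lib27 Pool.Agent.SapR Pool.Agent.AreaLaw

theorem diag_eq (n : ℕ) (s : Fin (2 * n) → Fin 4) (h : ℤ) : AreaLaw.diag n s h = onDiag n s h h := by
  unfold AreaLaw.diag onDiag
  symm
  apply card_bij (fun k _ => k.val)
  · intro k hk
    rw [mem_filter] at hk ⊢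
    exact ⟨by rw [mem_range]; exact k.2, le_antisymm hk.2.2 hk.2.1⟩
  · intro k _ l _ h
    exact Fin.ext h
  · intro j hj
    rw [mem_filter, mem_range] at hj
    refine ⟨⟨j, hj.1⟩, ?_, rfl⟩
    rw [mem_filter]
    exact ⟨mem_univ _, hj.2.ge, hj.2.le⟩

theorem short_sub (r n : ℕ) : Short r n ⊆ Narrow (r + 1) n := by
  classical
  intro s hs
  rw [Short, mem_filter] at hs
  rw [Narrow, mem_filter]
  refine ⟨hs.1, fun h => ?_⟩
  rw [diag_eq]
  by_cases hc : IsCut n s h
  · rw [hc.1]
    omega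
  · have h1 := hs.2 h h (fun k hk1 hk2 => by rwa [le_antisymm hk2 hk1])
    omega

end Pool.Agent.OC.NARC

namespace Pool.Agent.OC

open Filter Pool.Agent.Lib27 Pool.Agent.SapR Pool.Agent.AreaLaw

theorem narc_thm : NARC_Stmt := by
  intro ε hε
  obtain ⟨r, hr⟩ := M41.growth_fixed ε hε
  refine ⟨r + 1, ?_⟩
  filter_upwards [hr] with n hn
  refine hn.trans ?_
  exact_mod_cast Finset.card_le_card (NARC.short_sub r n)

end Pool.Agent.OC
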