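import Pool.Agent.OC.Stmts
import Pool.Agent.OC.Lib

/-!
# NCB: pairs without common cut between two levels
-/

set_option autoImplicit false

namespace Pool.Agent.OC

open Finset Pool.Agent.Lib27 Pool.Agent.SapR
open Pool.Agent.MG (Bri Brp Irr Nc Fp Fpp Bad SB CC SW dip cc chi rfa)
open scoped NNReal ENNReal

namespace NCB

lemma succ_le_pow {δ : ℝ≥0} (hδ : 0 < δ) :
    ∃ K : ℝ≥0, 1 ≤ K ∧ ∀ n : ℕ, (n : ℝ≥0) + 1 ≤ K * (1 + δ) ^ n := by
  refine ⟨max 1 δ⁻¹, le_max_left _ _, fun n => ?_⟩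
  have h1 : 1 ≤ max 1 δ⁻¹ * δ := by
    calc (1 : ℝ≥0) = δ⁻¹ * δ := (inv_mul_cancel₀ hδ.ne').symm
      _ ≤ max 1 δ⁻¹ * δ := by gcongr; exact le_max_right _ _
  induction n with
  | zero => simp
  | succ n ih =>
    have h2 : (1 : ℝ≥0) ≤ (1 + δ) ^ n := one_le_pow₀ (by simp)
    have h3 : (1 : ℝ≥0) ≤ max 1 δ⁻¹ * δ * (1 + δ) ^ n := one_le_mul h1 h2
    calc ((n + 1 : ℕ) : ℝ≥0) + 1 = ((n : ℝ≥0) + 1) + 1 := by push_cast; ring
      _ ≤ max 1 δ⁻¹ * (1 + δ) ^ n + max 1 δ⁻¹ * δ * (1 + δ) ^ n := add_le_add ih h3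
      _ = max 1 δ⁻¹ * (1 + δ) ^ (n + 1) := by ring

lemma card_le (e d H : ℕ) (h : d ≤ H) :
    ((range (e + 1) ×ˢ range (H + 1)).filter
      (fun i => H - d ≤ i.1 + i.2 ∧ i.1 + i.2 ≤ H)).card ≤ (e + 1) * (d + 1) := by
  rw [← card_range (e + 1), ← card_range (d + 1), ← card_product]
  simp only [card_range]
  refine card_le_card_of_injOn (fun i => (i.1, H - (i.1 + i.2))) ?_ ?_
  · intro i hi
    simp only [coe_filter, mem_product, mem_range, Set.mem_setOf_eq] at hi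
    simp only [coe_product, coe_range, Set.mem_prod, Set.mem_Iio]
    omega
  · intro i hi j hj hij
    simp only [coe_filter, mem_product, mem_range, Set.mem_setOf_eq] at hi hj
    simp only [Prod.mk.injEq] at hij
    ext
    · exact hij.1
    · omega

end NCB

theorem ncb_thm (h1 : RENU_Stmt) (h2 : GAP_Stmt) (h3 : YEPS_Stmt) : NCB_Stmt := by
  intro P
  obtain ⟨eta1, Cg, r, he1, he1', hr, hg⟩ := h2 P
  refine ⟨r, hr, fun A hA => ?_⟩
  obtain ⟨A', hA', hAA⟩ : ∃ A' : ℝ≥0, 1 < A' ∧ A' * A' = A :=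
    ⟨NNReal.sqrt A, by rw [← NNReal.sqrt_one]; exact NNReal.sqrt_lt_sqrt.2 hA,
      NNReal.mul_self_sqrt A⟩
  obtain ⟨eta2, CY, he2, he2', hY⟩ := h3 P A' hA'
  obtain ⟨δ, hδ, hδA⟩ : ∃ δ : ℝ≥0, 0 < δ ∧ 1 + δ = A' :=
    ⟨A' - 1, tsub_pos_of_lt hA', add_tsub_cancel_of_le hA'.le⟩
  obtain ⟨K, hK1, hK⟩ := NCB.succ_le_pow hδ
  rw [hδA] at hK
  have hr1 : (r : ℝ≥0∞) ≤ 1 := by exact_mod_cast hr.le
  have hA1 : (1 : ℝ≥0∞) ≤ A' := by exact_mod_cast hA'.le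
  have hKE : ∀ n : ℕ, (n : ℝ≥0∞) + 1 ≤ K * (A' : ℝ≥0∞) ^ n := by
    intro n
    have := hK n
    exact_mod_cast this
  have hAAE : (A : ℝ≥0∞) = A' * A' := by rw [← hAA]; push_cast; rfl
  refine ⟨min eta1 eta2, K * K * (CY * Cg * CY) + CY, lt_min he1 he2,
    (min_le_left _ _).trans he1', ?_⟩
  intro v1 b hb z hz e d H
  have hz1 : z ≤ (1 + eta1) * zst b := by
    refine hz.trans ?_
    gcongr
    exact min_le_left _ _
  have hz2 : z ≤ (1 + eta2) * zst b := by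
    refine hz.trans ?_
    gcongr
    exact min_le_right _ _
  have hY' := hY v1 b hb z hz2
  have hg' := hg v1 b hb z hz1
  rcases lt_or_ge e (H - d) with h | h
  · have hdH : d ≤ H := by omega
    set s := (range (e + 1) ×ˢ range (H + 1)).filter
      (fun i => H - d ≤ i.1 + i.2 ∧ i.1 + i.2 ≤ H) with hs
    have hcard : (s.card : ℝ≥0∞) ≤ (K * (A' : ℝ≥0∞) ^ e) * (K * (A' : ℝ≥0∞) ^ d) := by
      calc (s.card : ℝ≥0∞) ≤ (((e + 1) * (d + 1) : ℕ) : ℝ≥0∞) := by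
            exact_mod_cast NCB.card_le e d H hdH
        _ = ((e : ℝ≥0∞) + 1) * ((d : ℝ≥0∞) + 1) := by push_cast; rfl
        _ ≤ _ := mul_le_mul' (hKE e) (hKE d)
    have hterm : ∀ i ∈ s, Y b z i.1 * ww b z i.2 * Y b z (H - (i.1 + i.2)) ≤
        (CY * Cg * CY) * ((A' : ℝ≥0∞) ^ (e + d) * (r : ℝ≥0∞) ^ (H - (e + d))) := by
      intro i hi
      simp only [hs, mem_filter, mem_product, mem_range] at hi
      have a1 : (A' : ℝ≥0∞) ^ i.1 * (A' : ℝ≥0∞) ^ (H - (i.1 + i.2)) ≤ (A' : ℝ≥0∞) ^ (e + d) := by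
        rw [← pow_add]
        exact pow_le_pow_right₀ hA1 (by omega)
      have a2 : (r : ℝ≥0∞) ^ i.2 ≤ (r : ℝ≥0∞) ^ (H - (e + d)) :=
        pow_le_pow_of_le_one (zero_le) hr1 (by omega)
      calc Y b z i.1 * ww b z i.2 * Y b z (H - (i.1 + i.2))
          ≤ (CY * (A' : ℝ≥0∞) ^ i.1) * (Cg * (r : ℝ≥0∞) ^ i.2) *
            (CY * (A' : ℝ≥0∞) ^ (H - (i.1 + i.2))) :=
            mul_le_mul' (mul_le_mul' (hY' _) (hg' _)) (hY' _)
        _ = (CY * Cg * CY) * (((A' : ℝ≥0∞) ^ i.1 * (A' : ℝ≥0∞) ^ (H - (i.1 + i.2))) *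
            (r : ℝ≥0∞) ^ i.2) := by ring
        _ ≤ _ := by gcongr
    calc gs (Wp b z) (Nc e (H - d) H)
        ≤ ∑ i ∈ s, Y b z i.1 * ww b z i.2 * Y b z (H - (i.1 + i.2)) :=
          h1 b z hb.w e (H - d) H h (Nat.sub_le _ _)
      _ ≤ ∑ _i ∈ s, (CY * Cg * CY) * ((A' : ℝ≥0∞) ^ (e + d) * (r : ℝ≥0∞) ^ (H - (e + d))) :=
          sum_le_sum hterm
      _ = (s.card : ℝ≥0∞) *
          ((CY * Cg * CY) * ((A' : ℝ≥0∞) ^ (e + d) * (r : ℝ≥0∞) ^ (H - (e + d)))) := by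
          rw [sum_const, nsmul_eq_mul]
      _ ≤ ((K * (A' : ℝ≥0∞) ^ e) * (K * (A' : ℝ≥0∞) ^ d)) *
          ((CY * Cg * CY) * ((A' : ℝ≥0∞) ^ (e + d) * (r : ℝ≥0∞) ^ (H - (e + d)))) := by
          gcongr
      _ = (K * K * (CY * Cg * CY)) * (A : ℝ≥0∞) ^ (e + d) * (r : ℝ≥0∞) ^ (H - (e + d)) := by
          rw [hAAE, mul_pow, pow_add]
          ring
      _ ≤ (K * K * (CY * Cg * CY) + CY : ℝ≥0) * (A : ℝ≥0∞) ^ (e + d) *
          (r : ℝ≥0∞) ^ (H - (e + d)) := by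
          gcongr
          push_cast
          exact le_self_add
      _ = _ := by push_cast; rfl
  · have hH : H ≤ e + d := by omega
    have h0 : H - (e + d) = 0 := by omega
    calc gs (Wp b z) (Nc e (H - d) H) ≤ Y b z H := gs_mono _ (fun p hp => hp.1)
      _ ≤ CY * (A' : ℝ≥0∞) ^ H := hY' H
      _ ≤ CY * (A : ℝ≥0∞) ^ (e + d) := by
          refine mul_le_mul' le_rfl ?_
          calc (A' : ℝ≥0∞) ^ H ≤ (A' : ℝ≥0∞) ^ (e + d) := pow_le_pow_right₀ hA1 hH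
            _ ≤ (A : ℝ≥0∞) ^ (e + d) := by
                gcongr
                rw [← hAA]
                exact le_mul_of_one_le_left (zero_le) hA'.le
      _ ≤ (K * K * (CY * Cg * CY) + CY : ℝ≥0) * (A : ℝ≥0∞) ^ (e + d) := by
          gcongr
          push_cast
          exact le_add_self
      _ = _ := by rw [h0, pow_zero, mul_one]

end Pool.Agent.OC
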