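import Pool.Agent.OC.Stmts2
import Pool.Agent.Lib_helper24.SapR.K2
import Pool.Agent.Lib_helper41.SapR.Planar
import Pool.Agent.Lib_helper66.SapR.K5

/-!
# Convex occupation energies (MP_f6626d_co): mean error of the area functional

Module NEARG. For arches `w` of half length `N` we estimate
`rho ^ N * sum of aw w * (|dbl w - Ar w| - 4 L N)^+` by the recursion K2.
-/

set_option autoImplicit false

namespace Pool.Agent.OC.NEARG

open Finset Pool.Agent.Lib27 Pool.Agent.SapR Pool.Agent.OC Filter Topology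
open Pool.Agent.FL (hl)

/-- weight of a piece -/
noncomputable def mu (μ : MW) (rho : ℝ) (p : Wd × Wd) : ℝ := rho ^ hl p * μ.pw p

/-- weighted sum over the arches of gap `x` and half length `N` -/
noncomputable def Gs (r : ℕ) (μ : MW) (rho : ℝ) (f : ℕ → Wd → ℝ) (N : ℕ) (x : ℤ) : ℝ :=
  rho ^ N * ∑ w ∈ ArchSet r x (2 * N), μ.aw w * f N w

/-- weighted sum over the caps of gap `x` and half length `N` -/
noncomputable def Cs (r : ℕ) (μ : MW) (rho : ℝ) (N : ℕ) (x : ℤ) : ℝ :=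
  ∑ T ∈ CapSet r x (2 * N), rho ^ N * μ.aw T

/-- distance of the shoelace sum and the area functional -/
noncomputable def Dd (r : ℕ) (w : Wd) : ℝ := |(dbl 0 w : ℝ) - (M41.Ar r w : ℝ)|

/-- cost of a long piece -/
noncomputable def vv (L m : ℕ) : ℝ := if L < m then 4 * (m : ℝ) ^ 2 else 0

lemma vv_nonneg (L m : ℕ) : 0 ≤ vv L m := by
  unfold vv
  split_ifs <;> positivity

lemma mu_nonneg (μ : MW) {rho : ℝ} (hrho : 0 < rho) (p : Wd × Wd) : 0 ≤ mu μ rho p := by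
  unfold mu
  exact mul_nonneg (pow_nonneg hrho.le _) (μ.pw_nonneg p)

lemma len_hl {r : ℕ} {p : Wd × Wd} (hp : p ∈ Pc r) :
    p.1.length + p.2.length = 2 * hl p ∧ 1 ≤ hl p ∧ 2 * hl p ≤ r + 2 := by
  obtain ⟨h1, h2, h3, _⟩ := H66.k5size r p hp
  obtain ⟨k, hk⟩ := h1
  have : hl p = k := by unfold hl; omega
  omega

lemma off_le {r : ℕ} {p : Wd × Wd} (hp : p ∈ Pc r) : |off p| ≤ 4 * (hl p : ℤ) ^ 2 := by
  obtain ⟨h1, h2, h3⟩ := len_hl hp
  have hp' : p ∈ Pc (2 * hl p - 2) := by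
    rw [M41.mem_Pc]
    exact ⟨((M41.mem_Pc _ _).1 hp).1, by omega⟩
  have h4 := (H66.k5size _ p hp').2.2.2.2.2.2
  have h5 : ((2 * hl p - 2 : ℕ) : ℤ) + 2 = 2 * (hl p : ℤ) := by omega
  rw [h5] at h4
  linarith

lemma cap_le {r : ℕ} {x : ℤ} {k : ℕ} {T : Wd} (hx : 1 ≤ x) (hT : T ∈ CapSet r x (2 * k)) :
    |(dbl 0 T : ℤ)| ≤ 4 * (k : ℤ) ^ 2 := by
  obtain ⟨h1, h2, h3, h4⟩ := H66.k5cap.1 r x (2 * k) T hx hT
  have hk : 1 ≤ k := by omega
  have hT' : T ∈ CapSet (2 * k - 1) x (2 * k) := by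
    rw [M41.mem_CapSet] at hT ⊢
    exact ⟨hT.1, hT.2.1, hT.2.2.1, by omega⟩
  have h5 := (H66.k5cap.1 _ x (2 * k) T hx hT').2.2.2
  have h6 : ((2 * k - 1 : ℕ) : ℤ) + 1 = 2 * (k : ℤ) := by omega
  rw [h6] at h5
  linarith

lemma k2' : K2_Stmt := k2 k3

/-- one step of the recursion -/
lemma step (μ : MW) {r : ℕ} {rho : ℝ} (hrho : 0 < rho)
    {f : ℕ → Wd → ℝ} {u v b : ℕ → ℝ} {Zb : ℝ} (hv : ∀ m, 0 ≤ v m)
    (hcap : ∀ N x T, 1 ≤ x → T ∈ CapSet r x (2 * N) → f N T ≤ u N)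
    (hstep : ∀ N x p w, 1 ≤ x → p ∈ allowed r x → hl p < N →
      w ∈ ArchSet r (x + jump p) (2 * (N - hl p)) → f N (p.1 ++ w ++ p.2) ≤ f (N - hl p) w + v (hl p))
    {N : ℕ} (hb0 : 0 ≤ b (N - 1)) (hZ0 : 0 ≤ Zb)
    (hb : ∀ k x, k < N → 1 ≤ x → Gs r μ rho f k x ≤ b (N - 1))
    (hZ : ∀ k x m, k < N → 1 ≤ x → v m * Gs r μ rho (fun _ _ => 1) k x ≤ v m * Zb)
    {x : ℤ} (hx : 1 ≤ x) :
    Gs r μ rho f N x ≤ Cs r μ rho N x * u N +
      ∑ p ∈ Pc r, mu μ rho p * (b (N - 1) + v (hl p) * Zb) := by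
  have hk2 := k2' r x (2 * N) hx (fun w => μ.aw w * f N w)
  unfold Gs
  rw [hk2, mul_add]
  apply add_le_add
  · unfold Cs
    rw [mul_sum, sum_mul]
    apply sum_le_sum
    intro T hT
    rw [mul_assoc]
    apply mul_le_mul_of_nonneg_left _ (by positivity)
    exact mul_le_mul_of_nonneg_left (hcap N x T hx hT) (μ.aw_nonneg T)
  · rw [mul_sum]
    have hsub : allowed r x ⊆ Pc r := fun p hp => ((M41.mem_allowed _ _ _).1 hp).1
    refine (sum_le_sum (g := fun p => mu μ rho p * (b (N - 1) + v (hl p) * Zb)) ?_).trans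
      (sum_le_sum_of_subset_of_nonneg hsub fun p _ _ =>
        mul_nonneg (mu_nonneg μ hrho p) (add_nonneg hb0 (mul_nonneg (hv _) hZ0)))
    intro p hp
    have hp1 := hsub hp
    have hx' := ((M41.mem_allowed _ _ _).1 hp).2.2.1
    obtain ⟨l1, l2, l3⟩ := len_hl hp1
    rw [l1]
    rcases lt_or_ge (hl p) N with hN | hN
    · rw [show 2 * N - 2 * hl p = 2 * (N - hl p) by omega]
      have e1 := hb (N - hl p) (x + jump p) (by omega) hx'
      have e2 := hZ (N - hl p) (x + jump p) (hl p) (by omega) hx'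
      have key : rho ^ N * ∑ w ∈ ArchSet r (x + jump p) (2 * (N - hl p)),
          μ.aw (p.1 ++ w ++ p.2) * f N (p.1 ++ w ++ p.2) ≤
          mu μ rho p * (Gs r μ rho f (N - hl p) (x + jump p) +
            v (hl p) * Gs r μ rho (fun _ _ => 1) (N - hl p) (x + jump p)) := by
        have e3 : mu μ rho p * (Gs r μ rho f (N - hl p) (x + jump p) +
            v (hl p) * Gs r μ rho (fun _ _ => 1) (N - hl p) (x + jump p)) =
            rho ^ N * ∑ w ∈ ArchSet r (x + jump p) (2 * (N - hl p)),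
              (μ.pw p * μ.aw w) * (f (N - hl p) w + v (hl p)) := by
          have e4 : rho ^ N = rho ^ hl p * rho ^ (N - hl p) := by
            rw [← pow_add]; congr 1; omega
          unfold mu Gs
          rw [e4]
          simp only [mul_sum, mul_add, sum_add_distrib, mul_one]
          congr 1
          · apply sum_congr rfl
            intro w _
            ring
          · apply sum_congr rfl
            intro w _
            ring
        rw [e3]
        apply mul_le_mul_of_nonneg_left _ (by positivity)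
        apply sum_le_sum
        intro w hw
        rw [μ.step r x (2 * (N - hl p)) p w hx hp hw]
        exact mul_le_mul_of_nonneg_left (hstep N x p w hx hp hN hw)
          (mul_nonneg (μ.pw_nonneg p) (μ.aw_nonneg w))
      refine key.trans ?_
      apply mul_le_mul_of_nonneg_left _ (mu_nonneg μ hrho p)
      exact add_le_add e1 e2
    · rw [show 2 * N - 2 * hl p = 0 by omega, M41.ArchSet_zero, sum_empty, mul_zero]
      exact mul_nonneg (mu_nonneg μ hrho p) (add_nonneg hb0 (mul_nonneg (hv _) hZ0))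

/-- the recursion solved -/
lemma solve (μ : MW) {r : ℕ} {rho : ℝ} (hrho : 0 < rho)
    {f : ℕ → Wd → ℝ} {u v cN : ℕ → ℝ} {Zb A : ℝ} (hv : ∀ m, 0 ≤ v m)
    (hu : ∀ m, 0 ≤ u m)
    (hcN : ∀ N x, 1 ≤ x → Cs r μ rho N x ≤ cN N) (hcN0 : ∀ N, 0 ≤ cN N)
    (hmass : ∑ p ∈ Pc r, mu μ rho p = 1) (hA : ∑ p ∈ Pc r, mu μ rho p * v (hl p) ≤ A)
    (hcap : ∀ N x T, 1 ≤ x → T ∈ CapSet r x (2 * N) → f N T ≤ u N)
    (hstep : ∀ N x p w, 1 ≤ x → p ∈ allowed r x → hl p < N →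
      w ∈ ArchSet r (x + jump p) (2 * (N - hl p)) → f N (p.1 ++ w ++ p.2) ≤ f (N - hl p) w + v (hl p))
    (hZ0 : 0 ≤ Zb)
    (hZ : ∀ k x m, 1 ≤ x → v m * Gs r μ rho (fun _ _ => 1) k x ≤ v m * Zb)
    (N : ℕ) : ∀ k x, k ≤ N → 1 ≤ x →
      Gs r μ rho f k x ≤ ∑ j ∈ range (N + 1), cN j * u j + N * (A * Zb) := by
  have hA0 : 0 ≤ A := le_trans (sum_nonneg fun p _ => mul_nonneg (mu_nonneg μ hrho p) (hv _)) hA
  induction N with
  | zero =>
    intro k x hk hx
    have : k = 0 := by omega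
    subst this
    unfold Gs
    rw [mul_zero, M41.ArchSet_zero, sum_empty, mul_zero]
    have h1 : 0 ≤ ∑ j ∈ range (0 + 1), cN j * u j :=
      sum_nonneg fun j _ => mul_nonneg (hcN0 j) (hu j)
    simpa using h1
  | succ N ih =>
    intro k x hk hx
    set B : ℝ := ∑ j ∈ range (N + 1), cN j * u j + N * (A * Zb) with hB
    have hB0 : 0 ≤ B := by
      have h1 : 0 ≤ ∑ j ∈ range (N + 1), cN j * u j :=
        sum_nonneg fun j _ => mul_nonneg (hcN0 j) (hu j)
      have h2 : (0 : ℝ) ≤ N * (A * Zb) := by positivity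
      linarith
    have hfin : B + cN (N + 1) * u (N + 1) + A * Zb =
        ∑ j ∈ range (N + 1 + 1), cN j * u j + ((N + 1 : ℕ) : ℝ) * (A * Zb) := by
      rw [sum_range_succ _ (N + 1), hB]
      push_cast
      ring
    rw [← hfin]
    have hc0 : 0 ≤ cN (N + 1) * u (N + 1) := mul_nonneg (hcN0 _) (hu _)
    have hAZ : 0 ≤ A * Zb := mul_nonneg hA0 hZ0
    rcases Nat.lt_or_ge k (N + 1) with hk' | hk'
    · have := ih k x (by omega) hx
      linarith
    · have : k = N + 1 := by omega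
      subst this
      have hst := step μ hrho (b := fun _ => B) (u := u) (Zb := Zb) hv hcap hstep
        (N := N + 1) hB0 hZ0 (fun k x hk hx => ih k x (by omega) hx)
        (fun k x m _ hx => hZ k x m hx) hx
      refine hst.trans ?_
      have e1 : ∑ p ∈ Pc r, mu μ rho p * (B + v (hl p) * Zb) =
          (∑ p ∈ Pc r, mu μ rho p) * B + (∑ p ∈ Pc r, mu μ rho p * v (hl p)) * Zb := by
        rw [sum_mul, sum_mul, ← sum_add_distrib]
        apply sum_congr rfl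
        intro p _
        ring
      rw [e1, hmass, one_mul]
      have e2 : Cs r μ rho (N + 1) x * u (N + 1) ≤ cN (N + 1) * u (N + 1) :=
        mul_le_mul_of_nonneg_right (hcN _ _ hx) (hu _)
      have e3 : (∑ p ∈ Pc r, mu μ rho p * v (hl p)) * Zb ≤ A * Zb :=
        mul_le_mul_of_nonneg_right hA hZ0
      linarith

/-- positive part of the error -/
noncomputable def fE (r L N : ℕ) (w : Wd) : ℝ := max 0 (Dd r w - 4 * L * N)

lemma fE_nonneg (r L N : ℕ) (w : Wd) : 0 ≤ fE r L N w := le_max_left _ _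

lemma Dd_le (r L N : ℕ) (w : Wd) : Dd r w ≤ 4 * L * N + fE r L N w := by
  have := le_max_right 0 (Dd r w - 4 * L * N)
  unfold fE
  linarith

lemma sq_le_vv (L m : ℕ) : 4 * (m : ℝ) ^ 2 ≤ 4 * L * m + vv L m := by
  unfold vv
  split_ifs with h
  · have : (0 : ℝ) ≤ 4 * L * m := by positivity
    linarith
  · push Not at h
    have h1 : (m : ℝ) ≤ L := by exact_mod_cast h
    have h2 : (m : ℝ) * m ≤ L * m := mul_le_mul_of_nonneg_right h1 (by positivity)
    nlinarith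

lemma cap_le' {r : ℕ} {x : ℤ} {k : ℕ} {T : Wd} (hx : 1 ≤ x) (hT : T ∈ CapSet r x (2 * k)) :
    |(dbl 0 T : ℝ)| ≤ 4 * (k : ℝ) ^ 2 := by
  have := cap_le hx hT
  have h2 : ((|dbl 0 T| : ℤ) : ℝ) ≤ ((4 * (k : ℤ) ^ 2 : ℤ) : ℝ) := by exact_mod_cast this
  push_cast at h2
  exact h2

lemma fE_cap {r L N : ℕ} {x : ℤ} {T : Wd} (hx : 1 ≤ x) (hT : T ∈ CapSet r x (2 * N)) :
    fE r L N T ≤ vv L N := by
  have h1 : Dd r T = |(dbl 0 T : ℝ)| := by
    unfold Dd
    rw [M41.Ar_cap k2' r x (2 * N) hx T hT]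
    simp
  have h2 := cap_le' hx hT
  have h3 := sq_le_vv L N
  unfold fE
  rw [h1]
  apply max_le (vv_nonneg _ _)
  linarith

lemma Dd_step {r N : ℕ} {x : ℤ} {p : Wd × Wd} {w : Wd} (hx : 1 ≤ x) (hp : p ∈ allowed r x)
    (hN : hl p < N) (hw : w ∈ ArchSet r (x + jump p) (2 * (N - hl p))) :
    Dd r (p.1 ++ w ++ p.2) ≤ Dd r w + 4 * (hl p : ℝ) ^ 2 := by
  obtain ⟨hp1, hp2, hp3, hp4⟩ := (M41.mem_allowed _ _ _).1 hp
  obtain ⟨l1, l2, l3⟩ := len_hl hp1
  have hw' := (M41.mem_ArchSet _ _ _ _).1 hw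
  have e1 := M41.Ar_step k2' r x (2 * N) hx p hp w (by
    rw [l1, show 2 * N - 2 * hl p = 2 * (N - hl p) by omega]; exact hw)
  have e2 := H66.k4 x p w ((M41.mem_Pc _ _).1 hp1).1.1 hw'.2.1.2.1
  have hht := (H66.k5size r p hp1).2.2.2.1
  have hpos : 0 ≤ ht p * (2 * x + jump p) := mul_nonneg (by omega) (by omega)
  have hto : ((ht p * (2 * x + jump p)).toNat : ℤ) = ht p * (2 * x + jump p) :=
    Int.toNat_of_nonneg hpos
  have e3 : (dbl 0 (p.1 ++ w ++ p.2) : ℤ) - (M41.Ar r (p.1 ++ w ++ p.2) : ℤ) =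
      (dbl 0 w - (M41.Ar r w : ℤ)) + off p := by
    rw [e1, e2]
    push_cast
    rw [hto]
    ring
  have e4 : (dbl 0 (p.1 ++ w ++ p.2) : ℝ) - (M41.Ar r (p.1 ++ w ++ p.2) : ℝ) =
      ((dbl 0 w : ℝ) - (M41.Ar r w : ℝ)) + (off p : ℝ) := by exact_mod_cast e3
  have h5 : ((|off p| : ℤ) : ℝ) ≤ ((4 * (hl p : ℤ) ^ 2 : ℤ) : ℝ) := by exact_mod_cast off_le hp1
  push_cast at h5
  unfold Dd
  rw [e4]
  refine (abs_add_le _ _).trans ?_
  linarith

lemma fE_step {r L N : ℕ} {x : ℤ} {p : Wd × Wd} {w : Wd} (hx : 1 ≤ x) (hp : p ∈ allowed r x)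
    (hN : hl p < N) (hw : w ∈ ArchSet r (x + jump p) (2 * (N - hl p))) :
    fE r L N (p.1 ++ w ++ p.2) ≤ fE r L (N - hl p) w + vv L (hl p) := by
  have h1 := Dd_step hx hp hN hw
  have h2 := sq_le_vv L (hl p)
  have h3 := Dd_le r L (N - hl p) w
  have h4 : ((N - hl p : ℕ) : ℝ) = N - hl p := by
    rw [Nat.cast_sub hN.le]
  rw [h4] at h3
  have h5 := fE_nonneg r L (N - hl p) w
  have h6 := vv_nonneg L (hl p)
  unfold fE at h5 ⊢
  unfold fE at h3
  apply max_le (by linarith)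
  linarith

lemma geo {q : ℝ} (h0 : 0 ≤ q) (h1 : q < 1) (n : ℕ) : ∑ k ∈ range n, q ^ k ≤ 1 / (1 - q) := by
  have h2 : (0 : ℝ) < 1 - q := by linarith
  rw [geom_sum_eq h1.ne, ← neg_div_neg_eq]
  apply div_le_div₀ zero_le_one _ h2 (by linarith)
  have := pow_nonneg h0 n
  linarith

lemma CapSet_far {r : ℕ} {x : ℤ} {k : ℕ} (hk : (k : ℤ) < x) (hx : 1 ≤ x) :
    CapSet r x (2 * k) = ∅ :=
  M41.CapSet_empty H66.k5cap r x (2 * k) hx (Or.inr (Or.inl (by push_cast; omega)))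

lemma sum_range_even' (f : ℕ → ℝ) (hf : ∀ m, f (2 * m + 1) = 0) (n : ℕ) :
    ∑ M ∈ range (2 * n + 1), f M = ∑ m ∈ range (n + 1), f (2 * m) := by
  induction n with
  | zero => simp
  | succ n ih =>
    rw [sum_range_succ (fun m => f (2 * m)) (n + 1), ← ih,
      show 2 * (n + 1) + 1 = (2 * n + 1) + 1 + 1 by ring, sum_range_succ, sum_range_succ,
      hf n, add_zero, show 2 * n + 1 + 1 = 2 * (n + 1) by ring]

/-- the estimate for one cap and all arches on top of it -/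
lemma inner (μ : MW) {n k L : ℕ} {rho e Zb : ℝ} {x : ℤ} {T : Wd}
    (hrho : 0 < rho) (hx : 1 ≤ x) (hk : k ≤ n)
    (hT : T ∈ CapSet (2 * n - 1) x (2 * k))
    (hE : Gs (2 * n - 1) μ rho (fE (2 * n - 1) L) (n - k) x ≤ e)
    (hZ : Gs (2 * n - 1) μ rho (fun _ _ => 1) (n - k) x ≤ Zb) :
    ∑ w ∈ ArchSet (2 * n - 1) x (2 * n - 2 * k), (μ.aw w * μ.aw T) *
      |(|((dbl 0 w + dbl 0 T : ℤ) : ℝ)| - (M41.Ar (2 * n - 1) w : ℝ))| ≤
    4 * L * n * ∑ w ∈ ArchSet (2 * n - 1) x (2 * n - 2 * k), (μ.aw w * μ.aw T) +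
      (rho ^ n)⁻¹ * (rho ^ k * μ.aw T * (e + vv L k * Zb)) := by
  set r := 2 * n - 1 with hr
  have hT0 : 0 ≤ μ.aw T := μ.aw_nonneg T
  rw [show 2 * n - 2 * k = 2 * (n - k) by omega]
  have hcast : ((n - k : ℕ) : ℝ) = n - k := by rw [Nat.cast_sub hk]
  have hpt : ∀ w ∈ ArchSet r x (2 * (n - k)),
      (μ.aw w * μ.aw T) *
        |(|((dbl 0 w + dbl 0 T : ℤ) : ℝ)| - (M41.Ar r w : ℝ))| ≤
      4 * L * n * (μ.aw w * μ.aw T) +
        μ.aw T * (μ.aw w * fE r L (n - k) w + vv L k * (μ.aw w * 1)) := by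
    intro w hw
    have hA : |(|((dbl 0 w + dbl 0 T : ℤ) : ℝ)| - (M41.Ar r w : ℝ))| ≤
        4 * L * n + (fE r L (n - k) w + vv L k) := by
      have h1 : |(M41.Ar r w : ℝ)| = (M41.Ar r w : ℝ) := abs_of_nonneg (by positivity)
      have h2 := abs_abs_sub_abs_le ((dbl 0 w + dbl 0 T : ℤ) : ℝ) (M41.Ar r w : ℝ)
      rw [h1] at h2
      have h3 : |((dbl 0 w + dbl 0 T : ℤ) : ℝ) - (M41.Ar r w : ℝ)| ≤
          Dd r w + |(dbl 0 T : ℝ)| := by
        have : ((dbl 0 w + dbl 0 T : ℤ) : ℝ) - (M41.Ar r w : ℝ) =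
            ((dbl 0 w : ℝ) - (M41.Ar r w : ℝ)) + (dbl 0 T : ℝ) := by push_cast; ring
        rw [this]
        exact abs_add_le _ _
      have h4 := Dd_le r L (n - k) w
      rw [hcast] at h4
      have h5 := cap_le' hx hT
      have h6 := sq_le_vv L k
      linarith
    have h7 := mul_le_mul_of_nonneg_left hA (mul_nonneg (μ.aw_nonneg w) hT0)
    refine h7.trans (le_of_eq ?_)
    ring
  refine (sum_le_sum hpt).trans ?_
  rw [sum_add_distrib, ← mul_sum, ← mul_sum]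
  apply add_le_add le_rfl
  rw [sum_add_distrib, ← mul_sum]
  have hE' : ∑ w ∈ ArchSet r x (2 * (n - k)), μ.aw w * fE r L (n - k) w ≤
      (rho ^ (n - k))⁻¹ * e := by
    unfold Gs at hE
    rw [inv_mul_eq_div, le_div_iff₀ (by positivity), mul_comm]
    exact hE
  have hZ' : ∑ w ∈ ArchSet r x (2 * (n - k)), μ.aw w * (1 : ℝ) ≤
      (rho ^ (n - k))⁻¹ * Zb := by
    unfold Gs at hZ
    rw [inv_mul_eq_div, le_div_iff₀ (by positivity), mul_comm]
    exact hZ
  have hinv : (rho ^ (n - k))⁻¹ = (rho ^ n)⁻¹ * rho ^ k := by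
    have : rho ^ n = rho ^ (n - k) * rho ^ k := by rw [← pow_add]; congr 1; omega
    rw [this]
    field_simp
  have hfin : (rho ^ n)⁻¹ * (rho ^ k * μ.aw T * (e + vv L k * Zb)) =
      μ.aw T * ((rho ^ (n - k))⁻¹ * e + vv L k * ((rho ^ (n - k))⁻¹ * Zb)) := by
    rw [hinv]; ring
  rw [hfin]
  apply mul_le_mul_of_nonneg_left _ hT0
  exact add_le_add hE' (mul_le_mul_of_nonneg_left hZ' (vv_nonneg _ _))

/-- the sum over the caps -/
lemma caps (μ : MW) {n L : ℕ} {C θ rho e Zb : ℝ} (hn : 1 ≤ n) (he : 0 ≤ e) (hZb : 0 ≤ Zb)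
    (ht : ∀ m : ℕ, ∑ x ∈ Icc (1 : ℤ) m, ∑ T ∈ CapSet (2 * n - 1) x (2 * m),
      rho ^ m * μ.aw T ≤ C * θ ^ m) :
    ∑ x ∈ Icc (1 : ℤ) ((2 * n - 1 : ℕ) : ℤ), ∑ M ∈ range (2 * n - 1 + 2),
      ∑ T ∈ CapSet (2 * n - 1) x M,
        rho ^ (M / 2) * μ.aw T * (e + vv L (M / 2) * Zb) ≤
      ∑ k ∈ range (n + 1), C * θ ^ k * (e + vv L k * Zb) := by
  set r := 2 * n - 1 with hr
  rw [sum_comm]
  rw [show r + 2 = 2 * n + 1 by omega]
  rw [sum_range_even' _ ?_ n]
  · apply sum_le_sum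
    intro k hk
    rw [mem_range] at hk
    have hk2 : 2 * k / 2 = k := by omega
    rw [hk2]
    have hw : 0 ≤ e + vv L k * Zb := add_nonneg he (mul_nonneg (vv_nonneg _ _) hZb)
    simp only [← sum_mul]
    apply mul_le_mul_of_nonneg_right _ hw
    refine le_trans (le_of_eq ?_) (ht k)
    symm
    apply sum_subset
    · intro x hx
      rw [mem_Icc] at hx ⊢
      omega
    · intro x hx hx'
      rw [mem_Icc] at hx hx'
      rw [CapSet_far (by omega) hx.1, sum_empty]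
  · intro m
    apply sum_eq_zero
    intro x hx
    rw [mem_Icc] at hx
    rw [M41.CapSet_empty H66.k5cap r x (2 * m + 1) hx.1 (by omega), sum_empty]

lemma exists_bound {q : ℝ} (h0 : 0 ≤ q) (h1 : q < 1) :
    ∃ B : ℝ, 0 < B ∧ ∀ k : ℕ, 4 * (k : ℝ) ^ 2 * q ^ k ≤ B := by
  have ht : Tendsto (fun k : ℕ => (k : ℝ) ^ 2 * q ^ k) atTop (𝓝 0) :=
    tendsto_pow_const_mul_const_pow_of_abs_lt_one 2 (by rw [abs_of_nonneg h0]; exact h1)
  obtain ⟨B, hB⟩ := ht.bddAbove_range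
  refine ⟨4 * max B 1, by positivity, fun k => ?_⟩
  have h2 : (k : ℝ) ^ 2 * q ^ k ≤ B := hB ⟨k, rfl⟩
  have h3 := le_max_left B 1
  linarith

/-- NEARG : mean error of the area functional. -/
theorem near : NEARG_Stmt := by
  classical
  intro C θ hC hθ0 hθ1
  set q : ℝ := θ ^ (((3 : ℕ) : ℝ)⁻¹) with hq
  have hq3 : q ^ 3 = θ := Real.rpow_inv_natCast_pow hθ0.le (by norm_num)
  have hq0 : 0 < q := Real.rpow_pos_of_pos hθ0 _
  have hq1 : q < 1 := Real.rpow_lt_one hθ0.le hθ1 (by positivity)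
  obtain ⟨B, hB0, hB⟩ := exists_bound hq0.le hq1
  have hlq : 0 < -Real.log q := by
    have := Real.log_neg hq0 hq1
    linarith
  set K : ℝ := 6 / (-Real.log q) with hK
  have hK0 : 0 < K := by positivity
  have h1θ : 0 < 1 - θ := by linarith
  have h1q : 0 < 1 - q := by linarith
  set Zb : ℝ := C * (1 / (1 - θ)) with hZb
  have hZb0 : 0 < Zb := by positivity
  set a0 : ℝ := C * (B * (1 / (1 - q))) with ha0
  have ha00 : 0 < a0 := by positivity
  refine ⟨4 * (K + 2) + a0 * Zb * (2 + Zb), by positivity, ?_⟩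
  intro μ n rho hn hrho hmass ht
  obtain ⟨ht1, ht2, -⟩ := ht
  set r := 2 * n - 1 with hr
  set L : ℕ := ⌈K * Real.log n⌉₊ with hL
  set a : ℝ := a0 * q ^ L with ha
  have ha1 : 0 < a := by positivity
  have hn0 : (0 : ℝ) < n := by positivity
  have hn2 : (2 : ℝ) ≤ n := by exact_mod_cast hn
  have hlog : 1 ≤ 2 * Real.log n := by
    have h1 : Real.log 2 ≤ Real.log n := Real.log_le_log (by norm_num) hn2
    have h2 := Real.log_two_gt_d9
    norm_num at h2 ⊢
    linarith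
  -- caps
  have hcap : ∀ N x, 1 ≤ x → Cs r μ rho N x ≤ C * θ ^ N := by
    intro N x hx
    rcases lt_or_ge (N : ℤ) x with hN | hN
    · unfold Cs
      rw [CapSet_far hN hx, sum_empty]
      positivity
    · refine le_trans ?_ (ht2 N)
      exact single_le_sum (f := fun x => ∑ T ∈ CapSet r x (2 * N), rho ^ N * μ.aw T)
        (fun x _ => sum_nonneg fun T _ => mul_nonneg (pow_nonneg hrho.le _) (μ.aw_nonneg T)) (mem_Icc.2 ⟨hx, hN⟩)
  -- long pieces
  have hvv : ∀ m, C * θ ^ m * vv L m ≤ C * (B * q ^ L) * q ^ m := by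
    intro m
    unfold vv
    split_ifs with hm
    · have e1 : θ ^ m = q ^ m * q ^ m * q ^ m := by
        rw [← hq3, ← pow_mul, ← pow_add, ← pow_add]; congr 1; ring
      have e2 : q ^ m ≤ q ^ L := pow_le_pow_of_le_one hq0.le hq1.le hm.le
      have e3 : 4 * (m : ℝ) ^ 2 * q ^ m * q ^ m ≤ B * q ^ L :=
        mul_le_mul (hB m) e2 (by positivity) hB0.le
      have e4 : C * θ ^ m * (4 * (m : ℝ) ^ 2) =
          C * (4 * (m : ℝ) ^ 2 * q ^ m * q ^ m) * q ^ m := by rw [e1]; ring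
      rw [e4]
      apply mul_le_mul_of_nonneg_right _ (by positivity)
      exact mul_le_mul_of_nonneg_left e3 hC.le
    · rw [mul_zero]; positivity
  have hvsum : ∀ N : ℕ, ∑ m ∈ range N, C * θ ^ m * vv L m ≤ a := by
    intro N
    refine (sum_le_sum fun m _ => hvv m).trans ?_
    rw [← mul_sum]
    have e1 := mul_le_mul_of_nonneg_left (geo hq0.le hq1 N)
      (show 0 ≤ C * (B * q ^ L) by positivity)
    refine e1.trans (le_of_eq ?_)
    rw [ha, ha0]; ring
  have hA : ∑ p ∈ Pc r, mu μ rho p * vv L (hl p) ≤ a := by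
    have hmaps : ∀ p ∈ Pc r, hl p ∈ range (n + 1) := by
      intro p hp
      have := len_hl hp
      rw [mem_range]; omega
    rw [← sum_fiberwise_of_maps_to hmaps]
    refine le_trans (sum_le_sum fun m _ => ?_) (hvsum (n + 1))
    have e1 : ∑ p ∈ (Pc r).filter (fun p => hl p = m), mu μ rho p * vv L (hl p) =
        (∑ p ∈ (Pc r).filter (fun p => hl p = m), rho ^ m * μ.pw p) * vv L m := by
      rw [sum_mul]
      apply sum_congr rfl
      intro p hp
      rw [mem_filter] at hp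
      unfold mu
      rw [hp.2]
    rw [e1]
    exact mul_le_mul_of_nonneg_right (ht1 m) (vv_nonneg _ _)
  have hmass' : ∑ p ∈ Pc r, mu μ rho p = 1 := hmass
  -- total weight of the arches
  have hZ : ∀ k x, 1 ≤ x → Gs r μ rho (fun _ _ => 1) k x ≤ Zb := by
    intro k x hx
    have := solve μ hrho (f := fun _ _ => 1) (u := fun _ => 1) (v := fun _ => 0)
      (cN := fun N => C * θ ^ N) (Zb := 0) (A := 0) (fun _ => le_rfl) (fun _ => zero_le_one)
      hcap (fun N => by positivity) hmass' (by simp) (fun _ _ _ _ _ => le_rfl)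
      (fun _ _ _ _ _ _ _ _ => by simp) le_rfl (fun _ _ _ _ => by simp) k k x le_rfl hx
    refine this.trans ?_
    simp only [mul_one, mul_zero, add_zero]
    rw [← mul_sum]
    exact mul_le_mul_of_nonneg_left (geo hθ0.le hθ1 _) hC.le
  -- error of the arches
  have hE : ∀ k x, k ≤ n → 1 ≤ x → Gs r μ rho (fE r L) k x ≤ a + n * (a * Zb) := by
    intro k x hk hx
    have := solve μ hrho (f := fE r L) (u := vv L) (v := vv L)
      (cN := fun N => C * θ ^ N) (Zb := Zb) (A := a) (vv_nonneg L) (vv_nonneg L)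
      hcap (fun N => by positivity) hmass' hA (fun N x T hx hT => fE_cap hx hT)
      (fun N x p w hx hp hN hw => fE_step hx hp hN hw) hZb0.le
      (fun k x m hx => mul_le_mul_of_nonneg_left (hZ k x hx) (vv_nonneg _ _)) n k x hk hx
    refine this.trans ?_
    exact add_le_add (hvsum _) le_rfl
  set e : ℝ := a + n * (a * Zb) with he
  have he0 : 0 ≤ e := by positivity
  -- the polygons
  have hsumOm : ∀ F : (_ : ℤ) × (_ : ℕ) × (Wd × Wd) → ℝ, ∑ q ∈ M41.Om r n, F q =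
      ∑ x ∈ Icc (1 : ℤ) r, ∑ M ∈ range (r + 2), ∑ T ∈ CapSet r x M,
        ∑ w ∈ ArchSet r x (2 * n - M), F ⟨x, M, T, w⟩ := by
    intro F
    unfold M41.Om
    rw [sum_sigma]
    apply sum_congr rfl
    intro x _
    rw [sum_sigma]
    apply sum_congr rfl
    intro M _
    rw [sum_product]
  have hmain : ∑ q ∈ M41.Om r n, wtM μ q *
      |(|((dbl 0 q.2.2.2 + dbl 0 q.2.2.1 : ℤ) : ℝ)| - (M41.Ar r q.2.2.2 : ℝ))| ≤
      4 * L * n * ∑ q ∈ M41.Om r n, wtM μ q + (rho ^ n)⁻¹ *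
        ∑ k ∈ range (n + 1), C * θ ^ k * (e + vv L k * Zb) := by
    have hc := caps μ (L := L) (C := C) (θ := θ) (rho := rho) (e := e) (Zb := Zb)
      (by omega : 1 ≤ n) he0 hZb0.le ht2
    rw [← hr] at hc
    refine le_trans ?_ (add_le_add le_rfl
      (mul_le_mul_of_nonneg_left hc (by positivity : (0 : ℝ) ≤ (rho ^ n)⁻¹)))
    rw [hsumOm, hsumOm]
    simp only [mul_sum, ← sum_add_distrib]
    apply sum_le_sum
    intro x hx
    apply sum_le_sum
    intro M hM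
    apply sum_le_sum
    intro T hT
    rw [mem_Icc] at hx
    rw [mem_range] at hM
    obtain ⟨⟨k, hk⟩, h2, h3, -⟩ := H66.k5cap.1 r x M T hx.1 hT
    have hM2 : M = 2 * k := by omega
    subst hM2
    have := inner μ (n := n) (k := k) (L := L) (e := e) (Zb := Zb) hrho hx.1 (by omega) hT
      (hE _ _ (by omega) hx.1) (hZ _ _ hx.1)
    rw [show 2 * k / 2 = k by omega]
    simp only [wtM, mul_sum] at this ⊢
    exact this
  refine hmain.trans ?_
  have hW : 0 ≤ ∑ q ∈ M41.Om r n, wtM μ q := by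
    apply sum_nonneg
    intro q _
    unfold wtM
    exact mul_nonneg (μ.aw_nonneg _) (μ.aw_nonneg _)
  have hsum : ∑ k ∈ range (n + 1), C * θ ^ k * (e + vv L k * Zb) ≤ Zb * e + a * Zb := by
    have e1 : ∑ k ∈ range (n + 1), C * θ ^ k * (e + vv L k * Zb) =
        (C * ∑ k ∈ range (n + 1), θ ^ k) * e + (∑ k ∈ range (n + 1), C * θ ^ k * vv L k) * Zb := by
      rw [mul_sum, sum_mul, sum_mul, ← sum_add_distrib]
      apply sum_congr rfl
      intro k _
      ring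
    rw [e1]
    apply add_le_add
    · apply mul_le_mul_of_nonneg_right _ he0
      exact mul_le_mul_of_nonneg_left (geo hθ0.le hθ1 _) hC.le
    · exact mul_le_mul_of_nonneg_right (hvsum _) hZb0.le
  have hqL : q ^ L ≤ ((n : ℝ) ^ 6)⁻¹ := by
    have e1 : q ^ L = Real.exp (L * Real.log q) := by
      rw [Real.exp_nat_mul, Real.exp_log hq0]
    have e2 : ((n : ℝ) ^ 6)⁻¹ = Real.exp (-(6 * Real.log n)) := by
      rw [Real.exp_neg, show (6 : ℝ) * Real.log n = ((6 : ℕ) : ℝ) * Real.log n by norm_num,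
        Real.exp_nat_mul, Real.exp_log hn0]
    rw [e1, e2]
    apply Real.exp_le_exp.2
    have e3 : K * Real.log n ≤ L := Nat.le_ceil _
    have e4 := mul_le_mul_of_nonneg_right e3 hlq.le
    have hKq : K * (-Real.log q) = 6 := div_mul_cancel₀ _ hlq.ne'
    have e5 : K * Real.log n * (-Real.log q) = 6 * Real.log n := by
      rw [← hKq]; ring
    rw [e5] at e4
    linarith
  have hL2 : 4 * (L : ℝ) ≤ 4 * (K + 2) * Real.log n := by
    have e1 : (L : ℝ) < K * Real.log n + 1 := Nat.ceil_lt_add_one (by positivity)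
    linarith
  have hrn : 0 < rho ^ n := by positivity
  have hC1 : 0 < a0 * Zb * (2 + Zb) := by positivity
  have hfirst : 4 * (L : ℝ) * n * ∑ q ∈ M41.Om r n, wtM μ q ≤
      (4 * (K + 2) + a0 * Zb * (2 + Zb)) * n * Real.log n * ∑ q ∈ M41.Om r n, wtM μ q := by
    apply mul_le_mul_of_nonneg_right _ hW
    have e1 := mul_le_mul_of_nonneg_right hL2 hn0.le
    have e2 : 0 ≤ a0 * Zb * (2 + Zb) * n * Real.log n := by
      have : 0 ≤ Real.log n := by linarith
      positivity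
    linarith
  have hsecond : (rho ^ n)⁻¹ * ∑ k ∈ range (n + 1), C * θ ^ k * (e + vv L k * Zb) ≤
      (4 * (K + 2) + a0 * Zb * (2 + Zb)) / ((n : ℝ) ^ 5 * rho ^ n) := by
    have e1 : Zb * e + a * Zb ≤ a0 * Zb * (2 + Zb) / (n : ℝ) ^ 5 := by
      have e2 : Zb * e + a * Zb = a0 * Zb * (2 + n * Zb) * q ^ L := by
        rw [he, ha]; ring
      rw [e2]
      have e3 : a0 * Zb * (2 + n * Zb) ≤ a0 * Zb * (2 + Zb) * n := by
        have : 2 + n * Zb ≤ (2 + Zb) * n := by nlinarith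
        have h2 := mul_le_mul_of_nonneg_left this (show 0 ≤ a0 * Zb by positivity)
        linarith
      have e4 : a0 * Zb * (2 + n * Zb) * q ^ L ≤ a0 * Zb * (2 + Zb) * n * ((n : ℝ) ^ 6)⁻¹ :=
        mul_le_mul e3 hqL (by positivity) (by positivity)
      refine e4.trans (le_of_eq ?_)
      field_simp
    have e5 := hsum.trans e1
    have e6 := mul_le_mul_of_nonneg_left e5 (inv_nonneg.2 hrn.le)
    refine e6.trans ?_
    have e7 : (rho ^ n)⁻¹ * (a0 * Zb * (2 + Zb) / (n : ℝ) ^ 5) =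
        a0 * Zb * (2 + Zb) / ((n : ℝ) ^ 5 * rho ^ n) := by field_simp
    rw [e7]
    apply div_le_div_of_nonneg_right _ (by positivity)
    linarith
  exact add_le_add hfirst hsecond

end Pool.Agent.OC.NEARG

namespace Pool.Agent.OC

/-- NEARG : mean error of the area functional. -/
theorem nearg_thm : NEARG_Stmt := NEARG.near

end Pool.Agent.OC
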