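import Pool.Agent.OC.Stmts
import Pool.Agent.OC.Lib

/-!
# Convex occupation energies (MP_f6626d_co): super- and submultiplicativity (module OC_NSM)
-/

set_option autoImplicit false

namespace Pool.Agent.OC

open Finset Pool.Agent.Lib27 Pool.Agent.SapR
open Pool.Agent.MG (Bri Brp Irr Nc Fp Fpp Bad SB CC SW dip cc chi rfa)
open scoped NNReal ENNReal

namespace NSM

/-- a bridge visits all levels in between -/
theorem occ_Bri_pos {H : ℕ} {u : Wd} (hu : u ∈ Bri H) {k : ℤ} (h0 : 0 ≤ k) (hk : k ≤ H) :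
    1 ≤ occ u k := by
  obtain ⟨a, c, rfl, h1, -⟩ := MG.first_visit (w := u) h0
    ⟨ep 0 u, ep_mem_vt _ _, by rw [hu.2.1]; exact hk⟩
  exact occ_pos.2 ⟨ep 0 a, MG.mem_vt_append_left c (ep_mem_vt _ _), h1⟩

theorem split {m m' : ℕ} {A : Wd} (hA : A ∈ Bri (m + m')) :
    ∃ u l v, u ∈ Bri m ∧ l ∈ Lp ∧ v ∈ Bri m' ∧ A = u ++ l ++ v := by
  obtain ⟨u, l, v, hu, hl, hv, rfl⟩ := MG.Bri_split hA
  refine ⟨u, l, v, hu, ⟨hl, ?_⟩, hv, rfl⟩
  have h2 := hA.2.1
  rw [MG.lev_ep_append, MG.lev_ep_append, hu.2.1, hv.2.1] at h2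
  push_cast at h2
  omega

theorem occ3_ne {m : ℕ} {u l : Wd} (v : Wd) (hu : u ∈ Bri m) (hl : l ∈ Lp) {k : ℤ}
    (hk : k ≠ m) : occ (u ++ l ++ v) k = occ u k + occ l (k - m) + occ v (k - m) := by
  have e : lev (ep 0 (u ++ l)) = m := by rw [MG.lev_ep_append, hu.2.1, hl.2, add_zero]
  rw [occ_append_of_ne (u ++ l) v (by rw [e]; exact hk.symm), e,
    occ_append_of_ne u l (by rw [hu.2.1]; exact hk.symm), hu.2.1]

theorem occ3_eq {m m' : ℕ} {u l v : Wd} (hu : u ∈ Bri m) (hl : l ∈ Lp) (hv : v ∈ Bri m') :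
    occ (u ++ l ++ v) m = occ l 0 := by
  have e : lev (ep 0 (u ++ l)) = m := by rw [MG.lev_ep_append, hu.2.1, hl.2, add_zero]
  have h1 := occ_append_eq (u ++ l) v
  have h2 := occ_append_eq u l
  rw [e, occ_Bri_zero hv] at h1
  rw [hu.2.1, occ_Bri_top hu] at h2
  omega

variable {b : ℕ → ℝ≥0}

theorem BW_le_mul4 (h : IsW b) {o o₁ o₂ o₃ o₄ : ℤ → ℕ}
    (hle : ∀ k, b (o k) ≤ b (o₁ k) * b (o₂ k) * (b (o₃ k) * b (o₄ k))) :
    BW b o ≤ BW b o₁ * BW b o₂ * (BW b o₃ * BW b o₄) := by
  have h1 : BW b o ≤ LP (fun k => (b (o₁ k) : ℝ≥0∞) * b (o₂ k)) *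
      LP (fun k => (b (o₃ k) : ℝ≥0∞) * b (o₄ k)) := by
    refine LP_le_mul (fun k => ?_) (fun k => ?_) fun k => by exact_mod_cast hle k
    · exact mul_le_one' (coe_le_one h _) (coe_le_one h _)
    · exact mul_le_one' (coe_le_one h _) (coe_le_one h _)
  refine h1.trans (mul_le_mul' ?_ ?_)
  · exact LP_le_mul (fun k => coe_le_one h _) (fun k => coe_le_one h _) fun k => le_rfl
  · exact LP_le_mul (fun k => coe_le_one h _) (fun k => coe_le_one h _) fun k => le_rfl

/-- the inequality at one level, with both strands present -/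
theorem point (h : IsW b) {a x y : ℕ} (ha : 2 ≤ a) :
    b (a + (x + y)) ≤ b a * b (x + 2) * b (y + 2) := by
  refine (h.sub2 ha (x + y)).trans ?_
  rw [mul_assoc]
  refine mul_le_mul_right ?_ _
  rw [← add_assoc, add_comm x 2, add_comm y 2]
  exact h.sub3 x y

theorem weight (h : IsW b) (z : ℝ≥0∞) {m m' : ℕ} {u l v u' l' v' : Wd} (hu : u ∈ Bri m)
    (hl : l ∈ Lp) (hv : v ∈ Bri m') (hu' : u' ∈ Bri m) (hl' : l' ∈ Lp) (hv' : v' ∈ Bri m')
    (hA : u ++ l ++ v ∈ Bri (m + m')) (hB : u' ++ l' ++ v' ∈ Bri (m + m')) :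
    Wp b z (u ++ l ++ v, u' ++ l' ++ v') ≤
      Wp b z (u, u') * Wl b z l * Wl b z l' * Wp b z (v, v') := by
  have key : BW b (fun k => occ (u ++ l ++ v) k + occ (u' ++ l' ++ v') k) ≤
      BW b (fun k => occ u k + occ u' k) * BW b (fun k => occ l k + if k = 0 then 1 else 2) *
      (BW b (fun k => occ l' k + if k = 0 then 1 else 2) * BW b (fun k => occ v k + occ v' k)) := by
    rw [← BW_sub b m (fun k => occ l k + if k = 0 then 1 else 2),
      ← BW_sub b m (fun k => occ l' k + if k = 0 then 1 else 2),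
      ← BW_sub b m (fun k => occ v k + occ v' k)]
    refine BW_le_mul4 h fun k => ?_
    rcases eq_or_ne k (m : ℤ) with rfl | hk
    · rw [occ3_eq hu hl hv, occ3_eq hu' hl' hv', occ_Bri_top hu, occ_Bri_top hu', sub_self,
        if_pos rfl, occ_Bri_zero hv, occ_Bri_zero hv']
      have e1 : b (1 + 1) = 1 := h.b2
      rw [e1, one_mul, mul_one]
      have h1 := occ_zero_pos l
      have h2 := occ_zero_pos l'
      obtain ⟨x, hx⟩ : ∃ x, occ l 0 = x + 1 := ⟨occ l 0 - 1, by omega⟩
      obtain ⟨y, hy⟩ : ∃ y, occ l' 0 = y + 1 := ⟨occ l' 0 - 1, by omega⟩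
      rw [hx, hy]
      have h3 := h.sub3 x y
      rw [show x + 1 + (y + 1) = 2 + x + y by ring, show x + 1 + 1 = 2 + x by ring,
        show y + 1 + 1 = 2 + y by ring]
      exact h3
    · have hk' : k - m ≠ 0 := sub_ne_zero.2 hk
      rw [if_neg hk']
      have eA := occ3_ne v hu hl hk
      have eB := occ3_ne v' hu' hl' hk
      by_cases hout : k < 0 ∨ ((m + m' : ℕ) : ℤ) < k
      · have zA := occ_Bri_out hA hout
        have zB := occ_Bri_out hB hout
        rw [zA, zB]
        rw [zA] at eA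
        rw [zB] at eB
        have f1 : b (occ u k + occ u' k) = 1 := h.eq_one (by omega)
        have f2 : b (occ l (k - m) + 2) = 1 := h.eq_one (by omega)
        have f3 : b (occ l' (k - m) + 2) = 1 := h.eq_one (by omega)
        have f4 : b (occ v (k - m) + occ v' (k - m)) = 1 := h.eq_one (by omega)
        rw [f1, f2, f3, f4, one_mul, one_mul]
        exact h.le_one _
      · push Not at hout
        obtain ⟨hk0, hk1⟩ := hout
        rcases lt_or_gt_of_ne hk with hlt | hgt
        · have zv := occ_Bri_out hv (k := k - m) (Or.inl (by omega))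
          have zv' := occ_Bri_out hv' (k := k - m) (Or.inl (by omega))
          have p1 := occ_Bri_pos hu hk0 hlt.le
          have p2 := occ_Bri_pos hu' hk0 hlt.le
          have e4 : b (occ v (k - m) + occ v' (k - m)) = 1 := h.eq_one (by omega)
          rw [e4, mul_one, eA, eB, zv, zv']
          have h5 := point h (a := occ u k + occ u' k) (x := occ l (k - m)) (y := occ l' (k - m))
            (by omega)
          rw [show occ u k + occ l (k - m) + 0 + (occ u' k + occ l' (k - m) + 0) =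
            occ u k + occ u' k + (occ l (k - m) + occ l' (k - m)) by ring]
          exact h5
        · have zu := occ_Bri_out hu (k := k) (Or.inr (by omega))
          have zu' := occ_Bri_out hu' (k := k) (Or.inr (by omega))
          have p1 := occ_Bri_pos hv (k := k - m) (by omega) (by push_cast at hk1; omega)
          have p2 := occ_Bri_pos hv' (k := k - m) (by omega) (by push_cast at hk1; omega)
          have e4 : b (occ u k + occ u' k) = 1 := h.eq_one (by omega)
          rw [e4, one_mul, eA, eB, zu, zu']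
          have h5 := point h (a := occ v (k - m) + occ v' (k - m)) (x := occ l (k - m))
            (y := occ l' (k - m)) (by omega)
          rw [show 0 + occ l (k - m) + occ v (k - m) + (0 + occ l' (k - m) + occ v' (k - m)) =
            occ v (k - m) + occ v' (k - m) + (occ l (k - m) + occ l' (k - m)) by ring]
          refine h5.trans (le_of_eq ?_)
          ring
  unfold Wp Wl
  simp only [List.length_append]
  rw [show u.length + l.length + v.length + (u'.length + l'.length + v'.length) =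
    (u.length + u'.length) + l.length + l'.length + (v.length + v'.length) by ring,
    pow_add z _ (v.length + v'.length), pow_add z _ l'.length, pow_add z _ l.length]
  refine (mul_le_mul_right key _).trans (le_of_eq ?_)
  ring

end NSM

theorem nsm_thm : NSM_Stmt := by
  intro b z hb m m'
  constructor
  · unfold Y
    refine gs_concat2 (fun p q : Wd × Wd => (p.1 ++ q.1, p.2 ++ q.2)) ?_ ?_ ?_
    · rintro p hp q hq
      exact ⟨MG.Bri_append hp.1 hq.1, MG.Bri_append hp.2 hq.2⟩
    · rintro ⟨p1, p2⟩ hp ⟨q1, q2⟩ hq ⟨p1', p2'⟩ hp' ⟨q1', q2'⟩ hq' he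
      rw [Prod.mk.injEq] at he
      obtain ⟨e1, e2⟩ := he
      have h1 := MG.Fp_cancel' (MG.Bri_sub_Fp m hp.1) (MG.Bri_sub_Fp m hp'.1) e1
      have h2 := MG.Fp_cancel' (MG.Bri_sub_Fp m hp.2) (MG.Bri_sub_Fp m hp'.2) e2
      simp only at h1 h2
      rw [h1.1, h1.2, h2.1, h2.2]
      exact ⟨rfl, rfl⟩
    · intro p hp q hq
      exact (Wp_append hb z hp hq).ge
  · unfold Y
    rw [pow_two, ← mul_assoc]
    refine gs_split4 (fun (p : Wd × Wd) (l l' : Wd) (q : Wd × Wd) =>
      (p.1 ++ l ++ q.1, p.2 ++ l' ++ q.2)) ?_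
    rintro ⟨A, B⟩ ⟨hA, hB⟩
    simp only at hA hB
    obtain ⟨u, l, v, hu, hl, hv, rfl⟩ := NSM.split hA
    obtain ⟨u', l', v', hu', hl', hv', rfl⟩ := NSM.split hB
    exact ⟨(u, u'), l, l', (v, v'), ⟨hu, hu'⟩, hl, hl', ⟨hv, hv'⟩, rfl,
      NSM.weight hb z hu hl hv hu' hl' hv' hA hB⟩

end Pool.Agent.OC
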