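import Pool.Agent.OC.Stmts
import Pool.Agent.OC.Lib

/-!
# Convex occupation energies (MP_f6626d_co): POLYC

Polygons without cut are pairs of bridges and two half loops.
-/

set_option autoImplicit false

namespace Pool.Agent.OC

open Finset Pool.Agent.Lib27 Pool.Agent.SapR
open Pool.Agent.MG (Bri Brp Irr Nc Fp Fpp Bad SB CC SW dip cc chi rfa)
open scoped NNReal ENNReal

namespace POLYC

variable {b : ℕ → ℝ≥0}

/-- a bridge visits every level between its end levels -/
theorem one_le_occ {H : ℕ} {u : Wd} (hu : u ∈ Bri H) {k : ℤ} (h0 : 0 ≤ k) (hk : k ≤ H) :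
    1 ≤ occ u k := by
  obtain ⟨x, y, he, h1, -⟩ := MG.first_visit (w := u) h0
    ⟨ep 0 u, ep_mem_vt _ _, by rw [hu.2.1]; exact hk⟩
  refine occ_pos.2 ⟨ep 0 x, ?_, h1⟩
  rw [he, vt_append]
  refine List.mem_append_right _ ?_
  rw [vt_head]
  exact List.mem_cons_self

/-- levels of a half loop -/
theorem occ_Hl {d : ℕ} {l : Wd} (hl : l ∈ Hl d) {k : ℤ} (hk : k < -(d : ℤ) ∨ 0 < k) :
    occ l k = 0 := by
  rw [occ_eq_zero]
  rintro p hp rfl
  have h1 := hl.2.2.1 p hp
  have h2 := MG.dip_le hp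
  have h3 : dip l = d := hl.2.2.2
  rw [h3] at h2
  omega

theorem bgh_le (d : ℕ) (k : ℤ) : bgh d k ≤ 2 := by
  unfold bgh
  split_ifs <;> omega

theorem bgh_zero (d : ℕ) : bgh d 0 = 0 := by
  unfold bgh
  rw [if_pos rfl]

/-- the inequality on one level -/
theorem lvl (h : IsW b) {H e d : ℕ} (hH : 1 ≤ H) (he : e ≤ H) (hd : d < H) {A B l0 lt : Wd}
    (hA : A ∈ Bri H) (hB : B ∈ Bri H) (h0 : rfa l0 ∈ Hl e) (ht : lt ∈ Hl d) (k : ℤ) (o : ℕ)
    (ho : o + (if k = 0 then 2 else 0) + (if k = H then 2 else 0) =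
      occ A k + occ B k + occ l0 k + occ lt (k - H)) :
    b o ≤ b (occ l0 k + bgh e (-k)) *
      (b (occ lt (k - H) + bgh d (k - H)) * b (occ A k + occ B k)) := by
  have hb1 := bgh_le e (-k)
  have hb2 := bgh_le d (k - H)
  have hl0 : occ l0 k = occ (rfa l0) (-k) := by rw [occ_rfa, neg_neg]
  have hout : occ A k = 0 → occ B k = 0 → occ l0 k = 0 → occ lt (k - H) = 0 →
      b o ≤ b (occ l0 k + bgh e (-k)) *
        (b (occ lt (k - H) + bgh d (k - H)) * b (occ A k + occ B k)) := by
    intro a1 a2 a3 a4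
    rw [a1, a2, a3, a4, h.eq_one (v := 0 + bgh e (-k)) (by omega),
      h.eq_one (v := 0 + bgh d (k - H)) (by omega), h.eq_one (v := 0 + 0) (by omega), mul_one,
      mul_one]
    exact h.le_one o
  rcases lt_trichotomy k 0 with hk | hk | hk
  · refine hout (occ_Bri_out hA (Or.inl hk)) (occ_Bri_out hB (Or.inl hk)) ?_ ?_
    · rw [hl0]
      exact occ_Hl h0 (Or.inr (by omega))
    · exact occ_Hl ht (Or.inl (by omega))
  · subst hk
    have a1 := occ_Bri_zero hA
    have a2 := occ_Bri_zero hB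
    have a3 : occ lt (0 - (H : ℤ)) = 0 := occ_Hl ht (Or.inl (by omega))
    rw [if_pos rfl, if_neg (by omega)] at ho
    have ho' : o = occ l0 0 := by omega
    rw [neg_zero, bgh_zero, add_zero, a1, a2, a3,
      h.eq_one (v := 0 + bgh d (0 - H)) (by omega), h.eq_one (v := 1 + 1) (by omega), mul_one,
      mul_one, ho']
  · rw [if_neg (by omega), add_zero] at ho
    rcases lt_trichotomy k H with hkH | hkH | hkH
    · rw [if_neg (by omega), add_zero] at ho
      have a1 := one_le_occ hA hk.le hkH.le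
      have a2 := one_le_occ hB hk.le hkH.le
      calc b o = b ((occ A k + occ B k) + (occ l0 k + occ lt (k - H))) := by
            rw [ho, add_assoc]
        _ ≤ b (occ A k + occ B k) * b (2 + (occ l0 k + occ lt (k - H))) := h.sub2 (by omega) _
        _ = b (occ A k + occ B k) * b (2 + occ l0 k + occ lt (k - H)) := by rw [← add_assoc]
        _ ≤ b (occ A k + occ B k) * (b (2 + occ l0 k) * b (2 + occ lt (k - H))) := by
            gcongr
            exact h.sub3 _ _
        _ ≤ b (occ A k + occ B k) * (b (occ l0 k + bgh e (-k)) *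
              b (occ lt (k - H) + bgh d (k - H))) := by
            gcongr
            · exact h.antitone (by omega)
            · exact h.antitone (by omega)
        _ = _ := by ring
    · subst hkH
      have a1 := occ_Bri_top hA
      have a2 := occ_Bri_top hB
      rw [if_pos rfl, sub_self] at ho
      have hv := occ_zero_pos lt
      have ho' : o = occ l0 H + occ lt 0 := by omega
      rw [sub_self, bgh_zero, add_zero, a1, a2, h.eq_one (v := 1 + 1) (by omega), mul_one, ho']
      rcases he.lt_or_eq with heH | heH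
      · have a3 : occ l0 H = 0 := by
          rw [hl0]
          exact occ_Hl h0 (Or.inl (by omega))
        rw [a3, h.eq_one (v := 0 + bgh e (-(H : ℤ))) (by omega), one_mul, zero_add]
      · have a3 : bgh e (-(H : ℤ)) = 1 := by
          unfold bgh
          rw [if_neg (by omega), if_pos (by omega)]
        rw [a3]
        rcases (show occ lt 0 = 1 ∨ 2 ≤ occ lt 0 by omega) with hv1 | hv2
        · rw [hv1, h.b1, mul_one]
        · calc b (occ l0 H + occ lt 0) = b (occ lt 0 + occ l0 H) := by rw [add_comm]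
            _ ≤ b (occ lt 0) * b (2 + occ l0 H) := h.sub2 hv2 _
            _ ≤ b (occ lt 0) * b (occ l0 H + 1) := by
                gcongr
                exact h.antitone (by omega)
            _ = _ := mul_comm _ _
    · refine hout (occ_Bri_out hA (Or.inr hkH)) (occ_Bri_out hB (Or.inr hkH)) ?_ ?_
      · rw [hl0]
        exact occ_Hl h0 (Or.inl (by omega))
      · exact occ_Hl ht (Or.inr (by omega))

/-- the inequality for the weights of the occupations -/
theorem BW_le (h : IsW b) {H e d : ℕ} (hH : 1 ≤ H) (he : e ≤ H) (hd : d < H) {A B l0 lt : Wd}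
    (hA : A ∈ Bri H) (hB : B ∈ Bri H) (h0 : rfa l0 ∈ Hl e) (ht : lt ∈ Hl d) (o : ℤ → ℕ)
    (ho : ∀ k : ℤ, o k + (if k = 0 then 2 else 0) + (if k = H then 2 else 0) =
      occ A k + occ B k + occ l0 k + occ lt (k - H)) :
    BW b o ≤ BW b (fun k => occ (rfa l0) k + bgh (dip (rfa l0)) k) *
      (BW b (fun k => occ lt k + bgh (dip lt) k) * BW b (fun k => occ A k + occ B k)) := by
  have e1 : BW b (fun k => occ (rfa l0) k + bgh (dip (rfa l0)) k) =
      BW b (fun k => occ l0 k + bgh e (-k)) := by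
    rw [← BW_neg b (fun k => occ l0 k + bgh e (-k))]
    refine BW_congr fun k => ?_
    rw [occ_rfa, neg_neg, h0.2.2.2]
  have e2 : BW b (fun k => occ lt k + bgh (dip lt) k) =
      BW b (fun k => occ lt (k - H) + bgh d (k - H)) := by
    rw [BW_sub b H (fun k => occ lt k + bgh d k), ht.2.2.2]
  rw [e1, e2]
  unfold BW
  refine (LP_le_mul (f := fun k => (b (o k) : ℝ≥0∞))
    (g := fun k => (b (occ l0 k + bgh e (-k)) : ℝ≥0∞))
    (h := fun k => (b (occ lt (k - H) + bgh d (k - H)) : ℝ≥0∞) * (b (occ A k + occ B k) : ℝ≥0∞))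
    (fun k => coe_le_one h _) (fun k => ?_) (fun k => ?_)).trans ?_
  · exact mul_le_one' (coe_le_one h _) (coe_le_one h _)
  · exact_mod_cast lvl h hH he hd hA hB h0 ht k (o k) (ho k)
  · refine mul_le_mul' le_rfl ?_
    exact LP_le_mul (fun k => coe_le_one h _) (fun k => coe_le_one h _) fun k => le_rfl

end POLYC

open POLYC in
theorem polyc_thm (h1 : POLYR_Stmt) : POLYC_Stmt := by
  classical
  intro b z hb n hn
  set f : Wd → ℝ≥0∞ := fun w => z ^ (2 * n) * BW b (cocc w) with hf
  -- the classes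
  let P : ℕ → ℕ → ℕ → ℕ → Set Wd := fun j H e d => {w | w ∈ FL.NoCut n ∧ j < 2 * n ∧
    ∃ A B l0 lt : Wd, 1 ≤ H ∧ e ≤ H ∧ d < H ∧
    w.rotate j = A ++ rv (l0 ++ B ++ lt) ∧ (A, B) ∈ Nc e (H - d) H ∧ rfa l0 ∈ Hl e ∧ lt ∈ Hl d ∧
    (∃ c : ℤ, ∀ k : ℤ, cocc (w.rotate j) k = cocc w (k + c)) ∧
    ∀ k : ℤ, cocc (w.rotate j) k + (if k = 0 then 2 else 0) + (if k = H then 2 else 0) =
      occ A k + occ B k + occ l0 k + occ lt (k - H)}
  have key : ∀ j H e d : ℕ, gs f (P j H e d) ≤
      gs (Wh b z) (Hl e) * gs (Wh b z) (Hl d) * gs (Wp b z) (Nc e (H - d) H) := by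
    intro j H e d
    refine gs_split3 (fun (l' lt : Wd) (p : Wd × Wd) =>
      (p.1 ++ rv (rfa l' ++ p.2 ++ lt)).rotate (2 * n - j)) ?_
    rintro w ⟨hw, hj, A, B, l0, lt, hH, he, hd, hrot, hN, hl0, hlt, ⟨c, hc⟩, ho⟩
    have hlen : w.length = 2 * n := ((mem_W n w).1 (Finset.mem_filter.1 hw).1).1
    refine ⟨rfa l0, lt, (A, B), hl0, hlt, hN, ?_, ?_⟩
    · simp only [MG.rfa_rfa]
      rw [← hrot, List.rotate_rotate, Nat.add_sub_cancel' hj.le, ← hlen, List.rotate_length]
    · have hlen2 : 2 * n = (rfa l0).length + (lt.length + (A.length + B.length)) := by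
        have := congrArg List.length hrot
        rw [List.length_rotate, hlen, List.length_append, MG.rv_length, List.length_append,
          List.length_append] at this
        rw [MG.rfa_length]
        omega
      have hBW : BW b (cocc w) = BW b (cocc (w.rotate j)) := by
        rw [← BW_shift b c (cocc w)]
        exact BW_congr fun k => (hc k).symm
      have hle := BW_le hb hH he hd hN.1.1 hN.1.2 hl0 hlt (cocc (w.rotate j)) ho
      rw [hf]
      simp only
      rw [hBW, hlen2, pow_add, pow_add]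
      unfold Wh Wp
      simp only
      calc z ^ (rfa l0).length * (z ^ lt.length * z ^ (A.length + B.length)) *
            BW b (cocc (w.rotate j))
          ≤ z ^ (rfa l0).length * (z ^ lt.length * z ^ (A.length + B.length)) *
            (BW b (fun k => occ (rfa l0) k + bgh (dip (rfa l0)) k) *
              (BW b (fun k => occ lt k + bgh (dip lt) k) *
                BW b (fun k => occ A k + occ B k))) := mul_le_mul' le_rfl hle
        _ = _ := by ring
  rw [← gs_finset f (FL.NoCut n)]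
  calc gs f (FL.NoCut n : Set Wd)
      ≤ ∑ j ∈ range (2 * n), gs f (⋃ H, ⋃ e, ⋃ d, P j H e d) := by
        refine gs_le_sum f _ _ _ ?_
        intro w hw
        obtain ⟨j, H, e, d, A, B, l0, lt, hj, hH, he, hd, hrot, hN, hl0, hlt, hc, ho⟩ :=
          h1 n w hn hw
        refine ⟨j, mem_range.2 hj, ?_⟩
        refine Set.mem_iUnion.2 ⟨H, Set.mem_iUnion.2 ⟨e, Set.mem_iUnion.2 ⟨d, ?_⟩⟩⟩
        exact ⟨hw, hj, A, B, l0, lt, hH, he, hd, hrot, hN, hl0, hlt, hc, ho⟩
    _ ≤ ∑ _j ∈ range (2 * n), ∑' H : ℕ, ∑' e : ℕ, ∑' d : ℕ,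
          gs (Wh b z) (Hl e) * gs (Wh b z) (Hl d) * gs (Wp b z) (Nc e (H - d) H) := by
        refine Finset.sum_le_sum fun j _ => ?_
        refine (gs_iUnion f _).trans (ENNReal.tsum_le_tsum fun H => ?_)
        refine (gs_iUnion f _).trans (ENNReal.tsum_le_tsum fun e => ?_)
        exact (gs_iUnion f _).trans (ENNReal.tsum_le_tsum fun d => key j H e d)
    _ = _ := by
        rw [sum_const, card_range, nsmul_eq_mul]

end Pool.Agent.OC
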