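import Pool.Agent.OC.Stmts
import Pool.Agent.OC.Lib
import Pool.Agent.Lib_helper27.FL.MGI1

/-!
# Convex occupation energies (MP_f6626d_co): POLYR

Polygons without cut, rotated: two bridges and two half loops.
-/

set_option autoImplicit false

namespace Pool.Agent.OC.POLYR

open Finset Pool.Agent.Lib27 Pool.Agent.SapR Pool.Agent.OC
open Pool.Agent.MG (Bri Brp Irr Nc Fp Fpp Bad SB CC SW dip cc chi rfa)

theorem l_add (p q : ℤ × ℤ) : lev (p + q) = lev p + lev q := SapR.H58.lev_add p q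

theorem l_zero : lev (0 : ℤ × ℤ) = 0 := rfl

/-- occupations of a rotated closed word -/
theorem cocc_rot (l₁ l₂ : Wd) (h : ep 0 (l₁ ++ l₂) = 0) (k : ℤ) :
    cocc (l₂ ++ l₁) k = cocc (l₁ ++ l₂) (k + lev (ep 0 l₁)) := by
  unfold cocc
  rw [SapR.H58.cnt_perm (SapR.H58.perm_rot l₁ l₂ h), SapR.H58.cnt_shift, SapR.H58.lev_neg,
    sub_neg_eq_add]

/-- vertices of a rotated closed word -/
theorem mem_rot (l₁ l₂ : Wd) (h : ep 0 (l₁ ++ l₂) = 0) (v : ℤ × ℤ) :
    v ∈ vs 0 (l₂ ++ l₁) ↔ v + ep 0 l₁ ∈ vs 0 (l₁ ++ l₂) := by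
  rw [(SapR.H58.perm_rot l₁ l₂ h).mem_iff, List.mem_map]
  constructor
  · rintro ⟨u, hu, rfl⟩
    have : u + -ep 0 l₁ + ep 0 l₁ = u := by abel
    rwa [this]
  · intro h
    exact ⟨v + ep 0 l₁, h, by abel⟩

/-- the starting point of a nonempty word -/
theorem head_mem (p : ℤ × ℤ) {s : Wd} (hs : s ≠ []) : p ∈ vs p s := by
  cases s with
  | nil => exact absurd rfl hs
  | cons d s => simp

/-- a proper initial part of a closed self-avoiding word is self-avoiding -/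
theorem saws_init {A X : Wd} (hX : X ≠ []) (h : (vs 0 (A ++ X)).Nodup) : SAWs A := by
  rw [vs_append] at h
  unfold SAWs vt
  rw [List.nodup_append] at h ⊢
  refine ⟨h.1, List.nodup_singleton _, ?_⟩
  intro a ha b hb
  rw [List.mem_singleton] at hb
  rw [hb]
  exact h.2.2 a ha _ (head_mem _ hX)

/-- first step: the rotation -/
theorem step1 {u : Wd} {H : ℕ} (hH : 1 ≤ H) (hS : SAPw u)
    (hex : ∃ v ∈ vs 0 u, lev v = H) :
    ∃ a A Q : Wd, u = a ++ (A ++ Q) ∧ A ∈ Bri H ∧ lev (ep 0 a) = 0 ∧ Q ≠ [] := by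
  obtain ⟨v, hv, hvH⟩ := hex
  obtain ⟨P, Q, rfl, h1, h2⟩ := MG.first_visit (w := u) (h := H) (by positivity)
    ⟨v, MG.mem_vt_iff.2 (Or.inl hv), hvH.ge⟩
  have hQ : Q ≠ [] := by
    rintro rfl
    have := hS.1
    rw [List.append_nil] at this
    rw [this, l_zero] at h1
    omega
  have hP : P ∈ Fp H := ⟨saws_init hQ hS.2, h1, h2⟩
  obtain ⟨a, A, -, hA, rfl, ha⟩ := MG.Fp_split hP
  exact ⟨a, A, Q, by simp, hA, ha, hQ⟩

/-- second step: the decomposition of the second half -/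
theorem step2 {A X : Wd} {H : ℕ} (hH : 1 ≤ H) (hA : A ∈ Bri H) (hS : SAPw (A ++ X))
    (hl : ∀ v ∈ vs 0 (A ++ X), 0 ≤ lev v ∧ lev v ≤ H) (hcut : ∀ k, ¬ Cut (vs 0 (A ++ X)) k) :
    ∃ (e d : ℕ) (B l0 lt : Wd), e ≤ H ∧ d < H ∧ X = rv (l0 ++ B ++ lt) ∧
      (A, B) ∈ Nc e (H - d) H ∧ rfa l0 ∈ Hl e ∧ lt ∈ Hl d ∧
      ∀ k : ℤ, cocc (A ++ X) k + (if k = 0 then 2 else 0) + (if k = H then 2 else 0) =
        occ A k + occ B k + occ l0 k + occ lt (k - H) := by
  have heA := hA.2.1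
  have hAne : A ≠ [] := MG.ne_nil_of_Tp hH heA
  have hXne : X ≠ [] := by
    rintro rfl
    have := hS.1
    rw [List.append_nil] at this
    rw [this, l_zero] at heA
    omega
  have hmem : ∀ v ∈ vt 0 A, v ∈ vs 0 (A ++ X) := by
    intro v hv
    rw [vs_append, List.mem_append]
    rcases MG.mem_vt_iff.1 hv with hv | rfl
    · exact Or.inl hv
    · exact Or.inr (head_mem _ hXne)
  obtain ⟨R, rfl⟩ : ∃ R, X = rv R := ⟨rv X, (rv_rv X).symm⟩
  have heR : ep 0 R = ep 0 A := by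
    have h1 := hS.1
    have h2 := ep_rv 0 R
    rw [ep_append, ep_eq] at h1
    rw [ep_eq] at h2
    have h3 : ep 0 (rv R) + ep 0 R = ep 0 (rv R) + ep 0 A := by rw [h1, h2]
    exact add_left_cancel h3
  have hend : ep (ep 0 A) (rv R) = 0 := by
    rw [← ep_append]
    exact hS.1
  have hrev : vs (ep 0 A) (rv R) ++ [0] = (vt 0 R).reverse := by
    have h1 := MG.vt_rv0 R
    rw [heR] at h1
    unfold vt at h1 ⊢
    rw [hend] at h1
    exact h1
  have hnd : SAWs R := by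
    have h1 : (vt 0 R).reverse.Nodup := by
      rw [← hrev]
      have h2 := hS.2
      rw [vs_append] at h2
      rw [List.nodup_append] at h2 ⊢
      refine ⟨h2.2.1, List.nodup_singleton _, ?_⟩
      intro a ha b hb
      rw [List.mem_singleton] at hb
      rw [hb]
      exact fun h => h2.2.2 0 (head_mem _ hAne) a ha h.symm
    exact List.nodup_reverse.1 h1
  have hlR : ∀ v ∈ vt 0 R, 0 ≤ lev v ∧ lev v ≤ H := by
    intro v hv
    rw [← List.mem_reverse, ← hrev, List.mem_append, List.mem_singleton] at hv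
    rcases hv with hv | rfl
    · exact hl v (by rw [vs_append]; exact List.mem_append_right _ hv)
    · rw [l_zero]
      exact ⟨le_rfl, by positivity⟩
  have hcount : ∀ k : ℤ, cocc (A ++ rv R) k + (if (0 : ℤ) = k then 1 else 0) +
      (if (H : ℤ) = k then 1 else 0) = occ A k + occ R k := by
    intro k
    have h1 : cocc (A ++ rv R) k = cnt (vs 0 A) k + cnt (vs (ep 0 A) (rv R)) k := by
      unfold cocc
      rw [vs_append, cnt_append]
    have h2 := occ_eq_vs A k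
    rw [heA] at h2
    have h3 : occ R k = cnt (vs (ep 0 A) (rv R)) k + (if (0 : ℤ) = k then 1 else 0) := by
      have h4 : occ R k = cnt (vt 0 R).reverse k :=
        SapR.H58.cnt_perm (List.reverse_perm _).symm k
      rw [h4, ← hrev, cnt_append, cnt_cons, cnt_nil, add_zero, l_zero]
    omega
  -- the last visit of the level 0
  obtain ⟨l0, Y, rfl, h1, h2, h3⟩ := MG.last_visit (w := R) (h := 0)
    ⟨0, mem_vt_self _ _, l_zero⟩ (by rw [heR, heA]; exact_mod_cast hH)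
  have hY : lev (ep 0 Y) = H := by
    have := MG.lev_ep_append l0 Y
    rw [heR, heA, h1] at this
    omega
  obtain ⟨B, lt, rfl, h4, h5⟩ := MG.first_visit (w := Y) (h := H) (by positivity)
    ⟨ep 0 Y, ep_mem_vt _ _, hY.ge⟩
  have hBne : B ≠ [] := MG.ne_nil_of_Tp hH h4
  have hB : B ∈ Bri H := by
    refine ⟨MG.SAWs_left (MG.SAWs_right hnd), h4, fun p hp => ⟨?_, ?_⟩⟩
    · apply h2
      rw [MG.vs_tail_append _ hBne]
      exact List.mem_append_left _ hp
    · exact h5 p (List.mem_of_mem_tail hp)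
  have hel : lev (ep 0 lt) = 0 := by
    rw [MG.lev_ep_append, h4] at hY
    omega
  have hlt : ∀ p ∈ vt 0 lt, lev p ≤ 0 := by
    intro p hp
    have h6 := (hlR _ (MG.mem_vt_append_right l0 (MG.mem_vt_append_right B hp))).2
    rw [l_add, l_add, h1, h4] at h6
    omega
  have hdlt : dip lt < H := by
    obtain ⟨p, hp, hpd⟩ := MG.dip_mem lt
    rcases MG.mem_vt_iff.1 hp with hp | rfl
    · have h6 := h2 (p + ep 0 B) (by
        rw [MG.vs_tail_append _ hBne]
        exact List.mem_append_right _ (List.mem_map.2 ⟨p, hp, rfl⟩))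
      rw [l_add, h4] at h6
      omega
    · omega
  have hl0 : ∀ p ∈ vt 0 l0, 0 ≤ lev p ∧ lev p ≤ H := fun p hp =>
    hlR p (MG.mem_vt_append_left _ hp)
  have hrl : ∀ p ∈ vt 0 (rfa l0), ∃ v ∈ vt 0 l0, lev p = -lev v := by
    intro p hp
    rw [MG.vt_rfa0, List.mem_map] at hp
    obtain ⟨v, hv, rfl⟩ := hp
    exact ⟨v, hv, by unfold lev; ring⟩
  have hele : dip (rfa l0) ≤ H := by
    obtain ⟨p, hp, hpd⟩ := MG.dip_mem (rfa l0)
    obtain ⟨v, hv, hpv⟩ := hrl p hp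
    have := (hl0 v hv).2
    omega
  have hocc0 : ∀ k : ℤ, (dip (rfa l0) : ℤ) < k → occ l0 k = 0 := by
    intro k hk
    rw [occ_eq_zero]
    rintro p hp rfl
    have h6 : ((-p.2, -p.1) : ℤ × ℤ) ∈ vt 0 (rfa l0) := by
      rw [MG.vt_rfa0]
      exact List.mem_map.2 ⟨p, hp, rfl⟩
    have h7 := MG.dip_le h6
    unfold lev at h7 hk
    simp only at h7
    omega
  have hocct : ∀ k : ℤ, k < -(dip lt : ℤ) → occ lt k = 0 := by
    intro k hk
    rw [occ_eq_zero]
    rintro p hp rfl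
    have h7 := MG.dip_le hp
    omega
  have hid : ∀ k : ℤ, cocc (A ++ rv (l0 ++ (B ++ lt))) k + (if k = 0 then 2 else 0) +
      (if k = H then 2 else 0) = occ A k + occ B k + occ l0 k + occ lt (k - H) := by
    intro k
    have h6 := hcount k
    have h7 := occ_append' l0 (B ++ lt) k
    rw [h1, sub_zero] at h7
    have h8 := occ_append' B lt k
    rw [h4] at h8
    have e1 : (if k = 0 then 2 else 0) = 2 * (if (0 : ℤ) = k then 1 else 0) := by
      split_ifs <;> omega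
    have e2 : (if k = (H : ℤ) then 2 else 0) = 2 * (if (H : ℤ) = k then 1 else 0) := by
      split_ifs <;> omega
    rw [e1, e2]
    omega
  have hpos : ∀ k : ℤ, 0 ≤ k → k ≤ H → 0 < cnt (vs 0 (A ++ rv (l0 ++ (B ++ lt)))) k := by
    intro k hk hk'
    obtain ⟨v, hv, hvk⟩ := FL.H27.ivt k A 0 (by rw [l_zero]; exact hk) (by rw [heA]; exact hk')
    exact FL.H27.cnt_pos_of_mem (hmem v hv) _ hvk
  refine ⟨dip (rfa l0), dip lt, B, l0, lt, hele, hdlt, by rw [List.append_assoc],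
    ⟨⟨hA, hB⟩, ?_⟩, ⟨MG.SAWs_rfa (MG.SAWs_left hnd), by rw [ep_rfa, h1, neg_zero], ?_, rfl⟩,
    ⟨MG.SAWs_right (MG.SAWs_right hnd), hel, hlt, rfl⟩, hid⟩
  · rintro k hk hk' ⟨h6, h7⟩
    have hk2 : k < (H : ℤ) - (dip lt : ℤ) := by omega
    refine hcut k ⟨?_, hpos _ (by omega) (by omega), hpos _ (by omega) (by omega)⟩
    have h8 := hid k
    rw [if_neg (by omega), if_neg (by omega), hocc0 k hk, hocct (k - H) (by omega)] at h8
    have h9 : occ A k = 1 := h6
    have h10 : occ B k = 1 := h7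
    rw [h9, h10] at h8
    exact h8
  · intro p hp
    obtain ⟨v, hv, hpv⟩ := hrl p hp
    have := (hl0 v hv).1
    omega

end Pool.Agent.OC.POLYR

namespace Pool.Agent.OC

open Finset Pool.Agent.Lib27 Pool.Agent.SapR Pool.Agent.OC.POLYR
open Pool.Agent.MG (Bri Brp Irr Nc Fp Fpp Bad SB CC SW dip cc chi rfa)

/-- POLYR -/
theorem polyr_thm : POLYR_Stmt := by
  classical
  intro n w hn hw
  unfold FL.NoCut at hw
  rw [Finset.mem_filter, mem_W] at hw
  obtain ⟨⟨hlen, hS⟩, hcut⟩ := hw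
  have hwne : w ≠ [] := by
    rintro rfl
    simp at hlen
    omega
  have hne : (vs 0 w).toFinset.Nonempty := ⟨0, List.mem_toFinset.2 (head_mem 0 hwne)⟩
  obtain ⟨q0, hq0, hmin⟩ := Finset.exists_min_image (vs 0 w).toFinset lev hne
  obtain ⟨p0, hp0, hmax⟩ := Finset.exists_max_image (vs 0 w).toFinset lev hne
  rw [List.mem_toFinset] at hq0 hp0
  have hmin' : ∀ v ∈ vs 0 w, lev q0 ≤ lev v := fun v hv => hmin v (List.mem_toFinset.2 hv)
  have hmax' : ∀ v ∈ vs 0 w, lev v ≤ lev p0 := fun v hv => hmax v (List.mem_toFinset.2 hv)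
  obtain ⟨H, hHe⟩ : ∃ H : ℕ, (H : ℤ) = lev p0 - lev q0 := by
    have := hmin' p0 hp0
    exact ⟨(lev p0 - lev q0).toNat, by omega⟩
  have hH : 1 ≤ H := by
    cases hw' : w with
    | nil => exact absurd hw' hwne
    | cons c s =>
      cases s with
      | nil => rw [hw'] at hlen; simp at hlen; omega
      | cons c' s' =>
        have h1 : (0 : ℤ × ℤ) ∈ vs 0 w := by rw [hw']; simp
        have h2 : (0 + dv c : ℤ × ℤ) ∈ vs 0 w := by rw [hw']; simp
        have h3 := hmin' _ h1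
        have h4 := hmin' _ h2
        have h6 := hmax' _ h1
        have h7 := hmax' _ h2
        rw [l_add, l_zero] at h4 h7
        rw [l_zero] at h3 h6
        have h5 := FL.H27.lev_dv_ne c
        omega
  obtain ⟨l₁, l₂, h12, hq, hl₂⟩ := FL.H27.split_at' w 0 q0 hq0
  subst h12
  -- the word `u = l₂ ++ l₁` starts on the lowest level
  have hSu : SAPw (l₂ ++ l₁) := SAPw_rotate _ _ hS
  have hlu : ∀ v ∈ vs 0 (l₂ ++ l₁), 0 ≤ lev v ∧ lev v ≤ H := by
    intro v hv
    have h1 := (mem_rot l₁ l₂ hS.1 v).1 hv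
    rw [hq] at h1
    have h2 := hmin' _ h1
    have h3 := hmax' _ h1
    rw [l_add] at h2 h3
    omega
  have hexu : ∃ v ∈ vs 0 (l₂ ++ l₁), lev v = H := by
    refine ⟨p0 - q0, (mem_rot l₁ l₂ hS.1 _).2 (by rw [hq, sub_add_cancel]; exact hp0), ?_⟩
    have : lev (p0 - q0) + lev q0 = lev p0 := by rw [← l_add, sub_add_cancel]
    omega
  obtain ⟨a, A, Q, hu, hA, ha, hQ⟩ := step1 hH hSu hexu
  -- the word `w' = A ++ Q ++ a`
  have hSu' : SAPw (a ++ (A ++ Q)) := by rw [← hu]; exact hSu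
  have hSw : SAPw (A ++ Q ++ a) := SAPw_rotate _ _ hSu'
  have hocc : ∀ k : ℤ, cocc (A ++ Q ++ a) k = cocc (l₁ ++ l₂) (k + lev q0) := by
    intro k
    rw [cocc_rot a (A ++ Q) hSu'.1, ha, add_zero, ← hu, cocc_rot l₁ l₂ hS.1, hq]
  have hlw : ∀ v ∈ vs 0 (A ++ (Q ++ a)), 0 ≤ lev v ∧ lev v ≤ H := by
    intro v hv
    rw [← List.append_assoc] at hv
    have h1 := (mem_rot a (A ++ Q) hSu'.1 v).1 hv
    rw [← hu] at h1
    have h2 := hlu _ h1
    rw [l_add, ha, add_zero] at h2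
    exact h2
  have hcw : ∀ k, ¬ Cut (vs 0 (A ++ (Q ++ a))) k := by
    rintro k ⟨h1, h2, h3⟩
    have e1 := hocc k
    have e2 := hocc (k - 1)
    have e3 := hocc (k + 1)
    unfold cocc at e1 e2 e3
    rw [List.append_assoc] at e1 e2 e3
    rw [e1] at h1
    rw [e2] at h2
    rw [e3] at h3
    apply hcut (k + lev q0)
    refine ⟨h1, ?_, ?_⟩
    · rw [show k + lev q0 - 1 = k - 1 + lev q0 by ring]; exact h2
    · rw [show k + lev q0 + 1 = k + 1 + lev q0 by ring]; exact h3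
  have hSw' : SAPw (A ++ (Q ++ a)) := by rw [← List.append_assoc]; exact hSw
  obtain ⟨e, d, B, l0, lt, he, hd, hX, hNc, hl0, hlt, hid⟩ := step2 hH hA hSw' hlw hcw
  have hrot : (l₁ ++ l₂).rotate ((l₁.length + a.length) % (2 * n)) = A ++ (Q ++ a) := by
    rw [← hlen, List.rotate_mod, ← List.rotate_rotate, List.rotate_append_length_eq, hu,
      List.rotate_append_length_eq, List.append_assoc]
  refine ⟨(l₁.length + a.length) % (2 * n), H, e, d, A, B, l0, lt, Nat.mod_lt _ (by omega), hH, he,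
    hd, ?_, hNc, hl0, hlt, ⟨lev q0, ?_⟩, ?_⟩
  · rw [hrot, hX]
  · intro k
    rw [hrot, ← List.append_assoc]
    exact hocc k
  · intro k
    rw [hrot]
    exact hid k

end Pool.Agent.OC
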