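import Pool.Agent.OC.Stmts2
import Pool.Agent.OC.Lib

/-!
# Convex occupation energies (MP_f6626d_co): module POW (power energies are an example)
-/

set_option autoImplicit false

namespace Pool.Agent.OC

open Finset Pool.Agent.Lib27 Pool.Agent.SapR Pool.Agent.AreaLaw

namespace POW

/-- the level of a vertex is at most the number of steps -/
theorem abs_pos_le (n : ℕ) (s : Fin (2 * n) → Fin 4) (k : ℕ) :
    |(pos n s k).1 + (pos n s k).2| ≤ ((2 * n : ℕ) : ℤ) := by
  have h1 : ∀ i : Fin (2 * n), |(step (s i)).1 + (step (s i)).2| ≤ 1 := by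
    intro i
    generalize s i = a
    fin_cases a <;> simp [step]
  have h2 : (pos n s k).1 + (pos n s k).2 =
      ∑ i ∈ Finset.univ.filter (fun i : Fin (2 * n) => i.val < k),
        ((step (s i)).1 + (step (s i)).2) := by
    unfold pos
    rw [Prod.fst_sum, Prod.snd_sum, ← sum_add_distrib]
  rw [h2]
  refine (abs_sum_le_sum_abs _ _).trans ?_
  refine (sum_le_sum fun i _ => h1 i).trans ?_
  rw [sum_const, nsmul_eq_mul, mul_one]
  have h3 := card_le_univ (Finset.univ.filter (fun i : Fin (2 * n) => i.val < k))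
  rw [Fintype.card_fin] at h3
  exact_mod_cast h3

/-- the total number of vertices -/
theorem sum_diag (n : ℕ) (s : Fin (2 * n) → Fin 4) :
    ∑ h ∈ Finset.Icc (-((2 * n : ℕ) : ℤ)) ((2 * n : ℕ) : ℤ), diag n s h = 2 * n := by
  have h1 := card_eq_sum_card_fiberwise (s := Finset.range (2 * n))
    (t := Finset.Icc (-((2 * n : ℕ) : ℤ)) ((2 * n : ℕ) : ℤ))
    (f := fun k => (pos n s k).1 + (pos n s k).2) (fun k _ => by
      have := abs_pos_le n s k
      rw [abs_le] at this
      exact Finset.mem_coe.2 (Finset.mem_Icc.2 this))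
  rw [card_range] at h1
  exact h1.symm

/-- the exponent -/
noncomputable def ff (p : ℝ) (v : ℕ) : ℝ := (v : ℝ) ^ p - 2 ^ (p - 1) * v

theorem bPow_eq (beta p : ℝ) (v : ℕ) : bPow beta p v = Real.exp (-(beta * ff p v)) := rfl

theorem ff_zero {p : ℝ} (hp : 1 < p) : ff p 0 = 0 := by
  unfold ff
  rw [Nat.cast_zero, Real.zero_rpow (by linarith), mul_zero, sub_zero]

theorem ff_two (p : ℝ) : ff p 2 = 0 := by
  unfold ff
  have h : (2 : ℝ) ^ p = 2 ^ (p - 1) * 2 := by
    rw [Real.rpow_sub_one (by norm_num)]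
    field_simp
  push_cast
  rw [h, sub_self]

theorem rpow_eq {p x : ℝ} (hx : 0 < x) : x ^ p = x ^ (p - 1) * x := by
  rw [Real.rpow_sub_one hx.ne']
  field_simp

theorem ff_anti {p : ℝ} (hp : 1 < p) {v : ℕ} (hv : 2 ≤ v) : ff p v ≤ ff p (v + 1) := by
  unfold ff
  have hv' : (2 : ℝ) ≤ v := by exact_mod_cast hv
  rw [rpow_eq (p := p) (show (0 : ℝ) < v by linarith),
    rpow_eq (p := p) (show (0 : ℝ) < ((v + 1 : ℕ) : ℝ) by positivity)]
  push_cast
  have h1 : (v : ℝ) ^ (p - 1) ≤ ((v : ℝ) + 1) ^ (p - 1) :=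
    Real.rpow_le_rpow (by linarith) (by linarith) (by linarith)
  have h2 : (2 : ℝ) ^ (p - 1) ≤ (v : ℝ) ^ (p - 1) :=
    Real.rpow_le_rpow (by norm_num) hv' (by linarith)
  nlinarith [mul_le_mul_of_nonneg_right h1 (show (0 : ℝ) ≤ (v : ℝ) + 1 by linarith)]

theorem ff_conv {p : ℝ} (hp : 1 < p) (v : ℕ) : 2 * ff p (v + 1) ≤ ff p v + ff p (v + 2) := by
  unfold ff
  have h1 := (convexOn_rpow hp.le).2 (x := (v : ℝ)) (y := (v : ℝ) + 2)
    (show (v : ℝ) ∈ Set.Ici 0 from Set.mem_Ici.2 (by positivity))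
    (show (v : ℝ) + 2 ∈ Set.Ici 0 from Set.mem_Ici.2 (by positivity))
    (show (0 : ℝ) ≤ 1 / 2 by norm_num) (show (0 : ℝ) ≤ 1 / 2 by norm_num) (by norm_num)
  simp only [smul_eq_mul] at h1
  rw [show 1 / 2 * (v : ℝ) + 1 / 2 * ((v : ℝ) + 2) = (v : ℝ) + 1 by ring] at h1
  push_cast
  linarith

theorem occWeight {beta p : ℝ} (hb : 0 < beta) (hp : 1 < p) : OccWeight (bPow beta p) where
  zero := by rw [bPow_eq, ff_zero hp, mul_zero, neg_zero, Real.exp_zero]
  one := Real.exp_pos _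
  two := by rw [bPow_eq, ff_two, mul_zero, neg_zero, Real.exp_zero]
  nonneg v := (Real.exp_pos _).le
  anti v hv := by
    rw [bPow_eq, bPow_eq]
    exact Real.exp_le_exp.2 (neg_le_neg (mul_le_mul_of_nonneg_left (ff_anti hp hv) hb.le))
  lc v _ := by
    rw [bPow_eq, bPow_eq, bPow_eq, ← Real.exp_add, ← Real.exp_nat_mul]
    refine Real.exp_le_exp.2 ?_
    have h1 := mul_le_mul_of_nonneg_left (ff_conv hp v) hb.le
    push_cast
    linarith

theorem three_lt {beta p : ℝ} (hb : 0 < beta) (hp : 1 < p) : bPow beta p 3 < 1 := by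
  rw [bPow_eq, Real.exp_lt_one_iff, neg_lt_zero]
  refine mul_pos hb ?_
  unfold ff
  rw [rpow_eq (p := p) (show (0 : ℝ) < ((3 : ℕ) : ℝ) by norm_num)]
  push_cast
  have h1 : (2 : ℝ) ^ (p - 1) < 3 ^ (p - 1) :=
    Real.rpow_lt_rpow (by norm_num) (by norm_num) (by linarith)
  linarith

/-- the two weights are proportional -/
theorem occW_eq (beta p : ℝ) (n : ℕ) (s : Fin (2 * n) → Fin 4) :
    occW (bPow beta p) n s =
      Real.exp (beta * (2 ^ (p - 1) * (2 * n))) * Real.exp (-(beta * powE p n s)) := by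
  unfold occW powE
  simp_rw [bPow_eq]
  rw [← Real.exp_sum, ← Real.exp_add]
  congr 1
  have h1 : ∑ h ∈ Finset.Icc (-((2 * n : ℕ) : ℤ)) ((2 * n : ℕ) : ℤ), ((diag n s h : ℕ) : ℝ) =
      2 * n := by
    rw [← Nat.cast_sum, sum_diag]
    push_cast
    ring
  unfold ff
  rw [sum_neg_distrib, ← mul_sum, sum_sub_distrib, ← mul_sum, h1]
  ring

end POW

theorem pow_thm : POW_Stmt := by
  intro beta p hb hp
  refine ⟨⟨POW.occWeight hb hp, 3, by norm_num, POW.three_lt hb hp⟩, ?_⟩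
  intro n x _
  have hK : 0 < Real.exp (beta * (2 ^ (p - 1) * (2 * n))) := Real.exp_pos _
  have hZ : occZ (bPow beta p) n = Real.exp (beta * (2 ^ (p - 1) * (2 * n))) * powZ beta p n := by
    unfold occZ powZ
    rw [mul_sum]
    exact sum_congr rfl fun s _ => POW.occW_eq beta p n s
  have hA : ∑ t ∈ SAP n, occW (bPow beta p) n t * area n t =
      Real.exp (beta * (2 ^ (p - 1) * (2 * n))) *
        ∑ t ∈ SAP n, Real.exp (-(beta * powE p n t)) * area n t := by
    rw [mul_sum]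
    exact sum_congr rfl fun s _ => by rw [POW.occW_eq, mul_assoc]
  unfold powCdf occCdf
  rw [hZ, hA]
  have hF : ∀ s : Fin (2 * n) → Fin 4,
      (area n s * powZ beta p n ≤
        x * ∑ t ∈ SAP n, Real.exp (-(beta * powE p n t)) * area n t) ↔
      (area n s * (Real.exp (beta * (2 ^ (p - 1) * (2 * n))) * powZ beta p n) ≤
        x * (Real.exp (beta * (2 ^ (p - 1) * (2 * n))) *
          ∑ t ∈ SAP n, Real.exp (-(beta * powE p n t)) * area n t)) := by
    intro s
    rw [mul_left_comm (area n s), mul_left_comm x]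
    exact (mul_le_mul_iff_right₀ hK).symm
  have hS : ∀ F : Finset (Fin (2 * n) → Fin 4), ∑ s ∈ F, occW (bPow beta p) n s =
      Real.exp (beta * (2 ^ (p - 1) * (2 * n))) * ∑ s ∈ F, Real.exp (-(beta * powE p n s)) := by
    intro F
    rw [mul_sum]
    exact sum_congr rfl fun s _ => POW.occW_eq beta p n s
  rw [hS, mul_div_mul_left _ _ hK.ne']
  congr 1
  refine sum_congr ?_ fun s _ => rfl
  ext s
  rw [mem_filter, mem_filter, hF s]

end Pool.Agent.OC
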