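import Pool.Agent.OC.Stmts
import Pool.Agent.OC.Lib

/-!
# Convex occupation energies (MP_f6626d_co): lower renewal inequality
-/

set_option autoImplicit false

namespace Pool.Agent.OC

open Finset Pool.Agent.Lib27 Pool.Agent.SapR
open Pool.Agent.MG (Bri Brp Irr Nc Fp Fpp Bad SB CC SW dip cc chi rfa)
open scoped NNReal ENNReal

namespace RENL

/-- pairs of bridges of height `M` whose last cut below and first cut above are prescribed -/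
def S (M : ℕ) (i : ℕ × ℕ) : Set (Wd × Wd) :=
  {p | p ∈ Brp M ∧ CC p.1 p.2 i.1 ∧ CC p.1 p.2 ((i.1 + i.2 : ℕ) : ℤ) ∧
    ∀ k : ℤ, (i.1 : ℤ) < k → k < ((i.1 + i.2 : ℕ) : ℤ) → ¬ CC p.1 p.2 k}

/-- counting on one component -/
theorem key {i l M : ℕ} (h3 : i + l ≤ M) (u v w : Wd) (hu : u ∈ Bri i) (hv : v ∈ Bri l)
    (hw : w ∈ Bri (M - (i + l))) : (u ++ v ++ w) ∈ Bri M ∧ cnt (vt 0 (u ++ v ++ w)) i = 1 ∧
    cnt (vt 0 (u ++ v ++ w)) ((i + l : ℕ) : ℤ) = 1 ∧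
    ∀ k : ℤ, (i : ℤ) < k → k < ((i + l : ℕ) : ℤ) →
      cnt (vt 0 (u ++ v ++ w)) k = cnt (vt 0 v) (k - i) := by
  have huv : u ++ v ∈ Bri (i + l) := MG.Bri_append hu hv
  have huvw : u ++ v ++ w ∈ Bri M := by
    have := MG.Bri_append huv hw
    rwa [Nat.add_sub_cancel' h3] at this
  rcases Nat.eq_zero_or_pos l with hl | hl
  · subst hl
    have hv0 : v = [] := by
      rw [MG.Bri_zero] at hv
      exact hv
    subst hv0
    have e1 : cnt (vt 0 (u ++ [] ++ w)) (i : ℤ) = 1 := by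
      have := MG.cnt_above w (MG.Bri_sub_Fp _ huv) (k := (i : ℤ)) (by simp)
      rw [this]
      simp only [Nat.add_zero, sub_self]
      exact MG.cnt_start hw
    refine ⟨huvw, e1, ?_, ?_⟩
    · simpa using e1
    · intro k hk hk'
      simp only [Nat.add_zero] at hk'
      omega
  have hc : ∀ k : ℤ, k < ((i + l : ℕ) : ℤ) →
      cnt (vt 0 (u ++ v ++ w)) k = cnt (vt 0 (u ++ v)) k := by
    intro k hk
    refine MG.cnt_below (MG.Bri_sub_Fp _ huv) hk fun p hp => ?_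
    have := (MG.Bri_lev hw hp).1
    omega
  have hd : ∀ k : ℤ, (i : ℤ) ≤ k → cnt (vt 0 (u ++ v)) k = cnt (vt 0 v) (k - i) := fun k hk =>
    MG.cnt_above v (MG.Bri_sub_Fp _ hu) hk
  refine ⟨huvw, ?_, ?_, ?_⟩
  · rw [hc i (by push_cast; omega), hd i le_rfl, sub_self, MG.cnt_start hv]
  · rw [MG.cnt_above w (MG.Bri_sub_Fp _ huv) le_rfl, sub_self, MG.cnt_start hw]
  · intro k hk hk'
    rw [hc k hk', hd k hk.le]

/-- one term of the sum -/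
theorem term {b : ℕ → ℝ≥0} (hb : IsW b) (z : ℝ≥0∞) {M i l : ℕ} (h3 : i + l ≤ M) :
    Y b z i * ww b z l * Y b z (M - (i + l)) ≤ gs (Wp b z) (S M (i, l)) := by
  unfold Y ww
  refine gs_concat3 (fun a c d : Wd × Wd => (a.1 ++ c.1 ++ d.1, a.2 ++ c.2 ++ d.2)) ?_ ?_ ?_
  · rintro ⟨a1, a2⟩ ha ⟨b1, b2⟩ hb' ⟨c1, c2⟩ hc
    obtain ⟨m1, m2, m3, m4⟩ := key h3 a1 b1 c1 ha.1 hb'.1.1 hc.1
    obtain ⟨n1, n2, n3, n4⟩ := key h3 a2 b2 c2 ha.2 hb'.1.2 hc.2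
    refine ⟨⟨m1, n1⟩, ⟨m2, n2⟩, ⟨m3, n3⟩, ?_⟩
    intro k hk hk' hcc
    simp only at hk hk'
    apply hb'.2 (k - i) (by omega) (by push_cast at hk'; omega)
    refine ⟨?_, ?_⟩
    · rw [← m4 k hk hk']; exact hcc.1
    · rw [← n4 k hk hk']; exact hcc.2
  · rintro ⟨a1, a2⟩ ha ⟨b1, b2⟩ hb' ⟨c1, c2⟩ hc ⟨a1', a2'⟩ ha' ⟨b1', b2'⟩ hb'' ⟨c1', c2'⟩ hc' heq
    have e1 := congrArg Prod.fst heq
    have e2 := congrArg Prod.snd heq
    simp only [List.append_assoc] at e1 e2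
    obtain ⟨p1, p2⟩ := MG.Fp_cancel' (MG.Bri_sub_Fp _ ha.1) (MG.Bri_sub_Fp _ ha'.1) e1
    obtain ⟨p3, p4⟩ := MG.Fp_cancel' (MG.Bri_sub_Fp _ hb'.1.1) (MG.Bri_sub_Fp _ hb''.1.1) p2
    obtain ⟨q1, q2⟩ := MG.Fp_cancel' (MG.Bri_sub_Fp _ ha.2) (MG.Bri_sub_Fp _ ha'.2) e2
    obtain ⟨q3, q4⟩ := MG.Fp_cancel' (MG.Bri_sub_Fp _ hb'.1.2) (MG.Bri_sub_Fp _ hb''.1.2) q2
    exact ⟨Prod.ext p1 q1, Prod.ext p3 q3, Prod.ext p4 q4⟩
  · rintro ⟨a1, a2⟩ ha ⟨b1, b2⟩ hb' ⟨c1, c2⟩ hc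
    have h1 : ((a1 ++ b1, a2 ++ b2) : Wd × Wd) ∈ Brp (i + l) :=
      ⟨MG.Bri_append ha.1 hb'.1.1, MG.Bri_append ha.2 hb'.1.2⟩
    have e1 := Wp_append hb z ha hb'.1
    have e2 := Wp_append hb z h1 hc
    simp only at e1 e2 ⊢
    rw [e2, e1]

end RENL

/-- RENL -/
theorem renl_thm : RENL_Stmt := by
  intro b z hb t M s hs
  have h1 : ∀ i ∈ s, Y b z i.1 * ww b z i.2 * Y b z (M - (i.1 + i.2)) ≤
      gs (Wp b z) (RENL.S M i) := fun i hi => RENL.term hb z (hs i hi).2.2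
  refine (Finset.sum_le_sum h1).trans (sum_gs_le (Wp b z) s (RENL.S M) _ (fun i _ p hp => hp.1) ?_)
  rintro ⟨i, l⟩ hi ⟨i', l'⟩ hi' p hp hp'
  obtain ⟨h1, h2, h3⟩ := hs _ hi
  obtain ⟨h1', h2', h3'⟩ := hs _ hi'
  obtain ⟨-, c1, c2, c3⟩ := hp
  obtain ⟨-, c1', c2', c3'⟩ := hp'
  simp only at h1 h2 h3 h1' h2' h3' c1 c2 c3 c1' c2' c3'
  have e1 : i = i' := by
    rcases lt_trichotomy i i' with h | h | h
    · exact absurd c1' (c3 i' (by omega) (by push_cast; omega))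
    · exact h
    · exact absurd c1 (c3' i (by omega) (by push_cast; omega))
  subst e1
  have e2 : l = l' := by
    rcases lt_trichotomy l l' with h | h | h
    · exact absurd c2 (c3' _ (by push_cast; omega) (by push_cast; omega))
    · exact h
    · exact absurd c2' (c3 _ (by push_cast; omega) (by push_cast; omega))
  subst e2
  rfl

end Pool.Agent.OC
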