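import Pool.Agent.OC.Stmts
import Pool.Agent.OC.Lib
import Pool.Agent.Lib_helper74.MG.Cuts

/-!
# Convex occupation energies (MP_f6626d_co): RENU, the upper renewal inequality

`gs Wp (Nc A B L) ≤ ∑ Y_i ww_l Y_{L - i - l}`, by cutting at the last common cut `i ≤ A` and the
first common cut `i + l ≥ B`.
-/

set_option autoImplicit false

namespace Pool.Agent.OC

open Finset Pool.Agent.Lib27 Pool.Agent.SapR
open Pool.Agent.MG (Bri Brp Irr Nc Fp Fpp Bad SB CC SW dip cc chi rfa)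
open scoped NNReal ENNReal

namespace RenU

/-- words cut at two levels with one visit each -/
theorem key (i l L : ℕ) (hiL : i + l ≤ L) (w : Wd) (hw : w ∈ Bri L)
    (h2 : cnt (vt 0 w) i = 1) (h3 : cnt (vt 0 w) ((i + l : ℕ) : ℤ) = 1) :
    ∃ u v t, u ∈ Bri i ∧ v ∈ Bri l ∧ t ∈ Bri (L - (i + l)) ∧ w = u ++ v ++ t ∧
      ∀ k : ℤ, 0 < k → k < l → cnt (vt 0 v) k = cnt (vt 0 w) (k + i) := by
  obtain ⟨w', t, hw', ht, rfl⟩ := MG.Bri_cut hw hiL h3
  have h4 : ∀ k : ℤ, k < ((i + l : ℕ) : ℤ) → cnt (vt 0 (w' ++ t)) k = cnt (vt 0 w') k :=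
    fun k hk => MG.cnt_below (MG.Bri_sub_Fp _ hw') hk fun p hp => by
      have := (MG.Bri_lev ht hp).1
      omega
  have h5 : cnt (vt 0 w') i = 1 := by
    rcases Nat.eq_zero_or_pos l with rfl | hl
    · have := MG.cnt_end (MG.Bri_sub_Fp _ hw')
      simpa using this
    · rw [← h4 i (by push_cast; omega)]; exact h2
  obtain ⟨u, v, hu, hv, rfl⟩ := MG.Bri_cut hw' (by omega) h5
  rw [Nat.add_sub_cancel_left] at hv
  refine ⟨u, v, t, hu, hv, ht, rfl, ?_⟩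
  intro k hk hk'
  rw [h4 (k + i) (by push_cast; omega), MG.cnt_above v (MG.Bri_sub_Fp _ hu) (by omega),
    add_sub_cancel_right]

end RenU

open RenU in
/-- RENU -/
theorem renu_thm : RENU_Stmt := by
  classical
  intro b z hb A B L hAB hBL
  let S : ℕ × ℕ → Set (Wd × Wd) := fun i => {p | p ∈ Brp L ∧ CC p.1 p.2 i.1 ∧
    CC p.1 p.2 ((i.1 + i.2 : ℕ) : ℤ) ∧ ∀ k : ℤ, (i.1 : ℤ) < k → k < ((i.1 + i.2 : ℕ) : ℤ) →
      ¬ CC p.1 p.2 k}
  have h1 : gs (Wp b z) (Nc A B L) ≤ ∑ i ∈ (Finset.range (A + 1) ×ˢ Finset.range (L + 1)).filter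
      (fun i => B ≤ i.1 + i.2 ∧ i.1 + i.2 ≤ L), gs (Wp b z) (S i) := by
    apply gs_le_sum
    rintro ⟨a, a'⟩ ⟨hp, hno⟩
    have hz : CC a a' ((0 : ℕ) : ℤ) := ⟨MG.cnt_start hp.1, MG.cnt_start hp.2⟩
    have hL : CC a a' (L : ℤ) :=
      ⟨MG.cnt_end (MG.Bri_sub_Fp _ hp.1), MG.cnt_end (MG.Bri_sub_Fp _ hp.2)⟩
    set i := Nat.findGreatest (fun k => CC a a' (k : ℤ)) A with hi
    have hi1 : i ≤ A := Nat.findGreatest_le A
    have hi2 : CC a a' (i : ℤ) := Nat.findGreatest_spec (P := fun k => CC a a' (k : ℤ))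
      (Nat.zero_le A) hz
    have hi3 : ∀ k, i < k → k ≤ A → ¬ CC a a' (k : ℤ) := fun k hk hk' =>
      Nat.findGreatest_is_greatest (P := fun k => CC a a' (k : ℤ)) hk hk'
    have hex : ∃ j, B ≤ j ∧ CC a a' (j : ℤ) := ⟨L, hBL, hL⟩
    set j := Nat.find hex with hj
    have hj1 := (Nat.find_spec hex).1
    have hj2 : CC a a' (j : ℤ) := (Nat.find_spec hex).2
    have hj3 : j ≤ L := Nat.find_min' hex ⟨hBL, hL⟩
    have hj4 : ∀ k, B ≤ k → k < j → ¬ CC a a' (k : ℤ) := fun k hk hk' hcc =>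
      Nat.find_min hex hk' ⟨hk, hcc⟩
    have hj1' : B ≤ j := hj1
    have hij : i + (j - i) = j := by omega
    refine ⟨(i, j - i), ?_, ?_⟩
    · simp only [Finset.mem_filter, Finset.mem_product, Finset.mem_range]
      omega
    · refine ⟨hp, hi2, by simp only [hij]; exact hj2, ?_⟩
      simp only [hij]
      intro k hk hk'
      obtain ⟨m, rfl⟩ : ∃ m : ℕ, k = m := ⟨k.toNat, by omega⟩
      rcases Nat.lt_or_ge A m with hm | hm
      · rcases Nat.lt_or_ge m B with hm' | hm'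
        · exact hno m (by exact_mod_cast hm) (by exact_mod_cast hm')
        · exact hj4 m hm' (by exact_mod_cast hk')
      · exact hi3 m (by exact_mod_cast hk) hm
  refine h1.trans (Finset.sum_le_sum ?_)
  rintro ⟨i, l⟩ hi
  simp only [Finset.mem_filter, Finset.mem_product, Finset.mem_range] at hi
  unfold Y ww
  refine gs_split3 (fun a b c : Wd × Wd => (a.1 ++ b.1 ++ c.1, a.2 ++ b.2 ++ c.2)) ?_
  rintro ⟨a, a'⟩ ⟨hp, c1, c2, c3⟩
  simp only at c1 c2 c3 ⊢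
  obtain ⟨u, v, t, hu, hv, ht, rfl, hc⟩ := key i l L hi.2.2 a hp.1 c1.1 c2.1
  obtain ⟨u', v', t', hu', hv', ht', rfl, hc'⟩ := key i l L hi.2.2 a' hp.2 c1.2 c2.2
  refine ⟨(u, u'), (v, v'), (t, t'), ⟨hu, hu'⟩, ⟨⟨hv, hv'⟩, ?_⟩, ⟨ht, ht'⟩, rfl, ?_⟩
  · intro k hk hk' hcc
    apply c3 (k + i) (by omega) (by push_cast; omega)
    refine ⟨?_, ?_⟩
    · rw [← hc k hk hk']; exact hcc.1
    · rw [← hc' k hk hk']; exact hcc.2
  · have e1 := Wp_append hb z (p := (u, u')) (q := (v, v')) ⟨hu, hu'⟩ ⟨hv, hv'⟩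
    have e2 := Wp_append hb z (p := (u ++ v, u' ++ v')) (q := (t, t'))
      ⟨MG.Bri_append hu hv, MG.Bri_append hu' hv'⟩ ⟨ht, ht'⟩
    simp only at e1 e2
    rw [e2, e1]

end Pool.Agent.OC
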