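import Pool.Agent.OC.Stmts2

/-!
# REP: occupation weights are multiplicative (MP_f6626d_co, convex occupation energies)
-/

set_option autoImplicit false

namespace Pool.Agent.OC

open Finset Filter Topology MeasureTheory Pool.Agent.Lib27 Pool.Agent.SapR Pool.Agent.Gap
  Pool.Agent.AreaLaw
open scoped NNReal ENNReal

theorem rep_thm (h1 : REPA_Stmt) (h2 : REPB_Stmt) (h3 : REPC_Stmt) : REP_Stmt := by
  intro b hb
  obtain ⟨a1, a2, a3, a4⟩ := h1 b hb
  obtain ⟨b1, b2, b3⟩ := h2 b hb
  obtain ⟨c1, c2, c3, c4, c5, c6⟩ := h3 b hb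
  refine ⟨b1, ⟨fun p => wb (bN b) p, awO b, cwO b, fun p => ENNReal.toReal_nonneg, a1, c1, b2, b3,
    a2, a3, c2, c3, c4⟩, ?_⟩
  exact
    { cw := c5
      pw := fun r p _ => rfl
      aw := a4
      nc := fun n w hn hw => c6 n w hn (by
        classical
        unfold FL.NoCut at hw
        exact (Finset.mem_filter.1 hw).1) }

end Pool.Agent.OC
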