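import Pool.Agent.OC.Stmts2
import Pool.Agent.OC.Lib
import Pool.Agent.Lib_helper24.SapR.K2

/-!
# Convex occupation energies (MP_f6626d_co): module REPA, occupation weights of arches
-/

set_option autoImplicit false

namespace Pool.Agent.OC

open Finset Filter Topology MeasureTheory Pool.Agent.Lib27 Pool.Agent.SapR Pool.Agent.Gap
  Pool.Agent.AreaLaw
open scoped NNReal ENNReal

namespace REPA

/-! ### the normalized weight -/

theorem bN_coe {b : ℕ → ℝ} (hb : OccWeight b) {v : ℕ} (hv : 2 ≤ v) : ((bN b v : ℝ≥0) : ℝ) = b v := by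
  unfold bN
  split_ifs with h
  · have : v = 2 := by omega
    subst this
    rw [hb.two, NNReal.coe_one]
  · exact Real.coe_toNNReal _ (hb.nonneg v)

theorem bN_coe0 {b : ℕ → ℝ} (hb : OccWeight b) : ((bN b 0 : ℝ≥0) : ℝ) = b 0 := by
  unfold bN
  rw [if_pos (by norm_num), hb.zero, NNReal.coe_one]

theorem bN_isW {b : ℕ → ℝ} (hb : OccWeight b) : IsW (bN b) := by
  refine ⟨?_, ?_, ?_, ?_, ?_⟩
  · unfold bN
    rw [if_pos (by norm_num)]
  · unfold bN
    rw [if_pos (by norm_num)]
  · unfold bN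
    rw [if_pos (by norm_num)]
  · intro v hv
    rw [← NNReal.coe_le_coe, bN_coe hb hv, bN_coe hb (by omega)]
    exact hb.anti v hv
  · intro v hv
    rw [← NNReal.coe_le_coe, NNReal.coe_mul, NNReal.coe_pow, bN_coe hb hv,
      bN_coe hb (by omega), bN_coe hb (by omega)]
    exact hb.lc v hv

theorem BW_toReal {b : ℕ → ℝ≥0} (h : IsW b) {o : ℤ → ℕ} (s : Finset ℤ)
    (hs : ∀ k ∉ s, o k ≤ 2) : (BW b o).toReal = ∏ k ∈ s, ((b (o k) : ℝ≥0) : ℝ) := by
  rw [BW_eq h s hs, ENNReal.toReal_prod]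
  exact Finset.prod_congr rfl fun k _ => ENNReal.coe_toReal _

/-! ### arches -/

theorem occ_arch_neg {x : ℤ} {w : Wd} (hw : Arch x w) {k : ℤ} (hk : k < 0) : occ w k = 0 := by
  rw [occ_eq_zero]
  intro p hp he
  have := hw.lev_nonneg p hp
  omega

theorem occ_arch_zero {x : ℤ} {w : Wd} (hw : Arch x w) : occ w 0 = 2 := hw.cnt_vt_zero

theorem occ_gt {w : Wd} {k : ℤ} (hk : (w.length : ℤ) < k) : occ w k = 0 :=
  occ_far (by
    rw [abs_of_pos (by omega)]
    exact hk)

/-- the product may be taken over a longer interval -/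
theorem prod_long {b : ℕ → ℝ} (hb : OccWeight b) {x : ℤ} {w : Wd} (hw : Arch x w) {M : ℤ}
    (hM : (w.length : ℤ) ≤ M) :
    ∏ k ∈ Icc (0 : ℤ) M, b (occ w k) = ∏ k ∈ Icc (1 : ℤ) w.length, b (occ w k) := by
  symm
  refine Finset.prod_subset ?_ ?_
  · intro k hk
    rw [mem_Icc] at hk ⊢
    omega
  · intro k hk hk'
    rw [mem_Icc] at hk hk'
    rcases hk.1.eq_or_lt with h0 | h0
    · rw [← h0, occ_arch_zero hw, hb.two]
    · rw [occ_gt (by omega), hb.zero]

theorem prod_shift (f : ℤ → ℝ) (h L : ℤ) :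
    ∏ k ∈ Icc h L, f (k - h) = ∏ k ∈ Icc (0 : ℤ) (L - h), f k := by
  refine Finset.prod_nbij' (fun k => k - h) (fun k => k + h) ?_ ?_ ?_ ?_ ?_
  · intro k hk
    rw [mem_Icc] at hk ⊢
    omega
  · intro k hk
    rw [mem_Icc] at hk ⊢
    omega
  · intro k _
    omega
  · intro k _
    omega
  · intro k _
    rfl

theorem split_at (T : Wd) (p v : ℤ × ℤ) (hv : v ∈ vt p T) :
    ∃ A B : Wd, T = A ++ B ∧ ep p A = v := by
  induction T generalizing p with
  | nil =>
    rw [vt_nil, List.mem_singleton] at hv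
    exact ⟨[], [], rfl, by rw [ep_nil, hv]⟩
  | cons d T ih =>
    rw [vt_cons, List.mem_cons] at hv
    rcases hv with hv | hv
    · exact ⟨[], d :: T, rfl, by rw [ep_nil, hv]⟩
    · obtain ⟨A, B, h1, h2⟩ := ih (p + dv d) hv
      exact ⟨d :: A, B, by rw [h1, List.cons_append], by rw [ep_cons, h2]⟩

/-- an arch passes every level below its highest one at least twice -/
theorem two_le_occ {x : ℤ} {T : Wd} (hT : Arch x T) {v : ℤ × ℤ} (hv : v ∈ vt 0 T) {k : ℤ}
    (h1 : 0 ≤ k) (h2 : k < lev v) : 2 ≤ occ T k := by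
  obtain ⟨A, B, rfl, hA⟩ := split_at T 0 v hv
  rw [occ_append]
  have e1 : 0 < cnt (vs 0 A) k := by
    rw [cnt_pos]
    obtain ⟨u, hu, hk⟩ := exists_level A 0 k (by rw [lev_zero]; exact h1) (by rw [hA]; exact h2.le)
    refine ⟨u, ?_, hk⟩
    unfold vt at hu
    rw [List.mem_append, List.mem_singleton] at hu
    rcases hu with hu | hu
    · exact hu
    · rw [hu, hA] at hk
      omega
  have e2 : 0 < occ B (k - lev (ep 0 A)) := by
    rw [occ_pos]
    have h3 := hT.lev_ep
    rw [ep_append0, lev_add] at h3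
    refine exists_level' B 0 _ ?_ ?_
    · rw [hA, lev_zero]
      omega
    · rw [hA] at h3 ⊢
      omega
  omega

theorem exists_top (T : Wd) : ∃ v ∈ vt 0 T, ∀ u ∈ vt 0 T, lev u ≤ lev v := by
  obtain ⟨v, hv, h⟩ := Finset.exists_max_image (vt 0 T).toFinset lev
    ⟨_, List.mem_toFinset.2 (mem_vt_self 0 T)⟩
  exact ⟨v, List.mem_toFinset.1 hv, fun u hu => h u (List.mem_toFinset.2 hu)⟩

/-! ### the four parts -/

theorem part1 {b : ℕ → ℝ} (hb : OccWeight b) (T : Wd) : 0 ≤ awO b T :=
  div_nonneg (Finset.prod_nonneg fun _ _ => hb.nonneg _) hb.one.le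

theorem part2 {b : ℕ → ℝ} (hb : OccWeight b) : awO b [1, 2] = 1 := by
  have h1 : occ [1, 2] 1 = 1 := by decide
  have h2 : occ [1, 2] 2 = 0 := by decide
  have h3 : Icc (1 : ℤ) (([1, 2] : Wd).length : ℤ) = {1, 2} := by decide
  unfold awO
  rw [h3, Finset.prod_pair (by norm_num), h1, h2, hb.zero, mul_one]
  exact div_self hb.one.ne'

theorem part3 {b : ℕ → ℝ} (hb : OccWeight b) (r : ℕ) (x : ℤ) (N : ℕ) (p : Wd × Wd) (w : Wd)
    (hp : p ∈ allowed r x) (hw : w ∈ ArchSet r (x + jump p) N) :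
    awO b (p.1 ++ w ++ p.2) = wb (bN b) p * awO b w := by
  obtain ⟨U, D⟩ := p
  rw [mem_allowed] at hp
  rw [mem_ArchSet] at hw
  obtain ⟨hpc, -, -, hdisj⟩ := hp
  obtain ⟨-, harch, -⟩ := hw
  have hfp := ((mem_Pc r (U, D)).1 hpc).1
  have g : Glued x (x + jump (U, D)) U w D := ⟨hfp.1, harch, rfl, hdisj⟩
  simp only
  have hh : 0 < lev (ep 0 U) := g.sp.hpos
  have hU : lev (ep 0 U) ≤ U.length := by
    have := abs_lev_le (ep_mem_vt 0 U)
    rw [abs_of_pos hh] at this
    exact this
  set h := lev (ep 0 U) with hdef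
  have hlen : ((U ++ w ++ D).length : ℤ) = U.length + w.length + D.length := by
    rw [List.length_append, List.length_append]
    push_cast
    ring
  have e1 : Icc (1 : ℤ) ((U ++ w ++ D).length : ℤ) =
      Ioo (0 : ℤ) h ∪ Icc h ((U ++ w ++ D).length : ℤ) := by
    ext k
    rw [mem_union, mem_Icc, mem_Ioo, mem_Icc]
    omega
  have hd : Disjoint (Ioo (0 : ℤ) h) (Icc h ((U ++ w ++ D).length : ℤ)) := by
    rw [Finset.disjoint_left]
    intro k hk hk'
    rw [mem_Ioo] at hk
    rw [mem_Icc] at hk'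
    omega
  have hpo : ∀ k, pocc (U, D) k = cnt (vt 0 U) k + cnt (vt 0 D) (k - h) := fun k => rfl
  have e2 : ∏ k ∈ Ioo (0 : ℤ) h, b (occ (U ++ w ++ D) k) = wb (bN b) (U, D) := by
    unfold wb
    rw [BW_toReal (bN_isW hb) (Ioo (0 : ℤ) h)]
    · refine Finset.prod_congr rfl fun k hk => ?_
      rw [mem_Ioo] at hk
      have e3 : occ (U ++ w ++ D) k = pocc (U, D) k := g.cnt_lt k hk.2
      have e4 := g.cnt_U_pos k hk.1.le hk.2.le
      have e5 : 0 < cnt (vt 0 D) (k - h) := g.cnt_D_pos k hk.1.le hk.2.le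
      rw [e3, bN_coe hb]
      rw [hpo]
      omega
    · intro k hk
      rw [mem_Ioo, not_and_or, not_lt, not_lt] at hk
      rw [hpo]
      -- levels outside the open strip
      have hUv : ∀ v ∈ vt 0 U, 0 ≤ lev v ∧ lev v ≤ h := by
        intro v hv
        unfold vt at hv
        rw [List.mem_append, List.mem_singleton] at hv
        rcases hv with hv | rfl
        · have := g.sp.lev_U v hv
          exact ⟨this.1, this.2.le⟩
        · exact ⟨hh.le, le_rfl⟩
      have hDv : ∀ v ∈ vt 0 D, lev v ≤ 0 ∧ -h ≤ lev v := by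
        intro v hv
        unfold vt at hv
        rw [List.mem_append, List.mem_singleton] at hv
        rcases hv with hv | rfl
        · have := g.sp.lev_D v hv
          exact ⟨this.1, this.2.le⟩
        · rw [g.sp.2.1]
          exact ⟨by omega, le_rfl⟩
      have c1 : cnt (vt 0 U) k ≤ 1 := by
        rcases lt_or_ge k 0 with h0 | h0
        · rw [(cnt_eq_zero _ _).2 fun v hv he => by have := (hUv v hv).1; omega]
          omega
        rcases hk with hk | hk
        · have hk0 : k = 0 := le_antisymm hk h0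
          subst hk0
          rw [vt_head 0 U, cnt_cons, if_pos lev_zero]
          rw [(cnt_eq_zero _ _).2]
          intro v hv he
          rcases vt_tail_mem_cases U 0 v hv g.sp.U_ne with h1 | h1
          · have := (g.sp.2.2.2.2.1 v h1).1
            omega
          · rw [h1] at he
            omega
        · rw [vt, cnt_append, (cnt_eq_zero (vs 0 U) k).2 fun v hv he => by
            have := (g.sp.lev_U v hv).2
            omega, cnt_cons]
          split_ifs <;> simp [cnt]
      have c2 : cnt (vt 0 D) (k - h) ≤ 1 := by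
        rcases lt_or_ge h k with h0 | h0
        · rw [(cnt_eq_zero _ _).2 fun v hv he => by have := (hDv v hv).1; omega]
          omega
        rcases hk with hk | hk
        · rw [vt, cnt_append, (cnt_eq_zero (vs 0 D) _).2 fun v hv he => by
            have := (g.sp.lev_D v hv).2
            omega, cnt_cons]
          split_ifs <;> simp [cnt]
        · have hk0 : k - h = 0 := by omega
          rw [hk0, vt_head 0 D, cnt_cons, if_pos lev_zero]
          rw [(cnt_eq_zero _ _).2]
          intro v hv he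
          have := g.sp.lev_D_tail v hv
          omega
      omega
  have e3 : ∏ k ∈ Icc h ((U ++ w ++ D).length : ℤ), b (occ (U ++ w ++ D) k) =
      ∏ k ∈ Icc (1 : ℤ) w.length, b (occ w k) := by
    have e4 : ∏ k ∈ Icc h ((U ++ w ++ D).length : ℤ), b (occ (U ++ w ++ D) k) =
        ∏ k ∈ Icc h ((U ++ w ++ D).length : ℤ), b (occ w (k - h)) := by
      refine Finset.prod_congr rfl fun k hk => ?_
      rw [mem_Icc] at hk
      have : occ (U ++ w ++ D) k = occ w (k - h) := g.cnt_ge k hk.1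
      rw [this]
    rw [e4, prod_shift (fun k => b (occ w k))]
    refine prod_long hb harch ?_
    rw [hlen]
    omega
  unfold awO
  rw [e1, Finset.prod_union hd, e2, e3]
  ring

theorem part4 {b : ℕ → ℝ} (hb : OccWeight b) (r : ℕ) (x : ℤ) (N : ℕ) (T : Wd)
    (hT : T ∈ CapSet r x N) : awO b T ≤ max 1 (b 1)⁻¹ * wa (bN b) T := by
  rw [mem_CapSet] at hT
  obtain ⟨-, harch, -, -⟩ := hT
  obtain ⟨v, hv, hmax⟩ := exists_top T
  have hH1 : 1 ≤ lev v := by
    obtain ⟨u, hu, h1⟩ := harch.first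
    have := hmax u (by
      unfold vt
      exact List.mem_append_left _ (List.mem_of_mem_tail hu))
    omega
  have hHL : lev v ≤ T.length := by
    have := abs_lev_le hv
    rw [abs_of_pos (by omega)] at this
    exact this
  have hmem : lev v ∈ Icc (1 : ℤ) T.length := mem_Icc.2 ⟨hH1, hHL⟩
  have hw : wa (bN b) T = ∏ k ∈ Icc (1 : ℤ) T.length, ((bN b (occ T k) : ℝ≥0) : ℝ) := by
    unfold wa
    refine BW_toReal (bN_isW hb) _ ?_
    intro k hk
    rw [mem_Icc, not_and_or, not_le, not_le] at hk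
    rcases hk with hk | hk
    · rcases lt_or_ge k 0 with h0 | h0
      · rw [occ_arch_neg harch h0]
        omega
      · have : k = 0 := by omega
        rw [this, occ_arch_zero harch]
    · rw [occ_gt hk]
      omega
  have hrest : ∀ k ∈ (Icc (1 : ℤ) T.length).erase (lev v),
      b (occ T k) = ((bN b (occ T k) : ℝ≥0) : ℝ) := by
    intro k hk
    rw [mem_erase, mem_Icc] at hk
    rcases lt_or_gt_of_ne hk.1 with h0 | h0
    · rw [bN_coe hb (two_le_occ harch hv (by omega) h0)]
    · have : occ T k = 0 := by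
        rw [occ_eq_zero]
        intro u hu he
        have := hmax u hu
        omega
      rw [this, bN_coe0 hb]
  have hpos : 0 < occ T (lev v) := occ_pos.2 ⟨v, hv, rfl⟩
  unfold awO
  rw [hw, ← Finset.mul_prod_erase _ _ hmem, ← Finset.mul_prod_erase _ _ hmem,
    Finset.prod_congr rfl hrest]
  set P := ∏ k ∈ (Icc (1 : ℤ) T.length).erase (lev v), ((bN b (occ T k) : ℝ≥0) : ℝ) with hP
  have hP0 : 0 ≤ P := Finset.prod_nonneg fun _ _ => NNReal.coe_nonneg _
  have hb1 := hb.one
  have key : b (occ T (lev v)) / b 1 ≤ max 1 (b 1)⁻¹ * ((bN b (occ T (lev v)) : ℝ≥0) : ℝ) := by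
    rcases Nat.lt_or_ge (occ T (lev v)) 2 with h1 | h1
    · have : occ T (lev v) = 1 := by omega
      rw [this, div_self hb1.ne']
      have h2 : ((bN b 1 : ℝ≥0) : ℝ) = 1 := by
        rw [(bN_isW hb).b1, NNReal.coe_one]
      rw [h2, mul_one]
      exact le_max_left _ _
    · rw [bN_coe hb h1, div_eq_mul_inv, mul_comm]
      exact mul_le_mul_of_nonneg_right (le_max_right _ _) (hb.nonneg _)
  calc b (occ T (lev v)) * P / b 1 = b (occ T (lev v)) / b 1 * P := by ring
    _ ≤ max 1 (b 1)⁻¹ * ((bN b (occ T (lev v)) : ℝ≥0) : ℝ) * P :=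
        mul_le_mul_of_nonneg_right key hP0
    _ = _ := by ring

end REPA

/-- REPA : arches. -/
theorem repa_thm : REPA_Stmt := fun _ hb =>
  ⟨REPA.part1 hb, REPA.part2 hb, fun r x N p w _ hp hw => REPA.part3 hb r x N p w hp hw,
    fun r x N T _ hT => REPA.part4 hb r x N T hT⟩

end Pool.Agent.OC
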