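import Pool.Agent.OC.Stmts2
import Pool.Agent.OC.Lib
import Pool.Agent.Lib_helper66.SapR.K5

/-!
# Convex occupation energies (MP_f6626d_co): occupation weights of pieces (module REPB)
-/

set_option autoImplicit false

namespace Pool.Agent.OC

open Finset Pool.Agent.Lib27 Pool.Agent.SapR Pool.Agent.AreaLaw
open scoped NNReal ENNReal

namespace REPB

/-- the normalized weight from `2` on -/
theorem bN_eq {b : ℕ → ℝ} (h : OccWeight b) {v : ℕ} (hv : 2 ≤ v) : bN b v = (b v).toNNReal := by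
  unfold bN
  split_ifs with h1
  · have : v = 2 := by omega
    rw [this, h.two, Real.toNNReal_one]
  · rfl

theorem isW_bN {b : ℕ → ℝ} (h : OccWeight b) : IsW (bN b) where
  b0 := by unfold bN; exact if_pos (by omega)
  b1 := by unfold bN; exact if_pos (by omega)
  b2 := by unfold bN; exact if_pos (by omega)
  anti := by
    intro v hv
    rw [bN_eq h hv, bN_eq h (by omega)]
    exact Real.toNNReal_le_toNNReal (h.anti v hv)
  lc := by
    intro v hv
    rw [bN_eq h hv, bN_eq h (by omega), bN_eq h (by omega), ← Real.toNNReal_mul (h.nonneg v),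
      ← Real.toNNReal_pow (h.nonneg (v + 1))]
    exact Real.toNNReal_le_toNNReal (h.lc v hv)

theorem pocc_flip {p : Wd × Wd} (hS : StripPair p.1 p.2) (k : ℤ) :
    pocc (SapR.flip p) k = pocc p (ht p - k) := by
  unfold pocc SapR.flip ht
  simp only
  rw [H66.vt_rot2, H66.vt_rot2, neg_zero, H66.ep0_rot2, H66.cnt_map_neg, H66.cnt_map_neg,
    H66.lev_neg]
  have h2 := hS.2.1
  rw [show -(k - -lev (ep 0 p.2)) = lev (ep 0 p.1) - k by omega,
    show lev (ep 0 p.1) - k - lev (ep 0 p.1) = -k by ring]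
  exact add_comm _ _

theorem cnt_one (a : Fin 4) (k : ℤ) : cnt (vt 0 [a]) k ≤ 1 := by
  rw [vt_cons, vt_nil, cnt_cons, cnt_cons, cnt_nil]
  have h1 : lev (0 : ℤ × ℤ) = 0 := rfl
  have h2 : lev ((0 : ℤ × ℤ) + dv a) = 1 ∨ lev ((0 : ℤ × ℤ) + dv a) = -1 := by
    rw [zero_add]
    revert a
    decide
  rw [h1]
  rcases h2 with h2 | h2 <;> rw [h2] <;> split_ifs <;> omega

theorem cnt_len_one {w : Wd} (hw : w.length = 1) (k : ℤ) : cnt (vt 0 w) k ≤ 1 := by
  obtain ⟨a, rfl⟩ := List.length_eq_one_iff.1 hw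
  exact cnt_one a k

theorem pos_len {w : Wd} (h : lev (ep 0 w) ≠ 0) : 1 ≤ w.length := by
  rcases w with _ | ⟨a, w⟩
  · exact absurd rfl h
  · rw [List.length_cons]
    omega

end REPB

theorem repb_thm : REPB_Stmt := by
  intro b h
  refine ⟨REPB.isW_bN h, ?_, ?_⟩
  · intro r p hp
    have hS := ((H66.mem_Pc r p).1 hp).1.1
    unfold wb
    rw [BW_congr (REPB.pocc_flip hS)]
    exact congrArg ENNReal.toReal (BW_equiv (bN b) (Equiv.subLeft (ht p)) (pocc p))
  · intro r p hp h1
    have hS := ((H66.mem_Pc r p).1 hp).1.1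
    unfold wb
    rw [BW_one (REPB.isW_bN h)]
    · rfl
    · intro k
      have l1 : 1 ≤ p.1.length := REPB.pos_len (ne_of_gt hS.1)
      have l2 : 1 ≤ p.2.length := REPB.pos_len (by rw [hS.2.1]; exact ne_of_lt (neg_neg_of_pos hS.1))
      obtain ⟨m, hm⟩ := (H66.k5size r p hp).1
      have h3 : (p.1.length + p.2.length) / 2 = 1 := h1
      have e1 := REPB.cnt_len_one (show p.1.length = 1 by omega) k
      have e2 := REPB.cnt_len_one (show p.2.length = 1 by omega) (k - ht p)
      unfold pocc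
      omega

end Pool.Agent.OC
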