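import Pool.Agent.OC.Stmts2
import Pool.Agent.OC.Lib
import Pool.Agent.Lib_helper58.SapR.K1
import Pool.Agent.Lib_helper27.Transl

/-!
# Convex occupation energies (MP_f6626d_co): module REPC, occupation weights of closed words
-/

set_option autoImplicit false

namespace Pool.Agent.OC

open Finset Pool.Agent.Lib27 Pool.Agent.SapR Pool.Agent.AreaLaw
open scoped NNReal ENNReal

namespace REPC

variable {b : ℕ → ℝ}

/-- the product over all levels -/
noncomputable def FP (b : ℕ → ℝ) (o : ℤ → ℕ) : ℝ := ∏ᶠ k : ℤ, b (o k)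

theorem support_sub (h0 : b 0 = 1) (o : ℤ → ℕ) (s : Finset ℤ) (hs : ∀ k ∉ s, o k = 0) :
    Function.mulSupport (fun k => b (o k)) ⊆ (s : Set ℤ) := by
  intro k hk
  rw [Function.mem_mulSupport] at hk
  by_contra hc
  exact hk (by rw [hs k (fun h => hc (Finset.mem_coe.2 h)), h0])

theorem FP_eq (h0 : b 0 = 1) (o : ℤ → ℕ) (s : Finset ℤ) (hs : ∀ k ∉ s, o k = 0) :
    FP b o = ∏ k ∈ s, b (o k) :=
  finprod_eq_prod_of_mulSupport_subset _ (support_sub h0 o s hs)

theorem FP_congr {o o' : ℤ → ℕ} (h : ∀ k, o k = o' k) : FP b o = FP b o' := by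
  rw [show o = o' from funext h]

theorem FP_shift (o : ℤ → ℕ) (c : ℤ) : FP b (fun k => o (k + c)) = FP b o :=
  finprod_comp_equiv (Equiv.addRight c) (f := fun k => b (o k))

theorem FP_neg (o : ℤ → ℕ) : FP b (fun k => o (-k)) = FP b o :=
  finprod_comp_equiv (Equiv.neg ℤ) (f := fun k => b (o k))

theorem FP_mul (h0 : b 0 = 1) {o o₁ o₂ : ℤ → ℕ} (s₁ s₂ : Finset ℤ) (h1 : ∀ k ∉ s₁, o₁ k = 0)
    (h2 : ∀ k ∉ s₂, o₂ k = 0) (h : ∀ k, b (o k) = b (o₁ k) * b (o₂ k)) :
    FP b o = FP b o₁ * FP b o₂ := by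
  unfold FP
  rw [← finprod_mul_distrib (s₁.finite_toSet.subset (support_sub h0 o₁ s₁ h1))
    (s₂.finite_toSet.subset (support_sub h0 o₂ s₂ h2))]
  exact finprod_congr h

theorem cocc_far (w : Wd) {k : ℤ} (hk : k ∉ Icc (-(w.length : ℤ)) w.length) : cocc w k = 0 := by
  unfold cocc
  rw [cnt_eq_zero]
  rintro p hp rfl
  apply hk
  have := abs_lev_le (w := w) (p := p) (by unfold vt; exact List.mem_append_left _ hp)
  rw [abs_le] at this
  exact mem_Icc.2 this

theorem cwO_eq (h0 : b 0 = 1) (w : Wd) : cwO b w = FP b (cocc w) / b 1 ^ 2 := by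
  unfold cwO
  rw [FP_eq h0 (cocc w) (Icc (-(w.length : ℤ)) w.length) (fun k hk => cocc_far w hk)]

theorem awO_eq (h0 : b 0 = 1) (T : Wd) :
    awO b T = FP b (fun k => if 1 ≤ k then occ T k else 0) / b 1 := by
  unfold awO
  rw [FP_eq h0 _ (Icc (1 : ℤ) T.length)]
  · congr 1
    refine prod_congr rfl fun k hk => ?_
    rw [mem_Icc] at hk
    rw [if_pos hk.1]
  · intro k hk
    rw [mem_Icc] at hk
    split_ifs with h
    · exact occ_far (by rw [abs_of_nonneg (by omega)]; omega)
    · rfl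

theorem cocc_rot (l₁ l₂ : Wd) (h : ep 0 (l₁ ++ l₂) = 0) (k : ℤ) :
    cocc (l₂ ++ l₁) k = cocc (l₁ ++ l₂) (k + lev (ep 0 l₁)) := by
  unfold cocc
  rw [H58.cnt_perm (H58.perm_rot l₁ l₂ h), cnt_map_add, lev_neg, sub_neg_eq_add]

theorem rot (h0 : b 0 = 1) (n j : ℕ) (s : Wd) (hs : s ∈ W n) (hj : j ≤ 2 * n) :
    cwO b (s.rotate j) = cwO b s := by
  obtain ⟨h1, h2⟩ := (mem_W n s).1 hs
  rw [cwO_eq h0, cwO_eq h0, List.rotate_eq_drop_append_take (by omega)]
  congr 1
  have h3 : ep 0 (s.take j ++ s.drop j) = 0 := by rw [List.take_append_drop]; exact h2.1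
  rw [FP_congr (cocc_rot _ _ h3), FP_shift, List.take_append_drop]

theorem rev (h0 : b 0 = 1) (n : ℕ) (s : Wd) (hs : s ∈ W n) : cwO b (rv s) = cwO b s := by
  obtain ⟨h1, h2⟩ := (mem_W n s).1 hs
  rw [cwO_eq h0, cwO_eq h0]
  congr 1
  refine FP_congr fun k => ?_
  unfold cocc
  exact H58.cnt_perm (H58.vs_rv_perm s h2.1) k

theorem glue (h0 : b 0 = 1) (h2 : b 2 = 1) (x : ℤ) (w T : Wd) (hw : Arch x w)
    (hT : Arch x T) : cwO b (w ++ rot2 T) = awO b w * awO b T := by
  rw [cwO_eq h0, awO_eq h0, awO_eq h0]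
  have e1 : FP b (cocc (w ++ rot2 T)) = FP b (fun k => if 1 ≤ k then occ w k else 0) *
      FP b (fun k => if 1 ≤ -k then occ T (-k) else 0) := by
    refine FP_mul h0 (Icc 1 (w.length : ℤ)) (Icc (-(T.length : ℤ)) (-1)) ?_ ?_ ?_
    · intro k hk
      rw [mem_Icc] at hk
      split_ifs with h
      · exact occ_far (by rw [abs_of_nonneg (by omega)]; omega)
      · rfl
    · intro k hk
      rw [mem_Icc] at hk
      split_ifs with h
      · exact occ_far (by rw [abs_of_nonneg (by omega)]; omega)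
      · rfl
    · intro k
      rcases lt_trichotomy k 0 with hk | hk | hk
      · rw [if_neg (by omega), if_pos (by omega), h0, one_mul]
        unfold cocc occ
        rw [H58.cnt_glue_nonpos hw hT k hk.le]
      · subst hk
        rw [if_neg (by omega), if_neg (by omega), h0, one_mul]
        unfold cocc
        rw [H58.cnt_glue hw, neg_zero, H58.arch_cnt_zero hw, H58.arch_cnt_zero hT, h2]
      · rw [if_pos (by omega), if_neg (by omega), h0, mul_one]
        unfold cocc occ
        rw [H58.cnt_glue_nonneg hw hT k hk.le]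
  rw [e1, FP_neg (b := b) (fun k => if 1 ≤ k then occ T k else 0)]
  ring

theorem diag_eq (n : ℕ) (s : Fin (2 * n) → Fin 4) (h : ℤ) :
    diag n s h = cocc (List.ofFn s) h := by
  unfold AreaLaw.diag cocc
  rw [H58.cnt_eq, List.length_ofFn]
  congr 1
  refine filter_congr fun j hj => ?_
  rw [mem_range] at hj
  unfold H58.L lev
  rw [← pos_eq n s j hj.le]

theorem ofFn (n : ℕ) (s : Fin (2 * n) → Fin 4) :
    cwO b (List.ofFn s) = occW b n s / b 1 ^ 2 := by
  unfold cwO occW
  rw [List.length_ofFn]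
  congr 1
  exact prod_congr rfl fun k _ => by rw [diag_eq]

/-! ### normalization -/

theorem bN_coe (O : OccWeight b) (v : ℕ) : (bN b v : ℝ) = if v = 1 then 1 else b v := by
  unfold bN
  by_cases h : v ≤ 2
  · rw [if_pos h]
    have h1 : v = 0 ∨ v = 1 ∨ v = 2 := by omega
    rcases h1 with rfl | rfl | rfl
    · rw [if_neg (by omega), O.zero]; rfl
    · rw [if_pos rfl]; rfl
    · rw [if_neg (by omega), O.two]; rfl
  · rw [if_neg h, if_neg (by omega), Real.coe_toNNReal _ (O.nonneg v)]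

theorem isW (O : OccWeight b) : IsW (bN b) := by
  refine ⟨by unfold bN; simp, by unfold bN; simp, by unfold bN; simp, ?_, ?_⟩
  · intro v hv
    rw [← NNReal.coe_le_coe, bN_coe O, bN_coe O, if_neg (by omega), if_neg (by omega)]
    exact O.anti v hv
  · intro v hv
    rw [← NNReal.coe_le_coe]
    push_cast
    rw [bN_coe O, bN_coe O, bN_coe O, if_neg (by omega), if_neg (by omega), if_neg (by omega)]
    exact O.lc v hv

/-- a closed word visits the levels between the lowest and the highest one at least twice -/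
theorem two_le (w : Wd) (hcl : ep 0 w = 0) (k : ℤ) (a c : ℕ) (ha : a < w.length)
    (hc : c < w.length) (h1 : H58.L w a < k) (h2 : k < H58.L w c) : 2 ≤ cocc w k := by
  obtain ⟨i, hi, hLi, hui⟩ := H58.up_exists w hcl k a c ha hc (by omega) (by omega)
  obtain ⟨j, hj, hLj, huj⟩ := H58.down_exists w hcl k c a hc ha (by omega) (by omega)
  have hij : i ≠ j := by
    rintro rfl
    exact huj hui
  unfold cocc
  rw [H58.cnt_eq]
  have hsub : ({i, j} : Finset ℕ) ⊆ (range w.length).filter (fun j => H58.L w j = k) := by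
    intro x hx
    simp only [mem_insert, mem_singleton] at hx
    rw [mem_filter, mem_range]
    rcases hx with rfl | rfl
    · exact ⟨hi, hLi⟩
    · exact ⟨hj, hLj⟩
  have := card_le_card hsub
  rwa [card_pair hij] at this

/-- at most two levels have occupation one -/
theorem card_ones (n : ℕ) (w : Wd) (hn : 1 ≤ n) (hw : w ∈ W n) (s : Finset ℤ) :
    (s.filter (fun k => cocc w k = 1)).card ≤ 2 := by
  obtain ⟨hlen, hS⟩ := (mem_W n w).1 hw
  have hne : (range w.length).Nonempty := by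
    rw [nonempty_range_iff]
    omega
  obtain ⟨p, hp, hpm⟩ := exists_max_image (range w.length) (H58.L w) hne
  obtain ⟨q, hq, hqm⟩ := exists_min_image (range w.length) (H58.L w) hne
  refine le_trans (card_le_card (t := {H58.L w q, H58.L w p}) ?_) card_le_two
  intro k hk
  rw [mem_filter] at hk
  have h1 : 0 < cnt (vs 0 w) k := by
    have := hk.2
    unfold cocc at this
    omega
  obtain ⟨j, hj, hL⟩ := H58.exists_of_cnt_pos w k h1
  have h2 := hpm j (mem_range.2 hj)
  have h3 := hqm j (mem_range.2 hj)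
  rw [mem_insert, mem_singleton]
  by_contra hc
  push Not at hc
  have := two_le w hS.1 k q p (mem_range.1 hq) (mem_range.1 hp) (by omega) (by omega)
  omega

theorem bound (O : OccWeight b) (n : ℕ) (w : Wd) (hn : 1 ≤ n) (hw : w ∈ W n) :
    cwO b w ≤ max 1 (b 1)⁻¹ ^ 2 * wc (bN b) w := by
  have e1 : wc (bN b) w = ∏ k ∈ Icc (-(w.length : ℤ)) w.length, (bN b (cocc w k) : ℝ) := by
    unfold wc
    rw [BW_eq (isW O) (Icc (-(w.length : ℤ)) w.length) (fun k hk => by
      rw [cocc_far w hk]; omega), ENNReal.toReal_prod]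
    exact prod_congr rfl fun k _ => rfl
  have e2 : ∏ k ∈ Icc (-(w.length : ℤ)) w.length, b (cocc w k) =
      b 1 ^ ((Icc (-(w.length : ℤ)) w.length).filter (fun k => cocc w k = 1)).card *
        wc (bN b) w := by
    rw [e1, ← prod_const, prod_filter, ← prod_mul_distrib]
    refine prod_congr rfl fun k _ => ?_
    rw [bN_coe O]
    split_ifs with h
    · rw [h, mul_one]
    · rw [one_mul]
  have h1 := card_ones n w hn hw (Icc (-(w.length : ℤ)) w.length)
  have h2 : 0 ≤ wc (bN b) w := ENNReal.toReal_nonneg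
  have hM : (1 : ℝ) ≤ max 1 (b 1)⁻¹ := le_max_left _ _
  have hM' : (b 1)⁻¹ ≤ max 1 (b 1)⁻¹ := le_max_right _ _
  have hb : 0 < b 1 := O.one
  have key : ∀ m : ℕ, m ≤ 2 → b 1 ^ m / b 1 ^ 2 ≤ max 1 (b 1)⁻¹ ^ 2 := by
    intro m hm
    have e3 : b 1 ^ m / b 1 ^ 2 = (b 1)⁻¹ ^ (2 - m) := by
      rw [inv_pow, div_eq_iff (by positivity), inv_mul_eq_div, eq_div_iff (by positivity),
        ← pow_add]
      congr 1
      omega
    rw [e3]
    exact (pow_le_pow_left₀ (by positivity) hM' _).trans (pow_le_pow_right₀ hM (by omega))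
  unfold cwO
  rw [e2, mul_div_right_comm]
  exact mul_le_mul_of_nonneg_right (key _ h1) h2

end REPC

theorem repc_thm : REPC_Stmt := by
  intro b O
  refine ⟨?_, REPC.rot O.zero, REPC.rev O.zero, ?_, ?_, REPC.bound O⟩
  · intro w
    unfold cwO
    have := O.one
    exact div_nonneg (prod_nonneg fun k _ => O.nonneg _) (by positivity)
  · intro x w T _ hw hT
    exact REPC.glue O.zero O.two x w T hw hT
  · intro n s _ _
    exact REPC.ofFn n s

end Pool.Agent.OC
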