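import Pool.Agent.OC.Stmts
import Pool.Agent.OC.Lib

/-!
# Convex occupation energies (MP_f6626d_co): a good scale (module OC_SCALE)
-/

set_option autoImplicit false

namespace Pool.Agent.OC

open Finset
open Pool.Agent.MG (Nc)
open scoped NNReal ENNReal

namespace SCALE

/-- the sum over the pairs of indices of the upper renewal inequality -/
theorem block (h1 : RENU_Stmt) {P : Par} {v1 : ℕ} {b : ℕ → ℝ≥0} (hb : Cl P v1 b) {K : ℕ}
    (hK : 1 ≤ K) : gs (Wp b (zst b)) (Nc K (2 * K) (3 * K)) ≤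
      2 * ∑ l ∈ Icc K (3 * K), (l : ℝ≥0∞) * ww b (zst b) l := by
  refine (h1 b (zst b) hb.w K (2 * K) (3 * K) (by omega) (by omega)).trans ?_
  have e1 : ∑ i ∈ (range (K + 1) ×ˢ range (3 * K + 1)).filter
      (fun i => 2 * K ≤ i.1 + i.2 ∧ i.1 + i.2 ≤ 3 * K),
        Y b (zst b) i.1 * ww b (zst b) i.2 * Y b (zst b) (3 * K - (i.1 + i.2)) ≤
      ∑ i ∈ range (K + 1) ×ˢ Icc K (3 * K), ww b (zst b) i.2 := by
    refine (Finset.sum_le_sum (g := fun i => ww b (zst b) i.2) fun i _ => ?_).trans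
      (Finset.sum_le_sum_of_subset fun i hi => ?_)
    · calc Y b (zst b) i.1 * ww b (zst b) i.2 * Y b (zst b) (3 * K - (i.1 + i.2))
          ≤ 1 * ww b (zst b) i.2 * 1 :=
            mul_le_mul' (mul_le_mul' (hb.Y_le _) le_rfl) (hb.Y_le _)
        _ = ww b (zst b) i.2 := by rw [one_mul, mul_one]
    · rw [mem_filter, mem_product, mem_range, mem_range] at hi
      rw [mem_product, mem_range, mem_Icc]
      omega
  refine e1.trans ?_
  rw [Finset.sum_product]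
  show ∑ x ∈ range (K + 1), ∑ y ∈ Icc K (3 * K), ww b (zst b) y ≤ _
  rw [Finset.sum_const, card_range, nsmul_eq_mul, Finset.mul_sum, Finset.mul_sum]
  refine Finset.sum_le_sum fun l hl => ?_
  rw [← mul_assoc]
  refine mul_le_mul' ?_ le_rfl
  rw [mem_Icc] at hl
  have h2 : K + 1 ≤ 2 * l := by omega
  calc ((K + 1 : ℕ) : ℝ≥0∞) ≤ ((2 * l : ℕ) : ℝ≥0∞) := Nat.cast_le.2 h2
    _ = 2 * (l : ℝ≥0∞) := by push_cast; rfl

/-- the ranges of the scales are disjoint -/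
theorem scales (g : ℕ → ℝ≥0∞) {k : ℕ} (hk : 1 ≤ k) (n : ℕ) :
    ∑ i ∈ range n, ∑ l ∈ Icc (k * 4 ^ i) (3 * (k * 4 ^ i)), g l ≤
      ∑ l ∈ range (k * 4 ^ n), g l := by
  induction n with
  | zero => simp
  | succ n ih =>
    have hp : 1 ≤ k * 4 ^ n := Nat.mul_pos hk (by positivity)
    rw [Finset.sum_range_succ]
    have e : k * 4 ^ (n + 1) = 4 * (k * 4 ^ n) := by ring
    rw [e, ← Finset.sum_range_add_sum_Ico g (show k * 4 ^ n ≤ 4 * (k * 4 ^ n) by omega)]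
    refine add_le_add ih (Finset.sum_le_sum_of_subset fun l hl => ?_)
    rw [mem_Icc] at hl
    rw [mem_Ico]
    omega

end SCALE

open SCALE in
theorem scale_thm (h1 : RENU_Stmt) (h2 : MEAN_Stmt) : SCALE_Stmt := by
  intro P eps K0 heps
  obtain ⟨M, hM⟩ := h2 P
  obtain ⟨n, hn⟩ := exists_nat_gt (2 * M / eps)
  have hn' : 2 * M < n * eps := by rwa [div_lt_iff₀ heps] at hn
  refine ⟨(K0 + 1) * 4 ^ n, fun v1 b hb => ?_⟩
  by_contra hcon
  push Not at hcon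
  have hlt : ∀ i ∈ range n, (eps : ℝ≥0∞) ≤ gs (Wp b (zst b))
      (Nc ((K0 + 1) * 4 ^ i) (2 * ((K0 + 1) * 4 ^ i)) (3 * ((K0 + 1) * 4 ^ i))) := by
    intro i hi
    rw [mem_range] at hi
    refine (hcon ((K0 + 1) * 4 ^ i) ?_ ?_).le
    · have : 1 ≤ 4 ^ i := Nat.one_le_pow _ _ (by norm_num)
      nlinarith
    · exact Nat.mul_le_mul_left _ (Nat.pow_le_pow_right (by norm_num) hi.le)
  have hsum : (n : ℝ≥0∞) * eps ≤ 2 * M := by
    calc (n : ℝ≥0∞) * eps = ∑ i ∈ range n, (eps : ℝ≥0∞) := by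
          rw [Finset.sum_const, card_range, nsmul_eq_mul]
      _ ≤ ∑ i ∈ range n, gs (Wp b (zst b))
          (Nc ((K0 + 1) * 4 ^ i) (2 * ((K0 + 1) * 4 ^ i)) (3 * ((K0 + 1) * 4 ^ i))) :=
          Finset.sum_le_sum hlt
      _ ≤ ∑ i ∈ range n, 2 * ∑ l ∈ Icc ((K0 + 1) * 4 ^ i) (3 * ((K0 + 1) * 4 ^ i)),
          (l : ℝ≥0∞) * ww b (zst b) l :=
          Finset.sum_le_sum fun i _ => block h1 hb (Nat.mul_pos (Nat.succ_pos K0) (by positivity))
      _ = 2 * ∑ i ∈ range n, ∑ l ∈ Icc ((K0 + 1) * 4 ^ i) (3 * ((K0 + 1) * 4 ^ i)),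
          (l : ℝ≥0∞) * ww b (zst b) l := by rw [Finset.mul_sum]
      _ ≤ 2 * ∑' l : ℕ, (l : ℝ≥0∞) * ww b (zst b) l :=
          mul_le_mul' le_rfl ((scales _ (Nat.succ_pos K0) n).trans (ENNReal.sum_le_tsum _))
      _ ≤ 2 * M := mul_le_mul' le_rfl (hM v1 b hb).2
  have h3 : ((n * eps : ℝ≥0) : ℝ≥0∞) ≤ ((2 * M : ℝ≥0) : ℝ≥0∞) := by
    push_cast
    exact hsum
  exact absurd (ENNReal.coe_le_coe.1 h3) (not_le.2 hn')

end Pool.Agent.OC
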