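import Pool.Agent.OC.Stmts2
import Pool.Agent.Lib_helper89.FL.FinB

/-!
# Convex occupation energies (MP_f6626d_co): the sequence of models (module SEQM)
-/

set_option autoImplicit false

namespace Pool.Agent.OC.SEQM

open Finset Pool.Agent.Lib27 Pool.Agent.SapR Pool.Agent.Gap Filter Topology Pool.Agent.AreaLaw

lemma wtM_nonneg (μ : MW) (q : (_ : ℤ) × (_ : ℕ) × (Wd × Wd)) : 0 ≤ wtM μ q :=
  mul_nonneg (μ.aw_nonneg _) (μ.aw_nonneg _)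

/-- the bound given by NEARG -/
def NB (C θ C1 : ℝ) : Prop := ∀ (μ : MW) (n : ℕ) (rho : ℝ), 2 ≤ n → 0 < rho →
    ∑ p ∈ Pc (2 * n - 1), rho ^ FL.hl p * μ.pw p = 1 → TailsM C θ n μ rho →
    ∑ q ∈ M41.Om (2 * n - 1) n, wtM μ q *
      |(|((dbl 0 q.2.2.2 + dbl 0 q.2.2.1 : ℤ) : ℝ)| - (M41.Ar (2 * n - 1) q.2.2.2 : ℝ))| ≤
    C1 * n * Real.log n * ∑ q ∈ M41.Om (2 * n - 1) n, wtM μ q + C1 / ((n : ℝ) ^ 5 * rho ^ n)

lemma near_bound {C θ C1 : ℝ} (hC : 0 < C) (hθ : 0 < θ) (hC1 : 0 < C1) (hN : NB C θ C1)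
    (n' n : ℕ) (hnn : n' = n) (hn : 2 ≤ n) (μ : MW) (d : DatM C θ n' μ) :
    ∑ q ∈ M41.Om (2 * n' - 1) n', wtM μ q *
        |(|((dbl 0 q.2.2.2 + dbl 0 q.2.2.1 : ℤ) : ℝ)| - (M41.Ar (2 * n' - 1) q.2.2.2 : ℝ))| ≤
      FL.kap0 C1 C θ n * ((n : ℝ) * Real.sqrt n) * (∑ q ∈ M41.Om (2 * n' - 1) n', wtM μ q +
        1 / ((n : ℝ) * Real.sqrt n * d.G.rho ^ n)) := by
  subst hnn
  have h1 := hN μ n' d.G.rho hn d.G.rho_pos d.crit d.tails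
  refine h1.trans ?_
  have hn0 : (0 : ℝ) < n' := by
    have : 0 < n' := by omega
    exact_mod_cast this
  have hn1 : (1 : ℝ) ≤ n' := by
    have : 1 ≤ n' := by omega
    exact_mod_cast this
  have hsq : 0 < Real.sqrt n' := Real.sqrt_pos.2 hn0
  have hρ := pow_pos d.G.rho_pos n'
  have hlog : 0 ≤ Real.log n' := Real.log_nonneg hn1
  obtain ⟨S, hS⟩ : ∃ S, S = ∑ q ∈ M41.Om (2 * n' - 1) n', wtM μ q := ⟨_, rfl⟩
  have hS0 : 0 ≤ S := by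
    rw [hS]
    exact Finset.sum_nonneg fun q _ => wtM_nonneg μ q
  rw [← hS]
  have hθn : 0 < θ ^ n' := pow_pos hθ n'
  have e1 : FL.kap0 C1 C θ n' * ((n' : ℝ) * Real.sqrt n') *
      (S + 1 / ((n' : ℝ) * Real.sqrt n' * d.G.rho ^ n')) =
      FL.kap0 C1 C θ n' * ((n' : ℝ) * Real.sqrt n') * S +
        FL.kap0 C1 C θ n' / d.G.rho ^ n' := by
    field_simp
  rw [e1]
  have e2 : C1 * n' * Real.log n' ≤ FL.kap0 C1 C θ n' * ((n' : ℝ) * Real.sqrt n') := by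
    have h3 : C1 * n' * Real.log n' =
        C1 * (Real.log n' / Real.sqrt n') * ((n' : ℝ) * Real.sqrt n') := by
      field_simp
    rw [h3]
    refine mul_le_mul_of_nonneg_right ?_ (by positivity)
    unfold FL.kap0
    have : 0 ≤ C1 / (n' : ℝ) ^ 5 := by positivity
    have : 0 ≤ 2 * C * ((n' : ℝ) ^ 4 * θ ^ n') := by positivity
    linarith
  have e3 : C1 / ((n' : ℝ) ^ 5 * d.G.rho ^ n') ≤ FL.kap0 C1 C θ n' / d.G.rho ^ n' := by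
    rw [← div_div]
    refine div_le_div_of_nonneg_right ?_ hρ.le
    unfold FL.kap0
    have : 0 ≤ C1 * (Real.log n' / Real.sqrt n') := by positivity
    have : 0 ≤ 2 * C * ((n' : ℝ) ^ 4 * θ ^ n') := by positivity
    linarith
  have e4 := mul_le_mul_of_nonneg_right e2 hS0
  linarith

lemma bad_bound {C θ C1 : ℝ} (hC : 0 < C) (hθ : 0 < θ) (hC1 : 0 < C1)
    (n' n : ℕ) (hnn : n' = n) (hn : 2 ≤ n) (μ : MW) (d : DatM C θ n' μ) :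
    ∑ w ∈ FL.NoCut n', 1 / (4 * (n' : ℝ)) * μ.cw w * (1 + |((dbl 0 w : ℤ) : ℝ)|) ≤
      FL.kap0 C1 C θ n * (1 / ((n : ℝ) * Real.sqrt n * d.G.rho ^ n)) := by
  subst hnn
  have hn0 : (0 : ℝ) < n' := by
    have : 0 < n' := by omega
    exact_mod_cast this
  have hn1 : (1 : ℝ) ≤ n' := by
    have : 1 ≤ n' := by omega
    exact_mod_cast this
  have hsq : 0 < Real.sqrt n' := Real.sqrt_pos.2 hn0
  have hsq1 : Real.sqrt n' ≤ n' := by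
    rw [Real.sqrt_le_left hn0.le]
    nlinarith
  have hρ := pow_pos d.G.rho_pos n'
  have hlog : 0 ≤ Real.log n' := Real.log_nonneg hn1
  have hθn : 0 < θ ^ n' := pow_pos hθ n'
  have h3 := d.tails.2.2
  rw [← Finset.mul_sum] at h3
  obtain ⟨S, hS⟩ : ∃ S, S = ∑ w ∈ FL.NoCut n', μ.cw w := ⟨_, rfl⟩
  rw [← hS] at h3
  have hS0 : 0 ≤ S := by
    rw [hS]
    exact Finset.sum_nonneg fun w _ => μ.cw_nonneg w
  have h4 : S ≤ C * n' * θ ^ n' / d.G.rho ^ n' := by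
    rw [le_div_iff₀ hρ]
    linarith
  have h5 : ∑ w ∈ FL.NoCut n', 1 / (4 * (n' : ℝ)) * μ.cw w * (1 + |((dbl 0 w : ℤ) : ℝ)|) ≤
      1 / (4 * (n' : ℝ)) * (5 * (n' : ℝ) ^ 2) * S := by
    rw [hS, Finset.mul_sum]
    refine Finset.sum_le_sum fun w hw => ?_
    have hw' : w ∈ W n' := by
      classical
      exact (Finset.mem_filter.1 hw).1
    have hlen := ((mem_W n' w).1 hw').1
    have h6 := H66.abs_dbl_le w
    rw [hlen] at h6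
    have h7 : |((dbl 0 w : ℤ) : ℝ)| ≤ 4 * (n' : ℝ) ^ 2 := by
      have h8 : ((|dbl 0 w| : ℤ) : ℝ) ≤ (((2 * n' : ℕ) : ℤ) ^ 2 : ℤ) := by exact_mod_cast h6
      push_cast at h8
      nlinarith
    have h9 : 1 + |((dbl 0 w : ℤ) : ℝ)| ≤ 5 * (n' : ℝ) ^ 2 := by nlinarith
    have h10 : 0 ≤ μ.cw w := μ.cw_nonneg w
    calc 1 / (4 * (n' : ℝ)) * μ.cw w * (1 + |((dbl 0 w : ℤ) : ℝ)|)
        ≤ 1 / (4 * (n' : ℝ)) * μ.cw w * (5 * (n' : ℝ) ^ 2) :=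
          mul_le_mul_of_nonneg_left h9 (by positivity)
      _ = _ := by ring
  refine h5.trans ?_
  have h11 : 1 / (4 * (n' : ℝ)) * (5 * (n' : ℝ) ^ 2) * S ≤
      1 / (4 * (n' : ℝ)) * (5 * (n' : ℝ) ^ 2) * (C * n' * θ ^ n' / d.G.rho ^ n') :=
    mul_le_mul_of_nonneg_left h4 (by positivity)
  refine h11.trans ?_
  have h12 : 2 * C * ((n' : ℝ) ^ 4 * θ ^ n') ≤ FL.kap0 C1 C θ n' := by
    unfold FL.kap0
    have : 0 ≤ C1 * (Real.log n' / Real.sqrt n') := by positivity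
    have : 0 ≤ C1 / (n' : ℝ) ^ 5 := by positivity
    linarith
  have h13 : 2 * C * ((n' : ℝ) ^ 4 * θ ^ n') * (1 / ((n' : ℝ) * Real.sqrt n' * d.G.rho ^ n')) ≤
      FL.kap0 C1 C θ n' * (1 / ((n' : ℝ) * Real.sqrt n' * d.G.rho ^ n')) :=
    mul_le_mul_of_nonneg_right h12 (by positivity)
  refine le_trans ?_ h13
  have e1 : 1 / (4 * (n' : ℝ)) * (5 * (n' : ℝ) ^ 2) * (C * n' * θ ^ n' / d.G.rho ^ n') =
      (5 / 4 * C * θ ^ n' / d.G.rho ^ n') * (n' : ℝ) ^ 2 := by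
    field_simp
  have e2 : 2 * C * ((n' : ℝ) ^ 4 * θ ^ n') * (1 / ((n' : ℝ) * Real.sqrt n' * d.G.rho ^ n')) =
      (2 * C * θ ^ n' / d.G.rho ^ n') * ((n' : ℝ) ^ 3 / Real.sqrt n') := by
    field_simp
  rw [e1, e2]
  have e3 : (n' : ℝ) ^ 2 ≤ (n' : ℝ) ^ 3 / Real.sqrt n' := by
    rw [le_div_iff₀ hsq]
    calc (n' : ℝ) ^ 2 * Real.sqrt n' ≤ (n' : ℝ) ^ 2 * n' :=
          mul_le_mul_of_nonneg_left hsq1 (by positivity)
      _ = _ := by ring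
  have e4 : 5 / 4 * C * θ ^ n' / d.G.rho ^ n' ≤ 2 * C * θ ^ n' / d.G.rho ^ n' := by
    refine div_le_div_of_nonneg_right ?_ hρ.le
    have : 0 < C * θ ^ n' := by positivity
    nlinarith
  exact mul_le_mul e4 e3 (by positivity) (by positivity)

/-- area functional on the sample space -/
noncomputable def AO (n : ℕ) : OmM n → ℕ :=
  Sum.elim (fun q => M41.Ar (2 * n - 1) q.1.2.2.2) (fun _ => 0)

/-- the good part of the sample space -/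
noncomputable def goodO (n : ℕ) : Finset (OmM n) := univ.map ⟨Sum.inl, Sum.inl_injective⟩

lemma sum_goodO (n : ℕ) {β : Type} [AddCommMonoid β]
    (F : ((_ : ℤ) × (_ : ℕ) × (Wd × Wd)) → β) (F' : OmM n → β)
    (h : ∀ q : {q // q ∈ M41.Om (2 * n - 1) n}, F' (Sum.inl q) = F q.1) :
    ∑ x ∈ goodO n, F' x = ∑ q ∈ M41.Om (2 * n - 1) n, F q := by
  unfold goodO
  rw [Finset.sum_map]
  simp only [Function.Embedding.coeFn_mk, h]
  exact Finset.sum_coe_sort (M41.Om (2 * n - 1) n) F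

lemma sum_OmM (n : ℕ) (F' : OmM n → ℝ) (F : ((_ : ℤ) × (_ : ℕ) × (Wd × Wd)) → ℝ) (H : Wd → ℝ)
    (h : ∀ q : {q // q ∈ M41.Om (2 * n - 1) n}, F' (Sum.inl q) = F q.1)
    (h' : ∀ w : {w // w ∈ FL.NoCut n}, F' (Sum.inr w) = H w.1) :
    ∑ x : OmM n, F' x = ∑ q ∈ M41.Om (2 * n - 1) n, F q + ∑ w ∈ FL.NoCut n, H w := by
  rw [Fintype.sum_sum_type]
  simp only [h, h']
  congr 1
  · exact Finset.sum_coe_sort (M41.Om (2 * n - 1) n) F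
  · exact Finset.sum_coe_sort (FL.NoCut n) H

lemma wtO_nonneg (n : ℕ) (μ : MW) (x : OmM n) : 0 ≤ wtO n μ x := by
  rcases x with q | w
  · simp only [wtO, Sum.elim_inl]
    exact wtM_nonneg μ q.1
  · simp only [wtO, Sum.elim_inr]
    have := μ.cw_nonneg w.1
    positivity

lemma TZ_nonneg (n : ℕ) (x : OmM n) : (0 : ℝ) ≤ (TZ n x : ℝ) := by
  rcases x with q | w
  · simp only [TZ, Sum.elim_inl]
    exact_mod_cast abs_nonneg _
  · simp only [TZ, Sum.elim_inr]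
    exact_mod_cast abs_nonneg _

/-- the sequence of models of a sequence of multiplicative weights -/
noncomputable def seqM (C θ C1 : ℝ) (hC : 0 < C) (hθ : 0 < θ) (hθ1 : θ < 1) (hC1 : 0 < C1)
    (hN : NB C θ C1) (N0 : ℕ) (hN0 : 2 ≤ N0) (μ : ℕ → MW)
    (D : ∀ n, DatM C θ (FL.mx N0 n) (μ (FL.mx N0 n))) : FL.SeqModel C θ where
  G := fun n => (D n).G
  C0 := fun n => 2 * FL.mx N0 n
  s := fun n => capM (μ (FL.mx N0 n)) (FL.mx N0 n)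
  t := fun n => capM (μ (FL.mx N0 n)) (FL.mx N0 n)
  cls := fun n => (D n).cls
  cap_s := fun n => (D n).cap
  cap_t := fun n => (D n).cap
  B := fun n => (D n).B
  sol := fun n => (D n).sol
  Omega := fun n => OmM (FL.mx N0 n)
  fin := fun n => inferInstance
  good := fun n => goodO (FL.mx N0 n)
  wt := fun n => wtO (FL.mx N0 n) (μ (FL.mx N0 n))
  T := fun n x => (TZ (FL.mx N0 n) x : ℝ)
  A := fun n => AO (FL.mx N0 n)
  wt_nonneg := fun n x => wtO_nonneg _ _ x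
  T_nonneg := fun n x => TZ_nonneg _ x
  c := fun _ => 1
  c_pos := fun _ => one_pos
  κ := FL.kap0 C1 C θ
  κ_lim := FL.kap0_lim C1 C θ hθ hθ1
  n1 := N0
  count := fun n hn => by
    have h1 := (D n).count
    rw [Polynomial.C_1, one_mul]
    have h2 : closeP (2 * FL.mx N0 n) (capM (μ (FL.mx N0 n)) (FL.mx N0 n)) (D n).B (FL.mx N0 n) =
        closeP (2 * FL.mx N0 n) (capM (μ (FL.mx N0 n)) (FL.mx N0 n)) (D n).B n :=
      congrArg (closeP (2 * FL.mx N0 n) (capM (μ (FL.mx N0 n)) (FL.mx N0 n)) (D n).B)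
        (FL.mx_eq N0 n hn)
    rw [← h2, ← h1]
    exact sum_goodO (FL.mx N0 n) (fun q => Polynomial.C (wtM (μ (FL.mx N0 n)) q) *
      (Polynomial.X : Polynomial ℝ) ^ (M41.Ar (2 * FL.mx N0 n - 1) q.2.2.2)) _ (fun q => rfl)
  near := fun n hn => by
    have h1 := near_bound hC hθ hC1 hN (FL.mx N0 n) n (FL.mx_eq N0 n hn) (hN0.trans hn) _ (D n)
    have e1 : ∑ x ∈ goodO (FL.mx N0 n), wtO (FL.mx N0 n) (μ (FL.mx N0 n)) x *
        |(TZ (FL.mx N0 n) x : ℝ) - AO (FL.mx N0 n) x| =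
        ∑ q ∈ M41.Om (2 * FL.mx N0 n - 1) (FL.mx N0 n), wtM (μ (FL.mx N0 n)) q *
        |(|((dbl 0 q.2.2.2 + dbl 0 q.2.2.1 : ℤ) : ℝ)| -
          (M41.Ar (2 * FL.mx N0 n - 1) q.2.2.2 : ℝ))| := by
      refine sum_goodO (FL.mx N0 n) (fun q => wtM (μ (FL.mx N0 n)) q *
        |(|((dbl 0 q.2.2.2 + dbl 0 q.2.2.1 : ℤ) : ℝ)| -
          (M41.Ar (2 * FL.mx N0 n - 1) q.2.2.2 : ℝ))|) _ (fun q => ?_)
      simp only [wtO, TZ, AO, Sum.elim_inl, Int.cast_abs]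
    have e2 : ∑ x ∈ goodO (FL.mx N0 n), wtO (FL.mx N0 n) (μ (FL.mx N0 n)) x =
        ∑ q ∈ M41.Om (2 * FL.mx N0 n - 1) (FL.mx N0 n), wtM (μ (FL.mx N0 n)) q :=
      sum_goodO (FL.mx N0 n) (fun q => wtM (μ (FL.mx N0 n)) q) _ (fun q => rfl)
    rw [e1, e2]
    exact h1
  bad := fun n hn => by
    have h1 := bad_bound hC hθ hC1 (FL.mx N0 n) n (FL.mx_eq N0 n hn) (hN0.trans hn) _ (D n)
    refine le_trans (le_of_eq ?_) h1
    have e1 : ∑ x : OmM (FL.mx N0 n), wtO (FL.mx N0 n) (μ (FL.mx N0 n)) x *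
          (1 + (TZ (FL.mx N0 n) x : ℝ)) =
        ∑ q ∈ M41.Om (2 * FL.mx N0 n - 1) (FL.mx N0 n), wtM (μ (FL.mx N0 n)) q *
          (1 + |((dbl 0 q.2.2.2 + dbl 0 q.2.2.1 : ℤ) : ℝ)|) +
        ∑ w ∈ FL.NoCut (FL.mx N0 n), 1 / (4 * ((FL.mx N0 n : ℕ) : ℝ)) *
          (μ (FL.mx N0 n)).cw w * (1 + |((dbl 0 w : ℤ) : ℝ)|) := by
      refine sum_OmM (FL.mx N0 n) _ _ _ (fun q => ?_) (fun w => ?_)
      · simp only [wtO, TZ, Sum.elim_inl, Int.cast_abs]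
      · simp only [wtO, TZ, Sum.elim_inr, Int.cast_abs]
    have e2 : ∑ x ∈ goodO (FL.mx N0 n), wtO (FL.mx N0 n) (μ (FL.mx N0 n)) x *
          (1 + (TZ (FL.mx N0 n) x : ℝ)) =
        ∑ q ∈ M41.Om (2 * FL.mx N0 n - 1) (FL.mx N0 n), wtM (μ (FL.mx N0 n)) q *
          (1 + |((dbl 0 q.2.2.2 + dbl 0 q.2.2.1 : ℤ) : ℝ)|) := by
      refine sum_goodO (FL.mx N0 n) (fun q => wtM (μ (FL.mx N0 n)) q *
          (1 + |((dbl 0 q.2.2.2 + dbl 0 q.2.2.1 : ℤ) : ℝ)|)) _ (fun q => ?_)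
      simp only [wtO, TZ, Sum.elim_inl, Int.cast_abs]
    rw [e1, e2]
    ring

lemma seqM_cdf (C θ C1 : ℝ) (hC : 0 < C) (hθ : 0 < θ) (hθ1 : θ < 1) (hC1 : 0 < C1)
    (hN : NB C θ C1) (N0 : ℕ) (hN0 : 2 ≤ N0) (μ : ℕ → MW)
    (D : ∀ n, DatM C θ (FL.mx N0 n) (μ (FL.mx N0 n))) (n : ℕ) (x : ℝ) :
    (seqM C θ C1 hC hθ hθ1 hC1 hN N0 hN0 μ D).cdf n x =
      cdfM (FL.mx N0 n) (μ (FL.mx N0 n)) x := by
  unfold FL.SeqModel.cdf cdfM FL.SeqModel.W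
  rfl

end Pool.Agent.OC.SEQM

namespace Pool.Agent.OC

/-- SEQM: the sequence of models. -/
theorem seqm_thm (h1 : NEARG_Stmt) : SEQM_Stmt := by
  intro C θ N0 μ hC hθ hθ1 hN0 hD
  obtain ⟨C1, hC1, hN⟩ := h1 C θ hC hθ hθ1
  refine ⟨SEQM.seqM C θ C1 hC hθ hθ1 hC1 hN N0 hN0 μ
    (fun n => (hD (FL.mx N0 n) (le_max_right _ _)).some), ?_⟩
  intro n hn x
  rw [SEQM.seqM_cdf]
  simp only [FL.mx_eq N0 n hn]

end Pool.Agent.OC
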