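import Pool.Agent.OC.Stmts
import Pool.Agent.OC.Lib
import Pool.Agent.Lib_helper66.SapR.K5
import Pool.Agent.Lib_helper41.SapR.ArDef

/-!
# Convex occupation energies (MP_f6626d_co): module OC_TAIL
-/

set_option autoImplicit false

namespace Pool.Agent.OC.TAIL

open Finset Pool.Agent.Lib27 Pool.Agent.SapR
open Pool.Agent.MG (Bri Brp Irr Nc Fp Fpp Bad SB CC SW dip cc chi rfa)
open scoped NNReal ENNReal

theorem wb_nonneg (b : ℕ → ℝ≥0) (p : Wd × Wd) : 0 ≤ wb b p := ENNReal.toReal_nonneg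

theorem wa_nonneg (b : ℕ → ℝ≥0) (p : Wd) : 0 ≤ wa b p := ENNReal.toReal_nonneg

theorem wc_nonneg (b : ℕ → ℝ≥0) (p : Wd) : 0 ≤ wc b p := ENNReal.toReal_nonneg

/-- from `ENNReal` to real sums -/
theorem real_sum_le {α : Type*} (s : Finset α) (f : α → ℝ) (g : α → ℝ≥0∞)
    (hf : ∀ a ∈ s, 0 ≤ f a) (hfg : ∀ a ∈ s, ENNReal.ofReal (f a) = g a) {B : ℝ≥0}
    (h : ∑ a ∈ s, g a ≤ (B : ℝ≥0∞)) : ∑ a ∈ s, f a ≤ (B : ℝ) := by
  have h1 : ENNReal.ofReal (∑ a ∈ s, f a) = ∑ a ∈ s, g a := by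
    rw [ENNReal.ofReal_sum_of_nonneg hf]
    exact Finset.sum_congr rfl hfg
  rw [← h1] at h
  have h2 := ENNReal.ofReal_le_iff_le_toReal (ENNReal.coe_ne_top (r := B)) |>.1 h
  simpa using h2

/-- one term -/
theorem term_eq {x : ℝ} {Z : ℝ≥0∞} (hx : 0 ≤ x) (hZ : ENNReal.ofReal x = Z) (k : ℕ) (o : ℝ≥0∞)
    (ho : o ≠ ∞) : ENNReal.ofReal ((x ^ 2) ^ k * o.toReal) = Z ^ (2 * k) * o := by
  rw [ENNReal.ofReal_mul (by positivity), ENNReal.ofReal_toReal ho, ← pow_mul,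
    ENNReal.ofReal_pow hx, hZ]

theorem len_hl {r : ℕ} {p : Wd × Wd} (hp : p ∈ Pc r) :
    p.1.length + p.2.length = 2 * FL.hl p := by
  obtain ⟨h1, _⟩ := H66.k5size r p hp
  unfold FL.hl
  obtain ⟨t, ht⟩ := h1
  omega

theorem hl_pos {r : ℕ} {p : Wd × Wd} (hp : p ∈ Pc r) : 1 ≤ FL.hl p := by
  have h1 := (H66.k5size r p hp).2.1
  have h2 := len_hl hp
  omega

/-- the basic pieces -/
def basic : Finset (Wd × Wd) :=
  {(([0], [2]) : Wd × Wd), ([1], [3]), ([0], [3]), ([1], [2])}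

theorem basic_card : basic.card = 4 := by decide

theorem basic_sub (r : ℕ) : basic ⊆ Pc r := by
  intro p hp
  obtain ⟨h1, h2, h3, h4⟩ := H66.k5basic r 2 (by norm_num)
  have h4 := h4 le_rfl
  rw [M41.mem_allowed] at h1 h2 h3 h4
  unfold basic at hp
  simp only [Finset.mem_insert, Finset.mem_singleton] at hp
  rcases hp with rfl | rfl | rfl | rfl
  · exact h1.1
  · exact h2.1
  · exact h3.1
  · exact h4.1

theorem basic_hl {p : Wd × Wd} (hp : p ∈ basic) : FL.hl p = 1 := by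
  unfold basic at hp
  simp only [Finset.mem_insert, Finset.mem_singleton] at hp
  rcases hp with rfl | rfl | rfl | rfl <;> rfl

theorem basic_wb {b : ℕ → ℝ≥0} (h : IsW b) {p : Wd × Wd} (hp : p ∈ basic) : wb b p = 1 := by
  unfold wb
  rw [BW_one h, ENNReal.toReal_one]
  intro k
  unfold basic at hp
  simp only [Finset.mem_insert, Finset.mem_singleton] at hp
  rcases hp with rfl | rfl | rfl | rfl <;>
    (simp [pocc, cnt, ht, lev, dv, vs, ep, vt, List.countP_cons]; split_ifs <;> omega)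

theorem Pc_sub_Fr (r : ℕ) : ((Pc r : Finset (Wd × Wd)) : Set (Wd × Wd)) ⊆ Fr := by
  intro p hp
  exact ((M41.mem_Pc _ _).1 (Finset.mem_coe.1 hp)).1

section core

variable {b : ℕ → ℝ≥0} {eta Cb zl : ℝ≥0} {z : ℝ≥0∞} {n : ℕ} {rho : ℝ}

/-- the truncated generating function -/
noncomputable def S (b : ℕ → ℝ≥0) (n : ℕ) (x : ℝ) : ℝ := ∑ p ∈ Pc (2 * n - 1), x ^ FL.hl p * wb b p

theorem S_le {C : ℝ≥0} {x : ℝ} {Z : ℝ≥0∞} (hx : 0 ≤ x) (hZ : ENNReal.ofReal x = Z)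
    (F : gs (fun p => Z ^ (p.1.length + p.2.length) * BW b (pocc p)) Fr ≤ C)
    (s : Finset (Wd × Wd)) (hs : s ⊆ Pc (2 * n - 1)) :
    ∑ p ∈ s, (x ^ 2) ^ FL.hl p * wb b p ≤ C := by
  refine real_sum_le s _ (fun p => Z ^ (p.1.length + p.2.length) * BW b (pocc p)) ?_ ?_ ?_
  · intro p _
    exact mul_nonneg (by positivity) (wb_nonneg b p)
  · intro p hp
    rw [len_hl (hs hp)]
    exact term_eq hx hZ _ _ (BW_ne_top _ _)
  · refine (sum_le_gs _ s ?_).trans F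
    intro p hp
    exact Pc_sub_Fr _ (Finset.mem_coe.2 (hs (Finset.mem_coe.1 hp)))

theorem S_mono_basic (hW : IsW b) {x : ℝ} (hx : 0 ≤ x) (hxr : x ≤ rho) :
    4 * (rho - x) ≤ S b n rho - S b n x := by
  unfold S
  rw [← Finset.sum_sub_distrib]
  have h1 : ∑ p ∈ basic, (rho ^ FL.hl p * wb b p - x ^ FL.hl p * wb b p) = 4 * (rho - x) := by
    rw [Finset.sum_congr rfl (fun p hp => by
      rw [basic_hl hp, basic_wb hW hp, pow_one, pow_one, mul_one, mul_one] :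
      ∀ p ∈ basic, rho ^ FL.hl p * wb b p - x ^ FL.hl p * wb b p = rho - x)]
    rw [Finset.sum_const, basic_card]
    ring
  rw [← h1]
  refine Finset.sum_le_sum_of_subset_of_nonneg (basic_sub _) ?_
  intro p _ _
  have h2 : x ^ FL.hl p ≤ rho ^ FL.hl p := pow_le_pow_left₀ hx hxr _
  have h3 := wb_nonneg b p
  nlinarith

theorem S_ge (hW : IsW b) (hr : 0 ≤ rho) : 4 * rho ≤ S b n rho := by
  have h1 := S_mono_basic (n := n) hW le_rfl hr
  have h2 : S b n 0 = 0 := by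
    unfold S
    refine Finset.sum_eq_zero fun p hp => ?_
    have := hl_pos hp
    rw [zero_pow (by omega), zero_mul]
  rw [h2] at h1
  linarith

/-- the tail of the generating function -/
theorem tail (hn : 1 ≤ n) {x : ℝ} (hx : 0 ≤ x) (hZ : ENNReal.ofReal x = z)
    (F1 : gs (fun p => z ^ (p.1.length + p.2.length) * BW b (pocc p)) Fr = 1)
    (F2 : gs (fun p => ((1 + eta) * z) ^ (p.1.length + p.2.length) * BW b (pocc p)) Fr ≤ Cb) :
    1 ≤ S b n (x ^ 2) + Cb * ((1 + (eta : ℝ))⁻¹) ^ (2 * n + 2) := by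
  set f : Wd × Wd → ℝ≥0∞ := fun p => z ^ (p.1.length + p.2.length) * BW b (pocc p) with hf
  set θ : ℝ≥0 := (1 + eta)⁻¹ with hθ
  have hθ1 : θ ≤ 1 := by
    rw [hθ]
    exact inv_le_one_of_one_le₀ (by simp)
  have hθ2 : θ * (1 + eta) = 1 := by
    rw [hθ]
    exact inv_mul_cancel₀ (by positivity)
  have h1 : (1 : ℝ≥0∞) ≤ gs f (Pc (2 * n - 1) : Set (Wd × Wd)) +
      gs f (Fr \ (Pc (2 * n - 1) : Set (Wd × Wd))) := by
    rw [← F1]
    refine (gs_mono f ?_).trans (gs_union f _ _)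
    intro p hp
    by_cases h : p ∈ (Pc (2 * n - 1) : Set (Wd × Wd))
    · exact Or.inl h
    · exact Or.inr ⟨hp, h⟩
  have h2 : gs f (Pc (2 * n - 1) : Set (Wd × Wd)) = ENNReal.ofReal (S b n (x ^ 2)) := by
    rw [gs_finset]
    unfold S
    rw [ENNReal.ofReal_sum_of_nonneg (fun p _ => mul_nonneg (by positivity) (wb_nonneg b p))]
    refine Finset.sum_congr rfl fun p hp => ?_
    unfold wb
    rw [term_eq hx hZ _ _ (BW_ne_top _ _), ← len_hl hp]
  have h3 : gs f (Fr \ (Pc (2 * n - 1) : Set (Wd × Wd))) ≤ (θ : ℝ≥0∞) ^ (2 * n + 2) * Cb := by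
    refine le_trans ?_ (mul_le_mul_right F2 _)
    rw [← gs_mul_left]
    refine gs_le _ _ Set.sdiff_subset ?_
    rintro p ⟨hp, hp2⟩
    have hlen : 2 * n + 2 ≤ p.1.length + p.2.length := by
      by_contra hc
      apply hp2
      rw [Finset.mem_coe, M41.mem_Pc]
      exact ⟨hp, by omega⟩
    have h4 : z ^ (p.1.length + p.2.length) ≤
        (θ : ℝ≥0∞) ^ (2 * n + 2) * ((1 + eta) * z) ^ (p.1.length + p.2.length) := by
      calc z ^ (p.1.length + p.2.length)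
          = ((θ : ℝ≥0∞) * ((1 + eta) * z)) ^ (p.1.length + p.2.length) := by
            rw [← mul_assoc]
            have : (θ : ℝ≥0∞) * (1 + eta) = 1 := by exact_mod_cast hθ2
            rw [this, one_mul]
        _ = (θ : ℝ≥0∞) ^ (p.1.length + p.2.length) * ((1 + eta) * z) ^ (p.1.length + p.2.length) := by
            rw [mul_pow]
        _ ≤ _ := by
            refine mul_le_mul_left ?_ _
            exact pow_le_pow_right_of_le_one' (by exact_mod_cast hθ1) hlen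
    calc f p ≤ (θ : ℝ≥0∞) ^ (2 * n + 2) * ((1 + eta) * z) ^ (p.1.length + p.2.length) *
          BW b (pocc p) := mul_le_mul_left h4 _
      _ = _ := by rw [mul_assoc]
  have h5 : (1 : ℝ≥0∞) ≤ ENNReal.ofReal (S b n (x ^ 2) + Cb * ((1 + (eta : ℝ))⁻¹) ^ (2 * n + 2)) := by
    refine h1.trans ?_
    rw [h2, ENNReal.ofReal_add]
    · refine add_le_add le_rfl (h3.trans (le_of_eq ?_))
      rw [ENNReal.ofReal_mul (by positivity), ENNReal.ofReal_coe_nnreal, mul_comm]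
      congr 1
      rw [ENNReal.ofReal_pow (by positivity)]
      congr 1
      rw [hθ, show ((1 + (eta : ℝ))⁻¹) = (((1 + eta)⁻¹ : ℝ≥0) : ℝ) by push_cast; rfl,
        ENNReal.ofReal_coe_nnreal]
    · unfold S
      exact Finset.sum_nonneg fun p _ => mul_nonneg (by positivity) (wb_nonneg b p)
    · positivity
  have h6 : ENNReal.ofReal 1 ≤
      ENNReal.ofReal (S b n (x ^ 2) + Cb * ((1 + (eta : ℝ))⁻¹) ^ (2 * n + 2)) := by
    rw [ENNReal.ofReal_one]
    exact h5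
  by_contra hc
  rw [not_le] at hc
  have h7 := ENNReal.ofReal_lt_ofReal_iff_of_nonneg (q := 1)
    (show 0 ≤ S b n (x ^ 2) + Cb * ((1 + (eta : ℝ))⁻¹) ^ (2 * n + 2) by
      refine add_nonneg ?_ (by positivity)
      unfold S
      exact Finset.sum_nonneg fun p _ => mul_nonneg (by positivity) (wb_nonneg b p))
  exact absurd h6 (not_le.2 (h7.2 hc))

/-- upper and lower bound of `rho`, and the tails -/
theorem main (hW : IsW b) (heta : 0 < eta) (hz1 : (zl : ℝ≥0∞) ≤ z) (hzl : 0 < zl)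
    (hz2 : z ≤ 2⁻¹)
    (F1 : gs (fun p => z ^ (p.1.length + p.2.length) * BW b (pocc p)) Fr = 1)
    (F2 : gs (fun p => ((1 + eta) * z) ^ (p.1.length + p.2.length) * BW b (pocc p)) Fr ≤ Cb)
    (F3 : gs (fun T => ((1 + eta) * z) ^ T.length * BW b (occ T)) FL.Cap ≤ Cb)
    (F4 : ∑ w ∈ FL.NoCut n, ((1 + eta) * z) ^ (2 * n) * BW b (cocc w) ≤ Cb * n)
    (hn : 1 ≤ n) (hn0 : (Cb : ℝ) * ((1 + (eta : ℝ))⁻¹) ^ (2 * n + 2) ≤ 4 * eta * zl ^ 2)
    (hrho : 0 < rho) (hS : S b n rho = 1) :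
    (zl : ℝ) ^ 2 ≤ rho ∧ rho ≤ 1 / 4 ∧ TailsB Cb ((1 + (eta : ℝ))⁻¹) n b rho := by
  have hzt : z ≠ ∞ := ne_top_of_le_ne_top (by simp) hz2
  set ζ : ℝ := z.toReal with hζ
  have hZ : ENNReal.ofReal ζ = z := ENNReal.ofReal_toReal hzt
  have hζ0 : 0 ≤ ζ := ENNReal.toReal_nonneg
  have hzlζ : (zl : ℝ) ≤ ζ := by
    have := ENNReal.toReal_mono hzt hz1
    simpa using this
  have hzl' : (0 : ℝ) < zl := by exact_mod_cast hzl
  have heta' : (0 : ℝ) < eta := by exact_mod_cast heta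
  have hζp : 0 < ζ := lt_of_lt_of_le hzl' hzlζ
  -- lower bound
  have hS1 : S b n (ζ ^ 2) ≤ 1 := by
    have := S_le (C := 1) (n := n) hζ0 hZ (by rw [F1]; simp) (Pc (2 * n - 1)) subset_rfl
    unfold S
    simpa using this
  have hlow : ζ ^ 2 ≤ rho := by
    by_contra hc
    rw [not_le] at hc
    have h1 : S b n rho ≤ (rho / ζ ^ 2) * S b n (ζ ^ 2) := by
      unfold S
      rw [Finset.mul_sum]
      refine Finset.sum_le_sum fun p hp => ?_
      rw [← mul_assoc]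
      refine mul_le_mul_of_nonneg_right ?_ (wb_nonneg b p)
      obtain ⟨k, hk⟩ : ∃ k, FL.hl p = k + 1 := ⟨FL.hl p - 1, by have := hl_pos hp; omega⟩
      rw [hk, pow_succ rho, pow_succ (ζ ^ 2)]
      have h2 : rho / ζ ^ 2 * ((ζ ^ 2) ^ k * ζ ^ 2) = (ζ ^ 2) ^ k * rho := by
        field_simp
      rw [h2]
      exact mul_le_mul_of_nonneg_right (pow_le_pow_left₀ hrho.le hc.le k) hrho.le
    have h2 : rho / ζ ^ 2 < 1 := (div_lt_one (by positivity)).2 hc
    have h3 : 0 ≤ rho / ζ ^ 2 := by positivity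
    rw [hS] at h1
    nlinarith
  -- upper bound
  have htail := tail (eta := eta) (Cb := Cb) hn hζ0 hZ F1 F2
  have hup : rho ≤ (1 + eta) * ζ ^ 2 := by
    have h1 := S_mono_basic (n := n) hW (by positivity) hlow
    rw [hS] at h1
    have h2 : (zl : ℝ) ^ 2 ≤ ζ ^ 2 := pow_le_pow_left₀ hzl'.le hzlζ 2
    have h3 : (eta : ℝ) * zl ^ 2 ≤ eta * ζ ^ 2 := mul_le_mul_of_nonneg_left h2 heta'.le
    linarith
  set θ : ℝ := (1 + (eta : ℝ))⁻¹ with hθ
  have hθ0 : 0 ≤ θ := by positivity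
  set ζ1 : ℝ := (1 + eta) * ζ with hζ1
  have hζ10 : 0 ≤ ζ1 := by positivity
  have hZ1 : ENNReal.ofReal ζ1 = (1 + eta) * z := by
    rw [hζ1, ENNReal.ofReal_mul (by positivity), hZ, ENNReal.ofReal_add (by norm_num) heta'.le,
      ENNReal.ofReal_one, ENNReal.ofReal_coe_nnreal]
  have hrho1 : rho ≤ θ * ζ1 ^ 2 := by
    have : θ * ζ1 ^ 2 = (1 + eta) * ζ ^ 2 := by
      rw [hθ, hζ1]
      field_simp
    rw [this]
    exact hup
  have hpow : ∀ m : ℕ, rho ^ m ≤ θ ^ m * (ζ1 ^ 2) ^ m := by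
    intro m
    rw [← mul_pow]
    exact pow_le_pow_left₀ hrho.le hrho1 m
  refine ⟨(pow_le_pow_left₀ hzl'.le hzlζ 2).trans hlow, ?_, ?_, ?_, ?_⟩
  · have := S_ge (n := n) hW hrho.le
    rw [hS] at this
    linarith
  · intro m
    set s := (Pc (2 * n - 1)).filter (fun p => FL.hl p = m) with hs
    have h1 := S_le (n := n) hζ10 hZ1 F2 s (Finset.filter_subset _ _)
    calc ∑ p ∈ s, rho ^ m * wb b p ≤ ∑ p ∈ s, θ ^ m * ((ζ1 ^ 2) ^ FL.hl p * wb b p) := by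
          refine Finset.sum_le_sum fun p hp => ?_
          rw [(Finset.mem_filter.1 hp).2, ← mul_assoc]
          exact mul_le_mul_of_nonneg_right (hpow m) (wb_nonneg b p)
      _ = θ ^ m * ∑ p ∈ s, (ζ1 ^ 2) ^ FL.hl p * wb b p := by rw [Finset.mul_sum]
      _ ≤ θ ^ m * Cb := mul_le_mul_of_nonneg_left h1 (by positivity)
      _ = Cb * θ ^ m := mul_comm _ _
  · intro m
    set I := (Icc (1 : ℤ) m).sigma (fun x => CapSet (2 * n - 1) x (2 * m)) with hI
    have h0 : ∑ x ∈ Icc (1 : ℤ) m, ∑ T ∈ CapSet (2 * n - 1) x (2 * m), rho ^ m * wa b T =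
        ∑ i ∈ I, rho ^ m * wa b i.2 := by
      rw [hI, Finset.sum_sigma]
    rw [h0]
    have h1 : ∑ i ∈ I, (ζ1 ^ 2) ^ m * wa b i.2 ≤ (Cb : ℝ) := by
      refine real_sum_le I _ (fun i => ((1 + eta) * z) ^ i.2.length * BW b (occ i.2)) ?_ ?_ ?_
      · intro i _
        exact mul_nonneg (by positivity) (wa_nonneg b _)
      · intro i hi
        have h2 := (Finset.mem_sigma.1 hi).2
        rw [M41.mem_CapSet] at h2
        rw [h2.1]
        exact term_eq hζ10 hZ1 _ _ (BW_ne_top _ _)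
      · rw [hI, Finset.sum_sigma]
        refine le_trans (le_of_eq ?_) ((sum_gs_le (fun T => ((1 + eta) * z) ^ T.length *
          BW b (occ T)) (Icc (1 : ℤ) m)
          (fun x => ((CapSet (2 * n - 1) x (2 * m) : Finset Wd) : Set Wd)) FL.Cap ?_ ?_).trans F3)
        · refine Finset.sum_congr rfl fun x _ => ?_
          rw [gs_finset]
        · intro x hx T hT
          rw [Finset.mem_coe, M41.mem_CapSet] at hT
          exact ⟨x, (Finset.mem_Icc.1 hx).1, hT.2.1, hT.2.2.1⟩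
        · intro x _ y _ T hT hT'
          rw [Finset.mem_coe, M41.mem_CapSet] at hT hT'
          have e1 := hT.2.1.2.1
          have e2 := hT'.2.1.2.1
          rw [e1] at e2
          exact (Prod.ext_iff.1 e2).2
    calc ∑ i ∈ I, rho ^ m * wa b i.2 ≤ ∑ i ∈ I, θ ^ m * ((ζ1 ^ 2) ^ m * wa b i.2) := by
          refine Finset.sum_le_sum fun i _ => ?_
          rw [← mul_assoc]
          exact mul_le_mul_of_nonneg_right (hpow m) (wa_nonneg b _)
      _ = θ ^ m * ∑ i ∈ I, (ζ1 ^ 2) ^ m * wa b i.2 := by rw [Finset.mul_sum]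
      _ ≤ θ ^ m * Cb := mul_le_mul_of_nonneg_left h1 (by positivity)
      _ = Cb * θ ^ m := mul_comm _ _
  · have h1 : ∑ w ∈ FL.NoCut n, (ζ1 ^ 2) ^ n * wc b w ≤ ((Cb * n : ℝ≥0) : ℝ) := by
      refine real_sum_le _ _ (fun w => ((1 + eta) * z) ^ (2 * n) * BW b (cocc w)) ?_ ?_ ?_
      · intro w _
        exact mul_nonneg (by positivity) (wc_nonneg b _)
      · intro w _
        exact term_eq hζ10 hZ1 _ _ (BW_ne_top _ _)
      · refine F4.trans (le_of_eq ?_)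
        push_cast
        rfl
    calc ∑ w ∈ FL.NoCut n, rho ^ n * wc b w ≤
          ∑ w ∈ FL.NoCut n, θ ^ n * ((ζ1 ^ 2) ^ n * wc b w) := by
          refine Finset.sum_le_sum fun w _ => ?_
          rw [← mul_assoc]
          exact mul_le_mul_of_nonneg_right (hpow n) (wc_nonneg b _)
      _ = θ ^ n * ∑ w ∈ FL.NoCut n, (ζ1 ^ 2) ^ n * wc b w := by rw [Finset.mul_sum]
      _ ≤ θ ^ n * ((Cb * n : ℝ≥0) : ℝ) := mul_le_mul_of_nonneg_left h1 (by positivity)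
      _ = Cb * n * θ ^ n := by push_cast; ring

end core

/-- larger constants -/
theorem TailsB_mono {b : ℕ → ℝ≥0} {C C' θ : ℝ} {n : ℕ} {rho : ℝ} (h : TailsB C θ n b rho)
    (hC : C ≤ C') (hθ : 0 ≤ θ) : TailsB C' θ n b rho := by
  obtain ⟨h1, h2, h3⟩ := h
  refine ⟨fun m => (h1 m).trans ?_, fun m => (h2 m).trans ?_, h3.trans ?_⟩
  · exact mul_le_mul_of_nonneg_right hC (by positivity)
  · exact mul_le_mul_of_nonneg_right hC (by positivity)
  · exact mul_le_mul_of_nonneg_right (mul_le_mul_of_nonneg_right hC (by positivity))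
      (by positivity)

end Pool.Agent.OC.TAIL

namespace Pool.Agent.OC

open Finset Pool.Agent.Lib27 Pool.Agent.SapR
open scoped NNReal ENNReal

/-- TAIL : exponential tails at the weight of the truncated pieces. -/
theorem tail_thm (h1 : CLS_Stmt) (h2 : BEY_Stmt) : TAIL_Stmt := by
  intro c hc
  obtain ⟨P, hP⟩ := h1 c hc
  obtain ⟨eta, Cb, heta, hB⟩ := h2 P
  have heta' : (0 : ℝ) < eta := by exact_mod_cast heta
  have hzl' : (0 : ℝ) < P.zl := by exact_mod_cast P.zl_pos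
  set θ : ℝ := (1 + (eta : ℝ))⁻¹ with hθ
  have hθ0 : 0 < θ := by positivity
  have hθ1 : θ < 1 := inv_lt_one_of_one_lt₀ (by linarith)
  obtain ⟨N, hN⟩ := exists_pow_lt_of_lt_one
    (show (0 : ℝ) < 4 * eta * P.zl ^ 2 / (Cb + 1) by positivity) hθ1
  refine ⟨Cb + ((P.zl : ℝ) ^ 2)⁻¹, θ, by positivity, hθ0, hθ1, N + 1, ?_⟩
  intro n b rho hn hW hbc hrho hS
  obtain ⟨v1, hcl⟩ := hP b hW hbc
  obtain ⟨F1, F2, F3, F4⟩ := hB v1 b hcl
  have hn1 : 1 ≤ n := by omega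
  have hn0 : (Cb : ℝ) * ((1 + (eta : ℝ))⁻¹) ^ (2 * n + 2) ≤ 4 * eta * P.zl ^ 2 := by
    have h3 : θ ^ (2 * n + 2) ≤ θ ^ N := pow_le_pow_of_le_one hθ0.le hθ1.le (by omega)
    have h4 : (Cb : ℝ) * θ ^ (2 * n + 2) ≤ (Cb + 1) * (4 * eta * P.zl ^ 2 / (Cb + 1)) := by
      refine mul_le_mul (by linarith) (h3.trans hN.le) (by positivity) (by positivity)
    have h5 : ((Cb : ℝ) + 1) * (4 * eta * P.zl ^ 2 / (Cb + 1)) = 4 * eta * P.zl ^ 2 := by
      field_simp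
    linarith
  obtain ⟨h3, h4, h5⟩ := TAIL.main hW heta hcl.z_ge P.zl_pos hcl.z_le F1 F2 F3 (F4 n hn1) hn1 hn0
    hrho hS
  refine ⟨TAIL.TailsB_mono h5 ?_ hθ0.le, ?_, h4⟩
  · have : 0 ≤ ((P.zl : ℝ) ^ 2)⁻¹ := by positivity
    linarith
  · refine le_trans ?_ h3
    have h6 : ((P.zl : ℝ) ^ 2)⁻¹ ≤ Cb + ((P.zl : ℝ) ^ 2)⁻¹ := by
      have : (0 : ℝ) ≤ Cb := Cb.2
      linarith
    have h7 := inv_anti₀ (by positivity) h6
    rwa [inv_inv] at h7

end Pool.Agent.OC
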