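import Pool.Agent.OC.Theta

/-!
# Convex occupation energies (MP_f6626d_co): THFIN, blocks beyond the critical point (helper74)
-/

set_option autoImplicit false

namespace Pool.Agent.OC

open Finset Pool.Agent.Lib27 Pool.Agent.SapR
open Pool.Agent.MG (Bri Brp Irr Nc Fp Fpp Bad SB CC SW dip cc chi rfa)
open scoped NNReal ENNReal

theorem thfin_thm (h1 : LOOP_Stmt) (h2 : FPS_Stmt) (h3 : YFIN_Stmt) : THFIN_Stmt := by
  classical
  intro P R hR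
  obtain ⟨eta, C, r, heta, hetaP, hr, hloop⟩ := h1 P
  obtain ⟨ρ, hρ0, hρ1, hrρ⟩ := THETA.exists_cube hr
  have hR0 : 0 < R := zero_lt_one.trans_le hR
  obtain ⟨K0, hK0⟩ := NNReal.exists_pow_lt_of_lt_one (a := R⁻¹) (by positivity) hρ1
  refine ⟨K0, eta, heta, hetaP, ?_⟩
  intro K1
  have hsub : 0 < 1 - ρ := tsub_pos_of_lt hρ1
  set M : ℝ≥0 := (C * R * (1 - ρ)⁻¹) * (C * R * (1 - ρ)⁻¹) *
    (P.C ^ (3 * K1 + 1) * (chi (P.y1 : ℝ≥0∞)).toNNReal ^ 2 * P.zl⁻¹ ^ 2) with hM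
  refine ⟨M, fun v1 b hCl K hK hK' => ?_⟩
  set z : ℝ≥0∞ := (1 + eta) * zst b with hz
  have hloop' : ∀ d, gs (Wl b z) {l | l ∈ Lp ∧ d ≤ ext l} ≤ (C : ℝ≥0∞) * (ρ : ℝ≥0∞) ^ (3 * d) := by
    intro d
    refine (hloop v1 b hCl z le_rfl d).trans ?_
    have e2 : (r : ℝ≥0∞) ^ d ≤ (ρ : ℝ≥0∞) ^ (3 * d) := by
      rw [pow_mul]
      refine pow_le_pow_left₀ bot_le ?_ d
      exact_mod_cast hrρ
    exact mul_le_mul_right e2 _
  have hRK : (R : ℝ≥0∞) * (ρ : ℝ≥0∞) ^ K ≤ 1 := by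
    have h5 : R * ρ ^ K ≤ 1 := by
      calc R * ρ ^ K ≤ R * R⁻¹ := by
            gcongr
            exact (pow_le_pow_right_of_le_one' hρ1.le hK).trans hK0.le
        _ = 1 := mul_inv_cancel₀ hR0.ne'
    exact_mod_cast h5
  have hsube : (1 - (ρ : ℝ≥0∞))⁻¹ = (((1 - ρ)⁻¹ : ℝ≥0) : ℝ≥0∞) := by
    rw [ENNReal.coe_inv hsub.ne', ENNReal.coe_sub, ENNReal.coe_one]
  have hall : gs (fun l => Wl b z l * (fun d => (R : ℝ≥0∞) ^ ((d + 2 * K) / (3 * K))) (dip l)) Lp ≤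
      ((C * R * (1 - ρ)⁻¹ : ℝ≥0) : ℝ≥0∞) := by
    refine (THETA.all_sum hloop' (by exact_mod_cast hR) hRK (by exact_mod_cast hρ1.le)).trans
      (le_of_eq ?_)
    rw [hsube]
    push_cast
    rfl
  have hzl : (z⁻¹ : ℝ≥0∞) ≤ ((P.zl⁻¹ : ℝ≥0) : ℝ≥0∞) := by
    rw [ENNReal.coe_inv P.zl_pos.ne', ENNReal.inv_le_inv]
    calc (P.zl : ℝ≥0∞) ≤ zst b := hCl.z_ge
      _ = 1 * zst b := (one_mul _).symm
      _ ≤ z := mul_le_mul_left le_self_add _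
  have hzP : z ≤ (1 + P.eta) * zst b := by
    refine mul_le_mul_left ?_ _
    gcongr
  have hC1 : (1 : ℝ≥0∞) ≤ P.C := by exact_mod_cast P.one_le_C
  have hY : ∀ m ≤ 3 * K1, Y b z m ≤
      ((P.C ^ (3 * K1 + 1) * (chi (P.y1 : ℝ≥0∞)).toNNReal ^ 2 * P.zl⁻¹ ^ 2 : ℝ≥0) : ℝ≥0∞) := by
    intro m hm
    refine (h3 P v1 b hCl z hzP m).trans ?_
    rw [ENNReal.coe_mul, ENNReal.coe_mul, ENNReal.coe_pow, ENNReal.coe_pow, ENNReal.coe_pow,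
      ENNReal.coe_toNNReal P.chi_fin]
    refine mul_le_mul' (mul_le_mul_left (pow_le_pow_right₀ hC1 (by omega)) _)
      (pow_le_pow_left₀ bot_le hzl 2)
  have key : ∀ m ≤ 3 * K1, gs (fun p => Wt b z p * (R : ℝ≥0∞) ^ (cc K p.1 + cc K p.2))
      (Fpp m) ≤ M := by
    intro m hm
    have h5 : gs (fun p => Wt b z p * (R : ℝ≥0∞) ^ (cc K p.1 + cc K p.2)) (Fpp m) ≤
        gs (fun p => Wt b z p * ((fun d => (R : ℝ≥0∞) ^ ((d + 2 * K) / (3 * K))) (dip p.1) *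
          (fun d => (R : ℝ≥0∞) ^ ((d + 2 * K) / (3 * K))) (dip p.2))) (Fpp m) := by
      refine gs_le _ _ subset_rfl fun p _ => mul_le_mul_right (le_of_eq ?_) _
      rw [pow_add]
      rfl
    refine (h5.trans (h2 b z hCl.w m (fun d => (R : ℝ≥0∞) ^ ((d + 2 * K) / (3 * K)))
      (fun d => (R : ℝ≥0∞) ^ ((d + 2 * K) / (3 * K))))).trans ?_
    rw [hM, ENNReal.coe_mul, ENNReal.coe_mul (C * R * (1 - ρ)⁻¹)]
    exact mul_le_mul' (mul_le_mul' hall hall) (hY m hm)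
  refine ⟨?_, key⟩
  refine le_trans ?_ (key (3 * K) (by omega))
  unfold theta
  refine gs_le _ _ subset_rfl fun p _ => mul_le_mul_right ?_ _
  calc (R : ℝ≥0∞) ^ (cc K p.1 + cc K p.2) * (if SB K p then (1 : ℝ≥0∞) else (R : ℝ≥0∞)⁻¹)
      ≤ (R : ℝ≥0∞) ^ (cc K p.1 + cc K p.2) * 1 := by
        refine mul_le_mul_right ?_ _
        split_ifs
        · exact le_rfl
        · exact ENNReal.inv_le_one.2 (by exact_mod_cast hR)
    _ = _ := mul_one _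

end Pool.Agent.OC
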