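import Pool.Agent.OC.Stmts2
import Pool.Agent.Lib_helper89.FL.TR

/-!
# Convex occupation energies (MP_f6626d_co): module TRG
-/

set_option autoImplicit false

namespace Pool.Agent.OC

open Finset Pool.Agent.Lib27 Pool.Agent.SapR Pool.Agent.AreaLaw

/-- TRG -/
theorem trg_thm (h1 : K1G_Stmt) : TRG_Stmt := by
  intro μ n hn F
  have h2 : ∑ s ∈ SAP n, F |dbl 0 (List.ofFn s)| (μ.cw (List.ofFn s)) =
      ∑ w ∈ W n, F |dbl 0 w| (μ.cw w) :=
    sum_SAP n (fun w => F |dbl 0 w| (μ.cw w))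
  rw [h2, FL.TR.fam_eq n hn, h1 μ (2 * n - 1) n (by omega) F]
  congr 2
  unfold M41.Om
  rw [sum_sigma]
  apply sum_congr rfl
  intro a _
  rw [sum_sigma]
  apply sum_congr rfl
  intro M _
  rw [sum_product]
  rfl

end Pool.Agent.OC
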