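import Pool.Agent.OC.Stmts
import Pool.Agent.OC.Lib

/-!
# Convex occupation energies (MP_f6626d_co): YFIN, finiteness beyond the critical point (helper74)
-/

set_option autoImplicit false

namespace Pool.Agent.OC.YFIN

open Finset Pool.Agent.Lib27 Pool.Agent.SapR
open Pool.Agent.MG (Bri Brp Irr Nc Fp Fpp Bad SB CC SW dip cc chi rfa)
open scoped NNReal ENNReal

theorem lev_mem_Icc {m : ℕ} {w : Wd} (hw : w ∈ Bri m) {v : ℤ × ℤ} (hv : v ∈ vt 0 w) :
    lev v ∈ Icc (0 : ℤ) m := by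
  have := MG.Bri_lev hw hv
  rw [mem_Icc]
  omega

theorem gs_pow_Brp_le (y : ℝ≥0∞) (m : ℕ) :
    gs (fun p : Wd × Wd => y ^ (p.1.length + p.2.length)) (Brp m) ≤ chi y ^ 2 := by
  have h1 : gs (fun p : Wd × Wd => y ^ (p.1.length + p.2.length)) (Brp m) ≤
      gs (fun p : Wd × Wd => y ^ p.1.length * y ^ p.2.length) (SW ×ˢ SW) := by
    refine gs_le _ _ (fun p hp => ⟨MG.Bri_sub_SW m hp.1, MG.Bri_sub_SW m hp.2⟩) fun p _ => ?_
    rw [pow_add]
  refine h1.trans (le_of_eq ?_)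
  rw [gs_prod (fun w : Wd => y ^ w.length) (fun w : Wd => y ^ w.length) SW SW, sq]
  rfl

end Pool.Agent.OC.YFIN

namespace Pool.Agent.OC

open Finset Pool.Agent.Lib27 Pool.Agent.SapR
open Pool.Agent.MG (Bri Brp Irr Nc Fp Fpp Bad SB CC SW dip cc chi rfa)
open scoped NNReal ENNReal

theorem yfin_thm : YFIN_Stmt := by
  intro P v1 b hCl z hz m
  have hW := hCl.w
  have hd : ∀ v, z ^ v * (b v : ℝ≥0∞) ≤ P.C * (P.y : ℝ≥0∞) ^ v := fun v =>
    (mul_le_mul_left (pow_le_pow_left₀ bot_le hz v) _).trans (hCl.dom v)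
  have hC0 : (P.C : ℝ≥0∞) ≠ 0 := by
    have h1 : (1 : ℝ≥0∞) ≤ P.C := by exact_mod_cast P.one_le_C
    exact (zero_lt_one.trans_le h1).ne'
  have hchi0 : chi (P.y1 : ℝ≥0∞) ≠ 0 := (zero_lt_one.trans_le (MG.one_le_chi _)).ne'
  have hy : (P.y : ℝ≥0∞) ≤ P.y1 := by exact_mod_cast P.y_lt.le
  have hy1 : (P.y1 : ℝ≥0∞) ≤ 1 := by exact_mod_cast P.y1_lt.le
  have key : z ^ 2 * Y b z m ≤ (P.C : ℝ≥0∞) ^ (m + 1) * chi P.y1 ^ 2 := by
    unfold Y
    rw [← gs_mul_left]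
    have h1 : gs (fun p => z ^ 2 * Wp b z p) (Brp m) ≤
        gs (fun p : Wd × Wd => (P.C : ℝ≥0∞) ^ (m + 1) *
          (P.y1 : ℝ≥0∞) ^ (p.1.length + p.2.length)) (Brp m) := by
      refine gs_le _ _ subset_rfl fun p hp => ?_
      have h2 := dom_pair hW hd p (Icc (0 : ℤ) m) (fun v hv => YFIN.lev_mem_Icc hp.1 hv)
        (fun v hv => YFIN.lev_mem_Icc hp.2 hv)
      rw [Int.card_Icc, show ((m : ℤ) + 1 - 0).toNat = m + 1 by omega] at h2
      refine h2.trans (mul_le_mul_right ?_ _)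
      calc (P.y : ℝ≥0∞) ^ (p.1.length + p.2.length + 2)
          ≤ (P.y1 : ℝ≥0∞) ^ (p.1.length + p.2.length + 2) := pow_le_pow_left₀ bot_le hy _
        _ ≤ (P.y1 : ℝ≥0∞) ^ (p.1.length + p.2.length) :=
            pow_le_pow_right_of_le_one' hy1 (by omega)
    refine h1.trans ?_
    rw [gs_mul_left]
    exact mul_le_mul_right (YFIN.gs_pow_Brp_le _ m) _
  rcases eq_or_ne z 0 with rfl | hz0
  · rw [ENNReal.inv_zero, ENNReal.top_pow (by norm_num), ENNReal.mul_top]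
    · exact le_top
    · exact mul_ne_zero (pow_ne_zero _ hC0) (pow_ne_zero _ hchi0)
  · have hzt : z ≠ ∞ := by
      refine ne_top_of_le_ne_top ?_ hz
      refine ENNReal.mul_ne_top (by simp) ?_
      exact ne_top_of_le_ne_top (by simp) hCl.z_le
    rw [← ENNReal.inv_pow]
    calc Y b z m = z ^ 2 * Y b z m * (z ^ 2)⁻¹ := by
          rw [mul_comm (z ^ 2), mul_assoc, ENNReal.mul_inv_cancel (pow_ne_zero _ hz0)
            (ENNReal.pow_ne_top hzt), mul_one]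
      _ ≤ _ := mul_le_mul_left key _

end Pool.Agent.OC
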