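import Pool.Agent.OC.Stmts
import Pool.Agent.OC.Lib

/-!
# Convex occupation energies (MP_f6626d_co): ZST, the critical point (helper33)
-/

set_option autoImplicit false

namespace Pool.Agent.OC

open Finset Pool.Agent.Lib27 Pool.Agent.SapR
open Pool.Agent.MG (Bri Brp Irr Nc Fp Fpp Bad SB CC SW dip cc chi rfa)
open scoped NNReal ENNReal

namespace ZST

/-- the generating function of the pairs is at most the square of the one of the bridges -/
theorem Y_le_sq (b : ℕ → ℝ≥0) (z : ℝ≥0∞) (m : ℕ) : Y b z m ≤ MG.gw z (Bri m) * MG.gw z (Bri m) := by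
  have h1 : MG.gw z (Bri m) = gs (fun w : Wd => z ^ w.length) (Bri m) := rfl
  rw [h1, ← gs_prod]
  unfold Y
  refine gs_le _ _ subset_rfl fun p _ => ?_
  unfold Wp
  rw [← pow_add]
  exact mul_le_of_le_one_right bot_le (BW_le_one b _)

theorem mem0 : ([0] : Wd) ∈ Bri 1 := by
  refine ⟨?_, rfl, ?_⟩
  · show (vt 0 ([0] : Wd)).Nodup
    decide
  · intro p hp
    simp at hp

theorem mem1 : ([1] : Wd) ∈ Bri 1 := by
  refine ⟨?_, rfl, ?_⟩
  · show (vt 0 ([1] : Wd)).Nodup
    decide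
  · intro p hp
    simp at hp

theorem occ_one {w : Wd} (hw : w ∈ Bri 1) (k : ℤ) : occ w k ≤ 1 := by
  rcases lt_trichotomy k 0 with h | h | h
  · rw [occ_Bri_out hw (Or.inl h)]; omega
  · rw [h, occ_Bri_zero hw]
  · rcases (show (1 : ℤ) ≤ k from h).eq_or_lt with h1 | h1
    · have := occ_Bri_top hw
      rw [← h1]
      exact_mod_cast this.le
    · rw [occ_Bri_out hw (Or.inr (by exact_mod_cast h1))]; omega

theorem Wp_one {b : ℕ → ℝ≥0} (h : IsW b) (z : ℝ≥0∞) {p : Wd × Wd} (hp : p ∈ Brp 1)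
    (h1 : p.1.length = 1) (h2 : p.2.length = 1) : Wp b z p = z ^ 2 := by
  unfold Wp
  rw [h1, h2, BW_one h, mul_one]
  intro k
  have e1 := occ_one hp.1 k
  have e2 := occ_one hp.2 k
  omega

theorem four_le {b : ℕ → ℝ≥0} (h : IsW b) (z : ℝ≥0∞) : 4 * z ^ 2 ≤ Y b z 1 := by
  have h1 := sum_le_gs (Wp b z) (S := Brp 1)
    (({[0], [1]} : Finset Wd) ×ˢ ({[0], [1]} : Finset Wd)) (by
      rintro ⟨u, v⟩ huv
      simp only [coe_product, coe_insert, coe_singleton, Set.mem_prod, Set.mem_insert_iff,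
        Set.mem_singleton_iff] at huv
      obtain ⟨hu, hv⟩ := huv
      refine ⟨?_, ?_⟩
      · rcases hu with rfl | rfl
        · exact mem0
        · exact mem1
      · rcases hv with rfl | rfl
        · exact mem0
        · exact mem1)
  refine le_trans (le_of_eq ?_) h1
  rw [sum_congr rfl (g := fun _ => z ^ 2)]
  · rw [sum_const, card_product, nsmul_eq_mul]
    have : (({[0], [1]} : Finset Wd)).card = 2 := by decide
    rw [this]
    norm_num
  · rintro ⟨u, v⟩ huv
    simp only [mem_product, mem_insert, mem_singleton] at huv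
    obtain ⟨hu, hv⟩ := huv
    refine Wp_one h z ⟨?_, ?_⟩ ?_ ?_
    · rcases hu with rfl | rfl
      · exact mem0
      · exact mem1
    · rcases hv with rfl | rfl
      · exact mem0
      · exact mem1
    · rcases hu with rfl | rfl <;> rfl
    · rcases hv with rfl | rfl <;> rfl

theorem le_half {b : ℕ → ℝ≥0} (h : IsW b) {z : ℝ≥0∞} (hz : ∀ m, Y b z m ≤ 1) : z ≤ 2⁻¹ := by
  have h1 : (2 * z) ^ 2 ≤ 1 ^ 2 := by
    rw [mul_pow, one_pow]
    refine le_trans (le_of_eq ?_) ((four_le h z).trans (hz 1))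
    norm_num
  have h2 : 2 * z ≤ 1 := by
    by_contra hcon
    push Not at hcon
    have h3 : (1 : ℝ≥0∞) < (2 * z) ^ 2 := one_lt_pow₀ hcon (by norm_num)
    rw [one_pow] at h1
    exact absurd h1 (not_le.2 h3)
  rw [ENNReal.le_inv_iff_mul_le, mul_comm]
  exact h2

theorem Y_eq (b : ℕ → ℝ≥0) (z : ℝ≥0∞) (m : ℕ) : Y b z m =
    ∑' p : Brp m, BW b (fun k => occ (p : Wd × Wd).1 k + occ (p : Wd × Wd).2 k) *
      z ^ ((p : Wd × Wd).1.length + (p : Wd × Wd).2.length) := by
  unfold Y gs Wp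
  refine tsum_congr fun p => ?_
  rw [mul_comm]

end ZST

open ZST in
/-- ZST : elementary properties of the critical point -/
theorem zst_thm : ZST_Stmt := by
  obtain ⟨x, hx⟩ := MG.exists_crit (q := 1 / 2) (by norm_num) (by norm_num)
  refine ⟨⟨x, hx.x_pos.le⟩, hx.x_pos, ?_⟩
  intro b hb
  have hmem : ∀ m, Y b (ENNReal.ofReal x) m ≤ 1 := by
    intro m
    have h1 : MG.gw (ENNReal.ofReal x) (Bri m) ≤ 1 := by
      refine (hx.upper m).trans ?_
      rw [← ENNReal.ofReal_one]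
      exact ENNReal.ofReal_le_ofReal (pow_le_one₀ (by norm_num) (by norm_num))
    calc Y b (ENNReal.ofReal x) m ≤ _ := Y_le_sq b _ m
      _ ≤ 1 * 1 := mul_le_mul' h1 h1
      _ = 1 := one_mul 1
  have hle : ENNReal.ofReal x ≤ zst b := le_sSup hmem
  have hpos : 0 < zst b := lt_of_lt_of_le (ENNReal.ofReal_pos.2 hx.x_pos) hle
  refine ⟨?_, ?_, ?_, ?_⟩
  · exact le_trans (le_of_eq (ENNReal.ofReal_eq_coe_nnreal hx.x_pos.le).symm) hle
  · exact sSup_le fun z hz => le_half hb hz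
  · intro m
    rw [Y_eq]
    refine MG.tsum_pow_left _ _ hpos.ne' ?_
    intro y hy
    rw [← Y_eq b y m]
    obtain ⟨z, hz, hyz⟩ := lt_sSup_iff.1 hy
    exact (Y_mono hyz.le m).trans (hz m)
  · intro z hz
    by_contra hcon
    push Not at hcon
    exact absurd (le_sSup (show z ∈ {z | ∀ m, Y b z m ≤ 1} from hcon)) (not_le.2 hz)

end Pool.Agent.OC
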