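import Pool.Agent.Lib_helper89.FL.Main
import Pool.Agent.OC.Zst
import Pool.Agent.OC.Dom
import Pool.Agent.OC.High
import Pool.Agent.OC.Cls
import Pool.Agent.OC.Comb
import Pool.Agent.OC.InsA
import Pool.Agent.OC.InsB
import Pool.Agent.OC.InsC
import Pool.Agent.OC.InsP
import Pool.Agent.OC.AbsX
import Pool.Agent.OC.Hold
import Pool.Agent.OC.InsM
import Pool.Agent.OC.Mono0
import Pool.Agent.OC.Mono
import Pool.Agent.OC.Arc1
import Pool.Agent.OC.Arc
import Pool.Agent.OC.LpA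
import Pool.Agent.OC.LpB
import Pool.Agent.OC.LpC
import Pool.Agent.OC.LpF
import Pool.Agent.OC.LpE
import Pool.Agent.OC.LpD
import Pool.Agent.OC.Loop
import Pool.Agent.OC.Nsm
import Pool.Agent.OC.Yfin
import Pool.Agent.OC.Low
import Pool.Agent.OC.Yeps
import Pool.Agent.OC.RenL
import Pool.Agent.OC.RenU
import Pool.Agent.OC.Mean
import Pool.Agent.OC.Scale
import Pool.Agent.OC.Blk
import Pool.Agent.OC.Irr
import Pool.Agent.OC.Fps
import Pool.Agent.OC.Fpl
import Pool.Agent.OC.Theta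
import Pool.Agent.OC.ThFin
import Pool.Agent.OC.Gap
import Pool.Agent.OC.Ncb
import Pool.Agent.OC.Free
import Pool.Agent.OC.CapC
import Pool.Agent.OC.PolyR
import Pool.Agent.OC.PolyC
import Pool.Agent.OC.Bey
import Pool.Agent.OC.Tail
import Pool.Agent.OC.Kwg
import Pool.Agent.OC.Nearg
import Pool.Agent.OC.K1g
import Pool.Agent.OC.Trg
import Pool.Agent.OC.RepA
import Pool.Agent.OC.RepB
import Pool.Agent.OC.RepC
import Pool.Agent.OC.Rep
import Pool.Agent.OC.DatM
import Pool.Agent.OC.Cdf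
import Pool.Agent.OC.SeqM
import Pool.Agent.OC.Conv
import Pool.Agent.OC.Diag
import Pool.Agent.OC.Nar
import Pool.Agent.OC.NarC
import Pool.Agent.OC.Pow
import Pool.Agent.OC.For
import Pool.Agent.OC.Stc
import Pool.Agent.OC.Fin

/-!
# Convex occupation energies (MP_f6626d_co): assembly
-/

set_option autoImplicit false

namespace Pool.Agent.OC

/-- the universal law of the landed force theorem -/
theorem gfin_stmt : FL.GFIN_Stmt := by
  have hC2 : FL.GC2_Stmt := FL.gc2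
  have hC : FL.GC_Stmt := FL.GC.gc hC2
  have hRE : FL.GRE_Stmt := FL.gre hC
  have hSUP : FL.GSUP_Stmt := FL.gsup hC hRE
  have hW : FL.GW_Stmt := FL.gw hC hSUP
  have hJ2 : FL.GJ2_Stmt := FL.GJ2.gj2 hC2 hC hRE hSUP hW
  have hM2 : FL.GM2_Stmt := FL.gm2 hC2 hRE hSUP hW
  have hV : FL.GV_Stmt := FL.gv hRE hSUP
  obtain ⟨oLT, oLT1, oM2, oBAL, oST, oSUP, oW⟩ := FL.old_gap
  have hE : FL.GE_Stmt := FL.ge hRE hSUP hW hV FL.gvl oST FL.geb oSUP oW
  have hLT : FL.GLT_Stmt := FL.glt hE hJ2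
  exact FL.GFIN.gfin hLT hM2 oLT oLT1 oM2 oBAL

/-- the tails -/
theorem tail_stmt : TAIL_Stmt := by
  have hZST : ZST_Stmt := zst_thm
  have hCLS : CLS_Stmt := cls_thm hZST (dom_thm hZST) high_thm
  have hINSP : INSP_Stmt := insp_thm comb_thm insa_thm insb_thm insc_thm
  have hMONO0 : MONO0_Stmt := mono0_thm (insm_thm hINSP) abs_thm'
  have hMONO : MONO_Stmt := mono_thm hMONO0 hold_thm yfin_thm
  have hARC : ARC_Stmt := arc_thm arc1_thm hMONO
  have hLPF : LPF_Stmt := lpf_thm lpa_thm lpb_thm lpc_thm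
  have hLOOP : LOOP_Stmt := loop_thm hARC hLPF lpe_thm lpd_thm
  have hLOW : LOW_Stmt := low_thm hLOOP nsm_thm yfin_thm
  have hYEPS : YEPS_Stmt := yeps_thm yfin_thm hold_thm
  have hMEAN : MEAN_Stmt := mean_thm renl_thm renu_thm hLOW
  have hSCALE : SCALE_Stmt := scale_thm renu_thm hMEAN
  have hTHETA : THETA_Stmt := theta_thm hLOOP hSCALE fps_thm fpl_thm
  have hTHFIN : THFIN_Stmt := thfin_thm hLOOP fps_thm yfin_thm
  have hGAP : GAP_Stmt := gap_thm hTHETA hTHFIN (irr_thm blk_thm)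
  have hNCB : NCB_Stmt := ncb_thm renu_thm hGAP hYEPS
  have hBEY : BEY_Stmt := bey_thm hMEAN hGAP hARC hNCB free_thm capc_thm (polyc_thm polyr_thm)
  exact tail_thm hCLS hBEY

/-- the final theorem -/
theorem main : FINAL_Stmt := by
  have hREP : REP_Stmt := rep_thm repa_thm repb_thm repc_thm
  have hDATM : DATM_Stmt := datm_thm tail_stmt kwg_thm repb_thm
  have hCDF : CDF_Stmt := cdf_thm (trg_thm k1g_thm)
  have hSEQM : SEQM_Stmt := seqm_thm nearg_thm
  have hCONV : CONV_Stmt := conv_thm hREP hDATM hCDF hSEQM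
  exact fin_thm gfin_stmt hCONV diag_thm nar_thm narc_thm pow_thm for_thm stc_thm

end Pool.Agent.OC
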