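import Pool.Agent.OC.Defs

/-!
# Convex occupation energies (MP_f6626d_co): statements of the modules, part 1 (mass gap)
-/

set_option autoImplicit false

namespace Pool.Agent.OC

open Finset Pool.Agent.Lib27 Pool.Agent.SapR
open Pool.Agent.MG (Bri Brp Irr Nc Fp Fpp Bad SB CC SW dip cc chi rfa)
open scoped NNReal ENNReal

/-- the weight `c` is nontrivial -/
def NT (c : ℕ → ℝ≥0) : Prop := IsW c ∧ ∃ v, c v < 1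

/-! ### A. the critical point and the uniform class -/

/-- ZST : elementary properties of the critical point. -/
def ZST_Stmt : Prop := ∃ zl : ℝ≥0, 0 < zl ∧ ∀ b, IsW b → (zl : ℝ≥0∞) ≤ zst b ∧ zst b ≤ 2⁻¹ ∧
  (∀ m, Y b (zst b) m ≤ 1) ∧ ∀ z, zst b < z → ∃ m, 1 < Y b z m

/-- DOM : linear domination (from ZST). -/
def DOM_Stmt : Prop := ∀ c, NT c → ∃ C y y1 eta : ℝ≥0, 1 ≤ C ∧ 0 < y ∧ y < y1 ∧ y1 < 1 ∧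
  chi (y1 : ℝ≥0∞) ≠ ∞ ∧ 0 < eta ∧ eta ≤ 1 ∧ ∀ b, IsW b → (∀ v, b v ≤ c v) →
    ∀ v, ((1 + (eta : ℝ≥0∞)) * zst b) ^ v * (b v : ℝ≥0∞) ≤ C * (y : ℝ≥0∞) ^ v

/-- HIGH : the threshold of the high levels. -/
def HIGH_Stmt : Prop := ∀ c, NT c → ∃ (q kap : ℝ≥0) (V : ℕ), 0 < q ∧ q < 1 ∧ 0 < kap ∧ kap ≤ 1 ∧
  2 ≤ V ∧ ∀ b, IsW b → (∀ v, b v ≤ c v) → ∃ v1, 2 ≤ v1 ∧ v1 ≤ V ∧
    (∀ v, v1 ≤ v → b (v + 2) ≤ q * b v) ∧ (v1 = 2 ∨ kap ≤ b (v1 + 1))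

/-- CLS : the weights below a nontrivial weight form a uniform class (from ZST, DOM, HIGH). -/
def CLS_Stmt : Prop := ∀ c, NT c → ∃ P : Par, ∀ b, IsW b → (∀ v, b v ≤ c v) → ∃ v1, Cl P v1 b

/-! ### B. insertion of levels, strict monotonicity -/

/-- COMB : the combs. -/
def COMB_Stmt : Prop := ∀ w L j : ℕ, 2 * j ≤ L → 2 * L + 2 ≤ w →
  Seg w (comb w L j) ∧ (comb w L j).length = w + 2 * j * L ∧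
  (∀ k : ℤ, occ (comb w L j) k ≤ 2 * j + 1) ∧ occ (comb w L j) ((L : ℤ) + 1) = 2 * j + 1 ∧
  (∀ v ∈ vt 0 (comb w L 0), v.2 = 0)

/-- INSA : the insertion can be undone. -/
def INSA_Stmt : Prop := ∀ (h : ℤ) (w : ℕ) (seg : ℤ → Wd), 0 < h → (∀ y, Seg w (seg y)) →
  ∀ A : Wd, del h w 0 (ins h seg false 0 A) = A

/-- INSB : the new word is a bridge. -/
def INSB_Stmt : Prop := ∀ (m h w : ℕ) (seg : ℤ → Wd) (yy : ℤ) (A : Wd), 0 < h → h < m →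
  A ∈ Bri m → (∀ y, Seg w (seg y)) → (∀ y, y ≠ yy → ∀ v ∈ vt 0 (seg y), v.2 = 0) →
  (∀ p ∈ pas h false 0 A, p.2 ≤ yy) → ins h seg false 0 A ∈ Bri (m + w)

/-- INSC : lengths and occupations of the new word. -/
def INSC_Stmt : Prop := ∀ (m h w : ℕ) (seg : ℤ → Wd) (A : Wd), 0 < h → h < m →
  A ∈ Bri m → (∀ y, Seg w (seg y)) →
  (ins h seg false 0 A).length = A.length + ((pas h false 0 A).map (fun p => (seg p.2).length)).sum ∧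
  (∀ k : ℤ, k < h → occ (ins h seg false 0 A) k = occ A k) ∧
  (∀ k : ℤ, h < k → occ (ins h seg false 0 A) (k + w) = occ A k) ∧
  occ (ins h seg false 0 A) h ≤ occ A h ∧ occ (ins h seg false 0 A) ((h : ℤ) + w) ≤ occ A h ∧
  (∀ k : ℤ, h < k → k < h + w → occ (ins h seg false 0 A) k =
    ((pas h false 0 A).map (fun p => occ (seg p.2) (k - h))).sum) ∧
  1 ≤ (pas h false 0 A).length ∧ (pas h false 0 A).length ≤ occ A h ∧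
  ((pas h false 0 A).map Prod.snd).Nodup

/-- INSP : insertion at one level which is not high, for pairs of bridges
(from COMB, INSA, INSB, INSC). -/
def INSP_Stmt : Prop := ∀ V : ℕ, 2 ≤ V → ∃ w a lam : ℕ, 0 < a ∧ a < w ∧ ∀ v1 : ℕ, 2 ≤ v1 →
  v1 ≤ V → ∃ f : ℕ → Wd × Wd → Wd × Wd,
  (∀ (m h : ℕ) (p : Wd × Wd), p ∈ Brp m → 0 < h → h < m → occ p.1 h + occ p.2 h < v1 →
    f h p ∈ Brp (m + w) ∧
    p.1.length + p.2.length ≤ (f h p).1.length + (f h p).2.length ∧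
    (f h p).1.length + (f h p).2.length ≤ p.1.length + p.2.length + lam ∧
    (∀ k : ℤ, k < h → occ (f h p).1 k + occ (f h p).2 k = occ p.1 k + occ p.2 k) ∧
    (∀ k : ℤ, h < k → occ (f h p).1 (k + w) + occ (f h p).2 (k + w) = occ p.1 k + occ p.2 k) ∧
    occ (f h p).1 h + occ (f h p).2 h ≤ occ p.1 h + occ p.2 h ∧
    occ (f h p).1 ((h : ℤ) + w) + occ (f h p).2 ((h : ℤ) + w) ≤ occ p.1 h + occ p.2 h ∧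
    (∀ k : ℤ, h < k → k < h + w → occ (f h p).1 k + occ (f h p).2 k ≤ v1 + 1) ∧
    v1 ≤ occ (f h p).1 ((h : ℤ) + a) + occ (f h p).2 ((h : ℤ) + a)) ∧
  ∀ m h : ℕ, 0 < h → h < m →
    Set.InjOn (f h) {p | p ∈ Brp m ∧ occ p.1 h + occ p.2 h < v1}

/-- ABS : abstract insertion principle. -/
def ABS_Stmt : Prop := ∀ (α : Type) (X : ℕ → Set α) (H : α → Finset ℕ) (W : α → ℝ≥0∞)
  (f : ℕ → α → α) (w a : ℕ) (q lam Θ : ℝ≥0), 0 < a → a < w → 0 < q → q ≤ 1 →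
  q * (1 + lam * Θ * (q⁻¹) ^ w) ≤ 1 →
  (∀ M, ∀ x ∈ X M, ∀ k ∈ H x, 0 < k ∧ k < M) →
  (∀ M h, ∀ x ∈ X M, 0 < h → h < M → h ∉ H x →
    f h x ∈ X (M + w) ∧ W x ≤ Θ * W (f h x) ∧ (H (f h x)).card ≤ (H x).card + w ∧
    h + a ∈ H (f h x) ∧ (∀ k, k < h → (k ∈ H (f h x) ↔ k ∈ H x)) ∧
    (∀ k ∈ H x, h < k → k + w ∈ H (f h x))) →
  (∀ M h, 0 < h → h < M → Set.InjOn (f h) {x | x ∈ X M ∧ h ∉ H x}) →
  ∀ m, 1 ≤ m → (1 + (lam : ℝ≥0∞)) ^ (m - 1) *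
      gs (fun x => W x * ((q : ℝ≥0∞) / (1 + lam)) ^ (H x).card) (X m) ≤
    ∑ n ∈ range m, gs W (X (m + w * n))

/-- HOLD : Hoelder's inequality for power series. -/
def HOLD_Stmt : Prop := ∀ (α : Type) (c : α → ℝ≥0∞) (n : α → ℕ) (x y : ℝ≥0∞) (t : ℝ),
  0 < t → t < 1 → x ≠ ∞ → y ≠ ∞ →
  ∑' a, c a * (x ^ (1 - t) * y ^ t) ^ n a ≤
    (∑' a, c a * x ^ n a) ^ (1 - t) * (∑' a, c a * y ^ n a) ^ t

/-- the high levels of a pair of bridges -/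
def Hs (v1 : ℕ) (p : Wd × Wd) : Finset ℕ :=
  (Ioo 0 (lev (ep 0 p.1)).toNat).filter (fun k : ℕ => v1 ≤ occ p.1 k + occ p.2 k)

/-- INSM : the hypotheses of ABS for pairs of bridges at the critical point (from INSP). -/
def INSM_Stmt : Prop := ∀ P : Par, ∃ (w a : ℕ) (Θ : ℝ≥0), 0 < a ∧ a < w ∧
  ∀ (v1 : ℕ) (b : ℕ → ℝ≥0), Cl P v1 b → 3 ≤ v1 → ∃ f : ℕ → Wd × Wd → Wd × Wd,
  (∀ M h, ∀ x ∈ Brp M, 0 < h → h < M → h ∉ Hs v1 x →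
    f h x ∈ Brp (M + w) ∧ Wp b (zst b) x ≤ Θ * Wp b (zst b) (f h x) ∧
    (Hs v1 (f h x)).card ≤ (Hs v1 x).card + w ∧ h + a ∈ Hs v1 (f h x) ∧
    (∀ k, k < h → (k ∈ Hs v1 (f h x) ↔ k ∈ Hs v1 x)) ∧
    (∀ k ∈ Hs v1 x, h < k → k + w ∈ Hs v1 (f h x))) ∧
  (∀ M h, 0 < h → h < M → Set.InjOn (f h) {x | x ∈ Brp M ∧ h ∉ Hs v1 x})

/-- MONO0 : strict monotonicity at the critical point (from INSM, ABS). -/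
def MONO0_Stmt : Prop := ∀ P : Par, ∃ C r : ℝ≥0, r < 1 ∧ ∀ (v1 : ℕ) (b : ℕ → ℝ≥0), Cl P v1 b →
  ∀ m, Yq b P.q v1 (zst b) m ≤ C * (r : ℝ≥0∞) ^ m

/-- MONO : strict monotonicity, also beyond the critical point (from MONO0, HOLD, YFIN). -/
def MONO_Stmt : Prop := ∀ P : Par, ∃ eta C r : ℝ≥0, 0 < eta ∧ eta ≤ P.eta ∧ r < 1 ∧
  ∀ (v1 : ℕ) (b : ℕ → ℝ≥0), Cl P v1 b → ∀ z : ℝ≥0∞, z ≤ (1 + eta) * zst b →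
    ∀ m, Yq b P.q v1 z m ≤ C * (r : ℝ≥0∞) ^ m

/-! ### C. half loops and loops -/

/-- ARC1 : half loops are pairs of bridges. -/
def ARC1_Stmt : Prop := ∀ (b : ℕ → ℝ≥0) (q : ℝ≥0) (v1 : ℕ) (z : ℝ≥0∞), IsW b → 0 < q → q ≤ 1 →
  2 ≤ v1 → (∀ v, v1 ≤ v → b (v + 2) ≤ q * b v) →
  ∀ d, z ^ 4 * q ^ 2 * gs (Wh b z) (Hl d) ≤ Yq b q v1 z (d + 2)

/-- ARC : half loops are exponentially small (from ARC1, MONO). -/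
def ARC_Stmt : Prop := ∀ P : Par, ∃ eta C r : ℝ≥0, 0 < eta ∧ eta ≤ P.eta ∧ r < 1 ∧
  ∀ (v1 : ℕ) (b : ℕ → ℝ≥0), Cl P v1 b → ∀ z : ℝ≥0∞, z ≤ (1 + eta) * zst b →
    ∀ d, gs (Wh b z) (Hl d) ≤ C * (r : ℝ≥0∞) ^ d

/-- LPA : one more visit of the levels `g`, `-g'`. -/
def LPA_Stmt : Prop := ∀ (b : ℕ → ℝ≥0) (z y : ℝ≥0∞), IsW b → ∀ g g' i : ℕ, 1 ≤ g → 1 ≤ g' →
  1 ≤ i → gs (Wg b z y g g') (SG g g' (i + 1)) ≤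
    gs (Wg b z y g g') (SG g g' i) * (chi y + 2 * ∑' d, gs (Wh b z) (Hl d))

/-- LPB : first visit of the levels `g`, `-g'`. -/
def LPB_Stmt : Prop := ∀ (b : ℕ → ℝ≥0) (z y : ℝ≥0∞), IsW b → ∀ g g' : ℕ, 1 ≤ g → 1 ≤ g' →
  gs (Wg b z y g g') (SG g g' 1) ≤ chi y

/-- LPC : loops with few visits of the levels `g`, `-g'` are cut around the first visit of the top
level. -/
def LPC_Stmt : Prop := ∀ (b : ℕ → ℝ≥0) (z y : ℝ≥0∞), IsW b → ∀ g g' d kap : ℕ, 1 ≤ g → 1 ≤ g' →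
  g < d → gs (Wg b z y g g') {l | l ∈ Lp ∧ FL.hgt l = d ∧ cut2 g g' l ≤ kap} ≤
    ∑ i ∈ Icc 1 kap, ∑ j ∈ Icc 1 kap,
      gs (Wg b z y g g') (SG g g' i) * gs (Wg b z y g g') (SG g g' j) * gs (Wh b z) (Hl (d - g))

/-- LPF : loops with few visits of the levels `g`, `-g'` (from LPA, LPB, LPC). -/
def LPF_Stmt : Prop := ∀ (b : ℕ → ℝ≥0) (z y : ℝ≥0∞), IsW b → ∀ g g' d kap : ℕ, 1 ≤ g → 1 ≤ g' →
  g < d → gs (Wg b z y g g') {l | l ∈ Lp ∧ FL.hgt l = d ∧ cut2 g g' l ≤ kap} ≤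
    kap ^ 2 * (chi y + 2 * ∑' e, gs (Wh b z) (Hl e)) ^ (2 * kap) * gs (Wh b z) (Hl (d - g))

/-- LPE : linear domination inside the strip. -/
def LPE_Stmt : Prop := ∀ (b : ℕ → ℝ≥0) (z y C : ℝ≥0∞), IsW b → z ≤ 1 → y ≤ 1 →
  (∀ v, z ^ v * (b v : ℝ≥0∞) ≤ C * y ^ v) → ∀ (g g' r : ℕ) (l : Wd), 1 ≤ g → 1 ≤ g' → l ∈ Lp →
  cut2 g g' l ≤ r → z ^ (r + 1) * Wl b z l ≤ C ^ (g + g' + 1) * Wg b z y g g' l

/-- LPD : long loops of bounded extension. -/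
def LPD_Stmt : Prop := ∀ (P : Par) (v1 : ℕ) (b : ℕ → ℝ≥0), Cl P v1 b → ∀ z : ℝ≥0∞,
  z ≤ (1 + P.eta) * zst b → ∀ d N : ℕ,
  z * gs (Wl b z) {l | l ∈ Lp ∧ ext l ≤ d ∧ N ≤ l.length} ≤
    (P.C : ℝ≥0∞) ^ (2 * d + 1) * ((P.y : ℝ≥0∞) / P.y1) ^ N * chi P.y1

/-- LOOP : loops are exponentially small (from ARC, LPF, LPD, LPE). -/
def LOOP_Stmt : Prop := ∀ P : Par, ∃ eta C r : ℝ≥0, 0 < eta ∧ eta ≤ P.eta ∧ r < 1 ∧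
  ∀ (v1 : ℕ) (b : ℕ → ℝ≥0), Cl P v1 b → ∀ z : ℝ≥0∞, z ≤ (1 + eta) * zst b →
    ∀ d, gs (Wl b z) {l | l ∈ Lp ∧ d ≤ ext l} ≤ C * (r : ℝ≥0∞) ^ d

/-! ### D. lower bound, renewal -/

/-- NSM : super- and submultiplicativity. -/
def NSM_Stmt : Prop := ∀ (b : ℕ → ℝ≥0) (z : ℝ≥0∞), IsW b → ∀ m m' : ℕ,
  Y b z m * Y b z m' ≤ Y b z (m + m') ∧ Y b z (m + m') ≤ Y b z m * gs (Wl b z) Lp ^ 2 * Y b z m'

/-- YFIN : finiteness up to `(1 + eta) zst`. -/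
def YFIN_Stmt : Prop := ∀ (P : Par) (v1 : ℕ) (b : ℕ → ℝ≥0), Cl P v1 b → ∀ z : ℝ≥0∞,
  z ≤ (1 + P.eta) * zst b → ∀ m, Y b z m ≤ (P.C : ℝ≥0∞) ^ (m + 1) * chi P.y1 ^ 2 * (z⁻¹) ^ 2

/-- LOW : lower bound at the critical point (from LOOP, NSM, YFIN). -/
def LOW_Stmt : Prop := ∀ P : Par, ∃ c0 : ℝ≥0, 0 < c0 ∧ ∀ (v1 : ℕ) (b : ℕ → ℝ≥0), Cl P v1 b →
  ∀ m, (c0 : ℝ≥0∞) ≤ Y b (zst b) m

/-- YEPS : beyond the critical point (from YFIN, HOLD). -/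
def YEPS_Stmt : Prop := ∀ (P : Par) (A : ℝ≥0), 1 < A → ∃ eta C : ℝ≥0, 0 < eta ∧ eta ≤ P.eta ∧
  ∀ (v1 : ℕ) (b : ℕ → ℝ≥0), Cl P v1 b → ∀ z : ℝ≥0∞, z ≤ (1 + eta) * zst b →
    ∀ m, Y b z m ≤ C * (A : ℝ≥0∞) ^ m

/-- RENL : lower renewal inequality around the level `t`. -/
def RENL_Stmt : Prop := ∀ (b : ℕ → ℝ≥0) (z : ℝ≥0∞), IsW b → ∀ (t M : ℕ) (s : Finset (ℕ × ℕ)),
  (∀ i ∈ s, i.1 ≤ t ∧ t < i.1 + i.2 ∧ i.1 + i.2 ≤ M) →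
  ∑ i ∈ s, Y b z i.1 * ww b z i.2 * Y b z (M - (i.1 + i.2)) ≤ Y b z M

/-- RENU : upper renewal inequality. -/
def RENU_Stmt : Prop := ∀ (b : ℕ → ℝ≥0) (z : ℝ≥0∞), IsW b → ∀ A B L : ℕ, A < B → B ≤ L →
  gs (Wp b z) (Nc A B L) ≤ ∑ i ∈ (range (A + 1) ×ˢ range (L + 1)).filter
    (fun i => B ≤ i.1 + i.2 ∧ i.1 + i.2 ≤ L), Y b z i.1 * ww b z i.2 * Y b z (L - (i.1 + i.2))

/-- MEAN : the renewal equation at the critical point (from RENL, RENU, LOW). -/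
def MEAN_Stmt : Prop := ∀ P : Par, ∃ M : ℝ≥0, ∀ (v1 : ℕ) (b : ℕ → ℝ≥0), Cl P v1 b →
  ∑' j : ℕ, ww b (zst b) (j + 1) = 1 ∧ ∑' l : ℕ, (l : ℝ≥0∞) * ww b (zst b) l ≤ M

/-- SCALE : a good scale (from RENU, MEAN). -/
def SCALE_Stmt : Prop := ∀ (P : Par) (eps : ℝ≥0) (K0 : ℕ), 0 < eps → ∃ K1 : ℕ,
  ∀ (v1 : ℕ) (b : ℕ → ℝ≥0), Cl P v1 b → ∃ K, K0 ≤ K ∧ K ≤ K1 ∧
    gs (Wp b (zst b)) (Nc K (2 * K) (3 * K)) ≤ eps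

/-! ### E. blocks -/

/-- BLK : the block recursion. -/
def BLK_Stmt : Prop := ∀ (b : ℕ → ℝ≥0) (z R : ℝ≥0∞) (K : ℕ), IsW b → 1 ≤ R → R ≠ ∞ → 0 < K →
  ∀ k r : ℕ, gs (Wt b z) (Bad K k r) ≤ R ^ r * theta b z R K ^ k

/-- IRR : pairs without cut (from BLK). -/
def IRR_Stmt : Prop := ∀ (b : ℕ → ℝ≥0) (z R : ℝ≥0∞) (K : ℕ), IsW b → 1 ≤ R → R ≠ ∞ → 0 < K →
  ∀ k m : ℕ, ww b z (k * (3 * K) + m) ≤
    gs (fun p => Wt b z p * R ^ (cc K p.1 + cc K p.2)) (Fpp m) * theta b z R K ^ k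

/-- FPS : first passage words are loops followed by bridges. -/
def FPS_Stmt : Prop := ∀ (b : ℕ → ℝ≥0) (z : ℝ≥0∞), IsW b → ∀ (H : ℕ) (f g : ℕ → ℝ≥0∞),
  gs (fun p => Wt b z p * (f (dip p.1) * g (dip p.2))) (Fpp H) ≤
    gs (fun l => Wl b z l * f (dip l)) Lp * gs (fun l => Wl b z l * g (dip l)) Lp * Y b z H

/-- FPL : pairs without common cut in the middle third. -/
def FPL_Stmt : Prop := ∀ (b : ℕ → ℝ≥0) (z : ℝ≥0∞), IsW b → ∀ K : ℕ, 0 < K →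
  gs (Wt b z) {p | p ∈ Fpp (3 * K) ∧ SB K p} ≤
    2 * gs (Wl b z) {l | l ∈ Lp ∧ K ≤ ext l} * gs (Wl b z) Lp * Y b z (3 * K) +
      gs (Wl b z) Lp ^ 2 * gs (Wp b z) (Nc K (2 * K) (3 * K))

/-- THETA : a block size at the critical point (from LOOP, SCALE, FPS, FPL). -/
def THETA_Stmt : Prop := ∀ P : Par, ∃ R : ℝ≥0, 1 ≤ R ∧ ∀ K0 : ℕ, ∃ K1 : ℕ,
  ∀ (v1 : ℕ) (b : ℕ → ℝ≥0), Cl P v1 b →
    ∃ K, 1 ≤ K ∧ K0 ≤ K ∧ K ≤ K1 ∧ theta b (zst b) R K ≤ 2⁻¹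

/-- THFIN : the weight of a block beyond the critical point, and the top part
(from LOOP, FPS, YFIN). -/
def THFIN_Stmt : Prop := ∀ (P : Par) (R : ℝ≥0), 1 ≤ R → ∃ (K0 : ℕ) (eta : ℝ≥0), 0 < eta ∧
  eta ≤ P.eta ∧ ∀ K1 : ℕ, ∃ M : ℝ≥0, ∀ (v1 : ℕ) (b : ℕ → ℝ≥0), Cl P v1 b →
  ∀ K, K0 ≤ K → K ≤ K1 → theta b ((1 + eta) * zst b) R K ≤ M ∧
    ∀ m ≤ 3 * K1, gs (fun p => Wt b ((1 + eta) * zst b) p * (R : ℝ≥0∞) ^ (cc K p.1 + cc K p.2))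
      (Fpp m) ≤ M

/-- GAP : exponential decay of the pairs without cut beyond the critical point
(from THETA, THFIN, IRR). -/
def GAP_Stmt : Prop := ∀ P : Par, ∃ eta C r : ℝ≥0, 0 < eta ∧ eta ≤ P.eta ∧ r < 1 ∧
  ∀ (v1 : ℕ) (b : ℕ → ℝ≥0), Cl P v1 b → ∀ z : ℝ≥0∞, z ≤ (1 + eta) * zst b →
    ∀ l, ww b z l ≤ C * (r : ℝ≥0∞) ^ l

/-- NCB : pairs without common cut between two levels (from RENU, GAP, YEPS). -/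
def NCB_Stmt : Prop := ∀ P : Par, ∃ r : ℝ≥0, r < 1 ∧ ∀ A : ℝ≥0, 1 < A → ∃ eta C : ℝ≥0, 0 < eta ∧
  eta ≤ P.eta ∧ ∀ (v1 : ℕ) (b : ℕ → ℝ≥0), Cl P v1 b → ∀ z : ℝ≥0∞, z ≤ (1 + eta) * zst b →
    ∀ e d H : ℕ, gs (Wp b z) (Nc e (H - d) H) ≤
      C * (A : ℝ≥0∞) ^ (e + d) * (r : ℝ≥0∞) ^ (H - (e + d))

/-! ### F. pieces, caps, polygons without cut -/

/-- FREE : free pieces are pairs without cut. -/
def FREE_Stmt : Prop := ∀ (b : ℕ → ℝ≥0) (z : ℝ≥0∞), IsW b →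
  gs (fun p => z ^ (p.1.length + p.2.length) * BW b (pocc p)) Fr = ∑' j : ℕ, ww b z (j + 1)

/-- CAPC : caps are pairs of bridges and a half loop. -/
def CAPC_Stmt : Prop := ∀ (b : ℕ → ℝ≥0) (z : ℝ≥0∞), IsW b →
  gs (fun T => z ^ T.length * BW b (occ T)) FL.Cap ≤
    ∑' H : ℕ, ∑' d : ℕ, gs (Wh b z) (Hl d) * gs (Wp b z) (Nc 0 (H - d) H)

/-- POLYR : polygons without cut, rotated (pure combinatorics). -/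
def POLYR_Stmt : Prop := ∀ (n : ℕ) (w : Wd), 1 ≤ n → w ∈ FL.NoCut n →
  ∃ (j H e d : ℕ) (A B l0 lt : Wd), j < 2 * n ∧ 1 ≤ H ∧ e ≤ H ∧ d < H ∧
    w.rotate j = A ++ rv (l0 ++ B ++ lt) ∧ (A, B) ∈ Nc e (H - d) H ∧ rfa l0 ∈ Hl e ∧ lt ∈ Hl d ∧
    (∃ c : ℤ, ∀ k : ℤ, cocc (w.rotate j) k = cocc w (k + c)) ∧
    ∀ k : ℤ, cocc (w.rotate j) k + (if k = 0 then 2 else 0) + (if k = H then 2 else 0) =
      occ A k + occ B k + occ l0 k + occ lt (k - H)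

/-- POLYC : polygons without cut are pairs of bridges and two half loops (from POLYR). -/
def POLYC_Stmt : Prop := ∀ (b : ℕ → ℝ≥0) (z : ℝ≥0∞), IsW b → ∀ n : ℕ, 1 ≤ n →
  ∑ w ∈ FL.NoCut n, z ^ (2 * n) * BW b (cocc w) ≤
    (2 * n : ℕ) * ∑' H : ℕ, ∑' e : ℕ, ∑' d : ℕ,
      gs (Wh b z) (Hl e) * gs (Wh b z) (Hl d) * gs (Wp b z) (Nc e (H - d) H)

/-- BEY : sums beyond the critical point (from MEAN, GAP, ARC, NCB, FREE, CAPC, POLYC). -/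
def BEY_Stmt : Prop := ∀ P : Par, ∃ eta C : ℝ≥0, 0 < eta ∧ ∀ (v1 : ℕ) (b : ℕ → ℝ≥0), Cl P v1 b →
  gs (fun p => zst b ^ (p.1.length + p.2.length) * BW b (pocc p)) Fr = 1 ∧
  gs (fun p => ((1 + eta) * zst b) ^ (p.1.length + p.2.length) * BW b (pocc p)) Fr ≤ C ∧
  gs (fun T => ((1 + eta) * zst b) ^ T.length * BW b (occ T)) FL.Cap ≤ C ∧
  ∀ n : ℕ, 1 ≤ n → ∑ w ∈ FL.NoCut n, ((1 + eta) * zst b) ^ (2 * n) * BW b (cocc w) ≤ C * n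

/-- TAIL : exponential tails at the weight of the truncated pieces (from CLS, BEY). -/
def TAIL_Stmt : Prop := ∀ c, NT c → ∃ C θ : ℝ, 0 < C ∧ 0 < θ ∧ θ < 1 ∧ ∃ n0 : ℕ,
  ∀ (n : ℕ) (b : ℕ → ℝ≥0) (rho : ℝ), n0 ≤ n → IsW b → (∀ v, b v ≤ c v) → 0 < rho →
    ∑ p ∈ Pc (2 * n - 1), rho ^ FL.hl p * wb b p = 1 →
    TailsB C θ n b rho ∧ C⁻¹ ≤ rho ∧ rho ≤ 1 / 4

end Pool.Agent.OC
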