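import Pool.Agent.OC.Stmts
import Pool.Agent.OC.FinalDefs
import Pool.Agent.Lib_helper89.FL.StmtsCW

/-!
# Convex occupation energies (MP_f6626d_co): statements of the modules, part 2 (combinatorics of
the gap kernel, sequences of models, final theorem)
-/

set_option autoImplicit false

namespace Pool.Agent.OC

open Finset Filter Topology MeasureTheory Pool.Agent.Lib27 Pool.Agent.SapR Pool.Agent.Gap
  Pool.Agent.AreaLaw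
open scoped NNReal ENNReal

/-! ### G. multiplicative weights -/

/-- multiplicative weights of pieces, arches and closed words -/
structure MW where
  pw : Wd × Wd → ℝ
  aw : Wd → ℝ
  cw : Wd → ℝ
  pw_nonneg : ∀ p, 0 ≤ pw p
  aw_nonneg : ∀ w, 0 ≤ aw w
  cw_nonneg : ∀ w, 0 ≤ cw w
  flip : ∀ (r : ℕ) (p : Wd × Wd), p ∈ Pc r → pw (SapR.flip p) = pw p
  one : ∀ (r : ℕ) (p : Wd × Wd), p ∈ Pc r → FL.hl p = 1 → pw p = 1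
  cap : aw [1, 2] = 1
  step : ∀ (r : ℕ) (x : ℤ) (N : ℕ) (p : Wd × Wd) (w : Wd), 1 ≤ x → p ∈ allowed r x →
    w ∈ ArchSet r (x + jump p) N → aw (p.1 ++ w ++ p.2) = pw p * aw w
  rot : ∀ (n j : ℕ) (s : Wd), s ∈ W n → j ≤ 2 * n → cw (s.rotate j) = cw s
  rev : ∀ (n : ℕ) (s : Wd), s ∈ W n → cw (rv s) = cw s
  glue : ∀ (x : ℤ) (w T : Wd), 1 ≤ x → Arch x w → Arch x T → cw (w ++ rot2 T) = aw w * aw T

/-- total weight of the caps of half length `m` and gap `g` -/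
noncomputable def capM (μ : MW) (n : ℕ) (m : ℕ) (g : ℤ) : ℝ :=
  if 1 ≤ g then ∑ T ∈ CapSet (2 * n - 1) g (2 * m), μ.aw T else 0

/-- weight of a canonical polygon word -/
noncomputable def wtM (μ : MW) (q : (_ : ℤ) × (_ : ℕ) × (Wd × Wd)) : ℝ :=
  μ.aw q.2.2.2 * μ.aw q.2.2.1

/-- the three exponential tail bounds -/
def TailsM (C θ : ℝ) (n : ℕ) (μ : MW) (rho : ℝ) : Prop :=
  (∀ m : ℕ, ∑ p ∈ (Pc (2 * n - 1)).filter (fun p => FL.hl p = m), rho ^ m * μ.pw p ≤ C * θ ^ m) ∧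
  (∀ m : ℕ, ∑ x ∈ Icc (1 : ℤ) m, ∑ T ∈ CapSet (2 * n - 1) x (2 * m), rho ^ m * μ.aw T ≤
    C * θ ^ m) ∧
  ∑ w ∈ FL.NoCut n, rho ^ n * μ.cw w ≤ C * n * θ ^ n

/-- KWG : the kernel and the area generating function of the canonical polygon words
(old module KW, `Lib_helper89/FL/KW.lean`, with general multiplicative weights). -/
def KWG_Stmt : Prop := ∀ (μ : MW) (n : ℕ), 1 ≤ n →
  ∃ (G : GapKernel) (B : ℕ → ℤ → Polynomial ℝ), FL.Loc G ∧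
    ∑ p ∈ Pc (2 * n - 1), G.rho ^ FL.hl p * μ.pw p = 1 ∧
    (∀ m : ℕ, ∑ i ∈ G.S.filter (fun i => i.1 = m), G.tot i =
      ∑ p ∈ (Pc (2 * n - 1)).filter (fun p => FL.hl p = m), μ.pw p) ∧
    IsCap (2 * n) (capM μ n) ∧ 1 ≤ capM μ n 1 1 ∧
    (∀ (m : ℕ) (g : ℤ), (m : ℤ) < g → capM μ n m g = 0) ∧
    IsSol G (capM μ n) B ∧
    ∑ q ∈ M41.Om (2 * n - 1) n, Polynomial.C (wtM μ q) *
      (Polynomial.X : Polynomial ℝ) ^ (M41.Ar (2 * n - 1) q.2.2.2) = closeP (2 * n) (capM μ n) B n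

/-- NEARG : mean error of the area functional (old module NEAR, `Lib_helper89/FL/NEAR.lean`, with
general multiplicative weights). -/
def NEARG_Stmt : Prop := ∀ C θ : ℝ, 0 < C → 0 < θ → θ < 1 → ∃ C1 : ℝ, 0 < C1 ∧
  ∀ (μ : MW) (n : ℕ) (rho : ℝ), 2 ≤ n → 0 < rho →
    ∑ p ∈ Pc (2 * n - 1), rho ^ FL.hl p * μ.pw p = 1 → TailsM C θ n μ rho →
    ∑ q ∈ M41.Om (2 * n - 1) n, wtM μ q *
      |(|((dbl 0 q.2.2.2 + dbl 0 q.2.2.1 : ℤ) : ℝ)| - (M41.Ar (2 * n - 1) q.2.2.2 : ℝ))| ≤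
    C1 * n * Real.log n * ∑ q ∈ M41.Om (2 * n - 1) n, wtM μ q + C1 / ((n : ℝ) ^ 5 * rho ^ n)

/-- K1G : root decomposition with weights (old module K1H, `Lib_helper89/FL/K1H.lean`). -/
def K1G_Stmt : Prop := ∀ (μ : MW) (r n : ℕ), r < 2 * n → ∀ F : ℤ → ℝ → ℝ,
  ∑ s ∈ Fam r n, F |dbl 0 s| (μ.cw s) =
    4 * n * ∑ x ∈ Icc (1 : ℤ) r, ∑ M ∈ range (r + 2), ∑ T ∈ CapSet r x M,
      ∑ w ∈ ArchSet r x (2 * n - M), F (dbl 0 w + dbl 0 T) (μ.aw w * μ.aw T)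

/-- TRG : from the frozen encoding to canonical words and words without cut (old module TR,
`Lib_helper89/FL/TR.lean`; from K1G). -/
def TRG_Stmt : Prop := ∀ (μ : MW) (n : ℕ), 1 ≤ n → ∀ F : ℤ → ℝ → ℝ,
  ∑ s ∈ SAP n, F |dbl 0 (List.ofFn s)| (μ.cw (List.ofFn s)) =
    4 * n * ∑ q ∈ M41.Om (2 * n - 1) n, F (dbl 0 q.2.2.2 + dbl 0 q.2.2.1) (wtM μ q) +
      ∑ w ∈ FL.NoCut n, F |dbl 0 w| (μ.cw w)

/-- the normalized weight: `b 1` is replaced by `1` -/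
noncomputable def bN (b : ℕ → ℝ) (v : ℕ) : ℝ≥0 := if v ≤ 2 then 1 else (b v).toNNReal

/-- the multiplicative weights `μ` represent `b` (normalized by `b 1`) -/
structure Rep (b : ℕ → ℝ) (μ : MW) : Prop where
  cw : ∀ (n : ℕ) (s : Fin (2 * n) → Fin 4), 1 ≤ n → s ∈ SAP n →
    μ.cw (List.ofFn s) = occW b n s / b 1 ^ 2
  pw : ∀ (r : ℕ) (p : Wd × Wd), p ∈ Pc r → μ.pw p = wb (bN b) p
  aw : ∀ (r : ℕ) (x : ℤ) (N : ℕ) (T : Wd), 1 ≤ x → T ∈ CapSet r x N →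
    μ.aw T ≤ max 1 (b 1)⁻¹ * wa (bN b) T
  nc : ∀ (n : ℕ) (w : Wd), 1 ≤ n → w ∈ FL.NoCut n → μ.cw w ≤ max 1 (b 1)⁻¹ ^ 2 * wc (bN b) w

/-- occupation weight of an arch, the highest level is normalized by `b 1` -/
noncomputable def awO (b : ℕ → ℝ) (T : Wd) : ℝ := (∏ k ∈ Icc (1 : ℤ) T.length, b (occ T k)) / b 1

/-- occupation weight of a closed word, normalized by `b 1 ^ 2` -/
noncomputable def cwO (b : ℕ → ℝ) (w : Wd) : ℝ :=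
  (∏ k ∈ Icc (-(w.length : ℤ)) w.length, b (cocc w k)) / b 1 ^ 2

/-- REPA : arches. -/
def REPA_Stmt : Prop := ∀ b : ℕ → ℝ, OccWeight b → (∀ T, 0 ≤ awO b T) ∧ awO b [1, 2] = 1 ∧
  (∀ (r : ℕ) (x : ℤ) (N : ℕ) (p : Wd × Wd) (w : Wd), 1 ≤ x → p ∈ allowed r x →
    w ∈ ArchSet r (x + jump p) N → awO b (p.1 ++ w ++ p.2) = wb (bN b) p * awO b w) ∧
  (∀ (r : ℕ) (x : ℤ) (N : ℕ) (T : Wd), 1 ≤ x → T ∈ CapSet r x N →
    awO b T ≤ max 1 (b 1)⁻¹ * wa (bN b) T)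

/-- REPB : pieces. -/
def REPB_Stmt : Prop := ∀ b : ℕ → ℝ, OccWeight b → IsW (bN b) ∧
  (∀ (r : ℕ) (p : Wd × Wd), p ∈ Pc r → wb (bN b) (SapR.flip p) = wb (bN b) p) ∧
  (∀ (r : ℕ) (p : Wd × Wd), p ∈ Pc r → FL.hl p = 1 → wb (bN b) p = 1)

/-- REPC : closed words. -/
def REPC_Stmt : Prop := ∀ b : ℕ → ℝ, OccWeight b → (∀ w, 0 ≤ cwO b w) ∧
  (∀ (n j : ℕ) (s : Wd), s ∈ W n → j ≤ 2 * n → cwO b (s.rotate j) = cwO b s) ∧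
  (∀ (n : ℕ) (s : Wd), s ∈ W n → cwO b (rv s) = cwO b s) ∧
  (∀ (x : ℤ) (w T : Wd), 1 ≤ x → Arch x w → Arch x T →
    cwO b (w ++ rot2 T) = awO b w * awO b T) ∧
  (∀ (n : ℕ) (s : Fin (2 * n) → Fin 4), 1 ≤ n → s ∈ SAP n →
    cwO b (List.ofFn s) = occW b n s / b 1 ^ 2) ∧
  (∀ (n : ℕ) (w : Wd), 1 ≤ n → w ∈ W n → cwO b w ≤ max 1 (b 1)⁻¹ ^ 2 * wc (bN b) w)

/-- REP : occupation weights are multiplicative (from REPA, REPB, REPC). -/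
def REP_Stmt : Prop := ∀ b : ℕ → ℝ, OccWeight b → IsW (bN b) ∧ ∃ μ : MW, Rep b μ

/-! ### H. sequences of models -/

/-- the kernel, arrays and bounds for half perimeter `n` -/
structure DatM (C θ : ℝ) (n : ℕ) (μ : MW) where
  G : GapKernel
  B : ℕ → ℤ → Polynomial ℝ
  cls : FL.Cls C θ G
  cap : FL.ClsCap C θ G (2 * n) (capM μ n)
  sol : IsSol G (capM μ n) B
  count : ∑ q ∈ M41.Om (2 * n - 1) n, Polynomial.C (wtM μ q) *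
      (Polynomial.X : Polynomial ℝ) ^ (M41.Ar (2 * n - 1) q.2.2.2) =
        closeP (2 * n) (capM μ n) B n
  crit : ∑ p ∈ Pc (2 * n - 1), G.rho ^ FL.hl p * μ.pw p = 1
  tails : TailsM C θ n μ G.rho

/-- the class of weights below `c`, with `b 1 ≥ 1 / D` -/
def Below (c : ℕ → ℝ) (D : ℝ) (b : ℕ → ℝ) : Prop :=
  OccWeight b ∧ (∀ v, 3 ≤ v → b v ≤ c v) ∧ (b 1)⁻¹ ≤ D

/-- nontrivial occupation weights -/
def NTR (c : ℕ → ℝ) : Prop := OccWeight c ∧ ∃ v, 2 ≤ v ∧ c v < 1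

/-- DATM (from TAIL, KWG; old `exists_dat` in `Lib_helper89/FL/FinA.lean`). -/
def DATM_Stmt : Prop := ∀ (c : ℕ → ℝ) (D : ℝ), NTR c → 0 < D → ∃ C θ : ℝ, 0 < C ∧ 0 < θ ∧ θ < 1 ∧
  ∃ N0 : ℕ, 2 ≤ N0 ∧ ∀ (n : ℕ) (b : ℕ → ℝ) (μ : MW), N0 ≤ n → Below c D b → IsW (bN b) →
    Rep b μ → Nonempty (DatM C θ n μ)

/-- the sample space -/
abbrev OmM (n : ℕ) : Type := {q // q ∈ M41.Om (2 * n - 1) n} ⊕ {w // w ∈ FL.NoCut n}

/-- weights on the sample space -/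
noncomputable def wtO (n : ℕ) (μ : MW) : OmM n → ℝ :=
  Sum.elim (fun q => wtM μ q.1) (fun w => 1 / (4 * (n : ℝ)) * μ.cw w.1)

/-- absolute shoelace sum on the sample space -/
def TZ (n : ℕ) : OmM n → ℤ :=
  Sum.elim (fun q => |dbl 0 q.1.2.2.2 + dbl 0 q.1.2.2.1|) (fun w => |dbl 0 w.1|)

open Classical in
/-- distribution function on the sample space -/
noncomputable def cdfM (n : ℕ) (μ : MW) (x : ℝ) : ℝ :=
  (∑ y ∈ univ.filter fun y : OmM n => (TZ n y : ℝ) * ∑ y' : OmM n, wtO n μ y' ≤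
      x * ∑ y' : OmM n, wtO n μ y' * (TZ n y' : ℝ), wtO n μ y) / ∑ y' : OmM n, wtO n μ y'

/-- CDF (from TRG; old `forceCdf_eq` in `Lib_helper89/FL/FinB.lean`). -/
def CDF_Stmt : Prop := ∀ (b : ℕ → ℝ) (μ : MW), OccWeight b → Rep b μ → ∀ n : ℕ, 1 ≤ n →
  ∀ x : ℝ, occCdf b n x = cdfM n μ x

/-- SEQM (from NEARG; old `seqM`, `near_bound`, `bad_bound` in `Lib_helper89/FL/FinA,FinB.lean`):
the sequence of models. -/
def SEQM_Stmt : Prop := ∀ (C θ : ℝ) (N0 : ℕ) (μ : ℕ → MW), 0 < C → 0 < θ → θ < 1 → 2 ≤ N0 →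
  (∀ n, N0 ≤ n → Nonempty (DatM C θ n (μ n))) → ∃ M : FL.SeqModel C θ,
    ∀ n, N0 ≤ n → ∀ x : ℝ, M.cdf n x = cdfM n (μ n) x

/-- the property of the universal law `ν` given by `FL.GFIN_Stmt` -/
def GF (ν : Measure ℝ) : Prop := (∀ M : AreaModel, M.Conv ν) ∧
  ∀ C θ : ℝ, 0 < C → 0 < θ → θ < 1 → ∀ M : FL.SeqModel C θ,
    ∀ x : ℝ, ν {x} = 0 → Tendsto (fun n : ℕ => M.cdf n x) atTop (𝓝 (ν (Set.Iic x)).toReal)

/-- CONV (from REP, DATM, CDF, SEQM). -/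
def CONV_Stmt : Prop := ∀ ν : Measure ℝ, IsProbabilityMeasure ν → GF ν →
  ∀ (c : ℕ → ℝ) (D : ℝ), NTR c → 0 < D → ∀ b : ℕ → ℕ → ℝ, (∀ n, Below c D (b n)) →
    ∀ x : ℝ, ν {x} = 0 →
      Tendsto (fun n : ℕ => occCdf (b n) n x) atTop (𝓝 (ν (Set.Iic x)).toReal)

/-- DIAG : abstract diagonal argument (old `diag_force` in `Lib_helper89/FL/Diag.lean`). -/
def DIAG_Stmt : Prop := ∀ (β : Type) (ν : Measure ℝ), IsProbabilityMeasure ν →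
  ∀ (F : β → ℕ → ℝ → ℝ) (S : ℕ → Set β), (∀ b n, Monotone (F b n)) →
  (∀ j, ∀ f : ℕ → β, (∀ n, f n ∈ S j) → ∀ x : ℝ, ν {x} = 0 →
    Tendsto (fun n : ℕ => F (f n) n x) atTop (𝓝 (ν (Set.Iic x)).toReal)) →
  ∃ J : ℕ → ℕ, Tendsto J atTop atTop ∧ ∀ f : ℕ → β, (∀ n, f n ∈ S (J n)) →
    ∀ x : ℝ, ν {x} = 0 → Tendsto (fun n : ℕ => F (f n) n x) atTop (𝓝 (ν (Set.Iic x)).toReal)

/-- the indicator weight of at most `2 k` vertices on every diagonal -/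
noncomputable def bInd (k v : ℕ) : ℝ := if v ≤ 2 * k then 1 else 0

/-- NAR : narrow polygons are an example. -/
def NAR_Stmt : Prop := ∀ k, 1 ≤ k → NTR (bInd k) ∧
  ∀ (n : ℕ) (x : ℝ), 1 ≤ n → areaCdf n (Narrow k n) x = occCdf (bInd k) n x

/-- NARC : narrow polygons form a large class. -/
def NARC_Stmt : Prop := ∀ ε : ℝ, 0 < ε → ∃ k : ℕ, ∀ᶠ n : ℕ in atTop,
  Real.exp (-(ε * n)) * ((SAP n).card : ℝ) ≤ ((Narrow k n).card : ℝ)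

/-- the weight of the energy `∑ V_h ^ p` -/
noncomputable def bPow (beta p : ℝ) (v : ℕ) : ℝ :=
  Real.exp (-(beta * ((v : ℝ) ^ p - 2 ^ (p - 1) * v)))

/-- POW : power energies are an example. -/
def POW_Stmt : Prop := ∀ beta p : ℝ, 0 < beta → 1 < p → NTR (bPow beta p) ∧
  ∀ (n : ℕ) (x : ℝ), 1 ≤ n → powCdf beta p n x = occCdf (bPow beta p) n x

/-- the weight of a force -/
noncomputable def bFor (f : ℝ) (v : ℕ) : ℝ := if v = 0 then 1 else Real.exp (-(f * ((v : ℝ) - 2) / 2))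

/-- FOR : forces are an example. -/
def FOR_Stmt : Prop := ∀ f : ℝ, 0 < f → NTR (bFor f) ∧
    ∀ (n : ℕ) (x : ℝ), 1 ≤ n → forceCdf f n x = occCdf (bFor f) n x

/-- STC : the staircase polygons (old, `Lib_helper89/FL/FinC.lean`). -/
def STC_Stmt : Prop := ∀ ν : Measure ℝ, GF ν → ∀ x : ℝ, ν {x} = 0 →
  Tendsto (fun n : ℕ => areaCdf n (Staircase n) x) atTop (𝓝 (ν (Set.Iic x)).toReal)

/-- the final theorem -/
def FINAL_Stmt : Prop := ∃ ν : Measure ℝ, IsProbabilityMeasure ν ∧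
  (∀ x : ℝ, ν {x} = 0 →
    Tendsto (fun n : ℕ => areaCdf n (Staircase n) x) atTop (𝓝 (ν (Set.Iic x)).toReal)) ∧
  (∀ c : ℕ → ℕ → ℝ, (∀ j, NTR (c j)) → ∃ J : ℕ → ℕ, Tendsto J atTop atTop ∧
    ∀ b : ℕ → ℕ → ℝ, (∀ᶠ n : ℕ in atTop, Below (c (J n)) (J n + 1) (b n)) → ∀ x : ℝ, ν {x} = 0 →
      Tendsto (fun n : ℕ => occCdf (b n) n x) atTop (𝓝 (ν (Set.Iic x)).toReal)) ∧
  (∃ K : ℕ → ℕ, Tendsto K atTop atTop ∧
    (∀ k : ℕ → ℕ, (∀ᶠ n : ℕ in atTop, 1 ≤ k n ∧ k n ≤ K n) → ∀ x : ℝ, ν {x} = 0 →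
      Tendsto (fun n : ℕ => areaCdf n (Narrow (k n) n) x) atTop (𝓝 (ν (Set.Iic x)).toReal)) ∧
    ∀ ε : ℝ, 0 < ε → ∀ᶠ n : ℕ in atTop,
      Real.exp (-(ε * n)) * ((SAP n).card : ℝ) ≤ ((Narrow (K n) n).card : ℝ)) ∧
  (∀ p : ℝ, 1 < p → ∃ e : ℕ → ℝ, (∀ n, 0 < e n) ∧ Tendsto e atTop (𝓝 0) ∧
    ∀ beta : ℕ → ℝ, (∀ᶠ n : ℕ in atTop, e n ≤ beta n) → ∀ x : ℝ, ν {x} = 0 →
      Tendsto (fun n : ℕ => powCdf (beta n) p n x) atTop (𝓝 (ν (Set.Iic x)).toReal)) ∧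
  (∃ e : ℕ → ℝ, (∀ n, 0 < e n) ∧ Tendsto e atTop (𝓝 0) ∧
    ∀ f : ℕ → ℝ, (∀ᶠ n : ℕ in atTop, e n ≤ f n) → ∀ x : ℝ, ν {x} = 0 →
      Tendsto (fun n : ℕ => forceCdf (f n) n x) atTop (𝓝 (ν (Set.Iic x)).toReal))

/-- FIN : assembly (from CONV, DIAG, NAR, NARC, POW, FOR, STC and `FL.GFIN_Stmt`). -/
def FIN_Stmt : Prop := FL.GFIN_Stmt → CONV_Stmt → DIAG_Stmt → NAR_Stmt → NARC_Stmt → POW_Stmt →
  FOR_Stmt → STC_Stmt → FINAL_Stmt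

end Pool.Agent.OC
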