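import Pool.Agent.OC.Fpl

/-!
# Convex occupation energies (MP_f6626d_co): THETA, a block size at the critical point (helper74)
-/

set_option autoImplicit false

namespace Pool.Agent.OC.THETA

open Finset Pool.Agent.Lib27 Pool.Agent.SapR
open Pool.Agent.MG (Bri Brp Irr Nc Fp Fpp Bad SB CC SW dip cc chi rfa)
open scoped NNReal ENNReal

theorem exists_cube {r : ℝ≥0} (hr : r < 1) : ∃ ρ : ℝ≥0, 0 < ρ ∧ ρ < 1 ∧ r ≤ ρ ^ 3 := by
  refine ⟨(2 + r) / 3, by positivity, ?_, ?_⟩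
  · rw [div_lt_one (by norm_num)]
    calc 2 + r < 2 + 1 := by gcongr
      _ = 3 := by norm_num
  · have h0 : (0 : ℝ) ≤ r := r.2
    have h1 : (r : ℝ) ≤ (((2 + r) / 3 : ℝ≥0) : ℝ) ^ 3 := by
      push_cast
      nlinarith [mul_nonneg (sq_nonneg ((r : ℝ) - 1)) (show (0 : ℝ) ≤ r + 8 by linarith)]
    exact_mod_cast h1

variable {b : ℕ → ℝ≥0}

/-- sums over the loops by depth -/
theorem gs_loop_le {z L ρ : ℝ≥0∞}
    (hL : ∀ d, gs (Wl b z) {l | l ∈ Lp ∧ d ≤ ext l} ≤ L * ρ ^ (3 * d)) (f : ℕ → ℝ≥0∞) :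
    gs (fun l => Wl b z l * f (dip l)) Lp ≤ ∑' i, L * ρ ^ (3 * i) * f i := by
  refine (gs_fiber _ Lp dip).trans (ENNReal.tsum_le_tsum fun i => ?_)
  calc gs (fun l => Wl b z l * f (dip l)) {l | l ∈ Lp ∧ dip l = i}
      ≤ gs (fun l => Wl b z l * f i) {l | l ∈ Lp ∧ i ≤ ext l} := by
        refine gs_le _ _ ?_ ?_
        · rintro l ⟨hl, rfl⟩
          exact ⟨hl, FPL.dip_le_ext l⟩
        · rintro l ⟨hl, rfl⟩
          exact le_rfl
    _ = gs (Wl b z) {l | l ∈ Lp ∧ i ≤ ext l} * f i := gs_mul_right _ _ _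
    _ ≤ _ := mul_le_mul_left (hL i) _

theorem cost_far {R ρ : ℝ≥0∞} {K : ℕ} (h1 : R * ρ ^ K ≤ 1) (hρ : ρ ≤ 1) {i : ℕ} (hi : K ≤ i) :
    R ^ ((i + 2 * K) / (3 * K)) * ρ ^ i ≤ 1 := by
  set n := (i + 2 * K) / (3 * K) with hn
  have h2 : 3 * K * n ≤ i + 2 * K := Nat.mul_div_le _ _
  have h3 : K * n ≤ i := by
    have : 3 * K * n = 3 * (K * n) := by ring
    omega
  calc R ^ n * ρ ^ i ≤ R ^ n * ρ ^ (K * n) :=
        mul_le_mul_right (pow_le_pow_right_of_le_one' hρ h3) _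
    _ = (R * ρ ^ K) ^ n := by rw [mul_pow, pow_mul]
    _ ≤ 1 := pow_le_one₀ bot_le h1

theorem cost_all {R ρ : ℝ≥0∞} {K : ℕ} (hR : 1 ≤ R) (h1 : R * ρ ^ K ≤ 1) (hρ : ρ ≤ 1) (i : ℕ) :
    R ^ ((i + 2 * K) / (3 * K)) * ρ ^ i ≤ R := by
  set n := (i + 2 * K) / (3 * K) with hn
  have h2 : 3 * K * n ≤ i + 2 * K := Nat.mul_div_le _ _
  rcases Nat.eq_zero_or_pos n with h0 | h0
  · rw [h0, pow_zero, one_mul]
    exact (pow_le_one₀ bot_le hρ).trans hR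
  · obtain ⟨m, hm⟩ : ∃ m, n = m + 1 := ⟨n - 1, by omega⟩
    have h3 : K * m ≤ i := by
      have : 3 * K * n = 3 * (K * m) + 3 * K := by rw [hm]; ring
      omega
    rw [hm]
    calc R ^ (m + 1) * ρ ^ i ≤ R ^ (m + 1) * ρ ^ (K * m) :=
          mul_le_mul_right (pow_le_pow_right_of_le_one' hρ h3) _
      _ = R * (R * ρ ^ K) ^ m := by rw [mul_pow, pow_mul, pow_succ]; ring
      _ ≤ R * 1 := mul_le_mul_right (pow_le_one₀ bot_le h1) _
      _ = R := mul_one _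

/-- deep loops -/
theorem far_sum {z L R ρ : ℝ≥0∞} {K : ℕ}
    (hL : ∀ d, gs (Wl b z) {l | l ∈ Lp ∧ d ≤ ext l} ≤ L * ρ ^ (3 * d))
    (h1 : R * ρ ^ K ≤ 1) (hρ : ρ ≤ 1) :
    gs (fun l => Wl b z l * (fun d => if K ≤ d then R ^ ((d + 2 * K) / (3 * K)) else 0) (dip l))
      Lp ≤ L * ρ ^ K * (1 - ρ)⁻¹ := by
  refine (gs_loop_le hL (fun d => if K ≤ d then R ^ ((d + 2 * K) / (3 * K)) else 0)).trans ?_
  calc ∑' i, L * ρ ^ (3 * i) * (if K ≤ i then R ^ ((i + 2 * K) / (3 * K)) else 0)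
      ≤ ∑' i : ℕ, L * ρ ^ K * ρ ^ i := by
        refine ENNReal.tsum_le_tsum fun i => ?_
        split_ifs with hi
        · calc L * ρ ^ (3 * i) * R ^ ((i + 2 * K) / (3 * K))
              = L * ρ ^ i * ρ ^ i * (R ^ ((i + 2 * K) / (3 * K)) * ρ ^ i) := by
                rw [show 3 * i = i + i + i by ring, pow_add, pow_add]; ring
            _ ≤ L * ρ ^ i * ρ ^ i * 1 := mul_le_mul_right (cost_far h1 hρ hi) _
            _ = L * ρ ^ i * ρ ^ i := mul_one _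
            _ ≤ L * ρ ^ K * ρ ^ i :=
                mul_le_mul_left (mul_le_mul_right (pow_le_pow_right_of_le_one' hρ hi) _) _
        · rw [mul_zero]
          exact bot_le
    _ = _ := by rw [ENNReal.tsum_mul_left, ENNReal.tsum_geometric]

/-- all loops -/
theorem all_sum {z L R ρ : ℝ≥0∞} {K : ℕ}
    (hL : ∀ d, gs (Wl b z) {l | l ∈ Lp ∧ d ≤ ext l} ≤ L * ρ ^ (3 * d)) (hR : 1 ≤ R)
    (h1 : R * ρ ^ K ≤ 1) (hρ : ρ ≤ 1) :
    gs (fun l => Wl b z l * (fun d => R ^ ((d + 2 * K) / (3 * K))) (dip l)) Lp ≤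
      L * R * (1 - ρ)⁻¹ := by
  refine (gs_loop_le hL (fun d => R ^ ((d + 2 * K) / (3 * K)))).trans ?_
  calc ∑' i, L * ρ ^ (3 * i) * R ^ ((i + 2 * K) / (3 * K))
      ≤ ∑' i : ℕ, L * R * ρ ^ i := by
        refine ENNReal.tsum_le_tsum fun i => ?_
        calc L * ρ ^ (3 * i) * R ^ ((i + 2 * K) / (3 * K))
              = L * ρ ^ i * ρ ^ i * (R ^ ((i + 2 * K) / (3 * K)) * ρ ^ i) := by
                rw [show 3 * i = i + i + i by ring, pow_add, pow_add]; ring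
            _ ≤ L * ρ ^ i * 1 * R :=
                mul_le_mul' (mul_le_mul_right (pow_le_one₀ bot_le hρ) _) (cost_all hR h1 hρ i)
            _ = L * R * ρ ^ i := by ring
    _ = _ := by rw [ENNReal.tsum_mul_left, ENNReal.tsum_geometric]

/-- the weight of a block is the sum of four parts -/
theorem theta_le (h3 : FPS_Stmt) (h4 : FPL_Stmt) (hW : IsW b) {z L R ρ e : ℝ≥0∞} {K : ℕ}
    (hK : 0 < K) (hL : ∀ d, gs (Wl b z) {l | l ∈ Lp ∧ d ≤ ext l} ≤ L * ρ ^ (3 * d))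
    (hL1 : 1 ≤ L) (h1 : R * ρ ^ K ≤ 1) (hρ : ρ ≤ 1) (hρ1 : L * ρ ^ K * (1 - ρ)⁻¹ ≤ 1)
    (hY : Y b z (3 * K) ≤ 1) (he : gs (Wp b z) (Nc K (2 * K) (3 * K)) ≤ e) :
    theta b z R K ≤ 2 * (L * ρ ^ K * (1 - ρ)⁻¹) * (2 * L) + 2 * (L * ρ ^ K) * L + L ^ 2 * e +
      L ^ 2 * R⁻¹ := by
  classical
  have hS : gs (Wl b z) Lp ≤ L := by
    have h5 := hL 0
    rw [mul_zero, pow_zero, mul_one] at h5
    refine (gs_mono _ ?_).trans h5
    intro l hl
    exact ⟨hl, Nat.zero_le _⟩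
  set a : ℝ≥0∞ := L * ρ ^ K * (1 - ρ)⁻¹ with ha
  set f : ℕ → ℝ≥0∞ := fun d => if K ≤ d then R ^ ((d + 2 * K) / (3 * K)) else 0 with hf
  set g : ℕ → ℝ≥0∞ := fun d => R ^ ((d + 2 * K) / (3 * K)) with hg
  have hfs : gs (fun l => Wl b z l * f (dip l)) Lp ≤ a := far_sum hL h1 hρ
  have hcc0 : ∀ w : Wd, dip w < K → cc K w = 0 := by
    intro w hw
    by_contra hc
    have := MG.cc_pos_dip (Nat.pos_of_ne_zero hc)
    omega
  have hgs : gs (fun l => Wl b z l * g (dip l)) Lp ≤ 2 * L := by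
    have h5 : gs (fun l => Wl b z l * g (dip l)) Lp ≤
        gs (fun l => Wl b z l * f (dip l) + Wl b z l) Lp := by
      refine gs_le _ _ subset_rfl fun l _ => ?_
      rcases le_or_gt K (dip l) with hd | hd
      · refine le_trans (le_of_eq ?_) le_self_add
        simp only [hf, hg]
        rw [if_pos hd]
      · refine le_trans (le_of_eq ?_) le_add_self
        have h6 : g (dip l) = 1 := by
          have h7 : (dip l + 2 * K) / (3 * K) = 0 := hcc0 l hd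
          simp only [hg]
          rw [h7, pow_zero]
        rw [h6, mul_one]
    rw [gs_add] at h5
    calc _ ≤ a + L := h5.trans (add_le_add hfs hS)
      _ ≤ L + L := add_le_add (hρ1.trans hL1) le_rfl
      _ = 2 * L := by ring
  -- the four parts
  set F : Wd × Wd → ℝ≥0∞ := fun p => Wt b z p * (R ^ (cc K p.1 + cc K p.2) *
    (if SB K p then 1 else R⁻¹)) with hF
  have hR1 : ∀ p, (if SB K p then (1 : ℝ≥0∞) else R⁻¹) ≤ 1 ∨ R < 1 := by
    intro p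
    rcases le_or_gt 1 R with h | h
    · left
      split_ifs
      · exact le_rfl
      · exact ENNReal.inv_le_one.2 h
    · exact Or.inr h
  by_cases hR : 1 ≤ R
  swap
  · -- trivial case
    have hRi : 1 ≤ R⁻¹ := ENNReal.one_le_inv.2 (not_le.1 hR).le
    have h5 : theta b z R K ≤ gs (Wt b z) (Fpp (3 * K)) * R⁻¹ := by
      unfold theta
      rw [← gs_mul_right]
      refine gs_le _ _ subset_rfl fun p _ => mul_le_mul_right ?_ _
      calc R ^ (cc K p.1 + cc K p.2) * (if SB K p then (1 : ℝ≥0∞) else R⁻¹)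
          ≤ 1 * R⁻¹ := by
            refine mul_le_mul' (pow_le_one₀ bot_le (not_le.1 hR).le) ?_
            split_ifs
            · exact hRi
            · exact le_rfl
        _ = _ := one_mul _
    have h6 := h3 b z hW (3 * K) (fun _ => 1) (fun _ => 1)
    simp only [mul_one] at h6
    have h7 : gs (Wt b z) (Fpp (3 * K)) ≤ L ^ 2 := by
      refine h6.trans ?_
      calc _ ≤ L * L * 1 := mul_le_mul' (mul_le_mul' hS hS) hY
        _ = _ := by ring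
    exact (h5.trans (mul_le_mul_left h7 _)).trans le_add_self
  have hif : ∀ p, (if SB K p then (1 : ℝ≥0∞) else R⁻¹) ≤ 1 := by
    intro p
    split_ifs
    · exact le_rfl
    · exact ENNReal.inv_le_one.2 hR
  have p1 : gs F {p | p ∈ Fpp (3 * K) ∧ K ≤ dip p.1} ≤ a * (2 * L) := by
    calc gs F {p | p ∈ Fpp (3 * K) ∧ K ≤ dip p.1}
        ≤ gs (fun p => Wt b z p * (f (dip p.1) * g (dip p.2))) (Fpp (3 * K)) := by
          refine gs_le _ _ (fun p hp => hp.1) fun p hp => mul_le_mul_right ?_ _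
          calc R ^ (cc K p.1 + cc K p.2) * (if SB K p then (1 : ℝ≥0∞) else R⁻¹)
              ≤ R ^ (cc K p.1 + cc K p.2) * 1 := mul_le_mul_right (hif p) _
            _ = f (dip p.1) * g (dip p.2) := by
                simp only [hf, hg]
                rw [if_pos hp.2, mul_one, pow_add]
                rfl
      _ ≤ _ := h3 b z hW (3 * K) f g
      _ ≤ a * (2 * L) * 1 := mul_le_mul' (mul_le_mul' hfs hgs) hY
      _ = _ := mul_one _
  have p2 : gs F {p | p ∈ Fpp (3 * K) ∧ K ≤ dip p.2} ≤ 2 * L * a := by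
    calc gs F {p | p ∈ Fpp (3 * K) ∧ K ≤ dip p.2}
        ≤ gs (fun p => Wt b z p * (g (dip p.1) * f (dip p.2))) (Fpp (3 * K)) := by
          refine gs_le _ _ (fun p hp => hp.1) fun p hp => mul_le_mul_right ?_ _
          calc R ^ (cc K p.1 + cc K p.2) * (if SB K p then (1 : ℝ≥0∞) else R⁻¹)
              ≤ R ^ (cc K p.1 + cc K p.2) * 1 := mul_le_mul_right (hif p) _
            _ = g (dip p.1) * f (dip p.2) := by
                simp only [hf, hg]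
                rw [if_pos hp.2, mul_one, pow_add]
                rfl
      _ ≤ _ := h3 b z hW (3 * K) g f
      _ ≤ 2 * L * a * 1 := mul_le_mul' (mul_le_mul' hgs hfs) hY
      _ = _ := mul_one _
  have p3 : gs F {p | p ∈ Fpp (3 * K) ∧ SB K p ∧ dip p.1 < K ∧ dip p.2 < K} ≤
      2 * (L * ρ ^ K) * L + L ^ 2 * e := by
    calc gs F {p | p ∈ Fpp (3 * K) ∧ SB K p ∧ dip p.1 < K ∧ dip p.2 < K}
        ≤ gs (Wt b z) {p | p ∈ Fpp (3 * K) ∧ SB K p} := by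
          refine gs_le _ _ (fun p hp => ⟨hp.1, hp.2.1⟩) fun p hp => ?_
          simp only [hF]
          rw [if_pos hp.2.1, hcc0 _ hp.2.2.1, hcc0 _ hp.2.2.2, add_zero, pow_zero, one_mul, mul_one]
      _ ≤ _ := h4 b z hW K hK
      _ ≤ 2 * (L * ρ ^ (3 * K)) * L * 1 + L ^ 2 * e := by
          refine add_le_add ?_ ?_
          · refine mul_le_mul' (mul_le_mul' (mul_le_mul_right (hL K) _) hS) hY
          · exact mul_le_mul' (pow_le_pow_left₀ bot_le hS 2) he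
      _ ≤ _ := by
          rw [mul_one]
          refine add_le_add (mul_le_mul_left (mul_le_mul_right (mul_le_mul_right
            (pow_le_pow_right_of_le_one' hρ (by omega)) _) _) _) le_rfl
  have p4 : gs F {p | p ∈ Fpp (3 * K) ∧ ¬ SB K p ∧ dip p.1 < K ∧ dip p.2 < K} ≤
      L ^ 2 * R⁻¹ := by
    have h6 := h3 b z hW (3 * K) (fun _ => 1) (fun _ => 1)
    simp only [mul_one] at h6
    calc gs F {p | p ∈ Fpp (3 * K) ∧ ¬ SB K p ∧ dip p.1 < K ∧ dip p.2 < K}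
        ≤ gs (fun p => Wt b z p * R⁻¹) (Fpp (3 * K)) := by
          refine gs_le _ _ (fun p hp => hp.1) fun p hp => ?_
          simp only [hF]
          rw [if_neg hp.2.1, hcc0 _ hp.2.2.1, hcc0 _ hp.2.2.2, add_zero, pow_zero, one_mul]
      _ = gs (Wt b z) (Fpp (3 * K)) * R⁻¹ := gs_mul_right _ _ _
      _ ≤ L * L * 1 * R⁻¹ := mul_le_mul_left (h6.trans (mul_le_mul' (mul_le_mul' hS hS) hY)) _
      _ = _ := by ring
  have hcov : (Fpp (3 * K) : Set (Wd × Wd)) ⊆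
      ({p | p ∈ Fpp (3 * K) ∧ K ≤ dip p.1} ∪ {p | p ∈ Fpp (3 * K) ∧ K ≤ dip p.2}) ∪
      ({p | p ∈ Fpp (3 * K) ∧ SB K p ∧ dip p.1 < K ∧ dip p.2 < K} ∪
        {p | p ∈ Fpp (3 * K) ∧ ¬ SB K p ∧ dip p.1 < K ∧ dip p.2 < K}) := by
    intro p hp
    rcases le_or_gt K (dip p.1) with h5 | h5
    · exact Or.inl (Or.inl ⟨hp, h5⟩)
    rcases le_or_gt K (dip p.2) with h6 | h6
    · exact Or.inl (Or.inr ⟨hp, h6⟩)
    by_cases h7 : SB K p
    · exact Or.inr (Or.inl ⟨hp, h7, h5, h6⟩)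
    · exact Or.inr (Or.inr ⟨hp, h7, h5, h6⟩)
  have h5 : theta b z R K = gs F (Fpp (3 * K)) := rfl
  rw [h5]
  refine ((gs_mono F hcov).trans (gs_union _ _ _)).trans ?_
  refine (add_le_add ((gs_union _ _ _).trans (add_le_add p1 p2))
    ((gs_union _ _ _).trans (add_le_add p3 p4))).trans (le_of_eq ?_)
  ring

end Pool.Agent.OC.THETA

namespace Pool.Agent.OC

open Finset Pool.Agent.Lib27 Pool.Agent.SapR
open Pool.Agent.MG (Bri Brp Irr Nc Fp Fpp Bad SB CC SW dip cc chi rfa)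
open scoped NNReal ENNReal

theorem theta_thm (h1 : LOOP_Stmt) (h2 : SCALE_Stmt) (h3 : FPS_Stmt) (h4 : FPL_Stmt) :
    THETA_Stmt := by
  intro P
  obtain ⟨eta, C, r, heta, hetaP, hr, hloop⟩ := h1 P
  obtain ⟨ρ, hρ0, hρ1, hrρ⟩ := THETA.exists_cube hr
  set L : ℝ≥0 := max 1 C with hLdef
  have hL1 : 1 ≤ L := le_max_left _ _
  have hL0 : 0 < L := zero_lt_one.trans_le hL1
  have hR1 : (1 : ℝ≥0) ≤ 8 * L ^ 2 := by
    calc (1 : ℝ≥0) ≤ 8 * 1 ^ 2 := by norm_num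
      _ ≤ 8 * L ^ 2 := by gcongr
  refine ⟨8 * L ^ 2, hR1, ?_⟩
  intro K0
  have hsub : 0 < 1 - ρ := tsub_pos_of_lt hρ1
  obtain ⟨n, hn⟩ := NNReal.exists_pow_lt_of_lt_one (a := (1 - ρ) / (32 * L ^ 2)) (by positivity) hρ1
  obtain ⟨K1, hK1⟩ := h2 P (8 * L ^ 2)⁻¹ (max (max 1 K0) n) (by positivity)
  refine ⟨K1, fun v1 b hCl => ?_⟩
  obtain ⟨K, hK, hK', hNc⟩ := hK1 v1 b hCl
  have hKa : 1 ≤ K := (le_max_left _ _).trans ((le_max_left _ _).trans hK)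
  have hKb : K0 ≤ K := (le_max_right _ _).trans ((le_max_left _ _).trans hK)
  have hKc : n ≤ K := (le_max_right _ _).trans hK
  refine ⟨K, hKa, hKb, hK', ?_⟩
  have hz : zst b ≤ (1 + eta) * zst b := by
    calc zst b = 1 * zst b := (one_mul _).symm
      _ ≤ (1 + eta) * zst b := mul_le_mul_left le_self_add _
  have hloop' : ∀ d, gs (Wl b (zst b)) {l | l ∈ Lp ∧ d ≤ ext l} ≤
      (L : ℝ≥0∞) * (ρ : ℝ≥0∞) ^ (3 * d) := by
    intro d
    refine (hloop v1 b hCl (zst b) hz d).trans ?_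
    have e1 : (C : ℝ≥0∞) ≤ L := by exact_mod_cast le_max_right _ _
    have e2 : (r : ℝ≥0∞) ^ d ≤ (ρ : ℝ≥0∞) ^ (3 * d) := by
      rw [pow_mul]
      refine pow_le_pow_left₀ bot_le ?_ d
      exact_mod_cast hrρ
    exact mul_le_mul' e1 e2
  have hρK : ρ ^ K ≤ (1 - ρ) / (32 * L ^ 2) :=
    (pow_le_pow_right_of_le_one' hρ1.le hKc).trans hn.le
  -- the numbers
  have n1 : 8 * L ^ 2 * ρ ^ K ≤ 1 := by
    calc 8 * L ^ 2 * ρ ^ K ≤ 8 * L ^ 2 * (1 / (32 * L ^ 2)) := by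
          gcongr
          refine hρK.trans ?_
          gcongr
          exact tsub_le_self
      _ = 1 / 4 := by field_simp; norm_num
      _ ≤ 1 := by
          rw [← NNReal.coe_le_coe]
          push_cast
          norm_num
  have n2 : L * ρ ^ K * (1 - ρ)⁻¹ ≤ (32 * L)⁻¹ := by
    calc L * ρ ^ K * (1 - ρ)⁻¹ ≤ L * ((1 - ρ) / (32 * L ^ 2)) * (1 - ρ)⁻¹ := by gcongr
      _ = (32 * L)⁻¹ := by field_simp
  have n3 : L * ρ ^ K ≤ (32 * L)⁻¹ := by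
    refine le_trans ?_ n2
    calc L * ρ ^ K = L * ρ ^ K * 1 := (mul_one _).symm
      _ ≤ L * ρ ^ K * (1 - ρ)⁻¹ := by
          gcongr
          rw [one_le_inv₀ hsub]
          exact tsub_le_self
  have hsube : (1 - (ρ : ℝ≥0∞))⁻¹ = (((1 - ρ)⁻¹ : ℝ≥0) : ℝ≥0∞) := by
    rw [ENNReal.coe_inv hsub.ne', ENNReal.coe_sub, ENNReal.coe_one]
  have n4 : (32 * L)⁻¹ ≤ 1 := by
    rw [inv_le_one₀ (by positivity)]
    calc (1 : ℝ≥0) ≤ 32 * 1 := by norm_num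
      _ ≤ 32 * L := by gcongr
  have key := THETA.theta_le h3 h4 hCl.w (z := zst b) (L := L) (R := ((8 * L ^ 2 : ℝ≥0) : ℝ≥0∞))
    (ρ := ρ) (e := (((8 * L ^ 2)⁻¹ : ℝ≥0) : ℝ≥0∞)) (K := K) hKa hloop' (by exact_mod_cast hL1)
    (by exact_mod_cast n1) (by exact_mod_cast hρ1.le)
    (by rw [hsube]; exact_mod_cast n2.trans n4) (hCl.Y_le _) hNc
  refine key.trans ?_
  rw [hsube, ← ENNReal.coe_inv (by positivity : (8 * L ^ 2 : ℝ≥0) ≠ 0)]
  have fin : 2 * (L * ρ ^ K * (1 - ρ)⁻¹) * (2 * L) + 2 * (L * ρ ^ K) * L +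
      L ^ 2 * (8 * L ^ 2)⁻¹ + L ^ 2 * (8 * L ^ 2)⁻¹ ≤ (2⁻¹ : ℝ≥0) := by
    calc 2 * (L * ρ ^ K * (1 - ρ)⁻¹) * (2 * L) + 2 * (L * ρ ^ K) * L +
          L ^ 2 * (8 * L ^ 2)⁻¹ + L ^ 2 * (8 * L ^ 2)⁻¹
        ≤ 2 * (32 * L)⁻¹ * (2 * L) + 2 * (32 * L)⁻¹ * L + L ^ 2 * (8 * L ^ 2)⁻¹ +
          L ^ 2 * (8 * L ^ 2)⁻¹ := by gcongr
      _ = 7 / 16 := by
          field_simp
          norm_num
      _ ≤ 2⁻¹ := by
          rw [← NNReal.coe_le_coe]
          push_cast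
          norm_num
  have fin' := ENNReal.coe_le_coe.2 fin
  push_cast at fin' ⊢
  exact fin'

end Pool.Agent.OC
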